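import Mathlib

/-! A discrete Wirtinger inequality for antiperiodic sequences and closed polygons. -/

set_option autoImplicit false

namespace Run7.h761

open Finset

theorem sum_shift_one (n : ℕ) (f : ℕ → ℝ) (hf : f n = f 0) :
    ∑ k ∈ range n, f (k + 1) = ∑ k ∈ range n, f k := by
  have h1 := Finset.sum_range_succ f n
  have h2 := Finset.sum_range_succ' f n
  linarith

theorem sum_shift (n : ℕ) (f : ℕ → ℝ) (hf : ∀ k, f (k + n) = f k) (j : ℕ) :
    ∑ k ∈ range n, f (k + j) = ∑ k ∈ range n, f k := by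
  induction j with
  | zero => rfl
  | succ j ih =>
    rw [← ih]
    have := sum_shift_one n (fun k => f (k + j)) (by simp only [zero_add]; rw [add_comm, hf])
    rw [← this]
    refine Finset.sum_congr rfl fun k _ => ?_
    congr 1
    ring

/-- the case where the sequence changes sign between `0` and `1` -/
theorem anti_aux {n : ℕ} (hn : 2 ≤ n) {u : ℕ → ℝ} (hu : ∀ k, u (k + n) = -u k)
    (h0 : u 0 ≤ 0) (h1 : 0 < u 1) :
    ∑ k ∈ range n, u (k + 1) * u (k + 2) ≤
      Real.cos (Real.pi / n) * ∑ k ∈ range n, u (k + 1) ^ 2 := by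
  set θ : ℝ := Real.pi / n with hθ
  have hn0 : (0 : ℝ) < n := by positivity
  have hnθ : (n : ℝ) * θ = Real.pi := by rw [hθ]; field_simp
  have hθpos : 0 < θ := by positivity
  set c := Real.cos θ with hc
  set v : ℕ → ℝ := fun k => u 1 * Real.sin (k * θ) - u 0 * Real.sin (((k : ℝ) - 1) * θ) with hv
  have hrec : ∀ k : ℕ, v (k + 2) = 2 * c * v (k + 1) - v k := by
    intro k
    simp only [hv, hc]
    push_cast
    have e1 : Real.sin (((k : ℝ) + 2) * θ) = 2 * Real.cos θ * Real.sin (((k : ℝ) + 1) * θ) -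
        Real.sin ((k : ℝ) * θ) := by
      have a1 : ((k : ℝ) + 2) * θ = ((k : ℝ) + 1) * θ + θ := by ring
      have a2 : (k : ℝ) * θ = ((k : ℝ) + 1) * θ - θ := by ring
      rw [a1, a2, Real.sin_add, Real.sin_sub]; ring
    have e2 : Real.sin (((k : ℝ) + 2 - 1) * θ) =
        2 * Real.cos θ * Real.sin (((k : ℝ) + 1 - 1) * θ) - Real.sin (((k : ℝ) - 1) * θ) := by
      have a1 : ((k : ℝ) + 2 - 1) * θ = (k : ℝ) * θ + θ := by ring
      have a2 : ((k : ℝ) - 1) * θ = (k : ℝ) * θ - θ := by ring
      have a3 : ((k : ℝ) + 1 - 1) * θ = (k : ℝ) * θ := by ring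
      rw [a1, a2, a3, Real.sin_add, Real.sin_sub]; ring
    rw [e1, e2]; ring
  have hsin : ∀ k : ℕ, 0 < k → k < n → 0 < Real.sin (k * θ) := by
    intro k hk hkn
    apply Real.sin_pos_of_pos_of_lt_pi
    · have : (0 : ℝ) < k := by exact_mod_cast hk
      positivity
    · rw [← hnθ]
      exact mul_lt_mul_of_pos_right (by exact_mod_cast hkn) hθpos
  have hsin' : ∀ k : ℕ, 0 < k → k ≤ n → 0 ≤ Real.sin (((k : ℝ) - 1) * θ) := by
    intro k hk hkn
    apply Real.sin_nonneg_of_nonneg_of_le_pi
    · have : (1 : ℝ) ≤ k := by exact_mod_cast hk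
      nlinarith
    · rw [← hnθ]
      apply mul_le_mul_of_nonneg_right _ hθpos.le
      have : (k : ℝ) ≤ n := by exact_mod_cast hkn
      linarith
  have hvpos : ∀ k : ℕ, 0 < k → k < n → 0 < v k := by
    intro k hk hkn
    have a := hsin k hk hkn
    have b := hsin' k hk hkn.le
    simp only [hv]
    nlinarith [mul_pos h1 a, mul_nonneg (neg_nonneg.2 h0) b]
  have hs : 0 < Real.sin θ := by
    have := hsin 1 (by omega) (by omega)
    simpa using this
  have hv0 : v 0 = u 0 * Real.sin θ := by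
    simp only [hv]
    push_cast
    have : ((0 : ℝ) - 1) * θ = -θ := by ring
    rw [zero_mul, Real.sin_zero, this, Real.sin_neg]; ring
  have hv1 : v 1 = u 1 * Real.sin θ := by
    simp only [hv]
    push_cast
    have : ((1 : ℝ) - 1) * θ = 0 := by ring
    rw [this, Real.sin_zero]; ring
  have hvn : v n = -v 0 := by
    rw [hv0]
    simp only [hv]
    have : ((n : ℝ) - 1) * θ = Real.pi - θ := by rw [sub_mul, hnθ]; ring
    rw [this, hnθ, Real.sin_pi, Real.sin_pi_sub]; ring
  have hvn1 : v (n + 1) = -v 1 := by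
    rw [hv1]
    simp only [hv]
    push_cast
    have e : ((n : ℝ) + 1) * θ = Real.pi + θ := by rw [add_mul, hnθ]; ring
    have e' : ((n : ℝ) + 1 - 1) * θ = Real.pi := by rw [← hnθ]; ring
    rw [e, e', Real.sin_pi, Real.sin_add, Real.sin_pi, Real.cos_pi]; ring
  -- the main induction
  have main : ∀ m : ℕ, m + 1 < n → 2 * ∑ k ∈ range m, u (k + 1) * u (k + 2) ≤
      2 * c * ∑ k ∈ range (m + 1), u (k + 1) ^ 2 - u (m + 1) ^ 2 * (v (m + 2) / v (m + 1)) -
        u 0 * u 1 := by
    intro m
    induction m with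
    | zero =>
      intro _
      have hp := hvpos 1 (by omega) (by omega)
      simp only [range_zero, sum_empty, mul_zero, zero_add, sum_range_succ, zero_add]
      rw [hrec 0, zero_add]
      have : u 1 ^ 2 * ((2 * c * v 1 - v 0) / v 1) = 2 * c * u 1 ^ 2 - u 0 * u 1 := by
        rw [hv1, hv0]
        field_simp
      rw [this]
      linarith
    | succ m ih =>
      intro hm
      have ih' := ih (by omega)
      have hp := hvpos (m + 1) (by omega) (by omega)
      have hp' := hvpos (m + 2) (by omega) (by omega)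
      rw [sum_range_succ, sum_range_succ _ (m + 1)]
      have key : 2 * (u (m + 1) * u (m + 2)) ≤ u (m + 1) ^ 2 * (v (m + 2) / v (m + 1)) +
          u (m + 2) ^ 2 * (v (m + 1) / v (m + 2)) := by
        have h := sq_nonneg (u (m + 1) * v (m + 2) - u (m + 2) * v (m + 1))
        have e : u (m + 1) ^ 2 * (v (m + 2) / v (m + 1)) +
            u (m + 2) ^ 2 * (v (m + 1) / v (m + 2)) - 2 * (u (m + 1) * u (m + 2)) =
            (u (m + 1) * v (m + 2) - u (m + 2) * v (m + 1)) ^ 2 / (v (m + 1) * v (m + 2)) := by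
          field_simp
          ring
        have h2 := div_nonneg h (mul_pos hp hp').le
        linarith
      have e3 : v (m + 1 + 2) / v (m + 1 + 1) = 2 * c - v (m + 1) / v (m + 2) := by
        rw [hrec (m + 1)]
        have : v (m + 1 + 1) = v (m + 2) := rfl
        rw [this]
        field_simp
      rw [e3]
      have e4 : u (m + 1 + 1) = u (m + 2) := rfl
      rw [e4]
      nlinarith
  obtain ⟨m, rfl⟩ : ∃ m, n = m + 2 := ⟨n - 2, by omega⟩
  have hm := main m (by omega)
  rw [sum_range_succ, sum_range_succ, sum_range_succ _ (m + 1)]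
  have hun : u (m + 2) = -u 0 := by have := hu 0; rwa [zero_add] at this
  have hun1 : u (m + 1 + 2) = -u 1 := by
    have := hu 1
    have e : 1 + (m + 2) = m + 1 + 2 := by ring
    rwa [e] at this
  have hp := hvpos (m + 1) (by omega) (by omega)
  have hlast : 2 * (u (m + 1) * u (m + 2)) ≤ u (m + 1) ^ 2 * (v (m + 2) / v (m + 1)) +
      (2 * c * u (m + 2) ^ 2 - u 0 * u 1) := by
    rcases h0.lt_or_eq with h | h
    · have hp' : 0 < v (m + 2) := by
        rw [hvn, hv0]
        nlinarith [mul_pos (neg_pos.2 h) hs]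
      have h2 : u (m + 2) ^ 2 * (v (m + 1) / v (m + 2)) = 2 * c * u (m + 2) ^ 2 - u 0 * u 1 := by
        have h3 := hrec (m + 1)
        have h4 : v (m + 1 + 2) = -v 1 := hvn1
        have h5 : v (m + 1) = 2 * c * v (m + 2) + v 1 := by
          have : v (m + 1 + 1) = v (m + 2) := rfl
          rw [h4, this] at h3
          linarith
        rw [h5, hvn, hv0, hv1, hun]
        have hs' := hs.ne'
        field_simp
        ring
      rw [← h2]
      have h := sq_nonneg (u (m + 1) * v (m + 2) - u (m + 2) * v (m + 1))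
      have e : u (m + 1) ^ 2 * (v (m + 2) / v (m + 1)) +
          u (m + 2) ^ 2 * (v (m + 1) / v (m + 2)) - 2 * (u (m + 1) * u (m + 2)) =
          (u (m + 1) * v (m + 2) - u (m + 2) * v (m + 1)) ^ 2 / (v (m + 1) * v (m + 2)) := by
        field_simp
        ring
      have h2 := div_nonneg h (mul_pos hp hp').le
      linarith
    · have h2 : v (m + 2) = 0 := by rw [hvn, hv0, h]; ring
      rw [hun, h2, h]
      simp
  have e5 : u (m + 1 + 1) = u (m + 2) := rfl
  rw [e5, hun1]
  have e6 : u (m + 2) * -u 1 = u 0 * u 1 := by rw [hun]; ring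
  rw [e6]
  nlinarith

theorem anti_wirtinger {n : ℕ} (hn : 2 ≤ n) {u : ℕ → ℝ} (hu : ∀ k, u (k + n) = -u k) :
    ∑ k ∈ range n, u k * u (k + 1) ≤ Real.cos (Real.pi / n) * ∑ k ∈ range n, u k ^ 2 := by
  by_cases hz : ∃ j, u j ≤ 0 ∧ 0 < u (j + 1)
  · obtain ⟨j, hj0, hj1⟩ := hz
    have h := anti_aux hn (u := fun k => u (j + k)) (fun k => by rw [← add_assoc, hu]) hj0 hj1
    have h1 := sum_shift n (fun k => u k * u (k + 1)) (fun k => by
      rw [hu, show k + n + 1 = k + 1 + n by ring, hu]; ring) (j + 1)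
    have h2 := sum_shift n (fun k => u k ^ 2) (fun k => by rw [hu]; ring) (j + 1)
    have e1 : ∑ k ∈ range n, u (k + (j + 1)) * u (k + (j + 1) + 1) =
        ∑ k ∈ range n, u (j + (k + 1)) * u (j + (k + 2)) :=
      Finset.sum_congr rfl fun k _ => by
        rw [show k + (j + 1) = j + (k + 1) by ring, show j + (k + 1) + 1 = j + (k + 2) by ring]
    have e2 : ∑ k ∈ range n, u (k + (j + 1)) ^ 2 = ∑ k ∈ range n, u (j + (k + 1)) ^ 2 :=
      Finset.sum_congr rfl fun k _ => by rw [show k + (j + 1) = j + (k + 1) by ring]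
    rw [← h1, ← h2, e1, e2]
    exact h
  · push Not at hz
    have hall : ∀ k, u k ≤ 0 := by
      intro k
      by_contra hk
      push Not at hk
      have h2 : u (k + n + n) = u k := by rw [hu, hu]; ring
      have hdesc : ∀ i, i ≤ n → 0 < u (k + n + n - i) := by
        intro i
        induction i with
        | zero => intro _; rw [Nat.sub_zero, h2]; exact hk
        | succ i ih =>
          intro hi
          have h3 := ih (by omega)
          by_contra h4
          push Not at h4
          have h5 := hz _ h4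
          have e : k + n + n - (i + 1) + 1 = k + n + n - i := by omega
          rw [e] at h5
          linarith
      have h3 := hdesc n le_rfl
      have e : k + n + n - n = k + n := by omega
      rw [e, hu] at h3
      linarith
    have hzero : ∀ k, u k = 0 := by
      intro k
      have h1 := hall k
      have h2 := hall (k + n)
      rw [hu] at h2
      linarith
    simp [hzero]

/-- cross product of two complex numbers -/
def cr (u v : ℂ) : ℝ := u.re * v.im - u.im * v.re

theorem normSq_sub' (a b : ℂ) : ‖b - a‖ ^ 2 = ‖a‖ ^ 2 + ‖b‖ ^ 2 - 2 * (a.re * b.re + a.im * b.im) := by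
  rw [← Complex.normSq_eq_norm_sq, ← Complex.normSq_eq_norm_sq, ← Complex.normSq_eq_norm_sq]
  simp only [Complex.normSq_apply, Complex.sub_re, Complex.sub_im]
  ring

/-- discrete Wirtinger inequality for closed polygons -/
theorem polygon_wirtinger {n : ℕ} (hn : 3 ≤ n) (z : ℕ → ℂ) (hz : ∀ k, z (k + n) = z k) :
    4 * Real.tan (Real.pi / n) * ((∑ k ∈ range n, cr (z k) (z (k + 1))) / 2) ≤
      ∑ k ∈ range n, ‖z (k + 1) - z k‖ ^ 2 := by
  set θ : ℝ := Real.pi / n with hθ
  have hn0 : (0 : ℝ) < n := by positivity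
  have hnθ : (n : ℝ) * θ = Real.pi := by rw [hθ]; field_simp
  have hn3 : (3 : ℝ) ≤ n := by exact_mod_cast hn
  have hθpos : 0 < θ := by positivity
  have hθlt : θ < Real.pi / 2 := by
    rw [hθ]
    apply div_lt_div_of_pos_left Real.pi_pos (by norm_num) (by linarith)
  have hc : 0 < Real.cos θ := Real.cos_pos_of_mem_Ioo ⟨by linarith, hθlt⟩
  set p : ℕ → ℝ := fun k => Real.cos (k * θ) * (z k).re + Real.sin (k * θ) * (z k).im with hp
  set q : ℕ → ℝ := fun k => -Real.sin (k * θ) * (z k).re + Real.cos (k * θ) * (z k).im with hq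
  have hcosn : ∀ k : ℕ, Real.cos (((k + n : ℕ) : ℝ) * θ) = -Real.cos (k * θ) := by
    intro k
    push_cast
    rw [add_mul, hnθ, Real.cos_add_pi]
  have hsinn : ∀ k : ℕ, Real.sin (((k + n : ℕ) : ℝ) * θ) = -Real.sin (k * θ) := by
    intro k
    push_cast
    rw [add_mul, hnθ, Real.sin_add_pi]
  have hp' : ∀ k, p (k + n) = -p k := by
    intro k
    simp only [hp, hcosn, hsinn, hz]; ring
  have hq' : ∀ k, q (k + n) = -q k := by
    intro k
    simp only [hq, hcosn, hsinn, hz]; ring
  have h1 := anti_wirtinger (by omega) hp'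
  have h2 := anti_wirtinger (by omega) hq'
  rw [← hθ] at h1 h2
  have e1 : ∀ k : ℕ, p k ^ 2 + q k ^ 2 = ‖z k‖ ^ 2 := by
    intro k
    rw [← Complex.normSq_eq_norm_sq, Complex.normSq_apply]
    simp only [hp, hq]
    have := Real.sin_sq_add_cos_sq ((k : ℝ) * θ)
    linear_combination ((z k).re ^ 2 + (z k).im ^ 2) * this
  have e2 : ∀ k : ℕ, p k * p (k + 1) + q k * q (k + 1) =
      Real.cos θ * ((z k).re * (z (k + 1)).re + (z k).im * (z (k + 1)).im) +
        Real.sin θ * cr (z k) (z (k + 1)) := by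
    intro k
    have a1 : Real.cos θ = Real.cos (((k + 1 : ℕ) : ℝ) * θ) * Real.cos (k * θ) +
        Real.sin (((k + 1 : ℕ) : ℝ) * θ) * Real.sin (k * θ) := by
      rw [← Real.cos_sub]; congr 1; push_cast; ring
    have a2 : Real.sin θ = Real.sin (((k + 1 : ℕ) : ℝ) * θ) * Real.cos (k * θ) -
        Real.cos (((k + 1 : ℕ) : ℝ) * θ) * Real.sin (k * θ) := by
      rw [← Real.sin_sub]; congr 1; push_cast; ring
    rw [a1, a2]
    simp only [hp, hq, cr]
    ring
  have h3 : ∑ k ∈ range n, (Real.cos θ * ((z k).re * (z (k + 1)).re + (z k).im * (z (k + 1)).im) +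
        Real.sin θ * cr (z k) (z (k + 1))) ≤ Real.cos θ * ∑ k ∈ range n, ‖z k‖ ^ 2 := by
    rw [← Finset.sum_congr rfl fun k _ => e2 k, ← Finset.sum_congr rfl fun k _ => e1 k,
      Finset.sum_add_distrib, Finset.sum_add_distrib, mul_add]
    exact add_le_add h1 h2
  have h4 : ∑ k ∈ range n, ‖z (k + 1)‖ ^ 2 = ∑ k ∈ range n, ‖z k‖ ^ 2 :=
    sum_shift_one n (fun k => ‖z k‖ ^ 2) (by have := hz 0; rw [zero_add] at this; rw [this])
  have h5 : ∑ k ∈ range n, ‖z (k + 1) - z k‖ ^ 2 = 2 * ∑ k ∈ range n, ‖z k‖ ^ 2 -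
      2 * ∑ k ∈ range n, ((z k).re * (z (k + 1)).re + (z k).im * (z (k + 1)).im) := by
    rw [Finset.sum_congr rfl fun k _ => normSq_sub' (z k) (z (k + 1)), Finset.sum_sub_distrib,
      Finset.sum_add_distrib, h4, ← Finset.mul_sum]
    ring
  rw [Finset.sum_add_distrib, ← Finset.mul_sum, ← Finset.mul_sum] at h3
  rw [h5, Real.tan_eq_sin_div_cos]
  have h6 : 4 * (Real.sin θ / Real.cos θ) * ((∑ k ∈ range n, cr (z k) (z (k + 1))) / 2) =
      (2 * (Real.sin θ * ∑ k ∈ range n, cr (z k) (z (k + 1)))) / Real.cos θ := by ring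
  rw [h6, div_le_iff₀ hc]
  nlinarith

end Run7.h761
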