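import Pool.Agent.Run7.h761.Lattice

/-! Lower bound for the number of lattice points of the 24-gon. -/

set_option autoImplicit false

namespace Run7.h761

open scoped Classical

theorem rot6 (v : V) : rot^[6] v = v := by
  simp only [Function.iterate_succ, Function.iterate_zero, Function.comp_apply, rot, id]
  ext <;> simp

theorem rotn_add (s u : Fin 6) (v : V) : rotn s (rotn u v) = rotn (s + u) v := by
  unfold rotn
  rw [← Function.iterate_add_apply]
  have : s.val + u.val = (s + u).val ∨ s.val + u.val = (s + u).val + 6 := by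
    revert s u; decide
  rcases this with h | h
  · rw [h]
  · rw [h, Function.iterate_add_apply, rot6]

theorem fin6_cancel : ∀ s t : Fin 6, s + (t - s) = t := by decide

theorem hf_rotn' (f : Facet) (s : Fin 6) (p : V) : hf f (rotn s p) = hf (f.1, f.2 - s) p := by
  obtain ⟨c, t⟩ := f
  simp only
  have h1 : p = rotn (t - s) (rotn (-(t - s)) p) := (rotn_neg _ _).symm
  have h2 : hf (c, t - s) p = hc c (rotn (-(t - s)) p) := by
    conv_lhs => rw [h1]
    rw [hf_rotn]
  rw [h2]
  conv_lhs => rw [h1]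
  rw [rotn_add]
  rw [fin6_cancel, hf_rotn]

/-- the fundamental sector -/
def Sec (k : ℤ) (p : V) : Prop :=
  1 ≤ p.1 ∧ 0 ≤ p.2 ∧ 2 * p.1 + p.2 ≤ 56 * k ∧ 3 * p.1 + 2 * p.2 ≤ 85 * k ∧ p.1 + p.2 ≤ 30 * k ∧
    2 * p.1 + 3 * p.2 ≤ 85 * k ∧ p.1 + 2 * p.2 ≤ 56 * k

theorem sec_ins {k : ℤ} {p : V} (h : Sec k p) : Ins k p := by
  obtain ⟨h1, h2, h3, h4, h5, h6, h7⟩ := h
  rintro ⟨c, t⟩
  unfold dep hf
  fin_cases c <;> fin_cases t <;>
    simp [covf, cov, crot, mu] <;> omega

theorem rotn_ins {k : ℤ} {p : V} (h : Ins k p) (s : Fin 6) : Ins k (rotn s p) := by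
  intro f
  have := h (f.1, f.2 - s)
  unfold dep at *
  rw [hf_rotn']
  exact this

/-- the sector as a finite set -/
noncomputable def secK (k : ℤ) : Finset V :=
  (Finset.Icc 1 (28 * k) ×ˢ Finset.Icc 0 (30 * k)).filter (Sec k)

theorem sec_inj {k : ℤ} {s s' : Fin 6} {p p' : V} (h : Sec k p) (h' : Sec k p')
    (he : rotn s p = rotn s' p') : s = s' ∧ p = p' := by
  have h1 := h.1
  have h2 := h.2.1
  have h3 := h'.1
  have h4 := h'.2.1
  obtain ⟨a, b⟩ := p
  obtain ⟨a', b'⟩ := p'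
  simp only at h1 h2 h3 h4
  unfold rotn at he
  fin_cases s <;> fin_cases s' <;>
    simp [rot, Prod.ext_iff] at he ⊢ <;> omega

theorem ins_ge_sec (k : ℤ) : 6 * (secK k).card ≤ (insK k).card := by
  have h : ((Finset.univ : Finset (Fin 6)) ×ˢ secK k).card ≤ (insK k).card := by
    apply Finset.card_le_card_of_injOn (fun x => rotn x.1 x.2)
    · rintro ⟨s, p⟩ hx
      have hp := (Finset.mem_filter.1 (Finset.mem_product.1 hx).2).2
      exact mem_insK.2 (rotn_ins (sec_ins hp) s)
    · rintro ⟨s, p⟩ hx ⟨s', p'⟩ hx' he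
      have hp := (Finset.mem_filter.1 (Finset.mem_product.1 hx).2).2
      have hp' := (Finset.mem_filter.1 (Finset.mem_product.1 hx').2).2
      obtain ⟨e1, e2⟩ := sec_inj hp hp' he
      exact Prod.ext e1 e2
  rw [Finset.card_product, Finset.card_univ, Fintype.card_fin] at h
  exact h

/-- six times a lower bound for the number of points above the abscissa `a` -/
def low (k a : ℤ) : ℤ :=
  min (min (3 * (56 * k - a)) (2 * (85 * k - 2 * a))) (min (6 * (30 * k - a))
    (min (3 * (85 * k - 3 * a)) (6 * (56 * k - 2 * a))))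

theorem column {k a : ℤ} (ha : 1 ≤ a) (ha' : a ≤ 28 * k) :
    low k a ≤ 6 * (((secK k).filter fun p => p.1 = a).card : ℤ) := by
  have hsub : ((Finset.Icc 0 (low k a / 6)).image fun b => ((a, b) : V)) ⊆
      (secK k).filter fun p => p.1 = a := by
    intro p hp
    obtain ⟨b, hb, rfl⟩ := Finset.mem_image.1 hp
    rw [Finset.mem_Icc] at hb
    have hb6 : 6 * b ≤ low k a := by omega
    unfold low at hb6
    simp only [le_min_iff] at hb6
    obtain ⟨⟨h1, h2⟩, h3, h4, h5⟩ := hb6
    refine Finset.mem_filter.2 ⟨Finset.mem_filter.2 ⟨Finset.mem_product.2 ⟨?_, ?_⟩, ?_⟩, rfl⟩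
    · exact Finset.mem_Icc.2 ⟨ha, ha'⟩
    · refine Finset.mem_Icc.2 ⟨hb.1, ?_⟩
      simp only
      omega
    · unfold Sec
      simp only
      omega
  have h1 := Finset.card_le_card hsub
  rw [Finset.card_image_of_injective _ (fun x y h => by simpa using h), Int.card_Icc] at h1
  have h2 : low k a / 6 + 1 - 0 ≤ ((low k a / 6 + 1 - 0).toNat : ℤ) := Int.self_le_toNat _
  have h3 : ((low k a / 6 + 1 - 0).toNat : ℤ) ≤
      (((secK k).filter fun p => p.1 = a).card : ℤ) := by exact_mod_cast h1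
  omega

theorem sec_card (k : ℕ) : ∑ a ∈ Finset.Ioc 0 (28 * k), low k (a : ℕ) ≤ 6 * ((secK k).card : ℤ) := by
  have h1 : ((secK k).card : ℤ) =
      ∑ a ∈ Finset.Ioc 0 (28 * k), (((secK k).filter fun p => p.1 = ((a : ℕ) : ℤ)).card : ℤ) := by
    rw [← Nat.cast_sum]
    congr 1
    have h2 := Finset.card_eq_sum_card_fiberwise (s := secK k) (t := Finset.Ioc 0 (28 * k))
      (f := fun p => p.1.toNat) (by
        intro p hp
        have := (Finset.mem_product.1 (Finset.mem_filter.1 hp).1).1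
        rw [Finset.mem_Icc] at this
        simp only [Finset.coe_Ioc, Set.mem_Ioc]
        omega)
    rw [h2]
    refine Finset.sum_congr rfl fun a ha => ?_
    congr 1
    apply Finset.filter_congr
    intro p hp
    have := (Finset.mem_product.1 (Finset.mem_filter.1 hp).1).1
    rw [Finset.mem_Icc] at this
    constructor
    · intro h; omega
    · intro h; omega
  rw [h1, Finset.mul_sum]
  refine Finset.sum_le_sum fun a ha => ?_
  rw [Finset.mem_Ioc] at ha
  exact column (by omega) (by omega)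

theorem sum_lin (α β : ℤ) (m : ℕ) : ∀ n : ℕ,
    2 * ∑ a ∈ Finset.Ioc m (m + n), (α - β * (a : ℕ)) =
      2 * α * n - β * ((m + n) * (m + n + 1) - m * (m + 1))
  | 0 => by simp
  | n + 1 => by
    have ih := sum_lin α β m n
    rw [← add_assoc, Finset.sum_Ioc_succ_top (by omega)]
    rw [mul_add, ih]
    push_cast
    ring

theorem low_sum (k : ℕ) : 2646 * (k : ℤ) ^ 2 - 84 * k ≤
    ∑ a ∈ Finset.Ioc 0 (28 * k), low k (a : ℕ) := by
  have e1 := Finset.sum_Ioc_consecutive (fun a : ℕ => low k a) (m := 0) (n := 2 * k) (k := 28 * k)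
    (by omega) (by omega)
  have e2 := Finset.sum_Ioc_consecutive (fun a : ℕ => low k a) (m := 2 * k) (n := 5 * k)
    (k := 28 * k) (by omega) (by omega)
  have e3 := Finset.sum_Ioc_consecutive (fun a : ℕ => low k a) (m := 5 * k) (n := 25 * k)
    (k := 28 * k) (by omega) (by omega)
  have e4 := Finset.sum_Ioc_consecutive (fun a : ℕ => low k a) (m := 25 * k) (n := 27 * k)
    (k := 28 * k) (by omega) (by omega)
  have s1 := sum_lin (168 * k) 3 0 (2 * k)
  have s2 := sum_lin (170 * k) 4 (2 * k) (3 * k)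
  have s3 := sum_lin (180 * k) 6 (5 * k) (20 * k)
  have s4 := sum_lin (255 * k) 9 (25 * k) (2 * k)
  have s5 := sum_lin (336 * k) 12 (27 * k) k
  have r1 : 0 + 2 * k = 2 * k := by ring
  have r2 : 2 * k + 3 * k = 5 * k := by ring
  have r3 : 5 * k + 20 * k = 25 * k := by ring
  have r4 : 25 * k + 2 * k = 27 * k := by ring
  have r5 : 27 * k + k = 28 * k := by ring
  rw [r1] at s1
  rw [r2] at s2
  rw [r3] at s3
  rw [r4] at s4
  rw [r5] at s5
  have t1 : ∑ a ∈ Finset.Ioc 0 (2 * k), ((168 * k : ℤ) - 3 * (a : ℕ)) ≤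
      ∑ a ∈ Finset.Ioc 0 (2 * k), low k (a : ℕ) := by
    refine Finset.sum_le_sum fun a ha => ?_
    rw [Finset.mem_Ioc] at ha
    unfold low
    simp only [le_min_iff]
    omega
  have t2 : ∑ a ∈ Finset.Ioc (2 * k) (5 * k), ((170 * k : ℤ) - 4 * (a : ℕ)) ≤
      ∑ a ∈ Finset.Ioc (2 * k) (5 * k), low k (a : ℕ) := by
    refine Finset.sum_le_sum fun a ha => ?_
    rw [Finset.mem_Ioc] at ha
    unfold low
    simp only [le_min_iff]
    omega
  have t3 : ∑ a ∈ Finset.Ioc (5 * k) (25 * k), ((180 * k : ℤ) - 6 * (a : ℕ)) ≤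
      ∑ a ∈ Finset.Ioc (5 * k) (25 * k), low k (a : ℕ) := by
    refine Finset.sum_le_sum fun a ha => ?_
    rw [Finset.mem_Ioc] at ha
    unfold low
    simp only [le_min_iff]
    omega
  have t4 : ∑ a ∈ Finset.Ioc (25 * k) (27 * k), ((255 * k : ℤ) - 9 * (a : ℕ)) ≤
      ∑ a ∈ Finset.Ioc (25 * k) (27 * k), low k (a : ℕ) := by
    refine Finset.sum_le_sum fun a ha => ?_
    rw [Finset.mem_Ioc] at ha
    unfold low
    simp only [le_min_iff]
    omega
  have t5 : ∑ a ∈ Finset.Ioc (27 * k) (28 * k), ((336 * k : ℤ) - 12 * (a : ℕ)) ≤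
      ∑ a ∈ Finset.Ioc (27 * k) (28 * k), low k (a : ℕ) := by
    refine Finset.sum_le_sum fun a ha => ?_
    rw [Finset.mem_Ioc] at ha
    unfold low
    simp only [le_min_iff]
    omega
  push_cast at s1 s2 s3 s4 s5 e1 e2 e3 e4
  nlinarith

theorem occK_card_lower {k : ℕ} (hk : 1 ≤ k) :
    2646 * (k : ℤ) ^ 2 - 84 * k - 95040 ≤ (occK k).card := by
  have h1 := low_sum k
  have h2 := sec_card k
  have h3 := ins_ge_sec (k : ℤ)
  have h4 := occK_lower (k := (k : ℤ)) (by exact_mod_cast hk)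
  have h3' : 6 * ((secK k).card : ℤ) ≤ (insK k).card := by exact_mod_cast h3
  have h4' : ((insK k).card : ℤ) ≤ (occK k).card + 95040 := by exact_mod_cast h4
  linarith

end Run7.h761
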