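import Pool.Agent.Run7.h761.Total
import Pool.Agent.Run7.h761.Sector

/-! The explicit upper bound for every `N` and the upper limit. -/

set_option autoImplicit false

namespace Run7.h761

open scoped Classical

/-- the perimeter bound for a patch of regular hexagons -/
theorem patch_bound (r : ℕ) : leastPerimeter r ≤
    ENNReal.ofReal (3 * (r : ℝ) + 96 * ((Nat.sqrt r : ℝ) + 1)) := by
  set q := Nat.sqrt r + 1 with hq
  have hqpos : 0 < q := by omega
  have hrq : r ≤ q * q := by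
    have := Nat.lt_succ_sqrt r
    rw [hq]
    exact this.le
  set occ := patch 0 q r with hocc
  have hcard : occ.card = r := patch_card 0 q r
  have hvalid : ∀ p ∈ occ, Valid (trg (mv 0 p) 0 hexP) ∧ InWin p (trg (mv 0 p) 0 hexP) ∧
      perR (trg (mv 0 p) 0 hexP) ≤ 8 * SS := by
    intro p hp
    obtain ⟨x, y, z⟩ := validB_iff valid_hexP
    exact ⟨valid_trg (good_mv _ _) _ x, inWin_trg y _ _, by rw [perR_trg]; exact z⟩
  have hadj : ∀ p ∈ occ, ∀ j, p + dir j ∈ occ →
      sepP (trg (mv 0 p) 0 hexP) (trg (mv 0 (p + dir j)) 0 hexP) = true ∧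
        Matched (trg (mv 0 p) 0 hexP) j (trg (mv 0 (p + dir j)) 0 hexP) := by
    intro p hp j hpj
    have h3 := transfer (chkHex j) 0 p
    rw [hexV_zero] at h3
    have h4 : rotn 0 (dir j) = dir j := rfl
    rw [h4, add_zero] at h3
    exact h3
  have hcfg := config_bound occ (fun p => trg (mv 0 p) 0 hexP) (fun p hp => (hvalid p hp).1)
    (fun p hp => (hvalid p hp).2.1) (fun p hp j hj => (hadj p hp j hj).1)
    (fun p hp j hj => (hadj p hp j hj).2)
  rw [hcard] at hcfg
  refine hcfg.trans (ENNReal.ofReal_le_ofReal ?_)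
  have hS := SS_pos
  have hsum : ∑ p ∈ occ, ((perR (trg (mv 0 p) 0 hexP) : ℝ) + outR (trg (mv 0 p) 0 hexP)) =
      6 * SS * (r : ℝ) := by
    have h1 : ∀ p ∈ occ, ((perR (trg (mv 0 p) 0 hexP) : ℝ) + outR (trg (mv 0 p) 0 hexP)) =
        6 * SS := by
      intro p _
      have h2 : W (trg (mv 0 p) 0 hexP) = 0 := by rw [W_trg, W_hex]
      unfold W at h2
      have h3 : ((perR (trg (mv 0 p) 0 hexP) + outR (trg (mv 0 p) 0 hexP) - 6 * SS : ℤ) : ℝ) = 0 := by
        rw [h2]; simp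
      push_cast at h3
      linarith
    rw [Finset.sum_congr rfl h1, Finset.sum_const, hcard, nsmul_eq_mul]
    ring
  have hU : ∑ x ∈ (occ ×ˢ (Finset.univ : Finset (Fin 6))).filter
        (fun x => x.1 + dir x.2 ∉ occ ∧ slot (trg (mv 0 x.1) 0 hexP) x.2 ≠ []),
        (perR (trg (mv 0 x.1) 0 hexP) : ℝ) ≤ 8 * SS * (6 * (4 * q)) := by
    have h1 : (occ ×ˢ (Finset.univ : Finset (Fin 6))).filter
        (fun x => x.1 + dir x.2 ∉ occ ∧ slot (trg (mv 0 x.1) 0 hexP) x.2 ≠ []) ⊆
        (((Finset.range r).filter (badI q r)).image (ppos 0 q)) ×ˢ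
          (Finset.univ : Finset (Fin 6)) := by
      rintro ⟨p, j⟩ hx
      obtain ⟨h2, h3, h4⟩ := Finset.mem_filter.1 hx
      have h2' := (Finset.mem_product.1 h2).1
      simp only at h2' h3 h4
      refine Finset.mem_product.2 ⟨?_, Finset.mem_univ _⟩
      simp only
      obtain ⟨i, hi, rfl⟩ := Finset.mem_image.1 h2'
      refine Finset.mem_image.2 ⟨i, Finset.mem_filter.2 ⟨hi, ?_⟩, rfl⟩
      by_contra hb
      exact h3 (patch_nb hqpos (Finset.mem_range.1 hi) hb j)
    have h2 : ((occ ×ˢ (Finset.univ : Finset (Fin 6))).filter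
        (fun x => x.1 + dir x.2 ∉ occ ∧ slot (trg (mv 0 x.1) 0 hexP) x.2 ≠ [])).card ≤
        6 * (4 * q) := by
      refine (Finset.card_le_card h1).trans ?_
      rw [Finset.card_product, Finset.card_univ, Fintype.card_fin, mul_comm]
      apply Nat.mul_le_mul_left
      exact (Finset.card_image_le (s := (Finset.range r).filter (badI q r))
        (f := ppos 0 q)).trans (bad_card hqpos hrq)
    have h3 := Finset.sum_le_card_nsmul _
      (fun x : V × Fin 6 => (perR (trg (mv 0 x.1) 0 hexP) : ℝ)) (8 * SS)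
      (fun x hx => by
        have hx' := (Finset.mem_product.1 (Finset.mem_filter.1 hx).1).1
        exact_mod_cast (hvalid x.1 hx').2.2 :
        ∀ x ∈ (occ ×ˢ (Finset.univ : Finset (Fin 6))).filter
          (fun x => x.1 + dir x.2 ∉ occ ∧ slot (trg (mv 0 x.1) 0 hexP) x.2 ≠ []), _)
    refine h3.trans ?_
    rw [nsmul_eq_mul, mul_comm]
    apply mul_le_mul_of_nonneg_left _ (by positivity)
    exact_mod_cast h2
  have hfin := add_le_add hsum.le hU
  rw [div_le_iff₀ (by positivity)]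
  refine hfin.trans ?_
  have hSv : (SS : ℝ) = 10000000 := by norm_num [SS]
  rw [hSv]
  push_cast [hq]
  linarith

/-- **Explicit upper bound for every `N`.** -/
theorem explicit_bound (N : ℕ) : leastPerimeter N ≤
    ENNReal.ofReal (3 * (N : ℝ) + 3.1095 * √N + 5000 * √(√N) + 3000000) := by
  set s : ℝ := √N with hs
  set t : ℝ := √s with ht
  have hs0 : 0 ≤ s := Real.sqrt_nonneg _
  have ht0 : 0 ≤ t := Real.sqrt_nonneg _
  have hs2 : s ^ 2 = N := Real.sq_sqrt (Nat.cast_nonneg N)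
  have ht2 : t ^ 2 = s := Real.sq_sqrt hs0
  by_cases hN : N < 95293
  · refine (patch_bound N).trans (ENNReal.ofReal_le_ofReal ?_)
    have h1 : Nat.sqrt N < 309 := by
      rw [Nat.sqrt_lt]
      omega
    have h2 : (Nat.sqrt N : ℝ) ≤ 309 := by exact_mod_cast h1.le
    nlinarith
  · push Not at hN
    set k := Nat.findGreatest (fun k => 2646 * k ^ 2 + 92646 * k + 1 ≤ N) N with hk
    have hP1 : 2646 * 1 ^ 2 + 92646 * 1 + 1 ≤ N := by omega
    have hk1 : 1 ≤ k := Nat.le_findGreatest (by omega) hP1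
    have hPk : 2646 * k ^ 2 + 92646 * k + 1 ≤ N :=
      Nat.findGreatest_spec (P := fun k => 2646 * k ^ 2 + 92646 * k + 1 ≤ N) (by omega) hP1
    have hPk' : N < 2646 * (k + 1) ^ 2 + 92646 * (k + 1) + 1 := by
      by_contra hc
      push Not at hc
      have h1 : k + 1 ≤ N := by nlinarith
      have := Nat.le_findGreatest (P := fun k => 2646 * k ^ 2 + 92646 * k + 1 ≤ N) h1 hc
      omega
    have hup := occK_upper k
    have hlo := occK_card_lower hk1
    set c := (occK (k : ℤ)).card with hc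
    have hcN : c ≤ N := by
      have : (c : ℤ) ≤ N := hup.trans (by exact_mod_cast hPk)
      exact_mod_cast this
    obtain ⟨r, hr⟩ := Nat.exists_eq_add_of_le hcN
    have hmb := main_bound k r hk1
    rw [← hc, ← hr] at hmb
    refine hmb.trans (ENNReal.ofReal_le_ofReal ?_)
    have hcr : (c : ℝ) + r = N := by rw [hr]; push_cast; ring
    rw [hcr]
    have hr1 : (r : ℝ) ≤ 98022 * k + 190333 := by
      have h1 : (r : ℤ) = N - c := by omega
      have h2 : (N : ℤ) < 2646 * (k + 1) ^ 2 + 92646 * (k + 1) + 1 := by exact_mod_cast hPk'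
      have h3 : (r : ℤ) ≤ 98022 * k + 190333 := by
        rw [h1]
        nlinarith
      exact_mod_cast h3
    have hkN : 2646 * (k : ℝ) ^ 2 ≤ s ^ 2 := by
      rw [hs2]
      have : 2646 * k ^ 2 ≤ N := by omega
      exact_mod_cast this
    have hk0 : (0 : ℝ) ≤ k := Nat.cast_nonneg k
    have e1 : 159.95 * (k : ℝ) ≤ 3.1095 * s := by
      apply abs_le_of_sq_le_sq' _ (by positivity) |>.2
      nlinarith
    have e2 : 51 * (k : ℝ) ≤ s := by
      apply abs_le_of_sq_le_sq' _ (by positivity) |>.2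
      nlinarith
    have e3 : (Nat.sqrt r : ℝ) ≤ 44 * t + 437 := by
      apply abs_le_of_sq_le_sq' _ (by positivity) |>.2
      have h1 : ((Nat.sqrt r : ℕ) : ℝ) ^ 2 ≤ r := by
        have := Nat.sqrt_le' r
        exact_mod_cast this
      have h2 : (98022 : ℝ) * k ≤ 1922 * s := by nlinarith
      nlinarith
    linarith

theorem toReal_bound (N : ℕ) : (leastPerimeter N).toReal ≤
    3 * (N : ℝ) + 3.1095 * √N + 5000 * √(√N) + 3000000 :=
  ENNReal.toReal_le_of_le_ofReal (by positivity) (explicit_bound N)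

open Filter Topology in
theorem limsup_bound : Filter.limsup (fun N : ℕ =>
    ((((leastPerimeter N).toReal - 3 * N) / √N : ℝ) : EReal)) Filter.atTop ≤
      ((3.1095 : ℝ) : EReal) := by
  have h1 : Tendsto (fun N : ℕ => √(N : ℝ)) atTop atTop :=
    Real.tendsto_sqrt_atTop.comp tendsto_natCast_atTop_atTop
  have h2 : Tendsto (fun N : ℕ => √(√(N : ℝ))) atTop atTop :=
    Real.tendsto_sqrt_atTop.comp h1
  have h3 : Tendsto (fun N : ℕ => 3.1095 + 5000 * (√(√(N : ℝ)))⁻¹ + 3000000 * (√(N : ℝ))⁻¹)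
      atTop (𝓝 (3.1095 + 5000 * 0 + 3000000 * 0)) :=
    (tendsto_const_nhds.add (h2.inv_tendsto_atTop.const_mul _)).add
      (h1.inv_tendsto_atTop.const_mul _)
  have h4 : Tendsto (fun N : ℕ => ((3.1095 + 5000 * (√(√(N : ℝ)))⁻¹ + 3000000 * (√(N : ℝ))⁻¹ : ℝ) :
      EReal)) atTop (𝓝 ((3.1095 : ℝ) : EReal)) := by
    have h5 := (continuous_coe_real_ereal.tendsto (3.1095 + 5000 * 0 + 3000000 * 0)).comp h3
    have h6 : (3.1095 + 5000 * 0 + 3000000 * 0 : ℝ) = 3.1095 := by ring
    rw [h6] at h5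
    exact h5
  rw [← h4.limsup_eq]
  apply Filter.limsup_le_limsup
  · filter_upwards [Filter.eventually_ge_atTop 1] with N hN
    rw [EReal.coe_le_coe_iff]
    have hs : 0 < √(N : ℝ) := Real.sqrt_pos.2 (by exact_mod_cast hN)
    have ht : 0 < √(√(N : ℝ)) := Real.sqrt_pos.2 hs
    have ht2 : √(√(N : ℝ)) ^ 2 = √(N : ℝ) := Real.sq_sqrt hs.le
    rw [div_le_iff₀ hs]
    have hb := toReal_bound N
    have e1 : (3.1095 + 5000 * (√(√(N : ℝ)))⁻¹ + 3000000 * (√(N : ℝ))⁻¹) * √(N : ℝ) =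
        3.1095 * √(N : ℝ) + 5000 * √(√(N : ℝ)) + 3000000 := by
      have e2 : (√(√(N : ℝ)))⁻¹ * √(N : ℝ) = √(√(N : ℝ)) := by
        nth_rewrite 2 [← ht2]
        field_simp
      have e3 : (√(N : ℝ))⁻¹ * √(N : ℝ) = 1 := inv_mul_cancel₀ hs.ne'
      calc _ = 3.1095 * √(N : ℝ) + 5000 * ((√(√(N : ℝ)))⁻¹ * √(N : ℝ)) +
            3000000 * ((√(N : ℝ))⁻¹ * √(N : ℝ)) := by ring
        _ = _ := by rw [e2, e3]; ring
    rw [e1]
    linarith
  · isBoundedDefault
  · isBoundedDefault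

end Run7.h761
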