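import Pool.Agent.Run7.h761.Tile

/-! The integrals of the local quantities. -/

set_option autoImplicit false

namespace Run7.h761

open MeasureTheory Set Filter Topology
open scoped ENNReal

open Lb (Site Dart dr rgt thd rev rt InI ID ca ar tl len Cons)

section

variable {N : ℕ} (l : Plane → Fin (N + 1)) (δ : ℝ)

/-- local upper bound of the length in a triangle -/
noncomputable def HH (j : Fin 6) (x : Plane) : ℝ≥0∞ :=
  ENNReal.ofReal (1 / 2) * ∑ i, ENNReal.ofReal ‖wv (Es l i) (δ • ev j) (δ • ev (j + 1)) x‖ +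
  ENNReal.ofReal (3 / 4 * δ) * (ENNReal.ofReal (exv l x (δ • ev j)) +
    ENNReal.ofReal (exv l (x + δ • ev j) (δ • ev (j + 2))) +
    ENNReal.ofReal (exv l (x + δ • ev (j + 1)) (δ • ev (j + 4)))) +
  ENNReal.ofReal (9 * δ) * (tr3 (l x) (l (x + δ • ev j)) (l (x + δ • ev (j + 1))) : ℝ≥0∞)

/-- local bound of the area defect -/
noncomputable def GA (x : Plane) : ℝ≥0∞ :=
  (∫⁻ u in Qs δ (0, 0), (ne (l x) (l (x + u)) : ℝ≥0∞)) +
    ENNReal.ofReal (δ ^ 2) * ∑ j : Fin 6, (ne (l x) (l (x + δ • ev j)) : ℝ≥0∞)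

/-- support -/
noncomputable def ZZ (x : Plane) : ℝ≥0∞ := (ne (l x) 0 : ℝ≥0∞)

variable {l δ}

theorem measurable_exv (hl : LabOK l) (a : Plane) : Measurable fun x => exv l x a := by
  unfold exv
  have h1 : Measurable fun z : Plane × ℝ => (ne (l z.1) (l (z.1 + z.2 • a)) : ℝ) +
      (ne (l (z.1 + z.2 • a)) (l (z.1 + a)) : ℝ) :=
    (measurable_ne_real (hl.meas.comp measurable_fst) (measurable_pair hl a)).add
      (measurable_ne_real (measurable_pair hl a) ((measurable_shift hl a).comp measurable_fst))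
  have h2 := h1.stronglyMeasurable.integral_prod_right' (ν := nu)
  exact h2.measurable.sub (measurable_ne_real hl.meas (measurable_shift hl a))

theorem measurable_exv' (hl : LabOK l) (b a : Plane) :
    Measurable fun x => ENNReal.ofReal (exv l (x + b) a) :=
  ((measurable_exv hl a).comp (measurable_id.add_const b)).ennreal_ofReal

theorem measurable_tr3 (hl : LabOK l) (a b : Plane) :
    Measurable fun x => (tr3 (l x) (l (x + a)) (l (x + b)) : ℝ≥0∞) := by
  have h : Measurable fun p : Fin (N + 1) × Fin (N + 1) × Fin (N + 1) =>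
      (tr3 p.1 p.2.1 p.2.2 : ℝ≥0∞) := measurable_of_countable _
  exact h.comp (hl.meas.prodMk ((measurable_shift hl a).prodMk (measurable_shift hl b)))

theorem measurable_wv' (hl : LabOK l) (i : Fin (N + 1)) (u v : Plane) :
    Measurable fun x => ENNReal.ofReal ‖wv (Es l i) u v x‖ :=
  ((measurable_wv (measurableSet_Es hl i) u v).norm).ennreal_ofReal

theorem measurable_HH (hl : LabOK l) (j : Fin 6) : Measurable (HH l δ j) := by
  unfold HH
  have h0 := (measurable_exv hl (δ • ev j)).ennreal_ofReal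
  exact ((measurable_const.mul (Finset.measurable_fun_sum _ fun i _ => measurable_wv' hl i _ _)).add
    (measurable_const.mul ((h0.add (measurable_exv' hl _ _)).add
      (measurable_exv' hl _ _)))).add (measurable_const.mul (measurable_tr3 hl _ _))

theorem int_HH (hl : LabOK l) (hδ : 0 < δ) (j : Fin 6) : ∫⁻ x, HH l δ j x ≤
    ENNReal.ofReal (δ ^ 2 / 4 * PT l) + ENNReal.ofReal (3 / 4 * δ) *
      ((∫⁻ x, ENNReal.ofReal (exv l x (δ • ev j))) + (∫⁻ x, ENNReal.ofReal (exv l x (δ • ev (j + 2)))) +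
      (∫⁻ x, ENNReal.ofReal (exv l x (δ • ev (j + 4))))) +
    ENNReal.ofReal (9 * δ) * TE l (δ • ev j) (δ • ev (j + 1)) := by
  have h0 := (measurable_exv hl (δ • ev j)).ennreal_ofReal
  have m1 : Measurable fun x => ENNReal.ofReal (1 / 2) *
      ∑ i, ENNReal.ofReal ‖wv (Es l i) (δ • ev j) (δ • ev (j + 1)) x‖ :=
    measurable_const.mul (Finset.measurable_fun_sum _ fun i _ => measurable_wv' hl i _ _)
  have m3 : Measurable fun x => ENNReal.ofReal (9 * δ) *
      (tr3 (l x) (l (x + δ • ev j)) (l (x + δ • ev (j + 1))) : ℝ≥0∞) :=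
    measurable_const.mul (measurable_tr3 hl _ _)
  have m2 : Measurable fun x => ENNReal.ofReal (exv l x (δ • ev j)) +
      ENNReal.ofReal (exv l (x + δ • ev j) (δ • ev (j + 2))) +
      ENNReal.ofReal (exv l (x + δ • ev (j + 1)) (δ • ev (j + 4))) :=
    (h0.add (measurable_exv' hl _ _)).add (measurable_exv' hl _ _)
  unfold HH
  rw [lintegral_add_right _ m3, lintegral_add_left m1, lintegral_const_mul _
    (Finset.measurable_fun_sum _ fun i _ => measurable_wv' hl i _ _),
    lintegral_const_mul _ m2,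
    lintegral_const_mul _ (measurable_tr3 hl _ _), lintegral_add_right _ (measurable_exv' hl _ _),
    lintegral_add_right _ (measurable_exv' hl _ _),
    lintegral_finsetSum _ fun i _ => measurable_wv' hl i _ _,
    lintegral_add_right_eq_self (fun x => ENNReal.ofReal (exv l x (δ • ev (j + 2)))),
    lintegral_add_right_eq_self (fun x => ENNReal.ofReal (exv l x (δ • ev (j + 4))))]
  refine add_le_add (add_le_add ?_ le_rfl) le_rfl
  have hom : om (δ • ev j) (δ • ev (j + 1)) = δ ^ 2 := by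
    rw [om_smul_left, om_smul_right, om_ev]; ring
  have h1 : ∀ i, ∫⁻ x, ENNReal.ofReal ‖wv (Es l i) (δ • ev j) (δ • ev (j + 1)) x‖ ≤
      ENNReal.ofReal (δ ^ 2 / 2 * PerR (Es l i)) := by
    intro i
    have := tri_flux_bound (measurableSet_Es hl i) (hl.per i) (u := δ • ev j) (v := δ • ev (j + 1))
      (by rw [hom]; positivity)
    rwa [hom] at this
  calc _ ≤ ENNReal.ofReal (1 / 2) * ∑ i, ENNReal.ofReal (δ ^ 2 / 2 * PerR (Es l i)) :=
        mul_le_mul_right (Finset.sum_le_sum fun i _ => h1 i) _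
    _ = ENNReal.ofReal (δ ^ 2 / 4 * PT l) := by
        rw [← ENNReal.ofReal_sum_of_nonneg, ← ENNReal.ofReal_mul (by norm_num), ← Finset.mul_sum]
        · congr 1
          unfold PT Es
          ring
        · intro i _
          exact mul_nonneg (by positivity) (PerR_nonneg _)

theorem sum_shift6 (X : Fin 6 → ℝ≥0∞) (k : Fin 6) : ∑ j, X (j + k) = ∑ j, X j :=
  Equiv.sum_comp (Equiv.addRight k) X

theorem int_HH_sum (hl : LabOK l) {η Ps M : ℝ} (hη : 0 ≤ η) (hPs : 0 ≤ Ps) (hM : 0 < M)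
    (h1 : ∀ t, 0 < t → DT l t ≤ Ps * t) (h2 : (Ps - η) * M ≤ DT l M) {K : ℕ} (hK : 0 < K)
    (hδ : δ = M / K) : ∑ j, ∫⁻ x, HH l δ j x ≤
      ENNReal.ofReal (δ ^ 2 * (3 / 2 * PT l + 9 / 4 * η + 54 * (3 * η + 4 * Ps / K))) := by
  have hK' : (0 : ℝ) < K := by exact_mod_cast hK
  have hδ0 : 0 < δ := by rw [hδ]; positivity
  set X : Fin 6 → ℝ≥0∞ := fun j => ∫⁻ x, ENNReal.ofReal (exv l x (δ • ev j)) with hX
  have hXs : ∑ j, X j ≤ ENNReal.ofReal (η * δ) := by
    have := exv_small hl hPs hM h1 h2 hK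
    rw [← hδ] at this
    exact this
  have hT : ∀ j, TE l (δ • ev j) (δ • ev (j + 1)) ≤ ENNReal.ofReal (δ * (3 * η + 4 * Ps / K)) := by
    intro j
    have h3 := triple_small hl hPs hM h1 h2 hK j
    rw [← hδ] at h3
    have hfin : TE l (δ • ev j) (δ • ev (j + 1)) ≠ ⊤ := by
      apply ne_top_of_le_ne_top (DE_ne_top hl (δ • ev j))
      unfold TE DE
      apply lintegral_mono
      intro x
      show (tr3 (l x) (l (x + _)) (l (x + _)) : ℝ≥0∞) ≤ (ne (l x) (l (x + _)) : ℝ≥0∞)
      exact_mod_cast tr3_le _ _ _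
    rw [← ENNReal.ofReal_toReal hfin]
    exact ENNReal.ofReal_le_ofReal h3
  refine (Finset.sum_le_sum fun j _ => int_HH hl hδ0 j).trans ?_
  rw [Finset.sum_add_distrib, Finset.sum_add_distrib, ← Finset.mul_sum, ← Finset.mul_sum,
    Finset.sum_add_distrib, Finset.sum_add_distrib]
  have e1 : ∑ j, X (j + 2) = ∑ j, X j := sum_shift6 X 2
  have e2 : ∑ j, X (j + 4) = ∑ j, X j := sum_shift6 X 4
  have e3 : ∑ j : Fin 6, ENNReal.ofReal (δ ^ 2 / 4 * PT l) = ENNReal.ofReal (δ ^ 2 * (3 / 2 * PT l)) := by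
    rw [Finset.sum_const, Finset.card_univ, Fintype.card_fin, nsmul_eq_mul]
    have : ((6 : ℕ) : ℝ≥0∞) = ENNReal.ofReal 6 := by norm_num
    rw [this, ← ENNReal.ofReal_mul (by norm_num)]
    congr 1; ring
  have e4 : ∑ j : Fin 6, TE l (δ • ev j) (δ • ev (j + 1)) ≤
      ENNReal.ofReal (6 * (δ * (3 * η + 4 * Ps / K))) := by
    refine (Finset.sum_le_sum fun j _ => hT j).trans ?_
    rw [Finset.sum_const, Finset.card_univ, Fintype.card_fin, nsmul_eq_mul]
    have : ((6 : ℕ) : ℝ≥0∞) = ENNReal.ofReal 6 := by norm_num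
    rw [this, ← ENNReal.ofReal_mul (by norm_num)]
  change _ + ENNReal.ofReal (3 / 4 * δ) * (∑ j, X j + ∑ j, X (j + 2) + ∑ j, X (j + 4)) + _ ≤ _
  rw [e1, e2, e3]
  have hPT := PT_nonneg (l := l)
  have e5 : ENNReal.ofReal (3 / 4 * δ) * (∑ j, X j + ∑ j, X j + ∑ j, X j) ≤
      ENNReal.ofReal (δ ^ 2 * (9 / 4 * η)) := by
    calc _ ≤ ENNReal.ofReal (3 / 4 * δ) * (ENNReal.ofReal (η * δ) + ENNReal.ofReal (η * δ) +
          ENNReal.ofReal (η * δ)) := mul_le_mul_right (add_le_add (add_le_add hXs hXs) hXs) _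
      _ = _ := by
          rw [← ENNReal.ofReal_add (by positivity) (by positivity),
            ← ENNReal.ofReal_add (by positivity) (by positivity), ← ENNReal.ofReal_mul (by positivity)]
          congr 1; ring
  have e6 : ENNReal.ofReal (9 * δ) * ∑ j : Fin 6, TE l (δ • ev j) (δ • ev (j + 1)) ≤
      ENNReal.ofReal (δ ^ 2 * (54 * (3 * η + 4 * Ps / K))) := by
    calc _ ≤ ENNReal.ofReal (9 * δ) * ENNReal.ofReal (6 * (δ * (3 * η + 4 * Ps / K))) :=
          mul_le_mul_right e4 _
      _ = _ := by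
          rw [← ENNReal.ofReal_mul (by positivity)]
          congr 1; ring
  refine (add_le_add (add_le_add le_rfl e5) e6).trans (le_of_eq ?_)
  rw [← ENNReal.ofReal_add (by positivity) (by positivity),
    ← ENNReal.ofReal_add (by positivity) (by positivity)]
  congr 1; ring

theorem measurable_pair2 (hl : LabOK l) : Measurable fun z : Plane × Plane => l (z.1 + z.2) := by
  apply hl.meas.comp
  exact (continuous_fst.add continuous_snd).measurable

theorem measurable_GA (hl : LabOK l) : Measurable (GA l δ) := by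
  unfold GA
  have h1 : Measurable fun z : Plane × Plane => (ne (l z.1) (l (z.1 + z.2)) : ℝ≥0∞) :=
    measurable_ne (hl.meas.comp measurable_fst) (measurable_pair2 hl)
  exact (h1.lintegral_prod_right').add (measurable_const.mul
    (Finset.measurable_fun_sum _ fun j _ => measurable_ne hl.meas (measurable_shift hl _)))

theorem int_GA (hl : LabOK l) (hδ : 0 < δ) :
    ∫⁻ x, GA l δ x ≤ ENNReal.ofReal (δ ^ 2 * (11 * PT l * δ)) := by
  have hPT := PT_nonneg (l := l)
  have h1 : Measurable fun z : Plane × Plane => (ne (l z.1) (l (z.1 + z.2)) : ℝ≥0∞) :=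
    measurable_ne (hl.meas.comp measurable_fst) (measurable_pair2 hl)
  unfold GA
  rw [lintegral_add_left (h1.lintegral_prod_right'), lintegral_const_mul _
    (Finset.measurable_fun_sum _ fun j _ => measurable_ne hl.meas (measurable_shift hl _)),
    lintegral_finsetSum _ fun j _ => measurable_ne hl.meas (measurable_shift hl _),
    lintegral_lintegral_swap h1.aemeasurable]
  have e1 : ∫⁻ u in Qs δ (0, 0), ∫⁻ x, (ne (l x) (l (x + u)) : ℝ≥0∞) ≤
      ENNReal.ofReal (δ ^ 2 * (2 * PT l * δ)) := by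
    calc _ ≤ ∫⁻ u in Qs δ (0, 0), ENNReal.ofReal (2 * PT l * δ) := by
          apply setLIntegral_mono measurable_const
          intro u hu
          refine (DE_le hl u).trans (ENNReal.ofReal_le_ofReal ?_)
          have h2 : ‖u‖ ≤ 2 * δ := by
            rw [EuclideanSpace.norm_eq, Fin.sum_univ_two]
            obtain ⟨⟨a1, a2⟩, ⟨a3, a4⟩⟩ := hu
            simp only [Int.cast_zero, mul_zero, zero_add, mul_one] at a1 a2 a3 a4
            have : Real.sqrt (‖u 0‖ ^ 2 + ‖u 1‖ ^ 2) ≤ Real.sqrt ((2 * δ) ^ 2) := by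
              apply Real.sqrt_le_sqrt
              rw [Real.norm_eq_abs, Real.norm_eq_abs, sq_abs, sq_abs]
              nlinarith
            rwa [Real.sqrt_sq (by positivity)] at this
          nlinarith
      _ = _ := by
          rw [setLIntegral_const, volume_Qs hδ, mul_comm, ← ENNReal.ofReal_mul (by positivity)]
  have e2 : ENNReal.ofReal (δ ^ 2) * ∑ j : Fin 6, ∫⁻ x, (ne (l x) (l (x + δ • ev j)) : ℝ≥0∞) ≤
      ENNReal.ofReal (δ ^ 2 * (9 * PT l * δ)) := by
    have hDE : ∀ h, DE l h = ENNReal.ofReal (DR l h) := fun h =>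
      (ENNReal.ofReal_toReal (DE_ne_top hl h)).symm
    have hsum : ∑ j : Fin 6, ∫⁻ x, (ne (l x) (l (x + δ • ev j)) : ℝ≥0∞) = ENNReal.ofReal (DT l δ) := by
      unfold DT
      rw [ENNReal.ofReal_sum_of_nonneg fun i _ => DR_nonneg _]
      exact Finset.sum_congr rfl fun j _ => hDE _
    rw [hsum, ← ENNReal.ofReal_mul (by positivity)]
    apply ENNReal.ofReal_le_ofReal
    exact mul_le_mul_of_nonneg_left (DT_le hl hδ.le) (by positivity)
  refine (add_le_add e1 e2).trans (le_of_eq ?_)
  rw [← ENNReal.ofReal_add (by positivity) (by positivity)]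
  congr 1; ring

theorem measurable_ZZ (hl : LabOK l) : Measurable (ZZ l) := measurable_ne hl.meas measurable_const

theorem int_ZZ (hl : LabOK l) : ∫⁻ x, ZZ l x = volume {x | l x ≠ 0} := by
  have hm : MeasurableSet {x | l x ≠ 0} := hl.meas (measurableSet_singleton (0 : Fin (N + 1))).compl
  rw [← lintegral_indicator_one hm]
  congr 1
  funext x
  unfold ZZ
  by_cases h : l x = 0
  · rw [ne_eq_zero.2 h, indicator_of_notMem (by simpa using h)]; simp
  · rw [ne_eq_one.2 h, indicator_of_mem (by simpa using h)]; simp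

end

end Run7.h761
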