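import Pool.Agent.Run7.h761.Hex

/-! The hexagonal isoperimetric inequality for closed curves cut into chains. -/

set_option autoImplicit false

namespace Run7.h761

open Finset

/-- sum of the signed areas of the chains -/
noncomputable def xsum (z : ℕ → ℂ) (t : ℕ → ℕ) (n : ℕ) : ℝ :=
  ∑ i ∈ range n, carea z (t i) (t (i + 1))

theorem dido_ka {z : ℕ → ℂ} {a b : ℕ} (hab : a ≤ b) :
    5.441 * (ka * |carea z a b|) ≤ clen z a b ^ 2 := by
  have h := dido (z := z) hab
  have h1 := ka_hi
  have h2 := Real.pi_gt_d4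
  have h3 : 5.441 * ka ≤ 2 * Real.pi := by linarith
  have := mul_le_mul_of_nonneg_right h3 (abs_nonneg (carea z a b))
  linarith

theorem iso_ka {z : ℕ → ℂ} {t : ℕ → ℕ} {n : ℕ} (h : Cut z t n) :
    10.882 * (|ka * parea z t n| + ka * ∑ i ∈ range n, |carea z (t i) (t (i + 1))|) ≤
      tlen z t n ^ 2 := by
  have h0 := refl_iso h
  have h1 := ka_hi
  have h2 := Real.pi_gt_d4
  have h3 : 10.882 * ka ≤ 4 * Real.pi := by linarith
  rw [abs_mul, abs_of_pos ka_pos]
  have h4 : 0 ≤ |parea z t n| + ∑ i ∈ range n, |carea z (t i) (t (i + 1))| := by positivity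
  have := mul_le_mul_of_nonneg_right h3 h4
  linarith

theorem tlen_nonneg (z : ℕ → ℂ) (t : ℕ → ℕ) (n : ℕ) : 0 ≤ tlen z t n :=
  Finset.sum_nonneg fun _ _ => clen_nonneg _ _ _

/-- the normalised hexagonal inequality -/
theorem hex_norm {z : ℕ → ℂ} {t : ℕ → ℕ} {n : ℕ} (h : Cut z t n) (hn : 2 ≤ n)
    (hα : 3 ≤ ka * (par (t n) z / 2)) (hℓ : ∀ i < n, clen z (t i) (t (i + 1)) ≤ 3.039) :
    6 + sl n ≤ tlen z t n + ka * xsum z t n + 0.113 * ((n : ℝ) - 6) := by
  have hka := ka_pos
  set L := tlen z t n with hL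
  set B := ka * parea z t n with hB
  set S := ka * ∑ i ∈ range n, |carea z (t i) (t (i + 1))| with hS
  have hL0 : 0 ≤ L := tlen_nonneg _ _ _
  have hX : |ka * xsum z t n| ≤ S := by
    rw [abs_mul, abs_of_pos hka, hS]
    exact mul_le_mul_of_nonneg_left (Finset.abs_sum_le_sum_abs _ _) hka.le
  have hBX : 3 ≤ B + ka * xsum z t n := by
    rw [par_eq h] at hα
    rw [hB]
    unfold xsum
    linarith
  have h1 := iso_ka h
  set C := ∑ i ∈ range n, ‖z (t (i + 1)) - z (t i)‖ with hC
  have hC0 : 0 ≤ C := Finset.sum_nonneg fun _ _ => norm_nonneg _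
  have hCL : C ≤ L := by
    rw [hC, hL]
    exact Finset.sum_le_sum fun i hi => chord_le_clen z (h.mono i (Finset.mem_range.1 hi))
  have hq : ∀ {n' : ℕ}, 0 ≤ qn n' := by
    intro n'
    unfold qn
    split_ifs <;> norm_num
  have h2C : 3 ≤ n → qn n * B ≤ C ^ 2 := by
    intro hn3
    have a := chord_iso h hn3
    have b := qn_le hn3
    rcases le_or_gt 0 (parea z t n) with hp | hp
    · have := mul_le_mul_of_nonneg_right b hp
      rw [hB]
      linarith
    · have : qn n * B ≤ 0 := by
        apply mul_nonpos_of_nonneg_of_nonpos hq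
        rw [hB]
        exact mul_nonpos_of_nonneg_of_nonpos hka.le hp.le
      exact this.trans (sq_nonneg _)
  have hC2 : C ^ 2 ≤ L ^ 2 := pow_le_pow_left₀ hC0 hCL 2
  have h2 : qn n * B ≤ L ^ 2 := by
    rcases Nat.lt_or_ge n 3 with h' | h'
    · have : qn n = 0 := by
        unfold qn
        split_ifs <;> first | omega | rfl
      rw [this, zero_mul]; positivity
    · exact (h2C h').trans hC2
  have hi1 : ∀ i < n, 5.441 * (ka * |carea z (t i) (t (i + 1))|) ≤
      clen z (t i) (t (i + 1)) ^ 2 := fun i hi => dido_ka (h.mono i hi)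
  have h3 : 1.79 * S ≤ L := by
    rw [hS, hL, Finset.mul_sum, Finset.mul_sum]
    unfold tlen
    refine Finset.sum_le_sum fun i hi => ?_
    have a := hi1 i (Finset.mem_range.1 hi)
    have b := hℓ i (Finset.mem_range.1 hi)
    have c := clen_nonneg z (t i) (t (i + 1))
    nlinarith
  have h4 : S ≤ 1.6983 * n := by
    rw [hS, Finset.mul_sum]
    have : ∀ i ∈ range n, ka * |carea z (t i) (t (i + 1))| ≤ 1.6983 := by
      intro i hi
      have a := hi1 i (Finset.mem_range.1 hi)
      have b := hℓ i (Finset.mem_range.1 hi)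
      have c := clen_nonneg z (t i) (t (i + 1))
      nlinarith
    refine (Finset.sum_le_card_nsmul _ _ _ this).trans ?_
    rw [Finset.card_range, nsmul_eq_mul]
    linarith
  by_cases h6 : n = 6
  · subst h6
    have hsl : sl 6 = 0 := by simp [sl]
    have := norm_real6 (L := L) (B := B) (X := ka * xsum z t 6) (S := S) (C := C)
      (S3 := ∑ i ∈ range 6, ‖z (t (i + 1)) - z (t i)‖ ^ 3) hL0 hX hBX h1
      (by
        have := h2C (by norm_num)
        simpa [qn] using this) hC0 hCL h3 ?_ ?_
    · rw [hsl]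
      push_cast
      linarith
    · intro κ hκ
      have hc : ∀ i ∈ range 6, ‖z (t (i + 1)) - z (t i)‖ +
          κ * ka * carea z (t i) (t (i + 1)) - (κ * ka) ^ 2 * ‖z (t (i + 1)) - z (t i)‖ ^ 3 / 16 ≤
          clen z (t i) (t (i + 1)) := by
        intro i hi
        have hi' := Finset.mem_range.1 hi
        apply calib (h.mono i hi')
        rw [abs_mul, abs_of_pos hka]
        have b := hℓ i hi'
        have c := clen_nonneg z (t i) (t (i + 1))
        have d := ka_hi
        calc |κ| * ka * clen z (t i) (t (i + 1)) ≤ 0.17 * 1.15471 * 3.039 := by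
              apply mul_le_mul _ b c (by norm_num)
              exact mul_le_mul hκ d.le hka.le (by norm_num)
          _ ≤ _ := by norm_num
      have hs := Finset.sum_le_sum hc
      rw [Finset.sum_sub_distrib, Finset.sum_add_distrib] at hs
      have e1 : ∑ i ∈ range 6, κ * ka * carea z (t i) (t (i + 1)) = κ * (ka * xsum z t 6) := by
        unfold xsum
        rw [← Finset.mul_sum]; ring
      have e2 : ∑ i ∈ range 6, (κ * ka) ^ 2 * ‖z (t (i + 1)) - z (t i)‖ ^ 3 / 16 =
          κ ^ 2 * (∑ i ∈ range 6, ‖z (t (i + 1)) - z (t i)‖ ^ 3) / 12 := by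
        rw [← Finset.sum_div, ← Finset.mul_sum]
        have := ka_sq
        have e3 : (κ * ka) ^ 2 = κ ^ 2 * (4 / 3) := by rw [← this]; ring
        rw [e3]; ring
      rw [e1, e2] at hs
      exact hs
    · intro M hM hCM hCM0
      have hcM : ∀ i ∈ range 6, ‖z (t (i + 1)) - z (t i)‖ ≤ M := by
        intro i hi
        have hi' := Finset.mem_range.1 hi
        have hd := side_dido (n := 6) (fun i => z (t i)) (by
          rw [h.closed, h.zero]) hi'
        have e1 : par 6 (fun i => z (t i)) / 2 = parea z t 6 := rfl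
        have e2 : plen 6 (fun i => z (t i)) = C := rfl
        rw [e1, e2] at hd
        have hB0 : 0 ≤ B := by nlinarith [sq_nonneg (C - M)]
        have hp0 : 0 ≤ parea z t 6 := by
          rw [hB] at hB0
          by_contra hc
          push Not at hc
          have := mul_neg_of_pos_of_neg hka hc
          linarith
        have k1 := ka_hi
        have k2 := Real.pi_gt_d4
        have k3 : 5.441 * ka ≤ 2 * Real.pi := by linarith
        have k4 := mul_le_mul_of_nonneg_right k3 hp0
        have k5 : (C - M) ^ 2 ≤ (C - ‖z (t (i + 1)) - z (t i)‖) ^ 2 := by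
          rw [hB] at hCM
          linarith
        have k6 : 0 ≤ C - ‖z (t (i + 1)) - z (t i)‖ := by
          have := Finset.single_le_sum (f := fun i => ‖z (t (i + 1)) - z (t i)‖)
            (fun _ _ => norm_nonneg _) hi
          rw [hC]
          linarith
        have k7 := abs_le_of_sq_le_sq' k5 k6 |>.2
        linarith
      rw [hC, Finset.mul_sum]
      refine Finset.sum_le_sum fun i hi => ?_
      have a := hcM i hi
      have b := norm_nonneg (z (t (i + 1)) - z (t i))
      calc ‖z (t (i + 1)) - z (t i)‖ ^ 3 = ‖z (t (i + 1)) - z (t i)‖ ^ 2 *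
            ‖z (t (i + 1)) - z (t i)‖ := by ring
        _ ≤ M ^ 2 * ‖z (t (i + 1)) - z (t i)‖ :=
          mul_le_mul_of_nonneg_right (pow_le_pow_left₀ b a 2) b
  · refine norm_real hn h6 hL0 hX hBX h1 h2 h3 h4 ?_
    intro h2'
    subst h2'
    rw [hB, parea_two h, mul_zero]

/-- scaling -/
theorem clen_scale (r : ℝ) (hr : 0 ≤ r) (z : ℕ → ℂ) (a b : ℕ) :
    clen (fun k => (r : ℂ) * z k) a b = r * clen z a b := by
  unfold clen
  rw [Finset.mul_sum]
  refine Finset.sum_congr rfl fun k _ => ?_
  rw [← mul_sub, norm_mul, Complex.norm_real, Real.norm_of_nonneg hr]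

theorem cr_scale (r : ℝ) (v w : ℂ) : cr ((r : ℂ) * v) ((r : ℂ) * w) = r ^ 2 * cr v w := by
  unfold cr
  simp only [Complex.mul_re, Complex.mul_im, Complex.ofReal_re, Complex.ofReal_im]
  ring

theorem carea_scale (r : ℝ) (z : ℕ → ℂ) (a b : ℕ) :
    carea (fun k => (r : ℂ) * z k) a b = r ^ 2 * carea z a b := by
  unfold carea
  simp only [cr_scale]
  rw [← Finset.mul_sum]
  ring

theorem par_scale (r : ℝ) (z : ℕ → ℂ) (m : ℕ) :
    par m (fun k => (r : ℂ) * z k) = r ^ 2 * par m z := by
  unfold par
  simp only [cr_scale]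
  rw [← Finset.mul_sum]

/-- **The hexagonal isoperimetric inequality.** -/
theorem hex_ineq {z : ℕ → ℂ} {t : ℕ → ℕ} {n : ℕ} (h : Cut z t n) (hn : 2 ≤ n) {m : ℝ}
    (hm0 : 0 < m) (hm3 : m ≤ 3) (hα : m ≤ ka * (par (t n) z / 2))
    (hℓ : ∀ i < n, clen z (t i) (t (i + 1)) ≤ 1.013 * m) :
    2 * m + sl n ≤ tlen z t n + ka * xsum z t n + 0.113 * ((n : ℝ) - 6) := by
  set α := ka * (par (t n) z / 2) with hαd
  rcases le_or_gt 3 α with h3 | h3
  · have := hex_norm h hn h3 (fun i hi => (hℓ i hi).trans (by linarith))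
    linarith
  · have hα0 : 0 < α := by linarith
    set σ := Real.sqrt (α / 3) with hσ
    have hσ0 : 0 < σ := Real.sqrt_pos.2 (by positivity)
    have hσ2 : 3 * σ ^ 2 = α := by
      rw [hσ, Real.sq_sqrt (by positivity)]; ring
    have hσ1 : σ < 1 := by nlinarith
    set r := σ⁻¹ with hr
    have hr0 : 0 < r := inv_pos.2 hσ0
    have hrσ : r * σ = 1 := inv_mul_cancel₀ hσ0.ne'
    set zs : ℕ → ℂ := fun k => (r : ℂ) * z k with hzs
    have hcut : Cut zs t n := ⟨h.zero, h.mono, by simp only [hzs]; rw [h.closed]⟩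
    have hN := hex_norm hcut hn (by
        rw [hzs, par_scale]
        have : ka * (r ^ 2 * par (t n) z / 2) = r ^ 2 * α := by rw [hαd]; ring
        rw [this, ← hσ2]
        have : r ^ 2 * (3 * σ ^ 2) = 3 * (r * σ) ^ 2 := by ring
        rw [this, hrσ]; norm_num)
      (fun i hi => by
        rw [hzs, clen_scale r hr0.le]
        have h1 : clen z (t i) (t (i + 1)) ≤ 1.013 * (3 * σ ^ 2) := by
          rw [hσ2]; exact (hℓ i hi).trans (by linarith)
        calc r * clen z (t i) (t (i + 1)) ≤ r * (1.013 * (3 * σ ^ 2)) :=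
              mul_le_mul_of_nonneg_left h1 hr0.le
          _ = 3.039 * σ * (r * σ) := by ring
          _ ≤ 3.039 := by rw [hrσ]; linarith)
    have e1 : tlen zs t n = r * tlen z t n := by
      unfold tlen
      rw [Finset.mul_sum]
      exact Finset.sum_congr rfl fun i _ => clen_scale r hr0.le _ _ _
    have e2 : xsum zs t n = r ^ 2 * xsum z t n := by
      unfold xsum
      rw [Finset.mul_sum]
      exact Finset.sum_congr rfl fun i _ => carea_scale r _ _ _
    rw [e1, e2] at hN
    set L := tlen z t n with hL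
    set X := ka * xsum z t n with hX
    have hXX : ka * (r ^ 2 * xsum z t n) = r ^ 2 * X := by rw [hX]; ring
    rw [hXX] at hN
    -- lower bound for the length
    have hL0 : 0 ≤ L := tlen_nonneg _ _ _
    have hiso : 10.882 * α ≤ L ^ 2 := by
      have a := iso_ka h
      have b : α = ka * parea z t n + ka * ∑ i ∈ range n, carea z (t i) (t (i + 1)) := by
        rw [hαd, par_eq h]; ring
      have c : ka * ∑ i ∈ range n, carea z (t i) (t (i + 1)) ≤
          ka * ∑ i ∈ range n, |carea z (t i) (t (i + 1))| :=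
        mul_le_mul_of_nonneg_left (Finset.sum_le_sum fun _ _ => le_abs_self _) ka_pos.le
      have d := le_abs_self (ka * parea z t n)
      linarith
    set l := r * L with hl
    have hlσ : L = σ * l := by rw [hl, ← mul_assoc, mul_comm σ r, hrσ, one_mul]
    have hl0 : 0 ≤ l := by positivity
    have hl57 : 5.713 ≤ l := by
      have h1 : (5.713 : ℝ) ^ 2 ≤ l ^ 2 := by
        have h2 : r ^ 2 * (10.882 * α) ≤ r ^ 2 * L ^ 2 :=
          mul_le_mul_of_nonneg_left hiso (sq_nonneg r)
        have h3 : r ^ 2 * (10.882 * α) = 32.646 := by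
          rw [← hσ2]
          have : r ^ 2 * (10.882 * (3 * σ ^ 2)) = 32.646 * (r * σ) ^ 2 := by ring
          rw [this, hrσ]; norm_num
        have h4 : r ^ 2 * L ^ 2 = l ^ 2 := by rw [hl]; ring
        linarith
      exact abs_le_of_sq_le_sq' h1 hl0 |>.2
    have hLn : L ≤ 1.013 * α * n := by
      rw [hL]
      unfold tlen
      refine (Finset.sum_le_card_nsmul _ _ (1.013 * α) fun i hi =>
        (hℓ i (Finset.mem_range.1 hi)).trans (by linarith)).trans ?_
      rw [Finset.card_range, nsmul_eq_mul]
      linarith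
    have hln : l ≤ 3.039 * σ * n := by
      have : r * L ≤ r * (1.013 * α * n) := mul_le_mul_of_nonneg_left hLn hr0.le
      rw [← hσ2] at this
      have e : r * (1.013 * (3 * σ ^ 2) * n) = 3.039 * σ * n * (r * σ) := by ring
      rw [e, hrσ] at this
      rw [hl]; linarith
    set T := 6 - r ^ 2 * X with hT
    have hXT : X = σ ^ 2 * (6 - T) := by
      have : σ ^ 2 * (6 - T) = (r * σ) ^ 2 * X := by rw [hT]; ring
      rw [this, hrσ]; ring
    have hgoal : 2 * α + sl n ≤ L + X + 0.113 * ((n : ℝ) - 6) := by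
      rw [← hσ2, hXT, hlσ]
      have hN' : T - 0.113 * ((n : ℝ) - 6) + sl n ≤ l := by rw [hT]; linarith
      suffices hs : sl n ≤ σ * (l - σ * T) + 0.113 * ((n : ℝ) - 6) by
        have e : σ * l + σ ^ 2 * (6 - T) = σ * (l - σ * T) + 6 * σ ^ 2 := by ring
        linarith
      rcases Nat.lt_or_ge n 6 with h6 | h6
      · have hn' : n = 2 ∨ n = 3 ∨ n = 4 ∨ n = 5 := by omega
        have key : ∀ μ s c : ℝ, T + μ + s ≤ l → c ≤ σ → 0 ≤ c → μ + s ≤ 5.713 →
            s + μ ≤ c * (5.713 - μ - s) → s ≤ σ * (l - σ * T) - μ := by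
          intro μ s c h1 h2 h3 h4 h5
          rcases le_or_gt (μ + s) (σ * T) with h7 | h7
          · have h8 : σ * (T + μ + s) ≤ σ * l := mul_le_mul_of_nonneg_left h1 hσ0.le
            have h9 : 0 ≤ (1 - σ) * (σ * T - μ - s) := mul_nonneg (by linarith) (by linarith)
            nlinarith
          · have h8 : σ * (5.713 - μ - s) ≤ σ * (l - σ * T) :=
              mul_le_mul_of_nonneg_left (by linarith) hσ0.le
            have h9 : c * (5.713 - μ - s) ≤ σ * (5.713 - μ - s) :=
              mul_le_mul_of_nonneg_right h2 (by linarith)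
            linarith
        rcases hn' with rfl | rfl | rfl | rfl
        · simp only [sl] at hN' ⊢
          norm_num at hN' hln ⊢
          have := key 0.452 0.5 0.93 (by linarith) (by linarith) (by norm_num) (by norm_num)
            (by norm_num)
          linarith
        · simp only [sl] at hN' ⊢
          norm_num at hN' hln ⊢
          have := key 0.339 0.4 0.62 (by linarith) (by linarith) (by norm_num) (by norm_num)
            (by norm_num)
          linarith
        · simp only [sl] at hN' ⊢
          norm_num at hN' hln ⊢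
          have := key 0.226 0.13 0.46 (by linarith) (by linarith) (by norm_num) (by norm_num)
            (by norm_num)
          linarith
        · simp only [sl] at hN' ⊢
          norm_num at hN' hln ⊢
          have := key 0.113 0 0.37 (by linarith) (by linarith) (by norm_num) (by norm_num)
            (by norm_num)
          linarith
      · have hn6 : (6 : ℝ) ≤ n := by exact_mod_cast h6
        have hsl : sl n = 0 := by
          unfold sl
          rw [if_neg (by omega), if_neg (by omega), if_neg (by omega)]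
        rw [hsl] at hN' ⊢
        rcases le_or_gt T 0 with hT0 | hT0
        · have : 0 ≤ σ * (l - σ * T) := by
            apply mul_nonneg hσ0.le
            nlinarith
          linarith
        · have h8 : σ * (T - 0.113 * ((n : ℝ) - 6)) ≤ σ * l :=
            mul_le_mul_of_nonneg_left (by linarith) hσ0.le
          have h9 : 0 ≤ (1 - σ) * (σ * T + 0.113 * ((n : ℝ) - 6)) := by
            apply mul_nonneg (by linarith)
            have := mul_pos hσ0 hT0
            linarith
          nlinarith
    linarith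

end Run7.h761
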