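import Pool.Agent.Run7.h761.Orb
import Pool.Agent.Run7.h761.Face

/-! Chains of darts between branching points. -/

set_option autoImplicit false

namespace Run7.h761.Lb

open Finset Function

open scoped Classical

section

variable {ι : Type*} (φ : Site → ι) (z : Dart → ℂ)

/-- vertices along the orbit -/
noncomputable def trk (d : Dart) (k : ℕ) : ℂ := tl z ((nx φ)^[k] d)

/-- number of darts of the chain -/
noncomputable def kz (d : Dart) : ℕ := kk (nx φ) (trb φ) d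

/-- length of the chain -/
noncomputable def CL (d : Dart) : ℝ := clen (trk φ z d) 0 (kz φ d)

/-- area of the chain -/
noncomputable def CX (d : Dart) : ℝ := carea (trk φ z d) 0 (kz φ d)

/-- chord of the chain -/
noncomputable def CC (d : Dart) : ℝ := ‖trk φ z d (kz φ d) - trk φ z d 0‖

variable {φ z}

theorem trk_succ (hz : Cons z) (d : Dart) (k : ℕ) : trk φ z d (k + 1) = z ((nx φ)^[k] d) := by
  unfold trk
  rw [iterate_succ_apply', tl_nx hz]

theorem trk_add (d : Dart) (a k : ℕ) : trk φ z d (a + k) = trk φ z ((nx φ)^[a] d) k := by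
  unfold trk
  rw [add_comm a k, iterate_add_apply]

theorem norm_trk (hz : Cons z) (d : Dart) (k : ℕ) :
    ‖trk φ z d (k + 1) - trk φ z d k‖ = len z ((nx φ)^[k] d) := by
  rw [trk_succ hz]
  rfl

theorem cr_trk (hz : Cons z) (d : Dart) (k : ℕ) :
    cr (trk φ z d k) (trk φ z d (k + 1)) = ar z ((nx φ)^[k] d) := by
  rw [trk_succ hz]
  rfl

theorem CL_eq (hz : Cons z) (d : Dart) :
    CL φ z d = ∑ i ∈ range (kz φ d), len z ((nx φ)^[i] d) := by
  unfold CL clen
  rw [← Finset.range_eq_Ico]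
  exact Finset.sum_congr rfl fun i _ => norm_trk hz d i

theorem CX_eq (hz : Cons z) (d : Dart) :
    CX φ z d = (∑ i ∈ range (kz φ d), ar z ((nx φ)^[i] d) -
      cr (tl z d) (tl z ((nx φ)^[kz φ d] d))) / 2 := by
  unfold CX carea
  rw [← Finset.range_eq_Ico, Finset.sum_congr rfl fun i _ => cr_trk hz d i]
  rfl

theorem CL_nonneg (d : Dart) : 0 ≤ CL φ z d := clen_nonneg _ _ _

theorem CC_nonneg (d : Dart) : 0 ≤ CC φ z d := norm_nonneg _

theorem dido_CX (d : Dart) : 5.441 * (ka * |CX φ z d|) ≤ CL φ z d ^ 2 := dido_ka (Nat.zero_le _)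

variable {o : ι} {K : Finset Site} (hK : ∀ s ∉ K, φ s = o)

include hK

theorem ID_nx : ∀ x ∈ ID φ K, nx φ x ∈ ID φ K := by
  intro x hx
  rw [mem_ID hK] at hx ⊢
  exact hx.nx

theorem ID_rev : ∀ x ∈ ID φ K, rev x ∈ ID φ K := by
  intro x hx
  rw [mem_ID hK] at hx ⊢
  exact hx.rev

theorem ID_inj : ∀ x ∈ ID φ K, ∀ y ∈ ID φ K, nx φ x = nx φ y → x = y := by
  intro x hx y hy h
  rw [mem_ID hK] at hx hy
  exact nx_inj hx hy h

theorem kz_spec {d : Dart} (hd : d ∈ ID φ K) (hP : trb φ d) :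
    0 < kz φ d ∧ trb φ ((nx φ)^[kz φ d] d) :=
  kk_spec (ID_nx hK) (ID_inj hK) hd hP

theorem kz_min {d : Dart} {i : ℕ} (h0 : 0 < i) (h1 : i < kz φ d) : ¬ trb φ ((nx φ)^[i] d) := by
  intro h
  have := kk_min (ID_nx hK) (ID_inj hK) h0 (P := trb φ) (d := d) h
  unfold kz at h1
  omega

theorem iter_ID {d : Dart} (hd : d ∈ ID φ K) (i : ℕ) : (nx φ)^[i] d ∈ ID φ K :=
  iter_mem (ID_nx hK) hd i

theorem tri_last {d : Dart} (hd : d ∈ ID φ K) (hP : trb φ d) :
    tri φ ((nx φ)^[kz φ d - 1] d) := by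
  have h := kz_spec hK hd hP
  rw [← trb_nx ((mem_ID hK).1 (iter_ID hK hd _)), ← iterate_succ_apply' (nx φ)]
  have : (kz φ d - 1).succ = kz φ d := by omega
  rw [this]
  exact h.2

theorem not_tri {d : Dart} (hd : d ∈ ID φ K) {i : ℕ} (hi : i + 1 < kz φ d) :
    ¬ tri φ ((nx φ)^[i] d) := by
  rw [← trb_nx ((mem_ID hK).1 (iter_ID hK hd _)), ← iterate_succ_apply' (nx φ)]
  exact kz_min hK (by omega) hi

theorem left_iter (d : Dart) (i : ℕ) : φ ((nx φ)^[i] d).1 = φ d.1 := by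
  induction i with
  | zero => rfl
  | succ i ih => rw [iterate_succ_apply', fst_nx (φ := φ), ih]

theorem right_iter {d : Dart} (hd : d ∈ ID φ K) {i : ℕ} (hi : i < kz φ d) :
    φ (rgt ((nx φ)^[i] d)) = φ (rgt d) := by
  induction i with
  | zero => rfl
  | succ i ih =>
    rw [iterate_succ_apply', rgt_nx_of_not_tri (not_tri hK hd hi)]
    exact ih (by omega)

theorem right_next {d : Dart} (hd : d ∈ ID φ K) (hP : trb φ d) :
    φ (rgt ((nx φ)^[kz φ d] d)) ≠ φ (rgt d) := by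
  have h := kz_spec hK hd hP
  have e : kz φ d = (kz φ d - 1).succ := by omega
  have h1 := rgt_nx_of_tri (tri_last hK hd hP)
  rw [right_iter hK hd (by omega)] at h1
  rw [e, iterate_succ_apply']
  exact h1

/-- reversed orbit -/
theorem rev_iter {d : Dart} (hd : d ∈ ID φ K) {n : ℕ} (hn : ∀ i < n, ¬ tri φ ((nx φ)^[i] d)) :
    ∀ i ≤ n, (nx φ)^[i] (rev ((nx φ)^[n] d)) = rev ((nx φ)^[n - i] d) := by
  intro i
  induction i with
  | zero => intro _; rfl
  | succ i ih =>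
    intro hi
    rw [iterate_succ_apply', ih (by omega)]
    have e : n - i = (n - (i + 1)).succ := by omega
    rw [e, iterate_succ_apply']
    exact nx_rev_nx ((mem_ID hK).1 (iter_ID hK hd _)) (hn _ (by omega))

/-- the reversed chain -/
theorem rev_chain {d : Dart} (hd : d ∈ ID φ K) (hP : trb φ d) :
    ∀ i < kz φ d, (nx φ)^[i] (rev ((nx φ)^[kz φ d - 1] d)) = rev ((nx φ)^[kz φ d - 1 - i] d) := by
  intro i hi
  exact rev_iter hK hd (fun i hi => not_tri hK hd (by omega)) i (by omega)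

theorem rho_facts {d : Dart} (hd : d ∈ ID φ K) (hP : trb φ d) :
    trb φ (rev ((nx φ)^[kz φ d - 1] d)) ∧ kz φ (rev ((nx φ)^[kz φ d - 1] d)) = kz φ d := by
  have h := kz_spec hK hd hP
  have h1 : trb φ (rev ((nx φ)^[kz φ d - 1] d)) := trb_rev.2 (tri_last hK hd hP)
  refine ⟨h1, ?_⟩
  have hr : rev ((nx φ)^[kz φ d - 1] d) ∈ ID φ K := ID_rev hK _ (iter_ID hK hd _)
  have h2 := kz_spec hK hr h1
  apply le_antisymm
  · apply kk_min (ID_nx hK) (ID_inj hK) h.1
    have e : kz φ d = (kz φ d - 1).succ := by omega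
    rw [e, iterate_succ_apply']
    have e2 : (kz φ d - 1).succ - 1 = kz φ d - 1 := by omega
    rw [e2, rev_chain hK hd hP _ (by omega)]
    have e3 : kz φ d - 1 - (kz φ d - 1) = 0 := by omega
    rw [e3, trb_nx ((mem_ID hK).1 (ID_rev hK _ (iter_ID hK hd _))), tri_rev]
    exact hP
  · by_contra hc
    push Not at hc
    have h3 := h2.2
    have e1 : (nx φ)^[kz φ (rev ((nx φ)^[kz φ d - 1] d))] (rev ((nx φ)^[kz φ d - 1] d)) =
        rev ((nx φ)^[kz φ d - 1 - kz φ (rev ((nx φ)^[kz φ d - 1] d))] d) :=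
      rev_chain hK hd hP _ hc
    rw [e1, trb_rev] at h3
    exact not_tri hK hd (by omega) h3

theorem rho_rho {d : Dart} (hd : d ∈ ID φ K) (hP : trb φ d) :
    rev ((nx φ)^[kz φ (rev ((nx φ)^[kz φ d - 1] d)) - 1] (rev ((nx φ)^[kz φ d - 1] d))) = d := by
  have h := kz_spec hK hd hP
  rw [(rho_facts hK hd hP).2, rev_chain hK hd hP _ (by omega), rev_rev]
  have e3 : kz φ d - 1 - (kz φ d - 1) = 0 := by omega
  rw [e3]
  rfl

theorem trk_rho (hz : Cons z) {d : Dart} (hd : d ∈ ID φ K) (hP : trb φ d) :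
    ∀ i ≤ kz φ d, trk φ z (rev ((nx φ)^[kz φ d - 1] d)) i = trk φ z d (kz φ d - i) := by
  have h := kz_spec hK hd hP
  intro i hi
  rcases Nat.lt_or_ge i (kz φ d) with h1 | h1
  · have e : kz φ d - i = kz φ d - 1 - i + 1 := by omega
    rw [e, trk_succ hz]
    unfold trk
    rw [rev_chain hK hd hP _ h1, tl_rev hz]
  · have e : i = kz φ d - 1 + 1 := by omega
    rw [e, trk_succ hz, rev_chain hK hd hP _ (by omega), z_rev hz]
    have e3 : kz φ d - 1 - (kz φ d - 1) = 0 := by omega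
    have e4 : kz φ d - (kz φ d - 1 + 1) = 0 := by omega
    rw [e3, e4]
    rfl

theorem CX_rho (hz : Cons z) {d : Dart} (hd : d ∈ ID φ K) (hP : trb φ d) :
    CX φ z (rev ((nx φ)^[kz φ d - 1] d)) = -CX φ z d := by
  have ht := trk_rho hK hz hd hP
  unfold CX
  rw [(rho_facts hK hd hP).2]
  set k := kz φ d with hk
  unfold carea
  rw [ht 0 (Nat.zero_le _), ht k le_rfl]
  have h1 : ∑ i ∈ Ico 0 k, cr (trk φ z (rev ((nx φ)^[k - 1] d)) i)
      (trk φ z (rev ((nx φ)^[k - 1] d)) (i + 1)) =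
      ∑ i ∈ Ico 0 k, -cr (trk φ z d i) (trk φ z d (i + 1)) := by
    rw [← Finset.range_eq_Ico, ← Finset.sum_range_reflect (fun i => -cr (trk φ z d i)
      (trk φ z d (i + 1)))]
    refine Finset.sum_congr rfl fun i hi => ?_
    have hi' := Finset.mem_range.1 hi
    rw [ht i (by omega), ht (i + 1) (by omega)]
    have e1 : k - i = k - 1 - i + 1 := by omega
    have e2 : k - (i + 1) = k - 1 - i := by omega
    rw [e1, e2]
    unfold cr; ring
  rw [h1, Finset.sum_neg_distrib]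
  have e5 : k - k = 0 := by omega
  rw [e5, Nat.sub_zero]
  unfold cr
  ring

theorem CL_rho (hz : Cons z) {d : Dart} (hd : d ∈ ID φ K) (hP : trb φ d) :
    CL φ z (rev ((nx φ)^[kz φ d - 1] d)) = CL φ z d := by
  have ht := trk_rho hK hz hd hP
  unfold CL
  rw [(rho_facts hK hd hP).2]
  set k := kz φ d with hk
  unfold clen
  rw [← Finset.range_eq_Ico, ← Finset.sum_range_reflect (fun i => ‖trk φ z d (i + 1) -
      trk φ z d i‖)]
  refine Finset.sum_congr rfl fun i hi => ?_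
  have hi' := Finset.mem_range.1 hi
  rw [ht i (by omega), ht (i + 1) (by omega)]
  have e1 : k - i = k - 1 - i + 1 := by omega
  have e2 : k - (i + 1) = k - 1 - i := by omega
  rw [e1, e2, norm_sub_rev]

theorem CC_rho (hz : Cons z) {d : Dart} (hd : d ∈ ID φ K) (hP : trb φ d) :
    CC φ z (rev ((nx φ)^[kz φ d - 1] d)) = CC φ z d := by
  have ht := trk_rho hK hz hd hP
  unfold CC
  rw [(rho_facts hK hd hP).2, ht _ le_rfl, ht 0 (Nat.zero_le _), norm_sub_rev]
  have e5 : kz φ d - kz φ d = 0 := by omega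
  rw [e5, Nat.sub_zero]

theorem rho_left {d : Dart} (hd : d ∈ ID φ K) (hP : trb φ d) :
    φ (rev ((nx φ)^[kz φ d - 1] d)).1 = φ (rgt d) := by
  have h := kz_spec hK hd hP
  rw [rev_fst]
  exact right_iter hK hd (by omega)

theorem rho_right {d : Dart} : φ (rgt (rev ((nx φ)^[kz φ d - 1] d))) = φ d.1 := by
  rw [rgt_rev]
  exact left_iter hK d _

/-- sums over chains, seen from the other side -/
theorem sum_rho {F G : Dart → ℝ} {p q : ι → ι → Prop} (hpq : ∀ a b, p a b ↔ q b a)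
    (hFG : ∀ d ∈ ID φ K, trb φ d → F (rev ((nx φ)^[kz φ d - 1] d)) = G d) :
    ∑ d ∈ (ID φ K).filter (fun d => trb φ d ∧ p (φ d.1) (φ (rgt d))), F d =
      ∑ d ∈ (ID φ K).filter (fun d => trb φ d ∧ q (φ d.1) (φ (rgt d))), G d := by
  symm
  refine Finset.sum_bij' (fun d _ => rev ((nx φ)^[kz φ d - 1] d))
    (fun d _ => rev ((nx φ)^[kz φ d - 1] d)) ?_ ?_ ?_ ?_ ?_
  · intro d hd
    rw [Finset.mem_filter] at hd ⊢
    obtain ⟨h1, h2, h3⟩ := hd
    refine ⟨ID_rev hK _ (iter_ID hK h1 _), (rho_facts hK h1 h2).1, ?_⟩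
    rw [rho_left hK h1 h2, rho_right hK, hpq]
    exact h3
  · intro d hd
    rw [Finset.mem_filter] at hd ⊢
    obtain ⟨h1, h2, h3⟩ := hd
    refine ⟨ID_rev hK _ (iter_ID hK h1 _), (rho_facts hK h1 h2).1, ?_⟩
    rw [rho_left hK h1 h2, rho_right hK, ← hpq]
    exact h3
  · intro d hd
    rw [Finset.mem_filter] at hd
    exact rho_rho hK hd.1 hd.2.1
  · intro d hd
    rw [Finset.mem_filter] at hd
    exact rho_rho hK hd.1 hd.2.1
  · intro d hd
    rw [Finset.mem_filter] at hd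
    exact (hFG d hd.1 hd.2.1).symm

end

end Run7.h761.Lb
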