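import Pool.Agent.Run7.h761.Mrg

/-! Sharp calibration of a chain: length minus a multiple of the area. -/

set_option autoImplicit false

namespace Run7.h761

open Finset

theorem cot_add {β b : ℝ} (h1 : Real.sin β ≠ 0) (h2 : Real.sin b ≠ 0) (h3 : Real.sin (β + b) ≠ 0) :
    (Real.cos β / Real.sin β * (Real.cos b / Real.sin b) - 1) /
      (Real.cos β / Real.sin β + Real.cos b / Real.sin b) = Real.cos (β + b) / Real.sin (β + b) := by
  have e1 : Real.cos β / Real.sin β + Real.cos b / Real.sin b =
      Real.sin (β + b) / (Real.sin β * Real.sin b) := by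
    rw [Real.sin_add]; field_simp; ring
  have e2 : Real.cos β / Real.sin β * (Real.cos b / Real.sin b) - 1 =
      Real.cos (β + b) / (Real.sin β * Real.sin b) := by
    rw [Real.cos_add]; field_simp
  rw [e1, e2]
  field_simp

/-- area of a chain with small length -/
theorem chain_cot {z : ℕ → ℂ} {a b : ℕ} (hab : a ≤ b) {k : ℝ} (hk : 0 < k)
    (h : k * clen z a b / 2 < Real.pi) :
    4 * carea z a b + Real.cos (k * clen z a b / 2) / Real.sin (k * clen z a b / 2) *
      ‖z b - z a‖ ^ 2 ≤ 2 / k * clen z a b := by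
  induction b, hab using Nat.le_induction with
  | base =>
    have h1 : clen z a a = 0 := by unfold clen; simp
    have h2 : carea z a a = 0 := by unfold carea; simp [cr_self]
    rw [h1, h2]; simp
  | succ b hab ih =>
    have hl : clen z a (b + 1) = clen z a b + ‖z (b + 1) - z b‖ := by
      unfold clen
      rw [Finset.sum_Ico_succ_top hab]
    have hx : carea z a (b + 1) = carea z a b + cr (z b - z a) (z (b + 1) - z b) / 2 := by
      unfold carea
      rw [Finset.sum_Ico_succ_top hab]
      unfold cr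
      simp only [Complex.sub_re, Complex.sub_im]
      ring
    have hL := clen_nonneg z a b
    set L := clen z a b with hLd
    set e := z (b + 1) - z b with he
    have he0 : 0 ≤ ‖e‖ := norm_nonneg _
    rw [hl] at h ⊢
    have ih' := ih (by nlinarith)
    rcases he0.eq_or_lt with h0 | hpos
    · have e0 : e = 0 := norm_eq_zero.1 h0.symm
      have hz : z (b + 1) = z b := by
        have : z (b + 1) - z b = 0 := e0
        exact sub_eq_zero.1 this
      rw [hx, ← h0, e0, hz, cr_zero_right, add_zero]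
      linarith
    · have hb0 : 0 < k * ‖e‖ / 2 := by positivity
      have hsum : k * (L + ‖e‖) / 2 = k * L / 2 + k * ‖e‖ / 2 := by ring
      have hsb : 0 < Real.sin (k * ‖e‖ / 2) := Real.sin_pos_of_pos_of_lt_pi hb0 (by
        have : 0 ≤ k * L / 2 := by positivity
        linarith)
      have hss : 0 < Real.sin (k * (L + ‖e‖) / 2) := Real.sin_pos_of_pos_of_lt_pi (by positivity) h
      -- cot b |e| ^ 2 ≤ 2 / k |e|
      have hcb : Real.cos (k * ‖e‖ / 2) / Real.sin (k * ‖e‖ / 2) * ‖e‖ ^ 2 ≤ 2 / k * ‖e‖ := by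
        have h1 : Real.cos (k * ‖e‖ / 2) / Real.sin (k * ‖e‖ / 2) ≤ 1 / (k * ‖e‖ / 2) := by
          rw [div_le_div_iff₀ hsb hb0, one_mul]
          rcases le_or_gt (Real.cos (k * ‖e‖ / 2)) 0 with hc | hc
          · nlinarith
          · have hlt : k * ‖e‖ / 2 < Real.pi / 2 := by
              by_contra hcon
              push Not at hcon
              have := Real.cos_nonpos_of_pi_div_two_le_of_le hcon (by
                have : 0 ≤ k * L / 2 := by positivity
                linarith)
              linarith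
            have := Real.le_tan hb0.le hlt
            rw [Real.tan_eq_sin_div_cos, le_div_iff₀ hc] at this
            linarith
        calc _ ≤ 1 / (k * ‖e‖ / 2) * ‖e‖ ^ 2 := mul_le_mul_of_nonneg_right h1 (by positivity)
          _ = 2 / k * ‖e‖ := by field_simp
      rcases hL.eq_or_lt with hL0 | hLpos
      · -- the first step
        have hv : z b - z a = 0 := by
          have := chord_le_clen z hab
          rw [← hLd, ← hL0] at this
          exact norm_eq_zero.1 (le_antisymm this (norm_nonneg _))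
        have hxa : carea z a b ≤ 0 := by
          rw [hv, ← hL0] at ih'
          simp at ih'
          linarith
        have hze : z (b + 1) - z a = e := by
          rw [he]; linear_combination hv
        rw [hx, hv, cr_zero_left, hze, ← hL0, zero_add]
        linarith
      · have hβ0 : 0 < k * L / 2 := by positivity
        have hsβ : 0 < Real.sin (k * L / 2) := Real.sin_pos_of_pos_of_lt_pi hβ0 (by nlinarith)
        rw [hsum] at hss ⊢
        have hA : 0 < Real.cos (k * L / 2) / Real.sin (k * L / 2) +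
            Real.cos (k * ‖e‖ / 2) / Real.sin (k * ‖e‖ / 2) := by
          have : Real.cos (k * L / 2) / Real.sin (k * L / 2) +
            Real.cos (k * ‖e‖ / 2) / Real.sin (k * ‖e‖ / 2) = Real.sin (k * L / 2 + k * ‖e‖ / 2) /
              (Real.sin (k * L / 2) * Real.sin (k * ‖e‖ / 2)) := by
            rw [Real.sin_add]; field_simp; ring
          rw [this]; positivity
        have hm := merge (z b - z a) e hA
        rw [cot_add hsβ.ne' hsb.ne' hss.ne'] at hm
        have hze : z b - z a + e = z (b + 1) - z a := by rw [he]; ring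
        rw [hze] at hm
        rw [hx]
        have : 2 / k * (L + ‖e‖) = 2 / k * L + 2 / k * ‖e‖ := by ring
        rw [this]
        linarith

theorem cot_tangent {β θ : ℝ} (h1 : 0 < β) (h2 : β ≤ Real.pi / 2) (h3 : 0 < θ) (h4 : θ ≤ Real.pi / 2) :
    Real.cos θ / Real.sin θ - (β - θ) / Real.sin θ ^ 2 ≤ Real.cos β / Real.sin β := by
  have hpi := Real.pi_pos
  have hsβ : 0 < Real.sin β := Real.sin_pos_of_pos_of_lt_pi h1 (by linarith)
  have hsθ : 0 < Real.sin θ := Real.sin_pos_of_pos_of_lt_pi h3 (by linarith)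
  have e1 : Real.cos θ / Real.sin θ - (β - θ) / Real.sin θ ^ 2 =
      (Real.cos θ * Real.sin θ - (β - θ)) / Real.sin θ ^ 2 := by field_simp
  rw [e1, div_le_div_iff₀ (by positivity) hsβ]
  have key : Real.sin θ * Real.sin (β - θ) ≤ (β - θ) * Real.sin β := by
    rcases le_total θ β with h | h
    · have h5 : Real.sin (β - θ) ≤ β - θ := Real.sin_le (by linarith)
      have h6 : Real.sin θ ≤ Real.sin β := Real.sin_le_sin_of_le_of_le_pi_div_two (by linarith) h2 h
      have h7 : 0 ≤ Real.sin (β - θ) := Real.sin_nonneg_of_nonneg_of_le_pi (by linarith) (by linarith)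
      calc Real.sin θ * Real.sin (β - θ) ≤ Real.sin β * (β - θ) :=
            mul_le_mul h6 h5 h7 hsβ.le
        _ = _ := mul_comm _ _
    · have hδ0 : 0 ≤ θ - β := by linarith
      have e2 : Real.sin (β - θ) = -Real.sin (θ - β) := by rw [← Real.sin_neg]; congr 1; ring
      have e3 : Real.sin β = Real.sin θ * Real.cos (θ - β) - Real.cos θ * Real.sin (θ - β) := by
        rw [← Real.sin_sub]; congr 1; ring
      rw [e2, e3]
      have hs0 : 0 ≤ Real.sin (θ - β) := Real.sin_nonneg_of_nonneg_of_le_pi hδ0 (by linarith)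
      have hc0 : 0 ≤ Real.cos θ := Real.cos_nonneg_of_neg_pi_div_two_le_of_le (by linarith) h4
      -- δ cos δ ≤ sin δ
      have h8 : (θ - β) * Real.cos (θ - β) ≤ Real.sin (θ - β) := by
        rcases hδ0.eq_or_lt with h0 | h0
        · rw [← h0]; simp
        · have hlt : θ - β < Real.pi / 2 := by linarith
          have hcp : 0 < Real.cos (θ - β) := Real.cos_pos_of_mem_Ioo ⟨by linarith, hlt⟩
          have := Real.le_tan hδ0 hlt
          rw [Real.tan_eq_sin_div_cos, le_div_iff₀ hcp] at this
          exact this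
      have h9 : 0 ≤ Real.cos θ * Real.sin (θ - β) * (θ - β) := by positivity
      nlinarith
  have e4 : Real.sin (β - θ) = Real.sin β * Real.cos θ - Real.cos β * Real.sin θ := Real.sin_sub _ _
  rw [e4] at key
  nlinarith

/-- polynomial lower bound -/
theorem arc_poly {ε u : ℝ} (hu0 : 0 ≤ u) (hu1 : u ≤ 1) (hε0 : 0 ≤ ε)
    (hε : ε * u ^ 2 + ε ^ 2 * u ^ 4 ≤ 2 * ε - 1 / 4) :
    2 * u - u ^ 3 / 3 - 2 * ε / 5 * u ^ 5 ≤ Real.arcsin u + u * √(1 - u ^ 2) := by
  set f : ℝ → ℝ := fun x => Real.arcsin x + x * √(1 - x ^ 2) - (2 * x - x ^ 3 / 3 - 2 * ε / 5 * x ^ 5)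
    with hf
  have hmono : MonotoneOn f (Set.Icc 0 u) := by
    apply monotoneOn_of_deriv_nonneg (convex_Icc 0 u)
    · apply Continuous.continuousOn
      rw [hf]
      have := Real.continuous_arcsin
      fun_prop
    · intro x hx
      rw [interior_Icc] at hx
      have hx1 : x < 1 := lt_of_lt_of_le hx.2 hu1
      have hpos : 0 < 1 - x ^ 2 := by nlinarith [hx.1]
      have hd1 := Real.hasDerivAt_arcsin (x := x) (by linarith [hx.1]) hx1.ne
      have hd2 : HasDerivAt (fun x : ℝ => √(1 - x ^ 2)) ((-(2 * x)) / (2 * √(1 - x ^ 2))) x := by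
        have h1 : HasDerivAt (fun x : ℝ => 1 - x ^ 2) (-(2 * x)) x := by
          have := (hasDerivAt_pow 2 x).const_sub 1
          simpa using this
        exact h1.sqrt hpos.ne'
      have hd3 := (hasDerivAt_id x).mul hd2
      exact (((hd1.add hd3).sub (((hasDerivAt_id x).const_mul 2).sub
        ((hasDerivAt_pow 3 x).div_const 3) |>.sub
        ((hasDerivAt_pow 5 x).const_mul (2 * ε / 5)))).differentiableAt).differentiableWithinAt
    · intro x hx
      rw [interior_Icc] at hx
      have hx1 : x < 1 := lt_of_lt_of_le hx.2 hu1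
      have hpos : 0 < 1 - x ^ 2 := by nlinarith [hx.1]
      have hd1 := Real.hasDerivAt_arcsin (x := x) (by linarith [hx.1]) hx1.ne
      have hd2 : HasDerivAt (fun x : ℝ => √(1 - x ^ 2)) ((-(2 * x)) / (2 * √(1 - x ^ 2))) x := by
        have h1 : HasDerivAt (fun x : ℝ => 1 - x ^ 2) (-(2 * x)) x := by
          have := (hasDerivAt_pow 2 x).const_sub 1
          simpa using this
        exact h1.sqrt hpos.ne'
      have hd3 := (hasDerivAt_id x).mul hd2
      have hd4 := (((hasDerivAt_id x).const_mul 2).sub ((hasDerivAt_pow 3 x).div_const 3)).sub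
        ((hasDerivAt_pow 5 x).const_mul (2 * ε / 5))
      have hd := ((hd1.add hd3).sub hd4).deriv
      have hfe : f = (Real.arcsin + id * (fun x : ℝ => √(1 - x ^ 2))) -
          ((fun y : ℝ => 2 * id y) - (fun y : ℝ => y ^ 3 / 3) - (fun y : ℝ => 2 * ε / 5 * y ^ 5)) := by
        funext y
        simp only [hf, Pi.add_apply, Pi.sub_apply, Pi.mul_apply, id]
      rw [hfe, hd]
      set r := √(1 - x ^ 2) with hr
      have hr0 : 0 < r := Real.sqrt_pos.2 hpos
      have hr2 : r ^ 2 = 1 - x ^ 2 := Real.sq_sqrt hpos.le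
      have hval : 1 / r + (1 * r + id x * (-(2 * x) / (2 * r))) = 2 * r := by
        simp only [id]
        field_simp
        nlinarith
      rw [hval]
      have hlow : 1 - x ^ 2 / 2 - ε * x ^ 4 ≤ r := by
        rcases le_or_gt (1 - x ^ 2 / 2 - ε * x ^ 4) 0 with h | h
        · linarith
        · apply Real.le_sqrt_of_sq_le
          have hx2 : x ^ 2 ≤ u ^ 2 := by nlinarith [hx.1, hx.2]
          have hx4 : x ^ 4 ≤ u ^ 4 := by nlinarith [sq_nonneg x, sq_nonneg u]
          have h5 : ε * x ^ 2 + ε ^ 2 * x ^ 4 ≤ 2 * ε - 1 / 4 := by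
            have a1 := mul_le_mul_of_nonneg_left hx2 hε0
            have a2 := mul_le_mul_of_nonneg_left hx4 (sq_nonneg ε)
            linarith
          have h6 := mul_le_mul_of_nonneg_left h5 (by positivity : 0 ≤ x ^ 4)
          nlinarith
      norm_num
      nlinarith
  have h0 := hmono (Set.left_mem_Icc.2 hu0) (Set.right_mem_Icc.2 hu0) hu0
  simp only [hf] at h0
  simp at h0
  linarith

/-- **calibration** -/
theorem calib2 {z : ℕ → ℂ} {a b : ℕ} (hab : a ≤ b) {k ε : ℝ} (hk0 : 0 ≤ k) (hk1 : k ≤ 1)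
    (hℓ : clen z a b ≤ 3.04) (hε0 : 0 ≤ ε) {c : ℝ} (hc : c = ‖z b - z a‖) (hkc : k * c ≤ 2)
    (hε : ε * (k * c / 2) ^ 2 + ε ^ 2 * (k * c / 2) ^ 4 ≤ 2 * ε - 1 / 4) :
    c - k ^ 2 * c ^ 3 / 24 - ε * k ^ 4 * c ^ 5 / 80 + k * carea z a b ≤ clen z a b := by
  have hcl := chord_le_clen z hab
  rw [← hc] at hcl
  have hc0 : 0 ≤ c := by rw [hc]; exact norm_nonneg _
  set ℓ := clen z a b with hℓd
  rcases hk0.eq_or_lt with h0 | hk
  · rw [← h0]; simp; exact hcl
  rcases hc0.eq_or_lt with h0 | hcpos
  · -- closed chain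
    have h1 := chain_cot hab hk (by rw [← hℓd]; nlinarith [Real.pi_gt_three])
    rw [← hc, ← h0, ← hℓd] at h1
    rw [← h0]
    have h2 : k * (4 * carea z a b) ≤ 2 * ℓ := by
      have : k * (2 / k * ℓ) = 2 * ℓ := by field_simp
      rw [← this]
      apply mul_le_mul_of_nonneg_left _ hk.le
      simpa using h1
    have hℓ0 : 0 ≤ ℓ := clen_nonneg _ _ _
    norm_num
    linarith
  · set u := k * c / 2 with hu
    have hu0 : 0 < u := by positivity
    have hu1 : u ≤ 1 := by linarith
    set β := k * ℓ / 2 with hβ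
    have hβ0 : 0 < β := by
      have : 0 < ℓ := by linarith
      positivity
    have hβ1 : β ≤ Real.pi / 2 := by
      have := Real.pi_gt_d2
      have : k * ℓ ≤ 3.04 := by nlinarith
      linarith
    have h1 := chain_cot hab hk (by rw [← hℓd, ← hβ]; linarith [Real.pi_pos])
    rw [← hc, ← hℓd, ← hβ] at h1
    set θ := Real.arcsin u with hθ
    have hθ0 : 0 < θ := Real.arcsin_pos.2 hu0
    have hθ1 : θ ≤ Real.pi / 2 := Real.arcsin_le_pi_div_two u
    have hsin : Real.sin θ = u := Real.sin_arcsin (by linarith) hu1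
    have hcos : Real.cos θ = √(1 - u ^ 2) := Real.cos_arcsin u
    have h2 := cot_tangent hβ0 hβ1 hθ0 hθ1
    rw [hsin, hcos] at h2
    have h3 := arc_poly hu0.le hu1 hε0 hε
    rw [← hθ] at h3
    -- multiply by u ^ 2
    have h4 : u * √(1 - u ^ 2) - (β - θ) ≤ u ^ 2 * (Real.cos β / Real.sin β) := by
      have := mul_le_mul_of_nonneg_left h2 (sq_nonneg u)
      have e : u ^ 2 * (√(1 - u ^ 2) / u - (β - θ) / u ^ 2) = u * √(1 - u ^ 2) - (β - θ) := by
        field_simp
      rwa [e] at this
    have h5 : k * (4 * carea z a b) + k * (Real.cos β / Real.sin β * c ^ 2) ≤ 2 * ℓ := by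
      have e : k * (2 / k * ℓ) = 2 * ℓ := by field_simp
      rw [← e, ← mul_add]
      exact mul_le_mul_of_nonneg_left h1 hk.le
    have h6 : k * (Real.cos β / Real.sin β * c ^ 2) = 4 / k * (u ^ 2 * (Real.cos β / Real.sin β)) := by
      rw [hu]; field_simp; ring
    rw [h6] at h5
    have h7 : 4 / k * (2 * u - u ^ 3 / 3 - 2 * ε / 5 * u ^ 5 - β) ≤
        4 / k * (u ^ 2 * (Real.cos β / Real.sin β)) :=
      mul_le_mul_of_nonneg_left (by linarith) (by positivity)
    have h8 : 4 / k * (2 * u - u ^ 3 / 3 - 2 * ε / 5 * u ^ 5 - β) =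
        4 * (c - k ^ 2 * c ^ 3 / 24 - ε * k ^ 4 * c ^ 5 / 80) - 2 * ℓ := by
      rw [hu, hβ]
      field_simp
      ring
    rw [h8] at h7
    linarith

end Run7.h761
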