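import Pool.Agent.Run7.h761.Iso

/-! Closed polygons cut into chains: reflection of chains, calibration of a chain. -/

set_option autoImplicit false

namespace Run7.h761

open Finset

/-- length of the chain from index `a` to index `b` -/
noncomputable def clen (z : ℕ → ℂ) (a b : ℕ) : ℝ := ∑ k ∈ Ico a b, ‖z (k + 1) - z k‖

/-- signed area between the chain from index `a` to index `b` and its chord -/
noncomputable def carea (z : ℕ → ℂ) (a b : ℕ) : ℝ :=
  (∑ k ∈ Ico a b, cr (z k) (z (k + 1)) - cr (z a) (z b)) / 2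

theorem clen_nonneg (z : ℕ → ℂ) (a b : ℕ) : 0 ≤ clen z a b :=
  Finset.sum_nonneg fun _ _ => norm_nonneg _

theorem chord_le_clen (z : ℕ → ℂ) {a b : ℕ} (h : a ≤ b) : ‖z b - z a‖ ≤ clen z a b := by
  unfold clen
  rw [← Finset.sum_Ico_sub _ h]
  exact norm_sum_le _ _

theorem point_le_clen (z : ℕ → ℂ) {a b k : ℕ} (h : a ≤ k) (h' : k ≤ b) :
    ‖z k - z a‖ ≤ clen z a b := by
  refine (chord_le_clen z h).trans ?_
  unfold clen
  exact Finset.sum_le_sum_of_subset_of_nonneg (Finset.Ico_subset_Ico_right h')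
    fun _ _ _ => norm_nonneg _

theorem carea_rel (z : ℕ → ℂ) {a b : ℕ} (h : a ≤ b) :
    carea z a b = (∑ k ∈ Ico a b, cr (z k - z a) (z (k + 1) - z a)) / 2 := by
  unfold carea
  congr 1
  have h1 : ∀ k, cr (z k - z a) (z (k + 1) - z a) = cr (z k) (z (k + 1)) -
      (cr (z a) (z (k + 1)) - cr (z a) (z k)) := by
    intro k
    unfold cr
    simp only [Complex.sub_re, Complex.sub_im]
    ring
  rw [Finset.sum_congr rfl fun k _ => h1 k, Finset.sum_sub_distrib,
    Finset.sum_Ico_sub (fun k => cr (z a) (z k)) h]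
  have : cr (z a) (z a) = 0 := by unfold cr; ring
  rw [this]; ring

/-- a plane isometry which reverses the orientation and fixes `p` and `q` -/
theorem exists_refl (p q : ℂ) : ∃ u : ℂ, ‖u‖ = 1 ∧ p + u ^ 2 * (starRingEnd ℂ) (q - p) = q := by
  by_cases h : q - p = 0
  · refine ⟨1, by simp, ?_⟩
    rw [h]; simp
    exact (sub_eq_zero.1 h).symm
  · have hn : (‖q - p‖ : ℂ) ≠ 0 := by
      rw [Ne, Complex.ofReal_eq_zero, norm_eq_zero]; exact h
    refine ⟨(q - p) / ‖q - p‖, ?_, ?_⟩
    · rw [norm_div, Complex.norm_real, norm_norm, div_self]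
      exact norm_ne_zero_iff.2 h
    · have h1 : (q - p) * (starRingEnd ℂ) (q - p) = (‖q - p‖ : ℂ) ^ 2 := by
        rw [Complex.mul_conj, Complex.normSq_eq_norm_sq]; push_cast; ring
      have h2 : ((q - p) / ‖q - p‖) ^ 2 * (starRingEnd ℂ) (q - p) = q - p := by
        rw [div_pow, sq (q - p), mul_div_assoc, mul_assoc, div_mul_eq_mul_div, h1]
        field_simp
      rw [h2]; ring

theorem cr_refl (u v w : ℂ) (hu : ‖u‖ = 1) :
    cr (u ^ 2 * (starRingEnd ℂ) v) (u ^ 2 * (starRingEnd ℂ) w) = -cr v w := by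
  have h1 : u.re ^ 2 + u.im ^ 2 = 1 := by
    have := Complex.normSq_eq_norm_sq u
    rw [hu, Complex.normSq_apply] at this
    linarith
  unfold cr
  simp only [sq, Complex.mul_re, Complex.mul_im, Complex.conj_re, Complex.conj_im]
  linear_combination (-(v.re * w.im - v.im * w.re)) * (u.re ^ 2 + u.im ^ 2 + 1) * h1

/-- gluing maps which agree at the marks -/
theorem exists_glue (z : ℕ → ℂ) (t : ℕ → ℕ) (R : ℕ → ℂ → ℂ) (n : ℕ)
    (ht : ∀ i < n, t i ≤ t (i + 1))
    (h1 : ∀ i < n, R i (z (t i)) = z (t i)) (h2 : ∀ i < n, R i (z (t (i + 1))) = z (t (i + 1))) :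
    ∃ z' : ℕ → ℂ, (∀ i < n, ∀ k, t i ≤ k → k ≤ t (i + 1) → z' k = R i (z k)) ∧
      z' (t 0) = z (t 0) ∧ z' (t n) = z (t n) := by
  have mono : ∀ m ≤ n, ∀ i ≤ m, t i ≤ t m := by
    intro m
    induction m with
    | zero => intro _ i hi; rw [Nat.le_zero.1 hi]
    | succ m ih =>
      intro hm i hi
      rcases Nat.lt_or_ge i (m + 1) with h | h
      · exact (ih (by omega) i (by omega)).trans (ht m (by omega))
      · rw [show i = m + 1 by omega]
  have key : ∀ m ≤ n, ∃ z' : ℕ → ℂ, (∀ i < m, ∀ k, t i ≤ k → k ≤ t (i + 1) → z' k = R i (z k)) ∧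
      z' (t 0) = z (t 0) ∧ z' (t m) = z (t m) := by
    intro m
    induction m with
    | zero => intro _; exact ⟨z, by intro i hi; omega, rfl, rfl⟩
    | succ m ih =>
      intro hm
      obtain ⟨z', a, b, c⟩ := ih (by omega)
      refine ⟨fun k => if k ≤ t m then z' k else R m (z k), ?_, ?_, ?_⟩
      · intro i hi k hk1 hk2
        rcases Nat.lt_or_ge i m with h | h
        · have : k ≤ t m := hk2.trans (mono m (by omega) (i + 1) (by omega))
          simp only [this, if_true]
          exact a i h k hk1 hk2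
        · have him : i = m := by omega
          subst him
          by_cases hk : k ≤ t i
          · have : k = t i := le_antisymm hk hk1
            subst this
            simp only [le_refl, if_true]
            rw [c, h1 i (by omega)]
          · simp only [hk, if_false]
      · simp only [mono m (by omega) 0 (by omega), if_true]
        exact b
      · by_cases h : t (m + 1) ≤ t m
        · simp only [h, if_true]
          have : t (m + 1) = t m := le_antisymm h (ht m (by omega))
          rw [this, c]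
        · simp only [h, if_false]
          exact h2 m (by omega)
  exact key n le_rfl

theorem sum_chains (f : ℕ → ℝ) (t : ℕ → ℕ) (n : ℕ) (ht : ∀ i < n, t i ≤ t (i + 1)) :
    ∑ i ∈ range n, ∑ k ∈ Ico (t i) (t (i + 1)), f k = ∑ k ∈ Ico (t 0) (t n), f k := by
  induction n with
  | zero => simp
  | succ n ih =>
    rw [Finset.sum_range_succ, ih (fun i hi => ht i (by omega)), Finset.sum_Ico_consecutive]
    · have : ∀ m ≤ n, t 0 ≤ t m := by
        intro m
        induction m with
        | zero => intro _; exact le_rfl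
        | succ m ih2 => intro hm; exact (ih2 (by omega)).trans (ht m (by omega))
      exact this n le_rfl
    · exact ht n (by omega)

theorem clen_range (z : ℕ → ℂ) (m : ℕ) : clen z 0 m = plen m z := by
  unfold clen plen
  rw [Finset.range_eq_Ico]

/-- a closed curve cut into `n` chains -/
structure Cut (z : ℕ → ℂ) (t : ℕ → ℕ) (n : ℕ) : Prop where
  zero : t 0 = 0
  mono : ∀ i < n, t i ≤ t (i + 1)
  closed : z (t n) = z 0

/-- total length -/
noncomputable def tlen (z : ℕ → ℂ) (t : ℕ → ℕ) (n : ℕ) : ℝ :=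
  ∑ i ∈ range n, clen z (t i) (t (i + 1))

/-- area of the polygon of the chords -/
noncomputable def parea (z : ℕ → ℂ) (t : ℕ → ℕ) (n : ℕ) : ℝ :=
  (∑ i ∈ range n, cr (z (t i)) (z (t (i + 1)))) / 2

theorem tlen_eq {z : ℕ → ℂ} {t : ℕ → ℕ} {n : ℕ} (h : Cut z t n) :
    tlen z t n = plen (t n) z := by
  unfold tlen
  rw [← clen_range]
  unfold clen
  rw [sum_chains _ t n h.mono, h.zero]

theorem par_eq {z : ℕ → ℂ} {t : ℕ → ℕ} {n : ℕ} (h : Cut z t n) :
    par (t n) z / 2 = parea z t n + ∑ i ∈ range n, carea z (t i) (t (i + 1)) := by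
  unfold carea parea
  rw [← Finset.sum_div, Finset.sum_sub_distrib, sum_chains _ t n h.mono, h.zero]
  unfold par
  rw [Finset.range_eq_Ico]
  ring

/-- **reflection of chains** -/
theorem refl_iso {z : ℕ → ℂ} {t : ℕ → ℕ} {n : ℕ} (h : Cut z t n) :
    4 * Real.pi * (|parea z t n| + ∑ i ∈ range n, |carea z (t i) (t (i + 1))|) ≤
      tlen z t n ^ 2 := by
  classical
  set B := parea z t n with hB
  set x : ℕ → ℝ := fun i => carea z (t i) (t (i + 1)) with hx
  -- the chains that have to be reflected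
  set J : ℕ → Prop := fun i => if 0 ≤ B then x i < 0 else 0 < x i with hJ
  choose u hu1 hu2 using fun i => exists_refl (z (t i)) (z (t (i + 1)))
  set R : ℕ → ℂ → ℂ := fun i w => if J i then z (t i) + u i ^ 2 * (starRingEnd ℂ) (w - z (t i))
    else w with hR
  obtain ⟨z', hz', hz0, hzn⟩ := exists_glue z t R n h.mono
    (fun i _ => by
      simp only [hR]
      split_ifs
      · simp
      · rfl)
    (fun i _ => by
      simp only [hR]
      split_ifs
      · exact hu2 i
      · rfl)
  have hRd : ∀ i v w, ‖R i v - R i w‖ = ‖v - w‖ := by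
    intro i v w
    simp only [hR]
    split_ifs
    · have : z (t i) + u i ^ 2 * (starRingEnd ℂ) (v - z (t i)) -
          (z (t i) + u i ^ 2 * (starRingEnd ℂ) (w - z (t i))) =
          u i ^ 2 * (starRingEnd ℂ) (v - w) := by
        simp only [map_sub]; ring
      rw [this, norm_mul, norm_pow, hu1, Complex.norm_conj]; ring
    · rfl
  have hcut : Cut z' t n := by
    refine ⟨h.zero, h.mono, ?_⟩
    rw [hzn, h.closed, ← h.zero, hz0]
  have hmark : ∀ i < n, z' (t i) = z (t i) ∧ z' (t (i + 1)) = z (t (i + 1)) := by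
    intro i hi
    constructor
    · rw [hz' i hi _ le_rfl (h.mono i hi)]
      simp only [hR]
      split_ifs
      · simp
      · rfl
    · rw [hz' i hi _ (h.mono i hi) le_rfl]
      simp only [hR]
      split_ifs
      · exact hu2 i
      · rfl
  have hlen : ∀ i < n, clen z' (t i) (t (i + 1)) = clen z (t i) (t (i + 1)) := by
    intro i hi
    unfold clen
    refine Finset.sum_congr rfl fun k hk => ?_
    rw [Finset.mem_Ico] at hk
    rw [hz' i hi k hk.1 hk.2.le, hz' i hi (k + 1) (by omega) (by omega), hRd]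
  have har : ∀ i < n, carea z' (t i) (t (i + 1)) = if J i then -x i else x i := by
    intro i hi
    rw [carea_rel _ (h.mono i hi)]
    simp only [hx]
    rw [carea_rel _ (h.mono i hi), (hmark i hi).1]
    have : ∀ k ∈ Ico (t i) (t (i + 1)), cr (z' k - z (t i)) (z' (k + 1) - z (t i)) =
        (if J i then -1 else 1) * cr (z k - z (t i)) (z (k + 1) - z (t i)) := by
      intro k hk
      rw [Finset.mem_Ico] at hk
      rw [hz' i hi k hk.1 hk.2.le, hz' i hi (k + 1) (by omega) (by omega)]
      simp only [hR]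
      split_ifs
      · rw [add_sub_cancel_left, add_sub_cancel_left, cr_refl _ _ _ (hu1 i)]; ring
      · ring
    rw [Finset.sum_congr rfl this, ← Finset.mul_sum]
    split_ifs <;> ring
  have hpar : parea z' t n = B := by
    rw [hB]
    unfold parea
    congr 1
    refine Finset.sum_congr rfl fun i hi => ?_
    rw [Finset.mem_range] at hi
    rw [(hmark i hi).1, (hmark i hi).2]
  have hL : tlen z' t n = tlen z t n := by
    unfold tlen
    exact Finset.sum_congr rfl fun i hi => hlen i (Finset.mem_range.1 hi)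
  have hA : par (t n) z' / 2 = B + ∑ i ∈ range n, (if J i then -x i else x i) := by
    rw [par_eq hcut, hpar]
    congr 1
    exact Finset.sum_congr rfl fun i hi => har i (Finset.mem_range.1 hi)
  have hclosed : z' (t n) = z' 0 := hcut.closed
  rcases le_or_gt 0 B with hB0 | hB0
  · have h1 := iso_ineq (t n) z' hclosed
    rw [hA, ← tlen_eq hcut, hL] at h1
    refine le_trans ?_ h1
    apply mul_le_mul_of_nonneg_left _ (by positivity)
    rw [abs_of_nonneg hB0]
    apply add_le_add le_rfl
    refine Finset.sum_le_sum fun i _ => ?_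
    simp only [hJ, hB0, if_true]
    split_ifs with hj
    · rw [abs_of_neg hj]
    · rw [abs_of_nonneg (not_lt.1 hj)]
  · have h1 := iso_ineq (t n) (fun k => (starRingEnd ℂ) (z' k)) (by rw [hclosed])
    have h2 : par (t n) (fun k => (starRingEnd ℂ) (z' k)) = -par (t n) z' := by
      unfold par
      rw [← Finset.sum_neg_distrib]
      refine Finset.sum_congr rfl fun k _ => ?_
      unfold cr
      simp only [Complex.conj_re, Complex.conj_im]
      ring
    have h3 : plen (t n) (fun k => (starRingEnd ℂ) (z' k)) = plen (t n) z' := by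
      unfold plen
      refine Finset.sum_congr rfl fun k _ => ?_
      rw [← map_sub, Complex.norm_conj]
    rw [h2, h3, neg_div, hA, ← tlen_eq hcut, hL] at h1
    refine le_trans ?_ h1
    apply mul_le_mul_of_nonneg_left _ (by positivity)
    rw [abs_of_neg hB0, neg_add, ← Finset.sum_neg_distrib]
    apply add_le_add le_rfl
    refine Finset.sum_le_sum fun i _ => ?_
    simp only [hJ, not_le.2 hB0, if_false]
    split_ifs with hj
    · rw [abs_of_pos hj, neg_neg]
    · rw [abs_of_nonpos (not_lt.1 hj)]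

/-- polygon of the chords -/
theorem chord_iso {z : ℕ → ℂ} {t : ℕ → ℕ} {n : ℕ} (h : Cut z t n) (hn : 3 ≤ n) :
    4 * n * Real.tan (Real.pi / n) * parea z t n ≤
      (∑ i ∈ range n, ‖z (t (i + 1)) - z (t i)‖) ^ 2 :=
  polygon_iso hn (fun i => z (t i)) (by rw [h.closed, h.zero])

theorem parea_two {z : ℕ → ℂ} {t : ℕ → ℕ} (h : Cut z t 2) : parea z t 2 = 0 := by
  unfold parea
  rw [Finset.sum_range_succ, Finset.sum_range_one]
  have h1 : z (t (1 + 1)) = z (t 0) := by rw [h.zero]; exact h.closed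
  rw [h1]
  unfold cr
  ring

/-- **calibration of one chain** -/
theorem calib {z : ℕ → ℂ} {a b : ℕ} (hab : a ≤ b) {κ : ℝ} (hκ : |κ| * clen z a b ≤ 3 / 5) :
    ‖z b - z a‖ + κ * carea z a b - κ ^ 2 * ‖z b - z a‖ ^ 3 / 16 ≤ clen z a b := by
  set c := ‖z b - z a‖ with hc
  set ℓ := clen z a b with hℓ
  have hc0 : 0 ≤ c := norm_nonneg _
  have hcℓ : c ≤ ℓ := chord_le_clen z hab
  obtain ⟨u, hu, huc⟩ : ∃ u : ℂ, ‖u‖ = 1 ∧ (starRingEnd ℂ) u * (z b - z a) = (c : ℂ) := by
    by_cases h : z b - z a = 0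
    · refine ⟨1, by simp, ?_⟩
      rw [hc, h]; simp
    · have hn : (‖z b - z a‖ : ℂ) ≠ 0 := by
        rw [Ne, Complex.ofReal_eq_zero, norm_eq_zero]; exact h
      refine ⟨(z b - z a) / ‖z b - z a‖, ?_, ?_⟩
      · rw [norm_div, Complex.norm_real, norm_norm, div_self]
        exact norm_ne_zero_iff.2 h
      · have h1 : (starRingEnd ℂ) (z b - z a) * (z b - z a) = (‖z b - z a‖ : ℂ) ^ 2 := by
          rw [mul_comm, Complex.mul_conj, Complex.normSq_eq_norm_sq]; push_cast; ring
        rw [map_div₀, Complex.conj_ofReal, div_mul_eq_mul_div, h1, hc]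
        field_simp
  set w : ℕ → ℂ := fun k => (starRingEnd ℂ) u * (z k - z a) with hw
  have hwa : w a = 0 := by simp [hw]
  have hwb : w b = c := huc
  have hstep : ∀ k, ‖z (k + 1) - z k‖ ^ 2 =
      ((w (k + 1)).re - (w k).re) ^ 2 + ((w (k + 1)).im - (w k).im) ^ 2 := by
    intro k
    have h1 : w (k + 1) - w k = (starRingEnd ℂ) u * (z (k + 1) - z k) := by
      simp only [hw]; ring
    have h2 : ‖w (k + 1) - w k‖ = ‖z (k + 1) - z k‖ := by
      rw [h1, norm_mul, Complex.norm_conj, hu, one_mul]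
    rw [← h2, ← Complex.normSq_eq_norm_sq, Complex.normSq_apply]
    simp only [Complex.sub_re, Complex.sub_im]
    ring
  have hX : ∀ k, a ≤ k → k ≤ b → |(w k).re| ≤ ℓ := by
    intro k h1 h2
    refine (Complex.abs_re_le_norm _).trans ?_
    have : ‖w k‖ = ‖z k - z a‖ := by
      simp only [hw]
      rw [norm_mul, Complex.norm_conj, hu, one_mul]
    rw [this]
    exact point_le_clen z h1 h2
  have hcr : ∀ k, cr (z k - z a) (z (k + 1) - z a) = cr (w k) (w (k + 1)) := by
    intro k
    have h1 : u.re ^ 2 + u.im ^ 2 = 1 := by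
      have := Complex.normSq_eq_norm_sq u
      rw [hu, Complex.normSq_apply] at this
      linarith
    simp only [hw]
    unfold cr
    simp only [Complex.mul_re, Complex.mul_im, Complex.conj_re, Complex.conj_im]
    linear_combination (-(((z k - z a).re * (z (k + 1) - z a).im -
      (z k - z a).im * (z (k + 1) - z a).re))) * h1
  -- the estimate for one step
  have hseg : ∀ k ∈ Ico a b, ((w (k + 1)).re - (w k).re) -
      κ ^ 2 / 4 * (((w (k + 1)).re - c / 2) ^ 3 - ((w k).re - c / 2) ^ 3) +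
      κ * (((w k).re + (w (k + 1)).re) / 2 - c / 2) * ((w (k + 1)).im - (w k).im) ≤
      ‖z (k + 1) - z k‖ := by
    intro k hk
    rw [Finset.mem_Ico] at hk
    have hs := hstep k
    set X := (w k).re with hXd
    set X' := (w (k + 1)).re with hXd'
    set Y := (w k).im
    set Y' := (w (k + 1)).im
    set N := ‖z (k + 1) - z k‖
    have hN : 0 ≤ N := norm_nonneg _
    have b1 := hX k hk.1 hk.2.le
    have b2 := hX (k + 1) (by omega) (by omega)
    have hℓ0 : 0 ≤ ℓ := clen_nonneg _ _ _
    have hpt : ∀ f : ℝ, f ^ 2 ≤ 8 / 9 →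
        (1 - 3 / 4 * f ^ 2) * (X' - X) + f * (Y' - Y) ≤ N := by
      intro f hf
      have h1 : ((1 - 3 / 4 * f ^ 2) * (X' - X) + f * (Y' - Y)) ^ 2 ≤ N ^ 2 := by
        have h2 : ((1 - 3 / 4 * f ^ 2) * (X' - X) + f * (Y' - Y)) ^ 2 ≤
            ((1 - 3 / 4 * f ^ 2) ^ 2 + f ^ 2) * N ^ 2 := by
          rw [hs]
          nlinarith [sq_nonneg ((1 - 3 / 4 * f ^ 2) * (Y' - Y) - f * (X' - X))]
        have h3 : (1 - 3 / 4 * f ^ 2) ^ 2 + f ^ 2 ≤ 1 := by nlinarith [sq_nonneg f]
        nlinarith [sq_nonneg N]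
      exact abs_le_of_sq_le_sq' h1 hN |>.2
    have hf : ∀ v : ℝ, |v| ≤ ℓ → (κ * (v - c / 2)) ^ 2 ≤ 8 / 9 := by
      intro v hv
      have h1 : |κ * (v - c / 2)| ≤ 9 / 10 := by
        rw [abs_mul]
        have h2 : |v - c / 2| ≤ 3 / 2 * ℓ := by
          rw [abs_le] at hv ⊢
          constructor <;> linarith [hv.1, hv.2]
        calc |κ| * |v - c / 2| ≤ |κ| * (3 / 2 * ℓ) :=
              mul_le_mul_of_nonneg_left h2 (abs_nonneg _)
          _ ≤ 9 / 10 := by linarith
      rw [← sq_abs]
      have := abs_nonneg (κ * (v - c / 2))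
      nlinarith
    have g0 := hpt _ (hf X b1)
    have g1 := hpt _ (hf X' b2)
    have gm := hpt _ (hf ((X + X') / 2) (by
      rw [abs_le] at b1 b2 ⊢
      constructor <;> linarith [b1.1, b1.2, b2.1, b2.2]))
    nlinarith
  have hsum := Finset.sum_le_sum hseg
  rw [Finset.sum_add_distrib, Finset.sum_sub_distrib, ← Finset.mul_sum] at hsum
  rw [Finset.sum_Ico_sub (fun k => (w k).re) hab,
    Finset.sum_Ico_sub (fun k => ((w k).re - c / 2) ^ 3) hab] at hsum
  have hA : ∑ k ∈ Ico a b, κ * (((w k).re + (w (k + 1)).re) / 2 - c / 2) *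
      ((w (k + 1)).im - (w k).im) = κ * carea z a b := by
    rw [carea_rel z hab, Finset.sum_congr rfl fun k _ => hcr k]
    have h1 : ∀ k, κ * (((w k).re + (w (k + 1)).re) / 2 - c / 2) *
        ((w (k + 1)).im - (w k).im) = κ * (cr (w k) (w (k + 1)) / 2) +
        κ * ((((w (k + 1)).re * (w (k + 1)).im / 2 - c / 2 * (w (k + 1)).im)) -
          ((w k).re * (w k).im / 2 - c / 2 * (w k).im)) := by
      intro k
      unfold cr
      ring
    rw [Finset.sum_congr rfl fun k _ => h1 k, Finset.sum_add_distrib, ← Finset.mul_sum,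
      ← Finset.mul_sum, Finset.sum_Ico_sub
        (fun k => (w k).re * (w k).im / 2 - c / 2 * (w k).im) hab, hwa, hwb, ← Finset.sum_div]
    simp
  rw [hA, hwa, hwb] at hsum
  have hfin : ∑ k ∈ Ico a b, ‖z (k + 1) - z k‖ = ℓ := rfl
  rw [hfin] at hsum
  simp only [Complex.ofReal_re, Complex.zero_re] at hsum
  nlinarith

end Run7.h761
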