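import Pool.Agent.Run7.h761.Move
import Pool.Agent.Run7.h761.Data

/-! Finite checks for the polygons of the boundary layers. -/

set_option autoImplicit false
set_option maxRecDepth 100000

namespace Run7.h761

/-- the polygons of the four boundary layers, by depth -/
def shL : Fin 4 → List Poly := ![[sZ0], [sA0, sA1, sA2, sA3, sA4],
  [sX0, sX1, sX2, sX3, sX4, sX5, sX6, sX7], [sY0, sY1, sY2, sY3, sY4, sY5, sY6, sY7]]

/-- number of modified rows -/
def Mx : Fin 4 → ℕ := ![1, 5, 8, 8]

/-- outward covectors -/
def cov : Fin 4 → V := ![(1, 1), (2, 1), (3, 2), (3, 1)]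

/-- outward height -/
def hc (c : Fin 4) (p : V) : ℤ := (cov c).1 * p.1 + (cov c).2 * p.2

/-- polygon of pattern `c` and depth `H` -/
def sh (c : Fin 4) (H : ℕ) : Poly := (shL c).getD H hexP

/-- rotated copies of the regular hexagon -/
def hexV (j : Fin 6) : Poly := trg (mv j 0) j hexP

/-- compatibility of neighbours -/
def compatB (P : Poly) (k : Fin 6) (P' : Poly) : Bool :=
  sepP P (trl (dir k) P') &&
    decide (slot (trl (dir k) P') (k + 3) = ((slot P k).map Prod.swap).reverse)

/-- pairwise check -/
def pairB (r : V → V → Bool) : List V → Bool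
  | [] => true
  | x :: l => l.all (r x) && pairB r l

theorem pairB_iff {r : V → V → Bool} : ∀ {l : List V}, pairB r l = true →
    l.Pairwise fun x y => r x y = true
  | [], _ => List.Pairwise.nil
  | x :: l, h => by
    simp only [pairB, Bool.and_eq_true] at h
    exact List.pairwise_cons.2 ⟨List.all_eq_true.1 h.1, pairB_iff h.2⟩

/-- Boolean form of `FanOK` -/
def fanB : Poly → Bool
  | [] => false
  | [_] => false
  | a :: l => pairB (fun x y => decide (0 < orient a.v x y)) (l.map fun b => b.v)

theorem fanB_iff {P : Poly} (h : fanB P = true) : FanOK P := by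
  cases P with
  | nil => simp [fanB] at h
  | cons a l =>
    cases l with
    | nil => simp [fanB] at h
    | cons b l =>
      have h1 := pairB_iff (show pairB (fun x y => decide (0 < orient a.v x y))
        ((b :: l).map fun b => b.v) = true from h)
      show ((b :: l).map fun b => b.v).Pairwise fun x y => 0 < orient a.v x y
      exact h1.imp fun hxy => of_decide_eq_true hxy

/-- Boolean form of `LenOK` -/
def lenB (P : Poly) : Bool := (edges P).all fun e =>
  decide (0 ≤ e.r) && decide (qf (e.t - e.s) * SS ^ 2 ≤ e.r ^ 2 * DD ^ 2)

theorem lenB_iff {P : Poly} (h : lenB P = true) : LenOK P := by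
  intro e he
  have := List.all_eq_true.1 h e he
  simpa using this

/-- all single polygon checks -/
def validB (P : Poly) : Bool :=
  fanB P && (decide (area2 P = 2 * DD ^ 2) && (lenB P && (winB P && decide (perR P ≤ 8 * SS))))

theorem validB_iff {P : Poly} (h : validB P = true) : Valid P ∧ winB P = true ∧
    perR P ≤ 8 * SS := by
  simp only [validB, Bool.and_eq_true, decide_eq_true_eq] at h
  obtain ⟨h1, h2, h3, h4, h5⟩ := h
  exact ⟨⟨fanB_iff h1, h2, lenB_iff h3⟩, h4, h5⟩

/-- check of all polygons of one pattern -/
def chkV (c : Fin 4) : Bool := (List.range (Mx c)).all fun H => validB (sh c H)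

/-- check of one row against its neighbours -/
def chkRow (c : Fin 4) (H : ℕ) : Bool :=
  (List.finRange 6).all fun k =>
    if (H : ℤ) - hc c (dir k) < 0 then decide (slot (sh c H) k = [])
    else if (H : ℤ) - hc c (dir k) < Mx c then
      compatB (sh c H) k (sh c ((H : ℤ) - hc c (dir k)).toNat)
    else (List.finRange 6).all fun j => compatB (sh c H) k (hexV j)

/-- check of the regular rows against one modified row -/
def chkRow' (c : Fin 4) (H' : ℕ) : Bool :=
  (List.finRange 6).all fun k =>
    if (Mx c : ℤ) ≤ (H' : ℤ) + hc c (dir k) then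
      (List.finRange 6).all fun j => compatB (hexV j) k (sh c H')
    else true

theorem valid_hexP : validB hexP = true := by decide +kernel

theorem chkV_all : ∀ c, chkV c = true := by decide +kernel

theorem chkHex : ∀ k, compatB (hexV 0) k (hexV 0) = true := by decide +kernel

theorem chkRow0 : chkRow 0 0 = true := by decide +kernel

theorem chkRow1 : ∀ H < 5, chkRow 1 H = true := by decide +kernel

theorem chkRow2 : ∀ H < 8, chkRow 2 H = true := by decide +kernel

theorem chkRow3 : ∀ H < 8, chkRow 3 H = true := by decide +kernel

theorem chkRow'0 : chkRow' 0 0 = true := by decide +kernel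

theorem chkRow'1 : ∀ H < 5, chkRow' 1 H = true := by decide +kernel

theorem chkRow'2 : ∀ H < 8, chkRow' 2 H = true := by decide +kernel

theorem chkRow'3 : ∀ H < 8, chkRow' 3 H = true := by decide +kernel

end Run7.h761
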