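import Pool.Agent.Run7.h761.Fan

/-! Perimeter of clusters of open sets satisfying Green's theorem. -/

set_option autoImplicit false

namespace Run7.h761

open MeasureTheory Set Filter Topology
open scoped ENNReal

lemma fderiv_comp_apply {Z : Plane → Plane} {x : Plane} (hZ : DifferentiableAt ℝ Z x) (i : Fin 2)
    (v : Plane) : fderiv ℝ (fun y => Z y i) x v = (fderiv ℝ Z x v) i := by
  have h2 : HasFDerivAt (fun y => Z y i)
      ((EuclideanSpace.proj i : Plane →L[ℝ] ℝ).comp (fderiv ℝ Z x)) x :=
    (EuclideanSpace.proj i : Plane →L[ℝ] ℝ).hasFDerivAt.comp x hZ.hasFDerivAt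
  rw [h2.fderiv]
  rfl

lemma continuous_divergence {Z : Plane → Plane} (hZ : ContDiff ℝ 1 Z) :
    Continuous (divergence Z) := by
  unfold divergence
  refine continuous_finsetSum _ fun i _ => ?_
  have h1 : Continuous (fun x => fderiv ℝ Z x) := hZ.continuous_fderiv (by norm_num)
  have h2 : Continuous fun x => fderiv ℝ Z x (EuclideanSpace.single i 1) :=
    h1.clm_apply continuous_const
  fun_prop

lemma hasCompactSupport_divergence {Z : Plane → Plane} (hc : HasCompactSupport Z) :
    HasCompactSupport (divergence Z) := by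
  have h := hc.fderiv ℝ
  exact h.comp_left (g := fun L : Plane →L[ℝ] Plane =>
    ∑ i : Fin 2, (L (EuclideanSpace.single i 1)) i) (by simp)

lemma integrable_divergence {Z : Plane → Plane} (hZ : ContDiff ℝ 1 Z) (hc : HasCompactSupport Z) :
    Integrable (divergence Z) :=
  (continuous_divergence hZ).integrable_of_hasCompactSupport (hasCompactSupport_divergence hc)

lemma integral_fderiv_zero {g : Plane → ℝ} (hg : ContDiff ℝ 1 g) (hc : HasCompactSupport g)
    (v : Plane) : ∫ x, fderiv ℝ g x v = 0 := by
  have h1 : Continuous (fun x => fderiv ℝ g x v) :=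
    (hg.continuous_fderiv (by norm_num)).clm_apply continuous_const
  have h2 : HasCompactSupport (fun x => fderiv ℝ g x v) :=
    (hc.fderiv ℝ).comp_left (g := fun L : Plane →L[ℝ] ℝ => L v) (by simp)
  have h := integral_mul_fderiv_eq_neg_fderiv_mul_of_integrable (μ := (volume : Measure Plane))
    (f := fun _ : Plane => (1 : ℝ)) (g := g) (v := v) (by simp)
    (by simpa using h1.integrable_of_hasCompactSupport h2)
    (by simpa using hg.continuous.integrable_of_hasCompactSupport hc)
    (fun x _ => by fun_prop) (fun x _ => (hg.differentiable (by norm_num)).differentiableAt)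
  simpa using h

lemma integral_divergence_zero {Z : Plane → Plane} (hZ : ContDiff ℝ 1 Z)
    (hc : HasCompactSupport Z) : ∫ x, divergence Z x = 0 := by
  have hd : ∀ x, DifferentiableAt ℝ Z x := fun x => (hZ.differentiable (by norm_num)) x
  have h1 : ∀ x, divergence Z x =
      ∑ i : Fin 2, fderiv ℝ (fun y => Z y i) x (EuclideanSpace.single i 1) :=
    fun x => Finset.sum_congr rfl fun i _ => (fderiv_comp_apply (hd x) i _).symm
  simp_rw [h1]
  have hZi : ∀ i : Fin 2, ContDiff ℝ 1 (fun y => Z y i) := fun i =>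
    (contDiff_euclidean.1 hZ i)
  have hci : ∀ i : Fin 2, HasCompactSupport (fun y => Z y i) := fun i =>
    hc.comp_left (g := fun z : Plane => z i) (by simp)
  rw [integral_finsetSum]
  · exact Finset.sum_eq_zero fun i _ => integral_fderiv_zero (hZi i) (hci i) _
  · intro i _
    have h1 : Continuous (fun x => fderiv ℝ (fun y => Z y i) x (EuclideanSpace.single i 1)) :=
      ((hZi i).continuous_fderiv (by norm_num)).clm_apply continuous_const
    have h2 : HasCompactSupport
        (fun x => fderiv ℝ (fun y => Z y i) x (EuclideanSpace.single i 1)) :=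
      ((hci i).fderiv ℝ).comp_left
        (g := fun L : Plane →L[ℝ] ℝ => L (EuclideanSpace.single i 1)) (by simp)
    exact h1.integrable_of_hasCompactSupport h2

/-- admissible test fields -/
def Adm (φ : Plane → Plane) : Prop :=
  ContDiff ℝ 1 φ ∧ HasCompactSupport φ ∧ ∀ x, ‖φ x‖ ≤ 1

lemma perimeter_le {A : Set Plane} {c : ℝ} (h : ∀ φ : Plane → Plane, Adm φ →
    ∫ x in A, divergence φ x ≤ c) : perimeter A ≤ ENNReal.ofReal c :=
  iSup_le fun Z => ENNReal.ofReal_le_ofReal (h Z.1 Z.2)

theorem leastPerimeter_le {N : ℕ} (R : Fin N → Set Plane) (hopen : ∀ i, IsOpen (R i))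
    (hdisj : ∀ i j, i ≠ j → Disjoint (R i) (R j))
    (harea : ∀ i, volume (R i) = ENNReal.ofReal cellArea)
    (F : (Plane → Plane) → Fin N → ℝ)
    (hG : ∀ φ, Adm φ → ∀ i, ∫ x in R i, divergence φ x = F φ i)
    (L : Fin N → ℝ) (hL0 : ∀ i, 0 ≤ L i) (hL : ∀ φ, Adm φ → ∀ i, F φ i ≤ L i)
    (B : ℝ) (hB0 : 0 ≤ B) (hB : ∀ φ, Adm φ → - ∑ i, F φ i ≤ B) :
    leastPerimeter N ≤ ENNReal.ofReal ((B + ∑ i, L i) / 2) := by
  have hper : ∀ i, perimeter (R i) ≤ ENNReal.ofReal (L i) := fun i =>
    perimeter_le fun φ hφ => by rw [hG φ hφ i]; exact hL φ hφ i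
  have hU : MeasurableSet (⋃ i, R i) := MeasurableSet.iUnion fun i => (hopen i).measurableSet
  have hext : perimeter (⋃ i, R i)ᶜ ≤ ENNReal.ofReal B := by
    refine perimeter_le fun φ hφ => ?_
    have hi := integrable_divergence hφ.1 hφ.2.1
    have h1 := integral_add_compl hU hi
    rw [integral_divergence_zero hφ.1 hφ.2.1] at h1
    have h2 : ∫ x in ⋃ i, R i, divergence φ x = ∑ i, F φ i := by
      have h3 := integral_iUnion_fintype (μ := (volume : Measure Plane)) (s := R)
        (f := divergence φ) (fun i => (hopen i).measurableSet)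
        (fun i j hij => hdisj i j hij) (fun i => hi.integrableOn)
      rw [h3]
      exact Finset.sum_congr rfl fun i _ => hG φ hφ i
    have h3 := hB φ hφ
    linarith
  have hcl : IsCluster N R := ⟨fun i => (hopen i).measurableSet, hdisj,
    fun i => (hper i).trans_lt ENNReal.ofReal_lt_top, harea⟩
  refine (iInf_le (fun R : {R : Fin N → Set Plane // IsCluster N R} => clusterPerimeter R.1)
    ⟨R, hcl⟩).trans ?_
  unfold clusterPerimeter
  rw [ENNReal.ofReal_div_of_pos (by norm_num), ENNReal.ofReal_add hB0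
    (Finset.sum_nonneg fun i _ => hL0 i), ENNReal.ofReal_sum_of_nonneg fun i _ => hL0 i]
  simp only [ENNReal.ofReal_ofNat]
  gcongr
  exact hper _

end Run7.h761
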