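import Pool.Agent.Run7.h761.Sep

/-! Configurations of polygons on the hexagonal lattice and the perimeter of the cluster. -/

set_option autoImplicit false

namespace Run7.h761

open MeasureTheory Set

/-- directions of the six neighbours -/
def dir : Fin 6 → V := ![(1, 0), (0, 1), (-1, 1), (-1, 0), (0, -1), (1, -1)]

theorem dir_add_three (k : Fin 6) : dir (k + 3) = - dir k := by
  revert k; decide

/-- the edges with label `k` -/
def slot (P : Poly) (k : Fin 6) : List (V × V) :=
  ((edges P).filter fun e => e.lab = some k).map fun e => (e.s, e.t)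

/-- the slot `k` of `P` is the slot `k + 3` of `P'`, reversed -/
def Matched (P : Poly) (k : Fin 6) (P' : Poly) : Prop :=
  slot P' (k + 3) = ((slot P k).map Prod.swap).reverse

/-- flux through a slot -/
noncomputable def slotFlux (φ : Plane → Plane) (P : Poly) (k : Fin 6) : ℝ :=
  ((slot P k).map fun e => flux φ (emb e.1) (emb e.2)).sum

/-- flux through the outer edges -/
noncomputable def outFlux (φ : Plane → Plane) (P : Poly) : ℝ :=
  (((edges P).filter fun e => e.lab = none).map fun e => flux φ (emb e.s) (emb e.t)).sum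

theorem sum_by_label (f : Edge → ℝ) (es : List Edge) :
    (es.map f).sum = ∑ k : Fin 6, ((es.filter fun e => e.lab = some k).map f).sum +
      ((es.filter fun e => e.lab = none).map f).sum := by
  induction es with
  | nil => simp
  | cons e es ih =>
    rw [List.map_cons, List.sum_cons, ih]
    rcases h : e.lab with _ | k
    · simp [h]
      ring
    · have h1 : ∀ j : Fin 6, (((e :: es).filter fun e => e.lab = some j).map f).sum =
          (if j = k then f e else 0) + ((es.filter fun e => e.lab = some j).map f).sum := by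
        intro j
        by_cases hj : j = k
        · subst hj; simp [h]
        · have hj' : ¬ k = j := fun h => hj h.symm
          simp [h, hj, hj']
      simp_rw [h1]
      rw [Finset.sum_add_distrib]
      simp [h]
      ring

theorem bflux_eq (φ : Plane → Plane) (P : Poly) :
    bflux φ P = ∑ k : Fin 6, slotFlux φ P k + outFlux φ P := by
  unfold bflux slotFlux outFlux slot
  rw [sum_by_label]
  simp only [List.map_map]
  rfl

theorem slotFlux_matched (φ : Plane → Plane) {P P' : Poly} {k : Fin 6} (h : Matched P k P') :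
    slotFlux φ P' (k + 3) = - slotFlux φ P k := by
  unfold slotFlux
  rw [h, List.map_reverse, List.sum_reverse, List.map_map]
  generalize slot P k = l
  induction l with
  | nil => simp
  | cons e l ih =>
    rw [List.map_cons, List.sum_cons, ih, List.map_cons, List.sum_cons]
    simp only [Function.comp_apply, Prod.fst_swap, Prod.snd_swap]
    rw [flux_swap φ (emb e.1) (emb e.2)]
    ring

/-- the length bounds are correct -/
def LenOK (P : Poly) : Prop := ∀ e ∈ edges P, 0 ≤ e.r ∧ qf (e.t - e.s) * SS ^ 2 ≤ e.r ^ 2 * DD ^ 2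

/-- upper bound for the perimeter, scaled -/
def perR (P : Poly) : ℤ := ((edges P).map fun e => e.r).sum

/-- upper bound for the outer length, scaled -/
def outR (P : Poly) : ℤ := (((edges P).filter fun e => e.lab = none).map fun e => e.r).sum

theorem SS_pos : (0 : ℝ) < (SS : ℝ) := by norm_num [SS]

theorem abs_sum_flux_le {φ : Plane → Plane} (hφ : Adm φ) : ∀ (es : List Edge),
    (∀ e ∈ es, 0 ≤ e.r ∧ qf (e.t - e.s) * SS ^ 2 ≤ e.r ^ 2 * DD ^ 2) →
    |(es.map fun e => flux φ (emb e.s) (emb e.t)).sum| ≤ ((es.map fun e => e.r).sum : ℤ) / (SS : ℝ)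
  | [], _ => by simp
  | e :: es, h => by
    have ih := abs_sum_flux_le hφ es fun f hf => h f (List.mem_cons_of_mem _ hf)
    obtain ⟨h1, h2⟩ := h e (by simp)
    rw [List.map_cons, List.sum_cons, List.map_cons, List.sum_cons]
    have h3 := (abs_flux_le hφ.2.2 (emb e.s) (emb e.t)).trans (norm_emb_sub_le h1 h2)
    have h4 := abs_add_le (flux φ (emb e.s) (emb e.t))
      (es.map fun e => flux φ (emb e.s) (emb e.t)).sum
    push_cast
    rw [add_div]
    push_cast at ih
    linarith

theorem sum_r_nonneg : ∀ (es : List Edge), (∀ e ∈ es, 0 ≤ e.r) → 0 ≤ (es.map fun e => e.r).sum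
  | [], _ => by simp
  | e :: es, h => by
    rw [List.map_cons, List.sum_cons]
    have := sum_r_nonneg es fun f hf => h f (List.mem_cons_of_mem _ hf)
    have := h e (by simp)
    omega

theorem sum_filter_le (q : Edge → Bool) : ∀ (es : List Edge), (∀ e ∈ es, 0 ≤ e.r) →
    ((es.filter q).map fun e => e.r).sum ≤ (es.map fun e => e.r).sum
  | [], _ => by simp
  | e :: es, h => by
    have ih := sum_filter_le q es fun f hf => h f (List.mem_cons_of_mem _ hf)
    have h0 := h e (by simp)
    rw [List.map_cons, List.sum_cons]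
    by_cases hq : q e
    · rw [List.filter_cons_of_pos hq, List.map_cons, List.sum_cons]; omega
    · rw [List.filter_cons_of_neg hq]; omega

theorem perR_nonneg {P : Poly} (h : LenOK P) : 0 ≤ perR P :=
  sum_r_nonneg _ fun e he => (h e he).1

theorem outR_nonneg {P : Poly} (h : LenOK P) : 0 ≤ outR P :=
  sum_r_nonneg _ fun e he => (h e (List.mem_filter.1 he).1).1

theorem bflux_le {φ : Plane → Plane} (hφ : Adm φ) {P : Poly} (h : LenOK P) :
    bflux φ P ≤ (perR P : ℝ) / (SS : ℝ) :=
  (le_abs_self _).trans (abs_sum_flux_le hφ _ h)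

theorem abs_outFlux_le {φ : Plane → Plane} (hφ : Adm φ) {P : Poly} (h : LenOK P) :
    |outFlux φ P| ≤ (outR P : ℝ) / (SS : ℝ) :=
  abs_sum_flux_le hφ _ fun e he => h e (List.mem_filter.1 he).1

theorem abs_slotFlux_le {φ : Plane → Plane} (hφ : Adm φ) {P : Poly} (h : LenOK P) (k : Fin 6) :
    |slotFlux φ P k| ≤ (perR P : ℝ) / (SS : ℝ) := by
  have h1 := abs_sum_flux_le hφ ((edges P).filter fun e => e.lab = some k)
    fun e he => h e (List.mem_filter.1 he).1
  have h2 : slotFlux φ P k = (((edges P).filter fun e => e.lab = some k).map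
      fun e => flux φ (emb e.s) (emb e.t)).sum := by
    unfold slotFlux slot
    rw [List.map_map]
    rfl
  rw [h2]
  refine h1.trans ?_
  have h3 := sum_filter_le (fun e => decide (e.lab = some k)) (edges P) fun e he => (h e he).1
  have h4 : (((((edges P).filter fun e => decide (e.lab = some k)).map fun e => e.r).sum : ℤ) : ℝ)
      ≤ (perR P : ℝ) := by exact_mod_cast h3
  exact div_le_div_of_nonneg_right h4 SS_pos.le

/-- a valid polygon -/
structure Valid (P : Poly) : Prop where
  fan : FanOK P
  area : area2 P = 2 * DD ^ 2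
  len : LenOK P

theorem neighbour_or_far {p p' : V} (h : p ≠ p') :
    (∃ k, p' = p + dir k) ∨ (3 ≤ |2 * (p.1 - p'.1) + (p.2 - p'.2)| ∨
      3 ≤ |(p.1 - p'.1) + 2 * (p.2 - p'.2)| ∨ 3 ≤ |(p.1 - p'.1) - (p.2 - p'.2)|) := by
  by_contra hcon
  push Not at hcon
  obtain ⟨h1, h2, h3, h4⟩ := hcon
  rw [abs_lt] at h2 h3 h4
  have a1 : p'.1 - p.1 = -1 ∨ p'.1 - p.1 = 0 ∨ p'.1 - p.1 = 1 := by omega
  have a2 : p'.2 - p.2 = -1 ∨ p'.2 - p.2 = 0 ∨ p'.2 - p.2 = 1 := by omega
  have hp : p' = (p.1 + (p'.1 - p.1), p.2 + (p'.2 - p.2)) := by ext <;> simp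
  rcases a1 with a1 | a1 | a1 <;> rcases a2 with a2 | a2 | a2
  · omega
  · exact h1 3 (by rw [hp, a1, a2]; rfl)
  · exact h1 2 (by rw [hp, a1, a2]; rfl)
  · exact h1 4 (by rw [hp, a1, a2]; rfl)
  · apply h
    rw [hp, a1, a2]; simp
  · exact h1 1 (by rw [hp, a1, a2]; rfl)
  · exact h1 5 (by rw [hp, a1, a2]; rfl)
  · exact h1 0 (by rw [hp, a1, a2]; rfl)
  · omega

/-- **The perimeter of a configuration.** -/
theorem config_bound (occ : Finset V) (P : V → Poly) (hv : ∀ p ∈ occ, Valid (P p))
    (hw : ∀ p ∈ occ, InWin p (P p))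
    (hs : ∀ p ∈ occ, ∀ k, p + dir k ∈ occ → sepP (P p) (P (p + dir k)) = true)
    (hm : ∀ p ∈ occ, ∀ k, p + dir k ∈ occ → Matched (P p) k (P (p + dir k))) :
    leastPerimeter occ.card ≤ ENNReal.ofReal ((∑ p ∈ occ, ((perR (P p) : ℝ) + outR (P p)) +
      ∑ x ∈ (occ ×ˢ (Finset.univ : Finset (Fin 6))).filter
        (fun x => x.1 + dir x.2 ∉ occ ∧ slot (P x.1) x.2 ≠ []), (perR (P x.1) : ℝ)) / (2 * SS)) := by
  classical
  set e : occ ≃ Fin occ.card := occ.equivFin with he
  have hsum : ∀ f : V → ℝ, ∑ i : Fin occ.card, f (e.symm i) = ∑ p ∈ occ, f p := by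
    intro f
    rw [← Finset.sum_coe_sort occ f]
    exact Equiv.sum_comp e.symm (fun x : occ => f x)
  set U := (occ ×ˢ (Finset.univ : Finset (Fin 6))).filter
        (fun x => x.1 + dir x.2 ∉ occ ∧ slot (P x.1) x.2 ≠ []) with hU
  have hS := SS_pos
  have hdisj : ∀ p ∈ occ, ∀ p' ∈ occ, p ≠ p' → Disjoint (cell (P p)) (cell (P p')) := by
    intro p hp p' hp' hne
    rcases neighbour_or_far hne with ⟨k, rfl⟩ | hfar
    · exact sepP_disjoint (hv p hp).fan (hv _ hp').fan (hs p hp k hp')
    · exact far_disjoint (hw p hp) (hw p' hp') hfar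
  have hmain := leastPerimeter_le (N := occ.card) (fun i => cell (P (e.symm i)))
    (fun i => isOpen_cell (hv _ (e.symm i).2).fan)
    (fun i j hij => hdisj _ (e.symm i).2 _ (e.symm j).2 (by
      intro h
      exact hij (e.symm.injective (Subtype.ext h))))
    (fun i => volume_cell (hv _ (e.symm i).2).fan (hv _ (e.symm i).2).area)
    (fun φ i => bflux φ (P (e.symm i)))
    (fun φ hφ i => green_cell hφ (hv _ (e.symm i).2).fan)
    (fun i => (perR (P (e.symm i)) : ℝ) / (SS : ℝ))
    (fun i => div_nonneg (by exact_mod_cast perR_nonneg (hv _ (e.symm i).2).len) hS.le)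
    (fun φ hφ i => bflux_le hφ (hv _ (e.symm i).2).len)
    ((∑ p ∈ occ, (outR (P p) : ℝ) + ∑ x ∈ U, (perR (P x.1) : ℝ)) / (SS : ℝ))
    (by
      apply div_nonneg _ hS.le
      apply add_nonneg
      · exact Finset.sum_nonneg fun p hp => by exact_mod_cast outR_nonneg (hv p hp).len
      · refine Finset.sum_nonneg fun x hx => ?_
        have hx' := (Finset.mem_product.1 (Finset.mem_filter.1 hx).1).1
        exact_mod_cast perR_nonneg (hv x.1 hx').len)
    (by
      intro φ hφ
      rw [hsum fun p => bflux φ (P p)]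
      have h1 : ∑ p ∈ occ, bflux φ (P p) =
          ∑ x ∈ occ ×ˢ (Finset.univ : Finset (Fin 6)), slotFlux φ (P x.1) x.2 +
          ∑ p ∈ occ, outFlux φ (P p) := by
        rw [Finset.sum_product, ← Finset.sum_add_distrib]
        exact Finset.sum_congr rfl fun p _ => bflux_eq φ (P p)
      have h2 : ∑ x ∈ occ ×ˢ (Finset.univ : Finset (Fin 6)), slotFlux φ (P x.1) x.2 =
          ∑ x ∈ (occ ×ˢ (Finset.univ : Finset (Fin 6))).filter (fun x => x.1 + dir x.2 ∈ occ),
            slotFlux φ (P x.1) x.2 +
          ∑ x ∈ (occ ×ˢ (Finset.univ : Finset (Fin 6))).filter (fun x => ¬ x.1 + dir x.2 ∈ occ),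
            slotFlux φ (P x.1) x.2 := (Finset.sum_filter_add_sum_filter_not _ _ _).symm
      have h3 : ∑ x ∈ (occ ×ˢ (Finset.univ : Finset (Fin 6))).filter
          (fun x => x.1 + dir x.2 ∈ occ), slotFlux φ (P x.1) x.2 = 0 := by
        apply Finset.sum_involution (fun x _ => (x.1 + dir x.2, x.2 + 3))
        · intro x hx
          obtain ⟨hx1, hx2⟩ := Finset.mem_filter.1 hx
          have hx3 := (Finset.mem_product.1 hx1).1
          simp only
          rw [slotFlux_matched φ (hm x.1 hx3 x.2 hx2)]
          ring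
        · intro x hx _ heq
          have := congrArg Prod.snd heq
          simp only at this
          revert this
          generalize x.2 = k
          revert k
          decide
        · intro x hx
          obtain ⟨hx1, hx2⟩ := Finset.mem_filter.1 hx
          have hx3 := (Finset.mem_product.1 hx1).1
          refine Finset.mem_filter.2 ⟨Finset.mem_product.2 ⟨hx2, Finset.mem_univ _⟩, ?_⟩
          simp only [dir_add_three, add_neg_cancel_right]
          exact hx3
        · intro x hx
          simp only [dir_add_three, add_neg_cancel_right]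
          ext1
          · rfl
          · simp only
            generalize x.2 = k
            revert k
            decide
      have h4 : ∑ x ∈ (occ ×ˢ (Finset.univ : Finset (Fin 6))).filter
          (fun x => ¬ x.1 + dir x.2 ∈ occ), slotFlux φ (P x.1) x.2 =
          ∑ x ∈ U, slotFlux φ (P x.1) x.2 := by
        symm
        apply Finset.sum_subset_zero_on_sdiff
        · intro x hx
          obtain ⟨hx1, hx2, hx3⟩ := Finset.mem_filter.1 hx
          exact Finset.mem_filter.2 ⟨hx1, hx2⟩
        · intro x hx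
          obtain ⟨hx1, hx2⟩ := Finset.mem_sdiff.1 hx
          obtain ⟨hx3, hx4⟩ := Finset.mem_filter.1 hx1
          have : slot (P x.1) x.2 = [] := by
            by_contra hne
            exact hx2 (Finset.mem_filter.2 ⟨hx3, hx4, hne⟩)
          unfold slotFlux
          rw [this]
          rfl
        · intro x _; rfl
      have h5 : |∑ x ∈ U, slotFlux φ (P x.1) x.2| ≤ (∑ x ∈ U, (perR (P x.1) : ℝ)) / (SS : ℝ) := by
        rw [Finset.sum_div]
        refine (Finset.abs_sum_le_sum_abs _ _).trans (Finset.sum_le_sum fun x hx => ?_)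
        have hx' := (Finset.mem_product.1 (Finset.mem_filter.1 hx).1).1
        exact abs_slotFlux_le hφ (hv x.1 hx').len x.2
      have h6 : |∑ p ∈ occ, outFlux φ (P p)| ≤ (∑ p ∈ occ, (outR (P p) : ℝ)) / (SS : ℝ) := by
        rw [Finset.sum_div]
        refine (Finset.abs_sum_le_sum_abs _ _).trans (Finset.sum_le_sum fun p hp => ?_)
        exact abs_outFlux_le hφ (hv p hp).len
      rw [h1, h2, h3, h4, add_div]
      have h7 := neg_abs_le (∑ x ∈ U, slotFlux φ (P x.1) x.2)
      have h8 := neg_abs_le (∑ p ∈ occ, outFlux φ (P p))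
      linarith)
  refine hmain.trans (le_of_eq ?_)
  congr 1
  rw [hsum fun p => (perR (P p) : ℝ) / (SS : ℝ), ← Finset.sum_div, Finset.sum_add_distrib]
  field_simp
  ring

end Run7.h761
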