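import Pool.Agent.Run7.h761.Family

/-! Counting cells of each kind. -/

set_option autoImplicit false

namespace Run7.h761

open scoped Classical

/-- next facet -/
def nxt (f : Facet) : Facet :=
  (![3, 2, 0, 1] f.1, ![f.2 + 1, f.2, f.2, f.2] f.1)

/-- previous facet -/
def prv (f : Facet) : Facet :=
  (![2, 3, 1, 0] f.1, ![f.2, f.2, f.2, f.2 - 1] f.1)

/-- lengths of the facets -/
def len : Fin 4 → ℤ := ![20, 2, 1, 1]

/-- relation coefficients -/
def lam : Fin 4 → ℤ := ![5, 3, 1, 1]

theorem cov_rel (f : Facet) : (covf (nxt f)).1 + (covf (prv f)).1 = lam f.1 * (covf f).1 ∧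
    (covf (nxt f)).2 + (covf (prv f)).2 = lam f.1 * (covf f).2 := by
  revert f; decide

theorem mu_rel (f : Facet) : mu (nxt f).1 + mu (prv f).1 = lam f.1 * mu f.1 + len f.1 := by
  revert f; decide

theorem dep_rel (k : ℤ) (f : Facet) (p : V) :
    dep k (nxt f) p + dep k (prv f) p = len f.1 * k + lam f.1 * dep k f p := by
  have h1 := cov_rel f
  have h2 := mu_rel f
  unfold dep hf
  linear_combination k * h2 - p.1 * h1.1 - p.2 * h1.2

/-- determinant -/
def det2 (m n : V) : ℤ := m.1 * n.2 - m.2 * n.1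

theorem det_nxt (f : Facet) : det2 (covf f) (covf (nxt f)) ≠ 0 := by
  revert f; decide

theorem det_opp (f g : Facet) (h : g ≠ f) (h0 : det2 (covf f) (covf g) = 0) :
    mu g.1 = mu f.1 ∧ (covf g).1 = -(covf f).1 ∧ (covf g).2 = -(covf f).2 := by
  revert f g; decide +kernel

theorem mu_ge (c : Fin 4) : 30 ≤ mu c := by revert c; decide

theorem dep_inj {k : ℤ} {f g : Facet} (h : det2 (covf f) (covf g) ≠ 0) {p q : V}
    (h1 : dep k f p = dep k f q) (h2 : dep k g p = dep k g q) : p = q := by
  unfold dep hf at h1 h2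
  unfold det2 at h
  have e1 : ((covf f).1 * (covf g).2 - (covf f).2 * (covf g).1) * (p.1 - q.1) = 0 := by
    linear_combination -(covf g).2 * h1 + (covf f).2 * h2
  have e2 : ((covf f).1 * (covf g).2 - (covf f).2 * (covf g).1) * (p.2 - q.2) = 0 := by
    linear_combination (covf g).1 * h1 - (covf f).1 * h2
  rcases mul_eq_zero.1 e1 with h3 | h3
  · exact absurd h3 h
  rcases mul_eq_zero.1 e2 with h4 | h4
  · exact absurd h4 h
  ext
  · omega
  · omega

theorem line_card (k : ℤ) (f : Facet) (H : ℤ) :
    ((occK k).filter fun p => dep k f p = H).card ≤ (len f.1 * k + lam f.1 * H + 1).toNat := by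
  have h : ((occK k).filter fun p => dep k f p = H).card ≤
      (Finset.Icc 0 (len f.1 * k + lam f.1 * H)).card := by
    apply Finset.card_le_card_of_injOn (fun p => dep k (nxt f) p)
    · intro p hp
      obtain ⟨h1, h2⟩ := Finset.mem_filter.1 hp
      have h3 := (mem_occK.1 h1).1
      have h4 := dep_rel k f p
      rw [h2] at h4
      have h5 := h3 (nxt f)
      have h6 := h3 (prv f)
      simp only [Finset.coe_Icc, Set.mem_Icc]
      omega
    · intro p hp q hq hpq
      have h1 := (Finset.mem_filter.1 hp).2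
      have h2 := (Finset.mem_filter.1 hq).2
      exact dep_inj (det_nxt f) (h1.trans h2.symm) hpq
  rw [Int.card_Icc, sub_zero] at h
  exact h

/-- cells near a corner -/
def Corner (k : ℤ) (p : V) : Prop :=
  ∃ f g : Facet, g ≠ f ∧ dep k f p < 11 ∧ dep k g p < 15

theorem corner_card {k : ℤ} (hk : 1 ≤ k) : ((occK k).filter (Corner k)).card ≤ 95040 := by
  have hsub : (occK k).filter (Corner k) ⊆
      ((Finset.univ : Finset (Facet × Facet)).biUnion fun x =>
        (occK k).filter fun p => x.2 ≠ x.1 ∧ dep k x.1 p < 11 ∧ dep k x.2 p < 15) := by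
    intro p hp
    obtain ⟨h1, f, g, h2⟩ := Finset.mem_filter.1 hp
    exact Finset.mem_biUnion.2 ⟨(f, g), Finset.mem_univ _, Finset.mem_filter.2 ⟨h1, h2⟩⟩
  refine (Finset.card_le_card hsub).trans ?_
  have h := Finset.card_biUnion_le_card_mul (Finset.univ : Finset (Facet × Facet)) (fun x =>
        (occK k).filter fun p => x.2 ≠ x.1 ∧ dep k x.1 p < 11 ∧ dep k x.2 p < 15) 165 (by
    rintro ⟨f, g⟩ _
    simp only
    by_cases hg : g = f
    · subst hg
      simp
    by_cases hdet : det2 (covf f) (covf g) = 0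
    · have : ((occK k).filter fun p => g ≠ f ∧ dep k f p < 11 ∧ dep k g p < 15) = ∅ := by
        apply Finset.filter_eq_empty_iff.2
        rintro p hp ⟨_, h1, h2⟩
        obtain ⟨e1, e2, e3⟩ := det_opp f g hg hdet
        have h3 : dep k g p + dep k f p = 2 * mu f.1 * k := by
          unfold dep hf
          rw [e1, e2, e3]
          ring
        have h4 := mu_ge f.1
        nlinarith
      rw [this]
      simp
    · have h1 : ((occK k).filter fun p => g ≠ f ∧ dep k f p < 11 ∧ dep k g p < 15).card ≤
          (Finset.Ico (0 : ℤ) 11 ×ˢ Finset.Ico (0 : ℤ) 15).card := by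
        apply Finset.card_le_card_of_injOn (fun p => (dep k f p, dep k g p))
        · intro p hp
          obtain ⟨h1, _, h2, h3⟩ := Finset.mem_filter.1 hp
          have h4 := (mem_occK.1 h1).1 f
          have h5 := (mem_occK.1 h1).1 g
          simp only [Finset.coe_product, Finset.coe_Ico, Set.mem_prod, Set.mem_Ico]
          exact ⟨⟨h4, h2⟩, ⟨h5, h3⟩⟩
        · intro p _ q _ hpq
          simp only [Prod.mk.injEq] at hpq
          exact dep_inj hdet hpq.1 hpq.2
      simpa using h1)
  refine h.trans ?_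
  simp [Facet]

/-- weight of a polygon: scaled excess -/
def W (P : Poly) : ℤ := perR P + outR P - 6 * SS

theorem W_nonneg (c : Fin 4) (H : ℕ) (h : H < Mx c) : 0 ≤ W (sh c H) := by
  have h0 : (List.finRange 4).all (fun c => (List.range (Mx c)).all
      fun H => decide (0 ≤ W (sh c H))) = true := by decide +kernel
  have h1 := List.all_eq_true.1 h0 c (List.mem_finRange c)
  have h2 := List.all_eq_true.1 h1 H (List.mem_range.2 h)
  exact of_decide_eq_true h2

theorem W_hex : W hexP = 0 := by decide +kernel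

theorem W_trg (g : V → V) (s : Fin 6) (P : Poly) : W (trg g s P) = W P := by
  unfold W; rw [perR_trg, outR_trg]

theorem W_place {k : ℤ} {p : V} (hp : Occ k p) : W (place k p) ≤
    ∑ f : Facet, ∑ H ∈ Finset.range (Mx f.1), if dep k f p = H then W (sh f.1 H) else 0 := by
  have hnn : ∀ f : Facet, ∀ H ∈ Finset.range (Mx f.1),
      0 ≤ (if dep k f p = H then W (sh f.1 H) else 0) := by
    intro f H hH
    split_ifs
    · exact W_nonneg _ _ (Finset.mem_range.1 hH)
    · exact le_rfl
  by_cases h1 : ∃ f : Facet, dep k f p < Mx f.1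
  · obtain ⟨f, hf⟩ := h1
    have h0 := hp.1 f
    obtain ⟨H, hH⟩ := Int.eq_ofNat_of_zero_le h0
    have hHM : H < Mx f.1 := by omega
    have e1 : place k p = trg (mv f.2 p) f.2 (sh f.1 H) := by
      rw [place_layer hp hf, hH]; rfl
    rw [e1, W_trg]
    refine le_trans ?_ (Finset.single_le_sum (f := fun f : Facet => ∑ H ∈ Finset.range (Mx f.1),
      if dep k f p = H then W (sh f.1 H) else 0)
      (fun g _ => Finset.sum_nonneg (hnn g)) (Finset.mem_univ f))
    refine le_trans ?_ (Finset.single_le_sum (f := fun H : ℕ =>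
      if dep k f p = H then W (sh f.1 H) else 0) (hnn f) (Finset.mem_range.2 hHM))
    rw [if_pos (by rw [hH])]
  · push Not at h1
    rw [place_bulk h1, W_trg, W_hex]
    exact Finset.sum_nonneg fun f _ => Finset.sum_nonneg (hnn f)

theorem W_sum {k : ℤ} (hk : 0 ≤ k) : ∑ p ∈ occK k, W (place k p) ≤
    ∑ f : Facet, ∑ H ∈ Finset.range (Mx f.1),
      W (sh f.1 H) * (len f.1 * k + lam f.1 * H + 1) := by
  refine (Finset.sum_le_sum fun p hp => W_place (mem_occK.1 hp)).trans ?_
  rw [Finset.sum_comm]
  refine Finset.sum_le_sum fun f _ => ?_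
  rw [Finset.sum_comm]
  refine Finset.sum_le_sum fun H hH => ?_
  rw [← Finset.sum_filter, Finset.sum_const, nsmul_eq_mul, mul_comm]
  apply mul_le_mul_of_nonneg_left _ (W_nonneg _ _ (Finset.mem_range.1 hH))
  have h1 := line_card k f H
  have h2 : 0 ≤ len f.1 * k + lam f.1 * H + 1 := by
    have a : ∀ c, 0 ≤ len c := by decide
    have b : ∀ c, 0 ≤ lam c := by decide
    have := a f.1
    have := b f.1
    positivity
  have h3 : (((occK k).filter fun p => dep k f p = H).card : ℤ) ≤
      ((len f.1 * k + lam f.1 * H + 1).toNat : ℤ) := by exact_mod_cast h1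
  rw [Int.toNat_of_nonneg h2] at h3
  exact h3

/-- leading coefficient of the excess, scaled by `2 SS` -/
def coefA : ℤ := ((List.finRange 4).map fun c => 6 * len c *
  ((List.range (Mx c)).map fun H => W (sh c H)).sum).sum

/-- constant term -/
def coefB : ℤ := ((List.finRange 4).map fun c => 6 *
  ((List.range (Mx c)).map fun H => W (sh c H) * (lam c * H + 1)).sum).sum

theorem sum_range_list (n : ℕ) (f : ℕ → ℤ) :
    ∑ H ∈ Finset.range n, f H = ((List.range n).map f).sum := by
  rfl

theorem W_sum_eq (k : ℤ) : ∑ f : Facet, ∑ H ∈ Finset.range (Mx f.1),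
      W (sh f.1 H) * (len f.1 * k + lam f.1 * H + 1) = coefA * k + coefB := by
  have h1 : ∀ c : Fin 4, ∑ H ∈ Finset.range (Mx c), W (sh c H) * (len c * k + lam c * H + 1) =
      (∑ H ∈ Finset.range (Mx c), W (sh c H)) * (len c * k) +
      ∑ H ∈ Finset.range (Mx c), W (sh c H) * (lam c * H + 1) := by
    intro c
    rw [Finset.sum_mul, ← Finset.sum_add_distrib]
    exact Finset.sum_congr rfl fun H _ => by ring
  have hA : coefA = ∑ c : Fin 4, 6 * len c * ∑ H ∈ Finset.range (Mx c), W (sh c H) := by
    simp only [sum_range_list]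
    rfl
  have hB : coefB = ∑ c : Fin 4, 6 * ∑ H ∈ Finset.range (Mx c), W (sh c H) * (lam c * H + 1) := by
    simp only [sum_range_list]
    rfl
  rw [Fintype.sum_prod_type, hA, hB, Finset.sum_mul, ← Finset.sum_add_distrib]
  refine Finset.sum_congr rfl fun c _ => ?_
  simp only [h1, Finset.sum_const, Finset.card_univ, Fintype.card_fin]
  simp only [nsmul_eq_mul, Nat.cast_ofNat]
  ring

theorem coefA_le : coefA ≤ 3199000000 := by decide +kernel

theorem coefB_le : coefB ≤ 3000000000 := by decide +kernel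

end Run7.h761
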