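import Mathlib

/-! A checker for coverings of boxes by concave lower bounds. -/

set_option autoImplicit false

namespace Run7.h761

/-- parameters of a leaf, in thousandths -/
structure Lf where
  ty : ℕ
  s : ℤ
  t : ℤ
  w : ℤ
  t3 : ℤ
  k : ℤ
  e : ℤ
  c0 : ℤ
  e0 : ℤ
  cm : ℤ

/-- covering trees -/
inductive Tr where
  | V : Tr
  | L : Lf → Tr
  | N : ℕ → ℤ → Tr → Tr → Tr

/-- boxes, in thousandths -/
structure Bx where
  c1 : ℤ
  c2 : ℤ
  u1 : ℤ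
  u2 : ℤ
  e1 : ℤ
  e2 : ℤ
  X1 : ℤ
  X2 : ℤ
  D1 : ℤ
  D2 : ℤ

/-- the problem: `j` exterior sides, `p + 1` interior sides, constants `K`, `T` in thousandths -/
structure Pm where
  j : ℕ
  p : ℕ
  m : ℤ
  K : ℤ
  T : ℤ

/-- numerator of the polynomial part -/
def rn (pm : Pm) (f : Lf) (c u e X D : ℤ) : ℤ :=
  240 * 10 ^ 27 * ((if f.ty = 3 then -790 * X else if f.ty = 0 then 1000 * X else 2000 * X) +
    (2 * (pm.m * c + e)) * 1000 - (if f.ty = 0 ∨ f.ty = 3 then 1 else 2) *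
      (pm.K * (pm.m * c + e) + 1000 * pm.T)) +
  24 * 10 ^ 24 * (f.k * min (17320 * D) (17321 * D)) -
  20 * 10 ^ 18 * f.k ^ 2 * (pm.m * c ^ 3 + e ^ 3) - 30 * 10 ^ 21 * f.k ^ 2 * (c * u) -
  6 * 10 ^ 3 * f.e * f.k ^ 4 * (pm.m * c ^ 5 + e ^ 5) -
  30000 * 10 ^ 3 * f.e * f.k ^ 4 * (c ^ 3 * u) - 3750000 * 10 ^ 3 * f.e * f.k ^ 4 * (c * u ^ 2)

/-- quadratic or its linearisation -/
def qd (t c0 c : ℤ) : ℤ := if 0 ≤ t then t * c ^ 2 else t * (2 * c0 * c - c0 ^ 2)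

/-- numerator of the radicand, over `10 ^ 9` for leaves of type 0, over `10 ^ 6` otherwise -/
def qm (pm : Pm) (f : Lf) (c u e X D : ℤ) : ℤ :=
  if f.ty = 0 then 3464100 * (3000 - X - D) - (pm.m * qd f.t f.c0 c - 1000 * f.w * u + qd f.t3 f.e0 e)
  else if f.ty = 1 then 130584000 else if f.ty = 2 then 43528 * (3000 - 2 * X) else 0

/-- condition at a corner -/
def cor (pm : Pm) (f : Lf) (c u e X D : ℤ) : Bool :=
  (decide (f.ty ≠ 0) || decide (0 ≤ 3000 - X - D)) && decide (0 ≤ qm pm f c u e X D) &&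
  (decide (0 ≤ rn pm f c u e X D) ||
    (if f.ty = 0 then
      decide (rn pm f c u e X D ^ 2 * f.s * 10 ^ 6 ≤ (pm.p + 1) * qm pm f c u e X D * (240 * 10 ^ 33) ^ 2)
    else decide (rn pm f c u e X D ^ 2 * 10 ^ 6 ≤ qm pm f c u e X D * (240 * 10 ^ 33) ^ 2)))

/-- merged angles as fractions -/
def aqZ (s : ℤ) : ℕ → ℤ × ℤ
  | 0 => (s, 1000)
  | k + 1 => ((aqZ s k).1 * s - 1000 * (aqZ s k).2, 1000 * (aqZ s k).1 + (aqZ s k).2 * s)

/-- all denominators positive -/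
def okD (s : ℤ) : ℕ → Bool
  | 0 => true
  | k + 1 => okD s k && decide (0 < (aqZ s (k + 1)).2)

/-- validity of the parameters of the polygon inequality -/
def okP (pm : Pm) (f : Lf) : Bool :=
  decide (0 < f.s) && okD f.s pm.p &&
  (if pm.j = 1 then decide (0 ≤ 1000 * (aqZ f.s pm.p).1 + (aqZ f.s pm.p).2 * f.t) &&
      decide (f.w = 0) && decide (f.t3 = 0) && decide (f.e0 = 0)
    else if pm.j = 2 then decide (0 < f.t) &&
      decide (0 ≤ 2000 * f.t * (aqZ f.s pm.p).1 + (aqZ f.s pm.p).2 * (f.t ^ 2 - 10 ^ 6)) &&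
      decide (0 ≤ f.w) && decide (f.w * f.t ≤ 500000) && decide (f.t3 = 0) && decide (f.e0 = 0)
    else decide (0 < f.t) && decide (0 < f.t ^ 2 - 10 ^ 6 + 2 * f.t * f.t3) &&
      decide (0 ≤ (aqZ f.s pm.p).1 * (1000 * (f.t ^ 2 - 10 ^ 6 + 2 * f.t * f.t3)) +
        (aqZ f.s pm.p).2 * ((f.t ^ 2 - 10 ^ 6) * f.t3 - 2 * 10 ^ 6 * f.t)) &&
      decide (0 ≤ f.w) && decide (f.w * f.t ≤ 500000))

/-- validity of the calibration -/
def okC (f : Lf) (b : Bx) : Bool :=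
  decide (0 ≤ f.k) && decide (f.k ≤ 1000) && decide (0 ≤ f.e) && decide (b.e2 ≤ f.cm) &&
  (decide (3040 ≤ f.cm) || (decide (b.c2 ≤ f.cm) && decide (1000 * b.u2 ≤ 4 * (f.cm - b.c2) ^ 2))) &&
  decide (f.k * f.cm ≤ 2 * 10 ^ 6) && decide (0 ≤ f.cm) &&
  decide (4 * 10 ^ 15 * f.e * (f.k ^ 2 * f.cm ^ 2) + f.e ^ 2 * (f.k ^ 2 * f.cm ^ 2) ^ 2 ≤
    16 * 10 ^ 27 * (2 * f.e - 250))

/-- all corners -/
def cors (pm : Pm) (f : Lf) (b : Bx) : Bool :=
  let us := if b.u1 = b.u2 then [b.u1] else [b.u1, b.u2]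
  let es := if b.e1 = b.e2 then [b.e1] else [b.e1, b.e2]
  [b.c1, b.c2].all fun c => us.all fun u => es.all fun e => [b.X1, b.X2].all fun X =>
    [b.D1, b.D2].all fun D => cor pm f c u e X D

/-- the checker -/
def chk (pm : Pm) : Tr → Bx → Bool
  | .V, b => decide (0 ≤ b.c2 ∧ 4 * b.c2 ^ 2 < 1000 * b.u1) ||
      decide (b.c1 ≤ 3040 ∧ 4 * (3040 - b.c1) ^ 2 < 1000 * b.u1)
  | .L f, b => decide (0 ≤ b.c1) && decide (0 ≤ b.u1) && decide (0 ≤ b.e1) && decide (0 ≤ pm.m) &&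
      (decide (f.ty ≠ 0) || okP pm f) && okC f b && cors pm f b
  | .N i m l r, b =>
      if i = 0 then chk pm l { b with c2 := m } && chk pm r { b with c1 := m }
      else if i = 1 then chk pm l { b with u2 := m } && chk pm r { b with u1 := m }
      else if i = 2 then chk pm l { b with e2 := m } && chk pm r { b with e1 := m }
      else if i = 3 then chk pm l { b with X2 := m } && chk pm r { b with X1 := m }
      else chk pm l { b with D2 := m } && chk pm r { b with D1 := m }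

end Run7.h761
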