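import Pool.Agent.Run7.h761.Cov

/-! Real versions of the functions of the checker. -/

set_option autoImplicit false

namespace Run7.h761

/-- real version of `qd` -/
noncomputable def qdR (t c0 : ℤ) (c : ℝ) : ℝ :=
  if 0 ≤ t then (t : ℝ) / 1000 * c ^ 2 else (t : ℝ) / 1000 * (2 * (c0 / 1000) * c - (c0 / 1000 : ℝ) ^ 2)

/-- real version of the polynomial part -/
noncomputable def rR (pm : Pm) (f : Lf) (c u e X D : ℝ) : ℝ :=
  (if f.ty = 3 then -0.79 * X else if f.ty = 0 then X else 2 * X) + 2 * (pm.m * c + e) -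
    (if f.ty = 0 ∨ f.ty = 3 then 1 else 2) * (pm.K / 1000 * (pm.m * c + e) + pm.T / 1000) +
    (f.k : ℝ) / 1000 * min (1.732 * D) (1.7321 * D) -
    2 * ((f.k : ℝ) / 1000) ^ 2 / 24 * (pm.m * c ^ 3 + e ^ 3 + 1.5 * (c * u)) -
    2 * ((f.e : ℝ) / 1000) * ((f.k : ℝ) / 1000) ^ 4 / 80 *
      (pm.m * c ^ 5 + e ^ 5 + 5 * (c ^ 3 * u) + 0.625 * (c * u ^ 2))

/-- real version of the radicand -/
noncomputable def qR (pm : Pm) (f : Lf) (c u e X D : ℝ) : ℝ :=
  if f.ty = 0 then (pm.p + 1) / ((f.s : ℝ) / 1000) * (3.4641 * (3 - X - D) -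
    (pm.m * qdR f.t f.c0 c - (f.w : ℝ) / 1000 * u + qdR f.t3 f.e0 e))
  else if f.ty = 1 then 130.584 else if f.ty = 2 then 43.528 * (3 - 2 * X) else 0

theorem qdR_cast (t c0 c : ℤ) : ((qd t c0 c : ℤ) : ℝ) = 10 ^ 9 * qdR t c0 ((c : ℝ) / 1000) := by
  unfold qd qdR
  split_ifs
  · push_cast; ring
  · push_cast; ring

theorem rR_cast (pm : Pm) (f : Lf) (c u e X D : ℤ) : ((rn pm f c u e X D : ℤ) : ℝ) =
    240 * 10 ^ 33 * rR pm f ((c : ℝ) / 1000) ((u : ℝ) / 1000) ((e : ℝ) / 1000) ((X : ℝ) / 1000)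
      ((D : ℝ) / 1000) := by
  have hmin : (min (17320 * (D : ℝ)) (17321 * D)) =
      10 ^ 7 * min (1.732 * ((D : ℝ) / 1000)) (1.7321 * ((D : ℝ) / 1000)) := by
    rw [mul_min_of_nonneg _ _ (by norm_num)]
    congr 1 <;> ring
  unfold rn rR
  push_cast
  rw [hmin]
  by_cases h3 : f.ty = 3
  · simp only [h3]
    norm_num
    ring
  · by_cases h0 : f.ty = 0
    · simp only [h0]
      norm_num
      ring
    · simp only [h3, h0, if_false, or_self]
      push_cast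
      ring

theorem cor_sound {pm : Pm} {f : Lf} {c u e X D : ℤ} (hs : f.ty = 0 → 0 < f.s)
    (h : cor pm f c u e X D = true) :
    (f.ty = 0 → 0 ≤ 3 - (X : ℝ) / 1000 - (D : ℝ) / 1000) ∧
    0 ≤ qR pm f ((c : ℝ) / 1000) ((u : ℝ) / 1000) ((e : ℝ) / 1000) ((X : ℝ) / 1000) ((D : ℝ) / 1000) ∧
    0 ≤ √(qR pm f ((c : ℝ) / 1000) ((u : ℝ) / 1000) ((e : ℝ) / 1000) ((X : ℝ) / 1000)
      ((D : ℝ) / 1000)) +
      rR pm f ((c : ℝ) / 1000) ((u : ℝ) / 1000) ((e : ℝ) / 1000) ((X : ℝ) / 1000) ((D : ℝ) / 1000) := by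
  unfold cor at h
  simp only [Bool.and_eq_true, Bool.or_eq_true, decide_eq_true_eq] at h
  obtain ⟨⟨hy, hq⟩, hr⟩ := h
  have hrc := rR_cast pm f c u e X D
  set q := qR pm f ((c : ℝ) / 1000) ((u : ℝ) / 1000) ((e : ℝ) / 1000) ((X : ℝ) / 1000) ((D : ℝ) / 1000)
    with hqd
  set r := rR pm f ((c : ℝ) / 1000) ((u : ℝ) / 1000) ((e : ℝ) / 1000) ((X : ℝ) / 1000) ((D : ℝ) / 1000)
    with hrd
  -- relation for the radicand
  have hqrel : (f.ty = 0 → q = (pm.p + 1) / ((f.s : ℝ) / 1000) * (((qm pm f c u e X D : ℤ) : ℝ) / 10 ^ 9)) ∧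
      (f.ty ≠ 0 → q = ((qm pm f c u e X D : ℤ) : ℝ) / 10 ^ 6) := by
    constructor
    · intro h0
      rw [hqd]
      unfold qR qm
      rw [if_pos h0, if_pos h0]
      push_cast
      rw [qdR_cast, qdR_cast]
      congr 1
      ring
    · intro h0
      rw [hqd]
      unfold qR qm
      rw [if_neg h0, if_neg h0]
      split_ifs
      · norm_num
      · push_cast; ring
      · norm_num
  have hq0 : (0 : ℝ) ≤ ((qm pm f c u e X D : ℤ) : ℝ) := by exact_mod_cast hq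
  have hN : (0 : ℝ) < 240 * 10 ^ 33 := by norm_num
  have hqn : 0 ≤ q := by
    by_cases h0 : f.ty = 0
    · rw [hqrel.1 h0]
      have : (0 : ℝ) < f.s := by exact_mod_cast hs h0
      positivity
    · rw [hqrel.2 h0]; positivity
  refine ⟨fun h0 => ?_, hqn, ?_⟩
  · rcases hy with h1 | h1
    · exact absurd h0 h1
    · have : (0 : ℝ) ≤ 3000 - X - D := by exact_mod_cast h1
      linarith
  · rcases hr with h1 | h1
    · have h2 : (0 : ℝ) ≤ ((rn pm f c u e X D : ℤ) : ℝ) := by exact_mod_cast h1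
      rw [hrc] at h2
      have h3 : 0 ≤ r := by
        by_contra hc
        push Not at hc
        have := mul_neg_of_pos_of_neg hN hc
        linarith
      have := Real.sqrt_nonneg q
      linarith
    · have hsq : r ^ 2 ≤ q := by
        by_cases h0 : f.ty = 0
        · rw [if_pos h0, decide_eq_true_eq] at h1
          have h2 : (((rn pm f c u e X D : ℤ) : ℝ)) ^ 2 * f.s * 10 ^ 6 ≤
              (pm.p + 1) * ((qm pm f c u e X D : ℤ) : ℝ) * (240 * 10 ^ 33) ^ 2 := by exact_mod_cast h1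
          rw [hrc] at h2
          have hs' : (0 : ℝ) < f.s := by exact_mod_cast hs h0
          rw [hqrel.1 h0]
          have e1 : (pm.p + 1 : ℝ) / ((f.s : ℝ) / 1000) * (((qm pm f c u e X D : ℤ) : ℝ) / 10 ^ 9) =
              ((pm.p + 1) * ((qm pm f c u e X D : ℤ) : ℝ)) / ((f.s : ℝ) * 10 ^ 6) := by
            field_simp
            norm_num
            ring
          rw [e1, le_div_iff₀ (by positivity)]
          have e2 : (240 * 10 ^ 33 * r) ^ 2 * f.s * 10 ^ 6 = (240 * 10 ^ 33) ^ 2 * (r ^ 2 * (f.s * 10 ^ 6)) := by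
            ring
          rw [e2, mul_comm ((pm.p + 1 : ℝ) * _) ((240 * 10 ^ 33) ^ 2)] at h2
          exact le_of_mul_le_mul_left h2 (by positivity)
        · rw [if_neg h0, decide_eq_true_eq] at h1
          have h2 : (((rn pm f c u e X D : ℤ) : ℝ)) ^ 2 * 10 ^ 6 ≤
              ((qm pm f c u e X D : ℤ) : ℝ) * (240 * 10 ^ 33) ^ 2 := by exact_mod_cast h1
          rw [hrc] at h2
          rw [hqrel.2 h0, le_div_iff₀ (by positivity)]
          have e2 : (240 * 10 ^ 33 * r) ^ 2 * 10 ^ 6 = (240 * 10 ^ 33) ^ 2 * (r ^ 2 * 10 ^ 6) := by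
            ring
          rw [e2, mul_comm _ ((240 * 10 ^ 33 : ℝ) ^ 2)] at h2
          exact le_of_mul_le_mul_left h2 (by positivity)
      have h2 : |r| ≤ √q := Real.abs_le_sqrt hsq
      have := neg_abs_le r
      linarith

end Run7.h761
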