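import Pool.Agent.Run7.h761.Cov2

/-! Concavity of the lower bounds. -/

set_option autoImplicit false

namespace Run7.h761

theorem pw (n : ℕ) {x y l : ℝ} (h0 : 0 ≤ l) (h1 : l ≤ 1) (hx : 0 ≤ x) (hy : 0 ≤ y) :
    ((1 - l) * x + l * y) ^ n ≤ (1 - l) * x ^ n + l * y ^ n := by
  have := (convexOn_pow n (𝕜 := ℝ)).2 hx hy (by linarith : 0 ≤ 1 - l) h0 (by ring)
  simpa using this

theorem mid {q1 q2 q r1 r2 r l : ℝ} (h0 : 0 ≤ l) (h1 : l ≤ 1) (hq1 : 0 ≤ q1) (hq2 : 0 ≤ q2)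
    (hr1 : 0 ≤ √q1 + r1) (hr2 : 0 ≤ √q2 + r2) (hq : (1 - l) * q1 + l * q2 ≤ q)
    (hr : (1 - l) * r1 + l * r2 ≤ r) : 0 ≤ q ∧ 0 ≤ √q + r := by
  have h2 : 0 ≤ 1 - l := by linarith
  have hqn : 0 ≤ (1 - l) * q1 + l * q2 := by positivity
  refine ⟨hqn.trans hq, ?_⟩
  have h3 : (1 - l) * √q1 + l * √q2 ≤ √q := by
    apply Real.le_sqrt_of_sq_le
    refine le_trans ?_ hq
    have e1 := Real.sq_sqrt hq1
    have e2 := Real.sq_sqrt hq2
    have := pw 2 h0 h1 (Real.sqrt_nonneg q1) (Real.sqrt_nonneg q2)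
    rw [e1, e2] at this
    exact this
  nlinarith [mul_nonneg h2 hr1, mul_nonneg h0 hr2]

theorem combo {x a b : ℝ} (h1 : a ≤ x) (h2 : x ≤ b) : ∃ l : ℝ, 0 ≤ l ∧ l ≤ 1 ∧ x = (1 - l) * a + l * b := by
  rcases eq_or_lt_of_le (h1.trans h2) with h | h
  · exact ⟨0, le_rfl, zero_le_one, by linarith⟩
  · refine ⟨(x - a) / (b - a), div_nonneg (by linarith) (by linarith), ?_, ?_⟩
    · rw [div_le_one (by linarith)]; linarith
    · have : b - a ≠ 0 := by linarith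
      field_simp
      ring

/-- the predicate which is propagated from the corners -/
def Pq (pm : Pm) (f : Lf) (c u e X D : ℝ) : Prop :=
  (f.ty = 0 → 0 ≤ 3 - X - D) ∧ 0 ≤ qR pm f c u e X D ∧ 0 ≤ √(qR pm f c u e X D) + rR pm f c u e X D

theorem qdR_conc (t c0 : ℤ) {x y l : ℝ} (h0 : 0 ≤ l) (h1 : l ≤ 1) (hx : 0 ≤ x) (hy : 0 ≤ y) :
    qdR t c0 ((1 - l) * x + l * y) ≤ (1 - l) * qdR t c0 x + l * qdR t c0 y := by
  unfold qdR
  split_ifs with h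
  · have h2 := pw 2 h0 h1 hx hy
    have h3 : (0 : ℝ) ≤ (t : ℝ) / 1000 := by
      have : (0 : ℝ) ≤ t := by exact_mod_cast h
      positivity
    have := mul_le_mul_of_nonneg_left h2 h3
    linarith
  · apply le_of_eq; ring

section

variable {pm : Pm} {f : Lf}

theorem step_c (hm : 0 ≤ pm.m) (hk : 0 ≤ f.k) (he : 0 ≤ f.e) (hs : f.ty = 0 → 0 < f.s)
    {c1 c2 c u e X D : ℝ} (hc1 : 0 ≤ c1) (hc2 : c1 ≤ c) (hc3 : c ≤ c2) (hu : 0 ≤ u)
    (h1 : Pq pm f c1 u e X D) (h2 : Pq pm f c2 u e X D) : Pq pm f c u e X D := by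
  obtain ⟨l, l0, l1, rfl⟩ := combo hc2 hc3
  have hc20 : 0 ≤ c2 := by linarith
  have hmR : (0 : ℝ) ≤ pm.m := by exact_mod_cast hm
  have hkR : (0 : ℝ) ≤ f.k := by exact_mod_cast hk
  have heR : (0 : ℝ) ≤ f.e := by exact_mod_cast he
  refine ⟨h1.1, mid l0 l1 h1.2.1 h2.2.1 h1.2.2 h2.2.2 ?_ ?_⟩
  · unfold qR
    split_ifs with h
    · have hq := qdR_conc f.t f.c0 l0 l1 hc1 hc20
      have h3 : (0 : ℝ) ≤ (pm.p + 1) / ((f.s : ℝ) / 1000) := by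
        have : (0 : ℝ) < f.s := by exact_mod_cast hs h
        positivity
      have h4 := mul_le_mul_of_nonneg_left hq (mul_nonneg h3 hmR)
      linarith
    · linarith
    · linarith
    · linarith
  · have p3 := pw 3 l0 l1 hc1 hc20
    have p5 := pw 5 l0 l1 hc1 hc20
    unfold rR
    have a1 : (0 : ℝ) ≤ 2 * ((f.k : ℝ) / 1000) ^ 2 / 24 := by positivity
    have a2 : (0 : ℝ) ≤ 2 * ((f.e : ℝ) / 1000) * ((f.k : ℝ) / 1000) ^ 4 / 80 := by positivity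
    set A1 : ℝ := 2 * ((f.k : ℝ) / 1000) ^ 2 / 24
    set A2 : ℝ := 2 * ((f.e : ℝ) / 1000) * ((f.k : ℝ) / 1000) ^ 4 / 80
    have t1 := mul_le_mul_of_nonneg_left p3 (mul_nonneg a1 hmR)
    have t2 := mul_le_mul_of_nonneg_left p5 (mul_nonneg a2 hmR)
    have t3 := mul_le_mul_of_nonneg_left p3 (mul_nonneg a2 hu)
    split_ifs <;> nlinarith

theorem step_u (hk : 0 ≤ f.k) (he : 0 ≤ f.e)
    {c u1 u2 u e X D : ℝ} (hc : 0 ≤ c) (hu1 : 0 ≤ u1) (hu2 : u1 ≤ u) (hu3 : u ≤ u2)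
    (h1 : Pq pm f c u1 e X D) (h2 : Pq pm f c u2 e X D) : Pq pm f c u e X D := by
  obtain ⟨l, l0, l1, rfl⟩ := combo hu2 hu3
  have hu20 : 0 ≤ u2 := by linarith
  have hkR : (0 : ℝ) ≤ f.k := by exact_mod_cast hk
  have heR : (0 : ℝ) ≤ f.e := by exact_mod_cast he
  refine ⟨h1.1, mid l0 l1 h1.2.1 h2.2.1 h1.2.2 h2.2.2 ?_ ?_⟩
  · unfold qR
    split_ifs with h
    · apply le_of_eq; ring
    · linarith
    · linarith
    · linarith
  · have p2 := pw 2 l0 l1 hu1 hu20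
    unfold rR
    have a2 : (0 : ℝ) ≤ 2 * ((f.e : ℝ) / 1000) * ((f.k : ℝ) / 1000) ^ 4 / 80 := by positivity
    set A1 : ℝ := 2 * ((f.k : ℝ) / 1000) ^ 2 / 24
    set A2 : ℝ := 2 * ((f.e : ℝ) / 1000) * ((f.k : ℝ) / 1000) ^ 4 / 80
    have t1 := mul_le_mul_of_nonneg_left p2 (mul_nonneg a2 hc)
    split_ifs <;> nlinarith

theorem step_e (hk : 0 ≤ f.k) (he : 0 ≤ f.e) (hs : f.ty = 0 → 0 < f.s)
    {c u e1 e2 e X D : ℝ} (he1 : 0 ≤ e1) (he2 : e1 ≤ e) (he3 : e ≤ e2)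
    (h1 : Pq pm f c u e1 X D) (h2 : Pq pm f c u e2 X D) : Pq pm f c u e X D := by
  obtain ⟨l, l0, l1, rfl⟩ := combo he2 he3
  have he20 : 0 ≤ e2 := by linarith
  have hkR : (0 : ℝ) ≤ f.k := by exact_mod_cast hk
  have heR : (0 : ℝ) ≤ f.e := by exact_mod_cast he
  refine ⟨h1.1, mid l0 l1 h1.2.1 h2.2.1 h1.2.2 h2.2.2 ?_ ?_⟩
  · unfold qR
    split_ifs with h
    · have hq := qdR_conc f.t3 f.e0 l0 l1 he1 he20
      have h3 : (0 : ℝ) ≤ (pm.p + 1) / ((f.s : ℝ) / 1000) := by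
        have : (0 : ℝ) < f.s := by exact_mod_cast hs h
        positivity
      have h4 := mul_le_mul_of_nonneg_left hq h3
      linarith
    · linarith
    · linarith
    · linarith
  · have p3 := pw 3 l0 l1 he1 he20
    have p5 := pw 5 l0 l1 he1 he20
    unfold rR
    have a1 : (0 : ℝ) ≤ 2 * ((f.k : ℝ) / 1000) ^ 2 / 24 := by positivity
    have a2 : (0 : ℝ) ≤ 2 * ((f.e : ℝ) / 1000) * ((f.k : ℝ) / 1000) ^ 4 / 80 := by positivity
    set A1 : ℝ := 2 * ((f.k : ℝ) / 1000) ^ 2 / 24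
    set A2 : ℝ := 2 * ((f.e : ℝ) / 1000) * ((f.k : ℝ) / 1000) ^ 4 / 80
    have t1 := mul_le_mul_of_nonneg_left p3 a1
    have t2 := mul_le_mul_of_nonneg_left p5 a2
    split_ifs <;> nlinarith

theorem step_X {c u e X1 X2 X D : ℝ} (hX1 : X1 ≤ X) (hX2 : X ≤ X2)
    (h1 : Pq pm f c u e X1 D) (h2 : Pq pm f c u e X2 D) : Pq pm f c u e X D := by
  obtain ⟨l, l0, l1, rfl⟩ := combo hX1 hX2
  refine ⟨fun h => ?_, mid l0 l1 h1.2.1 h2.2.1 h1.2.2 h2.2.2 ?_ ?_⟩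
  · have g1 := h1.1 h
    have g2 := h2.1 h
    have : 0 ≤ 1 - l := by linarith
    nlinarith [mul_nonneg this g1, mul_nonneg l0 g2]
  · unfold qR
    split_ifs with h
    · apply le_of_eq; ring
    · linarith
    · apply le_of_eq; ring
    · linarith
  · unfold rR
    split_ifs <;> (apply le_of_eq; ring)

theorem step_D (hk : 0 ≤ f.k) {c u e X D1 D2 D : ℝ} (hD1 : D1 ≤ D) (hD2 : D ≤ D2)
    (h1 : Pq pm f c u e X D1) (h2 : Pq pm f c u e X D2) : Pq pm f c u e X D := by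
  obtain ⟨l, l0, l1, rfl⟩ := combo hD1 hD2
  have hkR : (0 : ℝ) ≤ f.k := by exact_mod_cast hk
  have hl : 0 ≤ 1 - l := by linarith
  refine ⟨fun h => ?_, mid l0 l1 h1.2.1 h2.2.1 h1.2.2 h2.2.2 ?_ ?_⟩
  · have g1 := h1.1 h
    have g2 := h2.1 h
    nlinarith [mul_nonneg hl g1, mul_nonneg l0 g2]
  · unfold qR
    split_ifs with h
    · apply le_of_eq; ring
    · linarith
    · linarith
    · linarith
  · have hmin : (1 - l) * min (1.732 * D1) (1.7321 * D1) + l * min (1.732 * D2) (1.7321 * D2) ≤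
        min (1.732 * ((1 - l) * D1 + l * D2)) (1.7321 * ((1 - l) * D1 + l * D2)) := by
      apply le_min
      · have a1 := mul_le_mul_of_nonneg_left (min_le_left (1.732 * D1) (1.7321 * D1)) hl
        have a2 := mul_le_mul_of_nonneg_left (min_le_left (1.732 * D2) (1.7321 * D2)) l0
        linarith
      · have a1 := mul_le_mul_of_nonneg_left (min_le_right (1.732 * D1) (1.7321 * D1)) hl
        have a2 := mul_le_mul_of_nonneg_left (min_le_right (1.732 * D2) (1.7321 * D2)) l0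
        linarith
    unfold rR
    have a1 : (0 : ℝ) ≤ (f.k : ℝ) / 1000 := by positivity
    set A1 : ℝ := 2 * ((f.k : ℝ) / 1000) ^ 2 / 24
    set A2 : ℝ := 2 * ((f.e : ℝ) / 1000) * ((f.k : ℝ) / 1000) ^ 4 / 80
    have t1 := mul_le_mul_of_nonneg_left hmin a1
    split_ifs <;> linarith

end

end Run7.h761
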