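import Pool.Agent.Run7.h761.Chain

/-! Merging of steps: areas of polygons with two groups of sides. -/

set_option autoImplicit false

namespace Run7.h761

open Finset

theorem nsq (v : ℂ) : ‖v‖ ^ 2 = v.re ^ 2 + v.im ^ 2 := by
  rw [← Complex.normSq_eq_norm_sq, Complex.normSq_apply]; ring

/-- **merging of two steps** -/
theorem merge (v e : ℂ) {A s : ℝ} (h : 0 < A + s) :
    2 * cr v e + (A * s - 1) / (A + s) * ‖v + e‖ ^ 2 ≤ A * ‖v‖ ^ 2 + s * ‖e‖ ^ 2 := by
  rw [nsq, nsq, nsq]
  simp only [Complex.add_re, Complex.add_im]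
  have h1 : (A * s - 1) / (A + s) * ((v.re + e.re) ^ 2 + (v.im + e.im) ^ 2) =
      ((A * s - 1) * ((v.re + e.re) ^ 2 + (v.im + e.im) ^ 2)) / (A + s) := by ring
  rw [h1]
  have h2 : ((A * s - 1) * ((v.re + e.re) ^ 2 + (v.im + e.im) ^ 2)) ≤
      (A * (v.re ^ 2 + v.im ^ 2) + s * (e.re ^ 2 + e.im ^ 2) - 2 * cr v e) * (A + s) := by
    unfold cr
    nlinarith [sq_nonneg ((A * v.re - v.im) - (s * e.re + e.im)),
      sq_nonneg ((A * v.im + v.re) - (s * e.im - e.re))]
  have := (div_le_iff₀ h).2 h2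
  linarith

/-- angles after merging -/
noncomputable def aq (s : ℝ) : ℕ → ℝ
  | 0 => s
  | k + 1 => (aq s k * s - 1) / (aq s k + s)

/-- twice the area form of a list of steps -/
def lar : List ℂ → ℝ
  | [] => 0
  | v :: l => cr v l.sum + lar l

theorem cr_add_left (u v w : ℂ) : cr (u + v) w = cr u w + cr v w := by
  unfold cr; simp only [Complex.add_re, Complex.add_im]; ring

theorem cr_add_right (u v w : ℂ) : cr u (v + w) = cr u v + cr u w := by
  unfold cr; simp only [Complex.add_re, Complex.add_im]; ring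

theorem cr_zero_right (u : ℂ) : cr u 0 = 0 := by unfold cr; simp

theorem cr_zero_left (u : ℂ) : cr 0 u = 0 := by unfold cr; simp

theorem cr_self (u : ℂ) : cr u u = 0 := by unfold cr; ring

theorem cr_neg_self (u : ℂ) : cr u (-u) = 0 := by unfold cr; simp; ring

theorem lar_append (l m : List ℂ) : lar (l ++ m) = lar l + lar m + cr l.sum m.sum := by
  induction l with
  | nil => simp [lar, cr_zero_left]
  | cons v l ih =>
    simp only [List.cons_append, lar, List.sum_append, List.sum_cons]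
    rw [ih, cr_add_left, cr_add_right]
    ring

/-- exchange of the lengths of two steps -/
theorem swap_steps (u v : ℂ) : ∃ u' v' : ℂ, u' + v' = u + v ∧ ‖u'‖ = ‖v‖ ∧ ‖v'‖ = ‖u‖ ∧
    cr u' v' = cr u v := by
  obtain ⟨ω, h1, h2⟩ := exists_refl 0 (u + v)
  rw [zero_add, sub_zero] at h2
  refine ⟨ω ^ 2 * (starRingEnd ℂ) v, ω ^ 2 * (starRingEnd ℂ) u, ?_, ?_, ?_, ?_⟩
  · rw [← mul_add, ← map_add, add_comm v u]; exact h2
  · rw [norm_mul, norm_pow, h1, Complex.norm_conj]; ring
  · rw [norm_mul, norm_pow, h1, Complex.norm_conj]; ring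
  · rw [cr_refl ω v u h1]; unfold cr; ring

/-- moving a step to the end -/
theorem lrot (l : List ℂ) : ∀ v : ℂ, ∃ (l' : List ℂ) (v' : ℂ), l'.map (fun x => ‖x‖) = l.map (fun x => ‖x‖) ∧
    ‖v'‖ = ‖v‖ ∧ (l' ++ [v']).sum = (v :: l).sum ∧ lar (l' ++ [v']) = lar (v :: l) := by
  induction l with
  | nil => intro v; exact ⟨[], v, rfl, rfl, rfl, rfl⟩
  | cons u l ih =>
    intro v
    obtain ⟨u', v'', h1, h2, h3, h4⟩ := swap_steps v u
    obtain ⟨l', v', g1, g2, g3, g4⟩ := ih v''
    refine ⟨u' :: l', v', ?_, ?_, ?_, ?_⟩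
    · simp only [List.map_cons, g1, h2]
    · rw [g2, h3]
    · simp only [List.cons_append, List.sum_cons] at g3 ⊢
      rw [g3, ← add_assoc, h1, add_assoc]
    · simp only [List.cons_append, lar, List.sum_cons] at g3 g4 ⊢
      rw [g4, g3]
      have e1 : cr u' (v'' + l.sum) + (cr v'' l.sum + lar l) =
          cr u' v'' + cr (u' + v'') l.sum + lar l := by
        rw [cr_add_right, cr_add_left]; ring
      rw [e1, h4, h1, cr_add_right, cr_add_left]
      ring

/-- sorting the steps in two groups -/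
theorem lsort (l : List (ℂ × Bool)) : ∃ A B : List ℂ,
    A.map (fun x => ‖x‖) = (l.filter (fun x => x.2)).map (fun x => ‖x.1‖) ∧
    B.map (fun x => ‖x‖) = (l.filter (fun x => !x.2)).map (fun x => ‖x.1‖) ∧
    (A ++ B).sum = (l.map (fun x => x.1)).sum ∧ lar (A ++ B) = lar (l.map (fun x => x.1)) := by
  induction l with
  | nil => exact ⟨[], [], rfl, rfl, rfl, rfl⟩
  | cons x l ih =>
    obtain ⟨A, B, h1, h2, h3, h4⟩ := ih
    obtain ⟨v, b⟩ := x
    cases b with
    | true =>
      refine ⟨v :: A, B, ?_, ?_, ?_, ?_⟩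
      · simp only [List.map_cons, h1, List.filter_cons_of_pos]
      · rw [h2]; simp
      · simp only [List.cons_append, List.sum_cons, List.map_cons, h3]
      · simp only [List.cons_append, lar, List.map_cons, h4, h3]
    | false =>
      obtain ⟨A', v', g1, g2, g3, g4⟩ := lrot A v
      refine ⟨A', v' :: B, ?_, ?_, ?_, ?_⟩
      · rw [g1, h1]; simp
      · simp only [List.map_cons, g2, h2]
        simp
      · have : A' ++ v' :: B = (A' ++ [v']) ++ B := by simp
        rw [this, List.sum_append, g3, List.sum_cons, List.map_cons, List.sum_cons, ← h3,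
          List.sum_append, add_assoc]
      · have : A' ++ v' :: B = (A' ++ [v']) ++ B := by simp
        rw [this, lar_append, g3, g4, List.map_cons, lar, lar, ← h3, ← h4, lar_append,
          List.sum_append, List.sum_cons, cr_add_left, cr_add_right]
        ring

end Run7.h761
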