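import Pool.Agent.Run7.h761.Cov3
import Pool.Agent.Run7.h761.Mrg

/-! Soundness of the checker. -/

set_option autoImplicit false

namespace Run7.h761

/-- validity of real parameters of the polygon inequality -/
def PV (j : ℕ) (A t w t3 : ℝ) : Prop :=
  if j = 1 then 0 ≤ A + t ∧ w = 0 ∧ t3 = 0
  else if j = 2 then 0 < t ∧ 0 ≤ A + (t ^ 2 - 1) / (2 * t) ∧ 0 ≤ w ∧ w * (2 * t) ≤ 1 ∧ t3 = 0
  else 0 < t ∧ 0 < (t ^ 2 - 1) / (2 * t) + t3 ∧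
    0 ≤ A + ((t ^ 2 - 1) / (2 * t) * t3 - 1) / ((t ^ 2 - 1) / (2 * t) + t3) ∧ 0 ≤ w ∧ w * (2 * t) ≤ 1

/-- the facts about a face used by the checker -/
structure Hy (pm : Pm) (c u e X D L ℓ : ℝ) : Prop where
  L0 : 0 ≤ L
  l0 : 0 ≤ ℓ
  u1 : u ≤ 4 * c ^ 2
  u2 : u ≤ 4 * (3.04 - c) ^ 2
  c0 : 0 ≤ c
  c1 : c ≤ 3.04
  poly : ∀ s t w t3 : ℝ, 0 < s → (∀ k < pm.p, 0 < aq s k + s) → PV pm.j (aq s pm.p) t w t3 →
    0 ≤ 3 - X - D → 3.4641 * (3 - X - D) ≤ s / (pm.p + 1) * L ^ 2 +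
      (pm.m * (t * c ^ 2) - w * u + t3 * e ^ 2)
  cal : ∀ k ε cm : ℝ, 0 ≤ k → k ≤ 1 → 0 ≤ ε → (3.04 ≤ cm ∨ (c ≤ cm ∧ u ≤ 4 * (cm - c) ^ 2)) →
    e ≤ cm → k * cm ≤ 2 → ε * (k * cm / 2) ^ 2 + ε ^ 2 * (k * cm / 2) ^ 4 ≤ 2 * ε - 1 / 4 →
    √3 * k * D + 2 * (pm.m * c + e) - 2 * k ^ 2 / 24 * (pm.m * c ^ 3 + e ^ 3 + 1.5 * (c * u)) -
      2 * ε * k ^ 4 / 80 * (pm.m * c ^ 5 + e ^ 5 + 5 * (c ^ 3 * u) + 0.625 * (c * u ^ 2)) ≤ 2 * ℓ
  R1 : 32.646 ≤ (L + ℓ) ^ 2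
  R2 : 10.882 * (3 - 2 * X) ≤ (L + ℓ) ^ 2
  S1 : -0.79 * X ≤ L + X

theorem aqZ_eq {s : ℤ} : ∀ {k : ℕ}, okD s k = true → 0 < s →
    0 < (aqZ s k).2 ∧ aq ((s : ℝ) / 1000) k = ((aqZ s k).1 : ℝ) / (aqZ s k).2 ∧
    (∀ i < k, 0 < aq ((s : ℝ) / 1000) i + (s : ℝ) / 1000) := by
  intro k
  induction k with
  | zero =>
    intro _ _
    refine ⟨by norm_num [aqZ], by simp [aqZ, aq], fun i hi => absurd hi (by omega)⟩
  | succ k ih =>
    intro h hs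
    simp only [okD, Bool.and_eq_true, decide_eq_true_eq] at h
    obtain ⟨h1, h2, h3⟩ := ih h.1 hs
    have hD : (0 : ℝ) < (aqZ s k).2 := by exact_mod_cast h1
    have hD' : (0 : ℝ) < 1000 * (aqZ s k).1 + (aqZ s k).2 * s := by
      have := h.2
      simp only [aqZ] at this
      exact_mod_cast this
    have hsum : 0 < aq ((s : ℝ) / 1000) k + (s : ℝ) / 1000 := by
      rw [h2]
      have : ((aqZ s k).1 : ℝ) / (aqZ s k).2 + (s : ℝ) / 1000 =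
          (1000 * (aqZ s k).1 + (aqZ s k).2 * s) / (1000 * (aqZ s k).2) := by
        field_simp
      rw [this]; positivity
    refine ⟨h.2, ?_, ?_⟩
    · have e1 : aq ((s : ℝ) / 1000) (k + 1) = (aq ((s : ℝ) / 1000) k * ((s : ℝ) / 1000) - 1) /
          (aq ((s : ℝ) / 1000) k + (s : ℝ) / 1000) := rfl
      rw [e1, h2]
      have e2 : ((aqZ s k).1 : ℝ) / (aqZ s k).2 + (s : ℝ) / 1000 =
          (1000 * (aqZ s k).1 + (aqZ s k).2 * s) / (1000 * (aqZ s k).2) := by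
        field_simp
      have e3 : ((aqZ s k).1 : ℝ) / (aqZ s k).2 * ((s : ℝ) / 1000) - 1 =
          ((aqZ s k).1 * s - 1000 * (aqZ s k).2) / (1000 * (aqZ s k).2) := by
        field_simp
      rw [e2, e3]
      simp only [aqZ]
      push_cast
      field_simp
    · intro i hi
      rcases Nat.lt_succ_iff_lt_or_eq.1 hi with h' | h'
      · exact h3 i h'
      · rw [h']; exact hsum

theorem okP_sound {pm : Pm} {f : Lf} (h : okP pm f = true) : 0 < f.s ∧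
    (∀ k < pm.p, 0 < aq ((f.s : ℝ) / 1000) k + (f.s : ℝ) / 1000) ∧
    PV pm.j (aq ((f.s : ℝ) / 1000) pm.p) ((f.t : ℝ) / 1000) ((f.w : ℝ) / 1000) ((f.t3 : ℝ) / 1000) := by
  unfold okP at h
  simp only [Bool.and_eq_true, decide_eq_true_eq] at h
  obtain ⟨⟨hs, hD⟩, hj⟩ := h
  obtain ⟨h1, h2, h3⟩ := aqZ_eq hD hs
  refine ⟨hs, h3, ?_⟩
  have hDR : (0 : ℝ) < (aqZ f.s pm.p).2 := by exact_mod_cast h1
  unfold PV
  rw [h2]
  set N : ℤ := (aqZ f.s pm.p).1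
  set Q : ℤ := (aqZ f.s pm.p).2
  by_cases j1 : pm.j = 1
  · rw [if_pos j1] at hj ⊢
    simp only [Bool.and_eq_true, decide_eq_true_eq] at hj
    obtain ⟨⟨⟨g1, g2⟩, g3⟩, g4⟩ := hj
    have g1' : (0 : ℝ) ≤ 1000 * N + Q * f.t := by exact_mod_cast g1
    refine ⟨?_, by rw [g2]; simp, by rw [g3]; simp⟩
    have : (N : ℝ) / Q + (f.t : ℝ) / 1000 = (1000 * N + Q * f.t) / (1000 * Q) := by field_simp
    rw [this]; positivity
  · rw [if_neg j1] at hj ⊢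
    by_cases j2 : pm.j = 2
    · rw [if_pos j2] at hj ⊢
      simp only [Bool.and_eq_true, decide_eq_true_eq] at hj
      obtain ⟨⟨⟨⟨⟨g1, g2⟩, g3⟩, g4⟩, g5⟩, g6⟩ := hj
      have ht : (0 : ℝ) < f.t := by exact_mod_cast g1
      have g2' : (0 : ℝ) ≤ 2000 * f.t * N + Q * ((f.t : ℝ) ^ 2 - 10 ^ 6) := by exact_mod_cast g2
      have g3' : (0 : ℝ) ≤ f.w := by exact_mod_cast g3
      have g4' : (f.w : ℝ) * f.t ≤ 500000 := by exact_mod_cast g4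
      refine ⟨by positivity, ?_, by positivity, ?_, by rw [g5]; simp⟩
      · have : (N : ℝ) / Q + (((f.t : ℝ) / 1000) ^ 2 - 1) / (2 * ((f.t : ℝ) / 1000)) =
            (2000 * f.t * N + Q * ((f.t : ℝ) ^ 2 - 10 ^ 6)) / (2000 * f.t * Q) := by
          field_simp
          ring
        rw [this]; positivity
      · nlinarith
    · rw [if_neg j2] at hj ⊢
      simp only [Bool.and_eq_true, decide_eq_true_eq] at hj
      obtain ⟨⟨⟨⟨g1, g2⟩, g3⟩, g4⟩, g5⟩ := hj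
      have ht : (0 : ℝ) < f.t := by exact_mod_cast g1
      have g2' : (0 : ℝ) < (f.t : ℝ) ^ 2 - 10 ^ 6 + 2 * f.t * f.t3 := by exact_mod_cast g2
      have g3' : (0 : ℝ) ≤ N * (1000 * ((f.t : ℝ) ^ 2 - 10 ^ 6 + 2 * f.t * f.t3)) +
        Q * (((f.t : ℝ) ^ 2 - 10 ^ 6) * f.t3 - 2 * 10 ^ 6 * f.t) := by exact_mod_cast g3
      have g4' : (0 : ℝ) ≤ f.w := by exact_mod_cast g4
      have g5' : (f.w : ℝ) * f.t ≤ 500000 := by exact_mod_cast g5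
      have e2 : (((f.t : ℝ) / 1000) ^ 2 - 1) / (2 * ((f.t : ℝ) / 1000)) + (f.t3 : ℝ) / 1000 =
          ((f.t : ℝ) ^ 2 - 10 ^ 6 + 2 * f.t * f.t3) / (2000 * f.t) := by
        field_simp
        ring
      have e1 : (((f.t : ℝ) / 1000) ^ 2 - 1) / (2 * ((f.t : ℝ) / 1000)) * ((f.t3 : ℝ) / 1000) - 1 =
          (((f.t : ℝ) ^ 2 - 10 ^ 6) * f.t3 - 2 * 10 ^ 6 * f.t) / (2 * 10 ^ 6 * f.t) := by
        field_simp
        ring
      refine ⟨by positivity, ?_, ?_, by positivity, by nlinarith⟩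
      · rw [e2]; positivity
      · rw [e1, e2]
        set a : ℝ := (f.t : ℝ) ^ 2 - 10 ^ 6 + 2 * f.t * f.t3
        set b : ℝ := ((f.t : ℝ) ^ 2 - 10 ^ 6) * f.t3 - 2 * 10 ^ 6 * f.t
        have : (N : ℝ) / Q + b / (2 * 10 ^ 6 * f.t) / (a / (2000 * f.t)) =
            (N * (1000 * a) + Q * b) / (Q * (1000 * a)) := by
          field_simp
          ring
        rw [this]; positivity

theorem sqrt3_bounds : (1.732 : ℝ) ≤ √3 ∧ √3 ≤ (1.7321 : ℝ) := by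
  constructor
  · exact Real.le_sqrt_of_sq_le (by norm_num)
  · rw [Real.sqrt_le_left (by norm_num)]; norm_num

/-- from the predicate to the inequality -/
theorem leaf_sound {pm : Pm} {f : Lf} {b : Bx} {c u e X D L ℓ : ℝ} (hy : Hy pm c u e X D L ℓ)
    (hm : 0 ≤ pm.m) (hP : f.ty ≠ 0 ∨ okP pm f = true) (hC : okC f b = true)
    (hcb : c ≤ (b.c2 : ℝ) / 1000) (hub : u ≤ (b.u2 : ℝ) / 1000) (heb : e ≤ (b.e2 : ℝ) / 1000)
    (hpt : Pq pm f c u e X D) :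
    (pm.K : ℝ) / 1000 * (pm.m * c + e) + (pm.T : ℝ) / 1000 ≤ L + 2 * ℓ + X := by
  unfold okC at hC
  simp only [Bool.and_eq_true, Bool.or_eq_true, decide_eq_true_eq] at hC
  obtain ⟨⟨⟨⟨⟨⟨⟨a1, a2⟩, a3⟩, a4⟩, a5⟩, a6⟩, a7⟩, a8⟩ := hC
  have k0 : (0 : ℝ) ≤ (f.k : ℝ) / 1000 := by
    have : (0 : ℝ) ≤ f.k := by exact_mod_cast a1
    positivity
  have k1 : (f.k : ℝ) / 1000 ≤ 1 := by
    have : (f.k : ℝ) ≤ 1000 := by exact_mod_cast a2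
    linarith
  have ε0 : (0 : ℝ) ≤ (f.e : ℝ) / 1000 := by
    have : (0 : ℝ) ≤ f.e := by exact_mod_cast a3
    positivity
  have hecm : e ≤ (f.cm : ℝ) / 1000 := by
    have : (b.e2 : ℝ) ≤ f.cm := by exact_mod_cast a4
    linarith
  have hccm : 3.04 ≤ (f.cm : ℝ) / 1000 ∨ (c ≤ (f.cm : ℝ) / 1000 ∧ u ≤ 4 * ((f.cm : ℝ) / 1000 - c) ^ 2) := by
    rcases a5 with h | ⟨h1, h2⟩
    · left
      have : (3040 : ℝ) ≤ f.cm := by exact_mod_cast h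
      linarith
    · right
      have h1' : (b.c2 : ℝ) ≤ f.cm := by exact_mod_cast h1
      have h2' : (1000 : ℝ) * b.u2 ≤ 4 * ((f.cm : ℝ) - b.c2) ^ 2 := by exact_mod_cast h2
      refine ⟨by linarith, ?_⟩
      have h3 : ((f.cm : ℝ) - b.c2) / 1000 ≤ (f.cm : ℝ) / 1000 - c := by linarith
      have h4 : 0 ≤ ((f.cm : ℝ) - b.c2) / 1000 := by
        apply div_nonneg (by linarith) (by norm_num)
      have h5 := pow_le_pow_left₀ h4 h3 2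
      have h6 : (((f.cm : ℝ) - b.c2) / 1000) ^ 2 = ((f.cm : ℝ) - b.c2) ^ 2 / 10 ^ 6 := by ring
      rw [h6] at h5
      linarith
  have hkc : (f.k : ℝ) / 1000 * ((f.cm : ℝ) / 1000) ≤ 2 := by
    have : (f.k : ℝ) * f.cm ≤ 2 * 10 ^ 6 := by exact_mod_cast a6
    linarith
  have hεc : (f.e : ℝ) / 1000 * ((f.k : ℝ) / 1000 * ((f.cm : ℝ) / 1000) / 2) ^ 2 +
      ((f.e : ℝ) / 1000) ^ 2 * ((f.k : ℝ) / 1000 * ((f.cm : ℝ) / 1000) / 2) ^ 4 ≤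
      2 * ((f.e : ℝ) / 1000) - 1 / 4 := by
    have : (4 : ℝ) * 10 ^ 15 * f.e * ((f.k : ℝ) ^ 2 * (f.cm : ℝ) ^ 2) +
        (f.e : ℝ) ^ 2 * ((f.k : ℝ) ^ 2 * (f.cm : ℝ) ^ 2) ^ 2 ≤ 16 * 10 ^ 27 * (2 * (f.e : ℝ) - 250) := by
      exact_mod_cast a8
    nlinarith
  have hcal := hy.cal _ _ _ k0 k1 ε0 hccm hecm hkc hεc
  have h3 := sqrt3_bounds
  have hmin : (f.k : ℝ) / 1000 * min (1.732 * D) (1.7321 * D) ≤ √3 * ((f.k : ℝ) / 1000) * D := by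
    have : min (1.732 * D) (1.7321 * D) ≤ √3 * D := by
      rcases le_or_gt 0 D with h | h
      · refine (min_le_left _ _).trans ?_
        exact mul_le_mul_of_nonneg_right h3.1 h
      · refine (min_le_right _ _).trans ?_
        nlinarith
    have := mul_le_mul_of_nonneg_left this k0
    linarith
  obtain ⟨y0, q0, g⟩ := hpt
  have hLℓ : 0 ≤ L + ℓ := add_nonneg hy.L0 hy.l0
  by_cases t3 : f.ty = 3
  · have hq : qR pm f c u e X D = 0 := by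
      unfold qR
      rw [if_neg (by omega), if_neg (by omega), if_neg (by omega)]
    rw [hq, Real.sqrt_zero, zero_add] at g
    unfold rR at g
    rw [if_pos t3, if_pos (Or.inr t3)] at g
    have := hy.S1
    linarith
  · by_cases t0 : f.ty = 0
    · have hPok : okP pm f = true := by
        rcases hP with h | h
        · exact absurd t0 h
        · exact h
      obtain ⟨hs, haq, hPV⟩ := okP_sound hPok
      have hs' : (0 : ℝ) < (f.s : ℝ) / 1000 := by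
        have : (0 : ℝ) < f.s := by exact_mod_cast hs
        positivity
      have hp := hy.poly _ _ _ _ hs' haq hPV (y0 t0)
      have hqd : ∀ (t c0 : ℤ) (x : ℝ), (t : ℝ) / 1000 * x ^ 2 ≤ qdR t c0 x := by
        intro t c0 x
        unfold qdR
        split_ifs with h
        · exact le_rfl
        · have h1 : (t : ℝ) / 1000 ≤ 0 := by
            have : (t : ℝ) < 0 := by exact_mod_cast not_le.1 h
            apply div_nonpos_of_nonpos_of_nonneg this.le (by norm_num)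
          apply mul_le_mul_of_nonpos_left _ h1
          nlinarith [sq_nonneg (x - (c0 : ℝ) / 1000)]
      have hmR : (0 : ℝ) ≤ pm.m := by exact_mod_cast hm
      have hq1 := mul_le_mul_of_nonneg_left (hqd f.t f.c0 c) hmR
      have hq2 := hqd f.t3 f.e0 e
      have hqL : qR pm f c u e X D ≤ L ^ 2 := by
        unfold qR
        rw [if_pos t0]
        have hpp : (0 : ℝ) < (pm.p : ℝ) + 1 := by positivity
        have h1 : 3.4641 * (3 - X - D) - (pm.m * qdR f.t f.c0 c - (f.w : ℝ) / 1000 * u +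
            qdR f.t3 f.e0 e) ≤ (f.s : ℝ) / 1000 / (pm.p + 1) * L ^ 2 := by linarith
        calc _ ≤ (pm.p + 1) / ((f.s : ℝ) / 1000) * ((f.s : ℝ) / 1000 / (pm.p + 1) * L ^ 2) :=
              mul_le_mul_of_nonneg_left h1 (by positivity)
          _ = L ^ 2 := by field_simp
      have hsq : √(qR pm f c u e X D) ≤ L := by
        rw [Real.sqrt_le_left hy.L0]; exact hqL
      unfold rR at g
      rw [if_neg t3, if_pos t0, if_pos (Or.inl t0)] at g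
      linarith
    · have hqL : qR pm f c u e X D ≤ (2 * (L + ℓ)) ^ 2 := by
        unfold qR
        rw [if_neg t0]
        have r1 := hy.R1
        have r2 := hy.R2
        have h0 := sq_nonneg (2 * (L + ℓ))
        split_ifs
        · nlinarith
        · nlinarith
        · exact h0
      have hsq : √(qR pm f c u e X D) ≤ 2 * (L + ℓ) := by
        rw [Real.sqrt_le_left (by positivity)]; exact hqL
      unfold rR at g
      rw [if_neg t3, if_neg t0, if_neg (by tauto)] at g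
      linarith

/-- points of a box -/
def InB (b : Bx) (c u e X D : ℝ) : Prop :=
  ((b.c1 : ℝ) / 1000 ≤ c ∧ c ≤ (b.c2 : ℝ) / 1000) ∧ ((b.u1 : ℝ) / 1000 ≤ u ∧ u ≤ (b.u2 : ℝ) / 1000) ∧
  ((b.e1 : ℝ) / 1000 ≤ e ∧ e ≤ (b.e2 : ℝ) / 1000) ∧ ((b.X1 : ℝ) / 1000 ≤ X ∧ X ≤ (b.X2 : ℝ) / 1000) ∧
  ((b.D1 : ℝ) / 1000 ≤ D ∧ D ≤ (b.D2 : ℝ) / 1000)

theorem cors_all {pm : Pm} {f : Lf} {b : Bx} (h : cors pm f b = true) : ∀ c u e X D : ℤ,
    (c = b.c1 ∨ c = b.c2) → (u = b.u1 ∨ u = b.u2) → (e = b.e1 ∨ e = b.e2) →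
    (X = b.X1 ∨ X = b.X2) → (D = b.D1 ∨ D = b.D2) → cor pm f c u e X D = true := by
  intro c u e X D hc hu he hX hD
  unfold cors at h
  simp only [List.all_eq_true] at h
  have hc' : c ∈ [b.c1, b.c2] := by simpa using hc
  have hu' : u ∈ (if b.u1 = b.u2 then [b.u1] else [b.u1, b.u2]) := by
    split_ifs with h1
    · rw [← h1] at hu; simpa using hu
    · simpa using hu
  have he' : e ∈ (if b.e1 = b.e2 then [b.e1] else [b.e1, b.e2]) := by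
    split_ifs with h1
    · rw [← h1] at he; simpa using he
    · simpa using he
  exact h c hc' u hu' e he' X (by simpa using hX) D (by simpa using hD)

/-- **soundness of the checker** -/
theorem chk_sound {pm : Pm} {c u e X D L ℓ : ℝ} (hy : Hy pm c u e X D L ℓ) : ∀ (tr : Tr) (b : Bx),
    chk pm tr b = true → InB b c u e X D →
    (pm.K : ℝ) / 1000 * (pm.m * c + e) + (pm.T : ℝ) / 1000 ≤ L + 2 * ℓ + X := by
  intro tr
  induction tr with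
  | V =>
    intro b h hb
    exfalso
    simp only [chk, Bool.or_eq_true, decide_eq_true_eq] at h
    obtain ⟨hc, hu, _⟩ := hb
    rcases h with ⟨h1, h2⟩ | ⟨h1, h2⟩
    · have h2' : (4 : ℝ) * (b.c2 : ℝ) ^ 2 < 1000 * b.u1 := by exact_mod_cast h2
      have := hy.u1
      have h3 := pow_le_pow_left₀ hy.c0 hc.2 2
      have h4 : ((b.c2 : ℝ) / 1000) ^ 2 = (b.c2 : ℝ) ^ 2 / 10 ^ 6 := by ring
      rw [h4] at h3
      linarith [hu.1]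
    · have h2' : (4 : ℝ) * (3040 - (b.c1 : ℝ)) ^ 2 < 1000 * b.u1 := by exact_mod_cast h2
      have h5 := hy.u2
      have h6 : 0 ≤ 3.04 - c := by linarith [hy.c1]
      have h3 := pow_le_pow_left₀ h6 (by linarith [hc.1] : 3.04 - c ≤ (3040 - (b.c1 : ℝ)) / 1000) 2
      have h4 : ((3040 - (b.c1 : ℝ)) / 1000) ^ 2 = (3040 - (b.c1 : ℝ)) ^ 2 / 10 ^ 6 := by ring
      rw [h4] at h3
      linarith [hu.1]
  | L f =>
    intro b h hb
    simp only [chk, Bool.and_eq_true, Bool.or_eq_true, decide_eq_true_eq] at h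
    obtain ⟨⟨⟨⟨⟨⟨g1, g2⟩, g3⟩, g4⟩, g5⟩, g6⟩, g7⟩ := h
    obtain ⟨⟨hc1, hc2⟩, ⟨hu1, hu2⟩, ⟨he1, he2⟩, ⟨hX1, hX2⟩, ⟨hD1, hD2⟩⟩ := hb
    have hs : f.ty = 0 → 0 < f.s := by
      intro h0
      rcases g5 with h | h
      · exact absurd h0 h
      · exact (okP_sound h).1
    have hk : 0 ≤ f.k ∧ 0 ≤ f.e := by
      have := g6
      unfold okC at this
      simp only [Bool.and_eq_true, Bool.or_eq_true, decide_eq_true_eq] at this
      exact ⟨this.1.1.1.1.1.1.1, this.1.1.1.1.1.2⟩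
    have G1 : (0 : ℝ) ≤ (b.c1 : ℝ) / 1000 := by
      have : (0 : ℝ) ≤ b.c1 := by exact_mod_cast g1
      positivity
    have G2 : (0 : ℝ) ≤ (b.u1 : ℝ) / 1000 := by
      have : (0 : ℝ) ≤ b.u1 := by exact_mod_cast g2
      positivity
    have G3 : (0 : ℝ) ≤ (b.e1 : ℝ) / 1000 := by
      have : (0 : ℝ) ≤ b.e1 := by exact_mod_cast g3
      positivity
    have hcor := cors_all g7
    have P0 : ∀ c u e X D : ℤ,
        (c = b.c1 ∨ c = b.c2) → (u = b.u1 ∨ u = b.u2) → (e = b.e1 ∨ e = b.e2) →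
        (X = b.X1 ∨ X = b.X2) → (D = b.D1 ∨ D = b.D2) →
        Pq pm f ((c : ℝ) / 1000) ((u : ℝ) / 1000) ((e : ℝ) / 1000) ((X : ℝ) / 1000) ((D : ℝ) / 1000) :=
      fun c u e X D a1 a2 a3 a4 a5 => cor_sound hs (hcor c u e X D a1 a2 a3 a4 a5)
    -- interpolation in `c`
    have P1 : ∀ u e X D : ℤ, (u = b.u1 ∨ u = b.u2) → (e = b.e1 ∨ e = b.e2) →
        (X = b.X1 ∨ X = b.X2) → (D = b.D1 ∨ D = b.D2) →
        Pq pm f c ((u : ℝ) / 1000) ((e : ℝ) / 1000) ((X : ℝ) / 1000) ((D : ℝ) / 1000) := by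
      intro u' e' X' D' a2 a3 a4 a5
      have hu0 : (0 : ℝ) ≤ (u' : ℝ) / 1000 := by
        rcases a2 with h | h
        · rw [h]; exact G2
        · rw [h]; linarith
      exact step_c g4 hk.1 hk.2 hs G1 hc1 hc2 hu0 (P0 _ u' e' X' D' (Or.inl rfl) a2 a3 a4 a5)
        (P0 _ u' e' X' D' (Or.inr rfl) a2 a3 a4 a5)
    have P2 : ∀ e X D : ℤ, (e = b.e1 ∨ e = b.e2) → (X = b.X1 ∨ X = b.X2) → (D = b.D1 ∨ D = b.D2) →
        Pq pm f c u ((e : ℝ) / 1000) ((X : ℝ) / 1000) ((D : ℝ) / 1000) :=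
      fun e' X' D' a3 a4 a5 => step_u hk.1 hk.2 hy.c0 G2 hu1 hu2
        (P1 _ e' X' D' (Or.inl rfl) a3 a4 a5) (P1 _ e' X' D' (Or.inr rfl) a3 a4 a5)
    have P3 : ∀ X D : ℤ, (X = b.X1 ∨ X = b.X2) → (D = b.D1 ∨ D = b.D2) →
        Pq pm f c u e ((X : ℝ) / 1000) ((D : ℝ) / 1000) :=
      fun X' D' a4 a5 => step_e hk.1 hk.2 hs G3 he1 he2
        (P2 _ X' D' (Or.inl rfl) a4 a5) (P2 _ X' D' (Or.inr rfl) a4 a5)
    have P4 : ∀ D : ℤ, (D = b.D1 ∨ D = b.D2) → Pq pm f c u e X ((D : ℝ) / 1000) :=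
      fun D' a5 => step_X hX1 hX2 (P3 _ D' (Or.inl rfl) a5) (P3 _ D' (Or.inr rfl) a5)
    have P5 : Pq pm f c u e X D := step_D hk.1 hD1 hD2 (P4 _ (Or.inl rfl)) (P4 _ (Or.inr rfl))
    exact leaf_sound hy g4 g5 g6 hc2 hu2 he2 P5
  | N i m l r ihl ihr =>
    intro b h hb
    obtain ⟨⟨hc1, hc2⟩, ⟨hu1, hu2⟩, ⟨he1, he2⟩, ⟨hX1, hX2⟩, ⟨hD1, hD2⟩⟩ := hb
    simp only [chk] at h
    split_ifs at h with i0 i1 i2 i3
    · rw [Bool.and_eq_true] at h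
      rcases le_total c ((m : ℝ) / 1000) with h' | h'
      · exact ihl _ h.1 ⟨⟨hc1, h'⟩, ⟨hu1, hu2⟩, ⟨he1, he2⟩, ⟨hX1, hX2⟩, ⟨hD1, hD2⟩⟩
      · exact ihr _ h.2 ⟨⟨h', hc2⟩, ⟨hu1, hu2⟩, ⟨he1, he2⟩, ⟨hX1, hX2⟩, ⟨hD1, hD2⟩⟩
    · rw [Bool.and_eq_true] at h
      rcases le_total u ((m : ℝ) / 1000) with h' | h'
      · exact ihl _ h.1 ⟨⟨hc1, hc2⟩, ⟨hu1, h'⟩, ⟨he1, he2⟩, ⟨hX1, hX2⟩, ⟨hD1, hD2⟩⟩
      · exact ihr _ h.2 ⟨⟨hc1, hc2⟩, ⟨h', hu2⟩, ⟨he1, he2⟩, ⟨hX1, hX2⟩, ⟨hD1, hD2⟩⟩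
    · rw [Bool.and_eq_true] at h
      rcases le_total e ((m : ℝ) / 1000) with h' | h'
      · exact ihl _ h.1 ⟨⟨hc1, hc2⟩, ⟨hu1, hu2⟩, ⟨he1, h'⟩, ⟨hX1, hX2⟩, ⟨hD1, hD2⟩⟩
      · exact ihr _ h.2 ⟨⟨hc1, hc2⟩, ⟨hu1, hu2⟩, ⟨h', he2⟩, ⟨hX1, hX2⟩, ⟨hD1, hD2⟩⟩
    · rw [Bool.and_eq_true] at h
      rcases le_total X ((m : ℝ) / 1000) with h' | h'
      · exact ihl _ h.1 ⟨⟨hc1, hc2⟩, ⟨hu1, hu2⟩, ⟨he1, he2⟩, ⟨hX1, h'⟩, ⟨hD1, hD2⟩⟩
      · exact ihr _ h.2 ⟨⟨hc1, hc2⟩, ⟨hu1, hu2⟩, ⟨he1, he2⟩, ⟨h', hX2⟩, ⟨hD1, hD2⟩⟩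
    · rw [Bool.and_eq_true] at h
      rcases le_total D ((m : ℝ) / 1000) with h' | h'
      · exact ihl _ h.1 ⟨⟨hc1, hc2⟩, ⟨hu1, hu2⟩, ⟨he1, he2⟩, ⟨hX1, hX2⟩, ⟨hD1, h'⟩⟩
      · exact ihr _ h.2 ⟨⟨hc1, hc2⟩, ⟨hu1, hu2⟩, ⟨he1, he2⟩, ⟨hX1, hX2⟩, ⟨h', hD2⟩⟩

end Run7.h761
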