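import Mathlib

/-!
Planar clusters of equal area regions: perimeter in the sense of De Giorgi, clusters, least
perimeter.
-/

set_option autoImplicit false

namespace Run7.h761

open MeasureTheory Set
open scoped ENNReal

/-- The Euclidean plane. -/
abbrev Plane : Type := EuclideanSpace ℝ (Fin 2)

/-- The divergence of a vector field on the plane. -/
noncomputable def divergence (φ : Plane → Plane) (x : Plane) : ℝ :=
  ∑ i : Fin 2, (fderiv ℝ φ x (EuclideanSpace.single i 1)) i

/-- The perimeter (De Giorgi) of a set `E`: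
`sup { ∫_E div φ : φ ∈ C¹_c(ℝ², ℝ²), |φ| ≤ 1 }`. -/
noncomputable def perimeter (E : Set Plane) : ℝ≥0∞ :=
  ⨆ φ : {φ : Plane → Plane // ContDiff ℝ 1 φ ∧ HasCompactSupport φ ∧ ∀ x, ‖φ x‖ ≤ 1},
    ENNReal.ofReal (∫ x in E, divergence φ.1 x)

/-- The area `A₀ = 3 √3 / 2` of the regular hexagon of side `1`. -/
noncomputable def cellArea : ℝ := 3 * √3 / 2

/-- An `N`-cluster: pairwise disjoint measurable sets of finite perimeter, each of area `A₀`. -/
structure IsCluster (N : ℕ) (R : Fin N → Set Plane) : Prop where
  measurable : ∀ i, MeasurableSet (R i)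
  disjoint : ∀ i j, i ≠ j → Disjoint (R i) (R j)
  finitePerimeter : ∀ i, perimeter (R i) < ⊤
  area : ∀ i, volume (R i) = ENNReal.ofReal cellArea

/-- The perimeter of a cluster: half of the sum of the perimeters of the regions and of the
perimeter of the exterior region `R₀`. -/
noncomputable def clusterPerimeter {N : ℕ} (R : Fin N → Set Plane) : ℝ≥0∞ :=
  (perimeter (⋃ i, R i)ᶜ + ∑ i, perimeter (R i)) / 2

/-- The least perimeter `p(N)`: the infimum of the perimeters of all `N`-clusters. -/
noncomputable def leastPerimeter (N : ℕ) : ℝ≥0∞ :=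
  ⨅ R : {R : Fin N → Set Plane // IsCluster N R}, clusterPerimeter R.1

end Run7.h761
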