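import Pool.Agent.Run7.h761.Green2
import Pool.Agent.Run7.h761.Cluster

/-! Duality: integral of the norm of a vector field by test fields. -/

set_option autoImplicit false

namespace Run7.h761

open MeasureTheory Set Filter Topology
open scoped ENNReal Convolution

/-- rotation by a right angle -/
noncomputable def rotp (v : Plane) : Plane := !₂[v 1, -v 0]

theorem norm_rot (v : Plane) : ‖rotp v‖ = ‖v‖ := by
  rw [EuclideanSpace.norm_eq, EuclideanSpace.norm_eq]
  simp [rotp, Fin.sum_univ_two]
  rw [add_comm]

theorem om_rot (v : Plane) : om (rotp v) v = ‖v‖ ^ 2 := by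
  rw [EuclideanSpace.norm_eq, Real.sq_sqrt (by positivity)]
  simp [rotp, om, Fin.sum_univ_two]
  ring

/-- unit field -/
noncomputable def nrm (v : Plane) : Plane := ‖v‖⁻¹ • rotp v

theorem norm_nrm (v : Plane) : ‖nrm v‖ ≤ 1 := by
  unfold nrm
  rw [norm_smul, norm_rot, norm_inv, norm_norm]
  rcases eq_or_ne ‖v‖ 0 with h | h
  · rw [h]; simp
  · rw [inv_mul_cancel₀ h]

theorem om_nrm (v : Plane) : om (nrm v) v = ‖v‖ := by
  unfold nrm
  rw [om_smul_left, om_rot]
  rcases eq_or_ne ‖v‖ 0 with h | h
  · rw [h]; simp
  · field_simp

theorem measurable_rot : Measurable rotp := by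
  have : Continuous rotp := by
    unfold rotp
    fun_prop
  exact this.measurable

theorem measurable_nrm {W : Plane → Plane} (hW : Measurable W) : Measurable fun x => nrm (W x) := by
  unfold nrm
  exact (hW.norm.inv).smul (measurable_rot.comp hW)

theorem measurable_om {f g : Plane → Plane} (hf : Measurable f) (hg : Measurable g) :
    Measurable fun x => om (f x) (g x) := by
  have : Continuous fun p : Plane × Plane => om p.1 p.2 := continuous_om continuous_fst continuous_snd
  exact this.measurable.comp (hf.prodMk hg)

/-- the bumps -/
noncomputable def bmp (n : ℕ) : ContDiffBump (0 : Plane) where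
  rIn := 1 / (2 * ((n : ℝ) + 1))
  rOut := 1 / ((n : ℝ) + 1)
  rIn_pos := by positivity
  rIn_lt_rOut := by
    apply one_div_lt_one_div_of_lt
    · positivity
    · have : (0 : ℝ) < (n : ℝ) + 1 := by positivity
      linarith

theorem dual_bound {W : Plane → Plane} (hW : Measurable W) {B : ℝ} (hB : ∀ x, ‖W x‖ ≤ B) {C : ℝ}
    (h : ∀ ψ : Plane → Plane, ContDiff ℝ 1 ψ → HasCompactSupport ψ → (∀ x, ‖ψ x‖ ≤ 1) →
      ∫ x, om (ψ x) (W x) ≤ C) : ∫⁻ x, ENNReal.ofReal ‖W x‖ ≤ ENNReal.ofReal C := by
  have hball : ∀ r : ℕ, ∫ x in Metric.closedBall (0 : Plane) r, ‖W x‖ ≤ C := by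
    intro r
    set s : Plane → Plane := (Metric.closedBall (0 : Plane) r).indicator fun x => nrm (W x) with hs
    have hsm : Measurable s := (measurable_nrm hW).indicator Metric.isClosed_closedBall.measurableSet
    have hs1 : ∀ x, ‖s x‖ ≤ 1 := by
      intro x
      rw [hs]
      by_cases hx : x ∈ Metric.closedBall (0 : Plane) r
      · rw [indicator_of_mem hx]; exact norm_nrm _
      · rw [indicator_of_notMem hx]; simp
    have hsc : HasCompactSupport s := by
      apply HasCompactSupport.intro (isCompact_closedBall (0 : Plane) r)
      intro x hx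
      rw [hs, indicator_of_notMem hx]
    have hsi : Integrable s := by
      have : IntegrableOn (fun x => nrm (W x)) (Metric.closedBall (0 : Plane) r) := by
        apply Measure.integrableOn_of_bounded (M := 1) (measure_closedBall_lt_top).ne
          (measurable_nrm hW).aestronglyMeasurable
        exact Eventually.of_forall fun x => norm_nrm _
      rw [hs, integrable_indicator_iff Metric.isClosed_closedBall.measurableSet]
      exact this
    set ψ : ℕ → Plane → Plane := fun n =>
      ((bmp n).normed volume ⋆[ContinuousLinearMap.lsmul ℝ ℝ, volume] s) with hψ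
    have hψd : ∀ n, ContDiff ℝ 1 (ψ n) := by
      intro n
      exact (bmp n).hasCompactSupport_normed.contDiff_convolution_left _ (bmp n).contDiff_normed
        hsi.locallyIntegrable
    have hψc : ∀ n, HasCompactSupport (ψ n) := by
      intro n
      exact HasCompactSupport.convolution _ (bmp n).hasCompactSupport_normed hsc
    have hψ1 : ∀ n x, ‖ψ n x‖ ≤ 1 := by
      intro n x
      rw [hψ]
      simp only [convolution_def]
      refine (norm_integral_le_of_norm_le (g := fun t => (bmp n).normed volume t) ?_ ?_).trans ?_
      · exact (bmp n).continuous_normed.integrable_of_hasCompactSupport (bmp n).hasCompactSupport_normed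
      · refine Eventually.of_forall fun t => ?_
        simp only [ContinuousLinearMap.lsmul_apply, norm_smul, Real.norm_eq_abs,
          abs_of_nonneg ((bmp n).nonneg_normed t)]
        calc _ ≤ (bmp n).normed volume t * 1 :=
              mul_le_mul_of_nonneg_left (hs1 _) ((bmp n).nonneg_normed t)
          _ = _ := mul_one _
      · exact (bmp n).integral_normed.le
    have hψ0 : ∀ n x, x ∉ Metric.closedBall (0 : Plane) (r + 1) → ψ n x = 0 := by
      intro n x hx
      rw [hψ]
      simp only [convolution_def]
      rw [integral_eq_zero_of_ae]
      refine Eventually.of_forall fun t => ?_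
      simp only [ContinuousLinearMap.lsmul_apply, Pi.zero_apply]
      by_cases ht : t ∈ Metric.ball (0 : Plane) (bmp n).rOut
      · have h1 : x - t ∉ Metric.closedBall (0 : Plane) r := by
          rw [Metric.mem_closedBall, dist_zero_right] at hx ⊢
          rw [Metric.mem_ball, dist_zero_right] at ht
          have h2 : (bmp n).rOut ≤ 1 := by
            show 1 / ((n : ℝ) + 1) ≤ 1
            rw [div_le_one (by positivity)]
            have : (0 : ℝ) ≤ n := Nat.cast_nonneg n
            linarith
          have h3 := norm_sub_norm_le x t
          push Not at hx ⊢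
          linarith
        rw [hs, indicator_of_notMem h1, smul_zero]
      · have h1 : (bmp n).normed volume t = 0 := by
          rw [← Function.notMem_support, (bmp n).support_normed_eq]
          exact ht
        rw [h1, zero_smul]
    have hae : ∀ᵐ x, Tendsto (fun n => ψ n x) atTop (𝓝 (s x)) := by
      apply ContDiffBump.ae_convolution_tendsto_right_of_locallyIntegrable (K := 2)
      · exact tendsto_one_div_add_atTop_nhds_zero_nat
      · refine Eventually.of_forall fun n => ?_
        show 1 / ((n : ℝ) + 1) ≤ 2 * (1 / (2 * ((n : ℝ) + 1)))
        have : (0 : ℝ) < (n : ℝ) + 1 := by positivity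
        apply le_of_eq
        field_simp
      · exact hsi.locallyIntegrable
    have hlim : Tendsto (fun n => ∫ x, om (ψ n x) (W x)) atTop (𝓝 (∫ x, om (s x) (W x))) := by
      apply tendsto_integral_of_dominated_convergence
        ((Metric.closedBall (0 : Plane) (r + 1)).indicator fun _ => B)
      · intro n
        exact (measurable_om (hψd n).continuous.measurable hW).aestronglyMeasurable
      · rw [integrable_indicator_iff Metric.isClosed_closedBall.measurableSet]
        exact integrableOn_const (measure_closedBall_lt_top).ne
      · intro n
        refine Eventually.of_forall fun x => ?_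
        by_cases hx : x ∈ Metric.closedBall (0 : Plane) (r + 1)
        · rw [indicator_of_mem hx, Real.norm_eq_abs]
          refine (abs_om_le _ _).trans ?_
          calc ‖ψ n x‖ * ‖W x‖ ≤ 1 * ‖W x‖ :=
                mul_le_mul_of_nonneg_right (hψ1 n x) (norm_nonneg _)
            _ ≤ B := by rw [one_mul]; exact hB x
        · rw [indicator_of_notMem hx, hψ0 n x hx]
          simp [om]
      · filter_upwards [hae] with x hx
        have : Continuous fun p : Plane => om p (W x) :=
          continuous_om continuous_id continuous_const
        exact (this.tendsto _).comp hx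
    have hle : ∫ x, om (s x) (W x) ≤ C :=
      le_of_tendsto' hlim fun n => h _ (hψd n) (hψc n) (hψ1 n)
    have heq : ∫ x, om (s x) (W x) = ∫ x in Metric.closedBall (0 : Plane) r, ‖W x‖ := by
      rw [← integral_indicator Metric.isClosed_closedBall.measurableSet]
      congr 1
      funext x
      rw [hs]
      by_cases hx : x ∈ Metric.closedBall (0 : Plane) r
      · rw [indicator_of_mem hx, indicator_of_mem hx, om_nrm]
      · rw [indicator_of_notMem hx, indicator_of_notMem hx]
        simp [om]
    rwa [heq] at hle
  have hcov : AECover (volume : Measure Plane) atTop fun r : ℕ => Metric.closedBall (0 : Plane) r :=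
    aecover_closedBall tendsto_natCast_atTop_atTop
  have hlim := hcov.lintegral_tendsto_of_countably_generated
    (f := fun x => ENNReal.ofReal ‖W x‖) (hW.norm.ennreal_ofReal).aemeasurable
  refine le_of_tendsto' hlim fun r => ?_
  rw [← ofReal_integral_eq_lintegral_ofReal]
  · exact ENNReal.ofReal_le_ofReal (hball r)
  · apply Measure.integrableOn_of_bounded (M := B) (measure_closedBall_lt_top).ne
      hW.norm.aestronglyMeasurable
    refine Eventually.of_forall fun x => ?_
    rw [norm_norm]; exact hB x
  · exact Eventually.of_forall fun x => norm_nonneg _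

end Run7.h761
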