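import Pool.Agent.Run7.h761.Lat

/-! Euler characteristic of finite sets of cells. -/

set_option autoImplicit false

namespace Run7.h761.Lb

open Finset

open scoped Classical

/-- one step inside a set of sites -/
def Stp (X : Set Site) (a b : Site) : Prop := b ∈ X ∧ ∃ j, b = a + dr j

/-- connected sets of sites -/
def Con (X : Set Site) : Prop := ∀ a ∈ X, ∀ b ∈ X, Relation.ReflTransGen (Stp X) a b

/-- total turning of the boundary -/
noncomputable def tau (A : Finset Site) : ℤ :=
  ∑ s ∈ A, ∑ j : Fin 6, if s + dr j ∈ A then 0 else if s + dr (j + 1) ∈ A then -1 else 1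

/-- number of bonds in direction `j` -/
noncomputable def c1 (A : Finset Site) (j : Fin 6) : ℤ := ∑ s ∈ A, if s + dr j ∈ A then 1 else 0

/-- number of triangles of kind `j` -/
noncomputable def c2 (A : Finset Site) (j : Fin 6) : ℤ :=
  ∑ s ∈ A, if s + dr j ∈ A ∧ s + dr (j + 1) ∈ A then 1 else 0

theorem c1_card (A : Finset Site) (j : Fin 6) : c1 A j = ((A.filter fun s => s + dr j ∈ A).card : ℤ) := by
  unfold c1
  rw [Finset.card_filter]
  push_cast
  rfl

theorem c2_card (A : Finset Site) (j : Fin 6) :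
    c2 A j = ((A.filter fun s => s + dr j ∈ A ∧ s + dr (j + 1) ∈ A).card : ℤ) := by
  unfold c2
  rw [Finset.card_filter]
  push_cast
  rfl

theorem c1_shift (A : Finset Site) (j : Fin 6) : c1 A (j + 3) = c1 A j := by
  rw [c1_card, c1_card]
  congr 1
  symm
  apply Finset.card_bij (fun s _ => s + dr j)
  · intro s hs
    rw [Finset.mem_filter] at hs ⊢
    rw [dr_opp, add_neg_cancel_right]
    exact ⟨hs.2, hs.1⟩
  · intro a _ b _ h
    exact add_right_cancel h
  · intro b hb
    rw [Finset.mem_filter, dr_opp] at hb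
    refine ⟨b - dr j, ?_, by abel⟩
    rw [Finset.mem_filter, sub_add_cancel]
    exact ⟨by rw [sub_eq_add_neg]; exact hb.2, hb.1⟩

theorem c2_shift (A : Finset Site) (j : Fin 6) : c2 A (j + 2) = c2 A j := by
  have e3 : ∀ s : Site, s + dr j + dr (j + 2) = s + dr (j + 1) := fun s => by
    rw [add_assoc, ← dr_tri]
  have e4 : ∀ s : Site, s + dr j + dr (j + 2 + 1) = s := fun s => by
    have : j + 2 + 1 = j + 3 := by rw [add_assoc]; rfl
    rw [this, dr_opp, add_neg_cancel_right]
  rw [c2_card, c2_card]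
  congr 1
  symm
  apply Finset.card_bij (fun s _ => s + dr j)
  · intro s hs
    rw [Finset.mem_filter] at hs ⊢
    rw [e3, e4]
    exact ⟨hs.2.1, hs.2.2, hs.1⟩
  · intro a _ b _ h
    exact add_right_cancel h
  · intro b hb
    rw [Finset.mem_filter] at hb
    refine ⟨b - dr j, ?_, by abel⟩
    have h3 := e3 (b - dr j)
    have h4 := e4 (b - dr j)
    rw [sub_add_cancel] at h3 h4
    rw [Finset.mem_filter, sub_add_cancel]
    rw [h3, h4] at hb
    exact ⟨hb.2.2, hb.1, hb.2.1⟩

theorem tau_formula (A : Finset Site) : tau A =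
    6 * (A.card : ℤ) - 6 * (c1 A 0 + c1 A 1 + c1 A 2) + 6 * (c2 A 0 + c2 A 1) := by
  have h1 : tau A = ∑ s ∈ A, ∑ j : Fin 6, ((1 : ℤ) - (if s + dr j ∈ A then 1 else 0) -
      2 * (if s + dr (j + 1) ∈ A then 1 else 0) +
      2 * (if s + dr j ∈ A ∧ s + dr (j + 1) ∈ A then 1 else 0)) := by
    unfold tau
    refine Finset.sum_congr rfl fun s _ => Finset.sum_congr rfl fun j _ => ?_
    by_cases ha : s + dr j ∈ A <;> by_cases hb : s + dr (j + 1) ∈ A <;> simp [ha, hb]
  have h2 : tau A = ∑ j : Fin 6, ((A.card : ℤ) - c1 A j - 2 * c1 A (j + 1) + 2 * c2 A j) := by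
    rw [h1, Finset.sum_comm]
    refine Finset.sum_congr rfl fun j _ => ?_
    rw [Finset.sum_add_distrib, Finset.sum_sub_distrib, Finset.sum_sub_distrib, ← Finset.mul_sum,
      ← Finset.mul_sum]
    simp [c1, c2]
  rw [h2]
  simp only [Fin.sum_univ_six]
  have a3 := c1_shift A 0
  have a4 := c1_shift A 1
  have a5 := c1_shift A 2
  have b2 := c2_shift A 0
  have b3 := c2_shift A 1
  have b4 := c2_shift A 2
  have b5 := c2_shift A 3
  simp only [Fin.isValue, zero_add] at *
  have e1 : (1 : Fin 6) + 3 = 4 := by decide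
  have e2 : (2 : Fin 6) + 3 = 5 := by decide
  have e3 : (1 : Fin 6) + 2 = 3 := by decide
  have e4 : (2 : Fin 6) + 2 = 4 := by decide
  have e5 : (3 : Fin 6) + 2 = 5 := by decide
  have e6 : (1 : Fin 6) + 1 = 2 := by decide
  have e7 : (2 : Fin 6) + 1 = 3 := by decide
  have e8 : (3 : Fin 6) + 1 = 4 := by decide
  have e9 : (4 : Fin 6) + 1 = 5 := by decide
  have e10 : (5 : Fin 6) + 1 = 0 := by decide
  rw [e1] at a4
  rw [e2] at a5
  rw [e3] at b3
  rw [e4] at b4
  rw [e5] at b5
  rw [e6, e7, e8, e9, e10]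
  linarith

/-- the reduced graph: one bond of each triangle is removed -/
def Red (A : Finset Site) (s : Site) (k : Fin 3) : Prop :=
  s ∈ A ∧ s + dr (Fin.castLE (by norm_num) k) ∈ A ∧
    (k = 0 → s + dr 1 ∉ A) ∧ (k = 1 → s + dr 2 ∉ A)

/-- the reduced graph on the sites of `A` -/
def redG (A : Finset Site) : SimpleGraph {s // s ∈ A} :=
  SimpleGraph.fromRel fun a b => ∃ k : Fin 3, Red A a.1 k ∧ b.1 = a.1 + dr (Fin.castLE (by norm_num) k)

theorem redG_diag (A : Finset Site) {p : Site} (hp : p ∈ A) (hq : p + dr 2 ∈ A) :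
    (redG A).Reachable ⟨p, hp⟩ ⟨p + dr 2, hq⟩ := by
  apply SimpleGraph.Adj.reachable
  unfold redG
  rw [SimpleGraph.fromRel_adj]
  refine ⟨?_, Or.inl ⟨2, ⟨hp, hq, ?_, ?_⟩, rfl⟩⟩
  · intro h
    have := congrArg Subtype.val h
    simp [dr, Prod.ext_iff] at this
  · intro h; exact absurd h (by decide)
  · intro h; exact absurd h (by decide)

theorem redG_hor (A : Finset Site) (M : ℤ) (hM : ∀ s ∈ A, s.2 ≤ M) : ∀ n : ℕ, ∀ p : Site,
    (M - p.2).toNat ≤ n → ∀ (hp : p ∈ A),
    (∀ hq : p + dr 0 ∈ A, (redG A).Reachable ⟨p, hp⟩ ⟨p + dr 0, hq⟩) ∧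
    (∀ hq : p + dr 1 ∈ A, (redG A).Reachable ⟨p, hp⟩ ⟨p + dr 1, hq⟩) := by
  intro n
  induction n with
  | zero =>
    intro p hpn hp
    have hpM : p.2 = M := by
      have := hM p hp
      omega
    have h1 : p + dr 1 ∉ A := by
      intro h
      have := hM _ h
      simp [dr] at this
      omega
    refine ⟨fun hq => ?_, fun hq => absurd hq h1⟩
    apply SimpleGraph.Adj.reachable
    unfold redG
    rw [SimpleGraph.fromRel_adj]
    refine ⟨?_, Or.inl ⟨0, ⟨hp, hq, fun _ => h1, ?_⟩, rfl⟩⟩
    · intro h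
      have := congrArg Subtype.val h
      simp [dr, Prod.ext_iff] at this
    · intro h; exact absurd h (by decide)
  | succ n ih =>
    intro p hpn hp
    have hv : ∀ hq : p + dr 1 ∈ A, (redG A).Reachable ⟨p, hp⟩ ⟨p + dr 1, hq⟩ := by
      intro hq
      by_cases h2 : p + dr 2 ∈ A
      · have e : p + dr 2 + dr 0 = p + dr 1 := by
          rw [add_assoc]; rfl
        have hle : (M - (p + dr 2).2).toNat ≤ n := by
          have := hM p hp
          simp [dr]
          omega
        have h3 := (ih (p + dr 2) hle h2).1 (by rw [e]; exact hq)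
        have h4 := redG_diag A hp h2
        have h5 := h4.trans h3
        convert h5 using 2
        exact e.symm
      · apply SimpleGraph.Adj.reachable
        unfold redG
        rw [SimpleGraph.fromRel_adj]
        refine ⟨?_, Or.inl ⟨1, ⟨hp, hq, ?_, fun _ => h2⟩, rfl⟩⟩
        · intro h
          have := congrArg Subtype.val h
          simp [dr, Prod.ext_iff] at this
        · intro h; exact absurd h (by decide)
    refine ⟨fun hq => ?_, hv⟩
    by_cases h1 : p + dr 1 ∈ A
    · have e : p + dr 0 + dr 2 = p + dr 1 := by rw [add_assoc]; rfl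
      have h3 := redG_diag A (p := p + dr 0) hq (by rw [e]; exact h1)
      have h4 := hv h1
      have h5 : (redG A).Reachable ⟨p + dr 0, hq⟩ ⟨p + dr 1, h1⟩ := by
        convert h3 using 2
        exact e.symm
      exact h4.trans h5.symm
    · apply SimpleGraph.Adj.reachable
      unfold redG
      rw [SimpleGraph.fromRel_adj]
      refine ⟨?_, Or.inl ⟨0, ⟨hp, hq, fun _ => h1, ?_⟩, rfl⟩⟩
      · intro h
        have := congrArg Subtype.val h
        simp [dr, Prod.ext_iff] at this
      · intro h; exact absurd h (by decide)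

theorem redG_step (A : Finset Site) {p q : Site} (hp : p ∈ A) (hq : q ∈ A) (j : Fin 6)
    (h : q = p + dr j) : (redG A).Reachable ⟨p, hp⟩ ⟨q, hq⟩ := by
  obtain ⟨M, hM⟩ : ∃ M : ℤ, ∀ s ∈ A, s.2 ≤ M := by
    obtain ⟨M, hM⟩ := (A.image Prod.snd).bddAbove
    exact ⟨M, fun s hs => hM (by simpa using ⟨s.1, hs⟩)⟩
  have key := redG_hor A M hM
  subst h
  have back : ∀ (k : Fin 6) (hk : k + 3 = j), p + dr j + dr k = p := by
    intro k hk
    rw [← hk, dr_opp]; abel
  fin_cases j
  · exact (key _ p le_rfl hp).1 hq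
  · exact (key _ p le_rfl hp).2 hq
  · exact redG_diag A hp hq
  · have e := back 0 (by decide)
    have h1 := (key _ _ le_rfl hq).1 (by rw [e]; exact hp)
    symm
    convert h1 using 2
    exact e.symm
  · have e := back 1 (by decide)
    have h1 := (key _ _ le_rfl hq).2 (by rw [e]; exact hp)
    symm
    convert h1 using 2
    exact e.symm
  · have e := back 2 (by decide)
    have h1 := redG_diag A hq (by rw [e]; exact hp)
    symm
    convert h1 using 2
    exact e.symm

/-- `χ ≤ 1` for connected sets -/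
theorem tau_le {A : Finset Site} (hc : Con (A : Set Site)) : tau A ≤ 6 := by
  rcases A.eq_empty_or_nonempty with he | ⟨a0, ha0⟩
  · subst he; simp [tau]
  have hconn : (redG A).Connected := by
    haveI : Nonempty {s // s ∈ A} := ⟨⟨a0, ha0⟩⟩
    constructor
    rintro ⟨a, ha⟩ ⟨b, hb⟩
    have h := hc a ha b hb
    have : ∀ c (hc' : c ∈ A), Relation.ReflTransGen (Stp (A : Set Site)) a c →
        (redG A).Reachable ⟨a, ha⟩ ⟨c, hc'⟩ := by
      intro c hc' hr
      induction hr with
      | refl => exact SimpleGraph.Reachable.refl _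
      | tail h1 h2 ih =>
        rename_i c d
        obtain ⟨h3, j, hj⟩ := h2
        have hcA : c ∈ A := by
          rcases Relation.ReflTransGen.cases_tail h1 with h4 | ⟨e, _, h4⟩
          · rw [h4]; exact ha
          · exact h4.1
        exact (ih hcA).trans (redG_step A hcA hc' j hj)
    exact this b hb h
  set E : Finset (Site × Fin 3) := (A ×ˢ (Finset.univ : Finset (Fin 3))).filter
    fun x => Red A x.1 x.2 with hE
  have hcardE : (E.card : ℤ) = c1 A 0 + c1 A 1 + c1 A 2 - c2 A 0 - c2 A 1 := by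
    have h1 : (E.card : ℤ) = ∑ s ∈ A, ∑ k : Fin 3, if Red A s k then (1 : ℤ) else 0 := by
      rw [hE, Finset.card_filter, ← Finset.sum_product']
      push_cast
      rfl
    rw [h1]
    unfold c1 c2
    rw [← Finset.sum_add_distrib, ← Finset.sum_add_distrib, ← Finset.sum_sub_distrib,
      ← Finset.sum_sub_distrib]
    refine Finset.sum_congr rfl fun s hs => ?_
    rw [Fin.sum_univ_three]
    have e0 : dr (Fin.castLE (by norm_num) (0 : Fin 3)) = dr 0 := rfl
    have e1 : dr (Fin.castLE (by norm_num) (1 : Fin 3)) = dr 1 := rfl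
    have e2 : dr (Fin.castLE (by norm_num) (2 : Fin 3)) = dr 2 := rfl
    have f1 : (0 : Fin 6) + 1 = 1 := by decide
    have f2 : (1 : Fin 6) + 1 = 2 := by decide
    rw [f1, f2]
    unfold Red
    rw [e0, e1, e2]
    by_cases h0 : s + dr 0 ∈ A <;> by_cases h1 : s + dr 1 ∈ A <;> by_cases h2 : s + dr 2 ∈ A <;>
      simp [hs, h0, h1, h2]
  have hedge : Nat.card (redG A).edgeSet ≤ E.card := by
    have hsub : (redG A).edgeSet ⊆ Set.range (fun x : {x // x ∈ E} =>
        (s(⟨x.1.1, (Finset.mem_filter.1 x.2).2.1⟩,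
          ⟨x.1.1 + dr (Fin.castLE (by norm_num) x.1.2), (Finset.mem_filter.1 x.2).2.2.1⟩) :
          Sym2 {s // s ∈ A})) := by
      intro e he
      induction e using Sym2.ind with
      | _ a b =>
        rw [SimpleGraph.mem_edgeSet] at he
        unfold redG at he
        rw [SimpleGraph.fromRel_adj] at he
        rcases he.2 with ⟨k, h1, h2⟩ | ⟨k, h1, h2⟩
        · refine ⟨⟨(a.1, k), ?_⟩, ?_⟩
          · rw [hE, Finset.mem_filter]
            exact ⟨Finset.mem_product.2 ⟨a.2, Finset.mem_univ _⟩, h1⟩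
          · simp only
            congr 1
            exact Subtype.ext h2.symm
        · refine ⟨⟨(b.1, k), ?_⟩, ?_⟩
          · rw [hE, Finset.mem_filter]
            exact ⟨Finset.mem_product.2 ⟨b.2, Finset.mem_univ _⟩, h1⟩
          · simp only
            rw [Sym2.eq_swap]
            congr 1
            exact Subtype.ext h2.symm
    have h1 := Nat.card_mono (Set.finite_range _) hsub
    refine h1.trans ?_
    have h2 := Finite.card_range_le (fun x : {x // x ∈ E} =>
        (s(⟨x.1.1, (Finset.mem_filter.1 x.2).2.1⟩,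
          ⟨x.1.1 + dr (Fin.castLE (by norm_num) x.1.2), (Finset.mem_filter.1 x.2).2.2.1⟩) :
          Sym2 {s // s ∈ A}))
    simpa using h2
  have hv := hconn.card_vert_le_card_edgeSet_add_one
  have hcv : Nat.card {s // s ∈ A} = A.card := by simp
  rw [hcv] at hv
  have h3 : (A.card : ℤ) ≤ E.card + 1 := by exact_mod_cast hv.trans (by omega)
  rw [tau_formula]
  linarith

end Run7.h761.Lb
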