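import Pool.Agent.Run7.h761.Mrg2

/-! Areas of the polygon of chords, interior and exterior sides separated. -/

set_option autoImplicit false

namespace Run7.h761

open Finset

section

variable {z : ℕ → ℂ} {t : ℕ → ℕ} {n : ℕ}

/-- the exterior indices as a list -/
def LJ (n : ℕ) (J : Finset ℕ) : List ℕ := (List.range n).filter (fun i => decide (i ∈ J))

theorem LJ_nodup (n : ℕ) (J : Finset ℕ) : (LJ n J).Nodup := List.Nodup.filter _ List.nodup_range

theorem LJ_toFinset {n : ℕ} {J : Finset ℕ} (hJ : J ⊆ range n) : (LJ n J).toFinset = J := by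
  ext i
  unfold LJ
  simp only [List.mem_toFinset, List.mem_filter, List.mem_range, decide_eq_true_eq]
  exact ⟨fun h => h.2, fun h => ⟨Finset.mem_range.1 (hJ h), h⟩⟩

theorem LJ_sum {n : ℕ} {J : Finset ℕ} (hJ : J ⊆ range n) (g : ℕ → ℝ) :
    ((LJ n J).map g).sum = ∑ i ∈ J, g i := by
  rw [← List.sum_toFinset g (LJ_nodup n J), LJ_toFinset hJ]

theorem LJ_length {n : ℕ} {J : Finset ℕ} (hJ : J ⊆ range n) : (LJ n J).length = J.card := by
  rw [← List.toFinset_card_of_nodup (LJ_nodup n J), LJ_toFinset hJ]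

/-- sorted steps of the polygon of chords -/
theorem poly_lists (h : Cut z t n) {J : Finset ℕ} (hJ : J ⊆ range n) : ∃ A B : List ℂ,
    A.length = (range n \ J).card ∧
    (A.map (fun x => ‖x‖)).sum = ∑ i ∈ range n \ J, ‖z (t (i + 1)) - z (t i)‖ ∧
    B.map (fun x => ‖x‖) = (LJ n J).map (fun i => ‖z (t (i + 1)) - z (t i)‖) ∧
    A.sum + B.sum = 0 ∧ 4 * parea z t n = 2 * lar A + 2 * lar B := by
  obtain ⟨A, B, h1, h2, h3, h4⟩ := lsort ((List.range n).map
    (fun i => (z (t (i + 1)) - z (t i), decide (i ∉ J))))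
  rw [List.map_map] at h3 h4
  have e1 : ((fun x : ℂ × Bool => x.1) ∘ fun i => (z (t (i + 1)) - z (t i), decide (i ∉ J))) =
      fun i => z (t (i + 1)) - z (t i) := rfl
  rw [e1] at h3 h4
  have e2 : ((List.range n).map fun i => z (t (i + 1)) - z (t i)).sum = 0 := by
    have : ((List.range n).map fun i => z (t (i + 1)) - z (t i)).sum =
        ∑ i ∈ range n, (z (t (i + 1)) - z (t i)) := by
      rw [← List.sum_toFinset _ List.nodup_range, List.toFinset_range]
    rw [this, Finset.sum_range_sub (fun i => z (t i)), h.closed, h.zero, sub_self]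
  have hfil1 : ((List.range n).map (fun i => (z (t (i + 1)) - z (t i), decide (i ∉ J)))).filter
      (fun x => x.2) = ((List.range n).filter (fun i => decide (i ∉ J))).map
        (fun i => (z (t (i + 1)) - z (t i), decide (i ∉ J))) := by
    rw [List.filter_map]; rfl
  have hfil2 : ((List.range n).map (fun i => (z (t (i + 1)) - z (t i), decide (i ∉ J)))).filter
      (fun x => !x.2) = (LJ n J).map (fun i => (z (t (i + 1)) - z (t i), decide (i ∉ J))) := by
    rw [List.filter_map]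
    unfold LJ
    congr 1
    apply List.filter_congr
    intro i _
    simp
  rw [hfil1, List.map_map] at h1
  rw [hfil2, List.map_map] at h2
  have hnd : ((List.range n).filter (fun i => decide (i ∉ J))).Nodup :=
    List.Nodup.filter _ List.nodup_range
  have htf : ((List.range n).filter (fun i => decide (i ∉ J))).toFinset = range n \ J := by
    ext i
    simp
  refine ⟨A, B, ?_, ?_, h2, ?_, ?_⟩
  · have := congrArg List.length h1
    rw [List.length_map, List.length_map] at this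
    rw [this, ← htf, List.toFinset_card_of_nodup hnd]
  · rw [h1, ← htf, List.sum_toFinset _ hnd]
    rfl
  · rw [← List.sum_append, h3, e2]
  · have hs : A.sum + B.sum = 0 := by rw [← List.sum_append, h3, e2]
    have hB : B.sum = -A.sum := by linear_combination hs
    rw [lar_append, hB, cr_neg_self, add_zero] at h4
    -- area form of the list of chords
    have hx : ∀ k < ((List.range n).map fun i => z (t (i + 1)) - z (t i)).length,
        (z (t (k + 1)) - z (t 0)) - (z (t k) - z (t 0)) =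
          ((List.range n).map fun i => z (t (i + 1)) - z (t i)).getD k 0 := by
      intro k hk
      rw [List.length_map, List.length_range] at hk
      rw [List.getD_eq_getElem?_getD, List.getElem?_map, List.getElem?_range hk]
      simp
    obtain ⟨g1, _, _⟩ := lar_par _ (fun k => z (t k) - z (t 0)) hx (sub_self _)
    rw [List.length_map, List.length_range] at g1
    have g2 := par_translate n (fun i => z (t i)) (by rw [h.closed, h.zero]) (z (t 0))
    have g3 : par n (fun i => z (t i)) / 2 = parea z t n := rfl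
    rw [← g3, ← g2, g1, ← h4]
    ring

/-- one exterior side -/
theorem poly1 (h : Cut z t n) {p i1 : ℕ} (hi : i1 < n) (hp : n = p + 2) {s τ : ℝ} (hs0 : 0 ≤ s)
    (hs : ∀ k < p, 0 < aq s k + s) (hτ : 0 ≤ aq s p + τ) :
    4 * parea z t n ≤ s / (p + 1) * (∑ i ∈ range n \ {i1}, ‖z (t (i + 1)) - z (t i)‖) ^ 2 +
      τ * ‖z (t (i1 + 1)) - z (t i1)‖ ^ 2 := by
  have hJ : ({i1} : Finset ℕ) ⊆ range n := by simpa using hi
  obtain ⟨A, B, h1, h2, h3, h4, h5⟩ := poly_lists h hJ
  have hlen := LJ_length hJ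
  rw [Finset.card_singleton] at hlen
  obtain ⟨i, hi'⟩ := List.length_eq_one_iff.1 hlen
  have hi1 : i = i1 := by
    have := LJ_toFinset hJ
    rw [hi'] at this
    simpa using this
  subst hi1
  rw [hi'] at h3
  obtain ⟨e, rfl⟩ : ∃ e, B = [e] := by
    have := congrArg List.length h3
    simp only [List.length_map] at this
    exact List.length_eq_one_iff.1 this
  simp only [List.map_cons, List.map_nil, List.cons.injEq, and_true] at h3
  rw [Finset.card_sdiff_of_subset hJ, Finset.card_range, Finset.card_singleton] at h1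
  have hla := list_area (p := p) A (by omega) hs0 hs
  rw [h2] at hla
  have hn : ‖A.sum‖ = ‖z (t (i + 1)) - z (t i)‖ := by
    rw [← h3]
    have : A.sum = -e := by
      simp only [List.sum_cons, List.sum_nil, add_zero] at h4
      linear_combination h4
    rw [this, norm_neg]
  rw [hn] at hla
  have hB : lar [e] = 0 := by simp [lar, cr_zero_right]
  rw [h5, hB]
  have := mul_nonneg hτ (sq_nonneg ‖z (t (i + 1)) - z (t i)‖)
  linarith

theorem cr_pair (e1 e2 : ℂ) {τ : ℝ} (hτ : 0 < τ) : 2 * cr e1 e2 +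
    (τ ^ 2 - 1) / (2 * τ) * ‖e1 + e2‖ ^ 2 ≤
    τ / 2 * (‖e1‖ + ‖e2‖) ^ 2 - 1 / (2 * τ) * (‖e1‖ - ‖e2‖) ^ 2 := by
  set a := (‖e1‖ + ‖e2‖) ^ 2 - ‖e1 + e2‖ ^ 2 with ha
  set b := ‖e1 + e2‖ ^ 2 - (‖e1‖ - ‖e2‖) ^ 2 with hb
  have h1 := nsq e1
  have h2 := nsq e2
  have h3 := nsq (e1 + e2)
  simp only [Complex.add_re, Complex.add_im] at h3
  have ha0 : 0 ≤ a := by
    have := norm_add_le e1 e2
    have h0 := norm_nonneg (e1 + e2)
    rw [ha]
    nlinarith
  have hb0 : 0 ≤ b := by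
    have h4 := abs_norm_sub_norm_le e1 (-e2)
    rw [norm_neg, sub_neg_eq_add] at h4
    have h0 := abs_nonneg (‖e1‖ - ‖e2‖)
    have h5 := sq_abs (‖e1‖ - ‖e2‖)
    rw [hb]
    nlinarith
  have hab : (2 * cr e1 e2) ^ 2 = a * b := by
    have e3 : a = 2 * (‖e1‖ * ‖e2‖ - (e1.re * e2.re + e1.im * e2.im)) := by
      rw [ha, h3]; linear_combination h1 + h2
    have e4 : b = 2 * (‖e1‖ * ‖e2‖ + (e1.re * e2.re + e1.im * e2.im)) := by
      rw [hb, h3]; linear_combination -h1 - h2
    have e5 : a * b = 4 * (‖e1‖ ^ 2 * ‖e2‖ ^ 2 - (e1.re * e2.re + e1.im * e2.im) ^ 2) := by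
      rw [e3, e4]; ring
    rw [e5, h1, h2]
    unfold cr
    ring
  have h4 : 2 * cr e1 e2 ≤ (τ * a + b / τ) / 2 := by
    have h5 : (2 * cr e1 e2) ^ 2 ≤ ((τ * a + b / τ) / 2) ^ 2 := by
      rw [hab]
      have h6 : a * b = (τ * a) * (b / τ) := by field_simp
      rw [h6]
      nlinarith [sq_nonneg (τ * a - b / τ)]
    have h7 : 0 ≤ (τ * a + b / τ) / 2 := by positivity
    exact abs_le_of_sq_le_sq' h5 h7 |>.2
  have h5 : (τ * a + b / τ) / 2 = τ / 2 * (‖e1‖ + ‖e2‖) ^ 2 - 1 / (2 * τ) * (‖e1‖ - ‖e2‖) ^ 2 -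
      (τ ^ 2 - 1) / (2 * τ) * ‖e1 + e2‖ ^ 2 := by
    rw [ha, hb]
    field_simp
    ring
  linarith

/-- two exterior sides -/
theorem poly2 (h : Cut z t n) {J : Finset ℕ} (hJ : J ⊆ range n) {p i1 i2 : ℕ}
    (hLJ : LJ n J = [i1, i2]) (hp : n = p + 3) {s τ : ℝ} (hs0 : 0 ≤ s)
    (hs : ∀ k < p, 0 < aq s k + s) (hτ0 : 0 < τ) (hτ : 0 ≤ aq s p + (τ ^ 2 - 1) / (2 * τ)) :
    4 * parea z t n ≤ s / (p + 1) * (∑ i ∈ range n \ J, ‖z (t (i + 1)) - z (t i)‖) ^ 2 +
      (τ / 2 * (‖z (t (i1 + 1)) - z (t i1)‖ + ‖z (t (i2 + 1)) - z (t i2)‖) ^ 2 -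
        1 / (2 * τ) * (‖z (t (i1 + 1)) - z (t i1)‖ - ‖z (t (i2 + 1)) - z (t i2)‖) ^ 2) := by
  obtain ⟨A, B, h1, h2, h3, h4, h5⟩ := poly_lists h hJ
  have hlen := LJ_length hJ
  rw [hLJ] at hlen h3
  obtain ⟨e1, e2, rfl⟩ : ∃ e1 e2, B = [e1, e2] := by
    have := congrArg List.length h3
    simp only [List.length_map] at this
    exact List.length_eq_two.1 this
  simp only [List.map_cons, List.map_nil, List.cons.injEq, and_true] at h3
  rw [Finset.card_sdiff_of_subset hJ, Finset.card_range] at h1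
  have hla := list_area (p := p) A (by simp at hlen; omega) hs0 hs
  rw [h2] at hla
  have hn : ‖A.sum‖ = ‖e1 + e2‖ := by
    have : A.sum = -(e1 + e2) := by
      simp only [List.sum_cons, List.sum_nil, add_zero] at h4
      linear_combination h4
    rw [this, norm_neg]
  rw [hn] at hla
  have hB : lar [e1, e2] = cr e1 e2 := by simp [lar, cr_zero_right]
  have hpair := cr_pair e1 e2 hτ0
  rw [h5, hB, ← h3.1, ← h3.2]
  have := mul_nonneg hτ (sq_nonneg ‖e1 + e2‖)
  linarith

/-- three exterior sides -/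
theorem poly3 (h : Cut z t n) {J : Finset ℕ} (hJ : J ⊆ range n) {p i1 i2 i3 : ℕ}
    (hLJ : LJ n J = [i1, i2, i3]) (hp : n = p + 4) {s τ τ3 : ℝ} (hs0 : 0 ≤ s)
    (hs : ∀ k < p, 0 < aq s k + s) (hτ0 : 0 < τ) (hτ3 : 0 < (τ ^ 2 - 1) / (2 * τ) + τ3)
    (hτ : 0 ≤ aq s p + ((τ ^ 2 - 1) / (2 * τ) * τ3 - 1) / ((τ ^ 2 - 1) / (2 * τ) + τ3)) :
    4 * parea z t n ≤ s / (p + 1) * (∑ i ∈ range n \ J, ‖z (t (i + 1)) - z (t i)‖) ^ 2 +
      (τ / 2 * (‖z (t (i1 + 1)) - z (t i1)‖ + ‖z (t (i2 + 1)) - z (t i2)‖) ^ 2 -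
        1 / (2 * τ) * (‖z (t (i1 + 1)) - z (t i1)‖ - ‖z (t (i2 + 1)) - z (t i2)‖) ^ 2) +
      τ3 * ‖z (t (i3 + 1)) - z (t i3)‖ ^ 2 := by
  obtain ⟨A, B, h1, h2, h3, h4, h5⟩ := poly_lists h hJ
  have hlen := LJ_length hJ
  rw [hLJ] at hlen h3
  obtain ⟨e1, e2, e3, rfl⟩ : ∃ e1 e2 e3, B = [e1, e2, e3] := by
    have := congrArg List.length h3
    simp only [List.length_map] at this
    exact List.length_eq_three.1 this
  simp only [List.map_cons, List.map_nil, List.cons.injEq, and_true] at h3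
  rw [Finset.card_sdiff_of_subset hJ, Finset.card_range] at h1
  have hla := list_area (p := p) A (by simp at hlen; omega) hs0 hs
  rw [h2] at hla
  have hn : ‖A.sum‖ = ‖e1 + e2 + e3‖ := by
    have : A.sum = -(e1 + e2 + e3) := by
      simp only [List.sum_cons, List.sum_nil, add_zero] at h4
      linear_combination h4
    rw [this, norm_neg]
  rw [hn] at hla
  have hB : lar [e1, e2, e3] = cr e1 e2 + cr (e1 + e2) e3 := by
    simp [lar, cr_zero_right, cr_add_left, cr_add_right]; ring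
  have hpair := cr_pair e1 e2 hτ0
  have hm := merge (e1 + e2) e3 hτ3
  rw [h5, hB, ← h3.1, ← h3.2.1, ← h3.2.2]
  have := mul_nonneg hτ (sq_nonneg ‖e1 + e2 + e3‖)
  linarith

end

end Run7.h761
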