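import Pool.Agent.Run7.h761.Face
import Pool.Agent.Run7.h761.Mrg3
import Pool.Agent.Run7.h761.Cal2

/-! Basic facts about one normalised cell with exterior chains. -/

set_option autoImplicit false

namespace Run7.h761

open Finset

/-- basic facts -/
structure Bas (j L ℓ C X D : ℝ) : Prop where
  L0 : 0 ≤ L
  C0 : 0 ≤ C
  Cl : C ≤ ℓ
  R1 : 32.646 ≤ (L + ℓ) ^ 2
  R2 : 10.882 * (3 - 2 * X) ≤ (L + ℓ) ^ 2
  S1 : 1.79 * -X ≤ L
  Dlo : -(1.7 * j) ≤ D
  Dhi : D ≤ 1.7 * j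
  CJ : C ≤ 3.039 * j

section

variable {z : ℕ → ℂ} {t : ℕ → ℕ} {n : ℕ}

theorem bas (h : Cut z t n) (hα : 3 ≤ ka * (par (t n) z / 2))
    (hℓ : ∀ i < n, clen z (t i) (t (i + 1)) ≤ 3.039) {J : Finset ℕ} (hJ : J ⊆ range n) :
    Bas J.card (∑ i ∈ range n \ J, clen z (t i) (t (i + 1))) (∑ i ∈ J, clen z (t i) (t (i + 1)))
      (∑ i ∈ J, ‖z (t (i + 1)) - z (t i)‖) (ka * ∑ i ∈ range n \ J, carea z (t i) (t (i + 1)))
      (ka * ∑ i ∈ J, carea z (t i) (t (i + 1))) ∧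
    3 ≤ ka * parea z t n + ka * ∑ i ∈ range n \ J, carea z (t i) (t (i + 1)) +
      ka * ∑ i ∈ J, carea z (t i) (t (i + 1)) := by
  have hka := ka_pos
  set c : ℕ → ℝ := fun i => ‖z (t (i + 1)) - z (t i)‖ with hc
  set l : ℕ → ℝ := fun i => clen z (t i) (t (i + 1)) with hl
  set x : ℕ → ℝ := fun i => carea z (t i) (t (i + 1)) with hx
  have hJ' : ∀ i ∈ J, i < n := fun i hi => Finset.mem_range.1 (hJ hi)
  have hl0 : ∀ i, 0 ≤ l i := fun i => clen_nonneg _ _ _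
  have hiso := iso_ka h
  have hlen : tlen z t n = ∑ i ∈ range n \ J, l i + ∑ i ∈ J, l i := by
    rw [Finset.sum_sdiff hJ]; rfl
  have habs : ∑ i ∈ range n, |x i| = ∑ i ∈ range n \ J, |x i| + ∑ i ∈ J, |x i| := by
    rw [Finset.sum_sdiff hJ]
  have hαe : ka * (par (t n) z / 2) = ka * parea z t n + ka * ∑ i ∈ range n \ J, x i +
      ka * ∑ i ∈ J, x i := by
    rw [par_eq h, add_assoc, ← mul_add, ← mul_add, Finset.sum_sdiff hJ]
  rw [hαe] at hα
  rw [hlen, habs] at hiso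
  have ha := Finset.abs_sum_le_sum_abs x (range n \ J)
  have hb := Finset.abs_sum_le_sum_abs x J
  have ha1 := neg_abs_le (∑ i ∈ range n \ J, x i)
  have hb1 := le_abs_self (∑ i ∈ J, x i)
  have hb2 := neg_abs_le (∑ i ∈ J, x i)
  have ha2 := le_abs_self (∑ i ∈ range n \ J, x i)
  have hB := le_abs_self (ka * parea z t n)
  have hS : ∀ i < n, 1.79 * (ka * |x i|) ≤ l i := by
    intro i hi
    have a := dido_ka (z := z) (h.mono i hi)
    have b := hℓ i hi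
    have c := hl0 i
    simp only [hx, hl] at a b c ⊢
    nlinarith
  have hS2 : ∀ i < n, ka * |x i| ≤ 1.7 := by
    intro i hi
    have a := hS i hi
    have b := hℓ i hi
    simp only [hx, hl] at a b ⊢
    linarith
  have key1 : 10.882 * (3 + ka * (∑ i ∈ range n \ J, |x i|) - ka * ∑ i ∈ range n \ J, x i) ≤
      (∑ i ∈ range n \ J, l i + ∑ i ∈ J, l i) ^ 2 := by
    refine le_trans ?_ hiso
    apply mul_le_mul_of_nonneg_left _ (by norm_num)
    have e1 : ka * ∑ i ∈ J, x i ≤ ka * ∑ i ∈ J, |x i| :=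
      mul_le_mul_of_nonneg_left (hb1.trans hb) hka.le
    rw [mul_add]
    linarith
  refine ⟨⟨Finset.sum_nonneg fun i _ => hl0 i, Finset.sum_nonneg fun i _ => norm_nonneg _,
    Finset.sum_le_sum fun i hi => chord_le_clen z (h.mono i (hJ' i hi)), ?_, ?_, ?_, ?_, ?_, ?_⟩, hα⟩
  · refine le_trans ?_ key1
    have e1 : ka * ∑ i ∈ range n \ J, x i ≤ ka * ∑ i ∈ range n \ J, |x i| :=
      mul_le_mul_of_nonneg_left (ha2.trans ha) hka.le
    linarith
  · refine le_trans ?_ key1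
    have e1 : ka * -(∑ i ∈ range n \ J, x i) ≤ ka * ∑ i ∈ range n \ J, |x i| :=
      mul_le_mul_of_nonneg_left (by linarith) hka.le
    linarith
  · have e1 : ka * -(∑ i ∈ range n \ J, x i) ≤ ka * ∑ i ∈ range n \ J, |x i| :=
      mul_le_mul_of_nonneg_left (by linarith) hka.le
    have e2 : 1.79 * (ka * ∑ i ∈ range n \ J, |x i|) ≤ ∑ i ∈ range n \ J, l i := by
      rw [Finset.mul_sum, Finset.mul_sum]
      exact Finset.sum_le_sum fun i hi => hS i (Finset.mem_range.1 (Finset.mem_sdiff.1 hi).1)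
    linarith
  · have e2 : ka * ∑ i ∈ J, |x i| ≤ 1.7 * J.card := by
      rw [Finset.mul_sum]
      refine (Finset.sum_le_card_nsmul _ _ 1.7 fun i hi => hS2 i (hJ' i hi)).trans ?_
      rw [nsmul_eq_mul]; linarith
    have e3 : ka * -(∑ i ∈ J, x i) ≤ ka * ∑ i ∈ J, |x i| :=
      mul_le_mul_of_nonneg_left (by linarith) hka.le
    linarith
  · have e2 : ka * ∑ i ∈ J, |x i| ≤ 1.7 * J.card := by
      rw [Finset.mul_sum]
      refine (Finset.sum_le_card_nsmul _ _ 1.7 fun i hi => hS2 i (hJ' i hi)).trans ?_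
      rw [nsmul_eq_mul]; linarith
    have e3 : ka * ∑ i ∈ J, x i ≤ ka * ∑ i ∈ J, |x i| :=
      mul_le_mul_of_nonneg_left (by linarith) hka.le
    linarith
  · refine (Finset.sum_le_card_nsmul _ _ 3.039 fun i hi =>
      (chord_le_clen z (h.mono i (hJ' i hi))).trans (hℓ i (hJ' i hi))).trans ?_
    rw [nsmul_eq_mul]; linarith

/-- the length of the whole boundary -/
theorem Bas.len {j L ℓ C X D : ℝ} (b : Bas j L ℓ C X D) : 5.713 ≤ L + ℓ := by
  have h0 : 0 ≤ L + ℓ := by linarith [b.L0, b.C0, b.Cl]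
  have h1 : (5.713 : ℝ) ^ 2 ≤ (L + ℓ) ^ 2 := le_trans (by norm_num) b.R1
  exact abs_le_of_sq_le_sq' h1 h0 |>.2

/-- large interior area -/
theorem Bas.bigX {j L ℓ C X D : ℝ} (b : Bas j L ℓ C X D) (hj : 1 ≤ j) {p : ℝ} (hp : 1 ≤ p)
    (hX : 1 ≤ X) : 1.035 * C + (6 - 0.113 * (p + 2 * j - 6)) ≤ L + 2 * ℓ + X := by
  have := b.len
  have := b.CJ
  have := b.Cl
  linarith

/-- very negative interior area -/
theorem Bas.negX {j L ℓ C X D : ℝ} (b : Bas j L ℓ C X D) (hj : 1 ≤ j) {p : ℝ} (hp : 2 ≤ p)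
    (hX : X ≤ -8) : 1.035 * C + (6 - 0.113 * (p + 2 * j - 6)) ≤ L + 2 * ℓ + X := by
  have := b.S1
  have := b.C0
  have := b.Cl
  linarith

/-- many sides -/
theorem Bas.crude {j L ℓ C X D : ℝ} (b : Bas j L ℓ C X D) {p : ℝ} (hp : 11 ≤ p + 2 * j) :
    1.035 * C + (6 - 0.113 * (p + 2 * j - 6)) ≤ L + 2 * ℓ + X := by
  have h1 := b.S1
  have h2 := b.C0
  have h3 := b.Cl
  have h4 := b.len
  have h5 := b.L0
  rcases le_or_gt 0 X with hX | hX
  · rcases le_or_gt C 7.9 with hC | hC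
    · linarith
    · linarith
  · rcases le_or_gt X (-8) with hX8 | hX8
    · linarith
    rcases le_or_gt C 5.7 with hC | hC
    · have h6 : 5.713 - X ≤ L + ℓ := by
        have h7 := b.R2
        have h8 : (5.713 - X) ^ 2 ≤ (L + ℓ) ^ 2 := by
          refine le_trans ?_ h7
          nlinarith [mul_nonneg (neg_nonneg.2 hX.le) (sub_nonneg.2 hX8.le)]
        exact abs_le_of_sq_le_sq' h8 (by linarith) |>.2
      linarith
    · linarith

theorem ka_346 : 3.4641 * ka ≤ 4 := by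
  have h1 := ka_sq
  have h0 := ka_pos
  nlinarith

/-- from areas to normalised areas -/
theorem poly_aux {B X D Q : ℝ} (hB : 3 ≤ ka * B + X + D) (hY : 0 ≤ 3 - X - D) (hQ : 4 * B ≤ Q) :
    3.4641 * (3 - X - D) ≤ Q := by
  have h0 := ka_pos
  have h1 := ka_346
  have h2 : 0 ≤ B := by
    by_contra hc
    push Not at hc
    have := mul_neg_of_pos_of_neg h0 hc
    linarith
  nlinarith

theorem int_chords (h : Cut z t n) (J : Finset ℕ) :
    (∑ i ∈ range n \ J, ‖z (t (i + 1)) - z (t i)‖) ^ 2 ≤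
      (∑ i ∈ range n \ J, clen z (t i) (t (i + 1))) ^ 2 := by
  apply pow_le_pow_left₀ (Finset.sum_nonneg fun i _ => norm_nonneg _)
  exact Finset.sum_le_sum fun i hi =>
    chord_le_clen z (h.mono i (Finset.mem_range.1 (Finset.mem_sdiff.1 hi).1))

/-- calibration of one chain with a bound of the chord -/
theorem cal_one (h : Cut z t n) {i : ℕ} (hi : i < n)
    (hℓ : clen z (t i) (t (i + 1)) ≤ 3.039) {k ε cm : ℝ} (hk0 : 0 ≤ k) (hk1 : k ≤ 1) (hε0 : 0 ≤ ε)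
    (hcm : ‖z (t (i + 1)) - z (t i)‖ ≤ cm) (hkc : k * cm ≤ 2)
    (hε : ε * (k * cm / 2) ^ 2 + ε ^ 2 * (k * cm / 2) ^ 4 ≤ 2 * ε - 1 / 4) :
    ‖z (t (i + 1)) - z (t i)‖ - k ^ 2 * ‖z (t (i + 1)) - z (t i)‖ ^ 3 / 24 -
      ε * k ^ 4 * ‖z (t (i + 1)) - z (t i)‖ ^ 5 / 80 + k * carea z (t i) (t (i + 1)) ≤
      clen z (t i) (t (i + 1)) := by
  have hc0 : 0 ≤ ‖z (t (i + 1)) - z (t i)‖ := norm_nonneg _
  have h1 : k * ‖z (t (i + 1)) - z (t i)‖ ≤ k * cm := mul_le_mul_of_nonneg_left hcm hk0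
  have h2 : 0 ≤ k * ‖z (t (i + 1)) - z (t i)‖ / 2 := by positivity
  have h3 : k * ‖z (t (i + 1)) - z (t i)‖ / 2 ≤ k * cm / 2 := by linarith
  refine calib2 (h.mono i hi) hk0 hk1 (by linarith) hε0 rfl (h1.trans hkc) ?_
  refine le_trans ?_ hε
  have h4 : (k * ‖z (t (i + 1)) - z (t i)‖ / 2) ^ 2 ≤ (k * cm / 2) ^ 2 := pow_le_pow_left₀ h2 h3 2
  have h5 : (k * ‖z (t (i + 1)) - z (t i)‖ / 2) ^ 4 ≤ (k * cm / 2) ^ 4 := pow_le_pow_left₀ h2 h3 4
  have h6 := mul_le_mul_of_nonneg_left h4 hε0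
  have h7 := mul_le_mul_of_nonneg_left h5 (sq_nonneg ε)
  linarith

theorem sqrt3_ka (k x : ℝ) : √3 * k * (ka * x) = 2 * (k * x) := by
  have := ka_sqrt
  linear_combination (k * x) * this

end

end Run7.h761
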