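import Pool.Agent.Run7.h761.Face3
import Pool.Agent.Run7.h761.Cov4

/-! Cells with one, two or three exterior chains: facts for the checker. -/

set_option autoImplicit false

namespace Run7.h761

open Finset

theorem PV1 {A t w t3 : ℝ} (h : PV 1 A t w t3) : 0 ≤ A + t ∧ w = 0 ∧ t3 = 0 := by
  unfold PV at h
  rw [if_pos rfl] at h
  exact h

theorem PV2 {A t w t3 : ℝ} (h : PV 2 A t w t3) :
    0 < t ∧ 0 ≤ A + (t ^ 2 - 1) / (2 * t) ∧ 0 ≤ w ∧ w * (2 * t) ≤ 1 ∧ t3 = 0 := by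
  unfold PV at h
  rw [if_neg (by norm_num), if_pos rfl] at h
  exact h

theorem PV3 {A t w t3 : ℝ} (h : PV 3 A t w t3) : 0 < t ∧ 0 < (t ^ 2 - 1) / (2 * t) + t3 ∧
    0 ≤ A + ((t ^ 2 - 1) / (2 * t) * t3 - 1) / ((t ^ 2 - 1) / (2 * t) + t3) ∧ 0 ≤ w ∧
    w * (2 * t) ≤ 1 := by
  unfold PV at h
  rw [if_neg (by norm_num), if_neg (by norm_num)] at h
  exact h

theorem pair_le {c1 c2 cm : ℝ} (h1 : c1 ≤ 3.039) (h2 : c2 ≤ 3.039)
    (h : 3.04 ≤ cm ∨ ((c1 + c2) / 2 ≤ cm ∧ (c1 - c2) ^ 2 ≤ 4 * (cm - (c1 + c2) / 2) ^ 2)) :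
    c1 ≤ cm ∧ c2 ≤ cm := by
  rcases h with h | ⟨h3, h4⟩
  · constructor <;> linarith
  · have h5 : (c1 - c2) ^ 2 ≤ (2 * cm - (c1 + c2)) ^ 2 := by
      refine h4.trans (le_of_eq ?_)
      ring
    have h6 := abs_le_of_sq_le_sq' h5 (by linarith)
    constructor <;> linarith [h6.1, h6.2]

section

variable {z : ℕ → ℂ} {t : ℕ → ℕ} {n : ℕ}

theorem LJ_mem {J : Finset ℕ} {i : ℕ} (h : i ∈ LJ n J) : i < n := by
  unfold LJ at h
  rw [List.mem_filter, List.mem_range] at h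
  exact h.1

theorem hy1 (h : Cut z t n) (hα : 3 ≤ ka * (par (t n) z / 2))
    (hℓ : ∀ i < n, clen z (t i) (t (i + 1)) ≤ 3.039) {p i1 : ℕ} (hi : i1 < n) (hp : n = p + 2)
    (K T : ℤ) : Hy ⟨1, p, 1, K, T⟩ ‖z (t (i1 + 1)) - z (t i1)‖ 0 0
      (ka * ∑ i ∈ range n \ {i1}, carea z (t i) (t (i + 1)))
      (ka * ∑ i ∈ {i1}, carea z (t i) (t (i + 1)))
      (∑ i ∈ range n \ {i1}, clen z (t i) (t (i + 1))) (∑ i ∈ {i1}, clen z (t i) (t (i + 1))) := by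
  have hJ : ({i1} : Finset ℕ) ⊆ range n := by simpa using hi
  obtain ⟨b, hB⟩ := bas h hα hℓ hJ
  have hc0 : 0 ≤ ‖z (t (i1 + 1)) - z (t i1)‖ := norm_nonneg _
  have hcl : ‖z (t (i1 + 1)) - z (t i1)‖ ≤ 3.039 :=
    (chord_le_clen z (h.mono i1 hi)).trans (hℓ i1 hi)
  refine ⟨b.L0, by linarith [b.C0, b.Cl], by positivity, by positivity, hc0, by linarith, ?_, ?_,
    b.R1, b.R2, by linarith [b.S1]⟩
  · intro s τ w t3 hs hk hPV hY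
    obtain ⟨h1, h2, h3⟩ := PV1 hPV
    have h4 := poly1 h hi hp hs.le hk h1
    have h5 := int_chords h {i1}
    have h6 : 0 ≤ s / ((p : ℝ) + 1) := by positivity
    have h7 := mul_le_mul_of_nonneg_left h5 h6
    refine poly_aux hB hY (h4.trans ?_)
    rw [h2, h3]
    push_cast
    linarith
  · intro k ε cm hk0 hk1 hε0 hcm _ hkc hε
    have hcc : ‖z (t (i1 + 1)) - z (t i1)‖ ≤ cm := by
      rcases hcm with h1 | h1
      · linarith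
      · exact h1.1
    have h1 := cal_one h hi (hℓ i1 hi) hk0 hk1 hε0 hcc hkc hε
    rw [Finset.sum_singleton, Finset.sum_singleton, sqrt3_ka]
    push_cast
    linarith

theorem hy2 (h : Cut z t n) (hα : 3 ≤ ka * (par (t n) z / 2))
    (hℓ : ∀ i < n, clen z (t i) (t (i + 1)) ≤ 3.039) {J : Finset ℕ} (hJ : J ⊆ range n)
    {p i1 i2 : ℕ} (hL : LJ n J = [i1, i2]) (hp : n = p + 3)
    (K T : ℤ) : Hy ⟨2, p, 2, K, T⟩ ((‖z (t (i1 + 1)) - z (t i1)‖ + ‖z (t (i2 + 1)) - z (t i2)‖) / 2)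
      ((‖z (t (i1 + 1)) - z (t i1)‖ - ‖z (t (i2 + 1)) - z (t i2)‖) ^ 2) 0
      (ka * ∑ i ∈ range n \ J, carea z (t i) (t (i + 1)))
      (ka * ∑ i ∈ J, carea z (t i) (t (i + 1)))
      (∑ i ∈ range n \ J, clen z (t i) (t (i + 1))) (∑ i ∈ J, clen z (t i) (t (i + 1))) := by
  obtain ⟨b, hB⟩ := bas h hα hℓ hJ
  have hi1 : i1 < n := LJ_mem (J := J) (by rw [hL]; simp)
  have hi2 : i2 < n := LJ_mem (J := J) (by rw [hL]; simp)
  have hs2 : ∀ g : ℕ → ℝ, ∑ i ∈ J, g i = g i1 + g i2 := by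
    intro g
    rw [← LJ_sum hJ g, hL]
    simp
  set c1 := ‖z (t (i1 + 1)) - z (t i1)‖ with hc1
  set c2 := ‖z (t (i2 + 1)) - z (t i2)‖ with hc2
  have hc10 : 0 ≤ c1 := norm_nonneg _
  have hc20 : 0 ≤ c2 := norm_nonneg _
  have hcl1 : c1 ≤ 3.039 := (chord_le_clen z (h.mono i1 hi1)).trans (hℓ i1 hi1)
  have hcl2 : c2 ≤ 3.039 := (chord_le_clen z (h.mono i2 hi2)).trans (hℓ i2 hi2)
  refine ⟨b.L0, by linarith [b.C0, b.Cl], ?_, ?_, by linarith, by linarith, ?_, ?_,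
    b.R1, b.R2, by linarith [b.S1]⟩
  · nlinarith [mul_nonneg hc10 hc20]
  · nlinarith [mul_nonneg (sub_nonneg.2 hcl1) (sub_nonneg.2 hcl2)]
  · intro s τ w t3 hs hk hPV hY
    obtain ⟨h1, h2, h3, h3', h3''⟩ := PV2 hPV
    have h4 := poly2 h hJ hL hp hs.le hk h1 h2
    have h5 := int_chords h J
    have h6 : 0 ≤ s / ((p : ℝ) + 1) := by positivity
    have h7 := mul_le_mul_of_nonneg_left h5 h6
    have h8 : w ≤ 1 / (2 * τ) := by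
      rw [le_div_iff₀ (by positivity)]; exact h3'
    have h9 := mul_le_mul_of_nonneg_right h8 (sq_nonneg (c1 - c2))
    refine poly_aux hB hY (h4.trans ?_)
    rw [h3'']
    simp only [← hc1, ← hc2]
    push_cast
    have e : 2 * (τ * ((c1 + c2) / 2) ^ 2) = τ / 2 * (c1 + c2) ^ 2 := by ring
    rw [e]
    linarith
  · intro k ε cm hk0 hk1 hε0 hcm _ hkc hε
    obtain ⟨hm1, hm2⟩ := pair_le hcl1 hcl2 hcm
    have h1 := cal_one h hi1 (hℓ i1 hi1) hk0 hk1 hε0 hm1 hkc hε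
    have h2 := cal_one h hi2 (hℓ i2 hi2) hk0 hk1 hε0 hm2 hkc hε
    rw [hs2, hs2, sqrt3_ka]
    simp only [← hc1, ← hc2] at h1 h2
    push_cast
    have e : 2 * (k * (carea z (t i1) (t (i1 + 1)) + carea z (t i2) (t (i2 + 1)))) +
        2 * (2 * ((c1 + c2) / 2) + 0) - 2 * k ^ 2 / 24 * (2 * ((c1 + c2) / 2) ^ 3 + 0 ^ 3 +
          1.5 * ((c1 + c2) / 2 * (c1 - c2) ^ 2)) -
        2 * ε * k ^ 4 / 80 * (2 * ((c1 + c2) / 2) ^ 5 + 0 ^ 5 + 5 * (((c1 + c2) / 2) ^ 3 *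
          (c1 - c2) ^ 2) + 0.625 * ((c1 + c2) / 2 * ((c1 - c2) ^ 2) ^ 2)) =
        2 * (c1 - k ^ 2 * c1 ^ 3 / 24 - ε * k ^ 4 * c1 ^ 5 / 80 + k * carea z (t i1) (t (i1 + 1))) +
        2 * (c2 - k ^ 2 * c2 ^ 3 / 24 - ε * k ^ 4 * c2 ^ 5 / 80 +
          k * carea z (t i2) (t (i2 + 1))) := by ring
    rw [e]
    linarith

theorem hy3 (h : Cut z t n) (hα : 3 ≤ ka * (par (t n) z / 2))
    (hℓ : ∀ i < n, clen z (t i) (t (i + 1)) ≤ 3.039) {J : Finset ℕ} (hJ : J ⊆ range n)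
    {p i1 i2 i3 : ℕ} (hL : LJ n J = [i1, i2, i3]) (hp : n = p + 4)
    (K T : ℤ) : Hy ⟨3, p, 2, K, T⟩ ((‖z (t (i1 + 1)) - z (t i1)‖ + ‖z (t (i2 + 1)) - z (t i2)‖) / 2)
      ((‖z (t (i1 + 1)) - z (t i1)‖ - ‖z (t (i2 + 1)) - z (t i2)‖) ^ 2)
      ‖z (t (i3 + 1)) - z (t i3)‖
      (ka * ∑ i ∈ range n \ J, carea z (t i) (t (i + 1)))
      (ka * ∑ i ∈ J, carea z (t i) (t (i + 1)))
      (∑ i ∈ range n \ J, clen z (t i) (t (i + 1))) (∑ i ∈ J, clen z (t i) (t (i + 1))) := by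
  obtain ⟨b, hB⟩ := bas h hα hℓ hJ
  have hi1 : i1 < n := LJ_mem (J := J) (by rw [hL]; simp)
  have hi2 : i2 < n := LJ_mem (J := J) (by rw [hL]; simp)
  have hi3 : i3 < n := LJ_mem (J := J) (by rw [hL]; simp)
  have hs3 : ∀ g : ℕ → ℝ, ∑ i ∈ J, g i = g i1 + g i2 + g i3 := by
    intro g
    rw [← LJ_sum hJ g, hL]
    simp [add_assoc]
  set c1 := ‖z (t (i1 + 1)) - z (t i1)‖ with hc1
  set c2 := ‖z (t (i2 + 1)) - z (t i2)‖ with hc2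
  set c3 := ‖z (t (i3 + 1)) - z (t i3)‖ with hc3
  have hc10 : 0 ≤ c1 := norm_nonneg _
  have hc20 : 0 ≤ c2 := norm_nonneg _
  have hcl1 : c1 ≤ 3.039 := (chord_le_clen z (h.mono i1 hi1)).trans (hℓ i1 hi1)
  have hcl2 : c2 ≤ 3.039 := (chord_le_clen z (h.mono i2 hi2)).trans (hℓ i2 hi2)
  refine ⟨b.L0, by linarith [b.C0, b.Cl], ?_, ?_, by linarith, by linarith, ?_, ?_,
    b.R1, b.R2, by linarith [b.S1]⟩
  · nlinarith [mul_nonneg hc10 hc20]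
  · nlinarith [mul_nonneg (sub_nonneg.2 hcl1) (sub_nonneg.2 hcl2)]
  · intro s τ w t3 hs hk hPV hY
    obtain ⟨h1, h2, h3, h3', h3''⟩ := PV3 hPV
    have h4 := poly3 h hJ hL hp hs.le hk h1 h2 h3
    have h5 := int_chords h J
    have h6 : 0 ≤ s / ((p : ℝ) + 1) := by positivity
    have h7 := mul_le_mul_of_nonneg_left h5 h6
    have h8 : w ≤ 1 / (2 * τ) := by
      rw [le_div_iff₀ (by positivity)]; exact h3''
    have h9 := mul_le_mul_of_nonneg_right h8 (sq_nonneg (c1 - c2))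
    refine poly_aux hB hY (h4.trans ?_)
    simp only [← hc1, ← hc2, ← hc3]
    push_cast
    have e : 2 * (τ * ((c1 + c2) / 2) ^ 2) = τ / 2 * (c1 + c2) ^ 2 := by ring
    rw [e]
    linarith
  · intro k ε cm hk0 hk1 hε0 hcm hem hkc hε
    obtain ⟨hm1, hm2⟩ := pair_le hcl1 hcl2 hcm
    have h1 := cal_one h hi1 (hℓ i1 hi1) hk0 hk1 hε0 hm1 hkc hε
    have h2 := cal_one h hi2 (hℓ i2 hi2) hk0 hk1 hε0 hm2 hkc hε
    have h3 := cal_one h hi3 (hℓ i3 hi3) hk0 hk1 hε0 hem hkc hε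
    rw [hs3, hs3, sqrt3_ka]
    simp only [← hc1, ← hc2, ← hc3] at h1 h2 h3
    push_cast
    have e : 2 * (k * (carea z (t i1) (t (i1 + 1)) + carea z (t i2) (t (i2 + 1)) +
          carea z (t i3) (t (i3 + 1)))) +
        2 * (2 * ((c1 + c2) / 2) + c3) - 2 * k ^ 2 / 24 * (2 * ((c1 + c2) / 2) ^ 3 + c3 ^ 3 +
          1.5 * ((c1 + c2) / 2 * (c1 - c2) ^ 2)) -
        2 * ε * k ^ 4 / 80 * (2 * ((c1 + c2) / 2) ^ 5 + c3 ^ 5 + 5 * (((c1 + c2) / 2) ^ 3 *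
          (c1 - c2) ^ 2) + 0.625 * ((c1 + c2) / 2 * ((c1 - c2) ^ 2) ^ 2)) =
        2 * (c1 - k ^ 2 * c1 ^ 3 / 24 - ε * k ^ 4 * c1 ^ 5 / 80 + k * carea z (t i1) (t (i1 + 1))) +
        2 * (c2 - k ^ 2 * c2 ^ 3 / 24 - ε * k ^ 4 * c2 ^ 5 / 80 +
          k * carea z (t i2) (t (i2 + 1))) +
        2 * (c3 - k ^ 2 * c3 ^ 3 / 24 - ε * k ^ 4 * c3 ^ 5 / 80 +
          k * carea z (t i3) (t (i3 + 1))) := by ring
    rw [e]
    linarith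

end

end Run7.h761
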