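import Pool.Agent.Run7.h761.TrD1
import Pool.Agent.Run7.h761.TrD2
import Pool.Agent.Run7.h761.TrD3
import Pool.Agent.Run7.h761.TrD4

/-! Covering tree for three interior and three exterior sides, assembled. -/

set_option autoImplicit false

namespace Run7.h761


theorem chkN0 {pm : Pm} {m : ℤ} {l r : Tr} {b : Bx} (hl : chk pm l { b with c2 := m } = true)
    (hr : chk pm r { b with c1 := m } = true) : chk pm (.N 0 m l r) b = true := by
  simp only [chk, Bool.and_eq_true]
  simp [hl, hr]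

theorem chkN1 {pm : Pm} {m : ℤ} {l r : Tr} {b : Bx} (hl : chk pm l { b with u2 := m } = true)
    (hr : chk pm r { b with u1 := m } = true) : chk pm (.N 1 m l r) b = true := by
  simp only [chk, Bool.and_eq_true]
  simp [hl, hr]

theorem chkN2 {pm : Pm} {m : ℤ} {l r : Tr} {b : Bx} (hl : chk pm l { b with e2 := m } = true)
    (hr : chk pm r { b with e1 := m } = true) : chk pm (.N 2 m l r) b = true := by
  simp only [chk, Bool.and_eq_true]
  simp [hl, hr]

theorem chkN3 {pm : Pm} {m : ℤ} {l r : Tr} {b : Bx} (hl : chk pm l { b with X2 := m } = true)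
    (hr : chk pm r { b with X1 := m } = true) : chk pm (.N 3 m l r) b = true := by
  simp only [chk, Bool.and_eq_true]
  simp [hl, hr]

theorem chkN4 {pm : Pm} {m : ℤ} {l r : Tr} {b : Bx} (hl : chk pm l { b with D2 := m } = true)
    (hr : chk pm r { b with D1 := m } = true) : chk pm (.N 4 m l r) b = true := by
  simp only [chk, Bool.and_eq_true]
  simp [hl, hr]

/-- covering tree for three interior and three exterior sides -/
def tr33 : Tr :=
  (.N 3 (-3500) tr33_1 (.N 3 (-1250) tr33_2 (.N 3 (-125) tr33_3 (.N 3 438 (.N 3 157 (.N 3 16 (.N 0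
    1520 (.N 3 (-54) tr33_4 tr33_5) (.N 3 (-54) tr33_6 (.N 0 2280 (.N 2 1520 tr33_7 tr33_8)
    tr33_9))) (.N 0 1520 tr33_10 (.N 3 87 (.N 0 2280 tr33_11 tr33_12) tr33_13))) tr33_14)
    tr33_15))))

theorem chk33 : chk ⟨3, 2, 2, 1035, 5661⟩ tr33 ⟨0, 3040, 0, 9250, 0, 3040, -8000, 1000, -5100, 5100⟩ = true :=
  (chkN3 chk33_1 (chkN3 chk33_2 (chkN3 chk33_3 (chkN3 (chkN3 (chkN3 (chkN0 (chkN3 chk33_4 chk33_5)
    (chkN3 chk33_6 (chkN0 (chkN2 chk33_7 chk33_8) chk33_9))) (chkN0 chk33_10 (chkN3 (chkN0 chk33_11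
    chk33_12) chk33_13))) chk33_14) chk33_15))))

end Run7.h761
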