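import Pool.Agent.Run7.h761.Face4
import Pool.Agent.Run7.h761.TrA
import Pool.Agent.Run7.h761.TrB
import Pool.Agent.Run7.h761.TrC
import Pool.Agent.Run7.h761.TrD

/-! The sharpened inequality for one cell with exterior chains. -/

set_option autoImplicit false

namespace Run7.h761

open Finset

section

variable {z : ℕ → ℂ} {t : ℕ → ℕ} {n : ℕ}

theorem case1 (h : Cut z t n) (hα : 3 ≤ ka * (par (t n) z / 2))
    (hℓ : ∀ i < n, clen z (t i) (t (i + 1)) ≤ 3.039) {p i1 : ℕ} (hi : i1 < n) (hp : n = p + 2)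
    {T : ℤ} {tr : Tr}
    (hc : chk ⟨1, p, 1, 1035, T⟩ tr ⟨0, 3040, 0, 0, 0, 0, -8000, 1000, -1700, 1700⟩ = true)
    (hX1 : -8 ≤ ka * ∑ i ∈ range n \ {i1}, carea z (t i) (t (i + 1)))
    (hX2 : ka * ∑ i ∈ range n \ {i1}, carea z (t i) (t (i + 1)) ≤ 1) :
    1.035 * ∑ i ∈ {i1}, ‖z (t (i + 1)) - z (t i)‖ + (T : ℝ) / 1000 ≤
      ∑ i ∈ range n \ {i1}, clen z (t i) (t (i + 1)) + 2 * ∑ i ∈ {i1}, clen z (t i) (t (i + 1)) +
      ka * ∑ i ∈ range n \ {i1}, carea z (t i) (t (i + 1)) := by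
  have hJ : ({i1} : Finset ℕ) ⊆ range n := by simpa using hi
  obtain ⟨b, -⟩ := bas h hα hℓ hJ
  have hc0 : 0 ≤ ‖z (t (i1 + 1)) - z (t i1)‖ := norm_nonneg _
  have hcl : ‖z (t (i1 + 1)) - z (t i1)‖ ≤ 3.039 :=
    (chord_le_clen z (h.mono i1 hi)).trans (hℓ i1 hi)
  have hDlo := b.Dlo
  have hDhi := b.Dhi
  rw [Finset.card_singleton] at hDlo hDhi
  norm_num at hDlo hDhi
  have key := chk_sound (hy1 h hα hℓ hi hp 1035 T) tr _ hc (by
    unfold InB
    refine ⟨⟨?_, ?_⟩, ⟨?_, ?_⟩, ⟨?_, ?_⟩, ⟨?_, ?_⟩, ?_, ?_⟩ <;> norm_num <;> linarith)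
  rw [Finset.sum_singleton (f := fun i => ‖z (t (i + 1)) - z (t i)‖)]
  push_cast at key
  linarith

theorem case2 (h : Cut z t n) (hα : 3 ≤ ka * (par (t n) z / 2))
    (hℓ : ∀ i < n, clen z (t i) (t (i + 1)) ≤ 3.039) {J : Finset ℕ} (hJ : J ⊆ range n) {p : ℕ}
    (hJ2 : J.card = 2) (hp : n = p + 3) {T : ℤ} {tr : Tr}
    (hc : chk ⟨2, p, 2, 1035, T⟩ tr ⟨0, 3040, 0, 9250, 0, 0, -8000, 1000, -3400, 3400⟩ = true)
    (hX1 : -8 ≤ ka * ∑ i ∈ range n \ J, carea z (t i) (t (i + 1)))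
    (hX2 : ka * ∑ i ∈ range n \ J, carea z (t i) (t (i + 1)) ≤ 1) :
    1.035 * ∑ i ∈ J, ‖z (t (i + 1)) - z (t i)‖ + (T : ℝ) / 1000 ≤
      ∑ i ∈ range n \ J, clen z (t i) (t (i + 1)) + 2 * ∑ i ∈ J, clen z (t i) (t (i + 1)) +
      ka * ∑ i ∈ range n \ J, carea z (t i) (t (i + 1)) := by
  obtain ⟨b, -⟩ := bas h hα hℓ hJ
  obtain ⟨i1, i2, hL⟩ : ∃ i1 i2, LJ n J = [i1, i2] :=
    List.length_eq_two.1 ((LJ_length hJ).trans hJ2)
  have hi1 : i1 < n := LJ_mem (J := J) (by rw [hL]; simp)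
  have hi2 : i2 < n := LJ_mem (J := J) (by rw [hL]; simp)
  have hs2 : ∑ i ∈ J, ‖z (t (i + 1)) - z (t i)‖ =
      ‖z (t (i1 + 1)) - z (t i1)‖ + ‖z (t (i2 + 1)) - z (t i2)‖ := by
    rw [← LJ_sum hJ (fun i => ‖z (t (i + 1)) - z (t i)‖), hL]
    simp
  have hDlo := b.Dlo
  have hDhi := b.Dhi
  rw [hJ2] at hDlo hDhi
  norm_num at hDlo hDhi
  have key := chk_sound (hy2 h hα hℓ hJ hL hp 1035 T) tr _ hc (by
    have hc10 : 0 ≤ ‖z (t (i1 + 1)) - z (t i1)‖ := norm_nonneg _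
    have hc20 : 0 ≤ ‖z (t (i2 + 1)) - z (t i2)‖ := norm_nonneg _
    have hcl1 : ‖z (t (i1 + 1)) - z (t i1)‖ ≤ 3.039 :=
      (chord_le_clen z (h.mono i1 hi1)).trans (hℓ i1 hi1)
    have hcl2 : ‖z (t (i2 + 1)) - z (t i2)‖ ≤ 3.039 :=
      (chord_le_clen z (h.mono i2 hi2)).trans (hℓ i2 hi2)
    have hu0 := sq_nonneg (‖z (t (i1 + 1)) - z (t i1)‖ - ‖z (t (i2 + 1)) - z (t i2)‖)
    have hu : (‖z (t (i1 + 1)) - z (t i1)‖ - ‖z (t (i2 + 1)) - z (t i2)‖) ^ 2 ≤ 9.25 := by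
      have h1 : |‖z (t (i1 + 1)) - z (t i1)‖ - ‖z (t (i2 + 1)) - z (t i2)‖| ≤ 3.039 := by
        rw [abs_le]; constructor <;> linarith
      have h2 := sq_abs (‖z (t (i1 + 1)) - z (t i1)‖ - ‖z (t (i2 + 1)) - z (t i2)‖)
      have h3 := pow_le_pow_left₀ (abs_nonneg _) h1 2
      norm_num at h3
      linarith
    unfold InB
    refine ⟨⟨?_, ?_⟩, ⟨?_, ?_⟩, ⟨?_, ?_⟩, ⟨?_, ?_⟩, ?_, ?_⟩ <;> norm_num <;> linarith)
  rw [hs2]
  push_cast at key
  linarith

theorem case3 (h : Cut z t n) (hα : 3 ≤ ka * (par (t n) z / 2))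
    (hℓ : ∀ i < n, clen z (t i) (t (i + 1)) ≤ 3.039) {J : Finset ℕ} (hJ : J ⊆ range n) {p : ℕ}
    (hJ3 : J.card = 3) (hp : n = p + 4) {T : ℤ} {tr : Tr}
    (hc : chk ⟨3, p, 2, 1035, T⟩ tr ⟨0, 3040, 0, 9250, 0, 3040, -8000, 1000, -5100, 5100⟩ = true)
    (hX1 : -8 ≤ ka * ∑ i ∈ range n \ J, carea z (t i) (t (i + 1)))
    (hX2 : ka * ∑ i ∈ range n \ J, carea z (t i) (t (i + 1)) ≤ 1) :
    1.035 * ∑ i ∈ J, ‖z (t (i + 1)) - z (t i)‖ + (T : ℝ) / 1000 ≤
      ∑ i ∈ range n \ J, clen z (t i) (t (i + 1)) + 2 * ∑ i ∈ J, clen z (t i) (t (i + 1)) +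
      ka * ∑ i ∈ range n \ J, carea z (t i) (t (i + 1)) := by
  obtain ⟨b, -⟩ := bas h hα hℓ hJ
  obtain ⟨i1, i2, i3, hL⟩ : ∃ i1 i2 i3, LJ n J = [i1, i2, i3] :=
    List.length_eq_three.1 ((LJ_length hJ).trans hJ3)
  have hi1 : i1 < n := LJ_mem (J := J) (by rw [hL]; simp)
  have hi2 : i2 < n := LJ_mem (J := J) (by rw [hL]; simp)
  have hi3 : i3 < n := LJ_mem (J := J) (by rw [hL]; simp)
  have hs3 : ∑ i ∈ J, ‖z (t (i + 1)) - z (t i)‖ =
      ‖z (t (i1 + 1)) - z (t i1)‖ + ‖z (t (i2 + 1)) - z (t i2)‖ + ‖z (t (i3 + 1)) - z (t i3)‖ := by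
    rw [← LJ_sum hJ (fun i => ‖z (t (i + 1)) - z (t i)‖), hL]
    simp [add_assoc]
  have hDlo := b.Dlo
  have hDhi := b.Dhi
  rw [hJ3] at hDlo hDhi
  norm_num at hDlo hDhi
  have key := chk_sound (hy3 h hα hℓ hJ hL hp 1035 T) tr _ hc (by
    have hc10 : 0 ≤ ‖z (t (i1 + 1)) - z (t i1)‖ := norm_nonneg _
    have hc20 : 0 ≤ ‖z (t (i2 + 1)) - z (t i2)‖ := norm_nonneg _
    have hc30 : 0 ≤ ‖z (t (i3 + 1)) - z (t i3)‖ := norm_nonneg _
    have hcl1 : ‖z (t (i1 + 1)) - z (t i1)‖ ≤ 3.039 :=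
      (chord_le_clen z (h.mono i1 hi1)).trans (hℓ i1 hi1)
    have hcl2 : ‖z (t (i2 + 1)) - z (t i2)‖ ≤ 3.039 :=
      (chord_le_clen z (h.mono i2 hi2)).trans (hℓ i2 hi2)
    have hcl3 : ‖z (t (i3 + 1)) - z (t i3)‖ ≤ 3.039 :=
      (chord_le_clen z (h.mono i3 hi3)).trans (hℓ i3 hi3)
    have hu0 := sq_nonneg (‖z (t (i1 + 1)) - z (t i1)‖ - ‖z (t (i2 + 1)) - z (t i2)‖)
    have hu : (‖z (t (i1 + 1)) - z (t i1)‖ - ‖z (t (i2 + 1)) - z (t i2)‖) ^ 2 ≤ 9.25 := by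
      have h1 : |‖z (t (i1 + 1)) - z (t i1)‖ - ‖z (t (i2 + 1)) - z (t i2)‖| ≤ 3.039 := by
        rw [abs_le]; constructor <;> linarith
      have h2 := sq_abs (‖z (t (i1 + 1)) - z (t i1)‖ - ‖z (t (i2 + 1)) - z (t i2)‖)
      have h3 := pow_le_pow_left₀ (abs_nonneg _) h1 2
      norm_num at h3
      linarith
    unfold InB
    refine ⟨⟨?_, ?_⟩, ⟨?_, ?_⟩, ⟨?_, ?_⟩, ⟨?_, ?_⟩, ?_, ?_⟩ <;> norm_num <;> linarith)
  rw [hs3]
  push_cast at key
  linarith

/-- the normalised inequality for one cell -/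
theorem face_norm (h : Cut z t n) (hα : 3 ≤ ka * (par (t n) z / 2))
    (hℓ : ∀ i < n, clen z (t i) (t (i + 1)) ≤ 3.039) {J : Finset ℕ} (hJ : J ⊆ range n)
    (hJ1 : 1 ≤ J.card) (hJn : 2 * J.card ≤ n) :
    1.035 * ∑ i ∈ J, ‖z (t (i + 1)) - z (t i)‖ + (6 - 0.113 * ((n : ℝ) + J.card - 6)) ≤
      ∑ i ∈ range n \ J, clen z (t i) (t (i + 1)) + 2 * ∑ i ∈ J, clen z (t i) (t (i + 1)) +
      ka * ∑ i ∈ range n \ J, carea z (t i) (t (i + 1)) := by
  obtain ⟨b, hB⟩ := bas h hα hℓ hJ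
  set X := ka * ∑ i ∈ range n \ J, carea z (t i) (t (i + 1)) with hX
  have hj1 : (1 : ℝ) ≤ J.card := by exact_mod_cast hJ1
  have hjn : 2 * (J.card : ℝ) ≤ n := by exact_mod_cast hJn
  have e : (n : ℝ) + J.card - 6 = ((n : ℝ) - J.card) + 2 * J.card - 6 := by ring
  rw [e]
  rcases Nat.lt_or_ge (n + J.card) 11 with h11 | h11
  swap
  · have h11' : (11 : ℝ) ≤ (n : ℝ) + J.card := by exact_mod_cast h11
    exact b.crude (by linarith)
  rcases le_or_gt 1 X with hX1 | hX1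
  · exact b.bigX hj1 (by linarith) hX1
  rcases Nat.lt_or_ge n 3 with hn3 | hn3
  · exfalso
    have hn2 : n = 2 := by omega
    have hj : J.card = 1 := by omega
    subst hn2
    have h1 := parea_two h
    have h2 := b.Dhi
    rw [h1, mul_zero] at hB
    rw [hj] at h2
    norm_num at h2
    linarith
  rcases le_or_gt X (-8) with hX8 | hX8
  · refine b.negX hj1 ?_ hX8
    have h2 : 2 + J.card ≤ n := by omega
    have h3 : (2 : ℝ) + J.card ≤ n := by exact_mod_cast h2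
    linarith
  rw [← e]
  have hcases : J.card = 1 ∨ J.card = 2 ∨ J.card = 3 := by omega
  rcases hcases with hj | hj | hj
  · obtain ⟨i1, rfl⟩ := Finset.card_eq_one.1 hj
    have hi : i1 < n := by simpa using hJ
    have hn : n = 3 ∨ n = 4 ∨ n = 5 ∨ n = 6 ∨ n = 7 ∨ n = 8 ∨ n = 9 := by omega
    have hX1' := hX1.le
    have hX8' := hX8.le
    rw [hX] at hX1' hX8' ⊢
    rcases hn with rfl | rfl | rfl | rfl | rfl | rfl | rfl
    · have := case1 h hα hℓ hi (p := 1) rfl chk21 hX8' hX1'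
      refine le_trans (le_of_eq ?_) this
      rw [Finset.card_singleton]; norm_num
    · have := case1 h hα hℓ hi (p := 2) rfl chk31 hX8' hX1'
      refine le_trans (le_of_eq ?_) this
      rw [Finset.card_singleton]; norm_num
    · have := case1 h hα hℓ hi (p := 3) rfl chk41 hX8' hX1'
      refine le_trans (le_of_eq ?_) this
      rw [Finset.card_singleton]; norm_num
    · have := case1 h hα hℓ hi (p := 4) rfl chk51 hX8' hX1'
      refine le_trans (le_of_eq ?_) this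
      rw [Finset.card_singleton]; norm_num
    · have := case1 h hα hℓ hi (p := 5) rfl chk61 hX8' hX1'
      refine le_trans (le_of_eq ?_) this
      rw [Finset.card_singleton]; norm_num
    · have := case1 h hα hℓ hi (p := 6) rfl chk71 hX8' hX1'
      refine le_trans (le_of_eq ?_) this
      rw [Finset.card_singleton]; norm_num
    · have := case1 h hα hℓ hi (p := 7) rfl chk81 hX8' hX1'
      refine le_trans (le_of_eq ?_) this
      rw [Finset.card_singleton]; norm_num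
  · have hn : n = 4 ∨ n = 5 ∨ n = 6 ∨ n = 7 ∨ n = 8 := by omega
    have hX1' := hX1.le
    have hX8' := hX8.le
    rw [hX] at hX1' hX8' ⊢
    rcases hn with rfl | rfl | rfl | rfl | rfl
    · have := case2 h hα hℓ hJ (p := 1) hj rfl chk22 hX8' hX1'
      refine le_trans (le_of_eq ?_) this
      rw [hj]; norm_num
    · have := case2 h hα hℓ hJ (p := 2) hj rfl chk32 hX8' hX1'
      refine le_trans (le_of_eq ?_) this
      rw [hj]; norm_num
    · have := case2 h hα hℓ hJ (p := 3) hj rfl chk42 hX8' hX1'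
      refine le_trans (le_of_eq ?_) this
      rw [hj]; norm_num
    · have := case2 h hα hℓ hJ (p := 4) hj rfl chk52 hX8' hX1'
      refine le_trans (le_of_eq ?_) this
      rw [hj]; norm_num
    · have := case2 h hα hℓ hJ (p := 5) hj rfl chk62 hX8' hX1'
      refine le_trans (le_of_eq ?_) this
      rw [hj]; norm_num
  · have hn : n = 6 ∨ n = 7 := by omega
    have hX1' := hX1.le
    have hX8' := hX8.le
    rw [hX] at hX1' hX8' ⊢
    rcases hn with rfl | rfl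
    · have := case3 h hα hℓ hJ (p := 2) hj rfl chk33 hX8' hX1'
      refine le_trans (le_of_eq ?_) this
      rw [hj]; norm_num
    · have := case3 h hα hℓ hJ (p := 3) hj rfl chk43 hX8' hX1'
      refine le_trans (le_of_eq ?_) this
      rw [hj]; norm_num

/-- **The inequality for one cell**, sharpened. -/
theorem face_ineq2 (h : Cut z t n) (hn : 2 ≤ n) {m : ℝ}
    (hm0 : 0 < m) (hm3 : m ≤ 3) (hα : m ≤ ka * (par (t n) z / 2))
    (hℓ : ∀ i < n, clen z (t i) (t (i + 1)) ≤ 1.013 * m) {J : Finset ℕ} (hJ : J ⊆ range n)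
    (hJn : 2 * J.card ≤ n) :
    2 * m + 1.035 * ∑ i ∈ J, ‖z (t (i + 1)) - z (t i)‖ ≤
      tlen z t n + ka * ∑ i ∈ range n \ J, carea z (t i) (t (i + 1)) +
        ∑ i ∈ J, (clen z (t i) (t (i + 1)) + 0.113) + 0.113 * ((n : ℝ) - 6) := by
  have hka := ka_pos
  rcases Nat.eq_zero_or_pos J.card with hz | hpos
  · rw [Finset.card_eq_zero] at hz
    subst hz
    have hex := hex_ineq h hn hm0 hm3 hα hℓ
    have hsl0 : 0 ≤ sl n := by
      unfold sl
      split_ifs <;> norm_num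
    simp only [Finset.sum_empty, mul_zero, add_zero, Finset.sdiff_empty]
    unfold xsum at hex
    linarith
  have hsum : ∑ i ∈ J, (clen z (t i) (t (i + 1)) + 0.113) =
      ∑ i ∈ J, clen z (t i) (t (i + 1)) + 0.113 * J.card := by
    rw [Finset.sum_add_distrib, Finset.sum_const, nsmul_eq_mul]; ring
  have htl : tlen z t n = ∑ i ∈ range n \ J, clen z (t i) (t (i + 1)) +
      ∑ i ∈ J, clen z (t i) (t (i + 1)) := by
    rw [Finset.sum_sdiff hJ]; rfl
  rw [hsum, htl]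
  set α := ka * (par (t n) z / 2) with hαd
  rcases le_or_gt 3 α with h3 | h3
  · have := face_norm h h3 (fun i hi => (hℓ i hi).trans (by linarith)) hJ hpos hJn
    linarith
  · have hα0 : 0 < α := by linarith
    set σ := Real.sqrt (α / 3) with hσ
    have hσ0 : 0 < σ := Real.sqrt_pos.2 (by positivity)
    have hσ2 : 3 * σ ^ 2 = α := by
      rw [hσ, Real.sq_sqrt (by positivity)]; ring
    have hσ1 : σ < 1 := by nlinarith
    set r := σ⁻¹ with hr
    have hr0 : 0 < r := inv_pos.2 hσ0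
    have hrσ : r * σ = 1 := inv_mul_cancel₀ hσ0.ne'
    set zs : ℕ → ℂ := fun k => (r : ℂ) * z k with hzs
    have hcut : Cut zs t n := ⟨h.zero, h.mono, by simp only [hzs]; rw [h.closed]⟩
    have hN := face_norm hcut (by
        rw [hzs, par_scale]
        have : ka * (r ^ 2 * par (t n) z / 2) = r ^ 2 * α := by rw [hαd]; ring
        rw [this, ← hσ2]
        have : r ^ 2 * (3 * σ ^ 2) = 3 * (r * σ) ^ 2 := by ring
        rw [this, hrσ]; norm_num)
      (fun i hi => by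
        rw [hzs, clen_scale r hr0.le]
        have h1 : clen z (t i) (t (i + 1)) ≤ 1.013 * (3 * σ ^ 2) := by
          rw [hσ2]; exact (hℓ i hi).trans (by linarith)
        calc r * clen z (t i) (t (i + 1)) ≤ r * (1.013 * (3 * σ ^ 2)) :=
              mul_le_mul_of_nonneg_left h1 hr0.le
          _ = 3.039 * σ * (r * σ) := by ring
          _ ≤ 3.039 := by rw [hrσ]; linarith) hJ hpos hJn
    have e1 : ∑ i ∈ range n \ J, clen zs (t i) (t (i + 1)) =
        r * ∑ i ∈ range n \ J, clen z (t i) (t (i + 1)) := by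
      rw [Finset.mul_sum]
      exact Finset.sum_congr rfl fun i _ => clen_scale r hr0.le _ _ _
    have e2 : ∑ i ∈ J, clen zs (t i) (t (i + 1)) = r * ∑ i ∈ J, clen z (t i) (t (i + 1)) := by
      rw [Finset.mul_sum]
      exact Finset.sum_congr rfl fun i _ => clen_scale r hr0.le _ _ _
    have e3 : ∑ i ∈ range n \ J, carea zs (t i) (t (i + 1)) =
        r ^ 2 * ∑ i ∈ range n \ J, carea z (t i) (t (i + 1)) := by
      rw [Finset.mul_sum]
      exact Finset.sum_congr rfl fun i _ => carea_scale r _ _ _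
    have e4 : ∑ i ∈ J, ‖zs (t (i + 1)) - zs (t i)‖ = r * ∑ i ∈ J, ‖z (t (i + 1)) - z (t i)‖ := by
      rw [Finset.mul_sum]
      refine Finset.sum_congr rfl fun i _ => ?_
      rw [hzs, ← mul_sub, norm_mul, Complex.norm_real, Real.norm_of_nonneg hr0.le]
    rw [e1, e2, e3, e4] at hN
    set L := ∑ i ∈ range n \ J, clen z (t i) (t (i + 1)) with hL
    set ℓ := ∑ i ∈ J, clen z (t i) (t (i + 1)) with hℓd
    set C := ∑ i ∈ J, ‖z (t (i + 1)) - z (t i)‖ with hC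
    set X := ka * ∑ i ∈ range n \ J, carea z (t i) (t (i + 1)) with hX
    have hXX : ka * (r ^ 2 * ∑ i ∈ range n \ J, carea z (t i) (t (i + 1))) = r ^ 2 * X := by
      rw [hX]; ring
    rw [hXX] at hN
    have hL0 : 0 ≤ L := Finset.sum_nonneg fun i _ => clen_nonneg _ _ _
    have hC0 : 0 ≤ C := Finset.sum_nonneg fun i _ => norm_nonneg _
    have hCl : C ≤ ℓ := Finset.sum_le_sum fun i hi =>
      chord_le_clen z (h.mono i (Finset.mem_range.1 (hJ hi)))
    -- lower bound for the whole length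
    have hiso : 10.882 * α ≤ (L + ℓ) ^ 2 := by
      have a := iso_ka h
      have b : α = ka * parea z t n + ka * ∑ i ∈ range n, carea z (t i) (t (i + 1)) := by
        rw [hαd, par_eq h]; ring
      have c : ka * ∑ i ∈ range n, carea z (t i) (t (i + 1)) ≤
          ka * ∑ i ∈ range n, |carea z (t i) (t (i + 1))| :=
        mul_le_mul_of_nonneg_left (Finset.sum_le_sum fun _ _ => le_abs_self _) ka_pos.le
      have d := le_abs_self (ka * parea z t n)
      rw [htl] at a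
      linarith
    have hlen : 5.713 * σ ≤ L + ℓ := by
      have h1 : (5.713 * σ) ^ 2 ≤ (L + ℓ) ^ 2 := by
        refine le_trans ?_ hiso
        rw [← hσ2]
        nlinarith [sq_nonneg σ]
      exact abs_le_of_sq_le_sq' h1 (by linarith) |>.2
    have hLn : L + ℓ ≤ 1.013 * α * n := by
      rw [← htl]
      unfold tlen
      refine (Finset.sum_le_card_nsmul _ _ (1.013 * α) fun i hi =>
        (hℓ i (Finset.mem_range.1 hi)).trans (by linarith)).trans ?_
      rw [Finset.card_range, nsmul_eq_mul]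
      linarith
    have hσn : 1.879 ≤ σ * n := by
      rw [← hσ2] at hLn
      have h1 : 5.713 * σ ≤ 3.039 * (σ * n) * σ := by
        refine (hlen.trans hLn).trans (le_of_eq ?_)
        ring
      have h2 := le_of_mul_le_mul_right h1 hσ0
      linarith
    have hP : 0 ≤ (L + 2 * ℓ - 1.035 * C) + 0.113 * ((n : ℝ) + J.card - 6) * (1 + σ) := by
      have hj1 : (1 : ℝ) ≤ J.card := by exact_mod_cast hpos
      have h1 : 5.513 * σ ≤ L + 2 * ℓ - 1.035 * C := by linarith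
      rcases Nat.lt_or_ge (n + J.card) 6 with h6 | h6
      · have hj : J.card = 1 := by omega
        have hn' : n = 2 ∨ n = 3 ∨ n = 4 := by omega
        rw [hj]
        rcases hn' with rfl | rfl | rfl <;> norm_num at hσn ⊢ <;> nlinarith
      · have h6' : (6 : ℝ) ≤ (n : ℝ) + J.card := by exact_mod_cast h6
        have h2 : 0 ≤ 0.113 * ((n : ℝ) + J.card - 6) * (1 + σ) :=
          mul_nonneg (by linarith) (by linarith)
        linarith
    -- multiply the normalised inequality by `σ ^ 2`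
    have hM : 6 * σ ^ 2 ≤ σ * (L + 2 * ℓ - 1.035 * C) + X +
        0.113 * ((n : ℝ) + J.card - 6) * σ ^ 2 := by
      have h1 := mul_le_mul_of_nonneg_left hN (sq_nonneg σ)
      have e5 : σ ^ 2 * (1.035 * (r * C) + (6 - 0.113 * ((n : ℝ) + J.card - 6))) =
          (r * σ) * σ * (1.035 * C) + σ ^ 2 * (6 - 0.113 * ((n : ℝ) + J.card - 6)) := by ring
      have e6 : σ ^ 2 * (r * L + 2 * (r * ℓ) + r ^ 2 * X) =
          (r * σ) * σ * (L + 2 * ℓ) + (r * σ) ^ 2 * X := by ring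
      rw [e5, e6, hrσ] at h1
      linarith
    have hQ := mul_nonneg (sub_nonneg.2 hσ1.le) hP
    nlinarith

end

end Run7.h761
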