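import Pool.Agent.Run7.h761.Checks

/-! The family of clusters: rounded hexagons of regular hexagons with modified boundary layers. -/

set_option autoImplicit false

namespace Run7.h761

open scoped Classical

/-- size of the 24-gon -/
def mu : Fin 4 → ℤ := ![30, 56, 85, 85]

/-- facets: pattern and rotation -/
abbrev Facet := Fin 4 × Fin 6

/-- rotation of covectors -/
def crot (n : V) : V := (n.1 - n.2, n.1)

/-- covector of a facet -/
def covf (f : Facet) : V := crot^[f.2.val] (cov f.1)

/-- height of a lattice point in the direction of a facet -/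
def hf (f : Facet) (p : V) : ℤ := (covf f).1 * p.1 + (covf f).2 * p.2

theorem hf_rotn (c : Fin 4) (s : Fin 6) (q : V) : hf (c, s) (rotn s q) = hc c q := by
  unfold hf hc covf rotn
  simp only
  generalize s.val = n
  induction n generalizing q with
  | zero => rfl
  | succ n ih =>
    rw [Function.iterate_succ_apply', Function.iterate_succ_apply']
    rw [← ih]
    unfold crot rot
    ring

theorem hf_add (f : Facet) (p q : V) : hf f (p + q) = hf f p + hf f q := by
  unfold hf; simp only [Prod.fst_add, Prod.snd_add]; ring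

theorem hf_dir_le (f : Facet) (j : Fin 6) : |hf f (dir j)| ≤ 3 := by
  revert f j; decide

theorem hf_dir_le' (f : Facet) (j : Fin 6) : |hf f (dir j)| ≤ Mx f.1 := by
  revert f j; decide

theorem Mx_le (c : Fin 4) : Mx c ≤ 8 := by revert c; decide

/-- depth below a facet -/
def dep (k : ℤ) (f : Facet) (p : V) : ℤ := mu f.1 * k - hf f p

theorem dep_add (k : ℤ) (f : Facet) (p q : V) : dep k f (p + q) = dep k f p - hf f q := by
  unfold dep; rw [hf_add]; ring

/-- the occupied positions -/
def Occ (k : ℤ) (p : V) : Prop :=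
  (∀ f, 0 ≤ dep k f p) ∧ ∀ f : Facet, (Mx f.1 : ℤ) ≤ dep k f p ∨ ∀ g, g ≠ f → 12 ≤ dep k g p

/-- the occupied positions as a finite set -/
noncomputable def occK (k : ℤ) : Finset V :=
  (Finset.Icc (-(30 * k)) (30 * k) ×ˢ Finset.Icc (-(30 * k)) (30 * k)).filter (Occ k)

theorem mem_occK {k : ℤ} {p : V} : p ∈ occK k ↔ Occ k p := by
  unfold occK
  rw [Finset.mem_filter]
  constructor
  · exact fun h => h.2
  · intro h
    refine ⟨?_, h⟩
    have h1 := h.1 (0, 1)
    have h4 := h.1 (0, 4)
    have h2 := h.1 (0, 2)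
    have h5 := h.1 (0, 5)
    unfold dep hf at *
    have c1 : covf (0, 1) = (0, 1) := by decide
    have c4 : covf (0, 4) = (0, -1) := by decide
    have c2 : covf (0, 2) = (-1, 0) := by decide
    have c5 : covf (0, 5) = (1, 0) := by decide
    have m : mu 0 = 30 := rfl
    simp only [c1, c2, c4, c5, m] at h1 h2 h4 h5
    rw [Finset.mem_product, Finset.mem_Icc, Finset.mem_Icc]
    omega

/-- the polygon at a position -/
noncomputable def place (k : ℤ) (p : V) : Poly :=
  if h : ∃ f : Facet, dep k f p < Mx f.1 then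
    trg (mv h.choose.2 p) h.choose.2 (sh h.choose.1 (dep k h.choose p).toNat)
  else trg (mv 0 p) 0 hexP

theorem Occ.unique {k : ℤ} {p : V} (hp : Occ k p) {f : Facet} (hf : dep k f p < Mx f.1) :
    ∀ g, g ≠ f → 12 ≤ dep k g p := by
  rcases hp.2 f with h | h
  · omega
  · exact h

theorem place_layer {k : ℤ} {p : V} (hp : Occ k p) {f : Facet} (hf : dep k f p < Mx f.1) :
    place k p = trg (mv f.2 p) f.2 (sh f.1 (dep k f p).toNat) := by
  have h : ∃ f : Facet, dep k f p < Mx f.1 := ⟨f, hf⟩
  unfold place
  rw [dif_pos h]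
  have h1 : h.choose = f := by
    by_contra hne
    have h2 := hp.unique hf _ hne
    have h3 := h.choose_spec
    have h4 := Mx_le h.choose.1
    omega
  rw [h1]

theorem place_bulk {k : ℤ} {p : V} (h : ∀ f : Facet, (Mx f.1 : ℤ) ≤ dep k f p) :
    place k p = trg (mv 0 p) 0 hexP := by
  unfold place
  rw [dif_neg]
  push Not
  exact h

theorem transfer {P P' : Poly} {k : Fin 6} (h : compatB P k P' = true) (s : Fin 6) (p : V) :
    sepP (trg (mv s p) s P) (trg (mv s (p + rotn s (dir k))) s P') = true ∧
      Matched (trg (mv s p) s P) (k + s) (trg (mv s (p + rotn s (dir k))) s P') := by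
  unfold compatB at h
  rw [Bool.and_eq_true, decide_eq_true_eq] at h
  rw [trg_trl]
  exact ⟨by rw [sepP_trg (good_mv s p)]; exact h.1, matched_trg _ _ h.2⟩

theorem chkRow_all (c : Fin 4) {H : ℕ} (hH : H < Mx c) : chkRow c H = true := by
  fin_cases c
  · have : H = 0 := by simp [Mx] at hH; omega
    subst this; exact chkRow0
  · exact chkRow1 H (by simpa [Mx] using hH)
  · exact chkRow2 H (by simpa [Mx] using hH)
  · exact chkRow3 H (by simpa [Mx] using hH)

theorem chkRow'_all (c : Fin 4) {H : ℕ} (hH : H < Mx c) : chkRow' c H = true := by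
  fin_cases c
  · have : H = 0 := by simp [Mx] at hH; omega
    subst this; exact chkRow'0
  · exact chkRow'1 H (by simpa [Mx] using hH)
  · exact chkRow'2 H (by simpa [Mx] using hH)
  · exact chkRow'3 H (by simpa [Mx] using hH)

theorem row_spec (c : Fin 4) {H : ℕ} (hH : H < Mx c) (k : Fin 6) :
    ((H : ℤ) - hc c (dir k) < 0 → slot (sh c H) k = []) ∧
    (0 ≤ (H : ℤ) - hc c (dir k) → (H : ℤ) - hc c (dir k) < Mx c →
      compatB (sh c H) k (sh c ((H : ℤ) - hc c (dir k)).toNat) = true) ∧
    ((Mx c : ℤ) ≤ (H : ℤ) - hc c (dir k) → ∀ j, compatB (sh c H) k (hexV j) = true) := by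
  have h := List.all_eq_true.1 (chkRow_all c hH) k (List.mem_finRange k)
  refine ⟨?_, ?_, ?_⟩
  · intro h1
    simp only [h1, if_true, decide_eq_true_eq] at h
    exact h
  · intro h1 h2
    have h1' : ¬ ((H : ℤ) - hc c (dir k) < 0) := by omega
    simp only [h1', h2, if_true, if_false] at h
    exact h
  · intro h1 j
    have h1' : ¬ ((H : ℤ) - hc c (dir k) < 0) := by
      have : (0 : ℤ) ≤ Mx c := by positivity
      omega
    have h2' : ¬ ((H : ℤ) - hc c (dir k) < Mx c) := by omega
    simp only [h1', h2', if_false] at h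
    exact List.all_eq_true.1 h j (List.mem_finRange j)

theorem row_spec' (c : Fin 4) {H : ℕ} (hH : H < Mx c) (k : Fin 6)
    (h1 : (Mx c : ℤ) ≤ (H : ℤ) + hc c (dir k)) (j : Fin 6) :
    compatB (hexV j) k (sh c H) = true := by
  have h := List.all_eq_true.1 (chkRow'_all c hH) k (List.mem_finRange k)
  simp only [h1, if_true] at h
  exact List.all_eq_true.1 h j (List.mem_finRange j)

theorem hexV_zero : hexV 0 = hexP := by decide +kernel

theorem hex_as (s : Fin 6) (p : V) :
    trg (mv 0 p) 0 hexP = trg (mv s p) s (hexV (-s)) := by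
  unfold hexV
  rw [trg_trg_neg]

/-- neighbours are compatible -/
theorem place_adj {k : ℤ} {p : V} {j : Fin 6} (hp : Occ k p) (hp' : Occ k (p + dir j)) :
    sepP (place k p) (place k (p + dir j)) = true ∧
      Matched (place k p) j (place k (p + dir j)) := by
  have hd : ∀ s : Fin 6, dir j = rotn s (dir (j - s)) := by
    intro s; rw [← dir_add, sub_add_cancel]
  have hdep : ∀ f : Facet, dep k f (p + dir j) = dep k f p - hc f.1 (dir (j - f.2)) := by
    intro f
    rw [dep_add, hd f.2, ← hf_rotn f.1 f.2]
  by_cases h1 : ∃ f : Facet, dep k f p < Mx f.1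
  · obtain ⟨f, hf⟩ := h1
    have hu := hp.unique hf
    have h0 := hp.1 f
    obtain ⟨H, hH⟩ := Int.eq_ofNat_of_zero_le h0
    have hHM : H < Mx f.1 := by omega
    have e1 : place k p = trg (mv f.2 p) f.2 (sh f.1 H) := by
      rw [place_layer hp hf, hH]; rfl
    have hrow := row_spec f.1 hHM (j - f.2)
    have hd' := hdep f
    rw [hH] at hd'
    change dep k f (p + dir j) = (H : ℤ) - hc f.1 (dir (j - f.2)) at hd'
    by_cases h2 : dep k f (p + dir j) < Mx f.1
    · have e2 := place_layer hp' h2
      rw [hd'] at e2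
      have h3 := hp'.1 f
      have h4 := hrow.2.1 (by rw [← hd']; exact h3) (by rw [← hd']; exact h2)
      have h5 := transfer h4 f.2 p
      rw [← hd f.2, sub_add_cancel] at h5
      rw [e1, e2]
      exact h5
    · push Not at h2
      have h3 := hrow.2.2 (by rw [← hd']; exact h2) (-f.2)
      have e2 : place k (p + dir j) = trg (mv f.2 (p + dir j)) f.2 (hexV (-f.2)) := by
        rw [← hex_as]
        apply place_bulk
        intro g
        by_cases hg : g = f
        · rw [hg]; exact h2
        · have h6 := hu g hg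
          have h7 := dep_add k g p (dir j)
          have h8 := hf_dir_le g j
          have h9 := Mx_le g.1
          rw [abs_le] at h8
          omega
      have h5 := transfer h3 f.2 p
      rw [← hd f.2, sub_add_cancel] at h5
      rw [e1, e2]
      exact h5
  · push Not at h1
    have e1 := place_bulk h1
    by_cases h2 : ∃ f : Facet, dep k f (p + dir j) < Mx f.1
    · obtain ⟨f, hf⟩ := h2
      have h0 := hp'.1 f
      obtain ⟨H, hH⟩ := Int.eq_ofNat_of_zero_le h0
      have hHM : H < Mx f.1 := by omega
      have e2 : place k (p + dir j) = trg (mv f.2 (p + dir j)) f.2 (sh f.1 H) := by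
        rw [place_layer hp' hf, hH]; rfl
      have hd' := hdep f
      rw [hH] at hd'
      have h3 := row_spec' f.1 hHM (j - f.2) (by
        have := h1 f
        change (Mx f.1 : ℤ) ≤ (H : ℤ) + hc f.1 (dir (j - f.2))
        change (H : ℤ) = _ at hd'
        omega) (-f.2)
      have h5 := transfer h3 f.2 p
      rw [← hd f.2, sub_add_cancel] at h5
      rw [e1, e2, hex_as f.2 p]
      exact h5
    · push Not at h2
      have e2 := place_bulk h2
      have h3 := transfer (chkHex j) 0 p
      rw [hexV_zero] at h3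
      have h4 : rotn 0 (dir j) = dir j := rfl
      rw [h4, add_zero] at h3
      rw [e1, e2]
      exact h3

theorem sh_valid (c : Fin 4) {H : ℕ} (hH : H < Mx c) : validB (sh c H) = true :=
  List.all_eq_true.1 (chkV_all c) H (List.mem_range.2 hH)

theorem place_valid {k : ℤ} {p : V} (hp : Occ k p) :
    Valid (place k p) ∧ InWin p (place k p) ∧ perR (place k p) ≤ 8 * SS := by
  by_cases h1 : ∃ f : Facet, dep k f p < Mx f.1
  · obtain ⟨f, hf⟩ := h1
    have h0 := hp.1 f
    obtain ⟨H, hH⟩ := Int.eq_ofNat_of_zero_le h0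
    have hHM : H < Mx f.1 := by omega
    have e1 : place k p = trg (mv f.2 p) f.2 (sh f.1 H) := by
      rw [place_layer hp hf, hH]; rfl
    obtain ⟨a, b, c⟩ := validB_iff (sh_valid f.1 hHM)
    rw [e1]
    exact ⟨valid_trg (good_mv _ _) _ a, inWin_trg b _ _, by rw [perR_trg]; exact c⟩
  · push Not at h1
    obtain ⟨a, b, c⟩ := validB_iff valid_hexP
    rw [place_bulk h1]
    exact ⟨valid_trg (good_mv _ _) _ a, inWin_trg b _ _, by rw [perR_trg]; exact c⟩

/-- unmatched slots occur only near the corners -/
theorem corner_of_unmatched {k : ℤ} {p : V} {j : Fin 6} (hp : Occ k p)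
    (hp' : ¬ Occ k (p + dir j)) (hs : slot (place k p) j ≠ []) :
    ∃ f g : Facet, g ≠ f ∧ dep k f p < 11 ∧ dep k g p < 15 := by
  have hin : ∀ g, 0 ≤ dep k g (p + dir j) := by
    intro g
    by_cases h1 : ∃ f : Facet, dep k f p < Mx f.1
    · obtain ⟨f, hf⟩ := h1
      by_cases hg : g = f
      · subst hg
        by_contra hneg
        push Not at hneg
        have h0 := hp.1 g
        obtain ⟨H, hH⟩ := Int.eq_ofNat_of_zero_le h0
        have hHM : H < Mx g.1 := by omega
        have e1 : place k p = trg (mv g.2 p) g.2 (sh g.1 H) := by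
          rw [place_layer hp hf, hH]; rfl
        have hd : dir j = rotn g.2 (dir (j - g.2)) := by rw [← dir_add, sub_add_cancel]
        have hdep : dep k g (p + dir j) = (H : ℤ) - hc g.1 (dir (j - g.2)) := by
          rw [dep_add, hd, ← hf_rotn g.1 g.2, hH]
        have h2 := (row_spec g.1 hHM (j - g.2)).1 (by rw [← hdep]; exact hneg)
        apply hs
        have h3 := slot_trg (mv g.2 p) g.2 (sh g.1 H) (j - g.2)
        rw [sub_add_cancel, h2] at h3
        rw [e1, h3]
        rfl
      · have h6 := hp.unique hf g hg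
        have h7 := dep_add k g p (dir j)
        have h8 := hf_dir_le g j
        rw [abs_le] at h8
        omega
    · push Not at h1
      have h6 := h1 g
      have h7 := dep_add k g p (dir j)
      have h8 := hf_dir_le' g j
      rw [abs_le] at h8
      omega
  have hk : ¬ ∀ f : Facet, (Mx f.1 : ℤ) ≤ dep k f (p + dir j) ∨
      ∀ g, g ≠ f → 12 ≤ dep k g (p + dir j) := fun h => hp' ⟨hin, h⟩
  push Not at hk
  obtain ⟨f, hf, g, hg, hg'⟩ := hk
  refine ⟨f, g, hg, ?_, ?_⟩
  · have h7 := dep_add k f p (dir j)
    have h8 := hf_dir_le f j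
    have h9 := Mx_le f.1
    rw [abs_le] at h8
    omega
  · have h7 := dep_add k g p (dir j)
    have h8 := hf_dir_le g j
    rw [abs_le] at h8
    omega

end Run7.h761
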