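import Pool.Agent.Run7.h761.Green2

/-! Polygons given as fans of triangles: Green's theorem, area, perimeter. -/

set_option autoImplicit false

namespace Run7.h761

open MeasureTheory Set intervalIntegral
open scoped ENNReal

theorem isOpen_tri {o u v : Plane} (h : 0 < om u v) : IsOpen (tri o u v) := by
  -- `tri` is given by three strict inequalities
  have : tri o u v = {x | 0 < om (x - o) v ∧ 0 < om u (x - o) ∧
      om (x - o) v + om u (x - o) < om u v} := by
    ext x
    constructor
    · rintro ⟨z, ⟨h1, h2, h3⟩, rfl⟩
      have e : amap o u v z - o = z.1 • u + z.2 • v := by unfold amap; abel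
      simp only [mem_ofPred_eq, e, om_add_left, om_add_right, om_smul_left, om_smul_right, om_self,
        mul_zero, add_zero, zero_add]
      refine ⟨by positivity, by positivity, ?_⟩
      nlinarith
    · rintro ⟨h1, h2, h3⟩
      refine ⟨(om (x - o) v / om u v, om u (x - o) / om u v), ⟨by simp only; positivity,
        by simp only; positivity, ?_⟩, ?_⟩
      · simp only
        rw [← add_div, div_lt_one h]
        exact h3
      · unfold amap
        simp only
        have h' := h.ne'
        have hk0 : om u v • (x - o) = om (x - o) v • u + om u (x - o) • v := by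
          ext i
          fin_cases i
          · simp [om]; ring
          · simp [om]; ring
        have hk : x - o = (om (x - o) v / om u v) • u + (om u (x - o) / om u v) • v := by
          rw [div_eq_inv_mul, div_eq_inv_mul, mul_smul, mul_smul, ← smul_add, ← hk0, smul_smul,
            inv_mul_cancel₀ h', one_smul]
        rw [add_assoc, ← hk]
        abel
  rw [this]
  have c1 : Continuous fun x : Plane => om (x - o) v :=
    continuous_om (by fun_prop) continuous_const
  have c2 : Continuous fun x : Plane => om u (x - o) :=
    continuous_om continuous_const (by fun_prop)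
  exact (isOpen_lt continuous_const c1).inter ((isOpen_lt continuous_const c2).inter
    (isOpen_lt (c1.add c2) continuous_const))

theorem isBounded_tri (o u v : Plane) : Bornology.IsBounded (tri o u v) := by
  have hc : IsCompact (amap o u v '' (Icc (0 : ℝ) 1 ×ˢ Icc (0 : ℝ) 1)) :=
    (isCompact_Icc.prod isCompact_Icc).image (contDiff_amap o u v).continuous
  exact hc.isBounded.subset (image_mono simp2_subset)

theorem volume_tri' {o u v : Plane} (h : 0 < om u v) :
    volume (tri o u v) = ENNReal.ofReal (om u v / 2) := by
  rw [← volume_tri h, ofReal_measureReal (isBounded_tri o u v).measure_lt_top.ne]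

/-- the union of the open triangles with apex `q` over the consecutive pairs of a list -/
noncomputable def fan (q : Plane) : List Plane → Set Plane
  | [] => ∅
  | [_] => ∅
  | x :: y :: l => tri q (x - q) (y - q) ∪ fan q (y :: l)

/-- flux through a polygonal path -/
noncomputable def pathFlux (φ : Plane → Plane) : List Plane → ℝ
  | [] => 0
  | [_] => 0
  | x :: y :: l => flux φ x y + pathFlux φ (y :: l)

/-- area of a fan -/
noncomputable def fanArea (q : Plane) : List Plane → ℝ
  | [] => 0
  | [_] => 0
  | x :: y :: l => om (x - q) (y - q) / 2 + fanArea q (y :: l)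

theorem om_tri_pos {q u v z w : Plane} (hz : z ∈ tri q u v) (h1 : 0 ≤ om w u) (h2 : 0 < om w v) :
    0 < om w (z - q) := by
  obtain ⟨c, ⟨a, b, _⟩, rfl⟩ := hz
  have e : amap q u v c - q = c.1 • u + c.2 • v := by unfold amap; abel
  rw [e, om_add_right, om_smul_right, om_smul_right]
  positivity

theorem fan_pos {q w : Plane} : ∀ {l : List Plane}, (∀ x ∈ l, 0 < om w (x - q)) →
    ∀ z ∈ fan q l, 0 < om w (z - q)
  | [], _, z, hz => by simp [fan] at hz
  | [_], _, z, hz => by simp [fan] at hz
  | x :: y :: l, h, z, hz => by
    simp only [fan, mem_union] at hz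
    rcases hz with hz | hz
    · exact om_tri_pos hz (h x (by simp)).le (h y (by simp))
    · exact fan_pos (l := y :: l) (fun x hx => h x (List.mem_cons_of_mem _ hx)) z hz

theorem fan_pos' {q y : Plane} : ∀ {l : List Plane}, (∀ x ∈ l, 0 < om (y - q) (x - q)) →
    ∀ z ∈ fan q (y :: l), 0 < om (y - q) (z - q)
  | [], _, z, hz => by simp [fan] at hz
  | x :: l, h, z, hz => by
    simp only [fan, mem_union] at hz
    rcases hz with hz | hz
    · refine om_tri_pos hz ?_ (h x (by simp))
      rw [om_self]
    · exact fan_pos h z hz

/-- the order condition for a fan -/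
def FanOrd (q : Plane) (l : List Plane) : Prop := l.Pairwise fun x y => 0 < om (x - q) (y - q)

theorem isOpen_fan {q : Plane} : ∀ {l : List Plane}, FanOrd q l → IsOpen (fan q l)
  | [], _ => by simp [fan]
  | [_], _ => by simp [fan]
  | x :: y :: l, h => by
    simp only [fan]
    have h' := List.pairwise_cons.1 h
    exact (isOpen_tri (h'.1 y (by simp))).union (isOpen_fan h'.2)

theorem disjoint_fan {q x y : Plane} {l : List Plane} (h : FanOrd q (x :: y :: l)) :
    Disjoint (tri q (x - q) (y - q)) (fan q (y :: l)) := by
  have h' := List.pairwise_cons.1 h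
  have h'' := List.pairwise_cons.1 h'.2
  rw [Set.disjoint_left]
  intro z hz hz'
  have h1 := fan_pos' h''.1 z hz'
  obtain ⟨c, ⟨a, b, _⟩, rfl⟩ := hz
  have e : amap q (x - q) (y - q) c - q = c.1 • (x - q) + c.2 • (y - q) := by unfold amap; abel
  rw [e, om_add_right, om_smul_right, om_smul_right, om_self, om_swap] at h1
  have h2 := h'.1 y (by simp)
  have : 0 < c.1 * om (x - q) (y - q) := by positivity
  linarith

theorem green_fan {φ : Plane → Plane} (hφ : ContDiff ℝ 1 φ) (hi : Integrable (divergence φ))
    {q : Plane} : ∀ {x : Plane} {l : List Plane}, FanOrd q (x :: l) →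
    ∫ z in fan q (x :: l), divergence φ z =
      flux φ q x + pathFlux φ (x :: l) + flux φ ((x :: l).getLast (by simp)) q
  | x, [], _ => by
    simp [fan, pathFlux, flux_swap φ q x]
  | x, y :: l, h => by
    have h' := List.pairwise_cons.1 h
    have IH := green_fan hφ hi (q := q) (x := y) (l := l) h'.2
    simp only [fan, pathFlux]
    rw [setIntegral_union (disjoint_fan h) (isOpen_fan h'.2).measurableSet hi.integrableOn
      hi.integrableOn, IH, green_tri hφ (h'.1 y (by simp))]
    have hl : (x :: y :: l).getLast (by simp) = (y :: l).getLast (by simp) :=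
      List.getLast_cons_cons
    rw [hl, add_sub_cancel, add_sub_cancel, flux_swap φ q y]
    ring

theorem volume_fan {q : Plane} : ∀ {l : List Plane}, FanOrd q l →
    volume (fan q l) = ENNReal.ofReal (fanArea q l) ∧ 0 ≤ fanArea q l
  | [], _ => by simp [fan, fanArea]
  | [_], _ => by simp [fan, fanArea]
  | x :: y :: l, h => by
    have h' := List.pairwise_cons.1 h
    have IH := volume_fan h'.2
    have h1 := h'.1 y (by simp)
    simp only [fan, fanArea]
    rw [measure_union (disjoint_fan h) (isOpen_fan h'.2).measurableSet, IH.1, volume_tri' h1,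
      ← ENNReal.ofReal_add (by positivity) IH.2]
    exact ⟨rfl, by linarith [IH.2]⟩

theorem isBounded_fan (q : Plane) : ∀ (l : List Plane), Bornology.IsBounded (fan q l)
  | [] => by simp [fan]
  | [_] => by simp [fan]
  | x :: y :: l => by
    simp only [fan]
    exact (isBounded_tri _ _ _).union (isBounded_fan q (y :: l))

/-- consecutive pairs of a list -/
def consec {α : Type*} : List α → List (α × α)
  | [] => []
  | [_] => []
  | x :: y :: l => (x, y) :: consec (y :: l)

theorem mem_fan {q z : Plane} : ∀ {l : List Plane},
    z ∈ fan q l ↔ ∃ e ∈ consec l, z ∈ tri q (e.1 - q) (e.2 - q)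
  | [] => by simp [fan, consec]
  | [_] => by simp [fan, consec]
  | x :: y :: l => by
    simp only [fan, consec, mem_union, List.mem_cons, exists_eq_or_imp]
    rw [mem_fan (l := y :: l)]

theorem consec_map {α β : Type*} (f : α → β) : ∀ (l : List α),
    consec (l.map f) = (consec l).map (Prod.map f f)
  | [] => rfl
  | [_] => rfl
  | x :: y :: l => by
    have := consec_map f (y :: l)
    simp only [List.map_cons, consec] at *
    rw [this]
    rfl

theorem pathFlux_eq (φ : Plane → Plane) : ∀ (l : List Plane),
    pathFlux φ l = ((consec l).map fun e => flux φ e.1 e.2).sum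
  | [] => rfl
  | [_] => rfl
  | x :: y :: l => by
    have := pathFlux_eq φ (y :: l)
    simp only [pathFlux, consec, List.map_cons, List.sum_cons] at *
    rw [this]

theorem fanArea_eq (q : Plane) : ∀ (l : List Plane),
    fanArea q l = ((consec l).map fun e => om (e.1 - q) (e.2 - q) / 2).sum
  | [] => rfl
  | [_] => rfl
  | x :: y :: l => by
    have := fanArea_eq q (y :: l)
    simp only [fanArea, consec, List.map_cons, List.sum_cons] at *
    rw [this]

end Run7.h761
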