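import Pool.Agent.Run7.h761.Dual

/-! Averages of translates of test fields. -/

set_option autoImplicit false

namespace Run7.h761

open MeasureTheory Set Filter Topology
open scoped ENNReal Convolution

/-- the trace as a functional -/
noncomputable def divL : (Plane →L[ℝ] Plane) →L[ℝ] ℝ :=
  ∑ i : Fin 2, (EuclideanSpace.proj i : Plane →L[ℝ] ℝ).comp
    (ContinuousLinearMap.apply ℝ Plane (EuclideanSpace.single i (1 : ℝ)))

theorem divL_apply (ψ : Plane → Plane) (x : Plane) : divergence ψ x = divL (fderiv ℝ ψ x) := by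
  unfold divergence divL
  rw [ContinuousLinearMap.sum_apply]
  rfl

section

variable {T : Type*} [MeasurableSpace T] (ν : Measure T) [IsFiniteMeasure ν] {q : T → Plane}
    (hq : Measurable q) {ψ : Plane → Plane} (h1 : ContDiff ℝ 1 ψ) (hc : HasCompactSupport ψ)

include hq h1 hc

theorem avg_hasFDerivAt (x : Plane) : HasFDerivAt (fun x => ∫ t, ψ (x - q t) ∂ν)
    (∫ t, fderiv ℝ ψ (x - q t) ∂ν) x := by
  obtain ⟨B0, hB0⟩ := hc.exists_bound_of_continuous h1.continuous
  obtain ⟨B1, hB1⟩ := (hc.fderiv ℝ).exists_bound_of_continuous (h1.continuous_fderiv (by norm_num))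
  have hqm : ∀ x : Plane, Measurable fun t => x - q t := fun x => measurable_const.sub hq
  apply hasFDerivAt_integral_of_dominated_of_fderiv_le (F := fun x t => ψ (x - q t))
    (F' := fun x t => fderiv ℝ ψ (x - q t)) (bound := fun _ => B1) (s := univ) univ_mem
  · exact Eventually.of_forall fun y => (h1.continuous.measurable.comp (hqm y)).aestronglyMeasurable
  · exact Integrable.of_bound (h1.continuous.measurable.comp (hqm x)).aestronglyMeasurable B0
      (Eventually.of_forall fun t => hB0 _)
  · exact ((h1.continuous_fderiv (by norm_num)).measurable.comp (hqm x)).aestronglyMeasurable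
  · exact Eventually.of_forall fun t y _ => hB1 _
  · exact integrable_const _
  · refine Eventually.of_forall fun t y _ => ?_
    have h2 : HasFDerivAt ψ (fderiv ℝ ψ (y - q t)) (y - q t) :=
      (h1.differentiable (by norm_num) _).hasFDerivAt
    have h3 : HasFDerivAt (fun y : Plane => y - q t) (ContinuousLinearMap.id ℝ Plane) y :=
      (hasFDerivAt_id y).sub_const (q t)
    have h4 := h2.comp y h3
    rwa [ContinuousLinearMap.comp_id] at h4

theorem avg_contDiff : ContDiff ℝ 1 (fun x => ∫ t, ψ (x - q t) ∂ν) := by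
  obtain ⟨B1, hB1⟩ := (hc.fderiv ℝ).exists_bound_of_continuous (h1.continuous_fderiv (by norm_num))
  have hqm : ∀ x : Plane, Measurable fun t => x - q t := fun x => measurable_const.sub hq
  rw [contDiff_one_iff_fderiv]
  refine ⟨fun x => (avg_hasFDerivAt ν hq h1 hc x).differentiableAt, ?_⟩
  have : fderiv ℝ (fun x => ∫ t, ψ (x - q t) ∂ν) = fun x => ∫ t, fderiv ℝ ψ (x - q t) ∂ν := by
    funext x
    exact (avg_hasFDerivAt ν hq h1 hc x).fderiv
  rw [this]
  apply continuous_of_dominated (bound := fun _ => B1)
  · intro y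
    exact ((h1.continuous_fderiv (by norm_num)).measurable.comp (hqm y)).aestronglyMeasurable
  · intro y
    exact Eventually.of_forall fun t => hB1 _
  · exact integrable_const _
  · refine Eventually.of_forall fun t => ?_
    exact (h1.continuous_fderiv (by norm_num)).comp (continuous_id.sub continuous_const)

theorem avg_div (x : Plane) : divergence (fun x => ∫ t, ψ (x - q t) ∂ν) x =
    ∫ t, divergence ψ (x - q t) ∂ν := by
  obtain ⟨B1, hB1⟩ := (hc.fderiv ℝ).exists_bound_of_continuous (h1.continuous_fderiv (by norm_num))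
  have hqm : ∀ x : Plane, Measurable fun t => x - q t := fun x => measurable_const.sub hq
  rw [divL_apply, (avg_hasFDerivAt ν hq h1 hc x).fderiv, ← ContinuousLinearMap.integral_comp_comm]
  · rfl
  · exact Integrable.of_bound
      ((h1.continuous_fderiv (by norm_num)).measurable.comp (hqm x)).aestronglyMeasurable B1
      (Eventually.of_forall fun t => hB1 _)

theorem avg_compact {ρ : ℝ} (hρ : ∀ᵐ t ∂ν, ‖q t‖ ≤ ρ) :
    HasCompactSupport (fun x => ∫ t, ψ (x - q t) ∂ν) := by
  obtain ⟨r, hr⟩ := hc.isCompact.isBounded.subset_closedBall (0 : Plane)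
  apply HasCompactSupport.intro (isCompact_closedBall (0 : Plane) (r + ρ))
  intro x hx
  rw [integral_eq_zero_of_ae]
  filter_upwards [hρ] with t h5
  simp only [Pi.zero_apply]
  apply image_eq_zero_of_notMem_tsupport
  intro h2
  have h3 := hr h2
  rw [Metric.mem_closedBall, dist_zero_right] at hx h3
  apply hx
  have h4 := norm_sub_norm_le x (q t)
  linarith

theorem avg_bound {b : ℝ} (hb : ∀ x, ‖ψ x‖ ≤ b) (x : Plane) :
    ‖∫ t, ψ (x - q t) ∂ν‖ ≤ b * ν.real univ :=
  norm_integral_le_of_norm_le_const (Eventually.of_forall fun t => hb _)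

end

/-- the perimeter bounds fluxes -/
theorem flux_le_perimeter {E : Set Plane} (hE : perimeter E ≠ ⊤) {Ψ : Plane → Plane} {c : ℝ}
    (hc0 : 0 ≤ c) (h1 : ContDiff ℝ 1 Ψ) (hc : HasCompactSupport Ψ) (hb : ∀ x, ‖Ψ x‖ ≤ c) :
    |∫ x in E, divergence Ψ x| ≤ c * (perimeter E).toReal := by
  have key : ∀ Φ : Plane → Plane, ContDiff ℝ 1 Φ → HasCompactSupport Φ → (∀ x, ‖Φ x‖ ≤ c) →
      ∫ x in E, divergence Φ x ≤ c * (perimeter E).toReal := by
    intro Φ g1 gc gb
    rcases hc0.eq_or_lt with h0 | h0
    · have : Φ = fun _ => 0 := by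
        funext x
        have := gb x
        rw [← h0] at this
        exact norm_le_zero_iff.1 this
      rw [this, ← h0]
      have : ∀ x, divergence (fun _ : Plane => (0 : Plane)) x = 0 := by
        intro x
        unfold divergence
        simp
      simp [this]
    · set Θ : Plane → Plane := fun x => c⁻¹ • Φ x with hΘ
      have t1 : ContDiff ℝ 1 Θ := g1.const_smul _
      have t2 : HasCompactSupport Θ := by
        rw [hΘ]
        exact gc.comp_left (g := fun v : Plane => c⁻¹ • v) (by simp)
      have t3 : ∀ x, ‖Θ x‖ ≤ 1 := by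
        intro x
        rw [hΘ]
        simp only [norm_smul, norm_inv, Real.norm_eq_abs, abs_of_pos h0]
        rw [inv_mul_le_one₀ h0]
        exact gb x
      have t4 : ENNReal.ofReal (∫ x in E, divergence Θ x) ≤ perimeter E :=
        le_iSup (fun φ : {φ : Plane → Plane // ContDiff ℝ 1 φ ∧ HasCompactSupport φ ∧
          ∀ x, ‖φ x‖ ≤ 1} => ENNReal.ofReal (∫ x in E, divergence φ.1 x)) ⟨Θ, t1, t2, t3⟩
      have t5 : ∫ x in E, divergence Θ x ≤ (perimeter E).toReal := by
        rcases le_or_gt (∫ x in E, divergence Θ x) 0 with h2 | h2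
        · exact h2.trans ENNReal.toReal_nonneg
        · have := ENNReal.toReal_mono hE t4
          rwa [ENNReal.toReal_ofReal h2.le] at this
      have t6 : ∀ x, divergence Θ x = c⁻¹ * divergence Φ x := by
        intro x
        have hd : DifferentiableAt ℝ Φ x := g1.differentiable (by norm_num) x
        rw [divL_apply, divL_apply, hΘ]
        have : fderiv ℝ (fun x => c⁻¹ • Φ x) x = c⁻¹ • fderiv ℝ Φ x := fderiv_fun_const_smul hd _
        rw [this, map_smul, smul_eq_mul]
      simp_rw [t6] at t5
      rw [integral_const_mul, inv_mul_le_iff₀ h0] at t5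
      exact t5
  rw [abs_le]
  constructor
  · have h2 := key (fun x => -Ψ x) h1.neg (hc.comp_left (g := fun v : Plane => -v) (by simp))
      (fun x => by rw [norm_neg]; exact hb x)
    have h3 : ∀ x, divergence (fun x => -Ψ x) x = -divergence Ψ x := by
      intro x
      rw [divL_apply, divL_apply]
      have : fderiv ℝ (fun x => -Ψ x) x = -fderiv ℝ Ψ x := fderiv_fun_neg
      rw [this, map_neg]
    simp_rw [h3] at h2
    rw [integral_neg] at h2
    linarith
  · exact key Ψ h1 hc hb

end Run7.h761
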