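import Pool.Agent.Run7.h761.Off

/-! The inequality for labellings of the plane. -/

set_option autoImplicit false

namespace Run7.h761

open MeasureTheory Set Filter Topology
open scoped ENNReal

open Lb (Site Dart dr rgt thd rev rt InI ID ca ar tl len Cons)

section

variable {N : ℕ} {l : Plane → Fin (N + 1)} {y : Plane} {δ : ℝ}

/-- total local function -/
noncomputable def GG (l : Plane → Fin (N + 1)) (δ c ε : ℝ) (x : Plane) : ℝ≥0∞ :=
  ENNReal.ofReal (1 / 3) * ∑ j, HH l δ j x + ENNReal.ofReal c * GA l δ x + ENNReal.ofReal ε * ZZ l x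

theorem exists_box {S : Set Site} (hS : S.Finite) : ∃ M : ℕ, ∀ s ∉ Lb.bx M, s ∉ S := by
  obtain ⟨M, hM⟩ : ∃ M : ℕ, ∀ s ∈ hS.toFinset, s.1.natAbs ≤ M ∧ s.2.natAbs ≤ M := by
    refine ⟨hS.toFinset.sup (fun s => s.1.natAbs + s.2.natAbs), fun s hs => ?_⟩
    have : s.1.natAbs + s.2.natAbs ≤ hS.toFinset.sup (fun s => s.1.natAbs + s.2.natAbs) :=
      Finset.le_sup (f := fun s : Site => s.1.natAbs + s.2.natAbs) hs
    omega
  refine ⟨M, fun s hs h => hs ?_⟩
  have := hM s (hS.mem_toFinset.2 h)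
  rw [Lb.mem_bx]
  omega

theorem support_finite {ε B : ℝ} (hε : 0 < ε)
    (h : ENNReal.ofReal ε * ∑' s, ZZ l (pt y δ s) ≤ ENNReal.ofReal B) :
    ∃ M : ℕ, ∀ s ∉ Lb.bx M, lb l y δ s = 0 := by
  have h1 : ∑' s, ZZ l (pt y δ s) ≠ ⊤ := by
    intro h2
    rw [h2, ENNReal.mul_top] at h
    · exact ENNReal.ofReal_ne_top (top_le_iff.1 h)
    · simp only [ne_eq, ENNReal.ofReal_eq_zero, not_le]
      exact hε
  have h2 := ENNReal.finite_const_le_of_tsum_ne_top h1 (ε := 1) one_ne_zero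
  obtain ⟨M, hM⟩ := exists_box h2
  refine ⟨M, fun s hs => ?_⟩
  by_contra h3
  apply hM s hs
  show (1 : ℝ≥0∞) ≤ ZZ l (pt y δ s)
  unfold ZZ
  have : ne (l (pt y δ s)) 0 = 1 := ne_eq_one.2 h3
  rw [this]
  simp

theorem defect_le (hl : LabOK l) {A : ℝ} (hA : ∀ i, i ≠ 0 → volume (Es l i) = ENNReal.ofReal A)
    (hδ : 0 < δ) {K : Finset Site} (hK : ∀ s ∉ K, lb l y δ s = 0) :
    ENNReal.ofReal (∑ i ∈ (Finset.univ : Finset (Fin (N + 1))).erase 0,
      max 0 (A - Lb.arl (zz l y δ) K (lb l y δ) i)) ≤ ∑' s, GA l δ (pt y δ s) := by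
  rw [ENNReal.ofReal_sum_of_nonneg fun i _ => le_max_left _ _]
  have h1 : ∀ i ∈ (Finset.univ : Finset (Fin (N + 1))).erase 0,
      ENNReal.ofReal (max 0 (A - Lb.arl (zz l y δ) K (lb l y δ) i)) ≤ ∑' s, YY l y δ i s := by
    intro i hi
    have hi0 := (Finset.mem_erase.1 hi).1
    have h2 := area_le (y := y) hl hδ i
    rw [hA i hi0, arl_eq hl hδ.le hK hi0] at h2
    have h3 : 0 ≤ Lb.arl (zz l y δ) K (lb l y δ) i :=
      Finset.sum_nonneg fun s _ => (ca_zz hl hδ.le s).1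
    have h4 : ENNReal.ofReal (max 0 (A - Lb.arl (zz l y δ) K (lb l y δ) i)) =
        ENNReal.ofReal (A - Lb.arl (zz l y δ) K (lb l y δ) i) := by
      rcases le_total 0 (A - Lb.arl (zz l y δ) K (lb l y δ) i) with h | h
      · rw [max_eq_right h]
      · rw [max_eq_left h, ENNReal.ofReal_of_nonpos h, ENNReal.ofReal_zero]
    rw [h4, ENNReal.ofReal_sub _ h3]
    exact tsub_le_iff_left.2 h2
  calc _ ≤ ∑ i ∈ (Finset.univ : Finset (Fin (N + 1))).erase 0, ∑' s, YY l y δ i s :=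
        Finset.sum_le_sum h1
    _ ≤ ∑ i, ∑' s, YY l y δ i s := Finset.sum_le_sum_of_subset (Finset.erase_subset _ _)
    _ = ∑' s, ∑ i, YY l y δ i s := (Summable.tsum_finsetSum fun i _ => ENNReal.summable).symm
    _ = _ := by
        congr 1
        funext s
        exact sum_YY hl s

theorem offset_ineq (hl : LabOK l)
    (hA : ∀ i, i ≠ 0 → volume (Es l i) = ENNReal.ofReal (3 * √3 / 2)) {ε B : ℝ} (hδ : 0 < δ)
    (hε : 0 < ε) (hB : 0 ≤ B)
    (h : ∑' s, GG l δ (1.013 * ka) ε (pt y δ s) ≤ ENNReal.ofReal B) :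
    ∃ x e : ℝ, 0 ≤ x ∧ x ≤ 3 * N ∧ 0 ≤ e ∧ 11.657 * (x - 2.54 * e) ≤ 4 * e ^ 2 ∧
      x + e + 1.013 * (3 * N - x) ≤ B := by
  have hka := ka_pos
  have hsplit : ∑' s, GG l δ (1.013 * ka) ε (pt y δ s) =
      ENNReal.ofReal (1 / 3) * ∑' s, ∑ j, HH l δ j (pt y δ s) +
      ENNReal.ofReal (1.013 * ka) * ∑' s, GA l δ (pt y δ s) +
      ENNReal.ofReal ε * ∑' s, ZZ l (pt y δ s) := by
    unfold GG
    rw [ENNReal.tsum_add, ENNReal.tsum_add, ENNReal.tsum_mul_left, ENNReal.tsum_mul_left,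
      ENNReal.tsum_mul_left]
  rw [hsplit] at h
  obtain ⟨M, hM⟩ := support_finite (y := y) (δ := δ) (l := l) hε (le_add_self.trans h)
  obtain ⟨x, e, hx0, hx1, he0, h1, h2⟩ := Lb.lattice_ineq (zz_cons (l := l) (y := y) (δ := δ))
    (fun s => (ca_zz hl hδ.le s).1) M (lb l y δ) hM
  refine ⟨x, e, hx0, hx1, he0, h1, ?_⟩
  set P := Lb.Per (zz l y δ) (Lb.bx M) (lb l y δ) with hP
  set D := ∑ i ∈ (Finset.univ : Finset (Fin (N + 1))).erase 0,
      max 0 (3 * √3 / 2 - Lb.arl (zz l y δ) (Lb.bx M) (lb l y δ) i) with hD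
  have hD0 : 0 ≤ D := Finset.sum_nonneg fun i _ => le_max_left _ _
  have hP0 : 0 ≤ P := by
    rw [hP]
    unfold Lb.Per
    have : 0 ≤ ∑ d ∈ ID (lb l y δ) (Lb.bx M), len (zz l y δ) d :=
      Finset.sum_nonneg fun d _ => Lb.len_nonneg _
    linarith
  have h3 : ENNReal.ofReal P ≤ ENNReal.ofReal (1 / 3) * ∑' s, ∑ j, HH l δ j (pt y δ s) := by
    refine (Per_le hM).trans ?_
    have h4 := sum_HH (y := y) hl hδ.le
    have h5 : ∑' d, ff l y δ d = ENNReal.ofReal (1 / 3) * (3 * ∑' d, ff l y δ d) := by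
      rw [← mul_assoc]
      have : ENNReal.ofReal (1 / 3) * 3 = 1 := by
        have h6 : (3 : ℝ≥0∞) = ENNReal.ofReal 3 := by norm_num
        rw [h6, ← ENNReal.ofReal_mul (by norm_num)]
        norm_num
      rw [this, one_mul]
    rw [h5]
    exact mul_le_mul_right h4 _
  have h4 : ENNReal.ofReal D ≤ ∑' s, GA l δ (pt y δ s) := defect_le hl hA hδ hM
  have h5 : ENNReal.ofReal (P + 1.013 * ka * D) ≤ ENNReal.ofReal B := by
    rw [ENNReal.ofReal_add hP0 (by positivity), ENNReal.ofReal_mul (by positivity)]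
    calc _ ≤ _ := add_le_add h3 (mul_le_mul_right h4 _)
      _ ≤ _ := le_self_add
      _ ≤ _ := h
  rw [ENNReal.ofReal_le_ofReal_iff hB] at h5
  have h6 : 3 * (N : ℝ) - ka * D ≤ Lb.Mm (zz l y δ) (Lb.bx M) (lb l y δ) := by
    unfold Lb.Mm
    have h7 : ∀ i ∈ (Finset.univ : Finset (Fin (N + 1))).erase 0,
        3 - ka * max 0 (3 * √3 / 2 - Lb.arl (zz l y δ) (Lb.bx M) (lb l y δ) i) ≤
        min 3 (ka * Lb.arl (zz l y δ) (Lb.bx M) (lb l y δ) i) := by
      intro i _
      have h8 := le_max_left 0 (3 * √3 / 2 - Lb.arl (zz l y δ) (Lb.bx M) (lb l y δ) i)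
      have h9 := le_max_right 0 (3 * √3 / 2 - Lb.arl (zz l y δ) (Lb.bx M) (lb l y δ) i)
      apply le_min
      · nlinarith
      · have h10 := ka_sqrt
        nlinarith
    have h8 := Finset.sum_le_sum h7
    rw [Finset.sum_sub_distrib, ← Finset.mul_sum, Finset.sum_const,
      Finset.card_erase_of_mem (Finset.mem_univ _), Finset.card_univ, Fintype.card_fin,
      nsmul_eq_mul, Nat.add_sub_cancel] at h8
    rw [hD]
    linarith
  nlinarith

theorem label_ineq (hl : LabOK l)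
    (hA : ∀ i, i ≠ 0 → volume (Es l i) = ENNReal.ofReal (3 * √3 / 2)) {τ : ℝ} (hτ : 0 < τ) :
    ∃ x e : ℝ, 0 ≤ x ∧ x ≤ 3 * N ∧ 0 ≤ e ∧ 11.657 * (x - 2.54 * e) ≤ 4 * e ^ 2 ∧
      x + e + 1.013 * (3 * N - x) ≤ PT l / 2 + τ := by
  have hka := ka_pos
  have hPT := PT_nonneg (l := l)
  -- volume of the support
  have hV : volume {x | l x ≠ 0} ≠ ⊤ := by
    have h1 : {x | l x ≠ 0} ⊆ ⋃ i ∈ (Finset.univ : Finset (Fin (N + 1))).erase 0, Es l i := by
      intro x hx
      simp only [Finset.mem_erase, Finset.mem_univ, and_true, mem_iUnion]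
      exact ⟨l x, hx, rfl⟩
    apply ne_top_of_le_ne_top _ (measure_mono h1)
    apply ne_top_of_le_ne_top _ (measure_biUnion_finset_le _ _)
    apply ENNReal.sum_ne_top.2
    intro i hi
    rw [hA i (Finset.mem_erase.1 hi).1]
    exact ENNReal.ofReal_ne_top
  set v := (volume {x | l x ≠ 0}).toReal with hv
  have hv0 : 0 ≤ v := ENNReal.toReal_nonneg
  -- scales
  obtain ⟨Ps, M, hPs, hM, h1, h2⟩ := exists_scale hl (η := τ / 300) (by positivity)
  obtain ⟨K, hK⟩ := exists_nat_gt (max 1 (max (400 * Ps / τ) (100 * PT l * M / τ)))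
  have hK1 : (1 : ℝ) < K := (le_max_left _ _).trans_lt hK
  have hK2 : 400 * Ps / τ < K := ((le_max_left _ _).trans (le_max_right _ _)).trans_lt hK
  have hK3 : 100 * PT l * M / τ < K := ((le_max_right _ _).trans (le_max_right _ _)).trans_lt hK
  have hK0 : 0 < K := by
    have : (0 : ℝ) < K := by linarith
    exact_mod_cast this
  have hKr : (0 : ℝ) < K := by linarith
  set δ := M / K with hδ
  have hδ0 : 0 < δ := by positivity
  have h3 := int_HH_sum hl (by positivity : (0 : ℝ) ≤ τ / 300) hPs hM h1 h2 hK0 hδ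
  have h4 := int_GA hl hδ0
  have h5 := int_ZZ hl
  set ε := δ ^ 2 * (τ / 100) / (v + 1) with hε
  have hε0 : 0 < ε := by positivity
  have e1 : 400 * Ps ≤ τ * K := by
    rw [div_lt_iff₀ hτ] at hK2; linarith
  have e2 : 100 * PT l * M ≤ τ * K := by
    rw [div_lt_iff₀ hτ] at hK3; linarith
  have e3 : 4 * Ps / K ≤ τ / 100 := by
    rw [div_le_iff₀ hKr]; linarith
  have e4 : PT l * δ ≤ τ / 100 := by
    rw [hδ, mul_div_assoc', div_le_iff₀ hKr]; linarith
  have e5 : ε * v ≤ δ ^ 2 * (τ / 100) := by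
    rw [hε, div_mul_eq_mul_div, div_le_iff₀ (by positivity)]
    have : 0 ≤ δ ^ 2 * (τ / 100) := by positivity
    nlinarith
  have hGG : ∫⁻ x, GG l δ (1.013 * ka) ε x ≤ ENNReal.ofReal (δ ^ 2 * (PT l / 2 + τ)) := by
    unfold GG
    have m1 : Measurable fun x => ∑ j, HH l δ j x := Finset.measurable_fun_sum _ fun j _ => measurable_HH hl j
    have m2 : Measurable fun x => ENNReal.ofReal ε * ZZ l x := measurable_const.mul (measurable_ZZ hl)
    have m3 : Measurable fun x => ENNReal.ofReal (1.013 * ka) * GA l δ x :=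
      measurable_const.mul (measurable_GA hl)
    rw [lintegral_add_right _ m2, lintegral_add_right _ m3, lintegral_const_mul _ m1,
      lintegral_const_mul _ (measurable_GA hl), lintegral_const_mul _ (measurable_ZZ hl), h5,
      lintegral_finsetSum _ fun j _ => measurable_HH hl j, ← ENNReal.ofReal_toReal hV, ← hv]
    calc _ ≤ ENNReal.ofReal (1 / 3) * ENNReal.ofReal (δ ^ 2 * (3 / 2 * PT l + 9 / 4 * (τ / 300) +
          54 * (3 * (τ / 300) + 4 * Ps / K))) + ENNReal.ofReal (1.013 * ka) *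
          ENNReal.ofReal (δ ^ 2 * (11 * PT l * δ)) + ENNReal.ofReal ε * ENNReal.ofReal v :=
          add_le_add (add_le_add (mul_le_mul_right h3 _) (mul_le_mul_right h4 _)) le_rfl
      _ = ENNReal.ofReal (1 / 3 * (δ ^ 2 * (3 / 2 * PT l + 9 / 4 * (τ / 300) +
          54 * (3 * (τ / 300) + 4 * Ps / K))) + 1.013 * ka * (δ ^ 2 * (11 * PT l * δ)) + ε * v) := by
          rw [← ENNReal.ofReal_mul (by norm_num), ← ENNReal.ofReal_mul (by positivity),
            ← ENNReal.ofReal_mul (by positivity), ← ENNReal.ofReal_add (by positivity) (by positivity),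
            ← ENNReal.ofReal_add (by positivity) (by positivity)]
      _ ≤ _ := by
          apply ENNReal.ofReal_le_ofReal
          have hk := ka_hi
          have hd : 0 < δ ^ 2 := by positivity
          have f1 : 1.013 * ka * (11 * PT l * δ) ≤ 13 * (τ / 100) := by
            have : 0 ≤ PT l * δ := by positivity
            nlinarith
          have f2 : 1 / 3 * (δ ^ 2 * (3 / 2 * PT l + 9 / 4 * (τ / 300) + 54 * (3 * (τ / 300) + 4 * Ps / K))) ≤
              δ ^ 2 * (PT l / 2 + τ * 0.4) := by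
            have : 1 / 3 * (3 / 2 * PT l + 9 / 4 * (τ / 300) + 54 * (3 * (τ / 300) + 4 * Ps / K)) ≤
                PT l / 2 + τ * 0.4 := by
              nlinarith
            nlinarith [mul_le_mul_of_nonneg_left this hd.le]
          nlinarith [mul_le_mul_of_nonneg_left f1 hd.le]
  have mGG : Measurable (GG l δ (1.013 * ka) ε) := by
    unfold GG
    exact ((measurable_const.mul (Finset.measurable_fun_sum _ fun j _ => measurable_HH hl j)).add
      (measurable_const.mul (measurable_GA hl))).add (measurable_const.mul (measurable_ZZ hl))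
  obtain ⟨y, hy⟩ := exists_offset hδ0 mGG (by positivity) hGG
  exact offset_ineq hl hA hδ0 hε0 (by positivity) hy

end

end Run7.h761
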