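import Pool.Agent.Run7.h761.Fin1
import Pool.Agent.Run7.h761.Asymp

/-! The lower bound for the least perimeter of planar clusters. -/

set_option autoImplicit false

namespace Run7.h761

open MeasureTheory Set Filter Topology
open scoped ENNReal

open scoped Classical

/-- labelling of a cluster -/
noncomputable def labl {N : ℕ} (R : Fin N → Set Plane) (x : Plane) : Fin (N + 1) :=
  if h : ∃ i, x ∈ R i then h.choose.succ else 0

theorem labl_zero {N : ℕ} (R : Fin N → Set Plane) : labl R ⁻¹' {0} = (⋃ i, R i)ᶜ := by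
  ext x
  rw [mem_preimage, mem_singleton_iff, mem_compl_iff, mem_iUnion]
  unfold labl
  by_cases h : ∃ i, x ∈ R i
  · rw [dif_pos h]
    exact ⟨fun h' => absurd h' (Fin.succ_ne_zero _), fun h' => absurd h h'⟩
  · rw [dif_neg h]
    exact ⟨fun _ => h, fun _ => rfl⟩

theorem labl_succ {N : ℕ} {R : Fin N → Set Plane} (hR : IsCluster N R) (i : Fin N) :
    labl R ⁻¹' {i.succ} = R i := by
  ext x
  rw [mem_preimage, mem_singleton_iff]
  unfold labl
  by_cases h : ∃ i, x ∈ R i
  · rw [dif_pos h]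
    constructor
    · intro h'
      rw [← Fin.succ_injective _ h']
      exact h.choose_spec
    · intro h'
      congr 1
      by_contra hne
      exact disjoint_left.1 (hR.disjoint _ _ hne) h.choose_spec h'
  · rw [dif_neg h]
    exact ⟨fun h' => absurd h'.symm (Fin.succ_ne_zero _), fun h' => absurd ⟨i, h'⟩ h⟩

theorem labl_ok {N : ℕ} {R : Fin N → Set Plane} (hR : IsCluster N R)
    (h0 : perimeter (⋃ i, R i)ᶜ ≠ ⊤) : LabOK (labl R) where
  meas := by
    apply measurable_to_countable'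
    intro i
    refine Fin.cases ?_ (fun j => ?_) i
    · rw [labl_zero]
      exact (MeasurableSet.iUnion hR.measurable).compl
    · rw [labl_succ hR]
      exact hR.measurable j
  per := by
    intro i
    refine Fin.cases ?_ (fun j => ?_) i
    · rw [labl_zero]
      exact h0
    · rw [labl_succ hR]
      exact (hR.finitePerimeter j).ne

theorem PT_labl {N : ℕ} {R : Fin N → Set Plane} (hR : IsCluster N R)
    (h0 : perimeter (⋃ i, R i)ᶜ ≠ ⊤) :
    clusterPerimeter R = ENNReal.ofReal (PT (labl R) / 2) := by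
  have h1 : PT (labl R) = PerR (⋃ i, R i)ᶜ + ∑ i, PerR (R i) := by
    unfold PT
    rw [Fin.sum_univ_succ, labl_zero]
    congr 1
    exact Finset.sum_congr rfl fun i _ => by rw [labl_succ hR]
  have h2 : perimeter (⋃ i, R i)ᶜ = ENNReal.ofReal (PerR (⋃ i, R i)ᶜ) :=
    (ENNReal.ofReal_toReal h0).symm
  have h3 : ∀ i, perimeter (R i) = ENNReal.ofReal (PerR (R i)) := fun i =>
    (ENNReal.ofReal_toReal (hR.finitePerimeter i).ne).symm
  unfold clusterPerimeter
  rw [h1, h2, Finset.sum_congr rfl fun i _ => h3 i, ← ENNReal.ofReal_sum_of_nonneg fun i _ => PerR_nonneg _,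
    ← ENNReal.ofReal_add (PerR_nonneg _) (Finset.sum_nonneg fun i _ => PerR_nonneg _),
    ENNReal.ofReal_div_of_pos (by norm_num)]
  congr 1
  norm_num

theorem cluster_ineq {N : ℕ} {R : Fin N → Set Plane} (hR : IsCluster N R) {b : ℝ}
    (hb : ∀ x e : ℝ, 0 ≤ x → x ≤ 3 * N → 0 ≤ e → 11.657 * (x - 2.54 * e) ≤ 4 * e ^ 2 →
      b ≤ x + e + 1.013 * (3 * N - x)) : ENNReal.ofReal b ≤ clusterPerimeter R := by
  by_cases h0 : perimeter (⋃ i, R i)ᶜ = ⊤
  · unfold clusterPerimeter
    rw [h0, top_add, ENNReal.top_div_of_ne_top (by norm_num)]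
    exact le_top
  · rw [PT_labl hR h0]
    apply ENNReal.ofReal_le_ofReal
    apply le_of_forall_pos_le_add
    intro τ hτ
    have hA : ∀ i, i ≠ 0 → volume (Es (labl R) i) = ENNReal.ofReal (3 * √3 / 2) := by
      intro i
      refine Fin.cases (fun h => absurd rfl h) (fun j _ => ?_) i
      unfold Es
      rw [labl_succ hR]
      exact hR.area j
    obtain ⟨x, e, h1, h2, h3, h4, h5⟩ := label_ineq (labl_ok hR h0) hA hτ
    exact (hb x e h1 h2 h3 h4).trans h5

theorem num_ineq {N : ℕ} {s : ℝ} (hs : s = √(N : ℝ)) (hs1 : 230000 ≤ s) (x e : ℝ) (_ : 0 ≤ x)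
    (hx : x ≤ 3 * N) (he : 0 ≤ e) (h : 11.657 * (x - 2.54 * e) ≤ 4 * e ^ 2) :
    3 * N + 2.956 * s ≤ x + e + 1.013 * (3 * N - x) := by
  have hs2 : s ^ 2 = N := by rw [hs]; exact Real.sq_sqrt (Nat.cast_nonneg N)
  rw [← hs2] at hx ⊢
  by_contra hc
  push Not at hc
  have h1 : e ≤ 2.956 * s := by nlinarith
  have h2 : 0.013 * (3 * s ^ 2 - x) ≤ 2.956 * s := by nlinarith
  have h3 : e ^ 2 ≤ (2.956 * s) ^ 2 := by
    apply pow_le_pow_left₀ he h1
  nlinarith

theorem least_ge {N : ℕ} (h : 230000 ≤ √(N : ℝ)) :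
    ENNReal.ofReal (3 * N + 2.956 * √(N : ℝ)) ≤ leastPerimeter N := by
  unfold leastPerimeter
  apply le_iInf
  rintro ⟨R, hR⟩
  exact cluster_ineq hR (num_ineq rfl h)

theorem liminf_bound : ((2.956 : ℝ) : EReal) ≤ Filter.liminf (fun N : ℕ =>
    ((((leastPerimeter N).toReal - 3 * N) / √N : ℝ) : EReal)) Filter.atTop := by
  apply Filter.le_liminf_of_le
  · isBoundedDefault
  have h1 : Tendsto (fun N : ℕ => √(N : ℝ)) atTop atTop :=
    Real.tendsto_sqrt_atTop.comp tendsto_natCast_atTop_atTop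
  filter_upwards [h1.eventually_ge_atTop 230000] with N hN
  rw [EReal.coe_le_coe_iff]
  have hs : 0 < √(N : ℝ) := by linarith
  rw [le_div_iff₀ hs]
  have h2 := least_ge hN
  have h3 : leastPerimeter N ≠ ⊤ := ((explicit_bound N).trans_lt ENNReal.ofReal_lt_top).ne
  have h4 := (ENNReal.ofReal_le_iff_le_toReal h3).1 h2
  linarith

end Run7.h761
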