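import Pool.Agent.Run7.h761.Scale

/-! Positions of the vertices of the lattice cluster. -/

set_option autoImplicit false

namespace Run7.h761

open MeasureTheory Set Filter Topology
open scoped ENNReal

open Lb (Site Dart dr rgt thd rev rt InI ID ca ar tl len Cons)

/-- the plane as complex numbers -/
def tc (x : Plane) : ℂ := ⟨x 0, x 1⟩

theorem tc_add (x y : Plane) : tc (x + y) = tc x + tc y := by
  apply Complex.ext <;> simp [tc]

theorem tc_sub (x y : Plane) : tc (x - y) = tc x - tc y := by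
  apply Complex.ext <;> simp [tc]

theorem tc_neg (x : Plane) : tc (-x) = -tc x := by
  apply Complex.ext <;> simp [tc]

theorem tc_smul (c : ℝ) (x : Plane) : tc (c • x) = (c : ℂ) * tc x := by
  apply Complex.ext <;> simp [tc]

theorem norm_tc (x : Plane) : ‖tc x‖ = ‖x‖ := by
  rw [EuclideanSpace.norm_eq, Complex.norm_def, Complex.normSq_apply, Fin.sum_univ_two]
  simp only [tc, Real.norm_eq_abs, sq_abs]
  congr 1
  ring

theorem cr_tc (x y : Plane) : cr (tc x) (tc y) = om x y := rfl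

/-- a site as a vector -/
noncomputable def sv (s : Site) : Plane := !₂[(s.1 : ℝ), (s.2 : ℝ)]

theorem sv_add (s : Site) (j : Fin 6) : sv (s + dr j) = sv s + ev j := by
  ext i
  fin_cases i <;> simp [sv, ev]

theorem ev_opp (j : Fin 6) : ev (j + 3) = -ev j := by
  ext i
  unfold ev
  rw [Lb.dr_opp]
  fin_cases i <;> simp

theorem ev_tri (j : Fin 6) : ev (j + 1) = ev j + ev (j + 2) := by
  ext i
  unfold ev
  rw [Lb.dr_tri]
  fin_cases i <;> simp

theorem om_ev (j : Fin 6) : om (ev j) (ev (j + 1)) = 1 := by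
  unfold om ev
  fin_cases j <;> simp [dr] <;> norm_num [dr]

theorem om_ev2 (j : Fin 6) : om (ev j) (ev (j + 2)) = 1 := by
  have h1 := om_ev j
  rw [ev_tri, om_add_right, om_self, zero_add] at h1
  exact h1

/-- two labels in a triangle -/
theorem two_lab (p1 p2 p3 : ℂ) {f1 f2 f3 g1 g2 g3 e1 e2 e3 D : ℝ} (h1 : e1 = 1 - f1 - g1)
    (h3 : e3 = 1 - g3 - f3) (h2 : e2 = 2 - 2 * g2) (h1' : 0 ≤ e1) (h3' : 0 ≤ e3) (h2' : 0 ≤ f2)
    (h2'' : f2 + g2 ≤ 1) (d1 : ‖p2 - p1‖ ≤ D) (d2 : ‖p3 - p2‖ ≤ D) (d3 : ‖p1 - p3‖ ≤ D) :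
    ‖(p1 + (((f1 + 1 - g1) / 2 : ℝ) : ℂ) * (p2 - p1)) -
      (p3 + (((g3 + 1 - f3) / 2 : ℝ) : ℂ) * (p1 - p3))‖ ≤
      (‖(f1 : ℂ) * (p2 - p1) + (f2 : ℂ) * (p3 - p2) + (f3 : ℂ) * (p1 - p3)‖ +
        ‖(g1 : ℂ) * (p2 - p1) + (g2 : ℂ) * (p3 - p2) + (g3 : ℂ) * (p1 - p3)‖) / 2 +
      D / 2 * (e1 + e2 + e3) := by
  set v1 := p2 - p1 with hv1
  set v2 := p3 - p2 with hv2
  set v3 := p1 - p3 with hv3
  set X := (p1 + (((f1 + 1 - g1) / 2 : ℝ) : ℂ) * v1) - (p3 + (((g3 + 1 - f3) / 2 : ℝ) : ℂ) * v3) with hX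
  have hD : 0 ≤ D := (norm_nonneg _).trans d1
  have hs : v1 + v2 + v3 = 0 := by rw [hv1, hv2, hv3]; ring
  have a1 : X = ((f1 : ℂ) * v1 + (f2 : ℂ) * v2 + (f3 : ℂ) * v3) +
      (((e1 / 2 : ℝ) : ℂ) * v1 + ((-f2 : ℝ) : ℂ) * v2 + ((e3 / 2 : ℝ) : ℂ) * v3) := by
    rw [hX, h1, h3]
    have : p1 = p3 + v3 := by rw [hv3]; ring
    rw [this]
    push_cast
    ring
  have a2 : X = -((g1 : ℂ) * v1 + (g2 : ℂ) * v2 + (g3 : ℂ) * v3) +
      (((-(e1 / 2) : ℝ) : ℂ) * v1 + ((-(e2 / 2) : ℝ) : ℂ) * v2 + ((-(e3 / 2) : ℝ) : ℂ) * v3) := by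
    rw [hX, h1, h3, h2]
    have h4 : p1 = p3 + v3 := by rw [hv3]; ring
    have h5 : v2 = -v1 - v3 := by linear_combination hs
    rw [h4, h5]
    push_cast
    ring
  have hf2 : f2 ≤ e2 / 2 := by rw [h2]; linarith
  have hnorm : ∀ (α β γ : ℝ), ‖(α : ℂ) * v1 + (β : ℂ) * v2 + (γ : ℂ) * v3‖ ≤
      |α| * D + |β| * D + |γ| * D := by
    intro α β γ
    refine norm_add₃_le.trans ?_
    rw [norm_mul, norm_mul, norm_mul, Complex.norm_real, Complex.norm_real, Complex.norm_real,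
      Real.norm_eq_abs, Real.norm_eq_abs, Real.norm_eq_abs]
    have b1 := mul_le_mul_of_nonneg_left d1 (abs_nonneg α)
    have b2 := mul_le_mul_of_nonneg_left d2 (abs_nonneg β)
    have b3 := mul_le_mul_of_nonneg_left d3 (abs_nonneg γ)
    linarith
  have b1 : ‖X‖ ≤ ‖(f1 : ℂ) * v1 + (f2 : ℂ) * v2 + (f3 : ℂ) * v3‖ + D / 2 * (e1 + e2 + e3) := by
    conv_lhs => rw [a1]
    refine (norm_add_le _ _).trans ?_
    have := hnorm (e1 / 2) (-f2) (e3 / 2)
    rw [abs_of_nonneg (by positivity), abs_neg, abs_of_nonneg h2', abs_of_nonneg (by positivity)] at this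
    nlinarith
  have he2 : 0 ≤ e2 := by linarith
  have b2 : ‖X‖ ≤ ‖(g1 : ℂ) * v1 + (g2 : ℂ) * v2 + (g3 : ℂ) * v3‖ + D / 2 * (e1 + e2 + e3) := by
    conv_lhs => rw [a2]
    refine (norm_add_le _ _).trans ?_
    rw [norm_neg]
    have := hnorm (-(e1 / 2)) (-(e2 / 2)) (-(e3 / 2))
    rw [abs_neg, abs_neg, abs_neg, abs_of_nonneg (by positivity), abs_of_nonneg (by positivity),
      abs_of_nonneg (by positivity)] at this
    linarith
  linarith

section

variable {N : ℕ} (l : Plane → Fin (N + 1)) (y : Plane) (δ : ℝ)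

/-- lattice points -/
noncomputable def pt (s : Site) : Plane := y + δ • sv s

theorem pt_add (s : Site) (j : Fin 6) : pt y δ (s + dr j) = pt y δ s + δ • ev j := by
  unfold pt
  rw [sv_add, smul_add, add_assoc]

/-- labels of the sites -/
noncomputable def lb (s : Site) : Fin (N + 1) := l (pt y δ s)

/-- label sets -/
def Es (i : Fin (N + 1)) : Set Plane := l ⁻¹' {i}

/-- crossing fraction -/
noncomputable def th (d : Dart) : ℝ :=
  (frac (Es l (lb l y δ d.1)) (pt y δ d.1) (δ • ev d.2) + 1 -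
    frac (Es l (lb l y δ (rgt d))) (pt y δ d.1) (δ • ev d.2)) / 2

/-- crossing point -/
noncomputable def qq (d : Dart) : ℂ := tc (pt y δ d.1) + (th l y δ d : ℂ) * tc (δ • ev d.2)

/-- label change of a dart -/
noncomputable def nd (d : Dart) : ℕ := ne (lb l y δ d.1) (lb l y δ (rgt d))

/-- number of changes in a triangle -/
noncomputable def nn (d : Dart) : ℕ := nd l y δ d + nd l y δ (rt d) + nd l y δ (rt (rt d))

/-- centroid -/
noncomputable def cen (d : Dart) : ℂ :=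
  (tc (pt y δ d.1) + tc (pt y δ (rt d).1) + tc (pt y δ (rt (rt d)).1)) / 3

/-- **positions** -/
noncomputable def zz (d : Dart) : ℂ :=
  if nn l y δ d = 0 then cen y δ d else
    ((nd l y δ d : ℂ) * qq l y δ d + (nd l y δ (rt d) : ℂ) * qq l y δ (rt d) +
      (nd l y δ (rt (rt d)) : ℂ) * qq l y δ (rt (rt d))) / (nn l y δ d : ℂ)

variable {l y δ}

theorem zz_rt (d : Dart) : zz l y δ (rt d) = zz l y δ d := by
  have h1 : nn l y δ (rt d) = nn l y δ d := by
    unfold nn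
    rw [Lb.rt3]
    ring
  have h2 : cen y δ (rt d) = cen y δ d := by
    unfold cen
    rw [Lb.rt3]
    ring
  unfold zz
  rw [h1, h2, Lb.rt3]
  congr 2
  ring

theorem zz_cons : Cons (zz l y δ) := Lb.cons_iff.2 zz_rt

theorem nu_refl (f : ℝ → ℝ) : ∫ t, f (1 - t) ∂nu = ∫ t, f t ∂nu := by
  unfold nu
  rw [← intervalIntegral.integral_of_le zero_le_one, ← intervalIntegral.integral_of_le zero_le_one]
  have := intervalIntegral.integral_comp_sub_left (a := 0) (b := 1) f (1 : ℝ)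
  simp only [sub_self, sub_zero] at this
  exact this

theorem frac_rev (E : Set Plane) (x a : Plane) : frac E (x + a) (-a) = frac E x a := by
  unfold frac
  rw [← nu_refl (fun t => ch E (x + t • a))]
  congr 1
  funext t
  congr 1
  rw [sub_smul, one_smul, smul_neg]
  abel

theorem pt_rgt (d : Dart) : pt y δ (rgt d) = pt y δ d.1 + δ • ev d.2 := pt_add y δ _ _

theorem th_rev (d : Dart) : th l y δ (rev d) = 1 - th l y δ d := by
  unfold th
  rw [Lb.rgt_rev, Lb.rev_fst, pt_rgt]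
  have e : δ • ev (rev d).2 = -(δ • ev d.2) := by
    show δ • ev (d.2 + 3) = _
    rw [ev_opp, smul_neg]
  rw [e, frac_rev, frac_rev]
  ring

theorem qq_rev (d : Dart) : qq l y δ (rev d) = qq l y δ d := by
  unfold qq
  rw [th_rev, Lb.rev_fst, pt_rgt]
  have e : δ • ev (rev d).2 = -(δ • ev d.2) := by
    show δ • ev (d.2 + 3) = _
    rw [ev_opp, smul_neg]
  rw [e, tc_neg, tc_add]
  push_cast
  ring

end

end Run7.h761
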