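import Pool.Agent.Run7.h761.Geo

/-! The inequality in one triangle. -/

set_option autoImplicit false

namespace Run7.h761

open MeasureTheory Set Filter Topology
open scoped ENNReal

open Lb (Site Dart dr rgt thd rev rt InI ID ca ar tl len Cons)

section

variable {N : ℕ} (l : Plane → Fin (N + 1)) (y : Plane) (δ : ℝ)

/-- fraction of a label on an edge -/
noncomputable def fr (i : Fin (N + 1)) (d : Dart) : ℝ := frac (Es l i) (pt y δ d.1) (δ • ev d.2)

/-- flux vector -/
noncomputable def WW (i : Fin (N + 1)) (d : Dart) : Plane :=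
  fr l y δ i d • (δ • ev d.2) + fr l y δ i (rt d) • (δ • ev (rt d).2) +
    fr l y δ i (rt (rt d)) • (δ • ev (rt (rt d)).2)

/-- excess of an edge -/
noncomputable def ex (d : Dart) : ℝ := exv l (pt y δ d.1) (δ • ev d.2)

/-- left side -/
noncomputable def SL (d : Dart) : ℝ :=
  (nd l y δ d : ℝ) * ‖zz l y δ d - qq l y δ d‖ + (nd l y δ (rt d) : ℝ) * ‖zz l y δ d - qq l y δ (rt d)‖ +
    (nd l y δ (rt (rt d)) : ℝ) * ‖zz l y δ d - qq l y δ (rt (rt d))‖

/-- right side -/
noncomputable def RR (d : Dart) : ℝ :=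
  (∑ i, ‖WW l y δ i d‖) / 2 + 3 / 4 * δ * (ex l y δ d + ex l y δ (rt d) + ex l y δ (rt (rt d))) +
    9 * δ * (if nn l y δ d = 3 then 1 else 0)

variable {l y δ}

theorem SS_rt (d : Dart) : SL l y δ (rt d) = SL l y δ d := by
  unfold SL
  rw [zz_rt, Lb.rt3]
  ring

theorem nn_rt (d : Dart) : nn l y δ (rt d) = nn l y δ d := by
  unfold nn
  rw [Lb.rt3]
  ring

theorem WW_rt (i : Fin (N + 1)) (d : Dart) : WW l y δ i (rt d) = WW l y δ i d := by
  unfold WW
  rw [Lb.rt3]
  abel

theorem RR_rt (d : Dart) : RR l y δ (rt d) = RR l y δ d := by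
  unfold RR
  rw [nn_rt, Lb.rt3]
  simp only [WW_rt]
  ring

theorem rgt_rt (d : Dart) : rgt (rt d) = thd d := by
  unfold rgt rt thd
  simp only
  rw [add_assoc, ← Lb.dr_tri]

theorem rgt_rt2 (d : Dart) : rgt (rt (rt d)) = d.1 := by
  have : rgt (rt (rt d)) = (rt (rt (rt d))).1 := rfl
  rw [this, Lb.rt3]

theorem pt_rt (d : Dart) : pt y δ (rt d).1 = pt y δ d.1 + δ • ev d.2 := pt_add _ _ _ _

theorem pt_rt3 (d : Dart) : pt y δ d.1 = pt y δ (rt (rt d)).1 + δ • ev (rt (rt d)).2 := by
  have := pt_rt (y := y) (δ := δ) (rt (rt d))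
  rwa [Lb.rt3] at this

theorem ch_Es (i : Fin (N + 1)) (x : Plane) : ch (Es l i) x = 1 - (ne i (l x) : ℝ) := by
  unfold ch Es
  by_cases h : l x = i
  · rw [indicator_of_mem (by simpa using h), ne_eq_zero.2 h.symm]; simp
  · rw [indicator_of_notMem (by simpa using h), ne_eq_one.2 (fun e => h e.symm)]; simp

theorem measurableSet_Es (hl : LabOK l) (i : Fin (N + 1)) : MeasurableSet (Es l i) :=
  hl.meas (measurableSet_singleton i)

theorem frac_Es (hl : LabOK l) (i : Fin (N + 1)) (x a : Plane) :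
    frac (Es l i) x a = 1 - ∫ t, (ne i (l (x + t • a)) : ℝ) ∂nu := by
  unfold frac
  have h1 : ∀ t : ℝ, ch (Es l i) (x + t • a) = 1 - (ne i (l (x + t • a)) : ℝ) := fun t => ch_Es _ _
  simp_rw [h1]
  have hint : Integrable (fun t => (ne i (l (x + t • a)) : ℝ)) nu := by
    apply Integrable.of_bound (C := 1)
    · exact (measurable_ne_real measurable_const (hl.meas.comp (measurable_line x a))).aestronglyMeasurable
    · refine Eventually.of_forall fun t => ?_
      rw [Real.norm_eq_abs, abs_of_nonneg (ne_real_nonneg _ _)]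
      exact ne_real_le _ _
  rw [integral_sub (integrable_const _) hint, integral_const, nu_univ]
  simp

theorem exv_eq (hl : LabOK l) (x a : Plane) : exv l x a =
    2 - frac (Es l (l x)) x a - frac (Es l (l (x + a))) x a - (ne (l x) (l (x + a)) : ℝ) := by
  rw [frac_Es hl, frac_Es hl]
  unfold exv
  rw [integral_add (integrable_ne1 hl x a) (integrable_ne2 hl x a _)]
  have : ∀ t : ℝ, (ne (l (x + t • a)) (l (x + a)) : ℝ) = (ne (l (x + a)) (l (x + t • a)) : ℝ) := by
    intro t; rw [ne_comm']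
  simp_rw [this]
  ring

theorem frac_add_le (hl : LabOK l) {i i' : Fin (N + 1)} (h : i ≠ i') (x a : Plane) :
    frac (Es l i) x a + frac (Es l i') x a ≤ 1 := by
  unfold frac
  rw [← integral_add (integrable_seg (measurableSet_Es hl i) x a)
    (integrable_seg (measurableSet_Es hl i') x a)]
  calc _ ≤ ∫ t, (1 : ℝ) ∂nu := by
        apply integral_mono ((integrable_seg (measurableSet_Es hl i) x a).add
          (integrable_seg (measurableSet_Es hl i') x a)) (integrable_const _)
        intro t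
        show ch (Es l i) (x + t • a) + ch (Es l i') (x + t • a) ≤ 1
        rw [ch_Es, ch_Es]
        by_cases h1 : i = l (x + t • a)
        · have h2 : i' ≠ l (x + t • a) := fun e => h (h1.trans e.symm)
          rw [ne_eq_one.2 h2, ne_eq_zero.2 h1]; simp
        · rw [ne_eq_one.2 h1]
          have := ne_real_nonneg i' (l (x + t • a))
          push_cast
          linarith
    _ = 1 := by rw [integral_const, nu_univ]; simp

theorem ex_eq (hl : LabOK l) (d : Dart) : ex l y δ d =
    2 - fr l y δ (lb l y δ d.1) d - fr l y δ (lb l y δ (rgt d)) d - (nd l y δ d : ℝ) := by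
  unfold ex
  rw [exv_eq hl]
  unfold fr nd lb
  rw [pt_rgt]

theorem ex_nonneg (hl : LabOK l) (d : Dart) : 0 ≤ ex l y δ d := exv_nonneg hl _ _

theorem RR_nonneg (hl : LabOK l) (hδ : 0 ≤ δ) (d : Dart) : 0 ≤ RR l y δ d := by
  unfold RR
  have h1 := ex_nonneg (y := y) (δ := δ) hl d
  have h2 := ex_nonneg (y := y) (δ := δ) hl (rt d)
  have h3 := ex_nonneg (y := y) (δ := δ) hl (rt (rt d))
  have h4 : 0 ≤ ∑ i, ‖WW l y δ i d‖ := Finset.sum_nonneg fun _ _ => norm_nonneg _
  have h5 : (0 : ℝ) ≤ (if nn l y δ d = 3 then 1 else 0) := by split_ifs <;> norm_num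
  positivity

theorem edge_le (hδ : 0 ≤ δ) (d : Dart) : ‖tc (δ • ev d.2)‖ ≤ 3 / 2 * δ := by
  rw [norm_tc, norm_smul, Real.norm_eq_abs, abs_of_nonneg hδ]
  have := norm_ev_le d.2
  nlinarith

/-- triangle with two labels, the first vertex being special -/
theorem tri_two (hl : LabOK l) (hδ : 0 ≤ δ) (d : Dart) (h12 : lb l y δ d.1 ≠ lb l y δ (rgt d))
    (h23 : lb l y δ (rgt d) = lb l y δ (thd d)) : SL l y δ d ≤ RR l y δ d := by
  have n1 : nd l y δ d = 1 := ne_eq_one.2 h12
  have n2 : nd l y δ (rt d) = 0 := by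
    unfold nd
    rw [rgt_rt]
    exact ne_eq_zero.2 h23
  have n3 : nd l y δ (rt (rt d)) = 1 := by
    unfold nd
    rw [rgt_rt2, Lb.rt2]
    simp only
    rw [← h23]
    exact ne_eq_one.2 h12.symm
  have nnn : nn l y δ d = 2 := by unfold nn; omega
  have hz : zz l y δ d = (qq l y δ d + qq l y δ (rt (rt d))) / 2 := by
    unfold zz
    rw [nnn, n1, n2, n3, if_neg (by norm_num)]
    push_cast
    ring
  have hSS : SL l y δ d = ‖qq l y δ d - qq l y δ (rt (rt d))‖ := by
    unfold SL
    rw [n1, n2, n3, hz]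
    have e1 : (qq l y δ d + qq l y δ (rt (rt d))) / 2 - qq l y δ d =
        -((qq l y δ d - qq l y δ (rt (rt d))) / 2) := by ring
    have e2 : (qq l y δ d + qq l y δ (rt (rt d))) / 2 - qq l y δ (rt (rt d)) =
        (qq l y δ d - qq l y δ (rt (rt d))) / 2 := by ring
    rw [e1, e2, norm_neg, norm_div]
    simp
  rw [hSS]
  -- set up
  have hp12 : tc (pt y δ (rt d).1) - tc (pt y δ d.1) = tc (δ • ev d.2) := by
    rw [pt_rt, tc_add]; ring
  have hp23 : tc (pt y δ (rt (rt d)).1) - tc (pt y δ (rt d).1) = tc (δ • ev (rt d).2) := by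
    rw [pt_rt (rt d), tc_add]; ring
  have hp31 : tc (pt y δ d.1) - tc (pt y δ (rt (rt d)).1) = tc (δ • ev (rt (rt d)).2) := by
    rw [pt_rt3 d, tc_add]; ring
  have hL2 : lb l y δ (rt d).1 = lb l y δ (rgt d) := rfl
  have hL3 : lb l y δ (rt (rt d)).1 = lb l y δ (rgt d) := by
    rw [Lb.rt2]; exact h23.symm
  have x1 := ex_eq (y := y) (δ := δ) hl d
  have x2 := ex_eq (y := y) (δ := δ) hl (rt d)
  have x3 := ex_eq (y := y) (δ := δ) hl (rt (rt d))
  rw [n1] at x1
  rw [n2, rgt_rt, ← h23, hL2] at x2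
  rw [n3, rgt_rt2, hL3] at x3
  push_cast at x1 x2 x3
  have key := two_lab (tc (pt y δ d.1)) (tc (pt y δ (rt d).1)) (tc (pt y δ (rt (rt d)).1))
    (f1 := fr l y δ (lb l y δ d.1) d) (f2 := fr l y δ (lb l y δ d.1) (rt d))
    (f3 := fr l y δ (lb l y δ d.1) (rt (rt d))) (g1 := fr l y δ (lb l y δ (rgt d)) d)
    (g2 := fr l y δ (lb l y δ (rgt d)) (rt d)) (g3 := fr l y δ (lb l y δ (rgt d)) (rt (rt d)))
    (e1 := ex l y δ d) (e2 := ex l y δ (rt d)) (e3 := ex l y δ (rt (rt d))) (D := 3 / 2 * δ)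
    (by rw [x1]; ring) (by rw [x3]; ring) (by rw [x2]; ring) (ex_nonneg hl _) (ex_nonneg hl _)
    (frac_nonneg _ _ _) (frac_add_le hl h12 _ _)
    (by rw [hp12]; exact edge_le hδ d) (by rw [hp23]; exact edge_le hδ (rt d))
    (by rw [hp31]; exact edge_le hδ (rt (rt d)))
  rw [hp12, hp23, hp31] at key
  have hq1 : qq l y δ d = tc (pt y δ d.1) + (((fr l y δ (lb l y δ d.1) d + 1 -
      fr l y δ (lb l y δ (rgt d)) d) / 2 : ℝ) : ℂ) * tc (δ • ev d.2) := rfl
  have hq3 : qq l y δ (rt (rt d)) = tc (pt y δ (rt (rt d)).1) +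
      (((fr l y δ (lb l y δ (rgt d)) (rt (rt d)) + 1 -
      fr l y δ (lb l y δ d.1) (rt (rt d))) / 2 : ℝ) : ℂ) * tc (δ • ev (rt (rt d)).2) := by
    unfold qq th
    rw [rgt_rt2, hL3]
    rfl
  rw [← hq1, ← hq3] at key
  have hW : ∀ i, ‖(fr l y δ i d : ℂ) * tc (δ • ev d.2) + (fr l y δ i (rt d) : ℂ) * tc (δ • ev (rt d).2) +
      (fr l y δ i (rt (rt d)) : ℂ) * tc (δ • ev (rt (rt d)).2)‖ = ‖WW l y δ i d‖ := by
    intro i
    rw [← norm_tc]
    unfold WW
    rw [tc_add, tc_add, tc_smul (fr l y δ i d), tc_smul (fr l y δ i (rt d)),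
      tc_smul (fr l y δ i (rt (rt d)))]
  rw [hW, hW] at key
  have hsum : ‖WW l y δ (lb l y δ d.1) d‖ + ‖WW l y δ (lb l y δ (rgt d)) d‖ ≤ ∑ i, ‖WW l y δ i d‖ := by
    rw [← Finset.sum_pair (f := fun i => ‖WW l y δ i d‖) h12]
    exact Finset.sum_le_sum_of_subset_of_nonneg (Finset.subset_univ _) fun _ _ _ => norm_nonneg _
  unfold RR
  rw [nnn, if_neg (by norm_num)]
  linarith

theorem th_mem (hl : LabOK l) (d : Dart) : 0 ≤ th l y δ d ∧ th l y δ d ≤ 1 := by
  unfold th
  have h1 := frac_nonneg (Es l (lb l y δ d.1)) (pt y δ d.1) (δ • ev d.2)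
  have h2 := frac_nonneg (Es l (lb l y δ (rgt d))) (pt y δ d.1) (δ • ev d.2)
  have h3 := frac_le (measurableSet_Es hl (lb l y δ d.1)) (pt y δ d.1) (δ • ev d.2)
  have h4 := frac_le (measurableSet_Es hl (lb l y δ (rgt d))) (pt y δ d.1) (δ • ev d.2)
  constructor <;> linarith

theorem qq_dist (hl : LabOK l) (hδ : 0 ≤ δ) (d : Dart) :
    ‖qq l y δ d - qq l y δ (rt d)‖ ≤ 3 * δ := by
  have e : qq l y δ d - qq l y δ (rt d) = -(((1 - th l y δ d : ℝ) : ℂ) * tc (δ • ev d.2)) -
      (th l y δ (rt d) : ℂ) * tc (δ • ev (rt d).2) := by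
    unfold qq
    rw [pt_rt, tc_add]
    push_cast
    ring
  rw [e]
  refine (norm_sub_le _ _).trans ?_
  rw [norm_neg, norm_mul, norm_mul, Complex.norm_real, Complex.norm_real, Real.norm_eq_abs,
    Real.norm_eq_abs]
  have h1 := th_mem (y := y) (δ := δ) hl d
  have h2 := th_mem (y := y) (δ := δ) hl (rt d)
  rw [abs_of_nonneg (by linarith), abs_of_nonneg h2.1]
  have h3 := edge_le hδ d
  have h4 := edge_le hδ (rt d)
  have h5 := norm_nonneg (tc (δ • ev d.2))
  have h6 := norm_nonneg (tc (δ • ev (rt d).2))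
  nlinarith [mul_nonneg h1.1 h5, mul_nonneg (sub_nonneg.2 h2.2) h6]

/-- **the inequality in one triangle** -/
theorem tri_ineq (hl : LabOK l) (hδ : 0 ≤ δ) (d : Dart) : SL l y δ d ≤ RR l y δ d := by
  have n1 : nd l y δ d = ne (lb l y δ d.1) (lb l y δ (rgt d)) := rfl
  have n2 : nd l y δ (rt d) = ne (lb l y δ (rgt d)) (lb l y δ (thd d)) := by
    unfold nd
    rw [rgt_rt]
    rfl
  have n3 : nd l y δ (rt (rt d)) = ne (lb l y δ (thd d)) (lb l y δ d.1) := by
    unfold nd
    rw [rgt_rt2, Lb.rt2]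
  by_cases h12 : lb l y δ d.1 = lb l y δ (rgt d)
  · by_cases h23 : lb l y δ (rgt d) = lb l y δ (thd d)
    · have : SL l y δ d = 0 := by
        unfold SL
        rw [n1, n2, n3, ne_eq_zero.2 h12, ne_eq_zero.2 h23, ne_eq_zero.2 (h12.trans h23).symm]
        simp
      rw [this]
      exact RR_nonneg hl hδ d
    · -- third vertex special
      rw [← SS_rt, ← RR_rt, ← SS_rt, ← RR_rt]
      apply tri_two hl hδ
      · rw [rgt_rt2, Lb.rt2]
        simp only
        rw [h12]
        exact fun e => h23 e.symm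
      · rw [rgt_rt2]
        have : thd (rt (rt d)) = rgt d := by
          rw [← rgt_rt, Lb.rt3]
        rw [this]
        exact h12
  · by_cases h23 : lb l y δ (rgt d) = lb l y δ (thd d)
    · exact tri_two hl hδ d h12 h23
    · by_cases h13 : lb l y δ (thd d) = lb l y δ d.1
      · -- second vertex special
        rw [← SS_rt, ← RR_rt]
        apply tri_two hl hδ
        · rw [rgt_rt]; exact h23
        · rw [rgt_rt]
          have : thd (rt d) = d.1 := by
            rw [← rgt_rt, rgt_rt2]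
          rw [this]
          exact h13
      · -- three labels
        have m1 : nd l y δ d = 1 := by rw [n1]; exact ne_eq_one.2 h12
        have m2 : nd l y δ (rt d) = 1 := by rw [n2]; exact ne_eq_one.2 h23
        have m3 : nd l y δ (rt (rt d)) = 1 := by rw [n3]; exact ne_eq_one.2 h13
        have nnn : nn l y δ d = 3 := by unfold nn; omega
        have a1 := qq_dist (y := y) hl hδ d
        have a2 := qq_dist (y := y) hl hδ (rt d)
        have a3 := qq_dist (y := y) hl hδ (rt (rt d))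
        rw [Lb.rt3] at a3
        have hz : zz l y δ d = (qq l y δ d + qq l y δ (rt d) + qq l y δ (rt (rt d))) / 3 := by
          unfold zz
          rw [nnn, m1, m2, m3, if_neg (by norm_num)]
          push_cast
          ring
        have hS : SL l y δ d ≤ 6 * δ := by
          unfold SL
          rw [m1, m2, m3, hz]
          set q1 := qq l y δ d
          set q2 := qq l y δ (rt d)
          set q3 := qq l y δ (rt (rt d))
          have gen : ∀ a b : ℂ, ‖a‖ ≤ 3 * δ → ‖b‖ ≤ 3 * δ → ‖(a + b) / 3‖ ≤ 2 * δ := by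
            intro a b ha hb
            rw [norm_div]
            have : ‖(3 : ℂ)‖ = 3 := by simp
            rw [this, div_le_iff₀ (by norm_num)]
            refine (norm_add_le _ _).trans ?_
            linarith
          have e1 : (q1 + q2 + q3) / 3 - q1 = (-(q1 - q2) + (q3 - q1)) / 3 := by ring
          have e2 : (q1 + q2 + q3) / 3 - q2 = ((q1 - q2) + -(q2 - q3)) / 3 := by ring
          have e3 : (q1 + q2 + q3) / 3 - q3 = (-(q3 - q1) + (q2 - q3)) / 3 := by ring
          rw [e1, e2, e3]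
          have g1 := gen (-(q1 - q2)) (q3 - q1) (by rw [norm_neg]; exact a1) a3
          have g2 := gen (q1 - q2) (-(q2 - q3)) a1 (by rw [norm_neg]; exact a2)
          have g3 := gen (-(q3 - q1)) (q2 - q3) (by rw [norm_neg]; exact a3) a2
          push_cast
          linarith
        have hR : 9 * δ ≤ RR l y δ d := by
          unfold RR
          rw [nnn, if_pos rfl]
          have h1 := ex_nonneg (y := y) (δ := δ) hl d
          have h2 := ex_nonneg (y := y) (δ := δ) hl (rt d)
          have h3 := ex_nonneg (y := y) (δ := δ) hl (rt (rt d))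
          have h4 : 0 ≤ ∑ i, ‖WW l y δ i d‖ := Finset.sum_nonneg fun _ _ => norm_nonneg _
          have h5 : 0 ≤ 3 / 4 * δ * (ex l y δ d + ex l y δ (rt d) + ex l y δ (rt (rt d))) := by positivity
          linarith
        linarith

end

end Run7.h761
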