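import Pool.Agent.Run7.h761.Geo2

/-! Areas of the cells of the lattice cluster. -/

set_option autoImplicit false

namespace Run7.h761

open MeasureTheory Set Filter Topology
open scoped ENNReal

open Lb (Site Dart dr rgt thd rev rt InI ID ca ar tl len Cons)

section

variable {N : ℕ} {l : Plane → Fin (N + 1)} {y : Plane} {δ : ℝ}

theorem ev_a (j : Fin 6) : δ • ev (j + 2) = δ • ev (j + 1) - δ • ev j := by
  rw [ev_tri j, smul_add]; abel

theorem ev_b (j : Fin 6) : δ • ev (j + 4) = -(δ • ev (j + 1)) := by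
  have : j + 4 = (j + 1) + 3 := by revert j; decide
  rw [this, ev_opp, smul_neg]

theorem WW_eq (i : Fin (N + 1)) (d : Dart) :
    WW l y δ i d = wv (Es l i) (δ • ev d.2) (δ • ev (d.2 + 1)) (pt y δ d.1) := by
  have h1 : (rt d).2 = d.2 + 2 := rfl
  have h2 : (rt (rt d)).2 = d.2 + 4 := by rw [Lb.rt2]
  have h3 : pt y δ (rt (rt d)).1 = pt y δ d.1 + δ • ev (d.2 + 1) := by
    rw [Lb.rt2]; exact pt_add _ _ _ _
  unfold WW fr wv
  rw [h3, pt_rt, h1, h2, ev_a, ev_b]

theorem bary (hl : LabOK l) (s : Site) (j : Fin 6) : ∃ α β : ℝ, 0 ≤ α ∧ 0 ≤ β ∧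
    zz l y δ (s, j) = tc (pt y δ s) + ((α : ℂ) * tc (δ • ev j) + (β : ℂ) * tc (δ • ev (j + 1))) ∧
    (nn l y δ (s, j) = 0 → α = 1 / 3 ∧ β = 1 / 3) := by
  set d : Dart := (s, j) with hd
  have p2 : tc (pt y δ (rt d).1) = tc (pt y δ s) + tc (δ • ev j) := by rw [pt_rt, tc_add]
  have p3 : tc (pt y δ (rt (rt d)).1) = tc (pt y δ s) + tc (δ • ev (j + 1)) := by
    rw [Lb.rt2]
    show tc (pt y δ (s + dr (j + 1))) = _
    rw [pt_add, tc_add]
  by_cases h0 : nn l y δ d = 0
  · refine ⟨1 / 3, 1 / 3, by norm_num, by norm_num, ?_, fun _ => ⟨rfl, rfl⟩⟩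
    unfold zz
    rw [if_pos h0]
    unfold cen
    rw [p2, p3]
    push_cast
    have : pt y δ d.1 = pt y δ s := rfl
    rw [this]
    ring
  · have hn : (0 : ℝ) < nn l y δ d := by exact_mod_cast Nat.pos_of_ne_zero h0
    set n1 := nd l y δ d with hn1
    set n2 := nd l y δ (rt d) with hn2
    set n3 := nd l y δ (rt (rt d)) with hn3
    set t1 := th l y δ d with ht1
    set t2 := th l y δ (rt d) with ht2
    set t3 := th l y δ (rt (rt d)) with ht3
    have m1 : 0 ≤ t1 ∧ t1 ≤ 1 := th_mem hl d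
    have m2 : 0 ≤ t2 ∧ t2 ≤ 1 := th_mem hl (rt d)
    have m3 : 0 ≤ t3 ∧ t3 ≤ 1 := th_mem hl (rt (rt d))
    refine ⟨(n1 * t1 + n2 * (1 - t2)) / nn l y δ d, (n2 * t2 + n3 * (1 - t3)) / nn l y δ d, ?_, ?_, ?_,
      fun h => absurd h h0⟩
    · apply div_nonneg _ hn.le
      have a1 : (0 : ℝ) ≤ n1 := Nat.cast_nonneg _
      have a2 : (0 : ℝ) ≤ n2 := Nat.cast_nonneg _
      exact add_nonneg (mul_nonneg a1 m1.1) (mul_nonneg a2 (by linarith))
    · apply div_nonneg _ hn.le
      have a1 : (0 : ℝ) ≤ n2 := Nat.cast_nonneg _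
      have a2 : (0 : ℝ) ≤ n3 := Nat.cast_nonneg _
      exact add_nonneg (mul_nonneg a1 m2.1) (mul_nonneg a2 (by linarith))
    · have q1 : qq l y δ d = tc (pt y δ s) + (t1 : ℂ) * tc (δ • ev j) := rfl
      have q2 : qq l y δ (rt d) = tc (pt y δ s) + ((1 - t2 : ℝ) : ℂ) * tc (δ • ev j) +
          (t2 : ℂ) * tc (δ • ev (j + 1)) := by
        unfold qq
        rw [p2]
        have : (rt d).2 = j + 2 := rfl
        rw [this, ev_a, tc_sub]
        push_cast
        ring
      have q3 : qq l y δ (rt (rt d)) = tc (pt y δ s) +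
          ((1 - t3 : ℝ) : ℂ) * tc (δ • ev (j + 1)) := by
        unfold qq
        rw [p3]
        have : (rt (rt d)).2 = j + 4 := by rw [Lb.rt2]
        rw [this, ev_b, tc_neg]
        push_cast
        ring
      have hnn : (nn l y δ d : ℂ) = n1 + n2 + n3 := by
        have : nn l y δ d = n1 + n2 + n3 := rfl
        rw [this]
        push_cast
        ring
      have hnc : (nn l y δ d : ℂ) ≠ 0 := by exact_mod_cast h0
      unfold zz
      rw [if_neg h0, q1, q2, q3, div_eq_iff hnc]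
      push_cast
      have e : ∀ A B C : ℂ, (C + (A / (nn l y δ d : ℂ) * tc (δ • ev j) +
          B / (nn l y δ d : ℂ) * tc (δ • ev (j + 1)))) * (nn l y δ d : ℂ) =
          C * (nn l y δ d : ℂ) + (A * tc (δ • ev j) + B * tc (δ • ev (j + 1))) := by
        intro A B C
        field_simp
      rw [e, hnn]
      ring

theorem cr_w (hδ : 0 ≤ δ) (j : Fin 6) (α β α' β' : ℝ) :
    cr ((α : ℂ) * tc (δ • ev j) + (β : ℂ) * tc (δ • ev (j + 1)))
      ((α' : ℂ) * tc (δ • ev (j + 1)) + (β' : ℂ) * tc (δ • ev (j + 1 + 1))) =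
      δ ^ 2 * (α * α' + α * β' + β * β') := by
  rw [← tc_smul, ← tc_smul, ← tc_smul, ← tc_smul, ← tc_add, ← tc_add, cr_tc]
  simp only [om_add_left, om_add_right, om_smul_left, om_smul_right, om_self]
  have e : j + 1 + 1 = j + 2 := by revert j; decide
  have h1 := om_ev j
  have h2 := om_ev2 j
  have h3 := om_ev (j + 1)
  rw [e] at h3 ⊢
  rw [h1, h2, h3]
  ring

theorem ca_formula (s : Site) (w : Fin 6 → ℂ) (c : ℂ) (z : Dart → ℂ)
    (hz : ∀ j, z (s, j) = c + w j) : ca z s = (∑ j, cr (w (j + 5)) (w j)) / 2 := by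
  have h1 : ∀ j : Fin 6, ar z (s, j) = cr (w (j + 5)) (w j) + (cr c (w j) - cr c (w (j + 5))) := by
    intro j
    unfold ar tl
    simp only
    rw [hz, hz]
    unfold cr
    simp only [Complex.add_re, Complex.add_im]
    ring
  unfold ca
  rw [Finset.sum_congr rfl fun j _ => h1 j, Finset.sum_add_distrib, Finset.sum_sub_distrib]
  have h2 : ∑ j : Fin 6, cr c (w (j + 5)) = ∑ j : Fin 6, cr c (w j) :=
    Equiv.sum_comp (Equiv.addRight (5 : Fin 6)) (fun j => cr c (w j))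
  rw [h2, sub_self, add_zero]

theorem ca_zz (hl : LabOK l) (hδ : 0 ≤ δ) (s : Site) : 0 ≤ ca (zz l y δ) s ∧
    ((∀ j, lb l y δ (s + dr j) = lb l y δ s) → ca (zz l y δ) s = δ ^ 2) := by
  choose α β hα hβ hzz hgood using fun j => bary (y := y) (δ := δ) hl s j
  have h1 := ca_formula s (fun j => (α j : ℂ) * tc (δ • ev j) + (β j : ℂ) * tc (δ • ev (j + 1)))
    (tc (pt y δ s)) (zz l y δ) hzz
  have h2 : ∀ j : Fin 6, cr ((α (j + 5) : ℂ) * tc (δ • ev (j + 5)) + (β (j + 5) : ℂ) *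
      tc (δ • ev (j + 5 + 1))) ((α j : ℂ) * tc (δ • ev j) + (β j : ℂ) * tc (δ • ev (j + 1))) =
      δ ^ 2 * (α (j + 5) * α j + α (j + 5) * β j + β (j + 5) * β j) := by
    intro j
    have h3 := cr_w hδ (j + 5) (α (j + 5)) (β (j + 5)) (α j) (β j)
    rw [Lb.fin6_a] at h3 ⊢
    exact h3
  simp only [h2] at h1
  constructor
  · rw [h1]
    apply div_nonneg _ (by norm_num)
    apply Finset.sum_nonneg
    intro j _
    have a1 := hα (j + 5)
    have a2 := hα j
    have a3 := hβ (j + 5)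
    have a4 := hβ j
    positivity
  · intro hall
    have hnn : ∀ j, nn l y δ (s, j) = 0 := by
      intro j
      have n1 : nd l y δ (s, j) = 0 := ne_eq_zero.2 (hall j).symm
      have n2 : nd l y δ (rt (s, j)) = 0 := by
        unfold nd
        rw [rgt_rt]
        exact ne_eq_zero.2 ((hall j).trans (hall (j + 1)).symm)
      have n3 : nd l y δ (rt (rt (s, j))) = 0 := by
        unfold nd
        rw [rgt_rt2, Lb.rt2]
        exact ne_eq_zero.2 (hall (j + 1))
      unfold nn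
      omega
    rw [h1]
    have h3 : ∀ j : Fin 6, δ ^ 2 * (α (j + 5) * α j + α (j + 5) * β j + β (j + 5) * β j) = δ ^ 2 / 3 := by
      intro j
      obtain ⟨g1, g2⟩ := hgood j (hnn j)
      obtain ⟨g3, g4⟩ := hgood (j + 5) (hnn (j + 5))
      rw [g1, g2, g3, g4]
      ring
    rw [Finset.sum_congr rfl fun j _ => h3 j, Finset.sum_const, Finset.card_univ, Fintype.card_fin,
      nsmul_eq_mul]
    push_cast
    ring

end

end Run7.h761
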