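import Pool.Agent.Run7.h761.Defs

/-! Green's theorem on triangles. -/

set_option autoImplicit false

namespace Run7.h761

open MeasureTheory Set intervalIntegral
open scoped ENNReal

/-- coordinates -/
noncomputable def phi : Plane ≃L[ℝ] ℝ × ℝ :=
  (EuclideanSpace.equiv (Fin 2) ℝ).trans (ContinuousLinearEquiv.finTwoArrow ℝ ℝ)

theorem phi_apply (x : Plane) : phi x = (x 0, x 1) := rfl

theorem phi_mp : MeasurePreserving (phi : Plane → ℝ × ℝ) volume volume := by
  have h1 := EuclideanSpace.volume_preserving_symm_measurableEquiv_toLp (Fin 2)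
  have h2 := volume_preserving_finTwoArrow ℝ
  exact h2.comp h1

/-- the area form -/
def om (u v : Plane) : ℝ := u 0 * v 1 - u 1 * v 0

theorem om_add_left (u v w : Plane) : om (u + v) w = om u w + om v w := by
  simp [om]; ring

theorem om_add_right (u v w : Plane) : om u (v + w) = om u v + om u w := by
  simp [om]; ring

theorem om_sub_left (u v w : Plane) : om (u - v) w = om u w - om v w := by
  simp [om]; ring

theorem om_sub_right (u v w : Plane) : om u (v - w) = om u v - om u w := by
  simp [om]; ring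

theorem om_smul_left (c : ℝ) (u v : Plane) : om (c • u) v = c * om u v := by
  simp [om]; ring

theorem om_smul_right (c : ℝ) (u v : Plane) : om u (c • v) = c * om u v := by
  simp [om]; ring

theorem om_self (u : Plane) : om u u = 0 := by simp [om]; ring

theorem om_swap (u v : Plane) : om u v = - om v u := by simp [om]; ring

theorem om_neg_right (u v : Plane) : om u (-v) = - om u v := by simp [om]; ring

theorem abs_om_le (u v : Plane) : |om u v| ≤ ‖u‖ * ‖v‖ := by
  have hu : ‖u‖ = √(u 0 ^ 2 + u 1 ^ 2) := by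
    rw [EuclideanSpace.norm_eq]; simp
  have hv : ‖v‖ = √(v 0 ^ 2 + v 1 ^ 2) := by
    rw [EuclideanSpace.norm_eq]; simp
  rw [hu, hv, ← Real.sqrt_mul (by positivity)]
  apply Real.abs_le_sqrt
  unfold om
  nlinarith [sq_nonneg (u 0 * v 0 + u 1 * v 1)]

/-- the open standard simplex -/
def simp2 : Set (ℝ × ℝ) := {z | 0 < z.1 ∧ 0 < z.2 ∧ z.1 + z.2 < 1}

theorem isOpen_simp2 : IsOpen simp2 := by
  unfold simp2
  exact (isOpen_lt continuous_const continuous_fst).inter
    ((isOpen_lt continuous_const continuous_snd).inter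
      (isOpen_lt (continuous_fst.add continuous_snd) continuous_const))

theorem simp2_subset : simp2 ⊆ Icc (0 : ℝ) 1 ×ˢ Icc (0 : ℝ) 1 := by
  rintro ⟨s, t⟩ ⟨h1, h2, h3⟩
  simp only at h1 h2 h3
  exact ⟨⟨h1.le, by simp only; linarith⟩, ⟨h2.le, by simp only; linarith⟩⟩

theorem integrableOn_simp2 {H : ℝ × ℝ → ℝ} (hH : Continuous H) : IntegrableOn H simp2 := by
  refine IntegrableOn.mono_set ?_ simp2_subset
  exact hH.continuousOn.integrableOn_compact (isCompact_Icc.prod isCompact_Icc)

theorem integral_simp2 {H : ℝ × ℝ → ℝ} (hH : Continuous H) :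
    ∫ z in simp2, H z = ∫ t in (0:ℝ)..1, ∫ s in (0:ℝ)..(1 - t), H (s, t) := by
  rw [← MeasureTheory.integral_indicator isOpen_simp2.measurableSet]
  have hi : Integrable (simp2.indicator H) :=
    (integrable_indicator_iff isOpen_simp2.measurableSet).2 (integrableOn_simp2 hH)
  have hi' : Integrable (simp2.indicator H) ((volume : Measure ℝ).prod volume) := hi
  rw [show (∫ z, simp2.indicator H z) = ∫ z, simp2.indicator H z ∂((volume : Measure ℝ).prod volume) from rfl,
    MeasureTheory.integral_prod_symm _ hi', intervalIntegral.integral_of_le zero_le_one,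
    MeasureTheory.integral_Ioc_eq_integral_Ioo, ← MeasureTheory.integral_indicator measurableSet_Ioo]
  congr 1
  funext t
  by_cases ht : t ∈ Ioo (0:ℝ) 1
  · rw [indicator_of_mem ht, intervalIntegral.integral_of_le (by linarith [ht.2]),
      MeasureTheory.integral_Ioc_eq_integral_Ioo, ← MeasureTheory.integral_indicator measurableSet_Ioo]
    congr 1
    funext s
    by_cases hs : s ∈ Ioo (0:ℝ) (1 - t)
    · rw [indicator_of_mem hs, indicator_of_mem]
      exact ⟨hs.1, ht.1, by simp only; linarith [hs.2]⟩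
    · rw [indicator_of_notMem hs, indicator_of_notMem]
      rintro ⟨h1, h2, h3⟩
      exact hs ⟨h1, by simp only at h3; linarith⟩
  · rw [indicator_of_notMem ht]
    have : ∀ s, simp2.indicator H (s, t) = 0 := by
      intro s
      apply indicator_of_notMem
      rintro ⟨h1, h2, h3⟩
      simp only at h1 h2 h3
      exact ht ⟨h2, by linarith⟩
    simp [this]

theorem integral_simp2_swap (H : ℝ × ℝ → ℝ) :
    ∫ z in simp2, H z = ∫ z in simp2, H z.swap := by
  have h := (Measure.measurePreserving_swap (μ := (volume : Measure ℝ)) (ν := (volume : Measure ℝ)))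
  have h2 := h.setIntegral_preimage_emb (MeasurableEquiv.prodComm.measurableEmbedding) H simp2
  rw [show (volume : Measure (ℝ × ℝ)) = (volume : Measure ℝ).prod volume from rfl, ← h2]
  congr 2
  ext ⟨s, t⟩
  simp only [mem_preimage, simp2, mem_ofPred_eq, Prod.swap_prod_mk]
  constructor
  · rintro ⟨a, b, c⟩; exact ⟨b, a, by linarith⟩
  · rintro ⟨a, b, c⟩; exact ⟨b, a, by linarith⟩

theorem simp2_fst {G : ℝ × ℝ → ℝ} (hG : ContDiff ℝ 1 G) :
    ∫ z in simp2, fderiv ℝ G z (1, 0) = ∫ t in (0:ℝ)..1, (G (1 - t, t) - G (0, t)) := by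
  have hc : Continuous fun z => fderiv ℝ G z (1, 0) :=
    (hG.continuous_fderiv (by norm_num)).clm_apply continuous_const
  rw [integral_simp2 hc]
  apply intervalIntegral.integral_congr
  intro t _
  simp only
  have hd : ∀ s ∈ uIcc (0:ℝ) (1 - t), HasDerivAt (fun s => G (s, t)) (fderiv ℝ G (s, t) (1, 0)) s := by
    intro s _
    have h1 : HasFDerivAt G (fderiv ℝ G (s, t)) (s, t) :=
      (hG.differentiable (by norm_num) _).hasFDerivAt
    have h2 : HasDerivAt (fun s : ℝ => (s, t)) ((1 : ℝ), (0 : ℝ)) s :=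
      (hasDerivAt_id s).prodMk (hasDerivAt_const s t)
    exact h1.comp_hasDerivAt s h2
  rw [intervalIntegral.integral_eq_sub_of_hasDerivAt hd]
  exact (hc.comp (by fun_prop : Continuous fun s : ℝ => (s, t))).intervalIntegrable _ _

theorem simp2_snd {G : ℝ × ℝ → ℝ} (hG : ContDiff ℝ 1 G) :
    ∫ z in simp2, fderiv ℝ G z (0, 1) = ∫ s in (0:ℝ)..1, (G (s, 1 - s) - G (s, 0)) := by
  have hsw : ContDiff ℝ 1 (fun z : ℝ × ℝ => G z.swap) :=
    hG.comp (contDiff_snd.prodMk contDiff_fst)
  have h := simp2_fst hsw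
  rw [integral_simp2_swap]
  simp only [Prod.swap_prod_mk] at h
  rw [← h]
  congr 1
  funext z
  have h1 : HasFDerivAt G (fderiv ℝ G z.swap) z.swap :=
    (hG.differentiable (by norm_num) _).hasFDerivAt
  have h2 : HasFDerivAt (Prod.swap : ℝ × ℝ → ℝ × ℝ)
      ((ContinuousLinearMap.snd ℝ ℝ ℝ).prod (ContinuousLinearMap.fst ℝ ℝ ℝ)) z :=
    ((ContinuousLinearMap.snd ℝ ℝ ℝ).prod (ContinuousLinearMap.fst ℝ ℝ ℝ)).hasFDerivAt
  have h3 : HasFDerivAt (fun z : ℝ × ℝ => G z.swap) _ z := h1.comp z h2
  rw [h3.fderiv]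
  simp

/-- the affine map with vertices `o`, `o + u`, `o + v` -/
noncomputable def amap (o u v : Plane) (z : ℝ × ℝ) : Plane := o + z.1 • u + z.2 • v

/-- the open triangle with vertices `o`, `o + u`, `o + v` -/
noncomputable def tri (o u v : Plane) : Set Plane := amap o u v '' simp2

theorem integral_tri {o u v : Plane} (h : 0 < om u v) (g : Plane → ℝ) :
    ∫ x in tri o u v, g x = om u v * ∫ z in simp2, g (amap o u v z) := by
  set L : Plane →L[ℝ] Plane :=
    ((ContinuousLinearMap.fst ℝ ℝ ℝ).comp (phi : Plane →L[ℝ] ℝ × ℝ)).smulRight u +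
    ((ContinuousLinearMap.snd ℝ ℝ ℝ).comp (phi : Plane →L[ℝ] ℝ × ℝ)).smulRight v with hL
  have hLa : ∀ x, L x = x 0 • u + x 1 • v := by intro x; rfl
  have hdet : L.det = om u v := by
    have : L.det = LinearMap.det (L : Plane →ₗ[ℝ] Plane) := rfl
    rw [this, ← LinearMap.det_toMatrix (EuclideanSpace.basisFun (Fin 2) ℝ).toBasis,
      Matrix.det_fin_two]
    simp [LinearMap.toMatrix_apply, hLa, om]
    ring
  have himg : tri o u v = (fun x => amap o u v (phi x)) '' ((phi : Plane → ℝ × ℝ) ⁻¹' simp2) := by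
    unfold tri
    ext y
    constructor
    · rintro ⟨z, hz, rfl⟩
      exact ⟨phi.symm z, by simpa using hz, by simp⟩
    · rintro ⟨x, hx, rfl⟩
      exact ⟨phi x, hx, rfl⟩
  have hmeas : MeasurableSet ((phi : Plane → ℝ × ℝ) ⁻¹' simp2) :=
    (isOpen_simp2.preimage phi.continuous).measurableSet
  have hamap : ∀ x : Plane, amap o u v (phi x) = o + L x := by
    intro x; rw [hLa, amap, phi_apply, add_assoc]
  have hfd : ∀ x ∈ ((phi : Plane → ℝ × ℝ) ⁻¹' simp2),
      HasFDerivWithinAt (fun x => amap o u v (phi x)) L ((phi : Plane → ℝ × ℝ) ⁻¹' simp2) x := by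
    intro x _
    have : (fun x => amap o u v (phi x)) = fun x => o + L x := by funext x; exact hamap x
    rw [this]
    exact (L.hasFDerivAt.const_add o).hasFDerivWithinAt
  have hinj : InjOn (fun x => amap o u v (phi x)) ((phi : Plane → ℝ × ℝ) ⁻¹' simp2) := by
    intro x _ y _ hxy
    simp only [hamap] at hxy
    have h1 : L (x - y) = 0 := by rw [map_sub]; rw [add_left_cancel hxy]; simp
    rw [hLa] at h1
    have e0 : om (((x - y) 0) • u + ((x - y) 1) • v) v = 0 := by rw [h1]; simp [om]
    have e1 : om u (((x - y) 0) • u + ((x - y) 1) • v) = 0 := by rw [h1]; simp [om]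
    rw [om_add_left, om_smul_left, om_smul_left, om_self, mul_zero, add_zero] at e0
    rw [om_add_right, om_smul_right, om_smul_right, om_self, mul_zero, zero_add] at e1
    have f0 : (x - y) 0 = 0 := by
      rcases mul_eq_zero.1 e0 with h | h'
      · exact h
      · exact absurd h' h.ne'
    have f1 : (x - y) 1 = 0 := by
      rcases mul_eq_zero.1 e1 with h | h'
      · exact h
      · exact absurd h' h.ne'
    have : x - y = 0 := by
      ext i; fin_cases i
      · simpa using f0
      · simpa using f1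
    exact sub_eq_zero.1 this
  rw [himg, integral_image_eq_integral_abs_det_fderiv_smul volume hmeas hfd hinj]
  rw [hdet, abs_of_pos h]
  simp only [smul_eq_mul]
  rw [MeasureTheory.integral_const_mul]
  congr 1
  exact phi_mp.setIntegral_preimage_emb phi.toHomeomorph.measurableEmbedding
    (fun z => g (amap o u v z)) simp2

end Run7.h761
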