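import Pool.Agent.Run7.h761.Green

/-! Green's theorem on triangles, continued. -/

set_option autoImplicit false

namespace Run7.h761

open MeasureTheory Set intervalIntegral
open scoped ENNReal

/-- flux of `φ` through the oriented segment from `p` to `q` -/
noncomputable def flux (φ : Plane → Plane) (p q : Plane) : ℝ :=
  ∫ t in (0:ℝ)..1, om (φ (p + t • (q - p))) (q - p)

theorem continuous_om {X : Type*} [TopologicalSpace X] {f g : X → Plane} (hf : Continuous f)
    (hg : Continuous g) : Continuous fun x => om (f x) (g x) := by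
  unfold om
  fun_prop

theorem flux_swap (φ : Plane → Plane) (p q : Plane) : flux φ q p = - flux φ p q := by
  unfold flux
  have h := intervalIntegral.integral_comp_sub_left (a := 0) (b := 1)
    (fun t => om (φ (q + t • (p - q))) (p - q)) (1 : ℝ)
  simp only [sub_self, sub_zero] at h
  rw [← h, ← intervalIntegral.integral_neg]
  apply intervalIntegral.integral_congr
  intro t _
  simp only
  have h1 : q + (1 - t) • (p - q) = p + t • (q - p) := by
    ext i; simp; ring
  rw [h1, show p - q = -(q - p) by abel, om_neg_right]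

theorem abs_flux_le {φ : Plane → Plane} (hφ : ∀ x, ‖φ x‖ ≤ 1) (p q : Plane) :
    |flux φ p q| ≤ ‖q - p‖ := by
  unfold flux
  have h := intervalIntegral.norm_integral_le_of_norm_le_const (a := (0:ℝ)) (b := 1)
    (f := fun t => om (φ (p + t • (q - p))) (q - p)) (C := ‖q - p‖) (by
      intro t _
      rw [Real.norm_eq_abs]
      refine (abs_om_le _ _).trans ?_
      calc _ ≤ 1 * ‖q - p‖ := by
            apply mul_le_mul_of_nonneg_right (hφ _) (norm_nonneg _)
        _ = _ := one_mul _)
  simpa using h

theorem clm_apply_eq (D : Plane →L[ℝ] Plane) (u : Plane) :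
    D u = u 0 • D (EuclideanSpace.single 0 1) + u 1 • D (EuclideanSpace.single 1 1) := by
  rw [← map_smul, ← map_smul, ← map_add]
  congr 1
  ext i
  fin_cases i <;> simp

theorem om_trace (D : Plane →L[ℝ] Plane) (u v : Plane) :
    om (D u) v + om u (D v) = om u v * ∑ i : Fin 2, (D (EuclideanSpace.single i 1)) i := by
  rw [clm_apply_eq D u, clm_apply_eq D v, Fin.sum_univ_two]
  simp only [om, PiLp.add_apply, PiLp.smul_apply, smul_eq_mul]
  ring

theorem hasFDerivAt_amap (o u v : Plane) (z : ℝ × ℝ) :
    HasFDerivAt (amap o u v) ((ContinuousLinearMap.fst ℝ ℝ ℝ).smulRight u +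
      (ContinuousLinearMap.snd ℝ ℝ ℝ).smulRight v) z := by
  have h : amap o u v = fun z => o + ((ContinuousLinearMap.fst ℝ ℝ ℝ).smulRight u +
      (ContinuousLinearMap.snd ℝ ℝ ℝ).smulRight v : ℝ × ℝ →L[ℝ] Plane) z := by
    funext z; simp [amap, add_assoc]
  rw [h]
  exact (ContinuousLinearMap.hasFDerivAt _).const_add o

theorem contDiff_amap (o u v : Plane) : ContDiff ℝ 1 (amap o u v) := by
  unfold amap
  fun_prop

theorem contDiff_om_left {f : ℝ × ℝ → Plane} (hf : ContDiff ℝ 1 f) (w : Plane) :
    ContDiff ℝ 1 fun z => om (f z) w := by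
  unfold om
  have h0 : ContDiff ℝ 1 fun z => f z 0 := (contDiff_euclidean.1 hf) 0
  have h1 : ContDiff ℝ 1 fun z => f z 1 := (contDiff_euclidean.1 hf) 1
  fun_prop

theorem fderiv_om_left {φ : Plane → Plane} (hφ : ContDiff ℝ 1 φ) (o u v w : Plane) (z e : ℝ × ℝ) :
    fderiv ℝ (fun z => om (φ (amap o u v z)) w) z e =
      om (fderiv ℝ φ (amap o u v z) (e.1 • u + e.2 • v)) w := by
  have h1 : HasFDerivAt φ (fderiv ℝ φ (amap o u v z)) (amap o u v z) :=
    (hφ.differentiable (by norm_num) _).hasFDerivAt
  have h2 := h1.comp z (hasFDerivAt_amap o u v z)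
  have h3 : ∀ i : Fin 2, HasFDerivAt (fun z => φ (amap o u v z) i) _ z := fun i =>
    ((EuclideanSpace.proj i : Plane →L[ℝ] ℝ).hasFDerivAt).comp z h2
  have h4 : HasFDerivAt (fun z => φ (amap o u v z) 0 * w 1 - φ (amap o u v z) 1 * w 0) _ z :=
    ((h3 0).mul_const (w 1)).sub ((h3 1).mul_const (w 0))
  have h5 : (fun z => om (φ (amap o u v z)) w) =
      fun z => φ (amap o u v z) 0 * w 1 - φ (amap o u v z) 1 * w 0 := rfl
  rw [h5, h4.fderiv]
  simp [om]
  ring

/-- Green's theorem on a positively oriented triangle -/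
theorem green_tri {φ : Plane → Plane} (hφ : ContDiff ℝ 1 φ) {o u v : Plane} (h : 0 < om u v) :
    ∫ x in tri o u v, divergence φ x =
      flux φ o (o + u) + flux φ (o + u) (o + v) + flux φ (o + v) o := by
  rw [integral_tri h]
  have hA := contDiff_amap o u v
  have hc : ContDiff ℝ 1 fun z => φ (amap o u v z) := hφ.comp hA
  have hG1 : ContDiff ℝ 1 fun z => om (φ (amap o u v z)) v := contDiff_om_left hc v
  have hG2 : ContDiff ℝ 1 fun z => - om (φ (amap o u v z)) u := (contDiff_om_left hc u).neg
  have e1 := simp2_fst hG1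
  have e2 := simp2_snd hG2
  have hk : ∀ z, om u v * divergence φ (amap o u v z) =
      fderiv ℝ (fun z => om (φ (amap o u v z)) v) z (1, 0) +
      fderiv ℝ (fun z => - om (φ (amap o u v z)) u) z (0, 1) := by
    intro z
    have hn : fderiv ℝ (fun z => - om (φ (amap o u v z)) u) z (0, 1) =
        - fderiv ℝ (fun z => om (φ (amap o u v z)) u) z (0, 1) := by
      rw [fderiv_fun_neg]; rfl
    rw [hn, fderiv_om_left hφ, fderiv_om_left hφ]
    simp only [one_smul, zero_smul, add_zero, zero_add]
    rw [divergence, ← om_trace, om_swap u]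
  have hi1 : IntegrableOn (fun z => fderiv ℝ (fun z => om (φ (amap o u v z)) v) z (1, 0)) simp2 :=
    integrableOn_simp2 ((hG1.continuous_fderiv (by norm_num)).clm_apply continuous_const)
  have hi2 : IntegrableOn (fun z => fderiv ℝ (fun z => - om (φ (amap o u v z)) u) z (0, 1)) simp2 :=
    integrableOn_simp2 ((hG2.continuous_fderiv (by norm_num)).clm_apply continuous_const)
  rw [← MeasureTheory.integral_const_mul]
  simp_rw [hk]
  rw [integral_add hi1 hi2, e1, e2]
  have hcφ := hφ.continuous
  have hcA := hA.continuous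
  have c1 : Continuous fun t : ℝ => om (φ (amap o u v (1 - t, t))) v :=
    continuous_om (hcφ.comp (hcA.comp (by fun_prop))) continuous_const
  have c2 : Continuous fun t : ℝ => om (φ (amap o u v (0, t))) v :=
    continuous_om (hcφ.comp (hcA.comp (by fun_prop))) continuous_const
  have c3 : Continuous fun t : ℝ => -om (φ (amap o u v (t, 1 - t))) u :=
    (continuous_om (hcφ.comp (hcA.comp (by fun_prop))) continuous_const).neg
  have c4 : Continuous fun t : ℝ => -om (φ (amap o u v (t, 0))) u :=
    (continuous_om (hcφ.comp (hcA.comp (by fun_prop))) continuous_const).neg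
  rw [intervalIntegral.integral_sub (c1.intervalIntegrable _ _) (c2.intervalIntegrable _ _),
    intervalIntegral.integral_sub (c3.intervalIntegrable _ _) (c4.intervalIntegrable _ _)]
  have s3 : ∫ t in (0:ℝ)..1, -om (φ (amap o u v (t, 1 - t))) u =
      ∫ t in (0:ℝ)..1, -om (φ (amap o u v (1 - t, t))) u := by
    have hh := intervalIntegral.integral_comp_sub_left (a := 0) (b := 1)
      (fun t => -om (φ (amap o u v (t, 1 - t))) u) (1 : ℝ)
    simp only [sub_self, sub_zero, sub_sub_cancel] at hh
    exact hh.symm
  have c3' : Continuous fun t : ℝ => -om (φ (amap o u v (1 - t, t))) u :=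
    (continuous_om (hcφ.comp (hcA.comp (by fun_prop))) continuous_const).neg
  rw [s3]
  have f1 : flux φ o (o + u) = - ∫ t in (0:ℝ)..1, -om (φ (amap o u v (t, 0))) u := by
    unfold flux
    rw [← intervalIntegral.integral_neg]
    apply intervalIntegral.integral_congr
    intro t _
    simp [amap]
  have f3 : flux φ (o + v) o = - ∫ t in (0:ℝ)..1, om (φ (amap o u v (0, t))) v := by
    rw [flux_swap]
    unfold flux
    congr 1
    apply intervalIntegral.integral_congr
    intro t _
    simp [amap]
  have f2 : flux φ (o + u) (o + v) = (∫ t in (0:ℝ)..1, om (φ (amap o u v (1 - t, t))) v) +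
      ∫ t in (0:ℝ)..1, -om (φ (amap o u v (1 - t, t))) u := by
    rw [← intervalIntegral.integral_add (c1.intervalIntegrable _ _) (c3'.intervalIntegrable _ _)]
    unfold flux
    apply intervalIntegral.integral_congr
    intro t _
    simp only
    have h1 : o + u + t • (o + v - (o + u)) = amap o u v (1 - t, t) := by
      ext i; simp [amap]; ring
    rw [h1, show o + v - (o + u) = v - u by abel, om_sub_right]
    ring
  rw [f1, f2, f3]
  ring

/-- area of a triangle -/
theorem volume_tri {o u v : Plane} (h : 0 < om u v) :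
    volume.real (tri o u v) = om u v / 2 := by
  have h1 := integral_tri (o := o) h (fun _ => (1 : ℝ))
  have h2 : ∫ z in simp2, (1 : ℝ) = 1 / 2 := by
    rw [integral_simp2 continuous_const]
    simp
    rw [intervalIntegral.integral_sub (by simp) (by simp)]
    simp
    norm_num
  rw [h2] at h1
  rw [MeasureTheory.integral_const, measureReal_restrict_apply_univ, smul_eq_mul, mul_one] at h1
  linarith

end Run7.h761
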