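import Pool.Agent.Run7.h761.Rot

/-! The hexagonal isoperimetric inequality for closed curves cut into chains: numerical part. -/

set_option autoImplicit false

namespace Run7.h761

open Finset

/-- the constant `2 / √3` -/
noncomputable def ka : ℝ := 2 / √3

theorem sqrt3_lo : (1.73205 : ℝ) < √3 := by
  rw [Real.lt_sqrt (by norm_num)]; norm_num

theorem sqrt3_hi : √3 < (1.732051 : ℝ) := by
  rw [Real.sqrt_lt' (by norm_num)]; norm_num

theorem sqrt3_sq : √3 * √3 = (3 : ℝ) := Real.mul_self_sqrt (by norm_num)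

theorem ka_pos : 0 < ka := by unfold ka; positivity

theorem ka_sqrt : ka * √3 = 2 := by unfold ka; field_simp

theorem ka_sq : ka * ka = 4 / 3 := by
  have h := ka_sqrt
  have h3 := sqrt3_sq
  have : (ka * √3) * (ka * √3) = 4 := by rw [h]; norm_num
  nlinarith

theorem ka_lo : (1.1547 : ℝ) < ka := by
  have h := ka_sqrt
  have h2 := sqrt3_hi
  have h0 := ka_pos
  have h1 := sqrt3_lo
  nlinarith

theorem ka_hi : ka < (1.15471 : ℝ) := by
  have h := ka_sqrt
  have h1 := sqrt3_lo
  have h0 := ka_pos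
  nlinarith

theorem tan_lower {x c v : ℝ} (hx0 : 0 < x) (hx : x < Real.pi / 2) (hc : Real.cos x ≤ c)
    (hv0 : 0 ≤ v) (hv : v ^ 2 * c ^ 2 ≤ 1 - c ^ 2) : v ≤ Real.tan x := by
  have hcos : 0 < Real.cos x := Real.cos_pos_of_mem_Ioo ⟨by linarith, hx⟩
  have hsin : 0 ≤ Real.sin x := Real.sin_nonneg_of_nonneg_of_le_pi hx0.le (by linarith [Real.pi_pos])
  rw [Real.tan_eq_sin_div_cos, le_div_iff₀ hcos]
  have h1 := Real.sin_sq_add_cos_sq x
  have h2 : Real.cos x ^ 2 ≤ c ^ 2 := pow_le_pow_left₀ hcos.le hc 2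
  have h3 : (v * Real.cos x) ^ 2 ≤ Real.sin x ^ 2 := by
    have : v ^ 2 * Real.cos x ^ 2 ≤ v ^ 2 * c ^ 2 := mul_le_mul_of_nonneg_left h2 (sq_nonneg v)
    nlinarith
  exact abs_le_of_sq_le_sq' h3 hsin |>.2

theorem cos_upper {x : ℝ} (hx0 : 0 ≤ x) (hx : x ≤ 1) :
    Real.cos x ≤ 1 - x ^ 2 / 2 + x ^ 4 * (5 / 96) := by
  have := Real.cos_bound (x := x) (by rw [abs_of_nonneg hx0]; exact hx)
  rw [abs_le, abs_of_nonneg hx0] at this
  linarith [this.2]

/-- lower bounds for `4 n tan (π / n) / ka` -/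
def qn (n : ℕ) : ℝ := if n = 3 then 18 else if n = 4 then 13.856 else if n = 5 then 12.584 else
  if n = 6 then 12 else if n = 7 then 11.64 else if n = 8 then 11.45 else 0

theorem qn_le {n : ℕ} (hn : 3 ≤ n) : qn n * ka ≤ 4 * n * Real.tan (Real.pi / n) := by
  have hs1 := sqrt3_lo
  have hs2 := sqrt3_hi
  have hs3 := sqrt3_sq
  have hk := ka_sqrt
  have hk0 := ka_pos
  have hk1 := ka_hi
  have hk2 := ka_lo
  have hp1 := Real.pi_gt_d4
  have hp2 := Real.pi_lt_d4
  unfold qn
  split_ifs with h3 h4 h5 h6 h7 h8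
  · subst h3
    have : Real.tan (Real.pi / (3 : ℕ)) = √3 := by
      push_cast; exact Real.tan_pi_div_three
    rw [this]
    push_cast
    nlinarith
  · subst h4
    have : Real.tan (Real.pi / (4 : ℕ)) = 1 := by
      push_cast; exact Real.tan_pi_div_four
    rw [this]
    push_cast
    nlinarith
  · subst h5
    have h5a : (√5 : ℝ) * √5 = 5 := Real.mul_self_sqrt (by norm_num)
    have h5b : √5 < (2.23607 : ℝ) := by
      rw [Real.sqrt_lt' (by norm_num)]; norm_num
    have h5c : (2.23606 : ℝ) < √5 := by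
      rw [Real.lt_sqrt (by norm_num)]; norm_num
    have hc : Real.cos (Real.pi / (5 : ℕ)) ≤ 0.8090175 := by
      push_cast
      rw [Real.cos_pi_div_five]
      linarith
    have ht : (0.72654 : ℝ) ≤ Real.tan (Real.pi / (5 : ℕ)) := by
      apply tan_lower _ _ hc (by norm_num) (by norm_num)
      · positivity
      · push_cast; linarith [Real.pi_pos]
    push_cast at ht ⊢
    -- 12.584 * ka ≤ 20 t, that is 25.168 ≤ 20 √3 t
    have h9 : 12.584 * ka * √3 ≤ 4 * 5 * Real.tan (Real.pi / 5) * √3 := by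
      nlinarith
    nlinarith
  · subst h6
    have : Real.tan (Real.pi / (6 : ℕ)) = 1 / √3 := by
      push_cast; exact Real.tan_pi_div_six
    rw [this]
    push_cast
    unfold ka
    apply le_of_eq
    field_simp
    norm_num
  · subst h7
    have hc : Real.cos (Real.pi / (7 : ℕ)) ≤ 0.90142 := by
      have h1 := cos_upper (x := Real.pi / (7 : ℕ)) (by positivity) (by push_cast; linarith)
      push_cast at h1 ⊢
      have h2 : Real.pi / 7 ≤ 0.4488001 := by linarith
      have h3 : (0.44878 : ℝ) ≤ Real.pi / 7 := by linarith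
      set x := Real.pi / 7
      have h4 : x ^ 4 ≤ 0.4488001 ^ 4 := pow_le_pow_left₀ (by linarith) h2 4
      have h5 : (0.44878 : ℝ) ^ 2 ≤ x ^ 2 := pow_le_pow_left₀ (by norm_num) h3 2
      norm_num at h4 h5 ⊢
      linarith
    have ht : (0.4802 : ℝ) ≤ Real.tan (Real.pi / (7 : ℕ)) := by
      apply tan_lower _ _ hc (by norm_num) (by norm_num)
      · positivity
      · push_cast; linarith [Real.pi_pos]
    push_cast at ht ⊢
    nlinarith
  · subst h8
    have hc : Real.cos (Real.pi / (8 : ℕ)) ≤ 0.92415 := by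
      have h1 := cos_upper (x := Real.pi / (8 : ℕ)) (by positivity) (by push_cast; linarith)
      push_cast at h1 ⊢
      have h2 : Real.pi / 8 ≤ 0.3927001 := by linarith
      have h3 : (0.392687 : ℝ) ≤ Real.pi / 8 := by linarith
      set x := Real.pi / 8
      have h4 : x ^ 4 ≤ 0.3927001 ^ 4 := pow_le_pow_left₀ (by linarith) h2 4
      have h5 : (0.392687 : ℝ) ^ 2 ≤ x ^ 2 := pow_le_pow_left₀ (by norm_num) h3 2
      norm_num at h4 h5 ⊢
      linarith
    have ht : (0.41335 : ℝ) ≤ Real.tan (Real.pi / (8 : ℕ)) := by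
      apply tan_lower _ _ hc (by norm_num) (by norm_num)
      · positivity
      · push_cast; linarith [Real.pi_pos]
    push_cast at ht ⊢
    nlinarith
  · rw [zero_mul]
    have hn0 : (0 : ℝ) < n := by positivity
    have hn3 : (3 : ℝ) ≤ n := by exact_mod_cast hn
    have ht : 0 ≤ Real.tan (Real.pi / n) := by
      apply Real.tan_nonneg_of_nonneg_of_le_pi_div_two (by positivity)
      apply div_le_div_of_nonneg_left Real.pi_pos.le (by norm_num) (by linarith)
    positivity

/-- slack of the hexagonal inequality -/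
def sl (n : ℕ) : ℝ := if n = 2 then 0.5 else if n = 3 then 0.4 else if n = 4 then 0.13 else 0

theorem quad_le {p r u v t : ℝ} (hu : u ≤ t) (hv : t ≤ v) (h1 : u ^ 2 + p * u + r ≤ 0)
    (h2 : v ^ 2 + p * v + r ≤ 0) : t ^ 2 + p * t + r ≤ 0 := by
  rcases (hu.trans hv).lt_or_eq with h | h
  · have a := mul_nonneg (sub_nonneg.2 hv) (neg_nonneg.2 h1)
    have b := mul_nonneg (sub_nonneg.2 hu) (neg_nonneg.2 h2)
    have c := mul_nonneg (sub_nonneg.2 h.le) (mul_nonneg (sub_nonneg.2 hu) (sub_nonneg.2 hv))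
    have d : (v - u) * (t ^ 2 + p * t + r) = -((v - t) * -(u ^ 2 + p * u + r)) -
        (t - u) * -(v ^ 2 + p * v + r) - (v - u) * ((t - u) * (v - t)) := by ring
    by_contra hc
    push Not at hc
    have e := mul_pos (sub_pos.2 h) hc
    linarith
  · have : t = u := le_antisymm (h ▸ hv) hu
    rw [this]; exact h1

theorem case_pos {R q L B X x1 : ℝ} (hL : 0 ≤ L) (hx : 0 ≤ X) (hx1 : X ≤ x1) (hB : 3 ≤ B + X)
    (hq : 0 ≤ q) (h2 : q * B ≤ L ^ 2) (hlt : L < R - X) (f0 : R ^ 2 ≤ 3 * q)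
    (f1 : (R - x1) ^ 2 ≤ q * (3 - x1)) : False := by
  have h5 : L ^ 2 < (R - X) ^ 2 := pow_lt_pow_left₀ hlt hL (by norm_num)
  have h6 : q * (3 - X) ≤ q * B := mul_le_mul_of_nonneg_left (by linarith) hq
  have h7 := quad_le (p := q - 2 * R) (r := R ^ 2 - 3 * q) hx hx1 (by nlinarith) (by nlinarith)
  nlinarith

theorem case_neg {R q L B X y0 y1 : ℝ} (hL : 0 ≤ L) (hx : y0 ≤ -X) (hx1 : -X ≤ y1) (hB : 3 ≤ B + X)
    (hq : 0 ≤ q) (h2 : q * B ≤ L ^ 2) (hlt : L < R - X) (f0 : (R + y0) ^ 2 ≤ q * (3 + y0))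
    (f1 : (R + y1) ^ 2 ≤ q * (3 + y1)) : False := by
  have h5 : L ^ 2 < (R - X) ^ 2 := pow_lt_pow_left₀ hlt hL (by norm_num)
  have h6 : q * (3 - X) ≤ q * B := mul_le_mul_of_nonneg_left (by linarith) hq
  have h7 := quad_le (p := 2 * R - q) (r := R ^ 2 - 3 * q) hx hx1 (by nlinarith) (by nlinarith)
  nlinarith

theorem case_neg2 {R L B X S y0 y1 : ℝ} (hL : 0 ≤ L) (hx : y0 ≤ -X) (hx1 : -X ≤ y1)
    (hB : 3 ≤ B + X) (hXS : -X ≤ S)
    (h2 : 10.882 * (|B| + S) ≤ L ^ 2) (hlt : L < R - X) (f0 : (R + y0) ^ 2 ≤ 10.882 * (3 + 2 * y0))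
    (f1 : (R + y1) ^ 2 ≤ 10.882 * (3 + 2 * y1)) : False := by
  have hB0 : B ≤ |B| := le_abs_self B
  have h5 : L ^ 2 < (R - X) ^ 2 := pow_lt_pow_left₀ hlt hL (by norm_num)
  have h7 := quad_le (p := 2 * R - 21.764) (r := R ^ 2 - 32.646) hx hx1 (by nlinarith)
    (by nlinarith)
  nlinarith

/-- the purely numerical inequality (normalised area, `n ≠ 6`) -/
theorem norm_real {n : ℕ} (hn : 2 ≤ n) (h6 : n ≠ 6) {L B X S : ℝ} (hL : 0 ≤ L) (hX : |X| ≤ S)
    (hBX : 3 ≤ B + X) (h1 : 10.882 * (|B| + S) ≤ L ^ 2) (h2 : qn n * B ≤ L ^ 2)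
    (h3 : 1.79 * S ≤ L) (h4 : S ≤ 1.6983 * n) (hB2 : n = 2 → B = 0) :
    6 + sl n ≤ L + X + 0.113 * ((n : ℝ) - 6) := by
  have hXS := abs_le.1 hX
  have hXS' : -X ≤ S := by linarith [hXS.1]
  have hB0 : B ≤ |B| := le_abs_self B
  have hS0 : 0 ≤ S := (abs_nonneg X).trans hX
  have hL57 : 5.7136 ≤ L := by
    have : (5.7136 : ℝ) ^ 2 ≤ L ^ 2 := by linarith [hXS.2]
    exact abs_le_of_sq_le_sq' this hL |>.2
  by_contra hcon
  push Not at hcon
  have hn' : n = 2 ∨ n = 3 ∨ n = 4 ∨ n = 5 ∨ n = 7 ∨ n = 8 ∨ 9 ≤ n := by omega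
  rcases hn' with h | h | h | h | h | h | h
  · subst h
    have hB := hB2 rfl
    simp only [sl] at hcon
    norm_num at hcon
    subst hB
    linarith
  · subst h
    simp only [sl, qn] at hcon h2
    norm_num at hcon h2 h4
    rcases le_or_gt 0 X with hx | hx
    · exact case_pos (R := 6.739) (x1 := 1.03) hL hx (by linarith) hBX (by norm_num) h2
        (by linarith) (by norm_num) (by norm_num)
    · exact case_neg (R := 6.739) (y0 := 0) (y1 := 5.095) hL (by linarith) (by linarith) hBX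
        (by norm_num) h2 (by linarith) (by norm_num) (by norm_num)
  · subst h
    simp only [sl, qn] at hcon h2
    norm_num at hcon h2 h4
    rcases le_or_gt 0 X with hx | hx
    · exact case_pos (R := 6.356) (q := 13.856) (x1 := 0.6425) hL hx (by linarith) hBX
        (by norm_num) (by linarith) (by linarith) (by norm_num) (by norm_num)
    · rcases le_or_gt (-X) 1.5 with hy | hy
      · exact case_neg (R := 6.356) (q := 13.856) (y0 := 0) (y1 := 1.5) hL (by linarith) hy hBX
          (by norm_num) (by linarith) (by linarith) (by norm_num) (by norm_num)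
      · exact case_neg2 (R := 6.356) (y0 := 1.5) (y1 := 7) hL hy.le (by linarith) hBX hXS' h1
          (by linarith) (by norm_num) (by norm_num)
  · subst h
    simp only [sl, qn] at hcon h2
    norm_num at hcon h2 h4
    rcases le_or_gt 0 X with hx | hx
    · exact case_pos (R := 6.113) (q := 12.584) (x1 := 0.4) hL hx (by linarith) hBX
        (by norm_num) (by linarith) (by linarith) (by norm_num) (by norm_num)
    · rcases le_or_gt (-X) 0.6 with hy | hy
      · exact case_neg (R := 6.113) (q := 12.584) (y0 := 0) (y1 := 0.6) hL (by linarith) hy hBX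
          (by norm_num) (by linarith) (by linarith) (by norm_num) (by norm_num)
      · exact case_neg2 (R := 6.113) (y0 := 0.6) (y1 := 8.5) hL hy.le (by linarith) hBX hXS' h1
          (by linarith) (by norm_num) (by norm_num)
  · subst h
    simp only [sl, qn] at hcon h2
    norm_num at hcon h2 h4
    rcases le_or_gt 0 X with hx | hx
    · exact case_pos (R := 5.887) (q := 11.64) (x1 := 0.1735) hL hx (by linarith) hBX
        (by norm_num) (by linarith) (by linarith) (by norm_num) (by norm_num)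
    · rcases le_or_gt (-X) 0.3 with hy | hy
      · exact case_neg (R := 5.887) (q := 11.64) (y0 := 0) (y1 := 0.3) hL (by linarith) hy hBX
          (by norm_num) (by linarith) (by linarith) (by norm_num) (by norm_num)
      · rcases le_or_gt (-X) 9 with hy' | hy'
        · exact case_neg2 (R := 5.887) (y0 := 0.3) (y1 := 9) hL hy.le hy' hBX hXS' h1
            (by linarith) (by norm_num) (by norm_num)
        · linarith
  · subst h
    simp only [sl, qn] at hcon h2
    norm_num at hcon h2 h4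
    rcases le_or_gt 0 X with hx | hx
    · exact case_pos (R := 5.774) (q := 11.45) (x1 := 0.0605) hL hx (by linarith) hBX
        (by norm_num) (by linarith) (by linarith) (by norm_num) (by norm_num)
    · rcases le_or_gt (-X) 0.3 with hy | hy
      · exact case_neg (R := 5.774) (q := 11.45) (y0 := 0) (y1 := 0.3) hL (by linarith) hy hBX
          (by norm_num) (by linarith) (by linarith) (by norm_num) (by norm_num)
      · rcases le_or_gt (-X) 9 with hy' | hy'
        · exact case_neg2 (R := 5.774) (y0 := 0.3) (y1 := 9) hL hy.le hy' hBX hXS' h1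
            (by linarith) (by norm_num) (by norm_num)
        · linarith
  · have hn9 : (9 : ℝ) ≤ n := by exact_mod_cast h
    have hsl : sl n = 0 := by
      unfold sl
      rw [if_neg (by omega), if_neg (by omega), if_neg (by omega)]
    rw [hsl] at hcon
    rcases le_or_gt 0 X with hx | hx
    · linarith
    · rcases le_or_gt (-X) 9 with hy' | hy'
      · exact case_neg2 (R := 5.661) (y0 := 0) (y1 := 9) hL (by linarith) hy' hBX hXS' h1
            (by linarith) (by norm_num) (by norm_num)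
      · linarith

/-- the numerical inequality for `n = 6` -/
theorem norm_real6 {L B X S C S3 : ℝ} (hL : 0 ≤ L) (hX : |X| ≤ S)
    (hBX : 3 ≤ B + X) (h1 : 10.882 * (|B| + S) ≤ L ^ 2) (h2 : 12 * B ≤ C ^ 2) (hC0 : 0 ≤ C)
    (hCL : C ≤ L) (h3 : 1.79 * S ≤ L)
    (h5 : ∀ κ : ℝ, |κ| ≤ 0.17 → C + κ * X - κ ^ 2 * S3 / 12 ≤ L)
    (h6 : ∀ M : ℝ, 0 ≤ M → (C - M) ^ 2 ≤ 5.441 * B → 0 ≤ C - M → S3 ≤ M ^ 2 * C) :
    6 ≤ L + X := by
  have hXS := abs_le.1 hX
  have hXS' : -X ≤ S := by linarith [hXS.1]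
  have hB0 : B ≤ |B| := le_abs_self B
  have hS0 : 0 ≤ S := (abs_nonneg X).trans hX
  have hL57 : 5.7136 ≤ L := by
    have : (5.7136 : ℝ) ^ 2 ≤ L ^ 2 := by linarith [hXS.2]
    exact abs_le_of_sq_le_sq' this hL |>.2
  by_contra hcon
  push Not at hcon
  have hlt : L < 6 - X := by linarith
  have hX1 : X < 0.2864 := by linarith
  have hX2 : -X < 0.36 := by
    by_contra hc
    push Not at hc
    rcases le_or_gt (-X) 9 with hy' | hy'
    · exact case_neg2 (R := 6) (y0 := 0.36) (y1 := 9) hL hc hy' hBX hXS' h1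
            (by linarith) (by norm_num) (by norm_num)
    · linarith
  have hCX : C < 6 - X := by linarith
  have hC5 : 5.6 ≤ C := by
    have : (5.6 : ℝ) ^ 2 ≤ C ^ 2 := by nlinarith
    exact abs_le_of_sq_le_sq' this hC0 |>.2
  -- bound for the sum of the cubes
  have hS3 : S3 ≤ 28.1 := by
    rcases le_or_gt 0 X with hx | hx
    · have hM : S3 ≤ 2.16 ^ 2 * C := by
        apply h6 2.16 (by norm_num) _ (by linarith)
        have h7 : (C - 2.16) ^ 2 ≤ (3.84) ^ 2 := by
          apply pow_le_pow_left₀ (by linarith)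
          linarith
        nlinarith
      nlinarith
    · have hM : S3 ≤ 2.1 ^ 2 * C := by
        apply h6 2.1 (by norm_num) _ (by linarith)
        have h7 : (C - 2.1) ^ 2 ≤ (3.9 - X) ^ 2 := by
          apply pow_le_pow_left₀ (by linarith)
          linarith
        nlinarith
      nlinarith
  have h7 := h5 (0.21 * X) (by
    rw [abs_mul, abs_of_pos (by norm_num : (0 : ℝ) < 0.21)]
    have : |X| ≤ 0.36 := by rw [abs_le]; constructor <;> linarith
    linarith)
  have h8 : C + 0.1067 * X ^ 2 ≤ L := by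
    have : (0.21 * X) ^ 2 * S3 / 12 ≤ (0.21 * X) ^ 2 * 28.1 / 12 := by
      apply div_le_div_of_nonneg_right _ (by norm_num)
      exact mul_le_mul_of_nonneg_left hS3 (sq_nonneg _)
    have e1 : 0.21 * X * X = 0.21 * X ^ 2 := by ring
    have e2 : (0.21 * X) ^ 2 * 28.1 / 12 = 0.1032675 * X ^ 2 := by ring
    rw [e1] at h7
    rw [e2] at this
    linarith [sq_nonneg X]
  have h9 : C < 6 - X - 0.1067 * X ^ 2 := by linarith
  have h10 : C ^ 2 < (6 - X - 0.1067 * X ^ 2) ^ 2 := pow_lt_pow_left₀ h9 hC0 (by norm_num)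
  have h11 : 36 - 12 * X ≤ C ^ 2 := by linarith
  have h12 : (6 - X - 0.1067 * X ^ 2) ^ 2 = 36 - 12 * X - X ^ 2 * (0.2804 - 0.2134 * X -
      0.01138489 * X ^ 2) := by ring
  have h13 : 0 ≤ X ^ 2 * (0.2804 - 0.2134 * X - 0.01138489 * X ^ 2) := by
    apply mul_nonneg (sq_nonneg _)
    have : X ^ 2 ≤ 0.36 ^ 2 := by
      rw [← sq_abs]
      apply pow_le_pow_left₀ (abs_nonneg _)
      rw [abs_le]; constructor <;> linarith
    linarith
  linarith

end Run7.h761
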