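import Pool.Agent.Run7.h761.Anti

/-! The isoperimetric inequality for closed polygons with `n` sides. -/

set_option autoImplicit false

namespace Run7.h761

open Finset

/-- isosceles replacement -/
theorem isosceles (v w : ℂ) : ∃ v' w' : ℂ, v' + w' = v + w ∧ ‖v'‖ = (‖v‖ + ‖w‖) / 2 ∧
    ‖w'‖ = (‖v‖ + ‖w‖) / 2 ∧ cr v w ≤ cr v' w' := by
  by_cases hd : v + w = 0
  · refine ⟨v, w, rfl, ?_, ?_, le_rfl⟩
    · have : w = -v := by linear_combination hd
      rw [this, norm_neg]; ring
    · have : v = -w := by linear_combination hd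
      rw [this, norm_neg]; ring
  · set d := v + w with hdd
    set s := ‖v‖ + ‖w‖ with hs
    have hds : ‖d‖ ≤ s := norm_add_le v w
    have hd0 : 0 < ‖d‖ := norm_pos_iff.2 hd
    have hs0 : 0 ≤ s := by positivity
    set y := Real.sqrt (s ^ 2 - ‖d‖ ^ 2) / 2 with hy
    have hy0 : 0 ≤ y := by positivity
    have hnn : 0 ≤ s ^ 2 - ‖d‖ ^ 2 := by nlinarith
    have hy2 : y ^ 2 = (s ^ 2 - ‖d‖ ^ 2) / 4 := by
      rw [hy, div_pow, Real.sq_sqrt hnn]; norm_num
    set t := y / ‖d‖ with ht
    have hdsq : d.re ^ 2 + d.im ^ 2 = ‖d‖ ^ 2 := by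
      rw [← Complex.normSq_eq_norm_sq, Complex.normSq_apply]; ring
    have htd : t * ‖d‖ = y := by rw [ht]; field_simp
    have htd2 : t ^ 2 * ‖d‖ ^ 2 = y ^ 2 := by rw [← mul_pow, htd]
    have hn1 : ‖(⟨d.re / 2 + t * d.im, d.im / 2 - t * d.re⟩ : ℂ)‖ = s / 2 := by
      have h1 : ‖(⟨d.re / 2 + t * d.im, d.im / 2 - t * d.re⟩ : ℂ)‖ ^ 2 = (s / 2) ^ 2 := by
        rw [← Complex.normSq_eq_norm_sq, Complex.normSq_apply]
        simp only
        linear_combination (1 / 4 + t ^ 2) * hdsq + htd2 + hy2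
      have h2 := (sq_eq_sq₀ (norm_nonneg _) (by positivity : (0 : ℝ) ≤ s / 2)).1 h1
      exact h2
    have hn2 : ‖(⟨d.re / 2 - t * d.im, d.im / 2 + t * d.re⟩ : ℂ)‖ = s / 2 := by
      have h1 : ‖(⟨d.re / 2 - t * d.im, d.im / 2 + t * d.re⟩ : ℂ)‖ ^ 2 = (s / 2) ^ 2 := by
        rw [← Complex.normSq_eq_norm_sq, Complex.normSq_apply]
        simp only
        linear_combination (1 / 4 + t ^ 2) * hdsq + htd2 + hy2
      have h2 := (sq_eq_sq₀ (norm_nonneg _) (by positivity : (0 : ℝ) ≤ s / 2)).1 h1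
      exact h2
    refine ⟨⟨d.re / 2 + t * d.im, d.im / 2 - t * d.re⟩, ⟨d.re / 2 - t * d.im, d.im / 2 + t * d.re⟩,
      ?_, hn1, hn2, ?_⟩
    · apply Complex.ext <;> simp <;> ring
    · have e1 : cr ⟨d.re / 2 + t * d.im, d.im / 2 - t * d.re⟩
          ⟨d.re / 2 - t * d.im, d.im / 2 + t * d.re⟩ = y * ‖d‖ := by
        unfold cr
        simp only
        have : y * ‖d‖ = t * ‖d‖ ^ 2 := by rw [← htd]; ring
        rw [this]
        linear_combination t * hdsq
      rw [e1]
      have hp : v.re ^ 2 + v.im ^ 2 = ‖v‖ ^ 2 := by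
        rw [← Complex.normSq_eq_norm_sq, Complex.normSq_apply]; ring
      have hq : w.re ^ 2 + w.im ^ 2 = ‖w‖ ^ 2 := by
        rw [← Complex.normSq_eq_norm_sq, Complex.normSq_apply]; ring
      have hre : d.re = v.re + w.re := by simp [hdd]
      have him : d.im = v.im + w.im := by simp [hdd]
      have heron : 4 * cr v w ^ 2 = (s ^ 2 - ‖d‖ ^ 2) * (‖d‖ ^ 2 - (‖v‖ - ‖w‖) ^ 2) := by
        have hd3 : ‖d‖ ^ 2 = ‖v‖ ^ 2 + ‖w‖ ^ 2 + 2 * (v.re * w.re + v.im * w.im) := by
          rw [← hdsq, hre, him, ← hp, ← hq]; ring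
        have hl : cr v w ^ 2 = ‖v‖ ^ 2 * ‖w‖ ^ 2 - (v.re * w.re + v.im * w.im) ^ 2 := by
          rw [← hp, ← hq]; unfold cr; ring
        rw [hl, hd3, hs]
        ring
      have h3 : cr v w ^ 2 ≤ (y * ‖d‖) ^ 2 := by
        rw [mul_pow, hy2]
        have h4 : (s ^ 2 - ‖d‖ ^ 2) * (‖d‖ ^ 2 - (‖v‖ - ‖w‖) ^ 2) ≤
            (s ^ 2 - ‖d‖ ^ 2) * ‖d‖ ^ 2 :=
          mul_le_mul_of_nonneg_left (by nlinarith [sq_nonneg (‖v‖ - ‖w‖)]) hnn
        nlinarith
      exact abs_le_of_sq_le_sq' h3 (by positivity) |>.2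

/-- extension of a finite sequence by zero -/
noncomputable def ext0 {n : ℕ} (x : Fin (n + 1) → ℂ) (k : ℕ) : ℂ := if h : k < n + 1 then x ⟨k, h⟩ else 0

theorem ext0_continuous {n : ℕ} (k : ℕ) : Continuous fun x : Fin (n + 1) → ℂ => ext0 x k := by
  unfold ext0
  by_cases h : k < n + 1
  · simp only [h, dite_true]
    exact continuous_apply _
  · simp only [h, dite_false]
    exact continuous_const

theorem cr_continuous {X : Type*} [TopologicalSpace X] {f g : X → ℂ} (hf : Continuous f)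
    (hg : Continuous g) : Continuous fun x => cr (f x) (g x) := by
  unfold cr
  exact ((Complex.continuous_re.comp hf).mul (Complex.continuous_im.comp hg)).sub
    ((Complex.continuous_im.comp hf).mul (Complex.continuous_re.comp hg))

/-- total length of the first `n` steps -/
noncomputable def plen (n : ℕ) (z : ℕ → ℂ) : ℝ := ∑ k ∈ range n, ‖z (k + 1) - z k‖

/-- twice the area form of the first `n` steps -/
noncomputable def par (n : ℕ) (z : ℕ → ℂ) : ℝ := ∑ k ∈ range n, cr (z k) (z (k + 1))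

theorem plen_nonneg (n : ℕ) (z : ℕ → ℂ) : 0 ≤ plen n z := Finset.sum_nonneg fun _ _ => norm_nonneg _

theorem dist_le_plen {n : ℕ} (z : ℕ → ℂ) {k : ℕ} (hk : k ≤ n) : ‖z k - z 0‖ ≤ plen n z := by
  have h1 : ‖z k - z 0‖ ≤ plen k z := by
    unfold plen
    rw [← Finset.sum_range_sub]
    exact norm_sum_le _ _
  refine h1.trans ?_
  unfold plen
  exact Finset.sum_le_sum_of_subset_of_nonneg (Finset.range_mono hk) fun _ _ _ => norm_nonneg _

theorem sum_two_change {n k : ℕ} (hk : k + 1 < n) {f g : ℕ → ℝ}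
    (h : ∀ i, i ≠ k → i ≠ k + 1 → f i = g i) :
    ∑ i ∈ range n, f i = ∑ i ∈ range n, g i + (f k - g k) + (f (k + 1) - g (k + 1)) := by
  have h1 : ∑ i ∈ range n, (f i - g i) = ∑ i ∈ ({k, k + 1} : Finset ℕ), (f i - g i) := by
    symm
    apply Finset.sum_subset
    · intro i hi
      simp only [Finset.mem_insert, Finset.mem_singleton] at hi
      rw [Finset.mem_range]
      omega
    · intro i _ hi
      simp only [Finset.mem_insert, Finset.mem_singleton, not_or] at hi
      rw [h i hi.1 hi.2, sub_self]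
  rw [Finset.sum_sub_distrib, Finset.sum_pair (by omega)] at h1
  linarith

/-- every closed polygon can be replaced by an equilateral one -/
theorem exists_equilateral {n : ℕ} (x0 : Fin (n + 1) → ℂ) (h0 : ext0 x0 0 = 0)
    (hn0 : ext0 x0 n = 0) : ∃ x : Fin (n + 1) → ℂ, ext0 x 0 = 0 ∧ ext0 x n = 0 ∧
      plen n (ext0 x) ≤ plen n (ext0 x0) ∧ par n (ext0 x0) ≤ par n (ext0 x) ∧
      ∀ k, k + 1 < n → ‖ext0 x (k + 1) - ext0 x k‖ = ‖ext0 x (k + 1 + 1) - ext0 x (k + 1)‖ := by
  have hlen : Continuous fun x : Fin (n + 1) → ℂ => plen n (ext0 x) := by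
    unfold plen
    exact continuous_finsetSum _ fun k _ => ((ext0_continuous _).sub (ext0_continuous _)).norm
  have har : Continuous fun x : Fin (n + 1) → ℂ => par n (ext0 x) := by
    unfold par
    exact continuous_finsetSum _ fun k _ => cr_continuous (ext0_continuous _) (ext0_continuous _)
  have hsq : Continuous fun x : Fin (n + 1) → ℂ =>
      ∑ k ∈ range n, ‖ext0 x (k + 1) - ext0 x k‖ ^ 2 :=
    continuous_finsetSum _ fun k _ => (((ext0_continuous _).sub (ext0_continuous _)).norm).pow 2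
  set K : Set (Fin (n + 1) → ℂ) := {x | ext0 x 0 = 0 ∧ ext0 x n = 0 ∧
    plen n (ext0 x) ≤ plen n (ext0 x0) ∧ par n (ext0 x0) ≤ par n (ext0 x)} with hK
  have hclosed : IsClosed K := by
    apply IsClosed.inter (isClosed_eq (ext0_continuous 0) continuous_const)
    apply IsClosed.inter (isClosed_eq (ext0_continuous n) continuous_const)
    exact IsClosed.inter (isClosed_le hlen continuous_const) (isClosed_le continuous_const har)
  have hbdd : Bornology.IsBounded K := by
    rw [isBounded_iff_forall_norm_le]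
    refine ⟨plen n (ext0 x0), fun x hx => ?_⟩
    rw [pi_norm_le_iff_of_nonneg (plen_nonneg _ _)]
    intro i
    have h1 := dist_le_plen (n := n) (ext0 x) (k := i.val) (by omega)
    rw [hx.1, sub_zero] at h1
    have h2 : ext0 x i.val = x i := by unfold ext0; rw [dif_pos i.isLt]
    rw [h2] at h1
    exact h1.trans hx.2.2.1
  have hcomp : IsCompact K := Metric.isCompact_of_isClosed_isBounded hclosed hbdd
  have hne : K.Nonempty := ⟨x0, h0, hn0, le_rfl, le_rfl⟩
  obtain ⟨x, hx, hmin⟩ := hcomp.exists_isMinOn hne hsq.continuousOn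
  refine ⟨x, hx.1, hx.2.1, hx.2.2.1, hx.2.2.2, fun k hk => ?_⟩
  by_contra hneq
  obtain ⟨v', w', hsum, hv', hw', hcr⟩ := isosceles (ext0 x (k + 1) - ext0 x k)
    (ext0 x (k + 1 + 1) - ext0 x (k + 1))
  set x' := Function.update x ⟨k + 1, by omega⟩ (ext0 x k + v') with hx'
  have hself : ext0 x' (k + 1) = ext0 x k + v' := by
    unfold ext0
    rw [dif_pos (by omega), hx', Function.update_self]
    rfl
  have hoth : ∀ i, i ≠ k + 1 → ext0 x' i = ext0 x i := by
    intro i hi
    unfold ext0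
    by_cases h : i < n + 1
    · rw [dif_pos h, dif_pos h, hx', Function.update_of_ne]
      intro he
      exact hi (Fin.mk.inj_iff.1 he)
    · rw [dif_neg h, dif_neg h]
  have ek : ext0 x' k = ext0 x k := hoth k (by omega)
  have ek2 : ext0 x' (k + 1 + 1) = ext0 x (k + 1 + 1) := hoth _ (by omega)
  have d1 : ext0 x' (k + 1) - ext0 x' k = v' := by rw [hself, ek]; ring
  have d2 : ext0 x' (k + 1 + 1) - ext0 x' (k + 1) = w' := by
    rw [hself, ek2]
    linear_combination -hsum
  have hsame : ∀ i, i ≠ k → i ≠ k + 1 → ext0 x' i = ext0 x i ∧ ext0 x' (i + 1) = ext0 x (i + 1) :=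
    fun i h1 h2 => ⟨hoth i h2, hoth (i + 1) (by omega)⟩
  have hl : plen n (ext0 x') = plen n (ext0 x) := by
    unfold plen
    rw [sum_two_change hk (f := fun i => ‖ext0 x' (i + 1) - ext0 x' i‖)
      (g := fun i => ‖ext0 x (i + 1) - ext0 x i‖) (fun i h1 h2 => by
        rw [(hsame i h1 h2).1, (hsame i h1 h2).2])]
    simp only [d1, d2, hv', hw']
    ring
  have ha : par n (ext0 x) ≤ par n (ext0 x') := by
    unfold par
    rw [sum_two_change hk (f := fun i => cr (ext0 x' i) (ext0 x' (i + 1)))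
      (g := fun i => cr (ext0 x i) (ext0 x (i + 1))) (fun i h1 h2 => by
        rw [(hsame i h1 h2).1, (hsame i h1 h2).2])]
    simp only [ek, ek2]
    have e1 : cr (ext0 x k) (ext0 x' (k + 1)) + cr (ext0 x' (k + 1)) (ext0 x (k + 1 + 1)) =
        cr v' w' + cr (ext0 x k) (ext0 x (k + 1 + 1)) := by
      rw [← d1, ← d2, ek, ek2]; unfold cr; simp only [Complex.sub_re, Complex.sub_im]; ring
    have e2 : cr (ext0 x k) (ext0 x (k + 1)) + cr (ext0 x (k + 1)) (ext0 x (k + 1 + 1)) =
        cr (ext0 x (k + 1) - ext0 x k) (ext0 x (k + 1 + 1) - ext0 x (k + 1)) +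
          cr (ext0 x k) (ext0 x (k + 1 + 1)) := by
      unfold cr; simp only [Complex.sub_re, Complex.sub_im]; ring
    linarith
  have hxK : x' ∈ K := by
    refine ⟨?_, ?_, ?_, ?_⟩
    · rw [hoth 0 (by omega)]; exact hx.1
    · rw [hoth n (by omega)]; exact hx.2.1
    · rw [hl]; exact hx.2.2.1
    · exact hx.2.2.2.trans ha
  have h1 := hmin hxK
  simp only [Set.mem_ofPred_eq] at h1
  rw [sum_two_change hk (f := fun i => ‖ext0 x' (i + 1) - ext0 x' i‖ ^ 2)
      (g := fun i => ‖ext0 x (i + 1) - ext0 x i‖ ^ 2) (fun i h1 h2 => by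
        rw [(hsame i h1 h2).1, (hsame i h1 h2).2])] at h1
  simp only [d1, d2, hv', hw'] at h1
  have h2 : 0 < (‖ext0 x (k + 1) - ext0 x k‖ - ‖ext0 x (k + 1 + 1) - ext0 x (k + 1)‖) ^ 2 := by
    have := sub_ne_zero.2 hneq
    positivity
  nlinarith

theorem par_translate (n : ℕ) (z : ℕ → ℂ) (hz : z n = z 0) (o : ℂ) :
    par n (fun k => z k - o) = par n z := by
  unfold par
  have h1 : ∀ k, cr (z k - o) (z (k + 1) - o) = cr (z k) (z (k + 1)) -
      (cr o (z (k + 1)) - cr o (z k)) := by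
    intro k
    unfold cr
    simp only [Complex.sub_re, Complex.sub_im]
    ring
  rw [Finset.sum_congr rfl fun k _ => h1 k, Finset.sum_sub_distrib,
    Finset.sum_range_sub (fun k => cr o (z k)), hz]
  ring

/-- **Isoperimetric inequality for polygons with `n` sides.** -/
theorem polygon_iso {n : ℕ} (hn : 3 ≤ n) (z : ℕ → ℂ) (hz : z n = z 0) :
    4 * n * Real.tan (Real.pi / n) * (par n z / 2) ≤ plen n z ^ 2 := by
  set x0 : Fin (n + 1) → ℂ := fun i => z i.val - z 0 with hx0
  have hext : ∀ k, k ≤ n → ext0 x0 k = z k - z 0 := by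
    intro k hk
    unfold ext0
    rw [dif_pos (by omega)]
  have hp0 : par n (ext0 x0) = par n z := by
    rw [← par_translate n z hz (z 0)]
    unfold par
    refine Finset.sum_congr rfl fun k hk => ?_
    rw [Finset.mem_range] at hk
    rw [hext k (by omega), hext (k + 1) (by omega)]
  have hl0 : plen n (ext0 x0) = plen n z := by
    unfold plen
    refine Finset.sum_congr rfl fun k hk => ?_
    rw [Finset.mem_range] at hk
    rw [hext k (by omega), hext (k + 1) (by omega)]
    congr 1; ring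
  obtain ⟨x, h1, h2, h3, h4, h5⟩ := exists_equilateral x0 (by rw [hext 0 (by omega), sub_self])
    (by rw [hext n le_rfl, hz, sub_self])
  rw [hl0] at h3
  rw [hp0] at h4
  set ρ := ‖ext0 x 1 - ext0 x 0‖ with hρ
  have heq : ∀ k, k < n → ‖ext0 x (k + 1) - ext0 x k‖ = ρ := by
    intro k
    induction k with
    | zero => intro _; rfl
    | succ k ih => intro hk; rw [← h5 k hk]; exact ih (by omega)
  have hlen : plen n (ext0 x) = n * ρ := by
    unfold plen
    rw [Finset.sum_congr rfl fun k hk => heq k (Finset.mem_range.1 hk)]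
    simp
  set y : ℕ → ℂ := fun k => ext0 x (k % n) with hy
  have hyper : ∀ k, y (k + n) = y k := by
    intro k
    simp only [hy, Nat.add_mod_right]
  have hyk : ∀ k, k ≤ n → y k = ext0 x k := by
    intro k hk
    simp only [hy]
    rcases hk.lt_or_eq with h | h
    · rw [Nat.mod_eq_of_lt h]
    · rw [h, Nat.mod_self, h1, h2]
  have hw := polygon_wirtinger hn y hyper
  have e1 : ∑ k ∈ range n, cr (y k) (y (k + 1)) = par n (ext0 x) := by
    unfold par
    refine Finset.sum_congr rfl fun k hk => ?_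
    rw [Finset.mem_range] at hk
    rw [hyk k (by omega), hyk (k + 1) (by omega)]
  have e2 : ∑ k ∈ range n, ‖y (k + 1) - y k‖ ^ 2 = n * ρ ^ 2 := by
    have e3 : ∀ k ∈ range n, ‖y (k + 1) - y k‖ ^ 2 = ρ ^ 2 := fun k hk => by
      rw [Finset.mem_range] at hk
      rw [hyk k (by omega), hyk (k + 1) (by omega), heq k hk]
    rw [Finset.sum_congr rfl e3, Finset.sum_const, Finset.card_range, nsmul_eq_mul]
  rw [e1, e2] at hw
  have hn0 : (0 : ℝ) < n := by positivity
  have hn3 : (3 : ℝ) ≤ n := by exact_mod_cast hn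
  have ht : 0 ≤ Real.tan (Real.pi / n) := by
    apply Real.tan_nonneg_of_nonneg_of_le_pi_div_two (by positivity)
    apply div_le_div_of_nonneg_left Real.pi_pos.le (by norm_num) (by linarith)
  have h6 : 4 * n * Real.tan (Real.pi / n) * (par n z / 2) ≤
      4 * n * Real.tan (Real.pi / n) * (par n (ext0 x) / 2) := by
    apply mul_le_mul_of_nonneg_left _ (by positivity)
    linarith
  have h7 : 4 * n * Real.tan (Real.pi / n) * (par n (ext0 x) / 2) ≤ n * (n * ρ ^ 2) := by
    calc _ = n * (4 * Real.tan (Real.pi / n) * (par n (ext0 x) / 2)) := by ring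
      _ ≤ _ := mul_le_mul_of_nonneg_left hw hn0.le
  have h8 : n * (n * ρ ^ 2) = plen n (ext0 x) ^ 2 := by rw [hlen]; ring
  have h9 : plen n (ext0 x) ^ 2 ≤ plen n z ^ 2 :=
    pow_le_pow_left₀ (plen_nonneg _ _) h3 2
  linarith

/-- **Isoperimetric inequality for closed polygons.** -/
theorem iso_ineq (n : ℕ) (z : ℕ → ℂ) (hz : z n = z 0) :
    4 * Real.pi * (par n z / 2) ≤ plen n z ^ 2 := by
  rcases Nat.lt_or_ge n 3 with h | h
  · have h0 : par n z = 0 := by
      interval_cases n
      · simp [par]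
      · simp only [par, range_one, sum_singleton, zero_add]
        rw [hz]; unfold cr; ring
      · simp only [par, sum_range_succ, range_zero, sum_empty, zero_add]
        have : z (1 + 1) = z 0 := hz
        rw [this]; unfold cr; ring
    rw [h0]
    have := sq_nonneg (plen n z)
    simpa using this
  · rcases le_or_gt (par n z) 0 with hneg | hpos
    · have : 4 * Real.pi * (par n z / 2) ≤ 0 :=
        mul_nonpos_of_nonneg_of_nonpos (by positivity) (by linarith)
      exact this.trans (sq_nonneg _)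
    · refine le_trans ?_ (polygon_iso h z hz)
      have hn0 : (0 : ℝ) < n := by positivity
      have hn3 : (3 : ℝ) ≤ n := by exact_mod_cast h
      have h1 : Real.pi / n ≤ Real.tan (Real.pi / n) := by
        apply Real.le_tan (by positivity)
        apply div_lt_div_of_pos_left Real.pi_pos (by norm_num) (by linarith)
      have h2 : Real.pi ≤ n * Real.tan (Real.pi / n) := by
        have := mul_le_mul_of_nonneg_left h1 hn0.le
        have e : (n : ℝ) * (Real.pi / n) = Real.pi := by field_simp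
        linarith
      have h3 : 0 ≤ par n z / 2 := by linarith
      calc 4 * Real.pi * (par n z / 2) ≤ 4 * (n * Real.tan (Real.pi / n)) * (par n z / 2) := by
            apply mul_le_mul_of_nonneg_right _ h3
            linarith
        _ = _ := by ring

end Run7.h761
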