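import Mathlib

/-! Combinatorics of two sequences of labels. -/

set_option autoImplicit false

namespace Run7.h761

open Finset

/-- one if different -/
def ne {ι : Type*} [DecidableEq ι] (a b : ι) : ℕ := if a = b then 0 else 1

section

variable {ι : Type*} [DecidableEq ι]

theorem ne_self (a : ι) : ne a a = 0 := by simp [ne]

theorem ne_comm' (a b : ι) : ne a b = ne b a := by
  unfold ne
  by_cases h : a = b
  · rw [if_pos h, if_pos h.symm]
  · rw [if_neg h, if_neg (fun e => h e.symm)]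

theorem ne_le_one (a b : ι) : ne a b ≤ 1 := by
  unfold ne
  split_ifs <;> omega

theorem ne_eq_zero {a b : ι} : ne a b = 0 ↔ a = b := by
  unfold ne
  split_ifs with h <;> simp [h]

theorem ne_eq_one {a b : ι} : ne a b = 1 ↔ a ≠ b := by
  unfold ne
  split_ifs with h <;> simp [h]

theorem ne_tri (a b c : ι) : ne a c ≤ ne a b + ne b c := by
  unfold ne
  by_cases h1 : a = b
  · by_cases h2 : b = c
    · rw [if_pos (h1.trans h2)]; omega
    · rw [if_neg h2]; split_ifs <;> omega
  · rw [if_neg h1]; split_ifs <;> omega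

theorem ne_path (b : ℕ → ι) {i j : ℕ} (hij : i ≤ j) :
    ne (b i) (b j) ≤ ∑ k ∈ Ico i j, ne (b k) (b (k + 1)) := by
  induction j, hij using Nat.le_induction with
  | base => simp [ne_self]
  | succ j hj ih =>
    rw [Finset.sum_Ico_succ_top hj]
    exact (ne_tri _ (b j) _).trans (by omega)

/-- a triple of different labels -/
def tr3 (a b c : ι) : ℕ := if a ≠ b ∧ c ≠ a ∧ c ≠ b then 1 else 0

theorem tr3_le (a b c : ι) : tr3 a b c ≤ ne a b := by
  unfold tr3 ne
  split_ifs with h1 h2 <;> first | omega | skip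
  exact absurd h2 h1.1

theorem strip_ineq (b c : ℕ → ι) (K : ℕ) :
    ∑ k ∈ range K, tr3 (b k) (b (k + 1)) (c k) + ne (c 0) (c K) + ne (b K) (c 0) + ne (b 0) (c K) ≤
      2 * ∑ k ∈ range K, ne (b k) (b (k + 1)) + ∑ k ∈ range K, ne (c k) (c (k + 1)) +
        ne (b 0) (c 0) + ne (b K) (c K) := by
  set nb := ∑ k ∈ range K, ne (b k) (b (k + 1)) with hnb
  set nc := ∑ k ∈ range K, ne (c k) (c (k + 1)) with hnc
  set U := ∑ k ∈ range K, tr3 (b k) (b (k + 1)) (c k) with hU
  have hUb : U ≤ nb := Finset.sum_le_sum fun k _ => tr3_le _ _ _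
  have hx : ne (b 0) (b K) ≤ nb := by
    have := ne_path b (Nat.zero_le K)
    rwa [← Finset.range_eq_Ico] at this
  have hy : ne (c 0) (c K) ≤ nc := by
    have := ne_path c (Nat.zero_le K)
    rwa [← Finset.range_eq_Ico] at this
  have t1 : ne (b K) (c 0) ≤ ne (b 0) (b K) + ne (b 0) (c 0) := by
    have := ne_tri (b K) (b 0) (c 0)
    rwa [ne_comm' (b K) (b 0)] at this
  have t2 : ne (b 0) (c K) ≤ ne (b 0) (b K) + ne (b K) (c K) := ne_tri _ _ _
  have hx1 := ne_le_one (b 0) (b K)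
  have hy1 := ne_le_one (c 0) (c K)
  rcases Nat.lt_or_ge (ne (b 0) (b K)) nb with h1 | h1
  · omega
  rcases Nat.lt_or_ge (ne (c 0) (c K)) nc with h2 | h2
  · omega
  rcases Nat.eq_zero_or_pos U with h3 | h3
  · omega
  have hnb1 : nb = 1 := by omega
  have hx' : ne (b 0) (b K) = 1 := by omega
  obtain ⟨k, hk, hk1⟩ : ∃ k ∈ range K, tr3 (b k) (b (k + 1)) (c k) ≠ 0 := by
    by_contra hc
    push Not at hc
    rw [hU, Finset.sum_eq_zero hc] at h3
    omega
  have hkK := Finset.mem_range.1 hk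
  have htr : b k ≠ b (k + 1) ∧ c k ≠ b k ∧ c k ≠ b (k + 1) := by
    unfold tr3 at hk1
    by_contra hc
    rw [if_neg hc] at hk1
    exact hk1 rfl
  have hsplit : ∑ i ∈ Ico 0 k, ne (b i) (b (i + 1)) + (ne (b k) (b (k + 1)) +
      ∑ i ∈ Ico (k + 1) K, ne (b i) (b (i + 1))) = nb := by
    rw [hnb, Finset.range_eq_Ico, ← Finset.sum_Ico_consecutive _ (Nat.zero_le k) hkK.le,
      Finset.sum_eq_sum_Ico_succ_bot hkK]
  have hk2 : ne (b k) (b (k + 1)) = 1 := ne_eq_one.2 htr.1
  have hb0 : b 0 = b k := by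
    have := ne_path b (Nat.zero_le k)
    rw [← ne_eq_zero]
    omega
  have hbK : b (k + 1) = b K := by
    have := ne_path b (show k + 1 ≤ K from hkK)
    rw [← ne_eq_zero]
    omega
  have hcs : ne (c 0) (c k) + ne (c k) (c K) ≤ nc := by
    have a1 := ne_path c (Nat.zero_le k)
    have a2 := ne_path c hkK.le
    have a3 := Finset.sum_Ico_consecutive (fun i => ne (c i) (c (i + 1))) (Nat.zero_le k) hkK.le
    rw [← Finset.range_eq_Ico] at a3
    rw [hnc]
    have a4 : ∑ i ∈ Ico 0 K, ne (c i) (c (i + 1)) = ∑ k ∈ range K, ne (c k) (c (k + 1)) := by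
      rw [Finset.range_eq_Ico]
    rw [← Finset.range_eq_Ico] at a1
    rw [a4] at a3
    omega
  have hcc : c 0 = c k ∨ c k = c K := by
    rcases Nat.eq_zero_or_pos (ne (c 0) (c k)) with h4 | h4
    · left; exact ne_eq_zero.1 h4
    · right
      rw [← ne_eq_zero]
      omega
  have hu1 := ne_le_one (b K) (c 0)
  have hu2 := ne_le_one (b 0) (c K)
  rcases hcc with h4 | h4
  · have : ne (b 0) (c 0) = 1 := by
      rw [ne_eq_one, hb0, h4]
      exact fun h => htr.2.1 h.symm
    omega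
  · have : ne (b K) (c K) = 1 := by
      rw [ne_eq_one, ← hbK, ← h4]
      exact fun h => htr.2.2 h.symm
    omega

end

end Run7.h761
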