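import Pool.Agent.Run7.h761.TriFlux
import Pool.Agent.Run7.h761.Seq

/-! Labellings of the plane. -/

set_option autoImplicit false

namespace Run7.h761

open MeasureTheory Set Filter Topology
open scoped ENNReal

/-- labellings with finite perimeter -/
structure LabOK {N : ℕ} (l : Plane → Fin (N + 1)) : Prop where
  meas : Measurable l
  per : ∀ i, perimeter (l ⁻¹' {i}) ≠ ⊤

section

variable {N : ℕ} (l : Plane → Fin (N + 1))

/-- total perimeter -/
noncomputable def PT : ℝ := ∑ i, PerR (l ⁻¹' {i})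

/-- measure of the set where the label changes under a translation -/
noncomputable def DE (h : Plane) : ℝ≥0∞ := ∫⁻ x, (ne (l x) (l (x + h)) : ℝ≥0∞)

/-- real version -/
noncomputable def DR (h : Plane) : ℝ := (DE l h).toReal

variable {l}

theorem measurable_ne {α : Type*} [MeasurableSpace α] {f g : α → Fin (N + 1)} (hf : Measurable f)
    (hg : Measurable g) : Measurable fun x => (ne (f x) (g x) : ℝ≥0∞) := by
  have h : Measurable fun p : Fin (N + 1) × Fin (N + 1) => (ne p.1 p.2 : ℝ≥0∞) := measurable_of_countable _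
  exact h.comp (hf.prodMk hg)

theorem DE_gen (hl : LabOK l) (a b : Plane) :
    ∫⁻ x, (ne (l (x + a)) (l (x + b)) : ℝ≥0∞) = DE l (b - a) := by
  unfold DE
  rw [← lintegral_add_right_eq_self (fun x => (ne (l x) (l (x + (b - a))) : ℝ≥0∞)) a]
  congr 1
  funext x
  have : x + a + (b - a) = x + b := by abel
  rw [this]

theorem PT_nonneg : 0 ≤ PT l := Finset.sum_nonneg fun _ _ => PerR_nonneg _

theorem measurable_shift (hl : LabOK l) (a : Plane) : Measurable fun x => l (x + a) :=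
  hl.meas.comp (measurable_id.add_const a)

theorem DE_le (hl : LabOK l) (h : Plane) : DE l h ≤ ENNReal.ofReal (‖h‖ * PT l) := by
  set S : Fin (N + 1) → Set Plane := fun i => {x | ¬ (x ∈ l ⁻¹' {i} ↔ x + h ∈ l ⁻¹' {i})} with hS
  have hSm : ∀ i, MeasurableSet (S i) := by
    intro i
    have h1 : MeasurableSet (l ⁻¹' {i}) := hl.meas (measurableSet_singleton i)
    have h2 : MeasurableSet {x : Plane | x + h ∈ l ⁻¹' {i}} := (measurable_id.add_const h) h1
    have : S i = ((l ⁻¹' {i}) \ {x : Plane | x + h ∈ l ⁻¹' {i}}) ∪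
        ({x : Plane | x + h ∈ l ⁻¹' {i}} \ (l ⁻¹' {i})) := by
      ext x
      simp only [hS, mem_ofPred_eq, mem_union, Set.mem_diff]
      tauto
    rw [this]
    exact (h1.diff h2).union (h2.diff h1)
  have hpt : ∀ x, (ne (l x) (l (x + h)) : ℝ≥0∞) ≤
      ∑ i : Fin (N + 1), (S i).indicator (fun _ => (1 : ℝ≥0∞)) x := by
    intro x
    by_cases h1 : l x = l (x + h)
    · rw [ne_eq_zero.2 h1]
      simp only [Nat.cast_zero]
      exact zero_le
    · rw [ne_eq_one.2 h1]
      have h2 : x ∈ S (l x) := by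
        simp only [hS, mem_ofPred_eq, mem_preimage, mem_singleton_iff, true_iff]
        exact fun e => h1 e.symm
      have h3 := Finset.single_le_sum (f := fun i => (S i).indicator (fun _ => (1 : ℝ≥0∞)) x)
        (fun _ _ => zero_le) (Finset.mem_univ (l x))
      simp only [indicator_of_mem h2] at h3
      simpa using h3
  unfold DE
  refine (lintegral_mono hpt).trans ?_
  rw [lintegral_finsetSum _ fun i _ => measurable_const.indicator (hSm i)]
  have hb : ∀ i, ∫⁻ x, (S i).indicator (fun _ => (1 : ℝ≥0∞)) x ≤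
      ENNReal.ofReal (‖h‖ * PerR (l ⁻¹' {i})) := by
    intro i
    rw [lintegral_indicator_const (hSm i), one_mul]
    exact shift_bound (hl.meas (measurableSet_singleton i)) (hl.per i) h
  refine (Finset.sum_le_sum fun i _ => hb i).trans ?_
  rw [← ENNReal.ofReal_sum_of_nonneg]
  · rw [← Finset.mul_sum]
    exact le_rfl
  · intro i _
    exact mul_nonneg (norm_nonneg _) (PerR_nonneg _)

theorem DE_ne_top (hl : LabOK l) (h : Plane) : DE l h ≠ ⊤ :=
  ne_top_of_le_ne_top ENNReal.ofReal_ne_top (DE_le hl h)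

theorem DE_neg (hl : LabOK l) (h : Plane) : DE l (-h) = DE l h := by
  have h1 := DE_gen hl h 0
  rw [zero_sub] at h1
  rw [← h1]
  unfold DE
  congr 1
  funext x
  rw [add_zero, ne_comm']

theorem DE_add (hl : LabOK l) (h k : Plane) : DE l (h + k) ≤ DE l h + DE l k := by
  have h1 := DE_gen hl h (h + k)
  rw [add_sub_cancel_left] at h1
  rw [← h1]
  unfold DE
  rw [← lintegral_add_left (measurable_ne hl.meas (measurable_shift hl h))]
  apply lintegral_mono
  intro x
  have := ne_tri (l x) (l (x + h)) (l (x + (h + k)))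
  show (ne (l x) (l (x + (h + k))) : ℝ≥0∞) ≤
    (ne (l x) (l (x + h)) : ℝ≥0∞) + (ne (l (x + h)) (l (x + (h + k))) : ℝ≥0∞)
  exact_mod_cast this

theorem DR_nonneg (h : Plane) : 0 ≤ DR l h := ENNReal.toReal_nonneg

theorem DR_neg (hl : LabOK l) (h : Plane) : DR l (-h) = DR l h := by
  unfold DR
  rw [DE_neg hl]

theorem DR_add (hl : LabOK l) (h k : Plane) : DR l (h + k) ≤ DR l h + DR l k := by
  unfold DR
  rw [← ENNReal.toReal_add (DE_ne_top hl h) (DE_ne_top hl k)]
  exact ENNReal.toReal_mono (ENNReal.add_ne_top.2 ⟨DE_ne_top hl h, DE_ne_top hl k⟩) (DE_add hl h k)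

theorem DR_le (hl : LabOK l) (h : Plane) : DR l h ≤ ‖h‖ * PT l := by
  unfold DR
  exact ENNReal.toReal_le_of_le_ofReal (mul_nonneg (norm_nonneg _) PT_nonneg) (DE_le hl h)

theorem DR_smul_nat (hl : LabOK l) (n : ℕ) (h : Plane) : DR l ((n : ℝ) • h) ≤ n * DR l h := by
  induction n with
  | zero =>
    simp only [Nat.cast_zero, zero_smul, zero_mul]
    have := DR_le hl 0
    rwa [norm_zero, zero_mul] at this
  | succ n ih =>
    push_cast
    rw [add_smul, one_smul, add_mul, one_mul]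
    exact (DR_add hl _ _).trans (by linarith)

/-- measure of the set of triples of different labels -/
noncomputable def TE (l : Plane → Fin (N + 1)) (a c : Plane) : ℝ≥0∞ :=
  ∫⁻ x, (tr3 (l x) (l (x + a)) (l (x + c)) : ℝ≥0∞)

/-- **triples are rare** -/
theorem strip_bound (hl : LabOK l) (a c : Plane) (K : ℕ) :
    K * (TE l a c).toReal ≤ 3 * (K * DR l a - DR l ((K : ℝ) • a)) + 4 * DR l c := by
  have hTE : ∀ y, ∫⁻ x, (tr3 (l (x + y)) (l (x + (y + a))) (l (x + (y + c))) : ℝ≥0∞) = TE l a c := by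
    intro y
    unfold TE
    rw [← lintegral_add_right_eq_self (fun x => (tr3 (l x) (l (x + a)) (l (x + c)) : ℝ≥0∞)) y]
    congr 1
    funext x
    rw [add_assoc, add_assoc]
  have hTfin : TE l a c ≠ ⊤ := by
    apply ne_top_of_le_ne_top (DE_ne_top hl a)
    unfold TE DE
    apply lintegral_mono
    intro x
    show (tr3 (l x) (l (x + a)) (l (x + c)) : ℝ≥0∞) ≤ (ne (l x) (l (x + a)) : ℝ≥0∞)
    exact_mod_cast tr3_le _ _ _
  have hmt : ∀ y z w : Plane, Measurable fun x =>
      (tr3 (l (x + y)) (l (x + z)) (l (x + w)) : ℝ≥0∞) := by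
    intro y z w
    have h : Measurable fun p : Fin (N + 1) × Fin (N + 1) × Fin (N + 1) =>
        (tr3 p.1 p.2.1 p.2.2 : ℝ≥0∞) := measurable_of_countable _
    exact h.comp ((measurable_shift hl y).prodMk ((measurable_shift hl z).prodMk
      (measurable_shift hl w)))
  have hmn : ∀ y z : Plane, Measurable fun x => (ne (l (x + y)) (l (x + z)) : ℝ≥0∞) := fun y z =>
    measurable_ne (measurable_shift hl y) (measurable_shift hl z)
  -- pointwise inequality
  have hpt : ∀ x, ∑ k ∈ Finset.range K, (tr3 (l (x + (k : ℝ) • a)) (l (x + ((k : ℝ) • a + a)))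
      (l (x + ((k : ℝ) • a + c))) : ℝ≥0∞) + ne (l (x + c)) (l (x + ((K : ℝ) • a + c))) +
      ne (l (x + (K : ℝ) • a)) (l (x + c)) + ne (l (x + 0)) (l (x + ((K : ℝ) • a + c))) ≤
      2 * ∑ k ∈ Finset.range K, (ne (l (x + (k : ℝ) • a)) (l (x + ((k : ℝ) • a + a))) : ℝ≥0∞) +
      ∑ k ∈ Finset.range K, (ne (l (x + ((k : ℝ) • a + c))) (l (x + ((k : ℝ) • a + a + c))) : ℝ≥0∞) +
      ne (l (x + 0)) (l (x + c)) + ne (l (x + (K : ℝ) • a)) (l (x + ((K : ℝ) • a + c))) := by
    intro x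
    have h := strip_ineq (fun k : ℕ => l (x + (k : ℝ) • a)) (fun k : ℕ => l (x + ((k : ℝ) • a + c))) K
    have e : ∀ k : ℕ, ((k + 1 : ℕ) : ℝ) • a = (k : ℝ) • a + a := by
      intro k
      push_cast
      rw [add_smul, one_smul]
    simp only [e] at h
    simp only [Nat.cast_zero, zero_smul, zero_add] at h
    exact_mod_cast h
  have hint := lintegral_mono (μ := (volume : Measure Plane)) hpt
  have s1 : ∀ k : ℕ, ∫⁻ x, (tr3 (l (x + (k : ℝ) • a)) (l (x + ((k : ℝ) • a + a)))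
      (l (x + ((k : ℝ) • a + c))) : ℝ≥0∞) = TE l a c := fun k => hTE _
  have s2 : ∀ k : ℕ, ∫⁻ x, (ne (l (x + (k : ℝ) • a)) (l (x + ((k : ℝ) • a + a))) : ℝ≥0∞) =
      DE l a := by
    intro k
    rw [DE_gen hl]
    congr 1; abel
  have s3 : ∀ k : ℕ, ∫⁻ x, (ne (l (x + ((k : ℝ) • a + c))) (l (x + ((k : ℝ) • a + a + c))) : ℝ≥0∞) =
      DE l a := by
    intro k
    rw [DE_gen hl]
    congr 1; abel
  have mL1 : Measurable fun x => ∑ k ∈ Finset.range K, (tr3 (l (x + (k : ℝ) • a))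
      (l (x + ((k : ℝ) • a + a))) (l (x + ((k : ℝ) • a + c))) : ℝ≥0∞) :=
    Finset.measurable_fun_sum _ fun k _ => hmt _ _ _
  have mR1 : Measurable fun x => ∑ k ∈ Finset.range K,
      (ne (l (x + (k : ℝ) • a)) (l (x + ((k : ℝ) • a + a))) : ℝ≥0∞) :=
    Finset.measurable_fun_sum _ fun k _ => hmn _ _
  have mR2 : Measurable fun x => ∑ k ∈ Finset.range K,
      (ne (l (x + ((k : ℝ) • a + c))) (l (x + ((k : ℝ) • a + a + c))) : ℝ≥0∞) :=
    Finset.measurable_fun_sum _ fun k _ => hmn _ _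
  rw [lintegral_add_right _ (hmn 0 ((K : ℝ) • a + c)), lintegral_add_right _ (hmn ((K : ℝ) • a) c),
    lintegral_add_right _ (hmn c ((K : ℝ) • a + c)),
    lintegral_add_right _ (hmn ((K : ℝ) • a) ((K : ℝ) • a + c)),
    lintegral_add_right _ (hmn 0 c), lintegral_add_right _ mR2, lintegral_const_mul _ mR1,
    lintegral_finsetSum _ fun k _ => hmt _ _ _, lintegral_finsetSum _ fun k _ => hmn _ _,
    lintegral_finsetSum _ fun k _ => hmn _ _] at hint
  simp only [s1, s2, s3, DE_gen hl, Finset.sum_const, Finset.card_range, nsmul_eq_mul] at hint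
  have f1 : (K : ℝ) • a + c - c = (K : ℝ) • a := by abel
  have f2 : (K : ℝ) • a + c - 0 = (K : ℝ) • a + c := by abel
  have f3 : c - (0 : Plane) = c := by abel
  have f4 : (K : ℝ) • a + c - (K : ℝ) • a = c := by abel
  rw [f1, f2, f3, f4] at hint
  have hre := ENNReal.toReal_mono (by
    simp only [ne_eq, ENNReal.add_eq_top, not_or]
    refine ⟨⟨⟨?_, ?_⟩, ?_⟩, ?_⟩
    · exact ENNReal.mul_ne_top (by simp) (ENNReal.mul_ne_top (by simp) (DE_ne_top hl _))
    · exact ENNReal.mul_ne_top (by simp) (DE_ne_top hl _)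
    · exact DE_ne_top hl _
    · exact DE_ne_top hl _) hint
  have g1 : (K : ℝ≥0∞) * TE l a c ≠ ⊤ := ENNReal.mul_ne_top (by simp) hTfin
  have g2 : (K : ℝ≥0∞) * DE l a ≠ ⊤ := ENNReal.mul_ne_top (by simp) (DE_ne_top hl _)
  have g3 : (2 : ℝ≥0∞) * (K * DE l a) ≠ ⊤ := ENNReal.mul_ne_top (by simp) g2
  rw [ENNReal.toReal_add (ENNReal.add_ne_top.2 ⟨ENNReal.add_ne_top.2 ⟨g1, DE_ne_top hl _⟩,
      DE_ne_top hl _⟩) (DE_ne_top hl _),
    ENNReal.toReal_add (ENNReal.add_ne_top.2 ⟨g1, DE_ne_top hl _⟩) (DE_ne_top hl _),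
    ENNReal.toReal_add g1 (DE_ne_top hl _),
    ENNReal.toReal_add (ENNReal.add_ne_top.2 ⟨ENNReal.add_ne_top.2 ⟨g3, g2⟩, DE_ne_top hl _⟩)
      (DE_ne_top hl _),
    ENNReal.toReal_add (ENNReal.add_ne_top.2 ⟨g3, g2⟩) (DE_ne_top hl _),
    ENNReal.toReal_add g3 g2, ENNReal.toReal_mul, ENNReal.toReal_mul, ENNReal.toReal_mul] at hre
  simp only [ENNReal.toReal_natCast, ENNReal.toReal_ofNat] at hre
  change K * (TE l a c).toReal + DR l ((K : ℝ) • a) + DR l (c - (K : ℝ) • a) +
    DR l ((K : ℝ) • a + c) ≤ 2 * (K * DR l a) + K * DR l a + DR l c + DR l c at hre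
  have h1 : DR l ((K : ℝ) • a) ≤ DR l ((K : ℝ) • a + c) + DR l c := by
    have := DR_add hl ((K : ℝ) • a + c) (-c)
    rwa [add_neg_cancel_right, DR_neg hl] at this
  have h2 : DR l ((K : ℝ) • a) ≤ DR l (c - (K : ℝ) • a) + DR l c := by
    have := DR_add hl (c - (K : ℝ) • a) (-c)
    have e : c - (K : ℝ) • a + -c = -((K : ℝ) • a) := by abel
    rwa [e, DR_neg hl, DR_neg hl] at this
  linarith

end

end Run7.h761
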