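import Pool.Agent.Run7.h761.Chain

/-! Darts of the hexagonal lattice. -/

set_option autoImplicit false

namespace Run7.h761.Lb

open Finset

theorem f6_1 : ∀ j : Fin 6, j + 5 + 3 + 1 = j + 3 := by decide
theorem f6_2 : ∀ j : Fin 6, j + 1 + 3 + 1 = j + 5 := by decide
theorem f6_3 : ∀ j : Fin 6, j + 1 + 3 + 5 = j + 3 := by decide
theorem f6_4 : ∀ j : Fin 6, j + 2 + 2 = j + 4 := by decide
theorem f6_5 : ∀ j : Fin 6, j + 5 + 4 = j + 3 := by decide
theorem f6_6 : ∀ j : Fin 6, j + 3 + 5 = j + 2 := by decide

/-- sites of the triangular lattice, that is cells of the hexagonal one -/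
abbrev Site := ℤ × ℤ

/-- the six directions -/
def dr : Fin 6 → Site := ![(1, 0), (0, 1), (-1, 1), (-1, 0), (0, -1), (1, -1)]

theorem dr_opp : ∀ j : Fin 6, dr (j + 3) = -dr j := by decide

theorem dr_tri : ∀ j : Fin 6, dr (j + 1) = dr j + dr (j + 2) := by decide

/-- a dart `(s, j)`: the edge between the cells `s` and `s + dr j`, with `s` on the left -/
abbrev Dart := Site × Fin 6

/-- the cell on the right -/
def rgt (d : Dart) : Site := d.1 + dr d.2

/-- the third cell at the head -/
def thd (d : Dart) : Site := d.1 + dr (d.2 + 1)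

/-- the third cell at the tail -/
def thb (d : Dart) : Site := d.1 + dr (d.2 + 5)

/-- the reversed dart -/
def rev (d : Dart) : Dart := (d.1 + dr d.2, d.2 + 3)

theorem rev_rev (d : Dart) : rev (rev d) = d := by
  obtain ⟨s, j⟩ := d
  unfold rev
  simp only
  rw [dr_opp, add_neg_cancel_right]
  congr 1
  revert j; decide

theorem rev_fst (d : Dart) : (rev d).1 = rgt d := rfl

theorem rgt_rev (d : Dart) : rgt (rev d) = d.1 := by
  obtain ⟨s, j⟩ := d
  unfold rgt rev
  simp only
  rw [dr_opp, add_neg_cancel_right]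

section Next

variable {ι : Type*} [DecidableEq ι] (φ : Site → ι)

/-- interface darts -/
def InI (d : Dart) : Prop := φ d.1 ≠ φ (rgt d)

/-- the next dart along the boundary of the left face -/
def nx (d : Dart) : Dart := if φ (thd d) = φ d.1 then (thd d, d.2 + 5) else (d.1, d.2 + 1)

/-- the previous dart -/
def pv (d : Dart) : Dart := if φ (thb d) = φ d.1 then (thb d, d.2 + 1) else (d.1, d.2 + 5)

/-- three different faces at the head -/
def tri (d : Dart) : Prop := φ (thd d) ≠ φ d.1 ∧ φ (thd d) ≠ φ (rgt d)

/-- three different faces at the tail -/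
def trb (d : Dart) : Prop := φ (thb d) ≠ φ d.1 ∧ φ (thb d) ≠ φ (rgt d)

variable {φ}

theorem InI.rev {d : Dart} (h : InI φ d) : InI φ (rev d) := by
  unfold InI at *
  rw [rev_fst, rgt_rev]
  exact h.symm

theorem fin6_a (j : Fin 6) : j + 5 + 1 = j := by revert j; decide
theorem fin6_b (j : Fin 6) : j + 1 + 5 = j := by revert j; decide
theorem fin6_c (j : Fin 6) : j + 5 + 5 = j + 4 := by revert j; decide
theorem fin6_d (j : Fin 6) : j + 1 + 1 = j + 2 := by revert j; decide
theorem fin6_e (j : Fin 6) : j + 3 + 3 = j := by revert j; decide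

theorem dr_a (j : Fin 6) : dr (j + 1) + dr (j + 5) = dr j := by revert j; decide
theorem dr_b (j : Fin 6) : dr (j + 5) + dr (j + 1) = dr j := by revert j; decide
theorem dr_c (j : Fin 6) : dr (j + 1) + dr (j + 4) = 0 := by revert j; decide
theorem dr_d (j : Fin 6) : dr (j + 5) + dr (j + 2) = 0 := by revert j; decide

theorem rgt_nx (d : Dart) : rgt (nx φ d) = if φ (thd d) = φ d.1 then rgt d else thd d := by
  unfold nx
  split_ifs with h
  · unfold rgt thd
    simp only
    rw [add_assoc, dr_a]
  · rfl

theorem fst_nx (d : Dart) : φ (nx φ d).1 = φ d.1 := by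
  unfold nx
  split_ifs with h
  · exact h
  · rfl

theorem InI.nx {d : Dart} (h : InI φ d) : InI φ (nx φ d) := by
  unfold InI
  rw [fst_nx (φ := φ), rgt_nx]
  split_ifs with h'
  · exact h
  · exact fun e => h' e.symm

theorem rgt_nx_of_not_tri {d : Dart} (h : ¬ tri φ d) : φ (rgt (nx φ d)) = φ (rgt d) := by
  rw [rgt_nx]
  split_ifs with h'
  · rfl
  · unfold tri at h
    by_contra hc
    exact h ⟨h', hc⟩

theorem rgt_nx_of_tri {d : Dart} (h : tri φ d) : φ (rgt (nx φ d)) ≠ φ (rgt d) := by
  rw [rgt_nx, if_neg h.1]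
  exact h.2

theorem pv_nx {d : Dart} (h : InI φ d) : pv φ (nx φ d) = d := by
  obtain ⟨s, j⟩ := d
  unfold nx
  split_ifs with h'
  · have e1 : thb (thd (s, j), j + 5) = s := by
      unfold thb thd
      simp only
      rw [fin6_c, add_assoc, dr_c, add_zero]
    unfold pv
    simp only at h' ⊢
    rw [e1, if_pos h'.symm, fin6_a]
  · have e1 : thb ((s : Site), j + 1) = s + dr j := by
      unfold thb
      simp only
      rw [fin6_b]
    unfold pv
    simp only at h' ⊢
    rw [e1, if_neg, fin6_b]
    unfold InI rgt at h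
    exact fun e => h e.symm

theorem nx_inj {d e : Dart} (hd : InI φ d) (he : InI φ e) (h : nx φ d = nx φ e) : d = e := by
  rw [← pv_nx hd, ← pv_nx he, h]

theorem nx_pv {d : Dart} (h : InI φ d) : nx φ (pv φ d) = d ∧ InI φ (pv φ d) := by
  obtain ⟨s, j⟩ := d
  unfold pv
  split_ifs with h'
  · simp only at h'
    have e1 : thd (thb (s, j), j + 1) = s := by
      unfold thb thd
      simp only
      rw [fin6_d, add_assoc, dr_d, add_zero]
    have e2 : rgt (thb (s, j), j + 1) = s + dr j := by
      unfold thb rgt
      simp only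
      rw [add_assoc, dr_b]
    constructor
    · unfold nx
      simp only
      rw [e1, if_pos h'.symm, fin6_b]
    · unfold InI
      rw [e2]
      simp only
      rw [h']
      exact h
  · simp only at h'
    have e1 : thd ((s : Site), j + 5) = s + dr j := by
      unfold thd
      simp only
      rw [fin6_a]
    constructor
    · unfold nx
      simp only
      rw [e1, if_neg, fin6_a]
      exact fun e => h e.symm
    · unfold InI
      simp only
      exact fun e => h' e.symm

/-- non-branching heads: going back on the other side -/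
theorem nx_rev_nx {d : Dart} (h : InI φ d) (ht : ¬ tri φ d) : nx φ (rev (nx φ d)) = rev d := by
  obtain ⟨s, j⟩ := d
  unfold nx
  split_ifs with h1 h2 h2
  · exfalso
    unfold rev thd at h2
    simp only at h2 h1
    have e : s + dr (j + 1) + dr (j + 5) = s + dr j := by rw [add_assoc, dr_a]
    rw [e] at h2
    have e2 := f6_1 j
    rw [e2, dr_opp, add_neg_cancel_right] at h2
    exact h h2
  · unfold rev thd
    simp only
    have e : s + dr (j + 1) + dr (j + 5) = s + dr j := by rw [add_assoc, dr_a]
    rw [e]
    have e2 := f6_1 j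
    rw [e2]
  · unfold rev thd
    simp only
    have e2 := f6_2 j
    have e3 := f6_3 j
    rw [e2, e3, add_assoc, dr_a]
  · exfalso
    apply h2
    unfold tri at ht
    push Not at ht
    have h3 := ht h1
    unfold rev thd
    simp only
    have e2 := f6_2 j
    rw [e2, add_assoc, dr_a]
    exact h3.symm

/-- the branching points at the head of `d` and at the tail of `nx d` -/
theorem trb_nx {d : Dart} (h : InI φ d) : trb φ (nx φ d) ↔ tri φ d := by
  obtain ⟨s, j⟩ := d
  unfold nx
  split_ifs with h1
  · have e1 : thb (thd (s, j), j + 5) = s := by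
      unfold thb thd
      simp only
      rw [fin6_c, add_assoc, dr_c, add_zero]
    constructor
    · intro h2
      exfalso
      apply h2.1
      rw [e1]
      exact h1.symm
    · intro h2
      exact absurd h1 h2.1
  · have e1 : thb ((s : Site), j + 1) = s + dr j := by
      unfold thb
      simp only
      rw [fin6_b]
    unfold trb tri
    rw [e1]
    unfold rgt thd
    simp only
    constructor
    · rintro ⟨_, h3⟩
      exact ⟨h1, fun e => h3 e.symm⟩
    · rintro ⟨_, h3⟩
      exact ⟨fun e => h e.symm, fun e => h3 e.symm⟩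

theorem trb_rev {d : Dart} : trb φ (rev d) ↔ tri φ d := by
  obtain ⟨s, j⟩ := d
  unfold trb tri
  rw [rgt_rev]
  have e1 : thb (rev (s, j)) = thd (s, j) := by
    unfold thb rev thd
    simp only
    have e2 := f6_6 j
    rw [e2, dr_tri, add_assoc]
  rw [e1]
  exact and_comm

theorem tri_rev {d : Dart} : tri φ (rev d) ↔ trb φ d := by
  rw [← trb_rev, rev_rev]

end Next

section Pos

variable (z : Dart → ℂ)

/-- the three names of a vertex agree -/
def Cons : Prop := ∀ (s : Site) (j : Fin 6), z (s + dr j, j + 2) = z (s, j)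

/-- tail position -/
def tl (d : Dart) : ℂ := z (d.1, d.2 + 5)

/-- length -/
noncomputable def len (d : Dart) : ℝ := ‖z d - tl z d‖

/-- area form -/
def ar (d : Dart) : ℝ := cr (tl z d) (z d)

/-- area of a cell -/
noncomputable def ca (s : Site) : ℝ := (∑ j : Fin 6, ar z (s, j)) / 2

variable {z}

theorem Cons.third (h : Cons z) (s : Site) (j : Fin 6) : z (s + dr (j + 1), j + 4) = z (s, j) := by
  have h1 := h (s + dr j) (j + 2)
  have e := f6_4 j
  rw [add_assoc, ← dr_tri, e, h s j] at h1
  exact h1

theorem tl_nx (h : Cons z) {ι : Type*} [DecidableEq ι] (φ : Site → ι) (d : Dart) :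
    tl z (nx φ d) = z d := by
  obtain ⟨s, j⟩ := d
  unfold nx
  split_ifs
  · unfold tl thd
    simp only
    rw [fin6_c]
    exact h.third s j
  · unfold tl
    simp only
    rw [fin6_b]

theorem z_rev (h : Cons z) (d : Dart) : z (rev d) = tl z d := by
  obtain ⟨s, j⟩ := d
  unfold rev tl
  simp only
  have h1 := h.third s (j + 5)
  rw [fin6_a] at h1
  have e := f6_5 j
  rw [e] at h1
  exact h1

theorem tl_rev (h : Cons z) (d : Dart) : tl z (rev d) = z d := by
  rw [← z_rev h, rev_rev]

theorem len_rev (h : Cons z) (d : Dart) : len z (rev d) = len z d := by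
  unfold len
  rw [tl_rev h, z_rev h, norm_sub_rev]

theorem ar_rev (h : Cons z) (d : Dart) : ar z (rev d) = -ar z d := by
  unfold ar
  rw [tl_rev h, z_rev h]
  unfold cr
  ring

theorem len_nonneg (d : Dart) : 0 ≤ len z d := norm_nonneg _

end Pos

end Run7.h761.Lb
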