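import Pool.Agent.Run7.h761.Total

/-! The number of cells of the family. -/

set_option autoImplicit false

namespace Run7.h761

open scoped Classical

/-- lattice points of the `24`-gon -/
def Ins (k : ℤ) (p : V) : Prop := ∀ f, 0 ≤ dep k f p

/-- lattice points of the `24`-gon, as a finite set -/
noncomputable def insK (k : ℤ) : Finset V :=
  (Finset.Icc (-(30 * k)) (30 * k) ×ˢ Finset.Icc (-(30 * k)) (30 * k)).filter (Ins k)

theorem mem_insK {k : ℤ} {p : V} : p ∈ insK k ↔ Ins k p := by
  unfold insK
  rw [Finset.mem_filter]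
  constructor
  · exact fun h => h.2
  · intro h
    refine ⟨?_, h⟩
    have h1 := h (0, 1)
    have h4 := h (0, 4)
    have h2 := h (0, 2)
    have h5 := h (0, 5)
    unfold dep hf at *
    have c1 : covf (0, 1) = (0, 1) := by decide
    have c4 : covf (0, 4) = (0, -1) := by decide
    have c2 : covf (0, 2) = (-1, 0) := by decide
    have c5 : covf (0, 5) = (1, 0) := by decide
    have m : mu 0 = 30 := rfl
    simp only [c1, c2, c4, c5, m] at h1 h2 h4 h5
    rw [Finset.mem_product, Finset.mem_Icc, Finset.mem_Icc]
    omega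

theorem line_card' (k : ℤ) (f : Facet) (H : ℤ) :
    ((insK k).filter fun p => dep k f p = H).card ≤ (len f.1 * k + lam f.1 * H + 1).toNat := by
  have h : ((insK k).filter fun p => dep k f p = H).card ≤
      (Finset.Icc 0 (len f.1 * k + lam f.1 * H)).card := by
    apply Finset.card_le_card_of_injOn (fun p => dep k (nxt f) p)
    · intro p hp
      obtain ⟨h1, h2⟩ := Finset.mem_filter.1 hp
      have h3 := mem_insK.1 h1
      have h4 := dep_rel k f p
      rw [h2] at h4
      have h5 := h3 (nxt f)
      have h6 := h3 (prv f)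
      simp only [Finset.coe_Icc, Set.mem_Icc]
      omega
    · intro p hp q hq hpq
      have h1 := (Finset.mem_filter.1 hp).2
      have h2 := (Finset.mem_filter.1 hq).2
      exact dep_inj (det_nxt f) (h1.trans h2.symm) hpq
  rw [Int.card_Icc, sub_zero] at h
  exact h

theorem corner_card' {k : ℤ} (hk : 1 ≤ k) : ((insK k).filter (Corner k)).card ≤ 95040 := by
  have hsub : (insK k).filter (Corner k) ⊆
      ((Finset.univ : Finset (Facet × Facet)).biUnion fun x =>
        (insK k).filter fun p => x.2 ≠ x.1 ∧ dep k x.1 p < 11 ∧ dep k x.2 p < 15) := by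
    intro p hp
    obtain ⟨h1, f, g, h2⟩ := Finset.mem_filter.1 hp
    exact Finset.mem_biUnion.2 ⟨(f, g), Finset.mem_univ _, Finset.mem_filter.2 ⟨h1, h2⟩⟩
  refine (Finset.card_le_card hsub).trans ?_
  have h := Finset.card_biUnion_le_card_mul (Finset.univ : Finset (Facet × Facet)) (fun x =>
        (insK k).filter fun p => x.2 ≠ x.1 ∧ dep k x.1 p < 11 ∧ dep k x.2 p < 15) 165 (by
    rintro ⟨f, g⟩ _
    simp only
    by_cases hg : g = f
    · subst hg
      simp
    by_cases hdet : det2 (covf f) (covf g) = 0
    · have : ((insK k).filter fun p => g ≠ f ∧ dep k f p < 11 ∧ dep k g p < 15) = ∅ := by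
        apply Finset.filter_eq_empty_iff.2
        rintro p hp ⟨_, h1, h2⟩
        obtain ⟨e1, e2, e3⟩ := det_opp f g hg hdet
        have h3 : dep k g p + dep k f p = 2 * mu f.1 * k := by
          unfold dep hf
          rw [e1, e2, e3]
          ring
        have h4 := mu_ge f.1
        nlinarith
      rw [this]
      simp
    · have h1 : ((insK k).filter fun p => g ≠ f ∧ dep k f p < 11 ∧ dep k g p < 15).card ≤
          (Finset.Ico (0 : ℤ) 11 ×ˢ Finset.Ico (0 : ℤ) 15).card := by
        apply Finset.card_le_card_of_injOn (fun p => (dep k f p, dep k g p))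
        · intro p hp
          obtain ⟨h1, _, h2, h3⟩ := Finset.mem_filter.1 hp
          have h4 := (mem_insK.1 h1) f
          have h5 := (mem_insK.1 h1) g
          simp only [Finset.coe_product, Finset.coe_Ico, Set.mem_prod, Set.mem_Ico]
          exact ⟨⟨h4, h2⟩, ⟨h5, h3⟩⟩
        · intro p _ q _ hpq
          simp only [Prod.mk.injEq] at hpq
          exact dep_inj hdet hpq.1 hpq.2
      simpa using h1)
  refine h.trans ?_
  simp [Facet]

/-- the sum of the line bounds -/
def peelA : ℤ := ((List.finRange 4).map fun c => 6 * (mu c * len c)).sum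

/-- constant part -/
def peelB : ℤ := ((List.finRange 4).map fun c =>
  6 * ((List.range (mu c).toNat).map fun H : ℕ => lam c * H + 1).sum).sum

theorem peelA_eq : peelA = 5292 := by decide +kernel

theorem peelB_le : peelB ≤ 90000 := by decide +kernel

theorem peel_sum (k : ℤ) : ∑ f : Facet, ∑ H ∈ Finset.range (mu f.1).toNat,
    (len f.1 * k + lam f.1 * H + 1) = peelA * k + peelB := by
  have h1 : ∀ c : Fin 4, ∑ H ∈ Finset.range (mu c).toNat, (len c * k + lam c * H + 1) =
      mu c * len c * k + ∑ H ∈ Finset.range (mu c).toNat, (lam c * H + 1) := by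
    intro c
    have h2 : ∑ H ∈ Finset.range (mu c).toNat, (len c * k + lam c * H + 1) =
        ∑ H ∈ Finset.range (mu c).toNat, (len c * k) +
        ∑ H ∈ Finset.range (mu c).toNat, (lam c * H + 1) := by
      rw [← Finset.sum_add_distrib]
      exact Finset.sum_congr rfl fun H _ => by ring
    rw [h2, Finset.sum_const, Finset.card_range, nsmul_eq_mul]
    have h3 : (((mu c).toNat : ℕ) : ℤ) = mu c := Int.toNat_of_nonneg (by have := mu_ge c; omega)
    rw [h3]
    ring
  have hA : peelA = ∑ c : Fin 4, 6 * (mu c * len c) := rfl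
  have hB : peelB = ∑ c : Fin 4, 6 * ∑ H ∈ Finset.range (mu c).toNat, (lam c * (H : ℤ) + 1) := by
    have : ∀ (n : ℕ) (f : ℕ → ℤ), ∑ H ∈ Finset.range n, f H = ((List.range n).map f).sum :=
      fun n f => rfl
    simp only [this]
    rfl
  rw [Fintype.sum_prod_type, hA, hB, Finset.sum_mul, ← Finset.sum_add_distrib]
  refine Finset.sum_congr rfl fun c _ => ?_
  simp only [h1, Finset.sum_const, Finset.card_univ, Fintype.card_fin]
  simp only [nsmul_eq_mul, Nat.cast_ofNat]
  ring

theorem dep_pred (k : ℤ) (f : Facet) (p : V) : dep (k - 1) f p = dep k f p - mu f.1 := by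
  unfold dep; ring

theorem peel (k : ℤ) (hk : 0 ≤ k) :
    ((insK k).card : ℤ) ≤ (insK (k - 1)).card + (5292 * k + 90000) := by
  have hsub : insK k ⊆ insK (k - 1) ∪ (Finset.univ : Finset Facet).biUnion fun f =>
      (Finset.range (mu f.1).toNat).biUnion fun H => (insK k).filter fun p => dep k f p = H := by
    intro p hp
    by_cases h : Ins (k - 1) p
    · exact Finset.mem_union_left _ (mem_insK.2 h)
    · apply Finset.mem_union_right
      unfold Ins at h
      push Not at h
      obtain ⟨f, hf⟩ := h
      rw [dep_pred] at hf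
      have h0 := mem_insK.1 hp f
      obtain ⟨H, hH⟩ := Int.eq_ofNat_of_zero_le h0
      refine Finset.mem_biUnion.2 ⟨f, Finset.mem_univ _, Finset.mem_biUnion.2 ⟨H, ?_, ?_⟩⟩
      · rw [Finset.mem_range]
        omega
      · exact Finset.mem_filter.2 ⟨hp, hH⟩
  have h1 := (Finset.card_le_card hsub).trans (Finset.card_union_le _ _)
  have h2 : (((Finset.univ : Finset Facet).biUnion fun f =>
      (Finset.range (mu f.1).toNat).biUnion fun H =>
        (insK k).filter fun p => dep k f p = H).card : ℤ) ≤ peelA * k + peelB := by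
    rw [← peel_sum]
    have h3 : ((Finset.univ : Finset Facet).biUnion fun f =>
      (Finset.range (mu f.1).toNat).biUnion fun H =>
        (insK k).filter fun p => dep k f p = H).card ≤
        ∑ f : Facet, ∑ H ∈ Finset.range (mu f.1).toNat,
          ((insK k).filter fun p => dep k f p = H).card :=
      (Finset.card_biUnion_le).trans (Finset.sum_le_sum fun f _ => Finset.card_biUnion_le)
    refine (Int.ofNat_le.2 h3).trans ?_
    push_cast
    refine Finset.sum_le_sum fun f _ => Finset.sum_le_sum fun H _ => ?_
    have h4 := line_card' k f H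
    have h5 : 0 ≤ len f.1 * k + lam f.1 * H + 1 := by
      have a : ∀ c, 0 ≤ len c := by decide
      have b : ∀ c, 0 ≤ lam c := by decide
      have h7 := mul_nonneg (a f.1) hk
      have h8 := mul_nonneg (b f.1) (Int.natCast_nonneg H)
      linarith
    have h6 : (((insK k).filter fun p => dep k f p = H).card : ℤ) ≤
      ((len f.1 * k + lam f.1 * H + 1).toNat : ℤ) := by exact_mod_cast h4
    rw [Int.toNat_of_nonneg h5] at h6
    exact h6
  rw [peelA_eq] at h2
  have h3 := peelB_le
  have h1' : ((insK k).card : ℤ) ≤ (insK (k - 1)).card +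
      ((Finset.univ : Finset Facet).biUnion fun f =>
      (Finset.range (mu f.1).toNat).biUnion fun H =>
        (insK k).filter fun p => dep k f p = H).card := by exact_mod_cast h1
  omega

theorem insK_upper (k : ℕ) : ((insK k).card : ℤ) ≤ 2646 * k ^ 2 + 92646 * k + 1 := by
  induction k with
  | zero =>
    have : insK ((0 : ℕ) : ℤ) ⊆ {(0, 0)} := by
      intro p hp
      unfold insK at hp
      have := (Finset.mem_product.1 (Finset.mem_filter.1 hp).1)
      rw [Finset.mem_Icc, Finset.mem_Icc] at this
      rw [Finset.mem_singleton]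
      ext
      · simp only [Nat.cast_zero] at this; omega
      · simp only [Nat.cast_zero] at this; omega
    have h := Finset.card_le_card this
    rw [Finset.card_singleton] at h
    simp only [Nat.cast_zero] at *
    push_cast
    omega
  | succ k ih =>
    have h := peel ((k + 1 : ℕ) : ℤ) (by positivity)
    have e : (((k + 1 : ℕ) : ℤ) - 1) = (k : ℤ) := by push_cast; ring
    rw [e] at h
    push_cast at *
    nlinarith

theorem occ_sub_ins (k : ℤ) : occK k ⊆ insK k := fun _ hp => mem_insK.2 (mem_occK.1 hp).1

theorem occK_upper (k : ℕ) : ((occK k).card : ℤ) ≤ 2646 * k ^ 2 + 92646 * k + 1 :=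
  le_trans (by exact_mod_cast Finset.card_le_card (occ_sub_ins k)) (insK_upper k)

theorem occK_lower {k : ℤ} (hk : 1 ≤ k) : (insK k).card ≤ (occK k).card + 95040 := by
  have hsub : insK k ⊆ occK k ∪ (insK k).filter (Corner k) := by
    intro p hp
    by_cases h : Occ k p
    · exact Finset.mem_union_left _ (mem_occK.2 h)
    · apply Finset.mem_union_right
      refine Finset.mem_filter.2 ⟨hp, ?_⟩
      have hk' : ¬ ∀ f : Facet, (Mx f.1 : ℤ) ≤ dep k f p ∨
        ∀ g, g ≠ f → 12 ≤ dep k g p := fun h' => h ⟨mem_insK.1 hp, h'⟩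
      push Not at hk'
      obtain ⟨f, hf, g, hg, hg'⟩ := hk'
      refine ⟨f, g, hg, ?_, ?_⟩
      · have := Mx_le f.1; omega
      · omega
  refine (Finset.card_le_card hsub).trans ((Finset.card_union_le _ _).trans ?_)
  have := corner_card' hk
  omega

end Run7.h761
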