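import Pool.Agent.Run7.h761.Sum3

/-! Minimal labellings. -/

set_option autoImplicit false

namespace Run7.h761.Lb

open Finset Function

open scoped Classical

/-! ### connectivity outside a box -/

theorem line_con {X : Set Site} (f : ℤ → Site) (j : Fin 6) (hf : ∀ n, f (n + 1) = f n + dr j)
    (hX : ∀ n, f n ∈ X) (a b : ℤ) : Relation.ReflTransGen (Stp X) (f a) (f b) := by
  have up : ∀ (n : ℕ) (a : ℤ), Relation.ReflTransGen (Stp X) (f a) (f (a + n)) := by
    intro n
    induction n with
    | zero =>
      intro a
      have : a + ((0 : ℕ) : ℤ) = a := by simp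
      rw [this]
    | succ n ih =>
      intro a
      refine (ih a).tail ⟨hX _, j, ?_⟩
      rw [← hf]
      congr 1
      push_cast
      ring
  have down : ∀ (n : ℕ) (a : ℤ), Relation.ReflTransGen (Stp X) (f (a + n)) (f a) := by
    intro n
    induction n with
    | zero =>
      intro a
      have : a + ((0 : ℕ) : ℤ) = a := by simp
      rw [this]
    | succ n ih =>
      intro a
      refine Relation.ReflTransGen.head ?_ (ih a)
      refine ⟨hX _, j + 3, ?_⟩
      have : f (a + ((n + 1 : ℕ) : ℤ)) = f (a + n) + dr j := by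
        rw [← hf]
        congr 1
        push_cast
        ring
      rw [this, dr_opp, add_neg_cancel_right]
  rcases le_total a b with h | h
  · have := up (b - a).toNat a
    rwa [show a + (((b - a).toNat : ℕ) : ℤ) = b by omega] at this
  · have := down (a - b).toNat b
    rwa [show b + (((a - b).toNat : ℕ) : ℤ) = a by omega] at this

theorem con_out (M : ℕ) : Con {s | s ∉ bx M} := by
  set X : Set Site := {s | s ∉ bx M} with hX
  have hor : ∀ y : ℤ, (y < -(M : ℤ) ∨ (M : ℤ) < y) → ∀ a b : ℤ,
      Relation.ReflTransGen (Stp X) (a, y) (b, y) := by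
    intro y hy a b
    apply line_con (fun x => ((x, y) : Site)) 0
    · intro n
      simp [dr]
    · intro n
      rw [hX, Set.mem_setOf_eq, mem_bx]
      simp only
      omega
  have ver : ∀ x : ℤ, (x < -(M : ℤ) ∨ (M : ℤ) < x) → ∀ a b : ℤ,
      Relation.ReflTransGen (Stp X) (x, a) (x, b) := by
    intro x hx a b
    apply line_con (fun y => ((x, y) : Site)) 1
    · intro n
      simp [dr]
    · intro n
      rw [hX, Set.mem_setOf_eq, mem_bx]
      simp only
      omega
  have key : ∀ s ∈ X, Relation.ReflTransGen (Stp X) s ((M : ℤ) + 1, (M : ℤ) + 1) ∧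
      Relation.ReflTransGen (Stp X) ((M : ℤ) + 1, (M : ℤ) + 1) s := by
    rintro ⟨x, y⟩ hs
    rw [hX, Set.mem_setOf_eq, mem_bx] at hs
    simp only at hs
    by_cases hx : x < -(M : ℤ) ∨ (M : ℤ) < x
    · exact ⟨(ver x hx y (M + 1)).trans (hor (M + 1) (by omega) x (M + 1)),
        (hor (M + 1) (by omega) (M + 1) x).trans (ver x hx (M + 1) y)⟩
    · have hy : y < -(M : ℤ) ∨ (M : ℤ) < y := by omega
      exact ⟨(hor y hy x (M + 1)).trans (ver (M + 1) (by omega) y (M + 1)),
        (ver (M + 1) (by omega) (M + 1) y).trans (hor y hy (M + 1) x)⟩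
  intro a ha b hb
  exact (key a ha).1.trans (key b hb).2

/-! ### components -/

section Cmp

variable {ι : Type*} (lab : Site → ι)

/-- a step inside a label class -/
def Sst (a b : Site) : Prop := lab a = lab b ∧ ∃ j, b = a + dr j

/-- connected component of the label class -/
def cmp (s : Site) : Set Site := {t | Relation.ReflTransGen (Sst lab) s t}

variable {lab}

theorem Sst.symm {a b : Site} (h : Sst lab a b) : Sst lab b a := by
  obtain ⟨h1, j, hj⟩ := h
  refine ⟨h1.symm, j + 3, ?_⟩
  rw [hj, dr_opp, add_neg_cancel_right]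

theorem cmp_symm {a b : Site} (h : Relation.ReflTransGen (Sst lab) a b) :
    Relation.ReflTransGen (Sst lab) b a := by
  induction h with
  | refl => exact Relation.ReflTransGen.refl
  | tail _ h2 ih => exact Relation.ReflTransGen.head h2.symm ih

theorem cmp_eq {a b : Site} (h : Relation.ReflTransGen (Sst lab) a b) : cmp lab a = cmp lab b := by
  ext t
  exact ⟨fun h1 => (cmp_symm h).trans h1, fun h1 => h.trans h1⟩

theorem cmp_rel {a b : Site} (h : cmp lab a = cmp lab b) : Relation.ReflTransGen (Sst lab) a b := by
  have : b ∈ cmp lab b := Relation.ReflTransGen.refl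
  rw [← h] at this
  exact this

theorem cmp_lab {a b : Site} (h : cmp lab a = cmp lab b) : lab a = lab b := by
  have := cmp_rel h
  induction this with
  | refl => rfl
  | tail h1 h2 ih => exact (ih (cmp_eq h1)).trans h2.1

theorem cmp_adj {a : Site} {j : Fin 6} : cmp lab a = cmp lab (a + dr j) ↔ lab a = lab (a + dr j) :=
  ⟨cmp_lab, fun h => cmp_eq (Relation.ReflTransGen.single ⟨h, j, rfl⟩)⟩

theorem InI_cmp {d : Dart} : InI (cmp lab) d ↔ InI lab d := by
  unfold InI rgt
  rw [Ne, cmp_adj]

theorem con_cmp (v : Set Site) : Con {s | cmp lab s = v} := by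
  intro a ha b hb
  rw [Set.mem_setOf_eq] at ha hb
  have h := cmp_rel (ha.trans hb.symm)
  have key : ∀ c, Relation.ReflTransGen (Sst lab) a c →
      Relation.ReflTransGen (Stp {s | cmp lab s = v}) a c := by
    intro c hr
    induction hr with
    | refl => exact Relation.ReflTransGen.refl
    | @tail p q h1 h2 ih =>
      refine ih.tail ⟨?_, h2.2⟩
      rw [Set.mem_setOf_eq, ← ha]
      exact (cmp_eq (h1.tail h2)).symm
  exact key b h

end Cmp

/-! ### the functional -/

section Fun

variable {N : ℕ} (z : Dart → ℂ) (K : Finset Site)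

/-- half of the total length of the interface darts -/
noncomputable def Per (lab : Site → Fin (N + 1)) : ℝ := (∑ d ∈ ID lab K, len z d) / 2

/-- area of a label -/
noncomputable def arl (lab : Site → Fin (N + 1)) (i : Fin (N + 1)) : ℝ :=
  ∑ s ∈ K.filter (fun s => lab s = i), ca z s

/-- truncated areas -/
noncomputable def Mm (lab : Site → Fin (N + 1)) : ℝ :=
  ∑ i ∈ (univ : Finset (Fin (N + 1))).erase 0, min 3 (ka * arl z K lab i)

variable {z K}

theorem ID_cmp {ι : Type*} (lab : Site → ι) : ID (cmp lab) K = ID lab K := by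
  unfold ID
  ext d
  rw [Finset.mem_filter, Finset.mem_filter, InI_cmp]

/-- relabelling of one component -/
noncomputable def relab (lab : Site → Fin (N + 1)) (f : Set Site) (k : Fin (N + 1)) :
    Site → Fin (N + 1) := fun s => if cmp lab s = f then k else lab s

theorem min_sub {x y : ℝ} (hy : 0 ≤ y) (hx : y ≤ x) : min 3 x - min 3 y ≤ min 3 (x - y) := by
  rcases le_total 3 x with h1 | h1 <;> rcases le_total 3 y with h2 | h2 <;>
    rcases le_total 3 (x - y) with h3 | h3 <;> simp only [min_eq_left, min_eq_right, h1, h2, h3] <;>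
    linarith

variable {lab : Site → Fin (N + 1)} {f : Set Site} {k : Fin (N + 1)}

theorem relab_InI {d : Dart} : InI (relab lab f k) d ↔ InI lab d ∧
    ¬ (cmp lab d.1 = f ∧ lab (rgt d) = k) ∧ ¬ (cmp lab (rgt d) = f ∧ lab d.1 = k) := by
  have hadj : InI lab d ↔ cmp lab d.1 ≠ cmp lab (rgt d) := by
    rw [← InI_cmp]; rfl
  have hadj' : (lab d.1 ≠ lab (rgt d)) ↔ cmp lab d.1 ≠ cmp lab (rgt d) := hadj
  unfold InI relab
  rw [hadj']
  by_cases h1 : cmp lab d.1 = f <;> by_cases h2 : cmp lab (rgt d) = f
  · rw [if_pos h1, if_pos h2]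
    constructor
    · intro h3; exact absurd rfl h3
    · rintro ⟨h3, _⟩
      exact absurd (h1.trans h2.symm) h3
  · rw [if_pos h1, if_neg h2]
    constructor
    · intro h3
      exact ⟨fun h => h2 (h.symm.trans h1), fun h => h3 h.2.symm, fun h => h2 h.1⟩
    · rintro ⟨_, h4, _⟩ h5
      exact h4 ⟨h1, h5.symm⟩
  · rw [if_neg h1, if_pos h2]
    constructor
    · intro h3
      exact ⟨fun h => h1 (h.trans h2), fun h => h1 h.1, fun h => h3 h.2⟩
    · rintro ⟨_, _, h4⟩ h5
      exact h4 ⟨h2, h5⟩
  · rw [if_neg h1, if_neg h2, hadj']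
    constructor
    · intro h3
      exact ⟨h3, fun h => h1 h.1, fun h => h2 h.1⟩
    · exact fun h => h.1

/-- change of the perimeter -/
theorem relab_Per (hK : ∀ s ∉ K, lab s = 0) (hz : Cons z) (hK' : ∀ s ∉ K, cmp lab s ≠ f) :
    Per z K (relab lab f k) = Per z K lab -
      ∑ d ∈ (ID lab K).filter (fun d => cmp lab d.1 = f ∧ lab (rgt d) = k), len z d := by
  have hK2 : ∀ s ∉ K, relab lab f k s = 0 := by
    intro s hs
    unfold relab
    rw [if_neg (hK' s hs)]
    exact hK s hs
  have hsplit : ID lab K = ID (relab lab f k) K ∪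
      ((ID lab K).filter (fun d => cmp lab d.1 = f ∧ lab (rgt d) = k) ∪
      (ID lab K).filter (fun d => cmp lab (rgt d) = f ∧ lab d.1 = k)) := by
    ext d
    rw [Finset.mem_union, Finset.mem_union, Finset.mem_filter, Finset.mem_filter, mem_ID hK,
      mem_ID hK2, relab_InI]
    tauto
  have hd1 : Disjoint ((ID lab K).filter (fun d => cmp lab d.1 = f ∧ lab (rgt d) = k))
      ((ID lab K).filter (fun d => cmp lab (rgt d) = f ∧ lab d.1 = k)) := by
    rw [Finset.disjoint_left]
    intro d h1 h2
    rw [Finset.mem_filter, mem_ID hK] at h1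
    rw [Finset.mem_filter] at h2
    apply (InI_cmp.2 h1.1)
    rw [h1.2.1, h2.2.1]
  have hd2 : Disjoint (ID (relab lab f k) K)
      ((ID lab K).filter (fun d => cmp lab d.1 = f ∧ lab (rgt d) = k) ∪
      (ID lab K).filter (fun d => cmp lab (rgt d) = f ∧ lab d.1 = k)) := by
    rw [Finset.disjoint_left]
    intro d h1 h2
    rw [mem_ID hK2, relab_InI] at h1
    rw [Finset.mem_union, Finset.mem_filter, Finset.mem_filter] at h2
    tauto
  have hsame : ∑ d ∈ (ID lab K).filter (fun d => cmp lab (rgt d) = f ∧ lab d.1 = k), len z d =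
      ∑ d ∈ (ID lab K).filter (fun d => cmp lab d.1 = f ∧ lab (rgt d) = k), len z d := by
    refine Finset.sum_bij' (fun d _ => rev d) (fun d _ => rev d) ?_ ?_ ?_ ?_ ?_
    · intro d hd
      rw [Finset.mem_filter, mem_ID hK] at hd ⊢
      rw [rev_fst, rgt_rev]
      exact ⟨hd.1.rev, hd.2⟩
    · intro d hd
      rw [Finset.mem_filter, mem_ID hK] at hd ⊢
      rw [rev_fst, rgt_rev]
      exact ⟨hd.1.rev, hd.2⟩
    · intro d _; exact rev_rev d
    · intro d _; exact rev_rev d
    · intro d _; exact (len_rev hz d).symm
  have hsum : ∑ d ∈ ID lab K, len z d = ∑ d ∈ ID (relab lab f k) K, len z d +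
      2 * ∑ d ∈ (ID lab K).filter (fun d => cmp lab d.1 = f ∧ lab (rgt d) = k), len z d := by
    conv_lhs => rw [hsplit]
    rw [Finset.sum_union hd2, Finset.sum_union hd1, hsame]
    ring
  unfold Per
  rw [hsum]
  ring

theorem relab_card (hK : ∀ s ∉ K, lab s = 0) (hK' : ∀ s ∉ K, cmp lab s ≠ f) {d : Dart}
    (hd : d ∈ ID lab K) (h1 : cmp lab d.1 = f) (h2 : lab (rgt d) = k) :
    (ID (relab lab f k) K).card < (ID lab K).card := by
  have hK2 : ∀ s ∉ K, relab lab f k s = 0 := by
    intro s hs
    unfold relab
    rw [if_neg (hK' s hs)]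
    exact hK s hs
  apply Finset.card_lt_card
  refine ⟨?_, fun h => ?_⟩
  · intro e he
    rw [mem_ID hK2, relab_InI] at he
    exact (mem_ID hK).2 he.1
  · have := h hd
    rw [mem_ID hK2, relab_InI] at this
    exact this.2.1 ⟨h1, h2⟩

/-- change of the truncated areas -/
theorem relab_Mm (hca : ∀ s, 0 ≤ ca z s) {i0 : Fin (N + 1)} (hi0 : ∀ s, cmp lab s = f → lab s = i0)
    (hk : k ≠ i0) :
    Mm z K lab - (if i0 = 0 then 0 else min 3 (ka * al (cmp lab) z K f)) ≤
      Mm z K (relab lab f k) := by
  have hka := ka_pos
  have hal0 : 0 ≤ al (cmp lab) z K f := Finset.sum_nonneg fun s _ => hca s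
  have h1 : ∀ i, arl z K (relab lab f k) i =
      (if i = i0 then arl z K lab i - al (cmp lab) z K f else if i = k then
        arl z K lab i + al (cmp lab) z K f else arl z K lab i) := by
    intro i
    by_cases hi : i = i0
    · rw [if_pos hi]
      have : K.filter (fun s => relab lab f k s = i) =
          K.filter (fun s => lab s = i) \ K.filter (fun s => cmp lab s = f) := by
        ext s
        rw [Finset.mem_filter, Finset.mem_sdiff, Finset.mem_filter, Finset.mem_filter]
        unfold relab
        by_cases hs : cmp lab s = f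
        · simp only [hs, if_true, and_true]
          constructor
          · rintro ⟨h2, h3⟩
            exact absurd (h3.trans hi) hk
          · rintro ⟨⟨h2, _⟩, h3⟩
            exact absurd h2 h3
        · simp only [hs, if_false, and_false, not_false_eq_true, and_true]
      have hsub : K.filter (fun s => cmp lab s = f) ⊆ K.filter (fun s => lab s = i) := by
        intro s hs
        rw [Finset.mem_filter] at hs ⊢
        exact ⟨hs.1, by rw [hi0 s hs.2, hi]⟩
      have hs2 := Finset.sum_sdiff (f := ca z) hsub
      have e1 : arl z K (relab lab f k) i =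
          ∑ s ∈ K.filter (fun s => lab s = i) \ K.filter (fun s => cmp lab s = f), ca z s := by
        unfold arl
        rw [this]
      have e2 : al (cmp lab) z K f = ∑ s ∈ K.filter (fun s => cmp lab s = f), ca z s := by
        unfold al
        rfl
      rw [e1, e2]
      unfold arl
      linarith
    · rw [if_neg hi]
      by_cases hik : i = k
      · rw [if_pos hik]
        have : K.filter (fun s => relab lab f k s = i) =
            K.filter (fun s => lab s = i) ∪ K.filter (fun s => cmp lab s = f) := by
          ext s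
          rw [Finset.mem_filter, Finset.mem_union, Finset.mem_filter, Finset.mem_filter]
          unfold relab
          by_cases hs : cmp lab s = f
          · simp only [hs, if_true, and_true]
            constructor
            · rintro ⟨h2, _⟩
              exact Or.inr h2
            · rintro (⟨h2, _⟩ | h2)
              · exact ⟨h2, hik.symm⟩
              · exact ⟨h2, hik.symm⟩
          · simp only [hs, if_false, and_false, or_false]
        have hdis : Disjoint (K.filter (fun s => lab s = i)) (K.filter (fun s => cmp lab s = f)) := by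
          rw [Finset.disjoint_left]
          intro s h2 h3
          rw [Finset.mem_filter] at h2 h3
          exact hi (by rw [← h2.2, hi0 s h3.2])
        have hs2 := Finset.sum_union (f := ca z) hdis
        have e1 : arl z K (relab lab f k) i =
            ∑ s ∈ K.filter (fun s => lab s = i) ∪ K.filter (fun s => cmp lab s = f), ca z s := by
          unfold arl
          rw [this]
        have e2 : al (cmp lab) z K f = ∑ s ∈ K.filter (fun s => cmp lab s = f), ca z s := by
          unfold al
          rfl
        rw [e1, e2]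
        unfold arl
        linarith
      · rw [if_neg hik]
        unfold arl
        refine Finset.sum_congr ?_ fun _ _ => rfl
        ext s
        rw [Finset.mem_filter, Finset.mem_filter]
        unfold relab
        by_cases hs : cmp lab s = f
        · simp only [hs, if_true]
          constructor
          · rintro ⟨_, h3⟩
            exact absurd h3.symm hik
          · rintro ⟨_, h3⟩
            exact absurd (h3.symm.trans (hi0 s hs)) hi
        · simp only [hs, if_false]
  have h2 : ∀ i, min 3 (ka * arl z K lab i) -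
      (if i = i0 then min 3 (ka * al (cmp lab) z K f) else 0) ≤
      min 3 (ka * arl z K (relab lab f k) i) := by
    intro i
    rw [h1]
    by_cases hi : i = i0
    · rw [if_pos hi, if_pos hi]
      have h3 : al (cmp lab) z K f ≤ arl z K lab i := by
        unfold al arl
        apply Finset.sum_le_sum_of_subset_of_nonneg
        · intro s hs
          rw [Finset.mem_filter] at hs ⊢
          exact ⟨hs.1, by rw [hi0 s hs.2, hi]⟩
        · intro s _ _; exact hca s
      rw [mul_sub]
      exact min_sub (by positivity) (mul_le_mul_of_nonneg_left h3 hka.le)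
    · rw [if_neg hi, if_neg hi, sub_zero]
      apply min_le_min le_rfl
      apply mul_le_mul_of_nonneg_left _ hka.le
      split_ifs
      · linarith
      · exact le_rfl
  have h3 := Finset.sum_le_sum fun i (_ : i ∈ (univ : Finset (Fin (N + 1))).erase 0) => h2 i
  rw [Finset.sum_sub_distrib, Finset.sum_ite_eq'] at h3
  unfold Mm
  refine le_trans (le_of_eq ?_) h3
  congr 1
  by_cases h4 : i0 = 0
  · rw [if_pos h4, if_neg]
    rw [h4]
    exact Finset.notMem_erase _ _
  · rw [if_neg h4, if_pos]
    exact Finset.mem_erase.2 ⟨h4, Finset.mem_univ _⟩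

end Fun

end Run7.h761.Lb
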