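import Pool.Agent.Run7.h761.Min

/-! The inequality for all labellings. -/

set_option autoImplicit false

namespace Run7.h761.Lb

open Finset Function

open scoped Classical

section

variable {N : ℕ} {z : Dart → ℂ}

/-- labellings with support in a box -/
noncomputable def extl {N : ℕ} (M : ℕ) (g : {s // s ∈ bx M} → Fin (N + 1)) : Site → Fin (N + 1) :=
  fun s => if h : s ∈ bx M then g ⟨s, h⟩ else 0

theorem exists_min (z : Dart → ℂ) (M : ℕ) : ∃ lab : Site → Fin (N + 1), (∀ s ∉ bx M, lab s = 0) ∧
    ∀ lab' : Site → Fin (N + 1), (∀ s ∉ bx M, lab' s = 0) →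
      (Per z (bx M) lab - 1.013 * Mm z (bx M) lab ≤ Per z (bx M) lab' - 1.013 * Mm z (bx M) lab') ∧
      (Per z (bx M) lab' - 1.013 * Mm z (bx M) lab' ≤ Per z (bx M) lab - 1.013 * Mm z (bx M) lab →
        (ID lab (bx M)).card ≤ (ID lab' (bx M)).card) := by
  obtain ⟨g, _, hg⟩ := Finset.exists_min_image
    (univ : Finset ({s // s ∈ bx M} → Fin (N + 1)))
    (fun g => toLex (Per z (bx M) (extl M g) - 1.013 * Mm z (bx M) (extl M g),
      (ID (extl M g) (bx M)).card)) Finset.univ_nonempty
  refine ⟨extl M g, ?_, ?_⟩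
  · intro s hs
    unfold extl
    rw [dif_neg hs]
  · intro lab' hlab'
    have h1 : extl M (fun s : {s // s ∈ bx M} => lab' s.1) = lab' := by
      funext s
      unfold extl
      split_ifs with h
      · rfl
      · exact (hlab' s h).symm
    have h2 := hg (fun s : {s // s ∈ bx M} => lab' s.1) (Finset.mem_univ _)
    rw [h1, Prod.Lex.toLex_le_toLex] at h2
    simp only at h2
    rcases h2 with h2 | h2
    · exact ⟨h2.le, fun h3 => absurd h3 (not_le.2 h2)⟩
    · exact ⟨h2.1.le, fun _ => h2.2⟩

/-- the sum of the truncated areas is at most that of the faces -/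
theorem Mm_le (hca : ∀ s, 0 ≤ ca z s) {K : Finset Site} {lab : Site → Fin (N + 1)}
    (hK : ∀ s ∉ K, lab s = 0) {o : Set Site} (ho : ∀ s, cmp lab s = o ↔ lab s = 0) :
    Mm z K lab ≤ ∑ v ∈ (K.image (cmp lab)).erase o, min 3 (ka * al (cmp lab) z K v) := by
  have hka := ka_pos
  have hsub : ∀ (S : Finset (Set Site)) (x : Set Site → ℝ), (∀ v, 0 ≤ x v) →
      min 3 (ka * ∑ v ∈ S, x v) ≤ ∑ v ∈ S, min 3 (ka * x v) := by
    intro S x hx
    induction S using Finset.induction_on with
    | empty => simp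
    | insert a S ha ih =>
      rw [Finset.sum_insert ha, Finset.sum_insert ha]
      have h1 : 0 ≤ ka * x a := mul_nonneg hka.le (hx a)
      have h2 : 0 ≤ ka * ∑ v ∈ S, x v := mul_nonneg hka.le (Finset.sum_nonneg fun v _ => hx v)
      have h3 := min_sub (x := ka * x a + ka * ∑ v ∈ S, x v) (y := ka * x a) h1 (by linarith)
      rw [add_sub_cancel_left] at h3
      rw [mul_add]
      linarith
  have hal : ∀ v, 0 ≤ al (cmp lab) z K v := fun v => Finset.sum_nonneg fun s _ => hca s
  -- each label splits into components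
  have h1 : ∀ i ∈ (univ : Finset (Fin (N + 1))).erase 0, min 3 (ka * arl z K lab i) ≤
      ∑ v ∈ (K.filter (fun s => lab s = i)).image (cmp lab), min 3 (ka * al (cmp lab) z K v) := by
    intro i _
    have h2 : arl z K lab i =
        ∑ v ∈ (K.filter (fun s => lab s = i)).image (cmp lab), al (cmp lab) z K v := by
      unfold arl
      rw [← Finset.sum_fiberwise_of_maps_to (t := (K.filter (fun s => lab s = i)).image (cmp lab))
        (g := cmp lab) (fun s hs => Finset.mem_image_of_mem _ hs)]
      refine Finset.sum_congr rfl fun v hv => ?_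
      unfold al
      refine Finset.sum_congr ?_ fun _ _ => rfl
      obtain ⟨t, ht, rfl⟩ := Finset.mem_image.1 hv
      ext s
      rw [Finset.mem_filter, Finset.mem_filter, Finset.mem_filter]
      constructor
      · rintro ⟨⟨a, _⟩, b⟩
        exact ⟨a, b⟩
      · rintro ⟨a, b⟩
        exact ⟨⟨a, by rw [cmp_lab b]; exact (Finset.mem_filter.1 ht).2⟩, b⟩
    rw [h2]
    exact hsub _ _ hal
  have h2 : (K.image (cmp lab)).erase o =
      ((univ : Finset (Fin (N + 1))).erase 0).biUnion
        (fun i => (K.filter (fun s => lab s = i)).image (cmp lab)) := by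
    ext v
    rw [Finset.mem_erase, Finset.mem_image, Finset.mem_biUnion]
    constructor
    · rintro ⟨hv, s, hs, rfl⟩
      refine ⟨lab s, ?_, ?_⟩
      · rw [Finset.mem_erase]
        exact ⟨fun h => hv ((ho s).2 h), Finset.mem_univ _⟩
      · exact Finset.mem_image_of_mem _ (Finset.mem_filter.2 ⟨hs, rfl⟩)
    · rintro ⟨i, hi, hv⟩
      obtain ⟨s, hs, rfl⟩ := Finset.mem_image.1 hv
      rw [Finset.mem_filter] at hs
      refine ⟨?_, s, hs.1, rfl⟩
      rw [Ne, ho, hs.2]
      exact (Finset.mem_erase.1 hi).1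
  rw [h2, Finset.sum_biUnion]
  · exact Finset.sum_le_sum h1
  · intro i _ j _ hij
    rw [Function.onFun, Finset.disjoint_left]
    intro v hv1 hv2
    obtain ⟨s, hs, rfl⟩ := Finset.mem_image.1 hv1
    obtain ⟨t, ht, h⟩ := Finset.mem_image.1 hv2
    apply hij
    rw [← (Finset.mem_filter.1 hs).2, ← (Finset.mem_filter.1 ht).2, cmp_lab h]

/-- **the inequality for lattice clusters** -/
theorem lattice_ineq (hz : Cons z) (hca : ∀ s, 0 ≤ ca z s) (M : ℕ) (lab0 : Site → Fin (N + 1))
    (h0 : ∀ s ∉ bx M, lab0 s = 0) : ∃ x e : ℝ, 0 ≤ x ∧ x ≤ 3 * N ∧ 0 ≤ e ∧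
      11.657 * (x - 2.54 * e) ≤ 4 * e ^ 2 ∧
      x + e + 1.013 * (Mm z (bx M) lab0 - x) ≤ Per z (bx M) lab0 := by
  have hka := ka_pos
  obtain ⟨lab, hsup, hmin⟩ := exists_min (N := N) z M
  set K := bx M with hKd
  obtain ⟨s0, hs0⟩ := exists_out K
  set o := cmp lab s0 with ho
  have hout : ∀ s ∉ K, cmp lab s = o := by
    intro s hs
    have h1 := con_out M s0 hs0 s hs
    refine (cmp_eq ?_).symm
    have key : ∀ c, Relation.ReflTransGen (Stp {s | s ∉ bx M}) s0 c → c ∉ K ∧
        Relation.ReflTransGen (Sst lab) s0 c := by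
      intro c hr
      induction hr with
      | refl => exact ⟨hs0, Relation.ReflTransGen.refl⟩
      | @tail p q h1 h2 ih =>
        refine ⟨h2.1, ih.2.tail ⟨?_, h2.2⟩⟩
        rw [hsup p ih.1, hsup q h2.1]
    exact (key s h1).2
  have hfin : ∀ v, v ≠ o → ∀ s ∉ K, cmp lab s ≠ v := by
    intro v hv s hs h
    exact hv (by rw [← h, hout s hs])
  have hrl : ∀ (f : Set Site) (k : Fin (N + 1)), f ≠ o → ∀ s ∉ K, relab lab f k s = 0 := by
    intro f k hf s hs
    unfold relab
    rw [if_neg (hfin f hf s hs)]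
    exact hsup s hs
  -- the key consequence of minimality
  have hD : ∀ f : Set Site, f ≠ o → ∀ i0, (∀ s, cmp lab s = f → lab s = i0) → ∀ k, k ≠ i0 →
      ∑ d ∈ (ID lab K).filter (fun d => cmp lab d.1 = f ∧ lab (rgt d) = k), len z d ≤
        1.013 * (if i0 = 0 then 0 else min 3 (ka * al (cmp lab) z K f)) := by
    intro f hf i0 hi0 k hk
    have h1 := (hmin (relab lab f k) (hrl f k hf)).1
    have h2 := relab_Mm (K := K) hca hi0 hk
    rw [relab_Per hsup hz (hfin f hf)] at h1
    linarith
  have hbd : ∀ v, v ≠ o → (∃ s, cmp lab s = v) → ∃ d ∈ ID lab K, cmp lab d.1 = v := by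
    intro v hv ⟨s1, hs1⟩
    have hne : (K.filter (fun s => cmp lab s = v)).Nonempty := by
      refine ⟨s1, Finset.mem_filter.2 ⟨?_, hs1⟩⟩
      by_contra h
      exact hfin v hv s1 h hs1
    obtain ⟨s, hs, hsmax⟩ := Finset.exists_max_image _ (fun s : Site => s.1) hne
    rw [Finset.mem_filter] at hs
    refine ⟨(s, 0), ?_, hs.2⟩
    rw [mem_ID hsup, ← InI_cmp]
    intro h
    have h2 : cmp lab (s + dr 0) = v := by
      rw [← hs.2]; exact h.symm
    have h3 : s + dr 0 ∈ K.filter (fun s => cmp lab s = v) := by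
      refine Finset.mem_filter.2 ⟨?_, h2⟩
      by_contra h4
      exact hfin v hv _ h4 h2
    have h4 := hsmax _ h3
    simp [dr] at h4
  have hal0 : ∀ v, 0 ≤ al (cmp lab) z K v := fun v => Finset.sum_nonneg fun s _ => hca s
  -- no bad components
  have hno : ∀ s, cmp lab s ≠ o → lab s ≠ 0 ∧ 0 < min 3 (ka * al (cmp lab) z K (cmp lab s)) := by
    intro s hs
    by_contra hc
    have hzero : (if lab s = 0 then 0 else min 3 (ka * al (cmp lab) z K (cmp lab s))) = 0 := by
      split_ifs with h1
      · rfl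
      · push Not at hc
        have h2 := hc h1
        have h3 : 0 ≤ min 3 (ka * al (cmp lab) z K (cmp lab s)) :=
          le_min (by norm_num) (mul_nonneg hka.le (hal0 _))
        linarith
    obtain ⟨d, hd, hdv⟩ := hbd (cmp lab s) hs ⟨s, rfl⟩
    have hi0 : ∀ t, cmp lab t = cmp lab s → lab t = lab s := fun t ht => cmp_lab ht
    have hk : lab (rgt d) ≠ lab s := by
      have h1 := (mem_ID hsup).1 hd
      have h2 : lab d.1 = lab s := cmp_lab hdv
      rw [← h2]
      exact h1.symm
    have h1 := relab_Mm (K := K) (f := cmp lab s) hca hi0 hk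
    rw [hzero, sub_zero] at h1
    have h2 := relab_card hsup (hfin _ hs) hd hdv rfl
    have h3 := (hmin (relab lab (cmp lab s) (lab (rgt d))) (hrl _ _ hs)).2
    rw [relab_Per hsup hz (hfin _ hs)] at h3
    have h4 : 0 ≤ ∑ e ∈ (ID lab K).filter (fun e => cmp lab e.1 = cmp lab s ∧
        lab (rgt e) = lab (rgt d)), len z e := Finset.sum_nonneg fun e _ => len_nonneg e
    have h5 := h3 (by linarith)
    omega
  have hofinal : ∀ s, cmp lab s = o ↔ lab s = 0 := by
    intro s
    constructor
    · intro h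
      rw [cmp_lab h]
      exact hsup s0 hs0
    · intro h
      by_contra h1
      exact (hno s h1).1 h
  have good : Good (cmp lab) z o K (fun v => min 3 (ka * al (cmp lab) z K v)) := by
    refine ⟨hout, hz, hca, con_cmp, ?_, fun v => min_le_left _ _, fun v => min_le_right _ _, ?_⟩
    · intro v hv
      rw [Finset.mem_erase, Finset.mem_image] at hv
      obtain ⟨hv1, s, _, rfl⟩ := hv
      exact (hno s hv1).2
    · intro v hv w
      rw [Finset.mem_erase, Finset.mem_image] at hv
      obtain ⟨hv1, s, _, rfl⟩ := hv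
      rw [ID_cmp]
      by_cases hex : ∃ d ∈ ID lab K, cmp lab d.1 = cmp lab s ∧ cmp lab (rgt d) = w
      swap
      · rw [Finset.sum_eq_zero]
        · have := (hno s hv1).2
          positivity
        · intro e he
          exfalso
          rw [Finset.mem_filter] at he
          exact hex ⟨e, he.1, he.2⟩
      · obtain ⟨d, hd⟩ := hex
        have hi0 : ∀ t, cmp lab t = cmp lab s → lab t = lab s := fun t ht => cmp_lab ht
        have hk : lab (rgt d) ≠ lab s := by
          have h1 := (mem_ID hsup).1 hd.1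
          have h2 : lab d.1 = lab s := cmp_lab hd.2.1
          rw [← h2]
          exact h1.symm
        have h1 := hD (cmp lab s) hv1 (lab s) hi0 (lab (rgt d)) hk
        rw [if_neg (hno s hv1).1] at h1
        refine le_trans ?_ h1
        apply Finset.sum_le_sum_of_subset_of_nonneg
        · intro e he
          rw [Finset.mem_filter] at he ⊢
          refine ⟨he.1, he.2.1, ?_⟩
          apply cmp_lab
          rw [he.2.2, hd.2.2]
        · intro e _ _
          exact len_nonneg e
  have hMf := Mm_le hca hsup hofinal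
  set Mf := ∑ v ∈ (K.image (cmp lab)).erase o, min 3 (ka * al (cmp lab) z K v) with hMfd
  obtain ⟨hE0, hE⟩ := good_ineq good (P := Per z K lab) (M := Mf) (E := 2 * (Per z K lab - Mf))
    (by rw [ID_cmp]; rfl)
    (by
      rw [hMfd]
      exact Finset.sum_congr (by
        ext v
        rw [Finset.mem_erase, Finset.mem_image, Finset.mem_erase, Finset.mem_image]) fun _ _ => rfl)
    rfl
  have harl0 : ∀ (l : Site → Fin (N + 1)) i, 0 ≤ arl z K l i :=
    fun l i => Finset.sum_nonneg fun s _ => hca s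
  have h4 : (2 * (Per z K lab - Mf)) ^ 2 = 4 * (Per z K lab - Mf) ^ 2 := by ring
  rw [h4] at hE
  refine ⟨Mm z K lab, Per z K lab - Mf, ?_, ?_, by linarith, by linarith, ?_⟩
  · unfold Mm
    exact Finset.sum_nonneg fun i _ => le_min (by norm_num) (mul_nonneg hka.le (harl0 _ _))
  · unfold Mm
    refine (Finset.sum_le_card_nsmul _ _ 3 fun i _ => min_le_left _ _).trans ?_
    rw [nsmul_eq_mul, Finset.card_erase_of_mem (Finset.mem_univ _), Finset.card_univ,
      Fintype.card_fin]
    simp only [Nat.add_sub_cancel]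
    linarith
  · have h1 := (hmin lab0 h0).1
    linarith

end

end Run7.h761.Lb
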