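import Pool.Agent.Run7.h761.Config

/-! Lattice symmetries acting on polygons. -/

set_option autoImplicit false

namespace Run7.h761

open Set

/-- rotation by 60 degrees in hexagonal coordinates -/
def rot (v : V) : V := (-v.2, v.1 + v.2)

/-- iterated rotation -/
def rotn (s : Fin 6) (v : V) : V := rot^[s.val] v

/-- rotation followed by the translation by the lattice vector `p` -/
def mv (s : Fin 6) (p : V) (v : V) : V := ((rotn s v).1 + DD * p.1, (rotn s v).2 + DD * p.2)

/-- maps preserving orientation and length forms -/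
structure Good (g : V → V) : Prop where
  or : ∀ x y z, orient (g x) (g y) (g z) = orient x y z
  q : ∀ x y, qf (g y - g x) = qf (y - x)

theorem good_rot : Good rot where
  or x y z := by unfold orient rot; ring
  q x y := by unfold qf rot; simp only [Prod.fst_sub, Prod.snd_sub]; ring

theorem good_id : Good id := ⟨fun _ _ _ => rfl, fun _ _ => rfl⟩

theorem Good.comp {g h : V → V} (hg : Good g) (hh : Good h) : Good (g ∘ h) where
  or x y z := by simp only [Function.comp_apply]; rw [hg.or, hh.or]
  q x y := by simp only [Function.comp_apply]; rw [hg.q, hh.q]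

theorem good_iter (n : ℕ) : Good (rot^[n]) := by
  induction n with
  | zero => exact good_id
  | succ n ih => rw [Function.iterate_succ]; exact ih.comp good_rot

theorem good_trans (t : V) : Good (fun v : V => (v.1 + t.1, v.2 + t.2)) where
  or x y z := by unfold orient; ring
  q x y := by unfold qf; simp only [Prod.fst_sub, Prod.snd_sub]; ring

theorem good_mv (s : Fin 6) (p : V) : Good (mv s p) :=
  (good_trans (DD * p.1, DD * p.2)).comp (good_iter s.val)

/-- transformation of a polygon -/
def trg (g : V → V) (s : Fin 6) (P : Poly) : Poly :=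
  P.map fun a => ⟨g a.v, a.lab.map (· + s), a.r⟩

/-- transformation of an edge -/
def trE (g : V → V) (s : Fin 6) (e : Edge) : Edge := ⟨g e.s, g e.t, e.lab.map (· + s), e.r⟩

theorem edgesFrom_trg (g : V → V) (s : Fin 6) (v0 : V) : ∀ P : Poly,
    edgesFrom (g v0) (trg g s P) = (edgesFrom v0 P).map (trE g s)
  | [] => rfl
  | [_] => rfl
  | a :: b :: l => by
    have ih := edgesFrom_trg g s v0 (b :: l)
    simp only [trg, List.map_cons, edgesFrom] at *
    rw [ih]
    rfl

theorem edges_trg (g : V → V) (s : Fin 6) (P : Poly) :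
    edges (trg g s P) = (edges P).map (trE g s) := by
  cases P with
  | nil => rfl
  | cons a l => exact edgesFrom_trg g s a.v (a :: l)

theorem tris_trg (g : V → V) (s : Fin 6) (P : Poly) :
    tris (trg g s P) = (tris P).map fun T => (g T.1, g T.2.1, g T.2.2) := by
  cases P with
  | nil => rfl
  | cons a l =>
    simp only [trg, tris, List.map_cons, List.map_map]
    have e : List.map ((fun b : Pt => b.v) ∘ fun a : Pt => ⟨g a.v, a.lab.map (· + s), a.r⟩) l =
        (l.map fun b => b.v).map g := by
      rw [List.map_map]; rfl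
    rw [e, consec_map, List.map_map]
    rfl

theorem fanOK_trg {g : V → V} (hg : Good g) (s : Fin 6) {P : Poly} (h : FanOK P) :
    FanOK (trg g s P) := by
  cases P with
  | nil => exact h
  | cons a l =>
    cases l with
    | nil => exact h
    | cons b l =>
      have e : ((trg g s (b :: l)).map fun b => b.v) = ((b :: l).map fun b => b.v).map g := by
        simp [trg, Function.comp_def]
      have h1 : ((b :: l).map fun b => b.v).Pairwise fun x y => 0 < orient a.v x y := h
      have h2 : (((b :: l).map fun b => b.v).map g).Pairwise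
          fun x y => 0 < orient (g a.v) x y := by
        refine h1.map g fun x y hxy => ?_
        rw [hg.or]; exact hxy
      rw [← e] at h2
      exact h2

theorem area2_trg {g : V → V} (hg : Good g) (s : Fin 6) (P : Poly) :
    area2 (trg g s P) = area2 P := by
  unfold area2
  rw [tris_trg, List.map_map]
  congr 1
  apply List.map_congr_left
  intro T _
  exact hg.or _ _ _

theorem lenOK_trg {g : V → V} (hg : Good g) (s : Fin 6) {P : Poly} (h : LenOK P) :
    LenOK (trg g s P) := by
  intro e he
  rw [edges_trg] at he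
  obtain ⟨f, hf, rfl⟩ := List.mem_map.1 he
  have := h f hf
  simp only [trE]
  rw [hg.q]
  exact this

theorem perR_trg (g : V → V) (s : Fin 6) (P : Poly) : perR (trg g s P) = perR P := by
  unfold perR
  rw [edges_trg, List.map_map]
  rfl

theorem outR_trg (g : V → V) (s : Fin 6) (P : Poly) : outR (trg g s P) = outR P := by
  unfold outR
  rw [edges_trg, List.filter_map, List.map_map]
  have : ((fun e : Edge => decide (e.lab = none)) ∘ trE g s) = fun e => decide (e.lab = none) := by
    funext e
    simp [trE]
  rw [this]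
  rfl

theorem slot_trg (g : V → V) (s : Fin 6) (P : Poly) (k : Fin 6) :
    slot (trg g s P) (k + s) = (slot P k).map (Prod.map g g) := by
  unfold slot
  rw [edges_trg, List.filter_map, List.map_map, List.map_map]
  have : ((fun e : Edge => decide (e.lab = some (k + s))) ∘ trE g s) =
      fun e => decide (e.lab = some k) := by
    funext e
    have hiff : (Option.map (· + s) e.lab = some (k + s)) ↔ (e.lab = some k) := by
      cases e.lab with
      | none => simp
      | some j => simp
    exact decide_eq_decide.2 hiff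
  rw [this]
  rfl

theorem valid_trg {g : V → V} (hg : Good g) (s : Fin 6) {P : Poly} (h : Valid P) :
    Valid (trg g s P) :=
  ⟨fanOK_trg hg s h.fan, by rw [area2_trg hg]; exact h.area, lenOK_trg hg s h.len⟩

theorem rightOf_g {g : V → V} (hg : Good g) (p q : V) (T : V × V × V) :
    rightOf (g p) (g q) (g T.1, g T.2.1, g T.2.2) = rightOf p q T := by
  unfold rightOf
  simp only [hg.or]

theorem sepT_g {g : V → V} (hg : Good g) (T T' : V × V × V) :
    sepT (g T.1, g T.2.1, g T.2.2) (g T'.1, g T'.2.1, g T'.2.2) = sepT T T' := by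
  unfold sepT sepE
  simp only [rightOf_g hg]

theorem sepP_trg {g : V → V} (hg : Good g) (s : Fin 6) (P P' : Poly) :
    sepP (trg g s P) (trg g s P') = sepP P P' := by
  unfold sepP
  rw [tris_trg, tris_trg, List.all_map]
  congr 1
  funext T
  simp only [Function.comp_apply, List.all_map]
  congr 1
  funext T'
  exact sepT_g hg T T'

theorem add_three_comm (k s : Fin 6) : k + s + 3 = k + 3 + s := by
  revert k s; decide

theorem matched_trg (g : V → V) (s : Fin 6) {P P' : Poly} {k : Fin 6} (h : Matched P k P') :
    Matched (trg g s P) (k + s) (trg g s P') := by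
  unfold Matched at *
  rw [add_three_comm, slot_trg, slot_trg, h, List.map_reverse, List.map_map, List.map_map]
  rfl

/-- translation by a lattice vector -/
def trl (t : V) (P : Poly) : Poly :=
  P.map fun a => ⟨(a.v.1 + DD * t.1, a.v.2 + DD * t.2), a.lab, a.r⟩

theorem rot_iter_linear (n : ℕ) (u v : V) (c : ℤ) :
    rot^[n] (u.1 + c * v.1, u.2 + c * v.2) =
      ((rot^[n] u).1 + c * (rot^[n] v).1, (rot^[n] u).2 + c * (rot^[n] v).2) := by
  induction n generalizing u v with
  | zero => rfl
  | succ n ih =>
    rw [Function.iterate_succ_apply, Function.iterate_succ_apply, Function.iterate_succ_apply]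
    have : rot (u.1 + c * v.1, u.2 + c * v.2) =
        ((rot u).1 + c * (rot v).1, (rot u).2 + c * (rot v).2) := by
      unfold rot; ext <;> simp <;> ring
    rw [this, ih]

theorem trg_trl (s : Fin 6) (p t : V) (P : Poly) :
    trg (mv s (p + rotn s t)) s P = trg (mv s p) s (trl t P) := by
  unfold trg trl
  rw [List.map_map]
  apply List.map_congr_left
  intro a _
  simp only [Function.comp_apply, Pt.mk.injEq, and_true]
  unfold mv rotn
  rw [rot_iter_linear]
  ext
  · simp; ring
  · simp; ring

theorem dir_add (k s : Fin 6) : dir (k + s) = rotn s (dir k) := by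
  revert k s; decide

theorem rotn_neg (s : Fin 6) (v : V) : rotn s (rotn (-s) v) = v := by
  have h6 : ∀ v, rot^[6] v = v := by
    intro v
    simp only [Function.iterate_succ, Function.iterate_zero, Function.comp_apply, rot, id]
    ext <;> simp
  unfold rotn
  rw [← Function.iterate_add_apply]
  have : s.val + (-s).val = 0 ∨ s.val + (-s).val = 6 := by
    revert s; decide
  rcases this with h | h
  · rw [h]; rfl
  · rw [h]; exact h6 v

theorem trg_trg_neg (s : Fin 6) (p : V) (P : Poly) :
    trg (mv s p) s (trg (mv (-s) 0) (-s) P) = trg (mv 0 p) 0 P := by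
  unfold trg
  rw [List.map_map]
  apply List.map_congr_left
  intro a _
  simp only [Function.comp_apply]
  have h1 : mv s p (mv (-s) 0 a.v) = mv 0 p a.v := by
    have : mv (-s) 0 a.v = rotn (-s) a.v := by unfold mv; ext <;> simp
    rw [this]
    unfold mv
    rw [rotn_neg]
    rfl
  have h2 : (a.lab.map (· + -s)).map (· + s) = a.lab.map (· + 0) := by
    rcases a.lab with _ | j
    · rfl
    · simp
  rw [h1, h2]

/-- the window condition at the origin, as a Boolean -/
def winB (P : Poly) : Bool := P.all fun a =>
  decide (2 * |2 * a.v.1 + a.v.2| < 3 * DD) &&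
  (decide (2 * |a.v.1 + 2 * a.v.2| < 3 * DD) && decide (2 * |a.v.1 - a.v.2| < 3 * DD))

theorem win_rot {v : V} (h : (2 * |2 * v.1 + v.2| < 3 * DD) ∧ (2 * |v.1 + 2 * v.2| < 3 * DD) ∧
    (2 * |v.1 - v.2| < 3 * DD)) :
    (2 * |2 * (rot v).1 + (rot v).2| < 3 * DD) ∧ (2 * |(rot v).1 + 2 * (rot v).2| < 3 * DD) ∧
    (2 * |(rot v).1 - (rot v).2| < 3 * DD) := by
  obtain ⟨h1, h2, h3⟩ := h
  unfold rot
  simp only
  refine ⟨?_, ?_, ?_⟩
  · rw [show 2 * -v.2 + (v.1 + v.2) = v.1 - v.2 by ring]; exact h3
  · rw [show -v.2 + 2 * (v.1 + v.2) = 2 * v.1 + v.2 by ring]; exact h1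
  · rw [show -v.2 - (v.1 + v.2) = -(v.1 + 2 * v.2) by ring, abs_neg]; exact h2

theorem win_iter (n : ℕ) {v : V} (h : (2 * |2 * v.1 + v.2| < 3 * DD) ∧
    (2 * |v.1 + 2 * v.2| < 3 * DD) ∧ (2 * |v.1 - v.2| < 3 * DD)) :
    (2 * |2 * (rot^[n] v).1 + (rot^[n] v).2| < 3 * DD) ∧
    (2 * |(rot^[n] v).1 + 2 * (rot^[n] v).2| < 3 * DD) ∧
    (2 * |(rot^[n] v).1 - (rot^[n] v).2| < 3 * DD) := by
  induction n generalizing v with
  | zero => exact h
  | succ n ih => rw [Function.iterate_succ_apply]; exact ih (win_rot h)

theorem inWin_trg {P : Poly} (h : winB P = true) (s : Fin 6) (p : V) :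
    InWin p (trg (mv s p) s P) := by
  intro a ha
  unfold trg at ha
  obtain ⟨b, hb, rfl⟩ := List.mem_map.1 ha
  have h1 := List.all_eq_true.1 h b hb
  simp only [Bool.and_eq_true, decide_eq_true_eq] at h1
  have h2 := win_iter s.val h1
  simp only [mv, add_sub_cancel_right]
  exact h2

end Run7.h761
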