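import Pool.Agent.Run7.h761.Mrg

/-! Equilateral chains; areas of polygons with two groups of sides. -/

set_option autoImplicit false

namespace Run7.h761

open Finset

/-- every chain can be replaced by an equilateral one with the same ends -/
theorem exists_equichain {n : ℕ} (x0 : Fin (n + 1) → ℂ) (w : ℂ) (h0 : ext0 x0 0 = 0)
    (hn0 : ext0 x0 n = w) : ∃ x : Fin (n + 1) → ℂ, ext0 x 0 = 0 ∧ ext0 x n = w ∧
      plen n (ext0 x) ≤ plen n (ext0 x0) ∧ par n (ext0 x0) ≤ par n (ext0 x) ∧
      ∀ k, k + 1 < n → ‖ext0 x (k + 1) - ext0 x k‖ = ‖ext0 x (k + 1 + 1) - ext0 x (k + 1)‖ := by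
  have hlen : Continuous fun x : Fin (n + 1) → ℂ => plen n (ext0 x) := by
    unfold plen
    exact continuous_finsetSum _ fun k _ => ((ext0_continuous _).sub (ext0_continuous _)).norm
  have har : Continuous fun x : Fin (n + 1) → ℂ => par n (ext0 x) := by
    unfold par
    exact continuous_finsetSum _ fun k _ => cr_continuous (ext0_continuous _) (ext0_continuous _)
  have hsq : Continuous fun x : Fin (n + 1) → ℂ =>
      ∑ k ∈ range n, ‖ext0 x (k + 1) - ext0 x k‖ ^ 2 :=
    continuous_finsetSum _ fun k _ => (((ext0_continuous _).sub (ext0_continuous _)).norm).pow 2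
  set K : Set (Fin (n + 1) → ℂ) := {x | ext0 x 0 = 0 ∧ ext0 x n = w ∧
    plen n (ext0 x) ≤ plen n (ext0 x0) ∧ par n (ext0 x0) ≤ par n (ext0 x)} with hK
  have hclosed : IsClosed K := by
    apply IsClosed.inter (isClosed_eq (ext0_continuous 0) continuous_const)
    apply IsClosed.inter (isClosed_eq (ext0_continuous n) continuous_const)
    exact IsClosed.inter (isClosed_le hlen continuous_const) (isClosed_le continuous_const har)
  have hbdd : Bornology.IsBounded K := by
    rw [isBounded_iff_forall_norm_le]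
    refine ⟨plen n (ext0 x0), fun x hx => ?_⟩
    rw [pi_norm_le_iff_of_nonneg (plen_nonneg _ _)]
    intro i
    have h1 := dist_le_plen (n := n) (ext0 x) (k := i.val) (by omega)
    rw [hx.1, sub_zero] at h1
    have h2 : ext0 x i.val = x i := by unfold ext0; rw [dif_pos i.isLt]
    rw [h2] at h1
    exact h1.trans hx.2.2.1
  have hcomp : IsCompact K := Metric.isCompact_of_isClosed_isBounded hclosed hbdd
  have hne : K.Nonempty := ⟨x0, h0, hn0, le_rfl, le_rfl⟩
  obtain ⟨x, hx, hmin⟩ := hcomp.exists_isMinOn hne hsq.continuousOn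
  refine ⟨x, hx.1, hx.2.1, hx.2.2.1, hx.2.2.2, fun k hk => ?_⟩
  by_contra hneq
  obtain ⟨v', w', hsum, hv', hw', hcr⟩ := isosceles (ext0 x (k + 1) - ext0 x k)
    (ext0 x (k + 1 + 1) - ext0 x (k + 1))
  set x' := Function.update x ⟨k + 1, by omega⟩ (ext0 x k + v') with hx'
  have hself : ext0 x' (k + 1) = ext0 x k + v' := by
    unfold ext0
    rw [dif_pos (by omega), hx', Function.update_self]
    rfl
  have hoth : ∀ i, i ≠ k + 1 → ext0 x' i = ext0 x i := by
    intro i hi
    unfold ext0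
    by_cases h : i < n + 1
    · rw [dif_pos h, dif_pos h, hx', Function.update_of_ne]
      intro he
      exact hi (Fin.mk.inj_iff.1 he)
    · rw [dif_neg h, dif_neg h]
  have ek : ext0 x' k = ext0 x k := hoth k (by omega)
  have ek2 : ext0 x' (k + 1 + 1) = ext0 x (k + 1 + 1) := hoth _ (by omega)
  have d1 : ext0 x' (k + 1) - ext0 x' k = v' := by rw [hself, ek]; ring
  have d2 : ext0 x' (k + 1 + 1) - ext0 x' (k + 1) = w' := by
    rw [hself, ek2]
    linear_combination -hsum
  have hsame : ∀ i, i ≠ k → i ≠ k + 1 → ext0 x' i = ext0 x i ∧ ext0 x' (i + 1) = ext0 x (i + 1) :=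
    fun i h1 h2 => ⟨hoth i h2, hoth (i + 1) (by omega)⟩
  have hl : plen n (ext0 x') = plen n (ext0 x) := by
    unfold plen
    rw [sum_two_change hk (f := fun i => ‖ext0 x' (i + 1) - ext0 x' i‖)
      (g := fun i => ‖ext0 x (i + 1) - ext0 x i‖) (fun i h1 h2 => by
        rw [(hsame i h1 h2).1, (hsame i h1 h2).2])]
    simp only [d1, d2, hv', hw']
    ring
  have ha : par n (ext0 x) ≤ par n (ext0 x') := by
    unfold par
    rw [sum_two_change hk (f := fun i => cr (ext0 x' i) (ext0 x' (i + 1)))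
      (g := fun i => cr (ext0 x i) (ext0 x (i + 1))) (fun i h1 h2 => by
        rw [(hsame i h1 h2).1, (hsame i h1 h2).2])]
    simp only [ek, ek2]
    have e1 : cr (ext0 x k) (ext0 x' (k + 1)) + cr (ext0 x' (k + 1)) (ext0 x (k + 1 + 1)) =
        cr v' w' + cr (ext0 x k) (ext0 x (k + 1 + 1)) := by
      rw [← d1, ← d2, ek, ek2]; unfold cr; simp only [Complex.sub_re, Complex.sub_im]; ring
    have e2 : cr (ext0 x k) (ext0 x (k + 1)) + cr (ext0 x (k + 1)) (ext0 x (k + 1 + 1)) =
        cr (ext0 x (k + 1) - ext0 x k) (ext0 x (k + 1 + 1) - ext0 x (k + 1)) +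
          cr (ext0 x k) (ext0 x (k + 1 + 1)) := by
      unfold cr; simp only [Complex.sub_re, Complex.sub_im]; ring
    linarith
  have hxK : x' ∈ K := by
    refine ⟨?_, ?_, ?_, ?_⟩
    · rw [hoth 0 (by omega)]; exact hx.1
    · rw [hoth n (by omega)]; exact hx.2.1
    · rw [hl]; exact hx.2.2.1
    · exact hx.2.2.2.trans ha
  have h1 := hmin hxK
  simp only [Set.mem_ofPred_eq] at h1
  rw [sum_two_change hk (f := fun i => ‖ext0 x' (i + 1) - ext0 x' i‖ ^ 2)
      (g := fun i => ‖ext0 x (i + 1) - ext0 x i‖ ^ 2) (fun i h1 h2 => by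
        rw [(hsame i h1 h2).1, (hsame i h1 h2).2])] at h1
  simp only [d1, d2, hv', hw'] at h1
  have h2 : 0 < (‖ext0 x (k + 1) - ext0 x k‖ - ‖ext0 x (k + 1 + 1) - ext0 x (k + 1)‖) ^ 2 := by
    have := sub_ne_zero.2 hneq
    positivity
  nlinarith


/-- partial sums of a list -/
noncomputable def psum (l : List ℂ) (k : ℕ) : ℂ := (l.take k).sum

theorem lar_par (l : List ℂ) : ∀ x : ℕ → ℂ, (∀ k < l.length, x (k + 1) - x k = l.getD k 0) → x 0 = 0 →
    par l.length x = lar l ∧ x l.length = l.sum ∧ plen l.length x = (l.map (fun x => ‖x‖)).sum := by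
  induction l using List.reverseRecOn with
  | nil => intro x _ h0; simp [par, lar, plen, h0]
  | append_singleton l v ih =>
    intro x hx h0
    have hlen : (l ++ [v]).length = l.length + 1 := by simp
    obtain ⟨h1, h2, h3⟩ := ih x (fun k hk => by
      rw [hx k (by rw [hlen]; omega), List.getD_append _ _ _ _ hk]) h0
    have hv : x (l.length + 1) - x l.length = v := by
      rw [hx l.length (by rw [hlen]; omega), List.getD_append_right _ _ _ _ le_rfl]
      simp
    have hxv : x (l.length + 1) = l.sum + v := by rw [← h2, ← hv]; ring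
    refine ⟨?_, ?_, ?_⟩
    · rw [hlen, lar_append]
      unfold par at h1 ⊢
      rw [Finset.sum_range_succ, h1, hxv, h2, cr_add_right, cr_self]
      simp [lar, cr_zero_right]
    · rw [hlen, hxv]; simp
    · rw [hlen]
      unfold plen at h3 ⊢
      rw [Finset.sum_range_succ, h3, hv]
      simp

/-- area of a chain with `p` steps -/
theorem chain_merge {p : ℕ} {x : ℕ → ℂ} {s ρ : ℝ} (h0 : x 0 = 0)
    (hx : ∀ k < p + 1, ‖x (k + 1) - x k‖ = ρ) (hs : ∀ k < p, 0 < aq s k + s) :
    2 * par (p + 1) x + aq s p * ‖x (p + 1)‖ ^ 2 ≤ (p + 1) * (s * ρ ^ 2) := by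
  induction p with
  | zero =>
    have h1 := hx 0 (by omega)
    unfold par aq
    rw [Finset.sum_range_one, h0]
    rw [h0, sub_zero, zero_add] at h1
    rw [zero_add, h1, cr_zero_left]
    push_cast
    linarith
  | succ p ih =>
    have h1 := ih (fun k hk => hx k (by omega)) (fun k hk => hs k (by omega))
    have h2 := merge (x (p + 1)) (x (p + 1 + 1) - x (p + 1)) (hs p (by omega))
    rw [hx (p + 1) (by omega)] at h2
    have e1 : x (p + 1) + (x (p + 1 + 1) - x (p + 1)) = x (p + 1 + 1) := by ring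
    have e2 : cr (x (p + 1)) (x (p + 1 + 1) - x (p + 1)) = cr (x (p + 1)) (x (p + 1 + 1)) := by
      rw [sub_eq_add_neg, cr_add_right, cr_neg_self, add_zero]
    rw [e1, e2] at h2
    have e3 : par (p + 1 + 1) x = par (p + 1) x + cr (x (p + 1)) (x (p + 1 + 1)) := by
      unfold par
      rw [Finset.sum_range_succ]
    rw [e3]
    have e4 : aq s (p + 1) = (aq s p * s - 1) / (aq s p + s) := rfl
    rw [e4]
    push_cast
    linarith

/-- area of a list of `p` steps of given total length -/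
theorem list_area {p : ℕ} (l : List ℂ) (hl : l.length = p + 1) {s : ℝ} (hs0 : 0 ≤ s)
    (hs : ∀ k < p, 0 < aq s k + s) :
    2 * lar l + aq s p * ‖l.sum‖ ^ 2 ≤ s / (p + 1) * (l.map (fun x => ‖x‖)).sum ^ 2 := by
  set x0 : Fin (p + 1 + 1) → ℂ := fun i => (l.take i.val).sum with hx0
  have hext : ∀ k, k ≤ p + 1 → ext0 x0 k = (l.take k).sum := by
    intro k hk
    unfold ext0
    rw [dif_pos (by omega)]
  have hstep : ∀ k < l.length, ext0 x0 (k + 1) - ext0 x0 k = l.getD k 0 := by
    intro k hk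
    rw [hext _ (by omega), hext _ (by omega), List.take_add_one, List.sum_append]
    rw [List.getD_eq_getElem?_getD, List.getElem?_eq_getElem hk]
    simp
  obtain ⟨g1, g2, g3⟩ := lar_par l (ext0 x0) hstep (by rw [hext 0 (by omega)]; simp)
  rw [hl] at g1 g2 g3
  obtain ⟨x, h1, h2, h3, h4, h5⟩ := exists_equichain x0 l.sum (by rw [hext 0 (by omega)]; simp) g2
  rw [g3] at h3
  rw [g1] at h4
  set ρ := ‖ext0 x 1 - ext0 x 0‖ with hρ
  have heq : ∀ k, k < p + 1 → ‖ext0 x (k + 1) - ext0 x k‖ = ρ := by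
    intro k
    induction k with
    | zero => intro _; rfl
    | succ k ih => intro hk; rw [← h5 k hk]; exact ih (by omega)
  have hlen : plen (p + 1) (ext0 x) = (p + 1 : ℕ) * ρ := by
    unfold plen
    rw [Finset.sum_congr rfl fun k hk => heq k (Finset.mem_range.1 hk)]
    simp
  have hm := chain_merge (p := p) h1 heq hs
  rw [h2] at hm
  rw [hlen] at h3
  have hρ0 : 0 ≤ ρ := norm_nonneg _
  have hp0 : (0 : ℝ) < p + 1 := by positivity
  have h6 : ((p + 1 : ℕ) * ρ) ^ 2 ≤ (l.map (fun x => ‖x‖)).sum ^ 2 :=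
    pow_le_pow_left₀ (by positivity) h3 2
  have h7 : (p + 1 : ℝ) * (s * ρ ^ 2) = s / (p + 1) * ((p + 1 : ℕ) * ρ) ^ 2 := by
    push_cast
    field_simp
  have h8 : s / (p + 1) * ((p + 1 : ℕ) * ρ) ^ 2 ≤ s / (p + 1) * (l.map (fun x => ‖x‖)).sum ^ 2 :=
    mul_le_mul_of_nonneg_left h6 (by positivity)
  linarith

end Run7.h761
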