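import Pool.Agent.Run7.h761.Avg

/-! Sums over the sites for one offset. -/

set_option autoImplicit false

namespace Run7.h761

open MeasureTheory Set Filter Topology
open scoped ENNReal

open Lb (Site Dart dr rgt thd rev rt InI ID ca ar tl len Cons)

section

variable {N : ℕ} {l : Plane → Fin (N + 1)} {y : Plane} {δ : ℝ}

/-- rotation of darts -/
def rtE : Dart ≃ Dart where
  toFun := rt
  invFun d := rt (rt d)
  left_inv := Lb.rt3
  right_inv := Lb.rt3

/-- half length of a dart with a label change -/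
noncomputable def ff (l : Plane → Fin (N + 1)) (y : Plane) (δ : ℝ) (d : Dart) : ℝ≥0∞ :=
  ENNReal.ofReal ((nd l y δ d : ℝ) * ‖zz l y δ d - qq l y δ d‖)

theorem SS_ff (d : Dart) :
    ENNReal.ofReal (SL l y δ d) = ff l y δ d + ff l y δ (rt d) + ff l y δ (rt (rt d)) := by
  unfold SL ff
  rw [ENNReal.ofReal_add (by positivity) (by positivity),
    ENNReal.ofReal_add (by positivity) (by positivity), zz_rt (rt d), zz_rt]

theorem tsum_ff : 3 * ∑' d, ff l y δ d = ∑' d, ENNReal.ofReal (SL l y δ d) := by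
  have h1 : ∑' d, ff l y δ (rt d) = ∑' d, ff l y δ d := rtE.tsum_eq (ff l y δ)
  have h2 : ∑' d, ff l y δ (rt (rt d)) = ∑' d, ff l y δ d := by
    rw [← h1]
    exact rtE.tsum_eq (fun d => ff l y δ (rt d))
  simp_rw [SS_ff]
  rw [ENNReal.tsum_add, ENNReal.tsum_add, h1, h2]
  ring

theorem RR_HH (hl : LabOK l) (hδ : 0 ≤ δ) (d : Dart) :
    ENNReal.ofReal (RR l y δ d) ≤ HH l δ d.2 (pt y δ d.1) := by
  have e1 : pt y δ (rt (rt d)).1 = pt y δ d.1 + δ • ev (d.2 + 1) := by
    rw [Lb.rt2]; exact pt_add _ _ _ _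
  have e2 : (rt d).2 = d.2 + 2 := rfl
  have e3 : (rt (rt d)).2 = d.2 + 4 := by rw [Lb.rt2]
  have x2 : ex l y δ (rt d) = exv l (pt y δ d.1 + δ • ev d.2) (δ • ev (d.2 + 2)) := by
    unfold ex; rw [pt_rt, e2]
  have x3 : ex l y δ (rt (rt d)) = exv l (pt y δ d.1 + δ • ev (d.2 + 1)) (δ • ev (d.2 + 4)) := by
    unfold ex; rw [e1, e3]
  have p1 := ex_nonneg (y := y) (δ := δ) hl d
  have p2 := ex_nonneg (y := y) (δ := δ) hl (rt d)
  have p3 := ex_nonneg (y := y) (δ := δ) hl (rt (rt d))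
  have p4 : 0 ≤ ∑ i, ‖WW l y δ i d‖ := Finset.sum_nonneg fun _ _ => norm_nonneg _
  have p5 : (0 : ℝ) ≤ (if nn l y δ d = 3 then 1 else 0) := by split_ifs <;> norm_num
  unfold RR HH
  rw [ENNReal.ofReal_add (by positivity) (by positivity),
    ENNReal.ofReal_add (by positivity) (by positivity)]
  refine add_le_add (add_le_add (le_of_eq ?_) (le_of_eq ?_)) ?_
  · rw [div_eq_inv_mul, ENNReal.ofReal_mul (by norm_num),
      ENNReal.ofReal_sum_of_nonneg fun _ _ => norm_nonneg _]
    rw [one_div]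
    congr 1
    apply Finset.sum_congr rfl
    intro i _
    rw [WW_eq]
  · rw [ENNReal.ofReal_mul (by positivity), ENNReal.ofReal_add (by positivity) (by positivity),
      ENNReal.ofReal_add (by positivity) (by positivity), x2, x3]
    rfl
  · rw [ENNReal.ofReal_mul (by positivity)]
    apply mul_le_mul_right
    by_cases h : nn l y δ d = 3
    · rw [if_pos h]
      have q1 := ne_le_one (lb l y δ d.1) (lb l y δ (rgt d))
      have q2 := ne_le_one (lb l y δ (rt d).1) (lb l y δ (rgt (rt d)))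
      have q3 := ne_le_one (lb l y δ (rt (rt d)).1) (lb l y δ (rgt (rt (rt d))))
      unfold nn nd at h
      have r1 : ne (lb l y δ d.1) (lb l y δ (rgt d)) = 1 := by omega
      have r2 : ne (lb l y δ (rt d).1) (lb l y δ (rgt (rt d))) = 1 := by omega
      have r3 : ne (lb l y δ (rt (rt d)).1) (lb l y δ (rgt (rt (rt d)))) = 1 := by omega
      rw [ne_eq_one] at r1 r2 r3
      rw [rgt_rt] at r2
      rw [rgt_rt2, Lb.rt2] at r3
      simp only at r3
      have s1 : lb l y δ (rgt d) = l (pt y δ d.1 + δ • ev d.2) := by unfold lb; rw [pt_rgt]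
      have s2 : lb l y δ (rt d).1 = l (pt y δ d.1 + δ • ev d.2) := by unfold lb; rw [pt_rt]
      have s3 : lb l y δ (thd d) = l (pt y δ d.1 + δ • ev (d.2 + 1)) := by
        unfold lb thd; rw [pt_add]
      have s0 : lb l y δ d.1 = l (pt y δ d.1) := rfl
      rw [s1, s0] at r1
      rw [s2, s3] at r2
      rw [s3, s0] at r3
      unfold tr3
      rw [if_pos ⟨r1, r3, r2.symm⟩]
      simp
    · rw [if_neg h]
      simp

theorem sum_HH (hl : LabOK l) (hδ : 0 ≤ δ) :
    3 * ∑' d, ff l y δ d ≤ ∑' s, ∑ j, HH l δ j (pt y δ s) := by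
  rw [tsum_ff]
  calc _ ≤ ∑' d : Dart, HH l δ d.2 (pt y δ d.1) := ENNReal.tsum_le_tsum fun d =>
        (ENNReal.ofReal_le_ofReal (tri_ineq hl hδ d)).trans (RR_HH hl hδ d)
    _ = _ := by
        rw [ENNReal.tsum_prod']
        congr 1
        funext s
        rw [tsum_fintype]

theorem Per_le {K : Finset Site} (hK : ∀ s ∉ K, lb l y δ s = 0) :
    ENNReal.ofReal (Lb.Per (zz l y δ) K (lb l y δ)) ≤ ∑' d, ff l y δ d := by
  set g : Dart → ℝ := fun d => ‖zz l y δ d - qq l y δ d‖ with hg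
  have h1 : ∀ d, len (zz l y δ) d ≤ g d + g (rev d) := by
    intro d
    have e1 : tl (zz l y δ) d = zz l y δ (rev d) := (Lb.z_rev zz_cons d).symm
    unfold len
    rw [e1, hg]
    simp only
    rw [qq_rev]
    calc ‖zz l y δ d - zz l y δ (rev d)‖ = ‖(zz l y δ d - qq l y δ d) - (zz l y δ (rev d) - qq l y δ d)‖ := by
          congr 1; ring
      _ ≤ _ := norm_sub_le _ _
  have h2 : ∑ d ∈ ID (lb l y δ) K, g (rev d) = ∑ d ∈ ID (lb l y δ) K, g d := by
    apply Finset.sum_nbij' rev rev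
    · exact fun d hd => Lb.ID_rev hK _ hd
    · exact fun d hd => Lb.ID_rev hK _ hd
    · exact fun d _ => Lb.rev_rev d
    · exact fun d _ => Lb.rev_rev d
    · exact fun d _ => rfl
  have h3 : Lb.Per (zz l y δ) K (lb l y δ) ≤ ∑ d ∈ ID (lb l y δ) K, g d := by
    unfold Lb.Per
    have := Finset.sum_le_sum fun d (_ : d ∈ ID (lb l y δ) K) => h1 d
    rw [Finset.sum_add_distrib, h2] at this
    linarith
  have h4 : ∑ d ∈ ID (lb l y δ) K, g d = ∑ d ∈ ID (lb l y δ) K, (nd l y δ d : ℝ) * ‖zz l y δ d - qq l y δ d‖ := by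
    apply Finset.sum_congr rfl
    intro d hd
    rw [Lb.mem_ID hK] at hd
    have : nd l y δ d = 1 := ne_eq_one.2 hd
    rw [this]
    simp [hg]
  calc _ ≤ ENNReal.ofReal (∑ d ∈ ID (lb l y δ) K, (nd l y δ d : ℝ) * ‖zz l y δ d - qq l y δ d‖) :=
        ENNReal.ofReal_le_ofReal (h3.trans_eq h4)
    _ = ∑ d ∈ ID (lb l y δ) K, ff l y δ d := ENNReal.ofReal_sum_of_nonneg fun d _ => by positivity
    _ ≤ _ := ENNReal.sum_le_tsum _

/-- indicator of a label -/
noncomputable def ei (i a : Fin (N + 1)) : ℝ≥0∞ := if a = i then 1 else 0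

theorem sum_ei (a : Fin (N + 1)) : ∑ i, ei i a = 1 := by
  unfold ei
  simp

theorem ei_le (i a b : Fin (N + 1)) : ei i b ≤ ei i a + ei i b * (ne a b : ℝ≥0∞) := by
  by_cases h : a = b
  · rw [h]; exact le_self_add
  · rw [ne_eq_one.2 h]
    simp

theorem measurable_ei {f : Plane → Fin (N + 1)} (hf : Measurable f) (i : Fin (N + 1)) :
    Measurable fun x => ei i (f x) :=
  (measurable_of_countable (ei i)).comp hf

theorem vol_tile (hδ : 0 < δ) {F : Plane → ℝ≥0∞} (hF : Measurable F) (y : Plane) :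
    ∫⁻ x, F x = ∑' s, ∫⁻ u in Qs δ (0, 0), F (pt y δ s + u) := by
  have h1 := tiling hδ (F := fun x => F (x + y)) (hF.comp (measurable_id.add_const y))
  rw [lintegral_add_right_eq_self F y] at h1
  rw [← h1, lintegral_tsum]
  · congr 1
    funext s
    congr 1
    funext u
    congr 1
    unfold pt
    abel
  · intro s
    have : Measurable fun u : Plane => F (pt u δ s + y) := by
      unfold pt
      exact hF.comp ((measurable_id.add_const _).add_const _)
    exact this.aemeasurable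

/-- local area defect of a label -/
noncomputable def YY (l : Plane → Fin (N + 1)) (y : Plane) (δ : ℝ) (i : Fin (N + 1)) (s : Site) : ℝ≥0∞ :=
  (∫⁻ u in Qs δ (0, 0), ei i (l (pt y δ s + u)) * (ne (l (pt y δ s)) (l (pt y δ s + u)) : ℝ≥0∞)) +
  ENNReal.ofReal (δ ^ 2) * (ei i (lb l y δ s) *
    ∑ j : Fin 6, (ne (l (pt y δ s)) (l (pt y δ s + δ • ev j)) : ℝ≥0∞))

theorem measurable_sh (hl : LabOK l) (p : Plane) : Measurable fun u => l (p + u) :=
  hl.meas.comp (measurable_id.const_add p)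

theorem sum_YY (hl : LabOK l) (s : Site) : ∑ i, YY l y δ i s = GA l δ (pt y δ s) := by
  unfold YY GA
  rw [Finset.sum_add_distrib, ← Finset.mul_sum, ← Finset.sum_mul, sum_ei, one_mul]
  congr 1
  rw [← lintegral_finsetSum]
  · congr 1
    funext u
    rw [← Finset.sum_mul, sum_ei, one_mul]
  · intro i _
    exact (measurable_ei (measurable_sh hl _) i).mul (measurable_ne measurable_const (measurable_sh hl _))

theorem area_le (hl : LabOK l) (hδ : 0 < δ) (i : Fin (N + 1)) : volume (Es l i) ≤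
    ∑' s, (ei i (lb l y δ s) * ENNReal.ofReal (ca (zz l y δ) s)) + ∑' s, YY l y δ i s := by
  have h1 : volume (Es l i) = ∫⁻ x, ei i (l x) := by
    rw [← lintegral_indicator_one (measurableSet_Es hl i)]
    congr 1
    funext x
    unfold ei Es
    by_cases h : l x = i
    · rw [if_pos h, indicator_of_mem (by simpa using h)]; rfl
    · rw [if_neg h, indicator_of_notMem (by simpa using h)]
  rw [h1, vol_tile hδ (measurable_ei hl.meas i) y, ← ENNReal.tsum_add]
  apply ENNReal.tsum_le_tsum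
  intro s
  have h2 : ∫⁻ u in Qs δ (0, 0), ei i (l (pt y δ s + u)) ≤ ei i (lb l y δ s) * ENNReal.ofReal (δ ^ 2) +
      ∫⁻ u in Qs δ (0, 0), ei i (l (pt y δ s + u)) * (ne (l (pt y δ s)) (l (pt y δ s + u)) : ℝ≥0∞) := by
    rw [← volume_Qs hδ (0, 0), ← setLIntegral_const, ← lintegral_add_left measurable_const]
    exact lintegral_mono fun u => ei_le i (l (pt y δ s)) (l (pt y δ s + u))
  have h3 : ei i (lb l y δ s) * ENNReal.ofReal (δ ^ 2) ≤
      ei i (lb l y δ s) * ENNReal.ofReal (ca (zz l y δ) s) +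
      ENNReal.ofReal (δ ^ 2) * (ei i (lb l y δ s) *
        ∑ j : Fin 6, (ne (l (pt y δ s)) (l (pt y δ s + δ • ev j)) : ℝ≥0∞)) := by
    have hc := ca_zz (y := y) hl hδ.le s
    by_cases h : ∀ j, lb l y δ (s + dr j) = lb l y δ s
    · rw [hc.2 h]
      exact le_self_add
    · push Not at h
      obtain ⟨j, hj⟩ := h
      have h4 : (1 : ℝ≥0∞) ≤ ∑ j : Fin 6, (ne (l (pt y δ s)) (l (pt y δ s + δ • ev j)) : ℝ≥0∞) := by
        have h5 : (ne (l (pt y δ s)) (l (pt y δ s + δ • ev j)) : ℝ≥0∞) = 1 := by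
          have h6 : l (pt y δ s) ≠ l (pt y δ s + δ • ev j) := by
            intro e
            apply hj
            unfold lb
            rw [pt_add]
            exact e.symm
          rw [ne_eq_one.2 h6]
          simp
        calc (1 : ℝ≥0∞) = (ne (l (pt y δ s)) (l (pt y δ s + δ • ev j)) : ℝ≥0∞) := h5.symm
          _ ≤ _ := Finset.single_le_sum (f := fun j => (ne (l (pt y δ s)) (l (pt y δ s + δ • ev j)) : ℝ≥0∞))
            (fun _ _ => zero_le) (Finset.mem_univ j)
      calc ei i (lb l y δ s) * ENNReal.ofReal (δ ^ 2) = ENNReal.ofReal (δ ^ 2) * (ei i (lb l y δ s) * 1) := by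
            rw [mul_one, mul_comm]
        _ ≤ ENNReal.ofReal (δ ^ 2) * (ei i (lb l y δ s) *
          ∑ j : Fin 6, (ne (l (pt y δ s)) (l (pt y δ s + δ • ev j)) : ℝ≥0∞)) :=
            mul_le_mul_right (mul_le_mul_right h4 _) _
        _ ≤ _ := le_add_self
  unfold YY
  calc _ ≤ _ := h2
    _ ≤ _ := add_le_add h3 le_rfl
    _ = _ := by rw [add_assoc]; congr 1; rw [add_comm]

theorem arl_eq (hl : LabOK l) (hδ : 0 ≤ δ) {K : Finset Site} (hK : ∀ s ∉ K, lb l y δ s = 0) {i : Fin (N + 1)} (hi : i ≠ 0) :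
    ∑' s, (ei i (lb l y δ s) * ENNReal.ofReal (ca (zz l y δ) s)) =
      ENNReal.ofReal (Lb.arl (zz l y δ) K (lb l y δ) i) := by
  unfold Lb.arl
  rw [ENNReal.ofReal_sum_of_nonneg fun s _ => (ca_zz hl hδ s).1]
  rw [tsum_eq_sum (s := K.filter (fun s => lb l y δ s = i))]
  · apply Finset.sum_congr rfl
    intro s hs
    rw [Finset.mem_filter] at hs
    unfold ei
    rw [if_pos hs.2, one_mul]
  · intro s hs
    have : lb l y δ s ≠ i := by
      intro h
      apply hs
      rw [Finset.mem_filter]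
      refine ⟨?_, h⟩
      by_contra hc
      exact hi (h.symm.trans (hK s hc))
    unfold ei
    rw [if_neg this, zero_mul]

end

end Run7.h761
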