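import Pool.Agent.Run7.h761.Wind

/-! First returns, towers, isoperimetric inequality for permutations. -/

set_option autoImplicit false

namespace Run7.h761.Lb

open Finset Function

open scoped Classical

variable {α : Type*}

theorem pos_period {f : α → α} {S : Finset α} (hf : ∀ x ∈ S, f x ∈ S)
    (hi : ∀ x ∈ S, ∀ y ∈ S, f x = f y → x = y) {a : α} (ha : a ∈ S) : 0 < minimalPeriod f a := by
  have hmem : ∀ k, f^[k] a ∈ S := by
    intro k
    induction k with
    | zero => exact ha
    | succ k ih => rw [iterate_succ_apply']; exact hf _ ih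
  have hcancel : ∀ k x y, x ∈ S → y ∈ S → f^[k] x = f^[k] y → x = y := by
    intro k
    induction k with
    | zero => intro x y _ _ h; exact h
    | succ k ih =>
      intro x y hx hy h
      rw [iterate_succ_apply, iterate_succ_apply] at h
      exact hi x hx y hy (ih _ _ (hf x hx) (hf y hy) h)
  obtain ⟨i, j, hij, h⟩ : ∃ i j : ℕ, i < j ∧ f^[i] a = f^[j] a := by
    have hni : ¬ Function.Injective (fun k : ℕ => (⟨f^[k] a, hmem k⟩ : {x // x ∈ S})) :=
      not_injective_infinite_finite _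
    unfold Function.Injective at hni
    push Not at hni
    obtain ⟨i, j, h1, h2⟩ := hni
    have h3 : f^[i] a = f^[j] a := congrArg Subtype.val h1
    rcases lt_or_gt_of_ne h2 with h4 | h4
    · exact ⟨i, j, h4, h3⟩
    · exact ⟨j, i, h4, h3.symm⟩
  have h5 : f^[j - i] a = a := by
    apply hcancel i _ _ (hmem _) ha
    rw [← iterate_add_apply, Nat.add_sub_cancel' hij.le]
    exact h.symm
  exact IsPeriodicPt.minimalPeriod_pos (n := j - i) (by omega) h5

theorem iter_mem {f : α → α} {S : Finset α} (hf : ∀ x ∈ S, f x ∈ S) {a : α} (ha : a ∈ S) (k : ℕ) :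
    f^[k] a ∈ S := by
  induction k with
  | zero => exact ha
  | succ k ih => rw [iterate_succ_apply']; exact hf _ ih

theorem iter_cancel {f : α → α} {S : Finset α} (hf : ∀ x ∈ S, f x ∈ S)
    (hi : ∀ x ∈ S, ∀ y ∈ S, f x = f y → x = y) : ∀ k x y, x ∈ S → y ∈ S →
    f^[k] x = f^[k] y → x = y := by
  intro k
  induction k with
  | zero => intro x y _ _ h; exact h
  | succ k ih =>
    intro x y hx hy h
    rw [iterate_succ_apply, iterate_succ_apply] at h
    exact hi x hx y hy (ih _ _ (hf x hx) (hf y hy) h)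

/-- sum over the first iterates -/
theorem sum_orbit {f : α → α} (a : α) (g : α → ℝ) :
    ∑ d ∈ (range (minimalPeriod f a)).image (fun k => f^[k] a), g d =
      ∑ k ∈ range (minimalPeriod f a), g (f^[k] a) := by
  rw [Finset.sum_image]
  intro i hi j hj h
  exact iterate_injOn_Iio_minimalPeriod (by simpa using hi) (by simpa using hj) h

/-- first return time -/
noncomputable def kk (f : α → α) (P : α → Prop) (d : α) : ℕ := sInf {k | 0 < k ∧ P (f^[k] d)}

section Tower

variable {f : α → α} {P : α → Prop} {S : Finset α} (hf : ∀ x ∈ S, f x ∈ S)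
    (hi : ∀ x ∈ S, ∀ y ∈ S, f x = f y → x = y)

include hf hi

theorem kk_spec {d : α} (hd : d ∈ S) (hP : P d) : 0 < kk f P d ∧ P (f^[kk f P d] d) := by
  have hp := pos_period hf hi hd
  have : (minimalPeriod f d) ∈ {k | 0 < k ∧ P (f^[k] d)} := by
    refine ⟨hp, ?_⟩
    rw [iterate_minimalPeriod]
    exact hP
  exact Nat.sInf_mem ⟨_, this⟩

theorem kk_min {d : α} {i : ℕ} (h0 : 0 < i) (h1 : P (f^[i] d)) : kk f P d ≤ i :=
  Nat.sInf_le ⟨h0, h1⟩

theorem tower_inj {d e : α} (hd : d ∈ S) (he : e ∈ S) (hPd : P d) (hPe : P e) {i j : ℕ}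
    (hid : i < kk f P d) (hje : j < kk f P e) (h : f^[i] d = f^[j] e) : d = e ∧ i = j := by
  wlog hij : i ≤ j generalizing d e i j
  · have := this he hd hPe hPd hje hid h.symm (by omega)
    exact ⟨this.1.symm, this.2.symm⟩
  have h1 : d = f^[j - i] e := by
    apply iter_cancel hf hi i _ _ hd (iter_mem hf he _)
    rw [← iterate_add_apply, Nat.add_sub_cancel' hij]
    exact h
  rcases Nat.eq_zero_or_pos (j - i) with h2 | h2
  · rw [h2] at h1
    exact ⟨h1, by omega⟩
  · have := kk_min hf hi h2 (P := P) (d := e) (by rw [← h1]; exact hPd)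
    omega

theorem ret_inj {d e : α} (hd : d ∈ S) (he : e ∈ S) (hPd : P d) (hPe : P e)
    (h : f^[kk f P d] d = f^[kk f P e] e) : d = e := by
  wlog hij : kk f P d ≤ kk f P e generalizing d e
  · exact (this he hd hPe hPd h.symm (by omega)).symm
  have h1 : d = f^[kk f P e - kk f P d] e := by
    apply iter_cancel hf hi (kk f P d) _ _ hd (iter_mem hf he _)
    rw [← iterate_add_apply, Nat.add_sub_cancel' hij]
    exact h
  rcases Nat.eq_zero_or_pos (kk f P e - kk f P d) with h2 | h2
  · rw [h2] at h1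
    exact h1
  · have := kk_min hf hi h2 (P := P) (d := e) (by rw [← h1]; exact hPd)
    have := (kk_spec hf hi hd hPd).1
    omega

theorem tower_le {F : α → ℝ} (hF : ∀ x ∈ S, 0 ≤ F x) :
    ∑ d ∈ S.filter P, ∑ i ∈ range (kk f P d), F (f^[i] d) ≤ ∑ d ∈ S, F d := by
  rw [Finset.sum_sigma']
  have hinj : ∀ x ∈ (S.filter P).sigma (fun d => range (kk f P d)),
      ∀ y ∈ (S.filter P).sigma (fun d => range (kk f P d)),
      f^[x.2] x.1 = f^[y.2] y.1 → x = y := by
    rintro ⟨d, i⟩ hx ⟨e, j⟩ hy h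
    rw [Finset.mem_sigma, Finset.mem_filter, Finset.mem_range] at hx hy
    have := tower_inj hf hi hx.1.1 hy.1.1 hx.1.2 hy.1.2 hx.2 hy.2 h
    obtain ⟨rfl, rfl⟩ := this
    rfl
  rw [← Finset.sum_image (f := F) (g := fun x : (Σ _ : α, ℕ) => f^[x.2] x.1) hinj]
  apply Finset.sum_le_sum_of_subset_of_nonneg
  · intro x hx
    obtain ⟨y, hy, rfl⟩ := Finset.mem_image.1 hx
    rw [Finset.mem_sigma, Finset.mem_filter] at hy
    exact iter_mem hf hy.1.1 _
  · intro x hx _
    exact hF x hx

end Tower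

/-- **isoperimetric inequality for permutations** -/
theorem perm_iso (y : α → ℂ) (σ : α → α) : ∀ n : ℕ, ∀ M : Finset α, M.card ≤ n →
    (∀ x ∈ M, σ x ∈ M) → (∀ x ∈ M, ∀ w ∈ M, σ x = σ w → x = w) →
    4 * Real.pi * |(∑ d ∈ M, cr (y d) (y (σ d))) / 2| ≤ (∑ d ∈ M, ‖y (σ d) - y d‖) ^ 2 := by
  intro n
  induction n with
  | zero =>
    intro M hM _ _
    have : M = ∅ := Finset.card_eq_zero.1 (by omega)
    subst this
    simp
  | succ n ih =>
    intro M hM hm hi
    rcases M.eq_empty_or_nonempty with he | ⟨a, ha⟩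
    · subst he; simp
    have hp := pos_period hm hi ha
    set p := minimalPeriod σ a with hpd
    set O := (range p).image (fun k => σ^[k] a) with hO
    have hOM : O ⊆ M := by
      intro x hx
      obtain ⟨k, _, rfl⟩ := Finset.mem_image.1 hx
      exact iter_mem hm ha k
    have haO : a ∈ O := Finset.mem_image.2 ⟨0, Finset.mem_range.2 hp, rfl⟩
    have hOk : ∀ k, σ^[k] a ∈ O := by
      intro k
      refine Finset.mem_image.2 ⟨k % p, Finset.mem_range.2 (Nat.mod_lt _ hp), ?_⟩
      rw [hpd, iterate_mod_minimalPeriod_eq]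
    have hclosed : ∀ x ∈ M \ O, σ x ∈ M \ O := by
      intro x hx
      rw [Finset.mem_sdiff] at hx ⊢
      refine ⟨hm x hx.1, fun h => hx.2 ?_⟩
      obtain ⟨k, _, hk⟩ := Finset.mem_image.1 h
      have h1 : σ x = σ (σ^[k + p - 1] a) := by
        rw [← hk, ← iterate_succ_apply' σ]
        have : (k + p - 1).succ = k + p := by omega
        rw [this, iterate_add_apply, hpd, iterate_minimalPeriod]
      have h2 := hi x hx.1 _ (iter_mem hm ha _) h1
      rw [h2]
      exact hOk _
    have hcard : (M \ O).card ≤ n := by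
      have : (M \ O).card < M.card := Finset.card_lt_card ⟨Finset.sdiff_subset, fun h => by
        have := h ha
        rw [Finset.mem_sdiff] at this
        exact this.2 haO⟩
      omega
    have hrest := ih (M \ O) hcard hclosed (fun x hx w hw h =>
      hi x (Finset.mem_sdiff.1 hx).1 w (Finset.mem_sdiff.1 hw).1 h)
    set zz : ℕ → ℂ := fun k => y (σ^[k] a) with hzz
    have hcut : Cut zz id p := by
      refine ⟨rfl, fun i _ => Nat.le_succ i, ?_⟩
      simp only [hzz, id]
      rw [hpd, iterate_minimalPeriod]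
      rfl
    have horb := refl_iso hcut
    have e1 : parea zz id p = (∑ d ∈ O, cr (y d) (y (σ d))) / 2 := by
      unfold parea
      rw [hO, hpd, sum_orbit a (fun d => cr (y d) (y (σ d)))]
      congr 1
      refine Finset.sum_congr rfl fun k _ => ?_
      simp only [hzz, id, iterate_succ_apply']
    have e2 : tlen zz id p = ∑ d ∈ O, ‖y (σ d) - y d‖ := by
      unfold tlen clen
      rw [hO, hpd, sum_orbit a (fun d => ‖y (σ d) - y d‖)]
      refine Finset.sum_congr rfl fun k _ => ?_
      simp only [id, Nat.Ico_succ_singleton, Finset.sum_singleton, hzz, iterate_succ_apply']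
    rw [e1, e2] at horb
    have hS : 0 ≤ ∑ i ∈ range p, |carea zz (id i) (id (i + 1))| :=
      Finset.sum_nonneg fun _ _ => abs_nonneg _
    have hpi := Real.pi_pos
    set A1 := (∑ d ∈ O, cr (y d) (y (σ d))) / 2 with hA1
    set A2 := (∑ d ∈ M \ O, cr (y d) (y (σ d))) / 2 with hA2
    set L1 := ∑ d ∈ O, ‖y (σ d) - y d‖ with hL1
    set L2 := ∑ d ∈ M \ O, ‖y (σ d) - y d‖ with hL2
    have hsA : (∑ d ∈ M, cr (y d) (y (σ d))) / 2 = A2 + A1 := by
      rw [← Finset.sum_sdiff hOM]; ring
    have hsL : ∑ d ∈ M, ‖y (σ d) - y d‖ = L2 + L1 := by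
      rw [← Finset.sum_sdiff hOM]
    rw [hsA, hsL]
    have hL1p : 0 ≤ L1 := Finset.sum_nonneg fun _ _ => norm_nonneg _
    have hL2p : 0 ≤ L2 := Finset.sum_nonneg fun _ _ => norm_nonneg _
    have habs := abs_add_le A2 A1
    have h3 : 4 * Real.pi * |A1| ≤ L1 ^ 2 := by nlinarith
    have h4 : 4 * Real.pi * |A2 + A1| ≤ 4 * Real.pi * (|A2| + |A1|) :=
      mul_le_mul_of_nonneg_left habs (by positivity)
    nlinarith

end Run7.h761.Lb
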