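import Pool.Agent.Run7.h761.Cluster

/-! Polygons with integer vertices in the hexagonal coordinate system. -/

set_option autoImplicit false

namespace Run7.h761

open MeasureTheory Set

/-- integer points; `(x, y)` stands for the point `(x e₁ + y e₂) / DD` of the plane, where
`e₁ = √3 (1, 0)` and `e₂ = √3 (1/2, √3/2)`. -/
abbrev V := ℤ × ℤ

/-- the scale -/
def DD : ℤ := 300000

/-- scale of the lengths -/
def SS : ℤ := 10000000

/-- the point of the plane with given integer coordinates -/
noncomputable def emb (v : V) : Plane :=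
  !₂[√3 * ((v.1 : ℝ) + v.2 / 2) / (DD : ℝ), 3 / 2 * (v.2 : ℝ) / (DD : ℝ)]

theorem emb_zero (v : V) : emb v 0 = √3 * ((v.1 : ℝ) + v.2 / 2) / (DD : ℝ) := rfl
theorem emb_one (v : V) : emb v 1 = 3 / 2 * (v.2 : ℝ) / (DD : ℝ) := rfl

/-- orientation (twice the area, in lattice units) of a triangle -/
def orient (x y z : V) : ℤ := (y.1 - x.1) * (z.2 - x.2) - (y.2 - x.2) * (z.1 - x.1)

theorem DD_pos : (0 : ℝ) < (DD : ℝ) := by norm_num [DD]

theorem om_emb (x y z : V) : om (emb y - emb x) (emb z - emb x) =
    3 * √3 / 2 / (DD : ℝ) ^ 2 * (orient x y z : ℝ) := by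
  have h := DD_pos.ne'
  simp only [om, PiLp.sub_apply, emb_zero, emb_one, orient]
  push_cast
  field_simp
  ring

theorem coef_pos : 0 < 3 * √3 / 2 / (DD : ℝ) ^ 2 := by
  have := DD_pos
  positivity

theorem om_emb_pos {x y z : V} (h : 0 < orient x y z) : 0 < om (emb y - emb x) (emb z - emb x) := by
  rw [om_emb]
  have : (0 : ℝ) < (orient x y z : ℝ) := by exact_mod_cast h
  have := coef_pos
  positivity

theorem om_emb_nonpos {x y z : V} (h : orient x y z ≤ 0) :
    om (emb y - emb x) (emb z - emb x) ≤ 0 := by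
  rw [om_emb]
  have : (orient x y z : ℝ) ≤ 0 := by exact_mod_cast h
  exact mul_nonpos_of_nonneg_of_nonpos coef_pos.le this

/-- squared length form -/
def qf (u : V) : ℤ := 3 * (u.1 * u.1 + u.1 * u.2 + u.2 * u.2)

theorem norm_emb_sub (s t : V) : ‖emb t - emb s‖ = √((qf (t - s) : ℝ)) / (DD : ℝ) := by
  rw [EuclideanSpace.norm_eq, Fin.sum_univ_two]
  have h := DD_pos
  have e : ‖(emb t - emb s) 0‖ ^ 2 + ‖(emb t - emb s) 1‖ ^ 2 = (qf (t - s) : ℝ) / (DD : ℝ) ^ 2 := by
    simp only [Real.norm_eq_abs, sq_abs, PiLp.sub_apply, emb_zero, emb_one, qf, Prod.fst_sub,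
      Prod.snd_sub]
    push_cast
    have h3 : √3 ^ 2 = (3 : ℝ) := Real.sq_sqrt (by norm_num)
    have : (√3 * ((t.1 : ℝ) + t.2 / 2) / (DD : ℝ) - √3 * ((s.1 : ℝ) + s.2 / 2) / (DD : ℝ)) ^ 2 =
        √3 ^ 2 * ((((t.1 : ℝ) + t.2 / 2) - ((s.1 : ℝ) + s.2 / 2)) / (DD : ℝ)) ^ 2 := by ring
    rw [this, h3]
    field_simp
    ring
  rw [e, Real.sqrt_div' _ (by positivity), Real.sqrt_sq h.le]

theorem norm_emb_sub_le {s t : V} {r : ℤ} (h0 : 0 ≤ r) (h : qf (t - s) * SS ^ 2 ≤ r ^ 2 * DD ^ 2) :
    ‖emb t - emb s‖ ≤ (r : ℝ) / (SS : ℝ) := by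
  rw [norm_emb_sub]
  have hD := DD_pos
  have hS : (0 : ℝ) < (SS : ℝ) := by norm_num [SS]
  rw [div_le_div_iff₀ hD hS]
  have hr : (0 : ℝ) ≤ (r : ℝ) := by exact_mod_cast h0
  have h' : (qf (t - s) : ℝ) * (SS : ℝ) ^ 2 ≤ (r : ℝ) ^ 2 * (DD : ℝ) ^ 2 := by exact_mod_cast h
  have e : √((qf (t - s) : ℝ)) * (SS : ℝ) = √((qf (t - s) : ℝ) * (SS : ℝ) ^ 2) := by
    rw [Real.sqrt_mul' _ (by positivity), Real.sqrt_sq hS.le]
  rw [e]
  have h2 : (0 : ℝ) ≤ (r : ℝ) * (DD : ℝ) := mul_nonneg hr hD.le
  have h3 : (qf (t - s) : ℝ) * (SS : ℝ) ^ 2 ≤ ((r : ℝ) * (DD : ℝ)) ^ 2 := by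
    rw [mul_pow]; exact h'
  exact Real.sqrt_le_iff.2 ⟨h2, h3⟩

/-- a vertex of a polygon, with the label and the length bound of the edge that starts there -/
structure Pt where
  /-- the vertex -/
  v : V
  /-- label of the edge -/
  lab : Option (Fin 6)
  /-- upper bound for the length of the edge -/
  r : ℤ
deriving DecidableEq

/-- polygons: the vertices in positive order -/
abbrev Poly := List Pt

/-- an edge -/
structure Edge where
  /-- start -/
  s : V
  /-- end -/
  t : V
  /-- label -/
  lab : Option (Fin 6)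
  /-- upper bound for the length -/
  r : ℤ
deriving DecidableEq

/-- edges of a path closed by `v0` -/
def edgesFrom (v0 : V) : Poly → List Edge
  | [] => []
  | [a] => [⟨a.v, v0, a.lab, a.r⟩]
  | a :: b :: l => ⟨a.v, b.v, a.lab, a.r⟩ :: edgesFrom v0 (b :: l)

/-- edges of a polygon -/
def edges : Poly → List Edge
  | [] => []
  | a :: l => edgesFrom a.v (a :: l)

/-- the open set of the plane -/
noncomputable def cell : Poly → Set Plane
  | [] => ∅
  | a :: l => fan (emb a.v) (l.map fun b => emb b.v)

/-- the triangles of a polygon -/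
def tris : Poly → List (V × V × V)
  | [] => []
  | a :: l => (consec (l.map fun b => b.v)).map fun e => (a.v, e.1, e.2)

/-- the order condition -/
def FanOK : Poly → Prop
  | [] => False
  | [_] => False
  | a :: l => (l.map fun b => b.v).Pairwise fun x y => 0 < orient a.v x y

/-- twice the area -/
def area2 (P : Poly) : ℤ := ((tris P).map fun T => orient T.1 T.2.1 T.2.2).sum

theorem fanOrd_of {a : Pt} {l : Poly} (h : FanOK (a :: l)) :
    FanOrd (emb a.v) (l.map fun b => emb b.v) := by
  cases l with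
  | nil => exact List.Pairwise.nil
  | cons b l =>
    unfold FanOK at h
    unfold FanOrd
    have e : ((b :: l).map fun b => emb b.v) = ((b :: l).map fun b => b.v).map emb := by
      simp [Function.comp_def]
    rw [e]
    exact h.map emb (fun x y hxy => om_emb_pos hxy)

theorem isOpen_cell {P : Poly} (h : FanOK P) : IsOpen (cell P) := by
  cases P with
  | nil => exact h.elim
  | cons a l => exact isOpen_fan (fanOrd_of h)

theorem volume_cell {P : Poly} (h : FanOK P) (ha : area2 P = 2 * DD ^ 2) :
    volume (cell P) = ENNReal.ofReal cellArea := by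
  cases P with
  | nil => exact h.elim
  | cons a l =>
    unfold cell
    rw [(volume_fan (fanOrd_of h)).1, fanArea_eq]
    congr 1
    have e : (l.map fun b => emb b.v) = (l.map fun b => b.v).map emb := by
      simp [Function.comp_def]
    rw [e, consec_map, List.map_map]
    have e2 : ∀ (m : List (V × V)), (m.map ((fun e => om (e.1 - emb a.v) (e.2 - emb a.v) / 2) ∘
        Prod.map emb emb)).sum =
        3 * √3 / 2 / (DD : ℝ) ^ 2 / 2 * (((m.map fun e => orient a.v e.1 e.2).sum : ℤ) : ℝ) := by
      intro m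
      induction m with
      | nil => simp
      | cons e m ih =>
        rw [List.map_cons, List.sum_cons, ih, List.map_cons, List.sum_cons]
        simp only [Function.comp_apply, Prod.map_fst, Prod.map_snd, om_emb]
        push_cast
        ring
    rw [e2]
    have e3 : ((consec (l.map fun b => b.v)).map fun e => orient a.v e.1 e.2).sum = 2 * DD ^ 2 := by
      rw [← ha, area2, tris, List.map_map]
      rfl
    rw [e3]
    have := DD_pos.ne'
    unfold cellArea
    push_cast
    field_simp

/-- flux through the boundary -/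
noncomputable def bflux (φ : Plane → Plane) (P : Poly) : ℝ :=
  ((edges P).map fun e => flux φ (emb e.s) (emb e.t)).sum

theorem edgesFrom_flux (φ : Plane → Plane) (v0 : V) : ∀ (a : Pt) (l : Poly),
    ((edgesFrom v0 (a :: l)).map fun e => flux φ (emb e.s) (emb e.t)).sum =
      pathFlux φ ((a :: l).map fun b => emb b.v) +
      flux φ (((a :: l).map fun b => emb b.v).getLast (by simp)) (emb v0)
  | a, [] => by simp [edgesFrom, pathFlux]
  | a, b :: l => by
    have ih := edgesFrom_flux φ v0 b l
    simp only [edgesFrom, List.map_cons, List.sum_cons, pathFlux] at *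
    rw [ih]
    have hl : (emb a.v :: emb b.v :: List.map (fun b => emb b.v) l).getLast (by simp) =
      (emb b.v :: List.map (fun b => emb b.v) l).getLast (by simp) := List.getLast_cons_cons
    rw [hl]
    ring

theorem green_cell {φ : Plane → Plane} (hφ : Adm φ) {P : Poly} (h : FanOK P) :
    ∫ x in cell P, divergence φ x = bflux φ P := by
  cases P with
  | nil => exact h.elim
  | cons a l =>
    cases l with
    | nil => exact h.elim
    | cons b l =>
      have h1 : FanOrd (emb a.v) (emb b.v :: l.map fun b => emb b.v) := fanOrd_of h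
      have h2 := green_fan hφ.1 (integrable_divergence hφ.1 hφ.2.1) (q := emb a.v) (x := emb b.v)
        (l := l.map fun b => emb b.v) h1
      have h3 := edgesFrom_flux φ a.v b l
      have h4 : cell (a :: b :: l) = fan (emb a.v) (emb b.v :: l.map fun b => emb b.v) := rfl
      rw [h4, h2]
      have h5 : bflux φ (a :: b :: l) = flux φ (emb a.v) (emb b.v) +
          ((edgesFrom a.v (b :: l)).map fun e => flux φ (emb e.s) (emb e.t)).sum := rfl
      rw [h5, h3]
      simp only [List.map_cons]
      ring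

end Run7.h761
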