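import Pool.Agent.Run7.h761.Bdy
import Pool.Agent.Run7.h761.Face5

/-! The inequality for one region. -/

set_option autoImplicit false

namespace Run7.h761.Lb

open Finset Function

open scoped Classical

section

variable {ι : Type*} {φ : Site → ι} {z : Dart → ℂ} {o v : ι} {U : Set Site} {K : Finset Site}

theorem OB_sub_ID (hK : ∀ s ∉ K, φ s = o) (h : Reg φ v U K) {d : Dart} (hd : d ∈ OB U K) :
    d ∈ ID φ K := (mem_ID hK).2 (OB_inI h hd)

theorem OB_eq_image (h : Reg φ v U K) {d₀ : Dart} (h0 : d₀ ∈ OB U K) :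
    OB U K = (range (minimalPeriod (nx φ) d₀)).image (fun k => (nx φ)^[k] d₀) := by
  have hf : ∀ x ∈ OB U K, nx φ x ∈ OB U K := fun x hx => OB_nx h hx
  have hi : ∀ x ∈ OB U K, ∀ y ∈ OB U K, nx φ x = nx φ y → x = y :=
    fun x hx y hy e => nx_inj (OB_inI h hx) (OB_inI h hy) e
  have hp := pos_period hf hi h0
  apply Finset.Subset.antisymm
  · intro d hd
    obtain ⟨k, hk⟩ := single_orbit h h0 hd
    rw [Finset.mem_image]
    refine ⟨k % minimalPeriod (nx φ) d₀, Finset.mem_range.2 (Nat.mod_lt _ hp), ?_⟩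
    rw [iterate_mod_minimalPeriod_eq]
    exact hk.symm
  · intro d hd
    obtain ⟨k, _, rfl⟩ := Finset.mem_image.1 hd
    exact iter_mem hf h0 k

theorem sum_OB (h : Reg φ v U K) {d₀ : Dart} (h0 : d₀ ∈ OB U K) (g : Dart → ℝ) :
    ∑ d ∈ OB U K, g d = ∑ k ∈ range (minimalPeriod (nx φ) d₀), g ((nx φ)^[k] d₀) := by
  rw [OB_eq_image h h0, Finset.sum_image]
  intro i hi j hj e
  exact iterate_injOn_Iio_minimalPeriod (by simpa using hi) (by simpa using hj) e

/-- everything about the marks on the boundary of a region -/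
theorem marks (hz : Cons z) (hK : ∀ s ∉ K, φ s = o) (h : Reg φ v U K) {d₀ : Dart}
    (h0 : d₀ ∈ OB U K) (hP0 : trb φ d₀) : ∃ (t : ℕ → ℕ) (n : ℕ), Cut (trk φ z d₀) t n ∧
      t n = minimalPeriod (nx φ) d₀ ∧
      (∀ G : Dart → ℝ, ∑ i ∈ range n, G ((nx φ)^[t i] d₀) = ∑ d ∈ (OB U K).filter (trb φ), G d) ∧
      (∀ i, clen (trk φ z d₀) (t i) (t (i + 1)) = CL φ z ((nx φ)^[t i] d₀) ∧
        carea (trk φ z d₀) (t i) (t (i + 1)) = CX φ z ((nx φ)^[t i] d₀) ∧
        ‖trk φ z d₀ (t (i + 1)) - trk φ z d₀ (t i)‖ = CC φ z ((nx φ)^[t i] d₀)) := by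
  have hf : ∀ x ∈ OB U K, nx φ x ∈ OB U K := fun x hx => OB_nx h hx
  have hi : ∀ x ∈ OB U K, ∀ y ∈ OB U K, nx φ x = nx φ y → x = y :=
    fun x hx y hy e => nx_inj (OB_inI h hx) (OB_inI h hy) e
  have hp := pos_period hf hi h0
  set p := minimalPeriod (nx φ) d₀ with hpd
  set P : ℕ → Prop := fun k => trb φ ((nx φ)^[k] d₀) with hPd
  have hper : ∀ j, (nx φ)^[p * j] d₀ = d₀ := by
    intro j
    rw [← iterate_mod_minimalPeriod_eq, ← hpd, Nat.mul_mod_right]
    rfl
  have hinf : (Set.ofPred P).Infinite := by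
    apply Set.infinite_of_injective_forall_mem (f := fun j : ℕ => p * j)
    · intro a b hab
      exact Nat.eq_of_mul_eq_mul_left hp hab
    · intro j
      show trb φ ((nx φ)^[p * j] d₀)
      rw [hper]
      exact hP0
  have hPp : P p := by
    show trb φ ((nx φ)^[p] d₀)
    have := hper 1
    rw [mul_one] at this
    rw [this]
    exact hP0
  set t := Nat.nth P with ht
  set n := Nat.count P p with hn
  have htn : t n = p := Nat.nth_count hPp
  have ht0 : t 0 = 0 := Nat.nth_zero_of_zero hP0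
  have hmono : StrictMono t := Nat.nth_strictMono hinf
  have hPt : ∀ i, P (t i) := Nat.nth_mem_of_infinite hinf
  refine ⟨t, n, ⟨ht0, fun i _ => (hmono (Nat.lt_succ_self i)).le, ?_⟩, htn, ?_, ?_⟩
  · unfold trk
    rw [htn]
    have := hper 1
    rw [mul_one] at this
    rw [this]
    rfl
  · intro G
    have e1 : ∑ d ∈ (OB U K).filter (trb φ), G d =
        ∑ k ∈ range p, if P k then G ((nx φ)^[k] d₀) else 0 := by
      rw [Finset.sum_filter]
      exact sum_OB h h0 (fun d => if trb φ d then G d else 0)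
    rw [e1, ← Finset.sum_filter]
    refine Finset.sum_bij' (fun i _ => t i) (fun k _ => Nat.count P k) ?_ ?_ ?_ ?_ ?_
    · intro i hi
      rw [Finset.mem_filter, Finset.mem_range]
      exact ⟨Nat.nth_lt_of_lt_count (Finset.mem_range.1 hi), hPt i⟩
    · intro k hk
      rw [Finset.mem_filter, Finset.mem_range] at hk
      rw [Finset.mem_range]
      exact Nat.count_strict_mono hk.2 hk.1
    · intro i _
      exact Nat.count_nth_of_infinite hinf i
    · intro k hk
      rw [Finset.mem_filter] at hk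
      exact Nat.nth_count hk.2
    · intro i _; rfl
  · intro i
    set e := (nx φ)^[t i] d₀ with he
    have hlt : t i < t (i + 1) := hmono (Nat.lt_succ_self i)
    have heO : e ∈ OB U K := iter_mem hf h0 _
    have hPe : trb φ e := hPt i
    have hk : kz φ e = t (i + 1) - t i := by
      apply le_antisymm
      · refine kk_min hf hi (Nat.sub_pos_of_lt hlt) ?_
        rw [he, ← iterate_add_apply, Nat.sub_add_cancel hlt.le]
        exact hPt (i + 1)
      · by_contra hc
        push Not at hc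
        have hs := kk_spec hf hi heO hPe
        have h2 : P (t i + kz φ e) := by
          show trb φ ((nx φ)^[t i + kz φ e] d₀)
          rw [add_comm, iterate_add_apply]
          exact hs.2
        have h3 : t i + kz φ e ≤ t i := Nat.le_nth_of_lt_nth_succ
          (show t i + kz φ e < t (i + 1) by omega) h2
        have h4 : 0 < kz φ e := hs.1
        omega
    have hsum : t (i + 1) = t i + kz φ e := by omega
    have htr : ∀ k, trk φ z d₀ (t i + k) = trk φ z e k := fun k => trk_add d₀ (t i) k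
    have htr0 : trk φ z d₀ (t i) = trk φ z e 0 := htr 0
    refine ⟨?_, ?_, ?_⟩
    · unfold CL clen
      rw [hsum, Finset.sum_Ico_eq_sum_range, Nat.add_sub_cancel_left, ← Finset.range_eq_Ico]
      refine Finset.sum_congr rfl fun k _ => ?_
      rw [add_assoc, htr, htr]
    · unfold CX carea
      rw [hsum, Finset.sum_Ico_eq_sum_range, Nat.add_sub_cancel_left, ← Finset.range_eq_Ico, htr,
        htr0]
      congr 2
      refine Finset.sum_congr rfl fun k _ => ?_
      rw [add_assoc, htr, htr]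
    · unfold CC
      rw [hsum, htr, htr0]

/-- **the inequality for one region** -/
theorem region_ineq (hz : Cons z) (hK : ∀ s ∉ K, φ s = o) (h : Reg φ v U K)
    (hmark : ∃ d ∈ OB U K, trb φ d) {m : ℝ} (hm0 : 0 < m) (hm3 : m ≤ 3)
    (hα : m ≤ ka * ((∑ d ∈ OB U K, ar z d) / 2))
    (hℓ : ∀ d ∈ OB U K, trb φ d → CL φ z d ≤ 1.013 * m) (Q : Dart → Prop)
    (hQ : ∀ d ∈ OB U K, trb φ d → Q d → ¬ Q ((nx φ)^[kz φ d] d)) :
    2 * m + 1.035 * ∑ d ∈ (OB U K).filter (fun d => trb φ d ∧ Q d), CC φ z d ≤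
      ∑ d ∈ OB U K, len z d +
      ka * ∑ d ∈ (OB U K).filter (fun d => trb φ d ∧ ¬ Q d), CX φ z d +
      ∑ d ∈ (OB U K).filter (fun d => trb φ d ∧ Q d), (CL φ z d + 0.113) +
      0.113 * ((((OB U K).filter (trb φ)).card : ℝ) - 6) := by
  obtain ⟨d₀, h0, hP0⟩ := hmark
  obtain ⟨t, n, hcut, htn, hsum, hch⟩ := marks hz hK h h0 hP0
  have hf : ∀ x ∈ OB U K, nx φ x ∈ OB U K := fun x hx => OB_nx h hx
  have hi : ∀ x ∈ OB U K, ∀ y ∈ OB U K, nx φ x = nx φ y → x = y :=
    fun x hx y hy e => nx_inj (OB_inI h hx) (OB_inI h hy) e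
  have hPi : ∀ i < n, (nx φ)^[t i] d₀ ∈ OB U K := fun i _ => iter_mem hf h0 _
  have hcardn : (n : ℝ) = (((OB U K).filter (trb φ)).card : ℝ) := by
    have := hsum (fun _ => 1)
    simpa using this
  set M := (OB U K).filter (trb φ) with hM
  have hcardn' : n = M.card := by exact_mod_cast hcardn
  -- the return map
  have hMO : ∀ d ∈ M, d ∈ OB U K ∧ trb φ d := fun d hd => Finset.mem_filter.1 hd
  have hσM : ∀ d ∈ M, (nx φ)^[kz φ d] d ∈ M := by
    intro d hd
    obtain ⟨h1, h2⟩ := hMO d hd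
    exact Finset.mem_filter.2 ⟨iter_mem hf h1 _, (kk_spec hf hi h1 h2).2⟩
  have hσinj : ∀ d ∈ M, ∀ e ∈ M, (nx φ)^[kz φ d] d = (nx φ)^[kz φ e] e → d = e := by
    intro d hd e he heq
    exact ret_inj hf hi (hMO d hd).1 (hMO e he).1 (hMO d hd).2 (hMO e he).2 heq
  have hσne : ∀ d ∈ M, (nx φ)^[kz φ d] d ≠ d := by
    intro d hd heq
    have := right_next hK (OB_sub_ID hK h (hMO d hd).1) (hMO d hd).2
    rw [heq] at this
    exact this rfl
  have hn2 : 2 ≤ n := by
    rw [hcardn']
    have hd0M : d₀ ∈ M := Finset.mem_filter.2 ⟨h0, hP0⟩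
    exact Finset.one_lt_card.2 ⟨_, hσM d₀ hd0M, _, hd0M, hσne d₀ hd0M⟩
  -- the exterior chains
  set J := (range n).filter (fun i => Q ((nx φ)^[t i] d₀)) with hJ
  have hJn : 2 * J.card ≤ n := by
    have e1 : (J.card : ℝ) = ((M.filter Q).card : ℝ) := by
      have := hsum (fun d => if Q d then 1 else 0)
      rw [← Finset.sum_filter, ← Finset.sum_filter, Finset.sum_const, Finset.sum_const] at this
      simpa using this
    have e2 : J.card = (M.filter Q).card := by exact_mod_cast e1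
    rw [e2, hcardn']
    have h1 : ((M.filter Q).image (fun d => (nx φ)^[kz φ d] d)).card = (M.filter Q).card := by
      apply Finset.card_image_of_injOn
      intro a ha b hb hab
      exact hσinj a (Finset.mem_filter.1 ha).1 b (Finset.mem_filter.1 hb).1 hab
    have h2 : (M.filter Q).image (fun d => (nx φ)^[kz φ d] d) ⊆ M.filter (fun d => ¬ Q d) := by
      intro x hx
      obtain ⟨d, hd, rfl⟩ := Finset.mem_image.1 hx
      obtain ⟨hd1, hd2⟩ := Finset.mem_filter.1 hd
      exact Finset.mem_filter.2 ⟨hσM d hd1, hQ d (hMO d hd1).1 (hMO d hd1).2 hd2⟩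
    have h3 := Finset.card_le_card h2
    have h4 := Finset.card_filter_add_card_filter_not (s := M) Q
    omega
  have hJr : J ⊆ range n := Finset.filter_subset _ _
  have hpar : par (t n) (trk φ z d₀) / 2 = (∑ d ∈ OB U K, ar z d) / 2 := by
    congr 1
    unfold par
    rw [htn]
    rw [sum_OB h h0 (fun d => ar z d)]
    exact Finset.sum_congr rfl fun k _ => cr_trk hz d₀ k
  have htl : tlen (trk φ z d₀) t n = ∑ d ∈ OB U K, len z d := by
    rw [tlen_eq hcut, htn]
    unfold plen
    rw [sum_OB h h0 (fun d => len z d)]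
    exact Finset.sum_congr rfl fun k _ => norm_trk hz d₀ k
  have hPt : ∀ i < n, trb φ ((nx φ)^[t i] d₀) := by
    have := hsum (fun d => if trb φ d then 0 else 1)
    have h1 : ∑ d ∈ (OB U K).filter (trb φ), (if trb φ d then (0 : ℝ) else 1) = 0 := by
      apply Finset.sum_eq_zero
      intro d hd
      rw [if_pos (Finset.mem_filter.1 hd).2]
    rw [h1, Finset.sum_eq_zero_iff_of_nonneg (fun i _ => by split_ifs <;> norm_num)] at this
    intro i hi
    have h2 := this i (Finset.mem_range.2 hi)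
    by_contra h3
    rw [if_neg h3] at h2
    exact one_ne_zero h2
  have key := face_ineq2 hcut hn2 hm0 hm3 (by rw [hpar]; exact hα)
    (fun i hi => by
      rw [(hch i).1]
      exact hℓ _ (hPi i hi) (hPt i hi)) hJr hJn
  rw [htl] at key
  have s1 : ∑ i ∈ J, ‖trk φ z d₀ (t (i + 1)) - trk φ z d₀ (t i)‖ =
      ∑ d ∈ (OB U K).filter (fun d => trb φ d ∧ Q d), CC φ z d := by
    rw [Finset.sum_congr rfl fun i _ => (hch i).2.2, hJ, Finset.sum_filter,
      hsum (fun d => if Q d then CC φ z d else 0), ← Finset.sum_filter, Finset.filter_filter]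
  have s2 : ∑ i ∈ J, (clen (trk φ z d₀) (t i) (t (i + 1)) + 0.113) =
      ∑ d ∈ (OB U K).filter (fun d => trb φ d ∧ Q d), (CL φ z d + 0.113) := by
    rw [Finset.sum_congr rfl fun i _ => by rw [(hch i).1], hJ, Finset.sum_filter,
      hsum (fun d => if Q d then CL φ z d + 0.113 else 0), ← Finset.sum_filter,
      Finset.filter_filter]
  have s3 : ∑ i ∈ range n \ J, carea (trk φ z d₀) (t i) (t (i + 1)) =
      ∑ d ∈ (OB U K).filter (fun d => trb φ d ∧ ¬ Q d), CX φ z d := by
    have : range n \ J = (range n).filter (fun i => ¬ Q ((nx φ)^[t i] d₀)) := by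
      rw [hJ, ← Finset.filter_not]
    rw [this, Finset.sum_congr rfl fun i _ => (hch i).2.1, Finset.sum_filter,
      hsum (fun d => if ¬ Q d then CX φ z d else 0), ← Finset.sum_filter, Finset.filter_filter]
  rw [s1, s2, s3, hcardn] at key
  exact key

end

end Run7.h761.Lb
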