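import Pool.Agent.Run7.h761.Chain

/-! Rotated copies of a chain: Dido type inequalities. -/

set_option autoImplicit false

namespace Run7.h761

open Finset

theorem cr_rot (u v w : ℂ) (hu : ‖u‖ = 1) : cr (u * v) (u * w) = cr v w := by
  have h1 : u.re ^ 2 + u.im ^ 2 = 1 := by
    have := Complex.normSq_eq_norm_sq u
    rw [hu, Complex.normSq_apply] at this
    linarith
  unfold cr
  simp only [Complex.mul_re, Complex.mul_im]
  linear_combination (v.re * w.im - v.im * w.re) * h1

/-- `m` rotated copies of a chain form a closed polygon -/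
theorem rot_iso {z : ℕ → ℂ} {a b : ℕ} (hab : a ≤ b) (m : ℕ) (hm : 0 < m) (ω o : ℂ)
    (hω : ‖ω‖ = 1) (hωm : ω ^ m = 1) (ho : z b - o = ω * (z a - o)) :
    4 * Real.pi * (m * (carea z a b + cr (z a - o) (z b - o) / 2)) ≤ (m * clen z a b) ^ 2 := by
  rcases hab.lt_or_eq with hlt | heq
  swap
  · subst heq
    have h1 : carea z a a + cr (z a - o) (z a - o) / 2 = 0 := by
      unfold carea cr
      simp
      ring
    rw [h1]
    have := sq_nonneg ((m : ℝ) * clen z a a)
    simpa using this
  · set M := b - a with hM
    have hMpos : 0 < M := by omega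
    set z' : ℕ → ℂ := fun k => o + ω ^ (k / M) * (z (a + k % M) - o) with hz'
    have key : ∀ i k, i * M ≤ k → k ≤ (i + 1) * M →
        z' k = o + ω ^ i * (z (a + (k - i * M)) - o) := by
      intro i k h1 h2
      rcases h2.lt_or_eq with h | h
      · have e1 : k / M = i := by
          apply Nat.div_eq_of_lt_le h1 h
        have e2 : k % M = k - i * M := by
          have := Nat.div_add_mod k M
          rw [e1, mul_comm] at this
          omega
        simp only [hz', e1, e2]
      · have e1 : k / M = i + 1 := by rw [h]; exact Nat.mul_div_cancel _ hMpos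
        have e2 : k % M = 0 := by rw [h]; exact Nat.mul_mod_left _ _
        have e3 : k - i * M = M := by
          rw [h, Nat.add_mul, one_mul]; omega
        simp only [hz', e1, e2, e3, add_zero]
        have e4 : a + M = b := by omega
        rw [e4, ho]
        ring
    have hcut : Cut z' (fun i => i * M) m := by
      refine ⟨by simp, fun i _ => Nat.mul_le_mul_right _ (by omega), ?_⟩
      have e1 : m * M / M = m := Nat.mul_div_cancel _ hMpos
      have e2 : m * M % M = 0 := Nat.mul_mod_left _ _
      simp only [hz', e1, e2, hωm, Nat.zero_div, Nat.zero_mod, pow_zero]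
    have hpw : ∀ i : ℕ, ‖ω ^ i‖ = 1 := fun i => by rw [norm_pow, hω, one_pow]
    have hlen : ∀ i, clen z' (i * M) ((i + 1) * M) = clen z a b := by
      intro i
      unfold clen
      have e1 : Ico (i * M) ((i + 1) * M) = (Ico 0 M).image (fun j => i * M + j) := by
        rw [Finset.image_add_left_Ico]
        congr 1; ring
      have e2 : Ico a b = (Ico 0 M).image (fun j => a + j) := by
        rw [Finset.image_add_left_Ico]
        congr 1; omega
      rw [e1, e2, Finset.sum_image (fun x _ y _ h => by simpa using h),
        Finset.sum_image (fun x _ y _ h => by simpa using h)]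
      refine Finset.sum_congr rfl fun j hj => ?_
      rw [Finset.mem_Ico] at hj
      have hle : i * M + j + 1 ≤ (i + 1) * M := by rw [Nat.add_mul, one_mul]; omega
      rw [key i _ (by omega) hle, key i _ (by omega) (by omega)]
      have e3 : i * M + j + 1 - i * M = j + 1 := by omega
      have e4 : i * M + j - i * M = j := by omega
      rw [e3, e4, ← add_assoc]
      have : o + ω ^ i * (z (a + j + 1) - o) - (o + ω ^ i * (z (a + j) - o)) =
          ω ^ i * (z (a + j + 1) - z (a + j)) := by ring
      rw [this, norm_mul, hpw, one_mul]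
    have har : ∀ i, ∑ k ∈ Ico (i * M) ((i + 1) * M), cr (z' k - o) (z' (k + 1) - o) =
        ∑ k ∈ Ico a b, cr (z k - o) (z (k + 1) - o) := by
      intro i
      have e1 : Ico (i * M) ((i + 1) * M) = (Ico 0 M).image (fun j => i * M + j) := by
        rw [Finset.image_add_left_Ico]
        congr 1; ring
      have e2 : Ico a b = (Ico 0 M).image (fun j => a + j) := by
        rw [Finset.image_add_left_Ico]
        congr 1; omega
      rw [e1, e2, Finset.sum_image (fun x _ y _ h => by simpa using h),
        Finset.sum_image (fun x _ y _ h => by simpa using h)]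
      refine Finset.sum_congr rfl fun j hj => ?_
      rw [Finset.mem_Ico] at hj
      have hle : i * M + j + 1 ≤ (i + 1) * M := by rw [Nat.add_mul, one_mul]; omega
      rw [key i _ (by omega) hle, key i _ (by omega) (by omega)]
      have e3 : i * M + j + 1 - i * M = j + 1 := by omega
      have e4 : i * M + j - i * M = j := by omega
      rw [e3, e4, ← add_assoc, add_sub_cancel_left, add_sub_cancel_left, cr_rot _ _ _ (hpw i)]
    have htl : tlen z' (fun i => i * M) m = m * clen z a b := by
      unfold tlen
      rw [Finset.sum_congr rfl fun i _ => hlen i]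
      simp
    have hiso := iso_ineq (m * M) z' hcut.closed
    have hpar : par (m * M) z' = m * ∑ k ∈ Ico a b, cr (z k - o) (z (k + 1) - o) := by
      rw [← par_translate (m * M) z' hcut.closed o]
      unfold par
      rw [Finset.range_eq_Ico]
      have := sum_chains (fun k => cr (z' k - o) (z' (k + 1) - o)) (fun i => i * M) m
        (fun i _ => Nat.mul_le_mul_right _ (by omega))
      simp only [zero_mul] at this
      rw [← this, Finset.sum_congr rfl fun i _ => har i]
      simp
    have hcar : ∑ k ∈ Ico a b, cr (z k - o) (z (k + 1) - o) =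
        2 * carea z a b + cr (z a - o) (z b - o) := by
      unfold carea
      have h1 : ∀ k, cr (z k - o) (z (k + 1) - o) = cr (z k) (z (k + 1)) -
          (cr o (z (k + 1)) - cr o (z k)) := by
        intro k
        unfold cr
        simp only [Complex.sub_re, Complex.sub_im]
        ring
      rw [Finset.sum_congr rfl fun k _ => h1 k, Finset.sum_sub_distrib,
        Finset.sum_Ico_sub (fun k => cr o (z k)) hab]
      unfold cr
      simp only [Complex.sub_re, Complex.sub_im]
      ring
    have hpl : plen (m * M) z' = m * clen z a b := by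
      have h1 := tlen_eq hcut
      rw [← h1, htl]
    rw [hpar, hpl, hcar] at hiso
    calc _ = 4 * Real.pi * (m * (2 * carea z a b + cr (z a - o) (z b - o)) / 2) := by ring
      _ ≤ _ := hiso

/-- Dido: two copies -/
theorem dido_pos {z : ℕ → ℂ} {a b : ℕ} (hab : a ≤ b) :
    2 * Real.pi * carea z a b ≤ clen z a b ^ 2 := by
  have h := rot_iso hab 2 (by norm_num) (-1) ((z a + z b) / 2) (by simp) (by norm_num)
    (by ring)
  have h1 : cr (z a - (z a + z b) / 2) (z b - (z a + z b) / 2) = 0 := by
    have : z b - (z a + z b) / 2 = -(z a - (z a + z b) / 2) := by ring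
    rw [this]
    unfold cr
    simp only [Complex.neg_re, Complex.neg_im]
    ring
  rw [h1] at h
  push_cast at h
  nlinarith

theorem clen_conj (z : ℕ → ℂ) (a b : ℕ) :
    clen (fun k => (starRingEnd ℂ) (z k)) a b = clen z a b := by
  unfold clen
  refine Finset.sum_congr rfl fun k _ => ?_
  rw [← map_sub, Complex.norm_conj]

theorem carea_conj (z : ℕ → ℂ) (a b : ℕ) :
    carea (fun k => (starRingEnd ℂ) (z k)) a b = -carea z a b := by
  unfold carea
  have h1 : ∀ v w : ℂ, cr ((starRingEnd ℂ) v) ((starRingEnd ℂ) w) = -cr v w := by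
    intro v w
    unfold cr
    simp only [Complex.conj_re, Complex.conj_im]
    ring
  simp only [h1, Finset.sum_neg_distrib]
  ring

theorem dido {z : ℕ → ℂ} {a b : ℕ} (hab : a ≤ b) :
    2 * Real.pi * |carea z a b| ≤ clen z a b ^ 2 := by
  rcases abs_cases (carea z a b) with ⟨h, _⟩ | ⟨h, _⟩
  · rw [h]; exact dido_pos hab
  · rw [h, ← carea_conj, ← clen_conj]; exact dido_pos hab

/-- four copies around a square -/
theorem four_copies {z : ℕ → ℂ} {a b : ℕ} (hab : a ≤ b) :
    Real.pi * (carea z a b + ‖z b - z a‖ ^ 2 / 4) ≤ clen z a b ^ 2 := by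
  set o : ℂ := (z b - Complex.I * z a) / (1 - Complex.I) with ho
  have h1 : (1 - Complex.I) ≠ 0 := by
    intro h
    have := congrArg Complex.re h
    simp at this
  have h2 : z b - o = Complex.I * (z a - o) := by
    have : o * (1 - Complex.I) = z b - Complex.I * z a := by rw [ho]; field_simp
    linear_combination (-1 : ℂ) * this
  have h := rot_iso hab 4 (by norm_num) Complex.I o (by simp) (by
    have : Complex.I ^ 4 = 1 := Complex.I_pow_four
    exact this) h2
  have h3 : cr (z a - o) (z b - o) = ‖z a - o‖ ^ 2 := by
    rw [h2, ← Complex.normSq_eq_norm_sq, Complex.normSq_apply]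
    unfold cr
    simp only [Complex.mul_re, Complex.mul_im, Complex.I_re, Complex.I_im]
    ring
  have h4 : ‖z b - z a‖ ^ 2 = 2 * ‖z a - o‖ ^ 2 := by
    have e : z b - z a = (Complex.I - 1) * (z a - o) := by linear_combination h2
    rw [e, norm_mul, mul_pow]
    congr 1
    rw [← Complex.normSq_eq_norm_sq, Complex.normSq_apply]
    simp; norm_num
  rw [h3] at h
  rw [h4]
  push_cast at h
  nlinarith

/-- in a closed polygon: the square of the length without one side bounds the area -/
theorem side_dido {n : ℕ} (y : ℕ → ℂ) (hy : y n = y 0) {i : ℕ} (hi : i < n) :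
    2 * Real.pi * (par n y / 2) ≤ (plen n y - ‖y (i + 1) - y i‖) ^ 2 := by
  set w : ℕ → ℂ := fun k => y (k % n) with hw
  have hn : 0 < n := by omega
  have hwk : ∀ k, k ≤ n → w k = y k := by
    intro k hk
    simp only [hw]
    rcases hk.lt_or_eq with h | h
    · rw [Nat.mod_eq_of_lt h]
    · rw [h, Nat.mod_self, hy]
  have hper : ∀ k, w (k + n) = w k := fun k => by simp only [hw, Nat.add_mod_right]
  have hab : i + 1 ≤ i + n := by omega
  have h := dido_pos (z := w) hab
  have e1 : ∑ k ∈ range n, ‖w (k + i + 1) - w (k + i)‖ = plen n y := by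
    have := sum_shift n (fun k => ‖w (k + 1) - w k‖) (fun k => by
      rw [show k + n + 1 = k + 1 + n by ring, hper, hper]) i
    rw [this]
    unfold plen
    refine Finset.sum_congr rfl fun k hk => ?_
    rw [Finset.mem_range] at hk
    rw [hwk k (by omega), hwk (k + 1) (by omega)]
  have e2 : ∑ k ∈ range n, cr (w (k + i)) (w (k + i + 1)) = par n y := by
    have := sum_shift n (fun k => cr (w k) (w (k + 1))) (fun k => by
      rw [show k + n + 1 = k + 1 + n by ring, hper, hper]) i
    rw [this]
    unfold par
    refine Finset.sum_congr rfl fun k hk => ?_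
    rw [Finset.mem_range] at hk
    rw [hwk k (by omega), hwk (k + 1) (by omega)]
  have split : ∀ f : ℕ → ℝ, ∑ k ∈ range n, f (k + i) = f i + ∑ k ∈ Ico (i + 1) (i + n), f k := by
    intro f
    rw [Finset.range_eq_Ico, Finset.sum_Ico_add' f 0 n i, zero_add, add_comm n i,
      Finset.sum_eq_sum_Ico_succ_bot (by omega)]
  have s1 := split (fun k => ‖w (k + 1) - w k‖)
  have s2 := split (fun k => cr (w k) (w (k + 1)))
  rw [e1] at s1
  rw [e2] at s2
  have c1 : clen w (i + 1) (i + n) = plen n y - ‖y (i + 1) - y i‖ := by
    unfold clen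
    rw [s1, hwk i hi.le, hwk (i + 1) (by omega)]
    ring
  have c2 : carea w (i + 1) (i + n) = par n y / 2 := by
    unfold carea
    rw [s2, hper i]
    unfold cr
    ring
  rw [c1, c2] at h
  exact h

end Run7.h761
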