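import Pool.Agent.Run7.h761.LabP
import Pool.Agent.Run7.h761.Min2

/-! Choice of the scale. -/

set_option autoImplicit false

namespace Run7.h761

open MeasureTheory Set Filter Topology
open scoped ENNReal

open Lb (dr)

/-- the six directions as vectors -/
noncomputable def ev (j : Fin 6) : Plane := !₂[((dr j).1 : ℝ), ((dr j).2 : ℝ)]

theorem ev_zero (j : Fin 6) : ev j 0 = (dr j).1 := rfl

theorem ev_one (j : Fin 6) : ev j 1 = (dr j).2 := rfl

theorem norm_ev_le (j : Fin 6) : ‖ev j‖ ≤ 3 / 2 := by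
  rw [EuclideanSpace.norm_eq, Fin.sum_univ_two, ev_zero, ev_one]
  have h1 := Lb.dr_vals j
  have h2 : Real.sqrt (‖((dr j).1 : ℝ)‖ ^ 2 + ‖((dr j).2 : ℝ)‖ ^ 2) ≤ Real.sqrt ((3 / 2) ^ 2) := by
    apply Real.sqrt_le_sqrt
    rcases h1.1 with h | h | h <;> rcases h1.2 with h' | h' | h' <;> rw [h, h'] <;> norm_num
  rwa [Real.sqrt_sq (by norm_num)] at h2

section

variable {N : ℕ} {l : Plane → Fin (N + 1)}

/-- sum over the six directions -/
noncomputable def DT (l : Plane → Fin (N + 1)) (t : ℝ) : ℝ := ∑ j : Fin 6, DR l (t • ev j)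

theorem DT_nonneg (t : ℝ) : 0 ≤ DT l t := Finset.sum_nonneg fun _ _ => DR_nonneg _

theorem DT_le (hl : LabOK l) {t : ℝ} (ht : 0 ≤ t) : DT l t ≤ 9 * PT l * t := by
  unfold DT
  have h : ∀ j ∈ (Finset.univ : Finset (Fin 6)), DR l (t • ev j) ≤ 3 / 2 * PT l * t := by
    intro j _
    refine (DR_le hl _).trans ?_
    rw [norm_smul, Real.norm_eq_abs, abs_of_nonneg ht]
    have h1 := norm_ev_le j
    have h2 : PT l * t * ‖ev j‖ ≤ PT l * t * (3 / 2) :=
      mul_le_mul_of_nonneg_left h1 (mul_nonneg PT_nonneg ht)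
    linarith
  have := Finset.sum_le_card_nsmul _ _ _ h
  rw [Finset.card_univ, Fintype.card_fin, nsmul_eq_mul] at this
  push_cast at this
  linarith

theorem exists_scale (hl : LabOK l) {η : ℝ} (hη : 0 < η) : ∃ Ps M : ℝ, 0 ≤ Ps ∧ 0 < M ∧
    (∀ t, 0 < t → DT l t ≤ Ps * t) ∧ (Ps - η) * M ≤ DT l M := by
  set S : Set ℝ := (fun t => DT l t / t) '' Ioi 0 with hS
  have hne : S.Nonempty := ⟨_, 1, by simp, rfl⟩
  have hbd : BddAbove S := by
    refine ⟨9 * PT l, ?_⟩
    rintro _ ⟨t, ht, rfl⟩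
    have ht' : 0 < t := ht
    simp only
    rw [div_le_iff₀ ht']
    exact DT_le hl ht'.le
  obtain ⟨x, ⟨M, hM, rfl⟩, hx⟩ := exists_lt_of_lt_csSup hne (show sSup S - η < sSup S by linarith)
  have hM' : 0 < M := hM
  refine ⟨sSup S, M, ?_, hM', ?_, ?_⟩
  · have h1 : DT l M / M ≤ sSup S := le_csSup hbd ⟨M, hM, rfl⟩
    exact (div_nonneg (DT_nonneg M) hM'.le).trans h1
  · intro t ht
    have h1 : DT l t / t ≤ sSup S := le_csSup hbd ⟨t, ht, rfl⟩
    rwa [div_le_iff₀ ht] at h1
  · simp only at hx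
    rw [lt_div_iff₀ hM'] at hx
    exact hx.le

theorem DT_smul (hl : LabOK l) (K : ℕ) (t : ℝ) : DT l (K * t) ≤ K * DT l t := by
  unfold DT
  rw [Finset.mul_sum]
  refine Finset.sum_le_sum fun j _ => ?_
  rw [mul_smul]
  exact DR_smul_nat hl K _

theorem triple_small (hl : LabOK l) {η Ps M : ℝ} (hPs : 0 ≤ Ps) (hM : 0 < M)
    (h1 : ∀ t, 0 < t → DT l t ≤ Ps * t) (h2 : (Ps - η) * M ≤ DT l M) {K : ℕ} (hK : 0 < K) (j : Fin 6) :
    (TE l ((M / K) • ev j) ((M / K) • ev (j + 1))).toReal ≤ (M / K) * (3 * η + 4 * Ps / K) := by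
  have hK' : (0 : ℝ) < K := by exact_mod_cast hK
  set δ := M / K with hδ
  have hδ0 : 0 < δ := by positivity
  have hKδ : (K : ℝ) * δ = M := by rw [hδ]; field_simp
  have hs := strip_bound hl (δ • ev j) (δ • ev (j + 1)) K
  have e : (K : ℝ) • δ • ev j = M • ev j := by rw [← mul_smul, hKδ]
  rw [e] at hs
  have h3 : K * DR l (δ • ev j) - DR l (M • ev j) ≤ K * DT l δ - DT l M := by
    unfold DT
    rw [Finset.mul_sum, ← Finset.sum_sub_distrib]
    have hnn : ∀ i ∈ (Finset.univ : Finset (Fin 6)), 0 ≤ K * DR l (δ • ev i) - DR l (M • ev i) := by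
      intro i _
      have := DR_smul_nat hl K (δ • ev i)
      rw [← mul_smul, hKδ] at this
      linarith
    exact Finset.single_le_sum (f := fun i => K * DR l (δ • ev i) - DR l (M • ev i)) hnn
      (Finset.mem_univ j)
  have h4 : K * DT l δ - DT l M ≤ η * M := by
    have a1 := h1 δ hδ0
    have a2 : K * DT l δ ≤ K * (Ps * δ) := mul_le_mul_of_nonneg_left a1 hK'.le
    have a3 : K * (Ps * δ) = Ps * M := by rw [← hKδ]; ring
    linarith
  have h5 : DR l (δ • ev (j + 1)) ≤ Ps * δ := by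
    refine le_trans ?_ (h1 δ hδ0)
    unfold DT
    exact Finset.single_le_sum (f := fun i => DR l (δ • ev i)) (fun i _ => DR_nonneg _)
      (Finset.mem_univ (j + 1))
  have h6 : K * (TE l (δ • ev j) (δ • ev (j + 1))).toReal ≤ 3 * (η * M) + 4 * (Ps * δ) := by
    linarith
  have h7 : K * (δ * (3 * η + 4 * Ps / K)) = 3 * (η * M) + 4 * (Ps * δ) := by
    rw [← hKδ]; field_simp
  rw [← h7] at h6
  exact le_of_mul_le_mul_left h6 hK'

/-- excess of label changes along a segment -/
noncomputable def exv (l : Plane → Fin (N + 1)) (x a : Plane) : ℝ :=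
  ∫ t, ((ne (l x) (l (x + t • a)) : ℝ) + (ne (l (x + t • a)) (l (x + a)) : ℝ)) ∂nu -
    (ne (l x) (l (x + a)) : ℝ)

theorem measurable_ne_real {α : Type*} [MeasurableSpace α] {f g : α → Fin (N + 1)}
    (hf : Measurable f) (hg : Measurable g) : Measurable fun x => (ne (f x) (g x) : ℝ) := by
  have h : Measurable fun p : Fin (N + 1) × Fin (N + 1) => (ne p.1 p.2 : ℝ) := measurable_of_countable _
  exact h.comp (hf.prodMk hg)

theorem ne_real_nonneg (a b : Fin (N + 1)) : (0 : ℝ) ≤ ne a b := Nat.cast_nonneg _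

theorem ne_real_le (a b : Fin (N + 1)) : (ne a b : ℝ) ≤ 1 := by exact_mod_cast ne_le_one a b

theorem measurable_line (x a : Plane) : Measurable fun t : ℝ => x + t • a := by
  have : Continuous fun t : ℝ => x + t • a := by fun_prop
  exact this.measurable

theorem integrable_ne1 (hl : LabOK l) (x a : Plane) :
    Integrable (fun t => (ne (l x) (l (x + t • a)) : ℝ)) nu := by
  apply Integrable.of_bound (C := 1)
  · exact (measurable_ne_real measurable_const (hl.meas.comp (measurable_line x a))).aestronglyMeasurable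
  · refine Eventually.of_forall fun t => ?_
    rw [Real.norm_eq_abs, abs_of_nonneg (ne_real_nonneg _ _)]
    exact ne_real_le _ _

theorem integrable_ne2 (hl : LabOK l) (x a b : Plane) :
    Integrable (fun t => (ne (l (x + t • a)) (l b) : ℝ)) nu := by
  apply Integrable.of_bound (C := 1)
  · exact (measurable_ne_real (hl.meas.comp (measurable_line x a)) measurable_const).aestronglyMeasurable
  · refine Eventually.of_forall fun t => ?_
    rw [Real.norm_eq_abs, abs_of_nonneg (ne_real_nonneg _ _)]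
    exact ne_real_le _ _

theorem exv_nonneg (hl : LabOK l) (x a : Plane) : 0 ≤ exv l x a := by
  unfold exv
  rw [sub_nonneg]
  calc (ne (l x) (l (x + a)) : ℝ) = ∫ t, (ne (l x) (l (x + a)) : ℝ) ∂nu := by
        rw [integral_const, nu_univ]; simp
    _ ≤ _ := by
        apply integral_mono (integrable_const _) ((integrable_ne1 hl x a).add (integrable_ne2 hl x a _))
        intro t
        have := ne_tri (l x) (l (x + t • a)) (l (x + a))
        show (ne (l x) (l (x + a)) : ℝ) ≤ (ne (l x) (l (x + t • a)) : ℝ) + (ne (l (x + t • a)) (l (x + a)) : ℝ)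
        exact_mod_cast this

theorem exv_pt (hl : LabOK l) (x a : Plane) :
    ENNReal.ofReal (exv l x a) + (ne (l x) (l (x + a)) : ℝ≥0∞) =
      ∫⁻ t, ((ne (l x) (l (x + t • a)) : ℝ≥0∞) + (ne (l (x + t • a)) (l (x + a)) : ℝ≥0∞)) ∂nu := by
  have h1 : (ne (l x) (l (x + a)) : ℝ≥0∞) = ENNReal.ofReal (ne (l x) (l (x + a)) : ℝ) := by simp
  rw [h1, ← ENNReal.ofReal_add (exv_nonneg hl x a) (ne_real_nonneg _ _)]
  unfold exv
  have hi : Integrable (fun t => (ne (l x) (l (x + t • a)) : ℝ) +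
      (ne (l (x + t • a)) (l (x + a)) : ℝ)) nu :=
    (integrable_ne1 hl x a).add (integrable_ne2 hl x a _)
  rw [sub_add_cancel, ofReal_integral_eq_lintegral_ofReal hi
    (Eventually.of_forall fun t => add_nonneg (ne_real_nonneg _ _) (ne_real_nonneg _ _))]
  congr 1
  funext t
  rw [ENNReal.ofReal_add (ne_real_nonneg _ _) (ne_real_nonneg _ _)]
  simp

theorem measurable_pair (hl : LabOK l) (a : Plane) :
    Measurable fun z : Plane × ℝ => l (z.1 + z.2 • a) := by
  apply hl.meas.comp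
  have : Continuous fun z : Plane × ℝ => z.1 + z.2 • a := by fun_prop
  exact this.measurable

theorem exv_int (hl : LabOK l) (a : Plane) :
    (∫⁻ x, ENNReal.ofReal (exv l x a)) + DE l a =
      ∫⁻ t, (DE l (t • a) + DE l ((1 - t) • a)) ∂nu := by
  have hm1 : Measurable fun z : Plane × ℝ => (ne (l z.1) (l (z.1 + z.2 • a)) : ℝ≥0∞) :=
    measurable_ne (hl.meas.comp measurable_fst) (measurable_pair hl a)
  have hm2 : Measurable fun z : Plane × ℝ => (ne (l (z.1 + z.2 • a)) (l (z.1 + a)) : ℝ≥0∞) :=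
    measurable_ne (measurable_pair hl a) ((measurable_shift hl a).comp measurable_fst)
  have e1 : (∫⁻ x, ENNReal.ofReal (exv l x a)) + DE l a =
      ∫⁻ x, ∫⁻ t, ((ne (l x) (l (x + t • a)) : ℝ≥0∞) + (ne (l (x + t • a)) (l (x + a)) : ℝ≥0∞)) ∂nu := by
    unfold DE
    rw [← lintegral_add_right _ (measurable_ne hl.meas (measurable_shift hl a))]
    congr 1
    funext x
    exact exv_pt hl x a
  rw [e1, lintegral_lintegral_swap]
  · congr 1
    funext t
    rw [lintegral_add_left]
    · congr 1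
      have := DE_gen hl (t • a) a
      rw [this]
      congr 1
      rw [sub_smul, one_smul]
    · exact measurable_ne hl.meas (measurable_shift hl _)
  · exact (hm1.add hm2).aemeasurable

theorem exv_small (hl : LabOK l) {η Ps M : ℝ} (hPs : 0 ≤ Ps) (hM : 0 < M)
    (h1 : ∀ t, 0 < t → DT l t ≤ Ps * t) (h2 : (Ps - η) * M ≤ DT l M) {K : ℕ} (hK : 0 < K) :
    ∑ j : Fin 6, ∫⁻ x, ENNReal.ofReal (exv l x ((M / K) • ev j)) ≤ ENNReal.ofReal (η * (M / K)) := by
  have hK' : (0 : ℝ) < K := by exact_mod_cast hK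
  set δ := M / K with hδ
  have hδ0 : 0 < δ := by positivity
  have hKδ : (K : ℝ) * δ = M := by rw [hδ]; field_simp
  have hDE : ∀ h, DE l h = ENNReal.ofReal (DR l h) := fun h =>
    (ENNReal.ofReal_toReal (DE_ne_top hl h)).symm
  have hsum : ∀ t : ℝ, ∑ j : Fin 6, DE l (t • ev j) = ENNReal.ofReal (DT l t) := by
    intro t
    unfold DT
    rw [ENNReal.ofReal_sum_of_nonneg fun i _ => DR_nonneg _]
    exact Finset.sum_congr rfl fun j _ => hDE _
  have key : (∑ j : Fin 6, ∫⁻ x, ENNReal.ofReal (exv l x (δ • ev j))) + ENNReal.ofReal (DT l δ) ≤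
      ENNReal.ofReal (Ps * δ) := by
    rw [← hsum, ← Finset.sum_add_distrib, Finset.sum_congr rfl fun j _ => exv_int hl (δ • ev j)]
    have hm : ∀ j : Fin 6, Measurable fun t : ℝ => DE l (t • δ • ev j) + DE l ((1 - t) • δ • ev j) := by
      intro j
      have hm1 : Measurable fun z : ℝ × Plane => (ne (l z.2) (l (z.2 + z.1 • δ • ev j)) : ℝ≥0∞) :=
        measurable_ne (hl.meas.comp measurable_snd) ((measurable_pair hl _).comp measurable_swap)
      have h3 : Measurable fun t : ℝ => DE l (t • δ • ev j) := hm1.lintegral_prod_right'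
      have h4 : Measurable fun t : ℝ => DE l ((1 - t) • δ • ev j) :=
        h3.comp (measurable_const.sub measurable_id)
      exact h3.add h4
    rw [← lintegral_finsetSum _ fun j _ => hm j]
    have hb : ∀ᵐ t ∂nu, ∑ j : Fin 6, (DE l (t • δ • ev j) + DE l ((1 - t) • δ • ev j)) ≤
        ENNReal.ofReal (Ps * δ) := by
      have hmem : ∀ᵐ t ∂nu, t ∈ Ioc (0 : ℝ) 1 := by
        unfold nu
        exact ae_restrict_mem measurableSet_Ioc
      filter_upwards [hmem] with t ht
      rw [Finset.sum_add_distrib]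
      simp only [← mul_smul]
      rw [hsum, hsum, ← ENNReal.ofReal_add (DT_nonneg _) (DT_nonneg _)]
      apply ENNReal.ofReal_le_ofReal
      have a1 := h1 (t * δ) (mul_pos ht.1 hδ0)
      rcases eq_or_lt_of_le ht.2 with h5 | h5
      · subst h5
        have : DT l ((1 - 1) * δ) ≤ 0 := by
          have := DT_le hl (t := 0) le_rfl
          simpa using this
        linarith
      · have a2 := h1 ((1 - t) * δ) (mul_pos (by linarith) hδ0)
        nlinarith
    calc ∫⁻ t, ∑ j : Fin 6, (DE l (t • δ • ev j) + DE l ((1 - t) • δ • ev j)) ∂nu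
        ≤ ∫⁻ t, ENNReal.ofReal (Ps * δ) ∂nu := lintegral_mono_ae hb
      _ = ENNReal.ofReal (Ps * δ) := by
          rw [lintegral_const]
          have : nu univ = 1 := by
            unfold nu
            simp
          rw [this, mul_one]
  have h3 : (Ps - η) * δ ≤ DT l δ := by
    have a1 := DT_smul hl K δ
    rw [hKδ] at a1
    have a2 : (Ps - η) * (K * δ) ≤ K * DT l δ := by rw [hKδ]; linarith
    have a3 : K * ((Ps - η) * δ) ≤ K * DT l δ := by linarith
    exact le_of_mul_le_mul_left a3 hK'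
  have h4 := ENNReal.le_sub_of_add_le_right ENNReal.ofReal_ne_top key
  rw [← ENNReal.ofReal_sub _ (DT_nonneg _)] at h4
  refine h4.trans (ENNReal.ofReal_le_ofReal ?_)
  linarith

end

end Run7.h761
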