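import Pool.Agent.Run7.h761.Poly

/-! Separation of polygons, windows. -/

set_option autoImplicit false

namespace Run7.h761

open MeasureTheory Set

/-- the open triangle with integer vertices -/
noncomputable def triE (T : V × V × V) : Set Plane :=
  tri (emb T.1) (emb T.2.1 - emb T.1) (emb T.2.2 - emb T.1)

theorem mem_cell {P : Poly} {z : Plane} : z ∈ cell P ↔ ∃ T ∈ tris P, z ∈ triE T := by
  cases P with
  | nil => simp [cell, tris]
  | cons a l =>
    have e : (l.map fun b => emb b.v) = (l.map fun b => b.v).map emb := by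
      simp [Function.comp_def]
    unfold cell tris
    rw [mem_fan, e, consec_map]
    constructor
    · rintro ⟨f, hf, hz⟩
      obtain ⟨g, hg, rfl⟩ := List.mem_map.1 hf
      exact ⟨_, List.mem_map.2 ⟨g, hg, rfl⟩, hz⟩
    · rintro ⟨T, hT, hz⟩
      obtain ⟨g, hg, rfl⟩ := List.mem_map.1 hT
      exact ⟨_, List.mem_map.2 ⟨g, hg, rfl⟩, hz⟩

/-- a point of an open triangle is a positive combination of the vertices -/
theorem mem_triE {T : V × V × V} {z : Plane} (h : z ∈ triE T) :
    ∃ a b c : ℝ, 0 < a ∧ 0 < b ∧ 0 < c ∧ a + b + c = 1 ∧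
      z = a • emb T.1 + b • emb T.2.1 + c • emb T.2.2 := by
  obtain ⟨w, ⟨h1, h2, h3⟩, rfl⟩ := h
  refine ⟨1 - w.1 - w.2, w.1, w.2, by linarith, h1, h2, by ring, ?_⟩
  unfold amap
  ext i
  simp
  ring

/-- all vertices of `T` are on the right side of the line from `p` to `q` -/
def rightOf (p q : V) (T : V × V × V) : Bool :=
  decide (orient p q T.1 ≤ 0) && (decide (orient p q T.2.1 ≤ 0) && decide (orient p q T.2.2 ≤ 0))

/-- one of the edge lines of `T` separates `T` and `T'` -/
def sepE (T T' : V × V × V) : Bool :=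
  rightOf T.1 T.2.1 T' || (rightOf T.2.1 T.2.2 T' || rightOf T.2.2 T.1 T')

/-- the triangles `T`, `T'` are separated by one of their edge lines -/
def sepT (T T' : V × V × V) : Bool := sepE T T' || sepE T' T

/-- separation of polygons -/
def sepP (P P' : Poly) : Bool := (tris P).all fun T => (tris P').all fun T' => sepT T T'

theorem rightOf_iff {p q : V} {T : V × V × V} : rightOf p q T = true ↔
    orient p q T.1 ≤ 0 ∧ orient p q T.2.1 ≤ 0 ∧ orient p q T.2.2 ≤ 0 := by
  simp [rightOf]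

theorem om_comb (w p : Plane) {x y z : Plane} {a b c : ℝ} (h : a + b + c = 1) :
    om w (a • x + b • y + c • z - p) = a * om w (x - p) + b * om w (y - p) + c * om w (z - p) := by
  have : a • x + b • y + c • z - p = a • (x - p) + b • (y - p) + c • (z - p) := by
    have hp : p = (a + b + c) • p := by rw [h, one_smul]
    nth_rewrite 1 [hp]
    ext i
    simp
    ring
  rw [this, om_add_right, om_add_right, om_smul_right, om_smul_right, om_smul_right]

theorem rightOf_nonpos {p q : V} {T : V × V × V} (h : rightOf p q T = true) {z : Plane}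
    (hz : z ∈ triE T) : om (emb q - emb p) (z - emb p) ≤ 0 := by
  obtain ⟨a, b, c, ha, hb, hc, h1, rfl⟩ := mem_triE hz
  obtain ⟨h2, h3, h4⟩ := rightOf_iff.1 h
  rw [om_comb _ _ h1]
  have e2 := om_emb_nonpos h2
  have e3 := om_emb_nonpos h3
  have e4 := om_emb_nonpos h4
  nlinarith [mul_nonneg ha.le (neg_nonneg.2 e2), mul_nonneg hb.le (neg_nonneg.2 e3),
    mul_nonneg hc.le (neg_nonneg.2 e4)]

theorem orient_cyc (x y z : V) : orient y z x = orient x y z := by
  unfold orient; ring

theorem orient_self_right (x y : V) : orient x y y = 0 := by unfold orient; ring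

theorem orient_self_left (x y : V) : orient x y x = 0 := by unfold orient; ring

theorem om_pos_of_mem {T : V × V × V} (h : 0 < orient T.1 T.2.1 T.2.2) {z : Plane}
    (hz : z ∈ triE T) : 0 < om (emb T.2.1 - emb T.1) (z - emb T.1) ∧
      0 < om (emb T.2.2 - emb T.2.1) (z - emb T.2.1) ∧
      0 < om (emb T.1 - emb T.2.2) (z - emb T.2.2) := by
  obtain ⟨a, b, c, ha, hb, hc, h1, rfl⟩ := mem_triE hz
  have z1 : ∀ x y : V, om (emb y - emb x) (emb y - emb x) = 0 := fun x y => om_self _
  have z2 : ∀ x y : V, om (emb y - emb x) (emb x - emb x) = 0 := fun x y => by simp [om]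
  refine ⟨?_, ?_, ?_⟩
  · rw [om_comb _ _ h1, z1, z2]
    have := om_emb_pos h
    nlinarith [mul_pos hc this]
  · rw [om_comb _ _ h1, z1, z2]
    have h' : 0 < orient T.2.1 T.2.2 T.1 := by rw [orient_cyc]; exact h
    have := om_emb_pos h'
    nlinarith [mul_pos ha this]
  · rw [om_comb _ _ h1, z1, z2]
    have h' : 0 < orient T.2.2 T.1 T.2.1 := by rw [orient_cyc, orient_cyc]; exact h
    have := om_emb_pos h'
    nlinarith [mul_pos hb this]

theorem sepE_disjoint {T T' : V × V × V} (h : 0 < orient T.1 T.2.1 T.2.2)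
    (hs : sepE T T' = true) : Disjoint (triE T) (triE T') := by
  rw [Set.disjoint_left]
  intro z hz hz'
  obtain ⟨h1, h2, h3⟩ := om_pos_of_mem h hz
  unfold sepE at hs
  rw [Bool.or_eq_true, Bool.or_eq_true] at hs
  rcases hs with hs | hs | hs
  · exact absurd (rightOf_nonpos hs hz') (not_le.2 h1)
  · exact absurd (rightOf_nonpos hs hz') (not_le.2 h2)
  · exact absurd (rightOf_nonpos hs hz') (not_le.2 h3)

theorem sepT_disjoint {T T' : V × V × V} (h : 0 < orient T.1 T.2.1 T.2.2)
    (h' : 0 < orient T'.1 T'.2.1 T'.2.2) (hs : sepT T T' = true) :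
    Disjoint (triE T) (triE T') := by
  unfold sepT at hs
  rw [Bool.or_eq_true] at hs
  rcases hs with hs | hs
  · exact sepE_disjoint h hs
  · exact (sepE_disjoint h' hs).symm

theorem consec_pairwise {α : Type*} {R : α → α → Prop} : ∀ {l : List α}, l.Pairwise R →
    ∀ e ∈ consec l, R e.1 e.2
  | [], _, e, he => by simp [consec] at he
  | [_], _, e, he => by simp [consec] at he
  | x :: y :: l, h, e, he => by
    have h' := List.pairwise_cons.1 h
    simp only [consec, List.mem_cons] at he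
    rcases he with rfl | he
    · exact h'.1 y (by simp)
    · exact consec_pairwise h'.2 e he

theorem tris_pos {P : Poly} (h : FanOK P) : ∀ T ∈ tris P, 0 < orient T.1 T.2.1 T.2.2 := by
  intro T hT
  cases P with
  | nil => exact h.elim
  | cons a l =>
    cases l with
    | nil => exact h.elim
    | cons b l =>
      unfold tris at hT
      obtain ⟨e, he, rfl⟩ := List.mem_map.1 hT
      exact consec_pairwise h e he

theorem sepP_disjoint {P P' : Poly} (h : FanOK P) (h' : FanOK P') (hs : sepP P P' = true) :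
    Disjoint (cell P) (cell P') := by
  rw [Set.disjoint_left]
  intro z hz hz'
  obtain ⟨T, hT, hzT⟩ := mem_cell.1 hz
  obtain ⟨T', hT', hzT'⟩ := mem_cell.1 hz'
  have h1 := List.all_eq_true.1 hs T hT
  have h2 := List.all_eq_true.1 h1 T' hT'
  exact Set.disjoint_left.1 (sepT_disjoint (tris_pos h T hT) (tris_pos h' T' hT') h2) hzT hzT'

/-! ### windows -/

/-- real linear forms on the plane in hexagonal coordinates, times `√3` -/
noncomputable def lfr (α β : ℝ) (z : Plane) : ℝ :=
  α * (z 0 / √3 - z 1 / 3) + β * (z 1 * 2 / 3)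

theorem lfr_emb (α β : ℝ) (v : V) : lfr α β (emb v) = (α * v.1 + β * v.2) / (DD : ℝ) := by
  unfold lfr
  rw [emb_zero, emb_one]
  have h := DD_pos.ne'
  have h3 : √3 ≠ 0 := by positivity
  field_simp
  ring

theorem lfr_comb (α β : ℝ) (x y z : Plane) (a b c : ℝ) :
    lfr α β (a • x + b • y + c • z) = a * lfr α β x + b * lfr α β y + c * lfr α β z := by
  unfold lfr
  simp only [PiLp.add_apply, PiLp.smul_apply, smul_eq_mul]
  ring

/-- the vertices of `P` are in the window around `p` -/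
def InWin (p : V) (P : Poly) : Prop := ∀ a ∈ P,
  (2 * |2 * (a.v.1 - DD * p.1) + (a.v.2 - DD * p.2)| < 3 * DD) ∧
  (2 * |(a.v.1 - DD * p.1) + 2 * (a.v.2 - DD * p.2)| < 3 * DD) ∧
  (2 * |(a.v.1 - DD * p.1) - (a.v.2 - DD * p.2)| < 3 * DD)

theorem consec_mem {α : Type*} : ∀ {l : List α}, ∀ e ∈ consec l, e.1 ∈ l ∧ e.2 ∈ l
  | [], e, he => by simp [consec] at he
  | [_], e, he => by simp [consec] at he
  | x :: y :: l, e, he => by
    simp only [consec, List.mem_cons] at he
    rcases he with rfl | he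
    · simp
    · have := consec_mem (l := y :: l) e he
      exact ⟨List.mem_cons_of_mem _ this.1, List.mem_cons_of_mem _ this.2⟩

theorem tris_mem {P : Poly} {T : V × V × V} (hT : T ∈ tris P) :
    (∃ a ∈ P, T.1 = a.v) ∧ (∃ a ∈ P, T.2.1 = a.v) ∧ (∃ a ∈ P, T.2.2 = a.v) := by
  cases P with
  | nil => simp [tris] at hT
  | cons a l =>
    unfold tris at hT
    obtain ⟨e, he, rfl⟩ := List.mem_map.1 hT
    obtain ⟨h1, h2⟩ := consec_mem e he
    obtain ⟨b, hb, hb'⟩ := List.mem_map.1 h1
    obtain ⟨c, hc, hc'⟩ := List.mem_map.1 h2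
    exact ⟨⟨a, by simp, rfl⟩, ⟨b, List.mem_cons_of_mem _ hb, hb'.symm⟩,
      ⟨c, List.mem_cons_of_mem _ hc, hc'.symm⟩⟩

/-- a strict bound of a linear form at the vertices holds on the cell -/
theorem cell_form_lt {P : Poly} {α β m M : ℝ}
    (h : ∀ a ∈ P, m < lfr α β (emb a.v) ∧ lfr α β (emb a.v) < M) {z : Plane} (hz : z ∈ cell P) :
    m < lfr α β z ∧ lfr α β z < M := by
  obtain ⟨T, hT, hz⟩ := mem_cell.1 hz
  obtain ⟨a, b, c, ha, hb, hc, h1, rfl⟩ := mem_triE hz
  obtain ⟨⟨p, hp, e1⟩, ⟨q, hq, e2⟩, ⟨r, hr, e3⟩⟩ := tris_mem hT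
  rw [lfr_comb, e1, e2, e3]
  obtain ⟨p1, p2⟩ := h p hp
  obtain ⟨q1, q2⟩ := h q hq
  obtain ⟨r1, r2⟩ := h r hr
  have hm : m = a * m + b * m + c * m := by rw [← add_mul, ← add_mul, h1, one_mul]
  have hM : M = a * M + b * M + c * M := by rw [← add_mul, ← add_mul, h1, one_mul]
  constructor
  · linarith [mul_lt_mul_of_pos_left p1 ha, mul_lt_mul_of_pos_left q1 hb,
      mul_lt_mul_of_pos_left r1 hc]
  · linarith [mul_lt_mul_of_pos_left p2 ha, mul_lt_mul_of_pos_left q2 hb,
      mul_lt_mul_of_pos_left r2 hc]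

theorem win_aux {α β : ℤ} {p v : V}
    (h : 2 * |α * (v.1 - DD * p.1) + β * (v.2 - DD * p.2)| < 3 * DD) :
    (α * p.1 + β * p.2 : ℝ) - 3 / 2 < lfr α β (emb v) ∧
      lfr α β (emb v) < (α * p.1 + β * p.2 : ℝ) + 3 / 2 := by
  rw [lfr_emb]
  have hD := DD_pos
  have h' : (2 : ℝ) * |(α : ℝ) * (v.1 - DD * p.1) + β * (v.2 - DD * p.2)| < 3 * DD := by
    exact_mod_cast h
  have h2 : |(α : ℝ) * (v.1 - DD * p.1) + β * (v.2 - DD * p.2)| < 3 / 2 * DD := by linarith
  obtain ⟨h3, h4⟩ := abs_lt.1 h2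
  rw [lt_div_iff₀ hD, div_lt_iff₀ hD]
  constructor
  · linarith
  · linarith

theorem far_disjoint {p p' : V} {P P' : Poly} (h : InWin p P) (h' : InWin p' P')
    (hf : 3 ≤ |2 * (p.1 - p'.1) + (p.2 - p'.2)| ∨ 3 ≤ |(p.1 - p'.1) + 2 * (p.2 - p'.2)| ∨
      3 ≤ |(p.1 - p'.1) - (p.2 - p'.2)|) : Disjoint (cell P) (cell P') := by
  rw [Set.disjoint_left]
  intro z hz hz'
  have key : ∀ α β : ℤ, (∀ a ∈ P, 2 * |α * (a.v.1 - DD * p.1) + β * (a.v.2 - DD * p.2)| < 3 * DD) →
      (∀ a ∈ P', 2 * |α * (a.v.1 - DD * p'.1) + β * (a.v.2 - DD * p'.2)| < 3 * DD) →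
      |α * (p.1 - p'.1) + β * (p.2 - p'.2)| < 3 := by
    intro α β h1 h2
    have e1 := cell_form_lt (α := α) (β := β) (fun a ha => win_aux (h1 a ha)) hz
    have e2 := cell_form_lt (α := α) (β := β) (fun a ha => win_aux (h2 a ha)) hz'
    have : |((α * (p.1 - p'.1) + β * (p.2 - p'.2) : ℤ) : ℝ)| < 3 := by
      push_cast
      rw [abs_lt]
      constructor <;> linarith [e1.1, e1.2, e2.1, e2.2]
    exact_mod_cast this
  rcases hf with hf | hf | hf
  · have := key 2 1 (fun a ha => by simpa using (h a ha).1) (fun a ha => by simpa using (h' a ha).1)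
    simp only [one_mul] at this
    omega
  · have := key 1 2 (fun a ha => by simpa using (h a ha).2.1)
      (fun a ha => by simpa using (h' a ha).2.1)
    simp only [one_mul] at this
    omega
  · have := key 1 (-1) (fun a ha => by
        have := (h a ha).2.2
        rw [show (1 : ℤ) * (a.v.1 - DD * p.1) + (-1) * (a.v.2 - DD * p.2) =
          (a.v.1 - DD * p.1) - (a.v.2 - DD * p.2) by ring]
        exact this) (fun a ha => by
        have := (h' a ha).2.2
        rw [show (1 : ℤ) * (a.v.1 - DD * p'.1) + (-1) * (a.v.2 - DD * p'.2) =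
          (a.v.1 - DD * p'.1) - (a.v.2 - DD * p'.2) by ring]
        exact this)
    rw [show (1 : ℤ) * (p.1 - p'.1) + (-1) * (p.2 - p'.2) = (p.1 - p'.1) - (p.2 - p'.2) by ring]
      at this
    omega

end Run7.h761
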