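import Pool.Agent.Run7.h761.Field

/-! Translations and triangle fluxes of sets of finite perimeter. -/

set_option autoImplicit false

namespace Run7.h761

open MeasureTheory Set Filter Topology
open scoped ENNReal

/-- the real valued perimeter -/
noncomputable def PerR (E : Set Plane) : ℝ := (perimeter E).toReal

theorem PerR_nonneg (E : Set Plane) : 0 ≤ PerR E := ENNReal.toReal_nonneg

/-- characteristic function -/
noncomputable def ch (E : Set Plane) (x : Plane) : ℝ := E.indicator (fun _ => (1 : ℝ)) x

theorem ch_nonneg (E : Set Plane) (x : Plane) : 0 ≤ ch E x := indicator_nonneg (fun _ _ => zero_le_one) x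

theorem ch_le (E : Set Plane) (x : Plane) : ch E x ≤ 1 := by
  unfold ch
  by_cases h : x ∈ E
  · rw [indicator_of_mem h]
  · rw [indicator_of_notMem h]; exact zero_le_one

theorem measurable_ch {E : Set Plane} (hE : MeasurableSet E) : Measurable (ch E) :=
  measurable_const.indicator hE

theorem integral_ch_mul {E : Set Plane} (hE : MeasurableSet E) (f : Plane → ℝ) :
    ∫ x, ch E x * f x = ∫ x in E, f x := by
  rw [← integral_indicator hE]
  congr 1
  funext x
  unfold ch
  by_cases h : x ∈ E
  · rw [indicator_of_mem h, indicator_of_mem h, one_mul]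
  · rw [indicator_of_notMem h, indicator_of_notMem h, zero_mul]

theorem integrable_ch_mul {E : Set Plane} (hE : MeasurableSet E) {f : Plane → ℝ} (hf : Integrable f) :
    Integrable fun x => ch E x * f x := by
  refine hf.mono ((measurable_ch hE).aestronglyMeasurable.mul hf.aestronglyMeasurable) ?_
  refine Eventually.of_forall fun x => ?_
  rw [norm_mul, Real.norm_eq_abs, abs_of_nonneg (ch_nonneg E x)]
  exact mul_le_of_le_one_left (norm_nonneg _) (ch_le E x)

/-- the field `f h` has divergence `Df(h)` -/
theorem div_smul_const {f : Plane → ℝ} (hf : ContDiff ℝ 1 f) (h x : Plane) :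
    divergence (fun x => f x • h) x = fderiv ℝ f x h := by
  have hd : DifferentiableAt ℝ f x := hf.differentiable (by norm_num) x
  have h1 : HasFDerivAt (fun x => f x • h) ((fderiv ℝ f x).smulRight h) x :=
    hd.hasFDerivAt.smul_const h
  unfold divergence
  rw [h1.fderiv, Fin.sum_univ_two]
  have e : h = h 0 • EuclideanSpace.single 0 1 + h 1 • EuclideanSpace.single 1 1 := by
    ext i; fin_cases i <;> simp
  conv_rhs => rw [e]
  rw [map_add, map_smul, map_smul]
  simp only [ContinuousLinearMap.smulRight_apply, PiLp.smul_apply, smul_eq_mul]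
  ring

theorem contDiff_om_const {ψ : Plane → Plane} (h1 : ContDiff ℝ 1 ψ) (h : Plane) :
    ContDiff ℝ 1 fun x => om (ψ x) h := by
  unfold om
  have h0 : ContDiff ℝ 1 fun z => ψ z 0 := (contDiff_euclidean.1 h1) 0
  have h1 : ContDiff ℝ 1 fun z => ψ z 1 := (contDiff_euclidean.1 h1) 1
  fun_prop

theorem compact_om_const {ψ : Plane → Plane} (hc : HasCompactSupport ψ) (h : Plane) :
    HasCompactSupport fun x => om (ψ x) h :=
  hc.comp_left (g := fun v : Plane => om v h) (by simp [om])

/-- **translations of sets of finite perimeter** -/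
theorem shift_bound {E : Set Plane} (hE : MeasurableSet E) (hp : perimeter E ≠ ⊤) (h : Plane) :
    volume {x | ¬ (x ∈ E ↔ x + h ∈ E)} ≤ ENNReal.ofReal (‖h‖ * PerR E) := by
  rcases eq_or_ne h 0 with h0 | h0
  · subst h0
    have : {x : Plane | ¬ (x ∈ E ↔ x + 0 ∈ E)} = ∅ := by
      ext x; simp
    rw [this, measure_empty]
    exact zero_le
  have hpos : 0 < ‖h‖ := norm_pos_iff.2 h0
  set W : Plane → Plane := fun x => (ch E (x + h) - ch E x) • h with hW
  have hmc : Measurable fun x : Plane => ch E (x + h) :=
    (measurable_ch hE).comp (measurable_id.add_const h)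
  have hWm : Measurable W := (hmc.sub (measurable_ch hE)).smul_const h
  have hWb : ∀ x, ‖W x‖ ≤ ‖h‖ := by
    intro x
    rw [hW]
    simp only [norm_smul, Real.norm_eq_abs]
    have h1 := ch_nonneg E x
    have h2 := ch_le E x
    have h3 := ch_nonneg E (x + h)
    have h4 := ch_le E (x + h)
    have h5 : |ch E (x + h) - ch E x| ≤ 1 := by rw [abs_le]; constructor <;> linarith
    calc _ ≤ 1 * ‖h‖ := mul_le_mul_of_nonneg_right h5 (norm_nonneg _)
      _ = _ := one_mul _
  have key := dual_bound hWm hWb (C := ‖h‖ * (‖h‖ * PerR E)) (by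
    intro ψ h1 hc hb
    set f : Plane → ℝ := fun x => om (ψ x) h with hf
    have hfd : ContDiff ℝ 1 f := contDiff_om_const h1 h
    have hfc : HasCompactSupport f := compact_om_const hc h
    have hfi : Integrable f := hfd.continuous.integrable_of_hasCompactSupport hfc
    have hfb : ∀ x, |f x| ≤ ‖h‖ := by
      intro x
      refine (abs_om_le _ _).trans ?_
      calc _ ≤ 1 * ‖h‖ := mul_le_mul_of_nonneg_right (hb x) (norm_nonneg _)
        _ = _ := one_mul _
    have e1 : ∫ x, om (ψ x) (W x) = ∫ x, (ch E x * f (x - h) - ch E x * f x) := by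
      have : ∀ x, om (ψ x) (W x) = ch E (x + h) * f x - ch E x * f x := by
        intro x
        rw [hW]
        simp only [om_smul_right]
        rw [hf]
        ring
      simp_rw [this]
      have i1 : Integrable fun x => ch E x * f (x - h) :=
        integrable_ch_mul hE (hfi.comp_sub_right h)
      have i2 : Integrable fun x => ch E x * f x := integrable_ch_mul hE hfi
      have i3 : Integrable fun x => ch E (x + h) * f x := by
        have := i1.comp_add_right h
        simpa using this
      rw [integral_sub i3 i2, integral_sub i1 i2]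
      congr 1
      have := integral_add_right_eq_self (fun x => ch E x * f (x - h)) h (μ := (volume : Measure Plane))
      rw [← this]
      simp
    set ψ' : Plane → Plane := fun x => f x • h with hψ'
    have p1 : ContDiff ℝ 1 ψ' := hfd.smul contDiff_const
    have p2 : HasCompactSupport ψ' := hfc.comp_left (g := fun c : ℝ => c • h) (by simp)
    have p3 : ∀ x, ‖ψ' x‖ ≤ ‖h‖ * ‖h‖ := by
      intro x
      rw [hψ']
      simp only [norm_smul, Real.norm_eq_abs]
      exact mul_le_mul_of_nonneg_right (hfb x) (norm_nonneg _)
    set ν : Measure ℝ := volume.restrict (Ioc 0 1) with hν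
    haveI : IsFiniteMeasure ν := by
      rw [hν]
      exact isFiniteMeasure_restrict.2 (by simp)
    have hq : Measurable fun t : ℝ => t • h := by
      have : Continuous fun t : ℝ => t • h := by fun_prop
      exact this.measurable
    have hρ : ∀ᵐ t ∂ν, ‖t • h‖ ≤ ‖h‖ := by
      rw [hν, ae_restrict_iff' measurableSet_Ioc]
      refine Eventually.of_forall fun t ht => ?_
      rw [norm_smul, Real.norm_eq_abs, abs_of_pos ht.1]
      calc _ ≤ 1 * ‖h‖ := mul_le_mul_of_nonneg_right ht.2 (norm_nonneg _)
        _ = _ := one_mul _
    have q1 := avg_contDiff ν hq p1 p2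
    have q2 := avg_compact ν hq p1 p2 hρ
    have q3 := avg_bound ν hq p1 p2 p3
    have q4 := avg_div ν hq p1 p2
    have hνu : ν.real univ = 1 := by
      rw [hν]
      simp [Measure.real]
    rw [hνu] at q3
    have key := flux_le_perimeter hp (c := ‖h‖ * ‖h‖) (by positivity) q1 q2
      (fun x => (q3 x).trans (le_of_eq (mul_one _)))
    have e2 : ∀ x, divergence (fun x => ∫ t, ψ' (x - t • h) ∂ν) x = -(f (x - h) - f x) := by
      intro x
      rw [q4 x]
      have e3 : ∀ t : ℝ, divergence ψ' (x - t • h) = fderiv ℝ f (x - t • h) h := fun t =>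
        div_smul_const hfd h _
      simp_rw [e3]
      rw [hν, ← intervalIntegral.integral_of_le zero_le_one]
      have hder : ∀ t ∈ uIcc (0 : ℝ) 1, HasDerivAt (fun t : ℝ => -f (x - t • h))
          (fderiv ℝ f (x - t • h) h) t := by
        intro t _
        have g1 : HasFDerivAt f (fderiv ℝ f (x - t • h)) (x - t • h) :=
          (hfd.differentiable (by norm_num) _).hasFDerivAt
        have g2 : HasDerivAt (fun t : ℝ => x - t • h) (-h) t := by
          have := ((hasDerivAt_id t).smul_const h).const_sub x
          simpa using this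
        have g3 := (g1.comp_hasDerivAt t g2).neg
        have g4 : fderiv ℝ f (x - t • h) h = -(fderiv ℝ f (x - t • h) (-h)) := by simp
        rw [g4]
        exact g3
      rw [intervalIntegral.integral_eq_sub_of_hasDerivAt hder]
      · simp only [one_smul, zero_smul, sub_zero]; ring
      · apply Continuous.intervalIntegrable
        have : Continuous fun y => fderiv ℝ f y h :=
          (hfd.continuous_fderiv (by norm_num)).clm_apply continuous_const
        exact this.comp (by fun_prop)
    simp_rw [e2] at key
    rw [e1]
    have e4 : ∫ x, (ch E x * f (x - h) - ch E x * f x) = -∫ x in E, -(f (x - h) - f x) := by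
      rw [← integral_ch_mul hE, ← integral_neg]
      congr 1
      funext x
      ring
    rw [e4]
    have := (abs_le.1 key).1
    unfold PerR
    linarith)
  have e5 : ∫⁻ x, ENNReal.ofReal ‖W x‖ =
      ENNReal.ofReal ‖h‖ * volume {x | ¬ (x ∈ E ↔ x + h ∈ E)} := by
    have hS : MeasurableSet {x | ¬ (x ∈ E ↔ x + h ∈ E)} := by
      have h1 : MeasurableSet {x : Plane | x + h ∈ E} := (measurable_id.add_const h) hE
      have : {x | ¬ (x ∈ E ↔ x + h ∈ E)} = (E \ {x : Plane | x + h ∈ E}) ∪ ({x : Plane | x + h ∈ E} \ E) := by
        ext x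
        simp only [mem_ofPred_eq, mem_union, Set.mem_diff]
        tauto
      rw [this]
      exact (hE.diff h1).union (h1.diff hE)
    rw [← lintegral_indicator_const hS]
    congr 1
    funext x
    rw [hW]
    simp only [norm_smul, Real.norm_eq_abs]
    unfold ch
    by_cases h1 : x ∈ E <;> by_cases h2 : x + h ∈ E
    · rw [indicator_of_mem h1, indicator_of_mem h2, indicator_of_notMem (by simp [h1, h2])]
      simp
    · rw [indicator_of_mem h1, indicator_of_notMem h2, indicator_of_mem (by simp [h1, h2])]
      simp
    · rw [indicator_of_notMem h1, indicator_of_mem h2, indicator_of_mem (by simp [h1, h2])]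
      simp
    · rw [indicator_of_notMem h1, indicator_of_notMem h2, indicator_of_notMem (by simp [h1, h2])]
      simp
  rw [e5, ENNReal.ofReal_mul hpos.le] at key
  exact (ENNReal.mul_le_mul_iff_right (by simpa using hpos) ENNReal.ofReal_ne_top).1 key

end Run7.h761
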