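import Pool.Agent.Run7.h761.Region

/-! Summation over the faces: preparations. -/

set_option autoImplicit false

namespace Run7.h761.Lb

open Finset Function

open scoped Classical

section Tow

variable {α : Type*} {f : α → α} {P : α → Prop} {S : Finset α} (hf : ∀ x ∈ S, f x ∈ S)
    (hi : ∀ x ∈ S, ∀ y ∈ S, f x = f y → x = y)

include hf hi

theorem tower_eq (hP : ∀ s ∈ S, ∃ i, P (f^[i] s)) (F : α → ℝ) :
    ∑ d ∈ S.filter P, ∑ i ∈ range (kk f P d), F (f^[i] d) = ∑ d ∈ S, F d := by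
  rw [Finset.sum_sigma']
  refine Finset.sum_bij (fun x _ => f^[x.2] x.1) ?_ ?_ ?_ ?_
  · rintro ⟨d, i⟩ hx
    rw [Finset.mem_sigma, Finset.mem_filter] at hx
    exact iter_mem hf hx.1.1 _
  · rintro ⟨d, i⟩ hx ⟨e, j⟩ hy h
    rw [Finset.mem_sigma, Finset.mem_filter, Finset.mem_range] at hx hy
    have := tower_inj hf hi hx.1.1 hy.1.1 hx.1.2 hy.1.2 hx.2 hy.2 h
    obtain ⟨rfl, rfl⟩ := this
    rfl
  · intro s hs
    have hp := pos_period hf hi hs
    set p := minimalPeriod f s with hpd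
    obtain ⟨i, hPi⟩ := hP s hs
    have hex : ∃ q, ∃ m ∈ S, P m ∧ s = f^[q] m := by
      refine ⟨p * (i + 1) - i, f^[i] s, iter_mem hf hs i, hPi, ?_⟩
      rw [← iterate_add_apply]
      have : p * (i + 1) - i + i = p * (i + 1) := by
        apply Nat.sub_add_cancel
        nlinarith
      rw [this, ← iterate_mod_minimalPeriod_eq, ← hpd, Nat.mul_mod_right]
      rfl
    obtain ⟨m, hm, hPm, hsm⟩ := Nat.find_spec hex
    have hmin := fun q (hq : q < Nat.find hex) => Nat.find_min hex hq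
    set q := Nat.find hex with hq
    refine ⟨⟨m, q⟩, ?_, hsm.symm⟩
    rw [Finset.mem_sigma, Finset.mem_filter, Finset.mem_range]
    refine ⟨⟨hm, hPm⟩, ?_⟩
    by_contra hc
    push Not at hc
    have hs2 := kk_spec hf hi hm hPm
    simp only at hc
    apply hmin (q - kk f P m) (by omega)
    refine ⟨f^[kk f P m] m, iter_mem hf hm _, hs2.2, ?_⟩
    rw [← iterate_add_apply, Nat.sub_add_cancel hc]
    exact hsm
  · intro _ _; rfl

end Tow

/-- Green's formula on the lattice -/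
theorem green {z : Dart → ℂ} (hz : Cons z) (A : Finset Site) :
    ∑ d ∈ (A ×ˢ (univ : Finset (Fin 6))).filter (fun d => rgt d ∉ A), ar z d =
      2 * ∑ s ∈ A, ca z s := by
  have h1 : 2 * ∑ s ∈ A, ca z s = ∑ d ∈ A ×ˢ (univ : Finset (Fin 6)), ar z d := by
    rw [Finset.sum_product, Finset.mul_sum]
    refine Finset.sum_congr rfl fun s _ => ?_
    unfold ca
    ring
  rw [h1, ← Finset.sum_filter_add_sum_filter_not (A ×ˢ (univ : Finset (Fin 6)))
    (fun d => rgt d ∉ A)]
  have h2 : ∑ d ∈ (A ×ˢ (univ : Finset (Fin 6))).filter (fun d => ¬ rgt d ∉ A), ar z d = 0 := by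
    refine Finset.sum_involution (fun d _ => rev d) ?_ ?_ ?_ ?_
    · intro d _
      rw [ar_rev hz]; ring
    · intro d _ h0 h3
      apply h0
      have := ar_rev hz d
      rw [h3] at this
      linarith
    · intro d hd
      rw [Finset.mem_filter, Finset.mem_product, not_not] at hd ⊢
      rw [rev_fst, rgt_rev]
      exact ⟨⟨hd.2, Finset.mem_univ _⟩, hd.1.1⟩
    · intro d _
      exact rev_rev d
  rw [h2, add_zero]

section

variable {ι : Type*} {φ : Site → ι} {z : Dart → ℂ} {o : ι} {K : Finset Site}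

/-- the part of the complement of the face `v` which contains the site `s0` -/
def Uo (φ : Site → ι) (s0 : Site) (v : ι) : Set Site :=
  {s | Relation.ReflTransGen (Stp {s | φ s ≠ v}) s0 s}

theorem Stp.mono {X Y : Set Site} (h : X ⊆ Y) {a b : Site} (hs : Stp X a b) : Stp Y a b :=
  ⟨h hs.1, hs.2⟩

theorem Stp.symm' {X : Set Site} {a b : Site} (hs : Stp X a b) (ha : a ∈ X) : Stp X b a := by
  obtain ⟨_, j, hj⟩ := hs
  refine ⟨ha, j + 3, ?_⟩
  rw [hj, dr_opp, add_neg_cancel_right]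

theorem reg_U (hK : ∀ s ∉ K, φ s = o) (hc : ∀ v, Con {s | φ s = v}) {s0 : Site} (hs0 : φ s0 = o)
    {v : ι} (hv : v ≠ o) : Reg φ v (Uo φ s0 v) K := by
  have hdisj : ∀ s ∈ Uo φ s0 v, φ s ≠ v := by
    intro s hs
    rcases Relation.ReflTransGen.cases_tail hs with h | ⟨e, _, h⟩
    · rw [h, hs0]; exact hv.symm
    · exact h.1
  have h0 : s0 ∈ Uo φ s0 v := Relation.ReflTransGen.refl
  have hboth : ∀ s ∈ Uo φ s0 v, Relation.ReflTransGen (Stp (Uo φ s0 v)) s0 s ∧
      Relation.ReflTransGen (Stp (Uo φ s0 v)) s s0 := by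
    intro s hs
    induction hs with
    | refl => exact ⟨Relation.ReflTransGen.refl, Relation.ReflTransGen.refl⟩
    | @tail p q h1 h2 ih =>
      have hp : p ∈ Uo φ s0 v := h1
      have hq : q ∈ Uo φ s0 v := h1.tail h2
      have hst : Stp (Uo φ s0 v) p q := ⟨hq, h2.2⟩
      exact ⟨ih.1.tail hst, Relation.ReflTransGen.head (hst.symm' hp) ih.2⟩
  refine ⟨?_, ?_, hc v, hdisj, ?_⟩
  · intro s hs
    have h1 := hc o s0 hs0 s (hK s hs)
    refine Relation.ReflTransGen.mono (fun a b hab => ?_) _ _ h1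
    exact hab.mono (fun x hx => by
      rw [Set.mem_setOf_eq] at hx ⊢
      rw [hx]; exact hv.symm)
  · intro a ha b hb
    exact (hboth a ha).2.trans (hboth b hb).1
  · intro s hs j hj
    by_contra hc2
    apply hs
    refine Relation.ReflTransGen.tail hj ⟨hc2, j + 3, ?_⟩
    rw [dr_opp, add_neg_cancel_right]

theorem sum_OB_ar (hz : Cons z) {v : ι} {U : Set Site} (h : Reg φ v U K) :
    ∑ d ∈ OB U K, ar z d = 2 * ∑ s ∈ K.filter (fun s => s ∉ U), ca z s := by
  rw [← green hz]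
  refine Finset.sum_congr ?_ fun _ _ => rfl
  ext d
  rw [mem_OB h, Finset.mem_filter, Finset.mem_product, Finset.mem_filter, Finset.mem_filter]
  constructor
  · rintro ⟨h1, h2⟩
    refine ⟨⟨⟨?_, h1⟩, Finset.mem_univ _⟩, fun h3 => h3.2 h2⟩
    by_contra h4
    exact h1 (h.ext _ h4)
  · rintro ⟨⟨⟨_, h1⟩, _⟩, h2⟩
    refine ⟨h1, ?_⟩
    by_contra h3
    exact h2 ⟨by by_contra h4; exact h3 (h.ext _ h4), h3⟩

/-- area of a face -/
noncomputable def al (φ : Site → ι) (z : Dart → ℂ) (K : Finset Site) (v : ι) : ℝ :=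
  ∑ s ∈ K.filter (fun s => φ s = v), ca z s

theorem al_le (hz : Cons z) (hca : ∀ s, 0 ≤ ca z s) {v : ι} {U : Set Site} (h : Reg φ v U K) :
    al φ z K v ≤ (∑ d ∈ OB U K, ar z d) / 2 := by
  rw [sum_OB_ar hz h]
  have : 2 * ∑ s ∈ K.filter (fun s => s ∉ U), ca z s =
    2 * ∑ s ∈ K.filter (fun s => s ∉ U), ca z s := rfl
  have h1 : al φ z K v ≤ ∑ s ∈ K.filter (fun s => s ∉ U), ca z s := by
    unfold al
    apply Finset.sum_le_sum_of_subset_of_nonneg
    · intro s hs
      rw [Finset.mem_filter] at hs ⊢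
      exact ⟨hs.1, fun h2 => h.disj s h2 hs.2⟩
    · intro s _ _
      exact hca s
  linarith

/-- the data of a minimal labelling -/
structure Good (φ : Site → ι) (z : Dart → ℂ) (o : ι) (K : Finset Site) (m : ι → ℝ) : Prop where
  out : ∀ s ∉ K, φ s = o
  cons : Cons z
  ca0 : ∀ s, 0 ≤ ca z s
  con : ∀ v, Con {s | φ s = v}
  m0 : ∀ v ∈ (K.image φ).erase o, 0 < m v
  m3 : ∀ v, m v ≤ 3
  ma : ∀ v, m v ≤ ka * al φ z K v
  D : ∀ v ∈ (K.image φ).erase o, ∀ w, ∑ d ∈ (ID φ K).filter (fun d => φ d.1 = v ∧ φ (rgt d) = w), len z d ≤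
    1.013 * m v

variable {m : ι → ℝ}

theorem mem_faces (h : Good φ z o K m) {s : Site} (hs : φ s ≠ o) : φ s ∈ (K.image φ).erase o := by
  rw [Finset.mem_erase]
  refine ⟨hs, Finset.mem_image_of_mem _ ?_⟩
  by_contra h1
  exact hs (h.out s h1)

theorem chain_bound (h : Good φ z o K m) {d : Dart} (hd : d ∈ ID φ K) (hP : trb φ d)
    (hv : φ d.1 ≠ o) : CL φ z d ≤ 1.013 * m (φ d.1) := by
  refine le_trans ?_ (h.D (φ d.1) (mem_faces h hv) (φ (rgt d)))
  rw [CL_eq h.cons]
  have hinj : ∀ i ∈ range (kz φ d), ∀ j ∈ range (kz φ d),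
      (nx φ)^[i] d = (nx φ)^[j] d → i = j := by
    intro i hi j hj e
    exact (tower_inj (ID_nx h.out) (ID_inj h.out) hd hd hP hP (Finset.mem_range.1 hi)
      (Finset.mem_range.1 hj) e).2
  rw [← Finset.sum_image (f := len z) (g := fun i => (nx φ)^[i] d) hinj]
  apply Finset.sum_le_sum_of_subset_of_nonneg
  · intro x hx
    obtain ⟨i, hi, rfl⟩ := Finset.mem_image.1 hx
    rw [Finset.mem_filter]
    exact ⟨iter_ID h.out hd i, left_iter h.out d i, right_iter h.out hd (Finset.mem_range.1 hi)⟩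
  · intro x _ _
    exact len_nonneg x

theorem chain_bound3 (h : Good φ z o K m) {d : Dart} (hd : d ∈ ID φ K) (hP : trb φ d)
    (hv : φ d.1 ≠ o) : CL φ z d ≤ 3.039 := by
  have h1 := chain_bound h hd hP hv
  have h2 := h.m3 (φ d.1)
  linarith

/-- every region has marks -/
theorem has_mark (h : Good φ z o K m) {v : ι} (hv : v ∈ (K.image φ).erase o) {U : Set Site}
    (hR : Reg φ v U K) : ∃ d ∈ OB U K, trb φ d := by
  by_contra hc
  push Not at hc
  have hm0 := h.m0 v hv
  have h1 := h.ma v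
  have h2 := al_le h.cons h.ca0 hR
  have hka := ka_pos
  have hne : (OB U K).Nonempty := by
    by_contra hne
    rw [Finset.not_nonempty_iff_eq_empty] at hne
    rw [hne, Finset.sum_empty, zero_div] at h2
    have : ka * al φ z K v ≤ 0 := mul_nonpos_of_nonneg_of_nonpos hka.le h2
    linarith
  obtain ⟨d₀, h0⟩ := hne
  have hf : ∀ x ∈ OB U K, nx φ x ∈ OB U K := fun x hx => OB_nx hR hx
  have hright : ∀ k, φ (rgt ((nx φ)^[k] d₀)) = φ (rgt d₀) := by
    intro k
    induction k with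
    | zero => rfl
    | succ k ih =>
      have hmem : (nx φ)^[k] d₀ ∈ OB U K := iter_mem hf h0 k
      rw [iterate_succ_apply', rgt_nx_of_not_tri (φ := φ), ih]
      rw [← trb_nx (OB_inI hR hmem)]
      exact hc _ (hf _ hmem)
  have hL : ∑ d ∈ OB U K, len z d ≤ 1.013 * m v := by
    refine le_trans ?_ (h.D v hv (φ (rgt d₀)))
    apply Finset.sum_le_sum_of_subset_of_nonneg
    · intro x hx
      rw [Finset.mem_filter]
      refine ⟨OB_sub_ID h.out hR hx, OB_left hR hx, ?_⟩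
      obtain ⟨k, rfl⟩ := single_orbit hR h0 hx
      exact hright k
    · intro x _ _
      exact len_nonneg x
  have hiso := iso_ineq (minimalPeriod (nx φ) d₀) (trk φ z d₀) (by
    unfold trk
    rw [iterate_minimalPeriod]
    rfl)
  have e1 : par (minimalPeriod (nx φ) d₀) (trk φ z d₀) = ∑ d ∈ OB U K, ar z d := by
    unfold par
    rw [sum_OB hR h0 (fun d => ar z d)]
    exact Finset.sum_congr rfl fun k _ => cr_trk h.cons d₀ k
  have e2 : plen (minimalPeriod (nx φ) d₀) (trk φ z d₀) = ∑ d ∈ OB U K, len z d := by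
    unfold plen
    rw [sum_OB hR h0 (fun d => len z d)]
    exact Finset.sum_congr rfl fun k _ => norm_trk h.cons d₀ k
  rw [e1, e2] at hiso
  set L := ∑ d ∈ OB U K, len z d with hLd
  set A := (∑ d ∈ OB U K, ar z d) / 2 with hA
  have hL0 : 0 ≤ L := Finset.sum_nonneg fun x _ => len_nonneg x
  have h3 : L ^ 2 ≤ (1.013 * m v) ^ 2 := pow_le_pow_left₀ hL0 hL 2
  have h4 : m v ≤ ka * A := h1.trans (mul_le_mul_of_nonneg_left h2 hka.le)
  have h5 := Real.pi_gt_three
  have h6 := ka_hi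
  have hA0 : 0 < A := by
    by_contra h7
    push Not at h7
    have : ka * A ≤ 0 := mul_nonpos_of_nonneg_of_nonpos hka.le h7
    linarith
  have h7 : 12 * A ≤ 4 * Real.pi * A := by nlinarith
  have h8 : m v ≤ 1.15471 * A := h4.trans (by nlinarith)
  have h9 := h.m3 v
  nlinarith

end

end Run7.h761.Lb
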