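import Pool.Agent.Run7.h761.Sum1

/-! Summation over the faces. -/

set_option autoImplicit false

namespace Run7.h761.Lb

open Finset Function

open scoped Classical

section

variable {ι : Type*} {φ : Site → ι} {z : Dart → ℂ} {o : ι} {K : Finset Site} {m : ι → ℝ}

theorem exists_out (K : Finset Site) : ∃ s, s ∉ K := Infinite.exists_notMem_finset K

/-- contribution of hole chains -/
theorem hole_ineq (h : Good φ z o K m) {v : ι} (hv : v ∈ (K.image φ).erase o) {U : Set Site}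
    (hR : Reg φ v U K) :
    0 ≤ ∑ d ∈ ((ID φ K).filter (fun d => φ d.1 = v)) \ OB U K, len z d +
      ka * ∑ d ∈ (((ID φ K).filter (fun d => φ d.1 = v)) \ OB U K).filter (trb φ), CX φ z d := by
  have hvo : v ≠ o := (Finset.mem_erase.1 hv).1
  set S := ((ID φ K).filter (fun d => φ d.1 = v)) \ OB U K with hS
  have memS : ∀ d, d ∈ S ↔ (d ∈ ID φ K ∧ φ d.1 = v) ∧ d ∉ OB U K := by
    intro d
    rw [hS, Finset.mem_sdiff, Finset.mem_filter]
  have hfO : ∀ x ∈ OB U K, nx φ x ∈ OB U K := fun x hx => OB_nx hR hx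
  have hsurj : ∀ x ∈ OB U K, ∃ y ∈ OB U K, nx φ y = x := by
    intro x hx
    have himg : (OB U K).image (nx φ) = OB U K := by
      apply Finset.eq_of_subset_of_card_le
      · intro d hd
        obtain ⟨e, he, rfl⟩ := Finset.mem_image.1 hd
        exact hfO e he
      · rw [Finset.card_image_of_injOn]
        intro a ha b hb e
        exact nx_inj (OB_inI hR ha) (OB_inI hR hb) e
    rw [← himg] at hx
    obtain ⟨y, hy, rfl⟩ := Finset.mem_image.1 hx
    exact ⟨y, hy, rfl⟩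
  have hf : ∀ x ∈ S, nx φ x ∈ S := by
    intro x hx
    rw [memS] at hx ⊢
    refine ⟨⟨ID_nx h.out _ hx.1.1, ?_⟩, ?_⟩
    · rw [fst_nx (φ := φ)]; exact hx.1.2
    · intro h1
      obtain ⟨y, hy, e⟩ := hsurj _ h1
      have := ID_inj h.out y (OB_sub_ID h.out hR hy) x hx.1.1 e
      rw [this] at hy
      exact hx.2 hy
  have hi : ∀ x ∈ S, ∀ y ∈ S, nx φ x = nx φ y → x = y := by
    intro x hx y hy e
    exact ID_inj h.out x ((memS x).1 hx).1.1 y ((memS y).1 hy).1.1 e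
  have h1 := tower_le hf hi (P := trb φ) (F := len z) (fun x _ => len_nonneg x)
  have h2 : -(∑ d ∈ S.filter (trb φ), CL φ z d) ≤ ka * ∑ d ∈ S.filter (trb φ), CX φ z d := by
    rw [Finset.mul_sum, ← Finset.sum_neg_distrib]
    refine Finset.sum_le_sum fun d hd => ?_
    rw [Finset.mem_filter, memS] at hd
    obtain ⟨⟨⟨h3, h4⟩, _⟩, h5⟩ := hd
    have h6 := chain_bound3 h h3 h5 (by rw [h4]; exact hvo)
    have h7 := dido_CX (φ := φ) (z := z) d
    have h8 := CL_nonneg (φ := φ) (z := z) d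
    have h9 : -(ka * CX φ z d) ≤ ka * |CX φ z d| := by
      rw [← mul_neg]
      exact mul_le_mul_of_nonneg_left (neg_le_abs _) ka_pos.le
    nlinarith
  have h3 : ∑ d ∈ S.filter (trb φ), CL φ z d =
      ∑ d ∈ S.filter (trb φ), ∑ i ∈ range (kk (nx φ) (trb φ) d), len z ((nx φ)^[i] d) :=
    Finset.sum_congr rfl fun d _ => CL_eq h.cons d
  linarith

/-- the inequality for one face -/
theorem face_total (h : Good φ z o K m) {v : ι} (hv : v ∈ (K.image φ).erase o) (Q : Dart → Prop)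
    (hQo : ∀ d, Q d → φ (rgt d) = o) :
    2 * m v + 1.035 * ∑ d ∈ (ID φ K).filter (fun d => φ d.1 = v ∧ trb φ d ∧ Q d), CC φ z d ≤
      ∑ d ∈ (ID φ K).filter (fun d => φ d.1 = v), len z d +
      ka * ∑ d ∈ (ID φ K).filter (fun d => φ d.1 = v ∧ trb φ d ∧ ¬ Q d), CX φ z d +
      ∑ d ∈ (ID φ K).filter (fun d => φ d.1 = v ∧ trb φ d ∧ Q d), (CL φ z d + 0.113) +
      0.113 * ((((ID φ K).filter (fun d => φ d.1 = v ∧ trb φ d)).card : ℝ) - 6) := by
  have hvo : v ≠ o := (Finset.mem_erase.1 hv).1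
  obtain ⟨s0, hs0⟩ := exists_out K
  have hR := reg_U h.out h.con (h.out s0 hs0) hvo
  set U := Uo φ s0 v with hU
  have hmark := has_mark h hv hR
  have hoU : ∀ s, φ s = o → s ∈ U := by
    intro s hs
    have h1 := h.con o s0 (h.out s0 hs0) s hs
    refine Relation.ReflTransGen.mono (fun a b hab => ?_) _ _ h1
    exact hab.mono (fun x hx => by
      rw [Set.mem_setOf_eq] at hx ⊢
      rw [hx]; exact hvo.symm)
  have key := region_ineq h.cons h.out hR hmark (h.m0 v hv) (h.m3 v)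
    ((h.ma v).trans (mul_le_mul_of_nonneg_left (al_le h.cons h.ca0 hR) ka_pos.le))
    (fun d hd hP => by
      have h1 := chain_bound h (OB_sub_ID h.out hR hd) hP (by rw [OB_left hR hd]; exact hvo)
      rwa [OB_left hR hd] at h1) Q
    (fun d hd hP hQ1 hQ2 => by
      have h1 := right_next h.out (OB_sub_ID h.out hR hd) hP
      rw [hQo _ hQ1, hQo _ hQ2] at h1
      exact h1 rfl)
  have hole := hole_ineq h hv hR
  have hsub : OB U K ⊆ (ID φ K).filter (fun d => φ d.1 = v) := by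
    intro d hd
    exact Finset.mem_filter.2 ⟨OB_sub_ID h.out hR hd, OB_left hR hd⟩
  have hOBo : ∀ d, d ∈ ID φ K → φ d.1 = v → φ (rgt d) = o → d ∈ OB U K := by
    intro d _ h2 h3
    rw [mem_OB hR]
    exact ⟨fun h4 => hR.disj _ h4 h2, hoU _ h3⟩
  have q1 : (OB U K).filter (fun d => trb φ d ∧ Q d) =
      (ID φ K).filter (fun d => φ d.1 = v ∧ trb φ d ∧ Q d) := by
    ext d
    rw [Finset.mem_filter, Finset.mem_filter]
    constructor
    · rintro ⟨h1, h2⟩
      exact ⟨OB_sub_ID h.out hR h1, OB_left hR h1, h2⟩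
    · rintro ⟨h1, h2, h3⟩
      exact ⟨hOBo d h1 h2 (hQo d h3.2), h3⟩
  have q2 : ∑ d ∈ (ID φ K).filter (fun d => φ d.1 = v ∧ trb φ d ∧ ¬ Q d), CX φ z d =
      ∑ d ∈ (OB U K).filter (fun d => trb φ d ∧ ¬ Q d), CX φ z d +
      ∑ d ∈ (((ID φ K).filter (fun d => φ d.1 = v)) \ OB U K).filter (trb φ), CX φ z d := by
    rw [← Finset.sum_union]
    · refine Finset.sum_congr ?_ fun _ _ => rfl
      ext d
      rw [Finset.mem_union, Finset.mem_filter, Finset.mem_filter, Finset.mem_filter,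
        Finset.mem_sdiff, Finset.mem_filter]
      constructor
      · rintro ⟨h1, h2, h3, h4⟩
        by_cases h5 : d ∈ OB U K
        · exact Or.inl ⟨h5, h3, h4⟩
        · exact Or.inr ⟨⟨⟨h1, h2⟩, h5⟩, h3⟩
      · rintro (⟨h1, h2, h3⟩ | ⟨⟨⟨h1, h2⟩, h3⟩, h4⟩)
        · exact ⟨OB_sub_ID h.out hR h1, OB_left hR h1, h2, h3⟩
        · exact ⟨h1, h2, h4, fun h5 => h3 (hOBo d h1 h2 (hQo d h5))⟩
    · rw [Finset.disjoint_left]
      intro d h1 h2
      rw [Finset.mem_filter] at h1 h2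
      exact (Finset.mem_sdiff.1 h2.1).2 h1.1
  have q3 : ∑ d ∈ (ID φ K).filter (fun d => φ d.1 = v), len z d =
      ∑ d ∈ OB U K, len z d +
      ∑ d ∈ ((ID φ K).filter (fun d => φ d.1 = v)) \ OB U K, len z d := by
    rw [add_comm, Finset.sum_sdiff hsub]
  have q4 : ((((OB U K).filter (trb φ)).card : ℝ)) ≤
      (((ID φ K).filter (fun d => φ d.1 = v ∧ trb φ d)).card : ℝ) := by
    have : (OB U K).filter (trb φ) ⊆ (ID φ K).filter (fun d => φ d.1 = v ∧ trb φ d) := by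
      intro d hd
      rw [Finset.mem_filter] at hd ⊢
      exact ⟨OB_sub_ID h.out hR hd.1, OB_left hR hd.1, hd.2⟩
    exact_mod_cast Finset.card_le_card this
  rw [q1] at key
  rw [q2, q3]
  linarith

/-- sums over the faces -/
theorem sum_faces (h : Good φ z o K m) (R : Dart → Prop) (G : Dart → ℝ) :
    ∑ v ∈ (K.image φ).erase o, ∑ d ∈ (ID φ K).filter (fun d => φ d.1 = v ∧ R d), G d =
      ∑ d ∈ (ID φ K).filter (fun d => φ d.1 ≠ o ∧ R d), G d := by
  have hmaps : ∀ d ∈ (ID φ K).filter (fun d => φ d.1 ≠ o ∧ R d), φ d.1 ∈ (K.image φ).erase o := by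
    intro d hd
    exact mem_faces h (Finset.mem_filter.1 hd).2.1
  rw [← Finset.sum_fiberwise_of_maps_to hmaps]
  refine Finset.sum_congr rfl fun v hv => ?_
  refine Finset.sum_congr ?_ fun _ _ => rfl
  ext d
  have hvo : v ≠ o := (Finset.mem_erase.1 hv).1
  rw [Finset.mem_filter, Finset.mem_filter, Finset.mem_filter]
  constructor
  · rintro ⟨h1, h2, h3⟩
    exact ⟨⟨h1, by rw [h2]; exact hvo, h3⟩, h2⟩
  · rintro ⟨⟨h1, h2, h3⟩, h4⟩
    exact ⟨h1, h4, h3⟩

theorem card_tri (h : Good φ z o K m) (v : ι) :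
    ((ID φ K).filter (fun d => φ d.1 = v ∧ tri φ d)).card =
      ((ID φ K).filter (fun d => φ d.1 = v ∧ trb φ d)).card := by
  apply Finset.card_bij (fun d _ => nx φ d)
  · intro d hd
    rw [Finset.mem_filter] at hd ⊢
    refine ⟨ID_nx h.out _ hd.1, ?_, ?_⟩
    · rw [fst_nx (φ := φ)]; exact hd.2.1
    · exact (trb_nx ((mem_ID h.out).1 hd.1)).2 hd.2.2
  · intro a ha b hb e
    exact ID_inj h.out a (Finset.mem_filter.1 ha).1 b (Finset.mem_filter.1 hb).1 e
  · intro b hb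
    rw [Finset.mem_filter] at hb
    obtain ⟨h1, h2⟩ := nx_pv ((mem_ID h.out).1 hb.1)
    refine ⟨pv φ b, ?_, h1⟩
    rw [Finset.mem_filter]
    refine ⟨(mem_ID h.out).2 h2, ?_, ?_⟩
    · rw [← hb.2.1]
      conv_rhs => rw [← h1]
      rw [fst_nx (φ := φ)]
    · rw [← trb_nx h2, h1]
      exact hb.2.2

/-- **total inequality** -/
theorem total_ineq (h : Good φ z o K m) (Q : Dart → Prop) (hQo : ∀ d, Q d → φ (rgt d) = o) :
    2 * ∑ v ∈ (K.image φ).erase o, m v +
      1.035 * ∑ d ∈ (ID φ K).filter (fun d => φ d.1 ≠ o ∧ trb φ d ∧ Q d), CC φ z d +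
      0.113 * (((ID φ K).filter (fun d => φ d.1 = o ∧ trb φ d)).card : ℝ) ≤
      ∑ d ∈ (ID φ K).filter (fun d => φ d.1 ≠ o), len z d +
      ka * ∑ d ∈ (ID φ K).filter (fun d => φ d.1 ≠ o ∧ trb φ d ∧ ¬ Q d), CX φ z d +
      ∑ d ∈ (ID φ K).filter (fun d => φ d.1 ≠ o ∧ trb φ d ∧ Q d), (CL φ z d + 0.113) := by
  have h1 := Finset.sum_le_sum fun v hv => face_total h hv Q hQo
  have f1 : ∑ v ∈ (K.image φ).erase o,
      ∑ d ∈ (ID φ K).filter (fun d => φ d.1 = v ∧ trb φ d ∧ Q d), CC φ z d =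
      ∑ d ∈ (ID φ K).filter (fun d => φ d.1 ≠ o ∧ trb φ d ∧ Q d), CC φ z d := by
    convert sum_faces h (fun d => trb φ d ∧ Q d) (CC φ z)
  have f2 : ∑ v ∈ (K.image φ).erase o,
      ∑ d ∈ (ID φ K).filter (fun d => φ d.1 = v ∧ trb φ d ∧ ¬ Q d), CX φ z d =
      ∑ d ∈ (ID φ K).filter (fun d => φ d.1 ≠ o ∧ trb φ d ∧ ¬ Q d), CX φ z d := by
    convert sum_faces h (fun d => trb φ d ∧ ¬ Q d) (CX φ z)
  have f3 : ∑ v ∈ (K.image φ).erase o,
      ∑ d ∈ (ID φ K).filter (fun d => φ d.1 = v ∧ trb φ d ∧ Q d), (CL φ z d + 0.113) =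
      ∑ d ∈ (ID φ K).filter (fun d => φ d.1 ≠ o ∧ trb φ d ∧ Q d), (CL φ z d + 0.113) := by
    convert sum_faces h (fun d => trb φ d ∧ Q d) (fun d => CL φ z d + 0.113)
  rw [Finset.sum_add_distrib, Finset.sum_add_distrib, Finset.sum_add_distrib,
    Finset.sum_add_distrib, ← Finset.mul_sum, ← Finset.mul_sum, ← Finset.mul_sum, ← Finset.mul_sum,
    f1, f2, f3, Finset.sum_sub_distrib, Finset.sum_const, nsmul_eq_mul] at h1
  have h2 : ∑ v ∈ (K.image φ).erase o, ∑ d ∈ (ID φ K).filter (fun d => φ d.1 = v), len z d =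
      ∑ d ∈ (ID φ K).filter (fun d => φ d.1 ≠ o), len z d := by
    have := sum_faces h (fun _ => True) (len z)
    simpa using this
  rw [h2] at h1
  have h3 := euler_ineq h.out h.con
  have h4 : ∑ v ∈ (K.image φ).erase o,
      (((ID φ K).filter (fun d => φ d.1 = v ∧ trb φ d)).card : ℝ) +
      (((ID φ K).filter (fun d => φ d.1 = o ∧ trb φ d)).card : ℝ) ≤
      6 * (((K.image φ).erase o).card : ℝ) := by
    simp only [card_tri h] at h3
    exact_mod_cast h3
  linarith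

end

end Run7.h761.Lb
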