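import Pool.Agent.Run7.h761.Sum2

/-! The exterior face and the final inequality for minimal labellings. -/

set_option autoImplicit false

namespace Run7.h761.Lb

open Finset Function

open scoped Classical

/-- the empty condition -/
def NoD (_ : Dart) : Prop := False

section

variable {ι : Type*} {φ : Site → ι} {z : Dart → ℂ} {o : ι} {K : Finset Site} {m : ι → ℝ}

/-- darts of the exterior face -/
noncomputable def So (φ : Site → ι) (o : ι) (K : Finset Site) : Finset Dart :=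
  (ID φ K).filter (fun d => φ d.1 = o)

theorem ext_mark (h : Good φ z o K m) : ∀ d ∈ So φ o K, ∃ i, trb φ ((nx φ)^[i] d) := by
  intro d hd
  by_contra hc
  push Not at hc
  obtain ⟨hd1, hd2⟩ := Finset.mem_filter.1 hd
  have hI := (mem_ID h.out).1 hd1
  have hvo : φ (rgt d) ≠ o := by
    rw [← hd2]; exact hI.symm
  have hv := mem_faces h hvo
  obtain ⟨s0, hs0⟩ := exists_out K
  have hR := reg_U h.out h.con (h.out s0 hs0) hvo
  have hrev : rev d ∈ OB (Uo φ s0 (φ (rgt d))) K := by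
    rw [mem_OB hR, rev_fst, rgt_rev]
    constructor
    · intro h1
      exact hR.disj _ h1 rfl
    · have h1 := h.con o s0 (h.out s0 hs0) d.1 hd2
      refine Relation.ReflTransGen.mono (fun a b hab => ?_) _ _ h1
      exact hab.mono (fun x hx => by
        rw [Set.mem_setOf_eq] at hx ⊢
        rw [hx]; exact hvo.symm)
  obtain ⟨e, he1, he2⟩ := has_mark h hv hR
  obtain ⟨k, rfl⟩ := single_orbit hR hrev he1
  have hnt : ∀ i, ¬ tri φ ((nx φ)^[i] d) := by
    intro i
    rw [← trb_nx ((mem_ID h.out).1 (iter_ID h.out hd1 i)), ← iterate_succ_apply' (nx φ)]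
    exact hc _
  have hp := pos_period (ID_nx h.out) (ID_inj h.out) hd1
  set p := minimalPeriod (nx φ) d with hpd
  have hper : (nx φ)^[p * (k + 1)] d = d := by
    rw [← iterate_mod_minimalPeriod_eq, ← hpd, Nat.mul_mod_right]
    rfl
  have hkn : k ≤ p * (k + 1) := by nlinarith
  have h1 := rev_iter h.out hd1 (n := p * (k + 1)) (fun i _ => hnt i) k hkn
  rw [hper] at h1
  rw [h1, trb_rev] at he2
  exact hnt _ he2

theorem So_nx (h : Good φ z o K m) : ∀ x ∈ So φ o K, nx φ x ∈ So φ o K := by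
  intro x hx
  obtain ⟨h1, h2⟩ := Finset.mem_filter.1 hx
  exact Finset.mem_filter.2 ⟨ID_nx h.out _ h1, by rw [fst_nx (φ := φ)]; exact h2⟩

theorem So_inj (h : Good φ z o K m) : ∀ x ∈ So φ o K, ∀ y ∈ So φ o K, nx φ x = nx φ y → x = y :=
  fun x hx y hy e => ID_inj h.out x (Finset.mem_filter.1 hx).1 y (Finset.mem_filter.1 hy).1 e

/-- marks of the exterior face -/
noncomputable def Mo (φ : Site → ι) (o : ι) (K : Finset Site) : Finset Dart :=
  (So φ o K).filter (trb φ)

theorem Mo_sum (h : Good φ z o K m) (F : Dart → ℝ) :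
    ∑ d ∈ Mo φ o K, ∑ i ∈ range (kz φ d), F ((nx φ)^[i] d) = ∑ d ∈ So φ o K, F d :=
  tower_eq (So_nx h) (So_inj h) (ext_mark h) F

theorem So_ar (h : Good φ z o K m) :
    ∑ d ∈ So φ o K, ar z d = -(2 * ∑ s ∈ K.filter (fun s => φ s ≠ o), ca z s) := by
  rw [← green h.cons, ← Finset.sum_neg_distrib]
  refine Finset.sum_bij (fun d _ => rev d) ?_ ?_ ?_ ?_
  · intro d hd
    obtain ⟨h1, h2⟩ := Finset.mem_filter.1 hd
    have h3 := (mem_ID h.out).1 h1
    rw [Finset.mem_filter, Finset.mem_product, rev_fst, rgt_rev, Finset.mem_filter,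
      Finset.mem_filter]
    refine ⟨⟨⟨?_, ?_⟩, Finset.mem_univ _⟩, fun h4 => h4.2 h2⟩
    · by_contra h4
      exact h3 (by rw [h2, h.out _ h4])
    · rw [← h2]; exact h3.symm
  · intro a _ b _ e
    rw [← rev_rev a, e, rev_rev]
  · intro b hb
    rw [Finset.mem_filter, Finset.mem_product, Finset.mem_filter, Finset.mem_filter] at hb
    have h2 : φ (rgt b) = o := by
      by_contra h3
      exact hb.2 ⟨by by_contra h4; exact h3 (h.out _ h4), h3⟩
    refine ⟨rev b, ?_, rev_rev b⟩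
    refine Finset.mem_filter.2 ⟨?_, ?_⟩
    · rw [mem_ID h.out]
      apply InI.rev
      unfold InI
      rw [h2]
      exact hb.1.1.2
    · rw [rev_fst]; exact h2
  · intro d _
    rw [ar_rev h.cons, neg_neg]

theorem ext_iso (h : Good φ z o K m) :
    4 * Real.pi * |∑ s ∈ K.filter (fun s => φ s ≠ o), ca z s + ∑ d ∈ Mo φ o K, CX φ z d| ≤
      (∑ d ∈ Mo φ o K, CC φ z d) ^ 2 := by
  have hm1 : ∀ d ∈ Mo φ o K, d ∈ So φ o K ∧ trb φ d := fun d hd => Finset.mem_filter.1 hd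
  have key := perm_iso (tl z) (fun d => (nx φ)^[kz φ d] d) (Mo φ o K).card (Mo φ o K) le_rfl
    (fun d hd => by
      obtain ⟨h1, h2⟩ := hm1 d hd
      exact Finset.mem_filter.2 ⟨iter_mem (So_nx h) h1 _, (kk_spec (So_nx h) (So_inj h) h1 h2).2⟩)
    (fun d hd e he heq => ret_inj (So_nx h) (So_inj h) (hm1 d hd).1 (hm1 e he).1 (hm1 d hd).2
      (hm1 e he).2 heq)
  have e1 : ∑ d ∈ Mo φ o K, cr (tl z d) (tl z ((nx φ)^[kz φ d] d)) =
      ∑ d ∈ So φ o K, ar z d - 2 * ∑ d ∈ Mo φ o K, CX φ z d := by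
    rw [← Mo_sum h (ar z), Finset.mul_sum, ← Finset.sum_sub_distrib]
    refine Finset.sum_congr rfl fun d _ => ?_
    rw [CX_eq h.cons]
    ring
  rw [e1, So_ar h] at key
  have e2 : (-(2 * ∑ s ∈ K.filter (fun s => φ s ≠ o), ca z s) - 2 * ∑ d ∈ Mo φ o K, CX φ z d) / 2 =
      -(∑ s ∈ K.filter (fun s => φ s ≠ o), ca z s + ∑ d ∈ Mo φ o K, CX φ z d) := by ring
  rw [e2, abs_neg] at key
  exact key

/-- **Main inequality for minimal labellings.** -/
theorem good_ineq (h : Good φ z o K m) {P M E : ℝ} (hP : P = (∑ d ∈ ID φ K, len z d) / 2)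
    (hM : M = ∑ v ∈ (K.image φ).erase o, m v) (hE : E = 2 * (P - M)) :
    0 ≤ E ∧ 11.657 * (M - 1.27 * E) ≤ E ^ 2 := by
  set X := ∑ d ∈ Mo φ o K, CX φ z d with hX
  set L := ∑ d ∈ Mo φ o K, CL φ z d with hL
  set C := ∑ d ∈ Mo φ o K, CC φ z d with hC
  set A := ∑ s ∈ K.filter (fun s => φ s ≠ o), ca z s with hA
  set b := (((ID φ K).filter (fun d => φ d.1 = o ∧ trb φ d)).card : ℝ) with hb
  have hb0 : 0 ≤ b := Nat.cast_nonneg _
  have hMo : Mo φ o K = (ID φ K).filter (fun d => trb φ d ∧ (φ d.1 = o ∧ φ (rgt d) ≠ o)) := by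
    ext d
    unfold Mo So
    rw [Finset.mem_filter, Finset.mem_filter, Finset.mem_filter]
    constructor
    · rintro ⟨⟨h1, h2⟩, h3⟩
      refine ⟨h1, h3, h2, ?_⟩
      rw [← h2]
      exact ((mem_ID h.out).1 h1).symm
    · rintro ⟨h1, h2, h3, _⟩
      exact ⟨⟨h1, h3⟩, h2⟩
  have hLs : L = ∑ d ∈ So φ o K, len z d := by
    rw [hL, ← Mo_sum h (len z)]
    exact Finset.sum_congr rfl fun d _ => CL_eq h.cons d
  have hL0 : 0 ≤ L := Finset.sum_nonneg fun d _ => CL_nonneg d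
  have hC0 : 0 ≤ C := Finset.sum_nonneg fun d _ => CC_nonneg d
  have hsplit : 2 * P = L + ∑ d ∈ (ID φ K).filter (fun d => φ d.1 ≠ o), len z d := by
    rw [hLs, hP]
    have := Finset.sum_filter_add_sum_filter_not (ID φ K) (fun d => φ d.1 = o) (len z)
    unfold So
    rw [this]
    ring
  -- bound for the areas of exterior chains
  have hbound : ∀ d ∈ Mo φ o K, CL φ z d ≤ 3.039 := by
    intro d hd
    obtain ⟨h1, h2⟩ := Finset.mem_filter.1 hd
    obtain ⟨h3, h4⟩ := Finset.mem_filter.1 h1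
    have h5 := CL_rho h.out h.cons h3 h2
    rw [← h5]
    apply chain_bound3 h (ID_rev h.out _ (iter_ID h.out h3 _)) (rho_facts h.out h3 h2).1
    rw [rho_left h.out h3 h2, ← h4]
    exact ((mem_ID h.out).1 h3).symm
  have hXb : ka * |X| ≤ 0.5586 * L := by
    calc ka * |X| ≤ ka * ∑ d ∈ Mo φ o K, |CX φ z d| :=
          mul_le_mul_of_nonneg_left (Finset.abs_sum_le_sum_abs _ _) ka_pos.le
      _ = ∑ d ∈ Mo φ o K, ka * |CX φ z d| := by rw [Finset.mul_sum]
      _ ≤ ∑ d ∈ Mo φ o K, 0.5586 * CL φ z d := by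
          refine Finset.sum_le_sum fun d hd => ?_
          have h1 := dido_CX (φ := φ) (z := z) d
          have h2 := hbound d hd
          have h3 := CL_nonneg (φ := φ) (z := z) d
          nlinarith
      _ = 0.5586 * L := by rw [← Finset.mul_sum]
  -- interior chains cancel
  have hint : ∑ d ∈ (ID φ K).filter (fun d => trb φ d ∧ (φ d.1 ≠ o ∧ φ (rgt d) ≠ o)), CX φ z d = 0 := by
    have h1 : ∑ d ∈ (ID φ K).filter (fun d => trb φ d ∧ (φ d.1 ≠ o ∧ φ (rgt d) ≠ o)), CX φ z d =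
      ∑ d ∈ (ID φ K).filter (fun d => trb φ d ∧ (φ d.1 ≠ o ∧ φ (rgt d) ≠ o)), -CX φ z d := by
      convert sum_rho h.out (F := CX φ z) (G := fun d => -CX φ z d)
        (p := fun a b => a ≠ o ∧ b ≠ o) (q := fun a b => a ≠ o ∧ b ≠ o)
        (fun a b => and_comm) (fun d hd hP => CX_rho h.out h.cons hd hP)
    rw [Finset.sum_neg_distrib] at h1
    linarith
  have hextX : ∑ d ∈ (ID φ K).filter (fun d => trb φ d ∧ (φ d.1 ≠ o ∧ φ (rgt d) = o)), CX φ z d = -X := by
    rw [hX, hMo, ← Finset.sum_neg_distrib]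
    convert sum_rho h.out (F := CX φ z) (G := fun d => -CX φ z d)
      (p := fun a b => a ≠ o ∧ b = o) (q := fun a b => a = o ∧ b ≠ o)
      (fun a b => and_comm) (fun d hd hP => CX_rho h.out h.cons hd hP)
  have hextC : ∑ d ∈ (ID φ K).filter (fun d => trb φ d ∧ (φ d.1 ≠ o ∧ φ (rgt d) = o)), CC φ z d = C := by
    have h1 := sum_rho h.out (F := CC φ z) (G := CC φ z)
      (p := fun a b => a ≠ o ∧ b = o) (q := fun a b => a = o ∧ b ≠ o)
      (fun a b => and_comm) (fun d hd hP => CC_rho h.out h.cons hd hP)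
    rw [hC, hMo]
    convert h1
  have hextL : ∑ d ∈ (ID φ K).filter (fun d => trb φ d ∧ (φ d.1 ≠ o ∧ φ (rgt d) = o)),
      (CL φ z d + 0.113) = L + 0.113 * b := by
    have h1 := sum_rho h.out (F := fun d => CL φ z d + 0.113) (G := fun d => CL φ z d + 0.113)
      (p := fun a b => a ≠ o ∧ b = o) (q := fun a b => a = o ∧ b ≠ o)
      (fun a b => and_comm) (fun d hd hP => by rw [CL_rho h.out h.cons hd hP])
    have h2 : ∑ d ∈ Mo φ o K, (CL φ z d + 0.113) = L + 0.113 * b := by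
      rw [Finset.sum_add_distrib, Finset.sum_const, nsmul_eq_mul, hL, hb]
      have : Mo φ o K = (ID φ K).filter (fun d => φ d.1 = o ∧ trb φ d) := by
        unfold Mo So
        rw [Finset.filter_filter]
      rw [this]
      ring
    rw [← h2, hMo]
    convert h1
  -- the two total inequalities
  have T1 := total_ineq h NoD (fun _ hf => absurd hf id)
  have T2 := total_ineq h (fun d => φ (rgt d) = o) (fun _ hf => hf)
  have s1 : ∑ d ∈ (ID φ K).filter (fun d => φ d.1 ≠ o ∧ trb φ d ∧ ¬ NoD d), CX φ z d = -X := by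
    have : ∑ d ∈ (ID φ K).filter (fun d => φ d.1 ≠ o ∧ trb φ d ∧ ¬ NoD d), CX φ z d =
        ∑ d ∈ (ID φ K).filter (fun d => trb φ d ∧ (φ d.1 ≠ o ∧ φ (rgt d) ≠ o)), CX φ z d +
        ∑ d ∈ (ID φ K).filter (fun d => trb φ d ∧ (φ d.1 ≠ o ∧ φ (rgt d) = o)), CX φ z d := by
      rw [← Finset.sum_union]
      · refine Finset.sum_congr ?_ fun _ _ => rfl
        ext d
        rw [Finset.mem_union, Finset.mem_filter, Finset.mem_filter, Finset.mem_filter]
        unfold NoD
        tauto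
      · rw [Finset.disjoint_left]
        intro d h1 h2
        exact (Finset.mem_filter.1 h1).2.2.2 (Finset.mem_filter.1 h2).2.2.2
    rw [this, hint, hextX, zero_add]
  have s2 : (ID φ K).filter (fun d => φ d.1 ≠ o ∧ trb φ d ∧ NoD d) = ∅ := by
    rw [Finset.filter_eq_empty_iff]
    simp only [NoD]
    tauto
  have s3 : (ID φ K).filter (fun d => φ d.1 ≠ o ∧ trb φ d ∧ φ (rgt d) = o) =
      (ID φ K).filter (fun d => trb φ d ∧ (φ d.1 ≠ o ∧ φ (rgt d) = o)) := by
    ext d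
    simp only [Finset.mem_filter]
    tauto
  have s4 : (ID φ K).filter (fun d => φ d.1 ≠ o ∧ trb φ d ∧ ¬ φ (rgt d) = o) =
      (ID φ K).filter (fun d => trb φ d ∧ (φ d.1 ≠ o ∧ φ (rgt d) ≠ o)) := by
    ext d
    simp only [Finset.mem_filter]
    tauto
  have T1' : 2 * M + 0.113 * b ≤
      ∑ d ∈ (ID φ K).filter (fun d => φ d.1 ≠ o), len z d + ka * (-X) := by
    rw [s1] at T1
    rw [s2, Finset.sum_empty, Finset.sum_empty, ← hM, ← hb] at T1
    linarith
  have T2' : 2 * M + 1.035 * C ≤ ∑ d ∈ (ID φ K).filter (fun d => φ d.1 ≠ o), len z d + L := by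
    rw [s3, s4, hint, hextC, hextL, ← hM, ← hb] at T2
    linarith
  have hka := ka_pos
  have hXa : ka * (-X) ≤ ka * |X| := mul_le_mul_of_nonneg_left (neg_le_abs X) hka.le
  have hE1 : 0.4414 * L ≤ E := by
    rw [hE]
    linarith
  have hE0 : 0 ≤ E := by linarith
  have hE2 : 1.035 * C ≤ E := by
    rw [hE]; linarith
  refine ⟨hE0, ?_⟩
  have hiso := ext_iso h
  rw [← hA, ← hX, ← hC] at hiso
  have hMA : M ≤ ka * A := by
    rw [hM, hA]
    have h1 : ∑ v ∈ (K.image φ).erase o, m v ≤ ∑ v ∈ (K.image φ).erase o, ka * al φ z K v :=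
      Finset.sum_le_sum fun v _ => h.ma v
    refine h1.trans (le_of_eq ?_)
    rw [← Finset.mul_sum]
    congr 1
    unfold al
    have hmaps : ∀ s ∈ K.filter (fun s => φ s ≠ o), φ s ∈ (K.image φ).erase o := by
      intro s hs
      exact mem_faces h (Finset.mem_filter.1 hs).2
    rw [← Finset.sum_fiberwise_of_maps_to hmaps]
    refine Finset.sum_congr rfl fun v hv => ?_
    refine Finset.sum_congr ?_ fun _ _ => rfl
    ext s
    have hvo : v ≠ o := (Finset.mem_erase.1 hv).1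
    rw [Finset.mem_filter, Finset.mem_filter, Finset.mem_filter]
    constructor
    · rintro ⟨h1, h2⟩
      exact ⟨⟨h1, by rw [h2]; exact hvo⟩, h2⟩
    · rintro ⟨⟨h1, _⟩, h2⟩
      exact ⟨h1, h2⟩
  have h1 : M - 1.27 * E ≤ ka * |A + X| := by
    have a1 : ka * (A + X) ≤ ka * |A + X| := mul_le_mul_of_nonneg_left (le_abs_self _) hka.le
    have a2 : ka * (-X) ≤ 1.27 * E := by linarith
    linarith
  rcases le_or_gt (M - 1.27 * E) 0 with h2 | h2
  · nlinarith [sq_nonneg E]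
  · have hpi := Real.pi_gt_d4
    have hk := ka_hi
    have h3 : 10.882 * ka ≤ 4 * Real.pi := by linarith
    have h4 : 10.882 * (ka * |A + X|) ≤ C ^ 2 := by
      refine le_trans ?_ hiso
      rw [← mul_assoc]
      exact mul_le_mul_of_nonneg_right h3 (abs_nonneg _)
    have h5 : (1.035 * C) ^ 2 ≤ E ^ 2 := pow_le_pow_left₀ (by positivity) hE2 2
    nlinarith

end

end Run7.h761.Lb
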