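import Pool.Agent.Run7.h761.Geo3

/-! Tiling of the plane by squares, averaging over the offset. -/

set_option autoImplicit false

namespace Run7.h761

open MeasureTheory Set Filter Topology
open scoped ENNReal

open Lb (Site Dart dr rgt thd rev rt InI ID ca ar tl len Cons)

/-- the square of the site `s` -/
def Qs (δ : ℝ) (s : Site) : Set Plane :=
  {x | (δ * s.1 ≤ x 0 ∧ x 0 < δ * (s.1 + 1)) ∧ (δ * s.2 ≤ x 1 ∧ x 1 < δ * (s.2 + 1))}

theorem Qs_eq (δ : ℝ) (s : Site) : Qs δ s = (phi : Plane → ℝ × ℝ) ⁻¹'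
    (Ico (δ * s.1) (δ * (s.1 + 1)) ×ˢ Ico (δ * s.2) (δ * (s.2 + 1))) := rfl

theorem measurableSet_Qs (δ : ℝ) (s : Site) : MeasurableSet (Qs δ s) := by
  rw [Qs_eq]
  exact phi.continuous.measurable (measurableSet_Ico.prod measurableSet_Ico)

theorem volume_Qs {δ : ℝ} (hδ : 0 < δ) (s : Site) : volume (Qs δ s) = ENNReal.ofReal (δ ^ 2) := by
  rw [Qs_eq, phi_mp.measure_preimage (measurableSet_Ico.prod measurableSet_Ico).nullMeasurableSet]
  rw [show (volume : Measure (ℝ × ℝ)) = (volume : Measure ℝ).prod volume from rfl,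
    Measure.prod_prod, Real.volume_Ico, Real.volume_Ico, ← ENNReal.ofReal_mul]
  · congr 1; ring
  · nlinarith

theorem Qs_disjoint {δ : ℝ} (hδ : 0 < δ) : Pairwise (Function.onFun Disjoint (Qs δ)) := by
  intro s t hst
  rw [Function.onFun, Set.disjoint_left]
  rintro x ⟨⟨h1, h2⟩, ⟨h3, h4⟩⟩ ⟨⟨h5, h6⟩, ⟨h7, h8⟩⟩
  apply hst
  have key : ∀ a b : ℤ, ∀ c : ℝ, δ * a ≤ c → c < δ * (b + 1) → a < b + 1 := by
    intro a b c h h'
    have : δ * (a : ℝ) < δ * ((b : ℝ) + 1) := lt_of_le_of_lt h h'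
    have := lt_of_mul_lt_mul_left this hδ.le
    exact_mod_cast this
  ext
  · have a1 := key _ _ _ h1 h6
    have a2 := key _ _ _ h5 h2
    omega
  · have a1 := key _ _ _ h3 h8
    have a2 := key _ _ _ h7 h4
    omega

theorem Qs_union {δ : ℝ} (hδ : 0 < δ) : ⋃ s, Qs δ s = univ := by
  rw [eq_univ_iff_forall]
  intro x
  rw [mem_iUnion]
  have key : ∀ c : ℝ, δ * (⌊c / δ⌋ : ℝ) ≤ c ∧ c < δ * ((⌊c / δ⌋ : ℝ) + 1) := by
    intro c
    have h1 := Int.floor_le (c / δ)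
    have h2 := Int.lt_floor_add_one (c / δ)
    rw [le_div_iff₀ hδ] at h1
    rw [div_lt_iff₀ hδ] at h2
    constructor <;> linarith
  exact ⟨(⌊x 0 / δ⌋, ⌊x 1 / δ⌋), key _, key _⟩

theorem mem_Qs_shift {δ : ℝ} (s : Site) (y : Plane) : y + δ • sv s ∈ Qs δ s ↔ y ∈ Qs δ (0, 0) := by
  unfold Qs sv
  simp only [mem_ofPred_eq, PiLp.add_apply, PiLp.smul_apply, smul_eq_mul, Int.cast_zero, mul_zero,
    zero_add, mul_one]
  have e0 : (![(s.1 : ℝ), (s.2 : ℝ)]) 0 = s.1 := rfl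
  have e1 : (![(s.1 : ℝ), (s.2 : ℝ)]) 1 = s.2 := rfl
  rw [e0, e1]
  constructor
  · rintro ⟨⟨h1, h2⟩, ⟨h3, h4⟩⟩
    refine ⟨⟨?_, ?_⟩, ⟨?_, ?_⟩⟩ <;> nlinarith
  · rintro ⟨⟨h1, h2⟩, ⟨h3, h4⟩⟩
    refine ⟨⟨?_, ?_⟩, ⟨?_, ?_⟩⟩ <;> nlinarith

/-- **tiling** -/
theorem tiling {δ : ℝ} (hδ : 0 < δ) {F : Plane → ℝ≥0∞} (hF : Measurable F) :
    ∫⁻ y in Qs δ (0, 0), ∑' s, F (pt y δ s) = ∫⁻ x, F x := by
  have h1 : ∫⁻ x, F x = ∑' s, ∫⁻ x in Qs δ s, F x := by
    rw [← setLIntegral_univ, ← Qs_union hδ]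
    exact lintegral_iUnion (measurableSet_Qs δ) (Qs_disjoint hδ) F
  rw [h1, lintegral_tsum]
  · congr 1
    funext s
    rw [← lintegral_indicator (measurableSet_Qs δ s), ← lintegral_indicator (measurableSet_Qs δ (0, 0)),
      ← lintegral_add_right_eq_self (fun x => (Qs δ s).indicator (fun x => F x) x) (δ • sv s)]
    congr 1
    funext y
    by_cases h : y ∈ Qs δ (0, 0)
    · rw [indicator_of_mem h, indicator_of_mem ((mem_Qs_shift s y).2 h)]
      rfl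
    · rw [indicator_of_notMem h, indicator_of_notMem (fun h' => h ((mem_Qs_shift s y).1 h'))]
  · intro s
    exact (hF.comp (measurable_id.add_const (δ • sv s))).aemeasurable

/-- choice of a good offset -/
theorem exists_offset {δ : ℝ} (hδ : 0 < δ) {F : Plane → ℝ≥0∞} (hF : Measurable F) {C : ℝ}
    (hC : 0 ≤ C) (h : ∫⁻ x, F x ≤ ENNReal.ofReal (δ ^ 2 * C)) :
    ∃ y, ∑' s, F (pt y δ s) ≤ ENNReal.ofReal C := by
  have hv := volume_Qs hδ (0, 0)
  have hv0 : ENNReal.ofReal (δ ^ 2) ≠ 0 := by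
    simp only [ne_eq, ENNReal.ofReal_eq_zero, not_le]
    positivity
  have hm : AEMeasurable (fun y => ∑' s, F (pt y δ s)) (volume.restrict (Qs δ (0, 0))) := by
    apply Measurable.aemeasurable
    apply Measurable.ennreal_tsum
    intro s
    exact hF.comp (measurable_id.add_const (δ • sv s))
  obtain ⟨y, _, hy⟩ := exists_le_setLAverage (by rw [hv]; exact hv0)
    (by rw [hv]; exact ENNReal.ofReal_ne_top) hm
  refine ⟨y, hy.trans ?_⟩
  rw [setLAverage_eq, tiling hδ hF, hv]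
  apply ENNReal.div_le_of_le_mul
  refine h.trans (le_of_eq ?_)
  rw [mul_comm, ENNReal.ofReal_mul hC]

end Run7.h761
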