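import Pool.Agent.Run7.h761.Count

/-! The family together with a patch of regular hexagons far away. -/

set_option autoImplicit false

namespace Run7.h761

open scoped Classical

/-- positions of the patch -/
def ppos (a q : ℕ) (i : ℕ) : V := ((a : ℤ) + (i % q : ℕ), ((i / q : ℕ) : ℤ))

/-- the patch: `r` cells in rows of length `q` starting at abscissa `a` -/
noncomputable def patch (a q r : ℕ) : Finset V := (Finset.range r).image (ppos a q)

theorem ppos_inj {a q : ℕ} {i j : ℕ} (h : ppos a q i = ppos a q j) : i = j := by
  unfold ppos at h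
  simp only [Prod.mk.injEq, Nat.cast_inj] at h
  obtain ⟨h1, h2⟩ := h
  have h1' : i % q = j % q := by omega
  rw [← Nat.div_add_mod i q, ← Nat.div_add_mod j q, h1', h2]

theorem patch_card (a q r : ℕ) : (patch a q r).card = r := by
  unfold patch
  rw [Finset.card_image_of_injective _ (fun i j h => ppos_inj h), Finset.card_range]

/-- boundary indices of the patch -/
def badI (q r i : ℕ) : Prop := i % q = 0 ∨ i % q = q - 1 ∨ i / q = 0 ∨ r ≤ i + q

theorem bad_card {q r : ℕ} (hq : 0 < q) (hr : r ≤ q * q) :
    ((Finset.range r).filter (badI q r)).card ≤ 4 * q := by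
  have hsub : (Finset.range r).filter (badI q r) ⊆
      (((Finset.range q).image fun t => q * t) ∪ ((Finset.range q).image fun t => q * t + (q - 1))) ∪
      (Finset.range q ∪ Finset.Ico (r - q) r) := by
    intro i hi
    obtain ⟨h1, h2⟩ := Finset.mem_filter.1 hi
    have h1' := Finset.mem_range.1 h1
    have hdiv : i / q < q := Nat.div_lt_of_lt_mul (lt_of_lt_of_le h1' hr)
    have hdm := Nat.div_add_mod i q
    simp only [Finset.mem_union, Finset.mem_image, Finset.mem_range, Finset.mem_Ico]
    rcases h2 with h2 | h2 | h2 | h2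
    · left; left
      exact ⟨i / q, hdiv, by rw [h2] at hdm; omega⟩
    · left; right
      exact ⟨i / q, hdiv, by rw [h2] at hdm; omega⟩
    · right; left
      rw [h2] at hdm
      have := Nat.mod_lt i hq
      omega
    · right; right
      omega
  refine (Finset.card_le_card hsub).trans ?_
  refine (Finset.card_union_le _ _).trans ?_
  have h1 := Finset.card_union_le ((Finset.range q).image fun t => q * t)
    ((Finset.range q).image fun t => q * t + (q - 1))
  have h2 := Finset.card_union_le (Finset.range q) (Finset.Ico (r - q) r)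
  have h3 := Finset.card_image_le (s := Finset.range q) (f := fun t => q * t)
  have h4 := Finset.card_image_le (s := Finset.range q) (f := fun t => q * t + (q - 1))
  rw [Finset.card_range] at h2 h3 h4
  rw [Nat.card_Ico] at h2
  omega

/-- interior cells of the patch have all their neighbours in the patch -/
theorem patch_nb {a q r i : ℕ} (hq : 0 < q) (hi : i < r) (hb : ¬ badI q r i) (j : Fin 6) :
    ppos a q i + dir j ∈ patch a q r := by
  unfold badI at hb
  push Not at hb
  obtain ⟨h1, h2, h3, h4⟩ := hb
  have hdm := Nat.div_add_mod i q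
  have hm := Nat.mod_lt i hq
  set x := i % q with hx
  set y := i / q with hy
  have key : ∀ x' y' : ℕ, x' < q → q * y' + x' < r → ((a : ℤ) + (x' : ℤ), (y' : ℤ)) ∈ patch a q r := by
    intro x' y' hx' hlt
    refine Finset.mem_image.2 ⟨q * y' + x', Finset.mem_range.2 hlt, ?_⟩
    unfold ppos
    rw [Nat.mul_add_mod, Nat.mod_eq_of_lt hx', Nat.mul_add_div hq, Nat.div_eq_of_lt hx', add_zero]
  have hp : ppos a q i = ((a : ℤ) + (x : ℤ), (y : ℤ)) := rfl
  rw [hp]
  obtain ⟨x1, hx1⟩ : ∃ x1, x = x1 + 1 := Nat.exists_eq_succ_of_ne_zero h1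
  obtain ⟨y1, hy1⟩ : ∃ y1, y = y1 + 1 := Nat.exists_eq_succ_of_ne_zero h3
  fin_cases j
  · have := key (x + 1) y (by omega) (by omega)
    convert this using 1
    simp [dir]; ring
  · have := key x (y + 1) hm (by
      have e : q * (y + 1) = q * y + q := by ring
      omega)
    convert this using 1
    simp [dir]
  · have := key x1 (y + 1) (by omega) (by
      have e : q * (y + 1) = q * y + q := by ring
      omega)
    convert this using 1
    simp [dir]; push_cast [hx1]; ring
  · have := key x1 y (by omega) (by omega)
    convert this using 1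
    simp [dir]; push_cast [hx1]; ring
  · have := key x y1 hm (by rw [hy1, Nat.mul_add] at hdm; omega)
    convert this using 1
    simp [dir]; push_cast [hy1]; ring
  · have := key (x + 1) y1 (by omega) (by rw [hy1, Nat.mul_add] at hdm; omega)
    convert this using 1
    simp [dir]; push_cast [hy1]; constructor <;> ring

/-- the polygons of the whole configuration -/
noncomputable def tplace (k : ℤ) (p : V) : Poly :=
  if p ∈ occK k then place k p else trg (mv 0 p) 0 hexP

theorem occK_fst {k : ℤ} {p : V} (h : p ∈ occK k) : p.1 ≤ 30 * k := by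
  unfold occK at h
  have := (Finset.mem_product.1 (Finset.mem_filter.1 h).1).1
  exact (Finset.mem_Icc.1 this).2

theorem patch_fst {a q r : ℕ} {p : V} (h : p ∈ patch a q r) : (a : ℤ) ≤ p.1 := by
  obtain ⟨i, _, rfl⟩ := Finset.mem_image.1 h
  unfold ppos
  simp only
  omega

theorem dir_fst (j : Fin 6) : |(dir j).1| ≤ 1 := by revert j; decide

/-- **The main perimeter bound.** -/
theorem main_bound (k r : ℕ) (hk : 1 ≤ k) :
    leastPerimeter ((occK k).card + r) ≤ ENNReal.ofReal (3 * (((occK k).card : ℝ) + r) +
      159.95 * k + 2281111 + 96 * ((Nat.sqrt r : ℝ) + 1)) := by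
  set q := Nat.sqrt r + 1 with hq
  have hqpos : 0 < q := by omega
  have hrq : r ≤ q * q := by
    have := Nat.lt_succ_sqrt r
    rw [hq]
    exact this.le
  set a := 30 * k + 100 with ha
  have hdisj : Disjoint (occK k) (patch a q r) := by
    rw [Finset.disjoint_left]
    intro p h1 h2
    have h3 := occK_fst h1
    have h4 := patch_fst h2
    push_cast [ha] at h4
    omega
  set occ := occK k ∪ patch a q r with hocc
  have hcard : occ.card = (occK k).card + r := by
    rw [hocc, Finset.card_union_of_disjoint hdisj, patch_card]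
  have hA : ∀ p, p ∈ occK k → tplace k p = place k p := fun p hp => by
    unfold tplace; rw [if_pos hp]
  have hB : ∀ p, p ∈ patch a q r → tplace k p = trg (mv 0 p) 0 hexP := fun p hp => by
    unfold tplace; rw [if_neg (fun h => Finset.disjoint_left.1 hdisj h hp)]
  have hsepAB : ∀ p j, p ∈ occK k → p + dir j ∈ occ → p + dir j ∈ occK k := by
    intro p j h1 h2
    rcases Finset.mem_union.1 h2 with h | h
    · exact h
    · exfalso
      have h3 := occK_fst h1
      have h4 := patch_fst h
      have h5 := dir_fst j
      rw [abs_le] at h5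
      simp only [Prod.fst_add] at h4
      push_cast [ha] at h4
      omega
  have hsepBA : ∀ p j, p ∈ patch a q r → p + dir j ∈ occ → p + dir j ∈ patch a q r := by
    intro p j h1 h2
    rcases Finset.mem_union.1 h2 with h | h
    · exfalso
      have h3 := occK_fst h
      have h4 := patch_fst h1
      have h5 := dir_fst j
      rw [abs_le] at h5
      simp only [Prod.fst_add] at h3
      push_cast [ha] at h4
      omega
    · exact h
  have hvalid : ∀ p ∈ occ, Valid (tplace k p) ∧ InWin p (tplace k p) ∧
      perR (tplace k p) ≤ 8 * SS := by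
    intro p hp
    rcases Finset.mem_union.1 hp with h | h
    · rw [hA p h]; exact place_valid (mem_occK.1 h)
    · rw [hB p h]
      obtain ⟨x, y, z⟩ := validB_iff valid_hexP
      exact ⟨valid_trg (good_mv _ _) _ x, inWin_trg y _ _, by rw [perR_trg]; exact z⟩
  have hadj : ∀ p ∈ occ, ∀ j, p + dir j ∈ occ →
      sepP (tplace k p) (tplace k (p + dir j)) = true ∧
        Matched (tplace k p) j (tplace k (p + dir j)) := by
    intro p hp j hpj
    rcases Finset.mem_union.1 hp with h | h
    · have h' := hsepAB p j h hpj
      rw [hA p h, hA _ h']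
      exact place_adj (mem_occK.1 h) (mem_occK.1 h')
    · have h' := hsepBA p j h hpj
      rw [hB p h, hB _ h']
      have h3 := transfer (chkHex j) 0 p
      rw [hexV_zero] at h3
      have h4 : rotn 0 (dir j) = dir j := rfl
      rw [h4, add_zero] at h3
      exact h3
  have hcfg := config_bound occ (tplace k) (fun p hp => (hvalid p hp).1)
    (fun p hp => (hvalid p hp).2.1) (fun p hp j hj => (hadj p hp j hj).1)
    (fun p hp j hj => (hadj p hp j hj).2)
  rw [hcard] at hcfg
  refine hcfg.trans (ENNReal.ofReal_le_ofReal ?_)
  have hS := SS_pos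
  -- the sum of the weights
  have hsum : ∑ p ∈ occ, ((perR (tplace k p) : ℝ) + outR (tplace k p)) ≤
      6 * SS * (((occK k).card : ℝ) + r) + 3199000000 * k + 3000000000 := by
    have h1 : ∑ p ∈ occ, ((perR (tplace k p) : ℝ) + outR (tplace k p)) =
        ∑ p ∈ occ, ((W (tplace k p) : ℝ) + 6 * SS) := by
      refine Finset.sum_congr rfl fun p _ => ?_
      unfold W
      push_cast
      ring
    rw [h1, Finset.sum_add_distrib, Finset.sum_const, nsmul_eq_mul, hcard]
    have h2 : ∑ p ∈ occ, (W (tplace k p) : ℝ) = ((∑ p ∈ occK k, W (place k p) : ℤ) : ℝ) := by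
      rw [hocc, Finset.sum_union hdisj]
      have h3 : ∑ p ∈ patch a q r, (W (tplace k p) : ℝ) = 0 := by
        refine Finset.sum_eq_zero fun p hp => ?_
        rw [hB p hp, W_trg, W_hex]
        simp
      rw [h3, add_zero]
      push_cast
      exact Finset.sum_congr rfl fun p hp => by rw [hA p hp]
    have h4 : ∑ p ∈ occK k, W (place k p) ≤ 3199000000 * k + 3000000000 := by
      have h5 := W_sum (k := (k : ℤ)) (by positivity)
      rw [W_sum_eq] at h5
      have h6 := coefA_le
      have h7 := coefB_le
      have h8 : coefA * k ≤ 3199000000 * k := by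
        apply mul_le_mul_of_nonneg_right h6
        positivity
      omega
    have h4' : ((∑ p ∈ occK k, W (place k p) : ℤ) : ℝ) ≤ 3199000000 * k + 3000000000 := by
      exact_mod_cast h4
    rw [h2, Nat.cast_add]
    linarith
  -- the unmatched slots
  have hU : ∑ x ∈ (occ ×ˢ (Finset.univ : Finset (Fin 6))).filter
        (fun x => x.1 + dir x.2 ∉ occ ∧ slot (tplace k x.1) x.2 ≠ []), (perR (tplace k x.1) : ℝ) ≤
      8 * SS * (6 * (95040 + 4 * q)) := by
    have h1 : (occ ×ˢ (Finset.univ : Finset (Fin 6))).filter
        (fun x => x.1 + dir x.2 ∉ occ ∧ slot (tplace k x.1) x.2 ≠ []) ⊆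
        (((occK k).filter (Corner k)) ∪ ((Finset.range r).filter (badI q r)).image (ppos a q)) ×ˢ
          (Finset.univ : Finset (Fin 6)) := by
      rintro ⟨p, j⟩ hx
      obtain ⟨h2, h3, h4⟩ := Finset.mem_filter.1 hx
      have h2' := (Finset.mem_product.1 h2).1
      simp only at h2' h3 h4
      refine Finset.mem_product.2 ⟨?_, Finset.mem_univ _⟩
      simp only
      rcases Finset.mem_union.1 h2' with h | h
      · apply Finset.mem_union_left
        refine Finset.mem_filter.2 ⟨h, ?_⟩
        rw [hA p h] at h4
        exact corner_of_unmatched (mem_occK.1 h)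
          (fun h' => h3 (Finset.mem_union_left _ (mem_occK.2 h'))) h4
      · apply Finset.mem_union_right
        obtain ⟨i, hi, rfl⟩ := Finset.mem_image.1 h
        refine Finset.mem_image.2 ⟨i, Finset.mem_filter.2 ⟨hi, ?_⟩, rfl⟩
        by_contra hb
        exact h3 (Finset.mem_union_right _ (patch_nb hqpos (Finset.mem_range.1 hi) hb j))
    have h2 : ((occ ×ˢ (Finset.univ : Finset (Fin 6))).filter
        (fun x => x.1 + dir x.2 ∉ occ ∧ slot (tplace k x.1) x.2 ≠ [])).card ≤
        6 * (95040 + 4 * q) := by
      refine (Finset.card_le_card h1).trans ?_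
      rw [Finset.card_product, Finset.card_univ, Fintype.card_fin, mul_comm]
      apply Nat.mul_le_mul_left
      refine (Finset.card_union_le _ _).trans ?_
      have h3 := corner_card (k := (k : ℤ)) (by exact_mod_cast hk)
      have h4 := (Finset.card_image_le (s := (Finset.range r).filter (badI q r))
        (f := ppos a q)).trans (bad_card hqpos hrq)
      omega
    have h3 := Finset.sum_le_card_nsmul _ (fun x : V × Fin 6 => (perR (tplace k x.1) : ℝ)) (8 * SS)
      (fun x hx => by
        have hx' := (Finset.mem_product.1 (Finset.mem_filter.1 hx).1).1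
        exact_mod_cast (hvalid x.1 hx').2.2 :
        ∀ x ∈ (occ ×ˢ (Finset.univ : Finset (Fin 6))).filter
          (fun x => x.1 + dir x.2 ∉ occ ∧ slot (tplace k x.1) x.2 ≠ []), _)
    refine h3.trans ?_
    rw [nsmul_eq_mul, mul_comm]
    apply mul_le_mul_of_nonneg_left _ (by positivity)
    exact_mod_cast h2
  have hfin := add_le_add hsum hU
  rw [div_le_iff₀ (by positivity)]
  refine hfin.trans ?_
  have hSv : (SS : ℝ) = 10000000 := by norm_num [SS]
  rw [hSv]
  push_cast [hq]
  linarith

end Run7.h761
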