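import Pool.Agent.Run7.h761.Shift
import Pool.Agent.Run7.h761.Fan

/-! Triangle fluxes of sets of finite perimeter. -/

set_option autoImplicit false

namespace Run7.h761

open MeasureTheory Set Filter Topology
open scoped ENNReal

/-- the unit interval measure -/
noncomputable def nu : Measure ℝ := volume.restrict (Ioc 0 1)

instance : IsFiniteMeasure nu := by
  unfold nu
  exact isFiniteMeasure_restrict.2 (by simp)

theorem nu_univ : nu.real univ = 1 := by
  unfold nu
  simp [Measure.real]

/-- fraction of the segment from `y` to `y + a` which lies in `E` -/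
noncomputable def frac (E : Set Plane) (y a : Plane) : ℝ := ∫ t, ch E (y + t • a) ∂nu

theorem measurable_seg {E : Set Plane} (hE : MeasurableSet E) (p a : Plane) :
    Measurable fun z : Plane × ℝ => ch E (z.1 + p + z.2 • a) := by
  apply (measurable_ch hE).comp
  have : Continuous fun z : Plane × ℝ => z.1 + p + z.2 • a := by fun_prop
  exact this.measurable

theorem measurable_frac {E : Set Plane} (hE : MeasurableSet E) (p a : Plane) :
    Measurable fun y => frac E (y + p) a := by
  have := (measurable_seg hE p a).stronglyMeasurable.integral_prod_right' (ν := nu)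
  exact this.measurable

theorem integrable_seg {E : Set Plane} (hE : MeasurableSet E) (y a : Plane) :
    Integrable (fun t => ch E (y + t • a)) nu := by
  apply Integrable.of_bound (C := 1)
  · have : Continuous fun t : ℝ => y + t • a := by fun_prop
    exact ((measurable_ch hE).comp this.measurable).aestronglyMeasurable
  · refine Eventually.of_forall fun t => ?_
    rw [Real.norm_eq_abs, abs_of_nonneg (ch_nonneg _ _)]
    exact ch_le _ _

theorem frac_nonneg (E : Set Plane) (y a : Plane) : 0 ≤ frac E y a :=
  integral_nonneg fun _ => ch_nonneg _ _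

theorem frac_le {E : Set Plane} (hE : MeasurableSet E) (y a : Plane) : frac E y a ≤ 1 := by
  unfold frac
  calc ∫ t, ch E (y + t • a) ∂nu ≤ ∫ t, (1 : ℝ) ∂nu :=
        integral_mono (integrable_seg hE y a) (integrable_const _) fun t => ch_le _ _
    _ = 1 := by rw [integral_const, nu_univ]; simp

/-- pairing with a test function -/
theorem pair_seg {E : Set Plane} (hE : MeasurableSet E) {f : Plane → ℝ} (hf : Continuous f)
    (hfc : HasCompactSupport f) (p a : Plane) :
    ∫ y, frac E (y + p) a * f y = ∫ x, ch E x * ∫ t, f (x - p - t • a) ∂nu := by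
  obtain ⟨B, hB⟩ := hfc.exists_bound_of_continuous hf
  have hfi : Integrable f := hf.integrable_of_hasCompactSupport hfc
  obtain ⟨r, hr⟩ := hfc.isCompact.isBounded.subset_closedBall (0 : Plane)
  have i1 : Integrable (fun z : Plane × ℝ => ch E (z.1 + p + z.2 • a) * f z.1)
      ((volume : Measure Plane).prod nu) := by
    refine (hfi.comp_fst nu).mono ?_ ?_
    · exact (measurable_seg hE p a).aestronglyMeasurable.mul
        (hf.measurable.comp measurable_fst).aestronglyMeasurable
    · refine Eventually.of_forall fun z => ?_
      rw [norm_mul, Real.norm_eq_abs, abs_of_nonneg (ch_nonneg _ _)]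
      exact mul_le_of_le_one_left (norm_nonneg _) (ch_le _ _)
  have i2 : Integrable (fun z : Plane × ℝ => ch E z.1 * f (z.1 - p - z.2 • a))
      ((volume : Measure Plane).prod nu) := by
    have hind : Integrable ((Metric.closedBall (0 : Plane) (r + ‖p‖ + ‖a‖)).indicator
        (fun _ => B)) := by
      rw [integrable_indicator_iff Metric.isClosed_closedBall.measurableSet]
      exact integrableOn_const (measure_closedBall_lt_top).ne
    refine (hind.comp_fst nu).mono ?_ ?_
    · have : Continuous fun z : Plane × ℝ => z.1 - p - z.2 • a := by fun_prop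
      exact ((measurable_ch hE).comp measurable_fst).aestronglyMeasurable.mul
        (hf.comp this).aestronglyMeasurable
    · have hnu : ∀ᵐ z ∂((volume : Measure Plane).prod nu), z.2 ∈ Ioc (0 : ℝ) 1 := by
        have h1 : ∀ᵐ t ∂nu, t ∈ Ioc (0 : ℝ) 1 := by
          unfold nu
          exact ae_restrict_mem measurableSet_Ioc
        exact Measure.quasiMeasurePreserving_snd.ae h1
      filter_upwards [hnu] with z hz
      rw [norm_mul, Real.norm_eq_abs, abs_of_nonneg (ch_nonneg _ _)]
      refine (mul_le_of_le_one_left (norm_nonneg _) (ch_le _ _)).trans ?_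
      have hB0 : 0 ≤ B := (norm_nonneg _).trans (hB 0)
      by_cases h1 : z.1 ∈ Metric.closedBall (0 : Plane) (r + ‖p‖ + ‖a‖)
      · rw [indicator_of_mem h1, Real.norm_eq_abs B, abs_of_nonneg hB0]
        exact hB _
      · rw [indicator_of_notMem h1]
        have h2 : f (z.1 - p - z.2 • a) = 0 := by
          apply image_eq_zero_of_notMem_tsupport
          intro h3
          have h4 := hr h3
          rw [Metric.mem_closedBall, dist_zero_right] at h1 h4
          apply h1
          have h5 : ‖z.1‖ ≤ ‖z.1 - p - z.2 • a‖ + ‖p‖ + ‖z.2 • a‖ := by
            calc ‖z.1‖ = ‖(z.1 - p - z.2 • a) + p + z.2 • a‖ := by congr 1; abel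
              _ ≤ _ := norm_add₃_le
          have h6 : ‖z.2 • a‖ ≤ ‖a‖ := by
            rw [norm_smul, Real.norm_eq_abs, abs_of_pos hz.1]
            exact mul_le_of_le_one_left (norm_nonneg _) hz.2
          linarith
        rw [h2]
  have e1 : ∫ y, frac E (y + p) a * f y =
      ∫ y, ∫ t, ch E (y + p + t • a) * f y ∂nu := by
    congr 1
    funext y
    unfold frac
    rw [integral_mul_const]
  have e2 : ∫ x, ch E x * ∫ t, f (x - p - t • a) ∂nu =
      ∫ x, ∫ t, ch E x * f (x - p - t • a) ∂nu := by
    congr 1
    funext x
    rw [integral_const_mul]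
  rw [e1, e2, integral_integral_swap (f := fun y t => ch E (y + p + t • a) * f y) i1,
    integral_integral_swap (f := fun x t => ch E x * f (x - p - t • a)) i2]
  congr 1
  funext t
  have := integral_add_right_eq_self (fun x => ch E x * f (x - p - t • a)) (p + t • a)
    (μ := (volume : Measure Plane))
  rw [← this]
  congr 1
  funext y
  have h1 : y + (p + t • a) = y + p + t • a := by abel
  have h2 : y + p + t • a - p - t • a = y := by abel
  rw [h1, h2]

/-- flux vector of a set through the boundary of a triangle -/
noncomputable def wv (E : Set Plane) (u v y : Plane) : Plane :=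
  frac E y u • u + frac E (y + u) (v - u) • (v - u) + frac E (y + v) (-v) • (-v)

theorem measurable_wv {E : Set Plane} (hE : MeasurableSet E) (u v : Plane) :
    Measurable (wv E u v) := by
  unfold wv
  have h0 : Measurable fun y => frac E y u := by
    have := measurable_frac hE 0 u
    simpa using this
  exact ((h0.smul_const u).add ((measurable_frac hE u (v - u)).smul_const _)).add
    ((measurable_frac hE v (-v)).smul_const _)

/-- **triangle fluxes are bounded by the perimeter** -/
theorem tri_flux_bound {E : Set Plane} (hE : MeasurableSet E) (hp : perimeter E ≠ ⊤) {u v : Plane}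
    (huv : 0 < om u v) : ∫⁻ y, ENNReal.ofReal ‖wv E u v y‖ ≤
      ENNReal.ofReal (om u v / 2 * PerR E) := by
  apply dual_bound (measurable_wv hE u v) (B := ‖u‖ + ‖v - u‖ + ‖v‖)
  · intro y
    unfold wv
    refine norm_add₃_le.trans ?_
    have h : ∀ (y a : Plane), ‖frac E y a • a‖ ≤ ‖a‖ := by
      intro y a
      rw [norm_smul, Real.norm_eq_abs, abs_of_nonneg (frac_nonneg _ _ _)]
      exact mul_le_of_le_one_left (norm_nonneg _) (frac_le hE _ _)
    have h1 := h y u
    have h2 := h (y + u) (v - u)
    have h3 := h (y + v) (-v)
    rw [norm_neg] at h3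
    linarith
  · intro ψ h1 hc hb
    -- the edges
    have hcont : ∀ a : Plane, Continuous fun y => om (ψ y) a := fun a => (contDiff_om_const h1 a).continuous
    have hcomp : ∀ a : Plane, HasCompactSupport fun y => om (ψ y) a := fun a => compact_om_const hc a
    have hint : ∀ p a : Plane, Integrable fun y => frac E (y + p) a * om (ψ y) a := by
      intro p a
      have hfi : Integrable fun y => om (ψ y) a := (hcont a).integrable_of_hasCompactSupport (hcomp a)
      refine hfi.mono ((measurable_frac hE p a).aestronglyMeasurable.mul
        hfi.aestronglyMeasurable) ?_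
      refine Eventually.of_forall fun y => ?_
      rw [norm_mul, Real.norm_eq_abs, abs_of_nonneg (frac_nonneg _ _ _)]
      exact mul_le_of_le_one_left (norm_nonneg _) (frac_le hE _ _)
    have hflux : ∀ (x p a : Plane), ∫ t, om (ψ (x - p - t • a)) a ∂nu =
        flux (fun q => ψ (x - q)) p (p + a) := by
      intro x p a
      unfold flux nu
      rw [intervalIntegral.integral_of_le zero_le_one]
      congr 1
      funext t
      have h2 : p + a - p = a := by abel
      rw [h2]
      congr 2
      abel
    have hpair : ∀ p a : Plane, ∫ y, frac E (y + p) a * om (ψ y) a =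
        ∫ x, ch E x * flux (fun q => ψ (x - q)) p (p + a) := by
      intro p a
      rw [pair_seg hE (hcont a) (hcomp a)]
      congr 1
      funext x
      rw [hflux]
    set ν : Measure Plane := volume.restrict (tri 0 u v) with hν
    have hbd := isBounded_tri 0 u v
    haveI : IsFiniteMeasure ν := by
      rw [hν]
      exact isFiniteMeasure_restrict.2 hbd.measure_lt_top.ne
    obtain ⟨ρ, hρ⟩ := hbd.subset_closedBall (0 : Plane)
    have hmt : MeasurableSet (tri 0 u v) := (isOpen_tri huv).measurableSet
    have hρ' : ∀ᵐ t ∂ν, ‖t‖ ≤ ρ := by
      rw [hν, ae_restrict_iff' hmt]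
      refine Eventually.of_forall fun t ht => ?_
      have := hρ ht
      rwa [Metric.mem_closedBall, dist_zero_right] at this
    have q1 := avg_contDiff ν measurable_id h1 hc
    have q2 := avg_compact ν measurable_id h1 hc hρ'
    have q3 := avg_bound ν measurable_id h1 hc hb
    have q4 := avg_div ν measurable_id h1 hc
    have hνu : ν.real univ = om u v / 2 := by
      rw [hν, measureReal_restrict_apply_univ]
      exact volume_tri huv
    rw [hνu] at q3
    have key := flux_le_perimeter hp (c := om u v / 2) (by positivity) q1 q2
      (fun x => (q3 x).trans (le_of_eq (one_mul _)))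
    have hgreen : ∀ x, flux (fun q => ψ (x - q)) 0 (0 + u) +
        flux (fun q => ψ (x - q)) (0 + u) (0 + v) + flux (fun q => ψ (x - q)) (0 + v) 0 =
        -divergence (fun x => ∫ t, ψ (x - id t) ∂ν) x := by
      intro x
      have hφ : ContDiff ℝ 1 fun q => ψ (x - q) := h1.comp (contDiff_const.sub contDiff_id)
      rw [← green_tri hφ huv, q4 x, hν, ← integral_neg]
      congr 1
      funext q
      rw [divL_apply, divL_apply]
      have g1 : HasFDerivAt ψ (fderiv ℝ ψ (x - q)) (x - q) :=
        (h1.differentiable (by norm_num) _).hasFDerivAt
      have g2 : HasFDerivAt (fun q : Plane => x - q) (-ContinuousLinearMap.id ℝ Plane) q :=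
        (hasFDerivAt_id q).const_sub x
      have g3 : HasFDerivAt (fun q => ψ (x - q)) ((fderiv ℝ ψ (x - q)).comp
        (-ContinuousLinearMap.id ℝ Plane)) q := g1.comp q g2
      rw [g3.fderiv]
      have : (fderiv ℝ ψ (x - q)).comp (-ContinuousLinearMap.id ℝ Plane) = -fderiv ℝ ψ (x - q) := by
        ext w
        simp
      rw [this, map_neg]
      rfl
    have e1 : ∫ y, om (ψ y) (wv E u v y) = ∫ x, ch E x *
        (-divergence (fun x => ∫ t, ψ (x - id t) ∂ν) x) := by
      have s1 : ∀ y, om (ψ y) (wv E u v y) = frac E (y + 0) u * om (ψ y) u +
          frac E (y + u) (v - u) * om (ψ y) (v - u) + frac E (y + v) (-v) * om (ψ y) (-v) := by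
        intro y
        unfold wv
        rw [om_add_right, om_add_right, om_smul_right, om_smul_right, om_smul_right, add_zero]
      simp_rw [s1]
      have i12 : Integrable fun y => frac E (y + 0) u * om (ψ y) u +
        frac E (y + u) (v - u) * om (ψ y) (v - u) := (hint 0 u).add (hint u (v - u))
      rw [integral_add i12 (hint v (-v)),
        integral_add (hint 0 u) (hint u (v - u)), hpair, hpair, hpair]
      have hfl : ∀ p a : Plane, Integrable fun x => ch E x * flux (fun q => ψ (x - q)) p (p + a) := by
        intro p a
        apply integrable_ch_mul hE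
        have hψ' : ContDiff ℝ 1 fun x => om (ψ x) a := contDiff_om_const h1 a
        have : (fun x => flux (fun q => ψ (x - q)) p (p + a)) =
            fun x => ∫ t, om (ψ (x - (p + t • a))) a ∂nu := by
          funext x
          rw [← hflux]
          congr 1
          funext t
          congr 2
          abel
        rw [this]
        -- continuity and compact support
        obtain ⟨B, hB⟩ := (hcomp a).exists_bound_of_continuous (hcont a)
        have c1 : Continuous fun x => ∫ t, om (ψ (x - (p + t • a))) a ∂nu := by
          apply continuous_of_dominated (bound := fun _ => B)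
          · intro x
            have : Continuous fun t : ℝ => om (ψ (x - (p + t • a))) a :=
              (hcont a).comp (by fun_prop)
            exact this.aestronglyMeasurable
          · intro x
            exact Eventually.of_forall fun t => hB _
          · exact integrable_const _
          · refine Eventually.of_forall fun t => ?_
            exact (hcont a).comp (by fun_prop)
        apply c1.integrable_of_hasCompactSupport
        obtain ⟨r, hr⟩ := (hcomp a).isCompact.isBounded.subset_closedBall (0 : Plane)
        apply HasCompactSupport.intro (isCompact_closedBall (0 : Plane) (r + ‖p‖ + ‖a‖))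
        intro x hx
        rw [integral_eq_zero_of_ae]
        have h1 : ∀ᵐ t ∂nu, t ∈ Ioc (0 : ℝ) 1 := by
          unfold nu
          exact ae_restrict_mem measurableSet_Ioc
        filter_upwards [h1] with t ht
        simp only [Pi.zero_apply]
        have h2 : x - (p + t • a) ∉ tsupport (fun y => om (ψ y) a) := by
          intro h3
          have h4 := hr h3
          rw [Metric.mem_closedBall, dist_zero_right] at hx h4
          apply hx
          have h5 : ‖x‖ ≤ ‖x - (p + t • a)‖ + ‖p‖ + ‖t • a‖ := by
            calc ‖x‖ = ‖(x - (p + t • a)) + p + t • a‖ := by congr 1; abel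
              _ ≤ _ := norm_add₃_le
          have h6 : ‖t • a‖ ≤ ‖a‖ := by
            rw [norm_smul, Real.norm_eq_abs, abs_of_pos ht.1]
            exact mul_le_of_le_one_left (norm_nonneg _) ht.2
          linarith
        exact image_eq_zero_of_notMem_tsupport (f := fun y => om (ψ y) a) h2
      have j12 : Integrable fun x => ch E x * flux (fun q => ψ (x - q)) 0 (0 + u) +
        ch E x * flux (fun q => ψ (x - q)) u (u + (v - u)) := (hfl 0 u).add (hfl u (v - u))
      rw [← integral_add (hfl 0 u) (hfl u (v - u)), ← integral_add j12 (hfl v (-v))]
      congr 1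
      funext x
      rw [← hgreen x]
      have a1 : u + (v - u) = 0 + v := by abel
      have a2 : v + -v = (0 : Plane) := by abel
      rw [a1, a2, zero_add, zero_add]
      ring
    rw [e1, integral_ch_mul hE, integral_neg]
    have := (abs_le.1 key).1
    unfold PerR
    linarith

end Run7.h761
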