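import Pool.Agent.Run7.h761.Eul

/-! Turning of the interfaces. -/

set_option autoImplicit false

namespace Run7.h761.Lb

open Finset

open scoped Classical

/-- darts near `K` -/
noncomputable def nb (K : Finset Site) : Finset Dart := (K ×ˢ univ) ∪ (K ×ˢ univ).image rev

section

variable {ι : Type*} (φ : Site → ι)

/-- interface darts as a finite set -/
noncomputable def ID (K : Finset Site) : Finset Dart := (nb K).filter (InI φ)

variable {φ} {o : ι} {K : Finset Site}

theorem mem_ID (hK : ∀ s ∉ K, φ s = o) {d : Dart} : d ∈ ID φ K ↔ InI φ d := by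
  unfold ID nb
  rw [Finset.mem_filter]
  constructor
  · exact fun h => h.2
  · intro h
    refine ⟨?_, h⟩
    rw [Finset.mem_union]
    by_cases h1 : d.1 ∈ K
    · exact Or.inl (Finset.mem_product.2 ⟨h1, Finset.mem_univ _⟩)
    · right
      have h2 : rgt d ∈ K := by
        by_contra h2
        exact h (by rw [hK _ h1, hK _ h2])
      rw [Finset.mem_image]
      exact ⟨rev d, Finset.mem_product.2 ⟨h2, Finset.mem_univ _⟩, rev_rev d⟩

/-- turning -/
noncomputable def turn (φ : Site → ι) (d : Dart) : ℤ := if φ (thd d) = φ d.1 then -1 else 1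

theorem tri_iff_rev_nx {d : Dart} (h : InI φ d) (ht : ¬ tri φ d) : ¬ tri φ (rev (nx φ d)) := by
  rw [tri_rev, trb_nx h]
  exact ht

theorem turn_rev_nx {d : Dart} (h : InI φ d) (ht : ¬ tri φ d) :
    turn φ d + turn φ (rev (nx φ d)) = 0 := by
  obtain ⟨s, j⟩ := d
  unfold nx
  unfold turn
  split_ifs with h1 h2 h2
  · exfalso
    unfold rev thd at h2
    simp only at h2 h1
    have e : s + dr (j + 1) + dr (j + 5) = s + dr j := by rw [add_assoc, dr_a]
    have e2 := f6_1 j
    rw [e, e2, dr_opp, add_neg_cancel_right] at h2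
    exact h h2
  · norm_num
  · norm_num
  · exfalso
    apply h2
    unfold rev thd
    simp only
    have e2 := f6_2 j
    rw [e2, add_assoc, dr_a]
    unfold tri at ht
    push Not at ht
    exact (ht h1).symm

theorem turn_sum (hK : ∀ s ∉ K, φ s = o) :
    ∑ d ∈ ID φ K, turn φ d = (((ID φ K).filter (tri φ)).card : ℤ) := by
  rw [← Finset.sum_filter_add_sum_filter_not _ (tri φ)]
  have h1 : ∑ d ∈ (ID φ K).filter (tri φ), turn φ d = (((ID φ K).filter (tri φ)).card : ℤ) := by
    rw [Finset.card_eq_sum_ones]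
    push_cast
    refine Finset.sum_congr rfl fun d hd => ?_
    rw [Finset.mem_filter] at hd
    unfold turn
    rw [if_neg hd.2.1]
  have h2 : ∑ d ∈ (ID φ K).filter (fun d => ¬ tri φ d), turn φ d = 0 := by
    refine Finset.sum_involution (fun d _ => rev (nx φ d)) ?_ ?_ ?_ ?_
    · intro d hd
      rw [Finset.mem_filter, mem_ID hK] at hd
      exact turn_rev_nx hd.1 hd.2
    · intro d hd h0 h3
      rw [Finset.mem_filter, mem_ID hK] at hd
      have h4 := turn_rev_nx hd.1 hd.2
      rw [h3] at h4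
      omega
    · intro d hd
      rw [Finset.mem_filter, mem_ID hK] at hd ⊢
      exact ⟨hd.1.nx.rev, tri_iff_rev_nx hd.1 hd.2⟩
    · intro d hd
      rw [Finset.mem_filter, mem_ID hK] at hd
      rw [nx_rev_nx hd.1 hd.2, rev_rev]
  rw [h1, h2, add_zero]

/-- turning of one finite face -/
theorem turn_face (hK : ∀ s ∉ K, φ s = o) {v : ι} (A : Finset Site) (hA : ∀ s, s ∈ A ↔ φ s = v) :
    ∑ d ∈ (ID φ K).filter (fun d => φ d.1 = v), turn φ d = tau A := by
  unfold tau
  rw [← Finset.sum_product' (f := fun s j => if s + dr j ∈ A then (0 : ℤ) else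
    if s + dr (j + 1) ∈ A then -1 else 1)]
  have h1 : (ID φ K).filter (fun d => φ d.1 = v) =
      (A ×ˢ (univ : Finset (Fin 6))).filter (fun d => d.1 + dr d.2 ∉ A) := by
    ext d
    rw [Finset.mem_filter, Finset.mem_filter, mem_ID hK, Finset.mem_product, hA, hA]
    unfold InI rgt
    constructor
    · rintro ⟨h1, h2⟩
      exact ⟨⟨h2, Finset.mem_univ _⟩, fun h => h1 (by rw [h, h2])⟩
    · rintro ⟨⟨h2, _⟩, h1⟩
      exact ⟨fun h => h1 (by rw [← h, h2]), h2⟩
  rw [h1, Finset.sum_filter]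
  refine Finset.sum_congr rfl fun d hd => ?_
  rw [Finset.mem_product, hA] at hd
  unfold turn thd
  by_cases h2 : d.1 + dr d.2 ∈ A
  · simp [h2]
  · simp [h2, hA, hd.1]

/-- turning of the exterior -/
theorem turn_ext (hK : ∀ s ∉ K, φ s = o) :
    ∑ d ∈ (ID φ K).filter (fun d => φ d.1 = o), turn φ d = -tau (K.filter fun s => φ s ≠ o) := by
  set A := K.filter fun s => φ s ≠ o with hA
  have memA : ∀ s, s ∈ A ↔ φ s ≠ o := by
    intro s
    rw [hA, Finset.mem_filter]
    constructor
    · exact fun h => h.2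
    · intro h
      exact ⟨by by_contra h1; exact h (hK s h1), h⟩
  set ψ : Site → Prop := fun s => φ s = o with hψ
  have hKψ : ∀ s ∉ K, ψ s = True := fun s hs => by
    simp only [hψ, eq_iff_iff, iff_true]
    exact hK s hs
  have h1 := turn_sum hKψ
  have h2 : (ID ψ K).filter (tri ψ) = ∅ := by
    rw [Finset.filter_eq_empty_iff]
    intro d hd ht
    rw [mem_ID hKψ] at hd
    unfold InI at hd
    unfold tri at ht
    by_cases ha : ψ d.1 <;> by_cases hb : ψ (rgt d) <;> by_cases hc : ψ (thd d) <;>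
      simp [ha, hb, hc] at hd ht
  rw [h2, Finset.card_empty] at h1
  have h3 := turn_face hKψ (v := False) A (by
    intro s
    rw [memA]
    simp [hψ])
  have h3' : ∑ d ∈ (ID ψ K).filter (fun d : Dart => ψ d.1 = False), turn ψ d = tau A := by
    convert h3
  rw [← Finset.sum_filter_add_sum_filter_not _ (fun d : Dart => ψ d.1 = False), h3'] at h1
  have h4 : ∑ d ∈ (ID ψ K).filter (fun d => ¬ ψ d.1 = False), turn ψ d =
      ∑ d ∈ (ID φ K).filter (fun d => φ d.1 = o), turn φ d := by
    have hs : (ID ψ K).filter (fun d => ¬ ψ d.1 = False) = (ID φ K).filter (fun d => φ d.1 = o) := by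
      ext d
      rw [Finset.mem_filter, Finset.mem_filter, mem_ID hKψ, mem_ID hK]
      unfold InI
      simp only [hψ, ne_eq, eq_iff_iff, iff_false, not_not]
      constructor
      · rintro ⟨h5, h6⟩
        refine ⟨fun h7 => h5 ?_, h6⟩
        rw [h6] at h7
        exact ⟨fun _ => h7.symm, fun _ => h6⟩
      · rintro ⟨h5, h6⟩
        refine ⟨fun h7 => h5 ?_, h6⟩
        rw [h6, h7.1 h6]
    rw [hs]
    refine Finset.sum_congr rfl fun d hd => ?_
    rw [Finset.mem_filter] at hd
    unfold turn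
    simp only [hψ, hd.2, eq_iff_iff, iff_true]
  rw [h4] at h1
  push_cast at h1
  linarith

end

/-- boxes have characteristic one -/
theorem tau_box (M : ℕ) : tau (Finset.Icc (-(M : ℤ)) M ×ˢ Finset.Icc (-(M : ℤ)) M) = 6 := by
  set B : Finset Site := Finset.Icc (-(M : ℤ)) M ×ˢ Finset.Icc (-(M : ℤ)) M with hB
  have hc : (B.card : ℤ) = (2 * M + 1) * (2 * M + 1) := by
    rw [hB, Finset.card_product]
    simp only [Int.card_Icc]
    push_cast
    have : ((M : ℤ) + 1 - -(M : ℤ)).toNat = (2 * M + 1 : ℤ) := by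
      rw [Int.toNat_of_nonneg] <;> omega
    rw [this]
  have mem : ∀ x y : ℤ, (x, y) ∈ B ↔ (-(M : ℤ) ≤ x ∧ x ≤ M) ∧ (-(M : ℤ) ≤ y ∧ y ≤ M) := by
    intro x y
    rw [hB, Finset.mem_product, Finset.mem_Icc, Finset.mem_Icc]
  have h0 : c1 B 0 = (2 * M) * (2 * M + 1) := by
    rw [c1_card]
    have : (B.filter fun s => s + dr 0 ∈ B) = Finset.Icc (-(M : ℤ)) (M - 1) ×ˢ
        Finset.Icc (-(M : ℤ)) M := by
      ext ⟨x, y⟩
      rw [Finset.mem_filter]
      have : ((x, y) : Site) + dr 0 = (x + 1, y) := by simp [dr]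
      rw [this, mem, mem, Finset.mem_product, Finset.mem_Icc, Finset.mem_Icc]
      omega
    rw [this, Finset.card_product]
    simp only [Int.card_Icc]
    push_cast
    have e1 : ((M : ℤ) + 1 - -(M : ℤ)).toNat = (2 * M + 1 : ℤ) := by
      rw [Int.toNat_of_nonneg] <;> omega
    have e2 : ((M : ℤ) - 1 + 1 - -(M : ℤ)).toNat = (2 * M : ℤ) := by
      rw [Int.toNat_of_nonneg] <;> omega
    rw [e1, e2]
  have h1 : c1 B 1 = (2 * M) * (2 * M + 1) := by
    rw [c1_card]
    have : (B.filter fun s => s + dr 1 ∈ B) = Finset.Icc (-(M : ℤ)) M ×ˢ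
        Finset.Icc (-(M : ℤ)) (M - 1) := by
      ext ⟨x, y⟩
      rw [Finset.mem_filter]
      have : ((x, y) : Site) + dr 1 = (x, y + 1) := by simp [dr]
      rw [this, mem, mem, Finset.mem_product, Finset.mem_Icc, Finset.mem_Icc]
      omega
    rw [this, Finset.card_product]
    simp only [Int.card_Icc]
    push_cast
    have e1 : ((M : ℤ) + 1 - -(M : ℤ)).toNat = (2 * M + 1 : ℤ) := by
      rw [Int.toNat_of_nonneg] <;> omega
    have e2 : ((M : ℤ) - 1 + 1 - -(M : ℤ)).toNat = (2 * M : ℤ) := by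
      rw [Int.toNat_of_nonneg] <;> omega
    rw [e1, e2]
    ring
  have h2 : c1 B 2 = (2 * M) * (2 * M) := by
    rw [c1_card]
    have : (B.filter fun s => s + dr 2 ∈ B) = Finset.Icc (-(M : ℤ) + 1) M ×ˢ
        Finset.Icc (-(M : ℤ)) (M - 1) := by
      ext ⟨x, y⟩
      rw [Finset.mem_filter]
      have : ((x, y) : Site) + dr 2 = (x - 1, y + 1) := by simp [dr]; ring
      rw [this, mem, mem, Finset.mem_product, Finset.mem_Icc, Finset.mem_Icc]
      omega
    rw [this, Finset.card_product]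
    simp only [Int.card_Icc]
    push_cast
    have e1 : ((M : ℤ) + 1 - (-(M : ℤ) + 1)).toNat = (2 * M : ℤ) := by
      rw [Int.toNat_of_nonneg] <;> omega
    have e2 : ((M : ℤ) - 1 + 1 - -(M : ℤ)).toNat = (2 * M : ℤ) := by
      rw [Int.toNat_of_nonneg] <;> omega
    rw [e1, e2]
  have h3 : c2 B 0 = (2 * M) * (2 * M) := by
    rw [c2_card]
    have : (B.filter fun s => s + dr 0 ∈ B ∧ s + dr (0 + 1) ∈ B) = Finset.Icc (-(M : ℤ)) (M - 1) ×ˢ
        Finset.Icc (-(M : ℤ)) (M - 1) := by
      ext ⟨x, y⟩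
      rw [Finset.mem_filter]
      have : ((x, y) : Site) + dr 0 = (x + 1, y) := by simp [dr]
      have t2 : ((x, y) : Site) + dr (0 + 1) = (x, y + 1) := by simp [dr]
      rw [this, t2, mem, mem, mem, Finset.mem_product, Finset.mem_Icc, Finset.mem_Icc]
      omega
    rw [this, Finset.card_product]
    simp only [Int.card_Icc]
    push_cast
    have e2 : ((M : ℤ) - 1 + 1 - -(M : ℤ)).toNat = (2 * M : ℤ) := by
      rw [Int.toNat_of_nonneg] <;> omega
    rw [e2]
  have h4 : c2 B 1 = (2 * M) * (2 * M) := by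
    rw [c2_card]
    have : (B.filter fun s => s + dr 1 ∈ B ∧ s + dr (1 + 1) ∈ B) = Finset.Icc (-(M : ℤ) + 1) M ×ˢ
        Finset.Icc (-(M : ℤ)) (M - 1) := by
      ext ⟨x, y⟩
      rw [Finset.mem_filter]
      have : ((x, y) : Site) + dr 1 = (x, y + 1) := by simp [dr]
      have t2 : ((x, y) : Site) + dr (1 + 1) = (x - 1, y + 1) := by
        have : (1 : Fin 6) + 1 = 2 := by decide
        rw [this]
        simp [dr]; ring
      rw [this, t2, mem, mem, mem, Finset.mem_product, Finset.mem_Icc, Finset.mem_Icc]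
      omega
    rw [this, Finset.card_product]
    simp only [Int.card_Icc]
    push_cast
    have e1 : ((M : ℤ) + 1 - (-(M : ℤ) + 1)).toNat = (2 * M : ℤ) := by
      rw [Int.toNat_of_nonneg] <;> omega
    have e2 : ((M : ℤ) - 1 + 1 - -(M : ℤ)).toNat = (2 * M : ℤ) := by
      rw [Int.toNat_of_nonneg] <;> omega
    rw [e1, e2]
  rw [tau_formula, hc, h0, h1, h2, h3, h4]
  ring

end Run7.h761.Lb
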