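import Pool.Agent.Run7.h761.Turn

/-! The Euler inequality for the faces. -/

set_option autoImplicit false

namespace Run7.h761.Lb

open Finset

theorem three_vals : ∀ x y w : Fin 3, x ≠ y → (x = 0 → y ≠ 2) → (y = 0 → x ≠ 2) →
    (x = 0 → w ≠ 2) → (w = 0 → x ≠ 2) → (y = 0 → w ≠ 2) → (w = 0 → y ≠ 2) →
    ¬ (w ≠ x ∧ w ≠ y) := by
  intro x y w
  fin_cases x <;> fin_cases y <;> fin_cases w <;> simp

open scoped Classical

/-- box -/
noncomputable def bx (M : ℕ) : Finset Site := Finset.Icc (-(M : ℤ)) M ×ˢ Finset.Icc (-(M : ℤ)) M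

theorem mem_bx {M : ℕ} {s : Site} :
    s ∈ bx M ↔ (-(M : ℤ) ≤ s.1 ∧ s.1 ≤ M) ∧ (-(M : ℤ) ≤ s.2 ∧ s.2 ≤ M) := by
  unfold bx
  rw [Finset.mem_product, Finset.mem_Icc, Finset.mem_Icc]

theorem tau_sdiff {A : Finset Site} {M : ℕ} (hA : ∀ s ∈ A, ∀ j, s + dr j ∈ bx M)
    (hA' : A ⊆ bx M) : tau (bx M \ A) = 6 - tau A := by
  set ψ : Site → Fin 3 := fun s => if s ∈ A then 0 else if s ∈ bx M then 1 else 2 with hψ
  have hK : ∀ s ∉ bx M, ψ s = 2 := by
    intro s hs
    simp only [hψ]
    rw [if_neg (fun h => hs (hA' h)), if_neg hs]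
  have h0 : ∀ s, s ∈ A ↔ ψ s = 0 := by
    intro s
    simp only [hψ]
    by_cases h1 : s ∈ A
    · simp [h1]
    · by_cases h2 : s ∈ bx M <;> simp [h1, h2]
  have h1 : ∀ s, s ∈ bx M \ A ↔ ψ s = 1 := by
    intro s
    simp only [hψ, Finset.mem_sdiff]
    by_cases h1 : s ∈ A
    · simp [h1]
    · by_cases h2 : s ∈ bx M <;> simp [h1, h2]
  have h2 : ∀ s, s ∉ bx M ↔ ψ s = 2 := by
    intro s
    refine ⟨hK s, fun h3 h4 => ?_⟩
    by_cases h5 : s ∈ A
    · rw [(h0 s).1 h5] at h3
      exact absurd h3 (by decide)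
    · rw [(h1 s).1 (Finset.mem_sdiff.2 ⟨h4, h5⟩)] at h3
      exact absurd h3 (by decide)
  have hadj : ∀ s j, ψ s = 0 → ψ (s + dr j) ≠ 2 := by
    intro s j hs h3
    exact (h2 _).2 h3 (hA s ((h0 s).2 hs) j)
  have hsum := turn_sum hK
  have hno : (ID ψ (bx M)).filter (tri ψ) = ∅ := by
    rw [Finset.filter_eq_empty_iff]
    intro d hd ht
    rw [mem_ID hK] at hd
    have a1 : ψ d.1 = 0 → ψ (rgt d) ≠ 2 := hadj _ _
    have a2 : ψ d.1 = 0 → ψ (thd d) ≠ 2 := hadj _ _
    have a3 : ψ (rgt d) = 0 → ψ d.1 ≠ 2 := by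
      have := hadj (rgt d) (d.2 + 3)
      rw [dr_opp] at this
      unfold rgt at this ⊢
      rwa [add_neg_cancel_right] at this
    have a4 : ψ (rgt d) = 0 → ψ (thd d) ≠ 2 := by
      have := hadj (rgt d) (d.2 + 2)
      unfold rgt at this ⊢
      rw [add_assoc, ← dr_tri] at this
      exact this
    have a5 : ψ (thd d) = 0 → ψ d.1 ≠ 2 := by
      have := hadj (thd d) (d.2 + 1 + 3)
      rw [dr_opp] at this
      unfold thd at this ⊢
      rwa [add_neg_cancel_right] at this
    have a6 : ψ (thd d) = 0 → ψ (rgt d) ≠ 2 := by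
      have := hadj (thd d) (d.2 + 2 + 3)
      have e : thd d + dr (d.2 + 2 + 3) = rgt d := by
        unfold thd rgt
        rw [dr_opp, dr_tri, ← add_assoc, add_neg_cancel_right]
      rwa [e] at this
    unfold InI at hd
    unfold tri at ht
    exact three_vals _ _ _ hd a1 a3 a2 a5 a4 a6 ht
  rw [hno, Finset.card_empty] at hsum
  have f0 := turn_face hK A h0
  have f1 := turn_face hK (bx M \ A) h1
  have f2 := turn_ext hK
  have hf : (bx M).filter (fun s => ψ s ≠ 2) = bx M := by
    rw [Finset.filter_eq_self]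
    intro s hs h3
    exact (h2 s).2 h3 hs
  have f2' : tau ((bx M).filter (fun s => ψ s ≠ 2)) = 6 := by
    rw [hf]; exact tau_box M
  rw [← Finset.sum_fiberwise (ID ψ (bx M)) (fun d : Dart => ψ d.1), Fin.sum_univ_three] at hsum
  have g0 : ∑ d ∈ (ID ψ (bx M)).filter (fun d : Dart => ψ d.1 = 0), turn ψ d = tau A := by
    convert f0
  have g1 : ∑ d ∈ (ID ψ (bx M)).filter (fun d : Dart => ψ d.1 = 1), turn ψ d = tau (bx M \ A) := by
    convert f1
  have g2 : ∑ d ∈ (ID ψ (bx M)).filter (fun d : Dart => ψ d.1 = 2), turn ψ d = -6 := by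
    rw [← f2']
    convert f2
  rw [g0, g1, g2] at hsum
  push_cast at hsum
  linarith

/-- clamping -/
def cl (M : ℕ) (x : ℤ) : ℤ := max (-(M : ℤ)) (min M x)

theorem cl_step (M : ℕ) (x a : ℤ) (ha : a = 0 ∨ a = 1 ∨ a = -1) :
    cl M (x + a) = cl M x + a ∨ cl M (x + a) = cl M x := by
  unfold cl
  rcases ha with rfl | rfl | rfl <;> omega

theorem dr_vals (j : Fin 6) : ((dr j).1 = 0 ∨ (dr j).1 = 1 ∨ (dr j).1 = -1) ∧
    ((dr j).2 = 0 ∨ (dr j).2 = 1 ∨ (dr j).2 = -1) := by
  revert j; decide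

theorem dr_sub (j : Fin 6) : (∃ k, ((dr j).1, (0 : ℤ)) = dr k ∨ ((dr j).1, (0 : ℤ)) = 0) ∧
    (∃ k, ((0 : ℤ), (dr j).2) = dr k ∨ ((0 : ℤ), (dr j).2) = 0) := by
  revert j; decide

theorem con_box {A : Finset Site} {M : ℕ}
    (hA : ∀ s ∈ A, (-(M : ℤ) < s.1 ∧ s.1 < M) ∧ (-(M : ℤ) < s.2 ∧ s.2 < M))
    (hc : Con ((A : Set Site)ᶜ)) : Con (((bx M \ A : Finset Site) : Set Site)) := by
  set f : Site → Site := fun s => (cl M s.1, cl M s.2) with hf
  have hfb : ∀ s, f s ∈ bx M := by
    intro s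
    rw [mem_bx]
    simp only [hf, cl]
    omega
  have hfi : ∀ s ∈ bx M, f s = s := by
    intro s hs
    rw [mem_bx] at hs
    ext
    · simp only [hf, cl]; omega
    · simp only [hf, cl]; omega
  have hfA : ∀ s ∉ A, f s ∉ A := by
    intro s hs h
    apply hs
    have h1 := hA _ h
    have : f s = s := by
      simp only [hf, cl] at h1
      ext
      · simp only [hf, cl]; omega
      · simp only [hf, cl]; omega
    rw [← this]; exact h
  intro a ha b hb
  rw [Finset.mem_coe, Finset.mem_sdiff] at ha hb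
  have h := hc a (by simpa using ha.2) b (by simpa using hb.2)
  have key : ∀ c, Relation.ReflTransGen (Stp ((A : Set Site)ᶜ)) a c →
      Relation.ReflTransGen (Stp (((bx M \ A : Finset Site) : Set Site))) (f a) (f c) := by
    intro c hr
    induction hr with
    | refl => exact Relation.ReflTransGen.refl
    | tail h1 h2 ih =>
      rename_i p q
      obtain ⟨h3, j, hj⟩ := h2
      have hq : q ∉ A := by simpa using h3
      have hstep : f q = f p ∨ ∃ k, f q = f p + dr k := by
        subst hj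
        have hv := dr_vals j
        have hs := dr_sub j
        have e1 := cl_step M p.1 (dr j).1 hv.1
        have e2 := cl_step M p.2 (dr j).2 hv.2
        simp only [hf, Prod.fst_add, Prod.snd_add]
        rcases e1 with e1 | e1 <;> rcases e2 with e2 | e2 <;> rw [e1, e2]
        · right; exact ⟨j, rfl⟩
        · obtain ⟨k, hk | hk⟩ := hs.1
          · right; exact ⟨k, by rw [← hk]; simp⟩
          · left
            have := congrArg Prod.fst hk
            simp only [Prod.fst_zero] at this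
            rw [this, add_zero]
        · obtain ⟨k, hk | hk⟩ := hs.2
          · right; exact ⟨k, by rw [← hk]; simp⟩
          · left
            have := congrArg Prod.snd hk
            simp only [Prod.snd_zero] at this
            rw [this, add_zero]
        · left; rfl
      rcases hstep with h4 | ⟨k, h4⟩
      · rw [h4]; exact ih
      · refine ih.tail ⟨?_, k, h4⟩
        rw [Finset.mem_coe, Finset.mem_sdiff]
        exact ⟨hfb q, hfA q hq⟩
  have := key b h
  rwa [hfi a ha.1, hfi b hb.1] at this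

/-- finite sets with connected complement have nonnegative characteristic -/
theorem tau_nonneg {A : Finset Site} (hc : Con ((A : Set Site)ᶜ)) : 0 ≤ tau A := by
  obtain ⟨M, hM⟩ : ∃ M : ℕ, ∀ s ∈ A, (-(M : ℤ) < s.1 ∧ s.1 < M) ∧ (-(M : ℤ) < s.2 ∧ s.2 < M) := by
    refine ⟨(∑ s ∈ A, (s.1.natAbs + s.2.natAbs)) + 1, fun s hs => ?_⟩
    have := Finset.single_le_sum (f := fun s : Site => s.1.natAbs + s.2.natAbs)
      (fun _ _ => Nat.zero_le _) hs
    generalize ∑ s ∈ A, (s.1.natAbs + s.2.natAbs) = T at *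
    push_cast
    omega
  have h1 : A ⊆ bx M := by
    intro s hs
    have := hM s hs
    rw [mem_bx]
    omega
  have h2 : ∀ s ∈ A, ∀ j, s + dr j ∈ bx M := by
    intro s hs j
    have := hM s hs
    have := dr_vals j
    rw [mem_bx]
    simp only [Prod.fst_add, Prod.snd_add]
    omega
  have h3 := tau_sdiff h2 h1
  have h4 := tau_le (con_box hM hc)
  omega

section

variable {ι : Type*} {φ : Site → ι} {o : ι} {K : Finset Site}

/-- **Euler's inequality**: the average face has less than six sides. -/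
theorem euler_ineq (hK : ∀ s ∉ K, φ s = o) (hc : ∀ v, Con {s | φ s = v}) :
    ∑ v ∈ (K.image φ).erase o, (((ID φ K).filter (fun d => φ d.1 = v ∧ tri φ d)).card : ℤ) +
      (((ID φ K).filter (fun d => φ d.1 = o ∧ tri φ d)).card : ℤ) ≤
      6 * ((K.image φ).erase o).card := by
  have h1 := turn_sum hK
  have hmaps : ∀ d ∈ ID φ K, φ d.1 ∈ insert o ((K.image φ).erase o) := by
    intro d _
    by_cases hd : φ d.1 = o
    · rw [hd]; exact Finset.mem_insert_self _ _
    · rw [Finset.mem_insert, Finset.mem_erase]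
      right
      refine ⟨hd, Finset.mem_image_of_mem _ ?_⟩
      by_contra h2
      exact hd (hK _ h2)
  have hno : o ∉ (K.image φ).erase o := Finset.notMem_erase _ _
  have e1 : ∑ d ∈ ID φ K, turn φ d = ∑ d ∈ (ID φ K).filter (fun d => φ d.1 = o), turn φ d +
      ∑ v ∈ (K.image φ).erase o, ∑ d ∈ (ID φ K).filter (fun d => φ d.1 = v), turn φ d := by
    rw [← Finset.sum_insert (f := fun v => ∑ d ∈ (ID φ K).filter (fun d => φ d.1 = v), turn φ d) hno]
    exact (Finset.sum_fiberwise_of_maps_to hmaps _).symm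
  have e2 : (((ID φ K).filter (tri φ)).card : ℤ) =
      (((ID φ K).filter (fun d => φ d.1 = o ∧ tri φ d)).card : ℤ) +
      ∑ v ∈ (K.image φ).erase o, (((ID φ K).filter (fun d => φ d.1 = v ∧ tri φ d)).card : ℤ) := by
    rw [← Finset.sum_insert
      (f := fun v => (((ID φ K).filter (fun d => φ d.1 = v ∧ tri φ d)).card : ℤ)) hno]
    have := Finset.card_eq_sum_card_fiberwise (s := (ID φ K).filter (tri φ))
      (f := fun d : Dart => φ d.1) (t := insert o ((K.image φ).erase o))
      (fun d hd => hmaps d (Finset.mem_of_mem_filter _ hd))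
    rw [this]
    push_cast
    refine Finset.sum_congr rfl fun v _ => ?_
    rw [Finset.filter_filter]
    congr 2
    ext d
    simp only [Finset.mem_filter]
    tauto
  have e3 := turn_ext hK
  have e4 : 0 ≤ tau (K.filter fun s => φ s ≠ o) := by
    apply tau_nonneg
    have : ((K.filter fun s => φ s ≠ o : Finset Site) : Set Site)ᶜ = {s | φ s = o} := by
      ext s
      simp only [Finset.coe_filter, Set.mem_compl_iff, Set.mem_setOf_eq]
      constructor
      · intro h
        by_contra h2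
        exact h ⟨by by_contra h3; exact h2 (hK s h3), h2⟩
      · rintro h ⟨_, h2⟩
        exact h2 h
    rw [this]
    exact hc o
  have e5 : ∀ v ∈ (K.image φ).erase o, ∑ d ∈ (ID φ K).filter (fun d => φ d.1 = v), turn φ d ≤ 6 := by
    intro v hv
    have hvo : v ≠ o := Finset.ne_of_mem_erase hv
    have hmem : ∀ s, s ∈ K.filter (fun s => φ s = v) ↔ φ s = v := by
      intro s
      rw [Finset.mem_filter]
      constructor
      · exact fun h => h.2
      · intro h
        exact ⟨by by_contra h3; exact hvo (by rw [← h, hK s h3]), h⟩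
    have h2 := turn_face hK (K.filter fun s => φ s = v) hmem
    rw [h2]
    apply tau_le
    have : ((K.filter fun s => φ s = v : Finset Site) : Set Site) = {s | φ s = v} := by
      ext s
      rw [Finset.mem_coe, hmem]
      rfl
    rw [this]
    exact hc v
  have e6 := Finset.sum_le_card_nsmul _ _ _ e5
  rw [nsmul_eq_mul] at e6
  linarith

end

end Run7.h761.Lb
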