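import Pool.Agent.Run7.h761.Turn2

/-! The boundary of a region with connected complement is a single cycle. -/

set_option autoImplicit false

namespace Run7.h761.Lb

open Finset

open scoped Classical

/-- rotation about the head -/
def rt (d : Dart) : Dart := (d.1 + dr d.2, d.2 + 2)

theorem rt2 (d : Dart) : rt (rt d) = (thd d, d.2 + 4) := by
  obtain ⟨s, j⟩ := d
  unfold rt thd
  simp only
  rw [add_assoc, ← dr_tri, f6_4]

theorem f6_7 : ∀ j : Fin 6, j + 4 + 2 = j := by decide
theorem f6_8 : ∀ j : Fin 6, j ≠ j + 2 := by decide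
theorem f6_9 : ∀ j : Fin 6, j ≠ j + 4 := by decide
theorem f6_10 : ∀ j : Fin 6, j + 2 ≠ j + 4 := by decide

theorem rt3 (d : Dart) : rt (rt (rt d)) = d := by
  rw [rt2 d]
  obtain ⟨s, j⟩ := d
  unfold rt thd
  simp only
  rw [f6_7, add_assoc, dr_c, add_zero]

theorem rt_inj {d e : Dart} (h : rt d = rt e) : d = e := by
  rw [← rt3 d, h, rt3]

theorem cons_iff {z : Dart → ℂ} : Cons z ↔ ∀ d, z (rt d) = z d := by
  unfold Cons rt
  constructor
  · exact fun h d => h d.1 d.2
  · exact fun h s j => h (s, j)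

/-- the three darts with the same head -/
noncomputable def hd3 (e : Dart) : Finset Dart := {e, rt e, rt (rt e)}

theorem rt_mem {e d : Dart} : rt d ∈ hd3 e ↔ d ∈ hd3 e := by
  unfold hd3
  simp only [Finset.mem_insert, Finset.mem_singleton]
  constructor
  · rintro (h | h | h)
    · right; right; rw [← h, rt3]
    · left; exact rt_inj h
    · right; left; exact rt_inj h
  · rintro (h | h | h)
    · right; left; rw [h]
    · right; right; rw [h]
    · left; rw [h, rt3]

/-- indicator cochain of a set of darts -/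
noncomputable def chi (Z : Finset Dart) (d : Dart) : ℤ :=
  (if d ∈ Z then 1 else 0) - (if rev d ∈ Z then 1 else 0)

theorem chi_rev (Z : Finset Dart) (d : Dart) : chi Z (rev d) = -chi Z d := by
  unfold chi
  rw [rev_rev]; ring

section

variable {ι : Type*} {φ : Site → ι}

theorem chi_closed {Z : Finset Dart} (hI : ∀ d ∈ Z, InI φ d) (hZ : ∀ d ∈ Z, nx φ d ∈ Z) (e : Dart) :
    chi Z e + chi Z (rt e) + chi Z (rt (rt e)) = 0 := by
  set zv : Dart → ℂ := fun d => if d ∈ hd3 e then 1 else 0 with hzv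
  have hcons : Cons zv := by
    rw [cons_iff]
    intro d
    simp only [hzv, rt_mem]
  have h1 : ∑ d ∈ Z, zv d = ∑ d ∈ Z, tl zv (nx φ d) :=
    Finset.sum_congr rfl fun d _ => (tl_nx hcons φ d).symm
  have himg : Z.image (nx φ) = Z := by
    apply Finset.eq_of_subset_of_card_le
    · intro d hd
      obtain ⟨e, he, rfl⟩ := Finset.mem_image.1 hd
      exact hZ e he
    · rw [Finset.card_image_of_injOn]
      intro a ha b hb h
      exact nx_inj (hI a ha) (hI b hb) h
  have h2 : ∑ d ∈ Z, tl zv (nx φ d) = ∑ d ∈ Z, tl zv d := by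
    conv_rhs => rw [← himg]
    rw [Finset.sum_image]
    intro a ha b hb h
    exact nx_inj (hI a ha) (hI b hb) h
  have h3 : ∑ d ∈ Z, tl zv d = ∑ d ∈ Z, zv (rev d) :=
    Finset.sum_congr rfl fun d _ => (z_rev hcons d).symm
  have e1 : e ≠ rt e := by
    intro h
    have := congrArg Prod.snd h
    exact f6_8 _ this
  have e2 : e ≠ rt (rt e) := by
    intro h
    rw [rt2] at h
    have := congrArg Prod.snd h
    exact f6_9 _ this
  have e3 : rt e ≠ rt (rt e) := fun h => e1 (rt_inj h)
  have h4 : ∑ d ∈ Z, zv d = ∑ d ∈ hd3 e, (if d ∈ Z then (1 : ℂ) else 0) := by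
    simp only [hzv]
    rw [← Finset.sum_filter, ← Finset.sum_filter, Finset.filter_mem_eq_inter,
      Finset.filter_mem_eq_inter, Finset.inter_comm]
  have h5 : ∑ d ∈ Z, zv (rev d) = ∑ d ∈ hd3 e, (if rev d ∈ Z then (1 : ℂ) else 0) := by
    simp only [hzv]
    rw [← Finset.sum_filter, ← Finset.sum_filter]
    refine Finset.sum_bij (fun d _ => rev d) ?_ ?_ ?_ ?_
    · intro d hd
      rw [Finset.mem_filter] at hd ⊢
      rw [rev_rev]
      exact ⟨hd.2, hd.1⟩
    · intro a _ b _ h
      rw [← rev_rev a, h, rev_rev]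
    · intro b hb
      rw [Finset.mem_filter] at hb
      refine ⟨rev b, ?_, rev_rev b⟩
      rw [Finset.mem_filter, rev_rev]
      exact ⟨hb.2, hb.1⟩
    · intro _ _; rfl
  have h6 : ∑ d ∈ hd3 e, (if d ∈ Z then (1 : ℂ) else 0) =
      ∑ d ∈ hd3 e, (if rev d ∈ Z then (1 : ℂ) else 0) := by
    rw [← h4, ← h5, ← h3, ← h2, ← h1]
  have h7 : ∑ d ∈ hd3 e, (chi Z d : ℂ) = 0 := by
    unfold chi
    push_cast
    rw [Finset.sum_sub_distrib, h6, sub_self]
  unfold hd3 at h7
  rw [Finset.sum_insert, Finset.sum_insert, Finset.sum_singleton] at h7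
  · have : ((chi Z e + chi Z (rt e) + chi Z (rt (rt e)) : ℤ) : ℂ) = 0 := by
      push_cast
      rw [add_assoc]; exact h7
    exact_mod_cast this
  · simpa using e3
  · simp only [Finset.mem_insert, Finset.mem_singleton, not_or]
    exact ⟨e1, e2⟩

/-- potentials of closed cochains -/
theorem exists_potential (χ : Dart → ℤ) (hr : ∀ d, χ (rev d) = -χ d)
    (hc : ∀ e, χ e + χ (rt e) + χ (rt (rt e)) = 0) (B : ℤ) (hB : ∀ d : Dart, B ≤ d.1.1 → χ d = 0) :
    ∃ w : Site → ℤ, (∀ s j, w s - w (s + dr j) = χ (s, j)) ∧ ∀ s : Site, B ≤ s.1 → w s = 0 := by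
  set w : Site → ℤ := fun s => ∑ i ∈ range (B - s.1).toNat, χ ((s.1 + i, s.2), 0) with hw
  have h0 : ∀ s : Site, B ≤ s.1 → w s = 0 := by
    intro s hs
    simp only [hw]
    have : (B - s.1).toNat = 0 := by omega
    rw [this, Finset.sum_range_zero]
  have r1 : ∀ s : Site, w s - w (s + dr 0) = χ (s, 0) := by
    intro s
    rcases le_or_gt B s.1 with h | h
    · rw [h0 s h, h0 (s + dr 0) (by simp [dr]; omega), hB _ h, sub_zero]
    · simp only [hw]
      have e : (B - s.1).toNat = (B - (s + dr 0).1).toNat + 1 := by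
        simp [dr]; omega
      rw [e, Finset.sum_range_succ']
      have e2 : ∀ i : ℕ, χ ((s.1 + ((i + 1 : ℕ) : ℤ), s.2), 0) =
          χ (((s + dr 0).1 + i, (s + dr 0).2), 0) := by
        intro i
        congr 3
        · simp [dr]; ring
        · simp [dr]
      rw [Finset.sum_congr rfl fun i _ => e2 i]
      have e3 : ((s.1 + ((0 : ℕ) : ℤ), s.2) : Site) = s := by simp
      rw [e3]
      ring
  have tri0 : ∀ s : Site, χ (s, 0) + χ (s + dr 0, 2) - χ (s, 1) = 0 := by
    intro s
    have h1 := hc (s, 0)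
    have h2 := hr (s, 1)
    have e1 : rt (s, 0) = (s + dr 0, 2) := rfl
    have e2 : rt (rt (s, 0)) = (s + dr 1, 4) := by rw [rt2]; rfl
    have e3 : rev (s, 1) = (s + dr 1, 4) := rfl
    rw [e2, e1] at h1
    rw [e3] at h2
    linarith
  have tri1 : ∀ s : Site, χ (s + dr 0, 1) - χ (s + dr 1, 0) - χ (s + dr 0, 2) = 0 := by
    intro s
    have h1 := hc (s + dr 0, 1)
    have h2 := hr (s + dr 1, 0)
    have h3 := hr (s + dr 0, 2)
    have e1 : rt (s + dr 0, 1) = (s + dr 0 + dr 1, 3) := rfl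
    have e2 : rt (rt (s + dr 0, 1)) = (s + dr 0 + dr 2, 5) := by rw [rt2]; rfl
    have e3 : rev (s + dr 1, 0) = (s + dr 1 + dr 0, 3) := rfl
    have e4 : rev (s + dr 0, 2) = (s + dr 0 + dr 2, 5) := rfl
    rw [e2, e1] at h1
    rw [e3, add_right_comm] at h2
    rw [e4] at h3
    linarith
  have r2 : ∀ n : ℕ, ∀ s : Site, (B - s.1).toNat ≤ n → w s - w (s + dr 1) = χ (s, 1) := by
    intro n
    induction n with
    | zero =>
      intro s hs
      have h : B ≤ s.1 := by omega
      rw [h0 s h, h0 (s + dr 1) (by simp [dr]; omega), hB _ h, sub_zero]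
    | succ n ih =>
      intro s hs
      rcases le_or_gt B s.1 with h | h
      · rw [h0 s h, h0 (s + dr 1) (by simp [dr]; omega), hB _ h, sub_zero]
      · have a1 := r1 s
        have a2 := r1 (s + dr 1)
        have a3 := ih (s + dr 0) (by simp [dr]; omega)
        rw [add_right_comm] at a3
        have a4 := tri0 s
        have a5 := tri1 s
        linarith
  have r2' : ∀ s : Site, w s - w (s + dr 1) = χ (s, 1) := fun s => r2 _ s le_rfl
  have r3 : ∀ s : Site, w s - w (s + dr 2) = χ (s, 2) := by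
    intro s
    have a1 := r2' (s - dr 0)
    have a2 := r1 (s - dr 0)
    have a3 := tri0 (s - dr 0)
    have e : s - dr 0 + dr 1 = s + dr 2 := by
      have : dr 1 = dr 0 + dr 2 := dr_tri 0
      rw [this]; abel
    rw [e] at a1
    rw [sub_add_cancel] at a2 a3
    linarith
  have back : ∀ k : Fin 6, (∀ s : Site, w s - w (s + dr k) = χ (s, k)) →
      ∀ s : Site, w s - w (s + dr (k + 3)) = χ (s, k + 3) := by
    intro k hk s
    have a1 := hk (s + dr (k + 3))
    have e1 : s + dr (k + 3) + dr k = s := by rw [dr_opp]; abel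
    have a2 := hr (s + dr (k + 3), k)
    have e2 : rev (s + dr (k + 3), k) = (s, k + 3) := by
      unfold rev
      simp only
      rw [e1]
    rw [e2] at a2
    rw [e1] at a1
    linarith
  refine ⟨w, ?_, h0⟩
  intro s j
  fin_cases j
  · exact r1 s
  · exact r2' s
  · exact r3 s
  · exact back 0 r1 s
  · exact back 1 r2' s
  · exact back 2 r3 s

/-- a region with connected complement -/
structure Reg (φ : Site → ι) (v : ι) (U : Set Site) (K : Finset Site) : Prop where
  ext : ∀ s ∉ K, s ∈ U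
  conU : Con U
  conf : Con {s | φ s = v}
  disj : ∀ s ∈ U, φ s ≠ v
  bd : ∀ s ∉ U, ∀ j, s + dr j ∈ U → φ s = v

/-- outer boundary -/
noncomputable def OB (U : Set Site) (K : Finset Site) : Finset Dart :=
  (nb K).filter fun d => d.1 ∉ U ∧ rgt d ∈ U

variable {v : ι} {U : Set Site} {K : Finset Site}

theorem mem_OB (h : Reg φ v U K) {d : Dart} : d ∈ OB U K ↔ d.1 ∉ U ∧ rgt d ∈ U := by
  unfold OB nb
  rw [Finset.mem_filter]
  constructor
  · exact fun h => h.2
  · intro h1
    refine ⟨Finset.mem_union_left _ (Finset.mem_product.2 ⟨?_, Finset.mem_univ _⟩), h1⟩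
    by_contra h2
    exact h1.1 (h.ext _ h2)

theorem OB_left (h : Reg φ v U K) {d : Dart} (hd : d ∈ OB U K) : φ d.1 = v := by
  rw [mem_OB h] at hd
  exact h.bd _ hd.1 _ hd.2

theorem OB_inI (h : Reg φ v U K) {d : Dart} (hd : d ∈ OB U K) : InI φ d := by
  unfold InI
  rw [OB_left h hd]
  rw [mem_OB h] at hd
  exact (h.disj _ hd.2).symm

/-- membership propagates: a neighbour of `U` outside `f` is in `U` -/
theorem Reg.near (h : Reg φ v U K) {s : Site} {j : Fin 6} (hs : s + dr j ∈ U) (hv : φ s ≠ v) :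
    s ∈ U := by
  by_contra h1
  exact hv (h.bd s h1 j hs)

theorem OB_nx (h : Reg φ v U K) {d : Dart} (hd : d ∈ OB U K) : nx φ d ∈ OB U K := by
  have hv := OB_left h hd
  rw [mem_OB h] at hd ⊢
  have h3 : rgt (nx φ d) = if φ (thd d) = φ d.1 then rgt d else thd d := rgt_nx d
  rw [h3]
  split_ifs with h1
  · constructor
    · unfold nx
      rw [if_pos h1]
      intro h2
      exact h.disj _ h2 (by rw [h1, hv])
    · exact hd.2
  · constructor
    · unfold nx
      rw [if_neg h1]
      exact hd.1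
    · have e : thd d + dr (d.2 + 5) = rgt d := by
        unfold thd rgt
        rw [add_assoc, dr_a]
      exact h.near (j := d.2 + 5) (by rw [e]; exact hd.2) (by rw [← hv]; exact h1)

/-- **the boundary is one cycle** -/
theorem single_orbit (h : Reg φ v U K) {d₀ d : Dart} (h0 : d₀ ∈ OB U K) (hd : d ∈ OB U K) :
    ∃ k, d = (nx φ)^[k] d₀ := by
  set Z := (OB U K).filter fun d => ∃ k, d = (nx φ)^[k] d₀ with hZ
  have hZB : ∀ d ∈ Z, d ∈ OB U K := fun d hd => (Finset.mem_filter.1 hd).1
  have hI : ∀ d ∈ Z, InI φ d := fun d hd => OB_inI h (hZB d hd)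
  have hZn : ∀ d ∈ Z, nx φ d ∈ Z := by
    intro d hd
    obtain ⟨h1, k, hk⟩ := Finset.mem_filter.1 hd
    refine Finset.mem_filter.2 ⟨OB_nx h h1, k + 1, ?_⟩
    rw [Function.iterate_succ_apply', hk]
  have h0Z : d₀ ∈ Z := Finset.mem_filter.2 ⟨h0, 0, rfl⟩
  obtain ⟨B, hB⟩ : ∃ B : ℤ, ∀ s ∈ K, s.1 + 1 < B := by
    refine ⟨(∑ s ∈ K, (s.1.natAbs : ℤ)) + 2, fun s hs => ?_⟩
    have := Finset.single_le_sum (f := fun s : Site => (s.1.natAbs : ℤ))
      (fun _ _ => by positivity) hs
    generalize ∑ s ∈ K, (s.1.natAbs : ℤ) = T at *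
    omega
  have hχ0 : ∀ d : Dart, B ≤ d.1.1 → chi Z d = 0 := by
    intro d hd
    have h1 : d ∉ Z := by
      intro h1
      have := (mem_OB h).1 (hZB _ h1)
      apply this.1
      apply h.ext
      intro h2
      have := hB _ h2
      omega
    have h2 : rev d ∉ Z := by
      intro h1
      have := (mem_OB h).1 (hZB _ h1)
      apply this.1
      apply h.ext
      intro h2
      have h3 := hB _ h2
      have h4 := dr_vals d.2
      have h5 : (rev d).1.1 = d.1.1 + (dr d.2).1 := rfl
      omega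
    unfold chi
    rw [if_neg h1, if_neg h2, sub_zero]
  obtain ⟨w, hw, hw0⟩ := exists_potential (chi Z) (chi_rev Z) (chi_closed hI hZn) B hχ0
  -- constancy
  have hconst : ∀ (X : Set Site), Con X → (∀ s ∈ X, ∀ j, s + dr j ∈ X → chi Z (s, j) = 0) →
      ∀ a ∈ X, ∀ b ∈ X, w a = w b := by
    intro X hX hχ a ha b hb
    have := hX a ha b hb
    have key : ∀ c, Relation.ReflTransGen (Stp X) a c → c ∈ X ∧ w a = w c := by
      intro c hr
      induction hr with
      | refl => exact ⟨ha, rfl⟩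
      | @tail p q h1 h2 ih =>
        obtain ⟨h3, j, hj⟩ := h2
        refine ⟨h3, ?_⟩
        have h4 := hw p j
        rw [← hj, hχ _ ih.1 j (by rw [← hj]; exact h3)] at h4
        rw [ih.2]
        linarith
    exact (key b this).2
  have wU : ∀ s ∈ U, w s = 0 := by
    intro s hs
    have hs1 : ((B, 0) : Site) ∈ U := by
      apply h.ext
      intro h2
      have := hB _ h2
      simp only at this
      omega
    rw [hconst U h.conU ?_ s hs (B, 0) hs1]
    · exact hw0 _ le_rfl
    · intro s hs j hj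
      unfold chi
      rw [if_neg, if_neg, sub_zero]
      · intro h1
        exact ((mem_OB h).1 (hZB _ h1)).1 hj
      · intro h1
        exact ((mem_OB h).1 (hZB _ h1)).1 hs
  have wf : ∀ a b : Site, φ a = v → φ b = v → w a = w b := by
    intro a b ha hb
    refine hconst {s | φ s = v} h.conf ?_ a ha b hb
    intro s hs j hj
    unfold chi
    rw [if_neg, if_neg, sub_zero]
    · intro h1
      have := ((mem_OB h).1 (hZB _ h1)).2
      rw [rgt_rev] at this
      exact h.disj _ this hs
    · intro h1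
      exact h.disj _ ((mem_OB h).1 (hZB _ h1)).2 hj
  have val : ∀ d ∈ OB U K, w d.1 = if d ∈ Z then 1 else 0 := by
    intro d hd
    have h1 := hw d.1 d.2
    have h2 : w (d.1 + dr d.2) = 0 := wU _ ((mem_OB h).1 hd).2
    have h3 : rev d ∉ Z := by
      intro h3
      exact ((mem_OB h).1 (hZB _ h3)).1 ((mem_OB h).1 hd).2
    rw [h2, sub_zero] at h1
    rw [h1]
    unfold chi
    have e : ((d.1, d.2) : Dart) = d := rfl
    rw [e, if_neg h3, sub_zero]
  have h1 := val d₀ h0
  rw [if_pos h0Z] at h1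
  have h2 := val d hd
  rw [wf d.1 d₀.1 (OB_left h hd) (OB_left h h0), h1] at h2
  by_contra hcon
  have : d ∉ Z := fun h3 => hcon (Finset.mem_filter.1 h3).2
  rw [if_neg this] at h2
  exact one_ne_zero h2

end

end Run7.h761.Lb
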